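import Pool.Agent.P.MP_3c2f8c_gt.E6.ADefs
import Pool.Agent.P.MP_3c2f8c_gt.Gl.FDefs
import Pool.Agent.P.MP_3c2f8c_gt.Ex.ADefs

/-! Adelic data for a group that acts on a real Lie algebra. -/

namespace Pool.Agent.P.MP_3c2f8c_gt.AO

open E6

variable {ι : Type} [Fintype ι] [DecidableEq ι] {T : Tens ι ℝ}
  {P : Type} {U : P → Type} [∀ p, Group (U p)] {G G' : Type} [Group G] [Group G']

/-- Compactness of the adelic quotient. -/
def Cocpt (Φ : G →* ∀ p, U p) (ρ : G →* AutL T) (K : ∀ p, Subgroup (U p)) : Prop :=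
  ∃ (R : ℝ) (s : Set (∀ p, U p)), s.Finite ∧ s ⊆ Ad K ∧ ∀ u ∈ Ad K, ∀ x : AutL T, ∃ g : G, ∃ r ∈ s,
    (∀ p, (r p)⁻¹ * (Φ g p)⁻¹ * u p ∈ K p) ∧ Bd R ((ρ g)⁻¹ * x)

/-- Discreteness of the rational points. -/
def Proper (Φ : G →* ∀ p, U p) (ρ : G →* AutL T) (K : ∀ p, Subgroup (U p)) : Prop :=
  ∀ u ∈ Ad K, ∀ u' ∈ Ad K, ∀ R : ℝ,
    {g : G | (∀ p, (u' p)⁻¹ * Φ g p * u p ∈ K p) ∧ Bd R (ρ g)}.Finite

/-- Density of the rational points away from all but finitely many places in `Gd`. -/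
def Dens [∀ p, TopologicalSpace (U p)] (Φ : G →* ∀ p, U p) (K₀ : ∀ p, Subgroup (U p))
    (Gd : Set P) : Prop :=
  ∀ K, Level K₀ K → ∀ (s : Finset P), ∀ u ∈ Ad K₀, ∃ g : G,
    ∀ p, p ∈ s ∨ p ∉ Gd → (Φ g p)⁻¹ * u p ∈ K p

/-- The adelic data of one side. -/
structure AdD [∀ p, TopologicalSpace (U p)] [∀ p, IsTopologicalGroup (U p)]
    (Φ : G →* ∀ p, U p) (ρ : G →* AutL T) (K₀ : ∀ p, Subgroup (U p)) (Gd : Set P) : Prop where
  mem : ∀ g, Φ g ∈ Ad K₀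
  inj : ∀ p, Function.Injective (cmp Φ p)
  injR : Function.Injective ρ
  cocpt : ∀ K, Level K₀ K → Cocpt Φ ρ K
  proper : ∀ K, Level K₀ K → Proper Φ ρ K
  dens : Dens Φ K₀ Gd
  opn : ∀ K, Level K₀ K → ∀ p ∈ Gd,
    IsOpen (((Gam Φ K).map (cmp Φ p)).topologicalClosure : Set (U p))

/-- `γ` and `γ'` are matched, with inversion at the places where `ε = -1`. -/
def Mat (Φ : G →* ∀ p, U p) (Φ' : G' →* ∀ p, U p) (ρ : G →* AutL T) (ρ' : G' →* AutL T)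
    (K₀ : ∀ p, Subgroup (U p)) (ε : P → ℤ) (γ : G) (γ' : G') : Prop :=
  ∃ (τ : Subgroup.centralizer {γ} ≃* Subgroup.centralizer {γ'}) (u : ∀ p, U p) (g : AutL T),
    (∀ t : Subgroup.centralizer {γ}, (t : G) = γ → (τ t : G') = γ') ∧
    (∀ t t' : Subgroup.centralizer {γ}, t * t' = t' * t) ∧ u ∈ Ad K₀ ∧
    (∀ p (t : Subgroup.centralizer {γ}), Φ' (τ t) p * u p = u p * Φ t p ^ ε p) ∧
    ∀ t : Subgroup.centralizer {γ}, ρ' (τ t) * g = g * ρ t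

/-- The regular elements of `G` are matched with elements of `G'`, and their classes are
determined by the local classes. -/
structure AdMatch (Φ : G →* ∀ p, U p) (Φ' : G' →* ∀ p, U p) (ρ : G →* AutL T)
    (ρ' : G' →* AutL T) (K₀ : ∀ p, Subgroup (U p)) (ε : P → ℤ) (Rg : G → Prop) : Prop where
  mat : ∀ γ, Rg γ → ∃ γ', Mat Φ Φ' ρ ρ' K₀ ε γ γ'
  lg : ∀ γ₁ γ₂, Rg γ₁ → (∀ p, IsConj (Φ γ₁ p) (Φ γ₂ p)) → IsConj γ₁ γ₂

/-- Hecke data in a group `O`: a compact open subgroup and an invariant injective kernel whose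
closed chains are regular. -/
def Hecke {O : Type} [Group O] [TopologicalSpace O] (Rg : O → Prop) : Prop :=
  ∃ (K : Subgroup O) (κ : O ⧸ K → O ⧸ K → ℕ), CO K ∧ HK κ ∧
    (∀ (g : O) z z', κ (g • z) (g • z') = κ z z') ∧
    ∀ (m : ℕ) (γ : O) (z : O ⧸ K), Chain κ (m + 1) z (γ • z) → Rg γ

end Pool.Agent.P.MP_3c2f8c_gt.AO
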