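import Pool.Agent.P.MP_3c2f8c_gt.AO.GDefs

/-! Basic properties of `𝔰𝔩ₙ₊₁` and of the adjoint action. -/

namespace Pool.Agent.P.MP_3c2f8c_gt.AO

open Matrix E6

variable {n : ℕ} {R S : Type} [CommRing R] [CommRing S]

theorem Lie1_zero : emb (0 : Ix n → R) = 0 := embL.map_zero

theorem Lie1_add (x y : Ix n → R) : emb (x + y) = emb x + emb y := embL.map_add x y

theorem isLie_slT : IsLie (slT n R) := by
  refine ⟨fun x => emb_injective ?_, fun x y z => emb_injective ?_⟩
  · rw [emb_br, sub_self, Lie1_zero]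
  · simp only [Lie1_add, emb_br]
    noncomm_ring

theorem Lie1_repr (X : Mt n R) (i j : Fin (n + 1)) :
    (Matrix.stdBasis R (Fin (n + 1)) (Fin (n + 1))).repr X (i, j) = X i j := by
  simp [Matrix.stdBasis]

theorem Lie1_tr (A B : Mt n R) :
    LinearMap.trace R (Mt n R) (LinearMap.mulRight R B ∘ₗ LinearMap.mulLeft R A) =
      A.trace * B.trace := by
  rw [LinearMap.trace_eq_matrix_trace R (Matrix.stdBasis R (Fin (n + 1)) (Fin (n + 1))),
    Matrix.trace, Fintype.sum_prod_type, Matrix.trace, Matrix.trace, Finset.sum_mul_sum]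
  refine Finset.sum_congr rfl fun i _ => Finset.sum_congr rfl fun j _ => ?_
  rw [Matrix.diag_apply, LinearMap.toMatrix_apply, Lie1_repr, Matrix.stdBasis_eq_single]
  show (A * single i j (1 : R) * B) i j = A i i * B j j
  rw [Matrix.mul_assoc, Matrix.mul_apply, Finset.sum_eq_single i]
  · rw [Matrix.single_mul_apply_same, one_mul]
  · intro k _ hk
    rw [Matrix.single_mul_apply_of_ne _ _ _ _ _ hk, mul_zero]
  · simp

theorem Lie1_tr_rs (T : Mt n R →ₗ[R] Mt n R) (h : ∀ X, (T X).trace = 0) :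
    (rs T).trace = LinearMap.trace R (Mt n R) T := by
  rw [rs, ← LinearMap.toMatrix_eq_toMatrix', ← LinearMap.trace_eq_matrix_trace,
    ← LinearMap.comp_assoc, LinearMap.trace_comp_comm']
  congr 1
  exact LinearMap.ext fun X => emb_co (h X)

theorem Lie1_kil (x y : Ix n → R) :
    kil (slT n R) x y = 2 * (n + 1) * (emb x * emb y).trace := by
  have e : adM (slT n R) x * adM (slT n R) y =
      rs (LinearMap.mulRight R 1 ∘ₗ LinearMap.mulLeft R (emb x * emb y) -
        LinearMap.mulRight R (emb y) ∘ₗ LinearMap.mulLeft R (emb x) -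
        LinearMap.mulRight R (emb x) ∘ₗ LinearMap.mulLeft R (emb y) +
        LinearMap.mulRight R (emb y * emb x) ∘ₗ LinearMap.mulLeft R 1) := ext_emb fun z => by
    have e1 : emb x * emb y * emb z * 1 - emb x * emb z * emb y - emb y * emb z * emb x +
        1 * emb z * (emb y * emb x) = emb (br (slT n R) x (br (slT n R) y z)) := by
      simp only [emb_br]
      noncomm_ring
    rw [← mulVec_mulVec, rs_mulVec]
    show emb (br (slT n R) x (br (slT n R) y z)) = emb (co (emb x * emb y * emb z * 1 -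
      emb x * emb z * emb y - emb y * emb z * emb x + 1 * emb z * (emb y * emb x)))
    rw [e1, co_emb]
  rw [kil, e, Lie1_tr_rs]
  · simp only [map_add, map_sub, Lie1_tr, trace_emb, Matrix.trace_one, Fintype.card_fin,
      Matrix.trace_mul_comm (emb y) (emb x)]
    push_cast
    ring
  · intro Z
    show (emb x * emb y * Z * 1 - emb x * Z * emb y - emb y * Z * emb x +
      1 * Z * (emb y * emb x)).trace = 0
    have e1 : emb x * emb y * Z * 1 - emb x * Z * emb y - emb y * Z * emb x +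
        1 * Z * (emb y * emb x) =
        emb x * (emb y * Z - Z * emb y) - (emb y * Z - Z * emb y) * emb x := by
      noncomm_ring
    rw [e1, Matrix.trace_sub, Matrix.trace_mul_comm, sub_self]

theorem isCartan_thL : IsCartan (thL n ℝ) := by
  refine ⟨thL_sq, fun x hx => ?_⟩
  have h0 : emb x ≠ 0 := fun h => hx (emb_injective (h.trans Lie1_zero.symm))
  obtain ⟨i, j, hij⟩ : ∃ i j, emb x i j ≠ 0 := by
    by_contra h
    push Not at h
    exact h0 (Matrix.ext h)
  have h1 : 0 < (emb x * (emb x)ᵀ).trace := by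
    simp only [Matrix.trace, Matrix.diag_apply, Matrix.mul_apply, Matrix.transpose_apply]
    exact Finset.sum_pos' (fun a _ => Finset.sum_nonneg fun b _ => mul_self_nonneg _)
      ⟨i, Finset.mem_univ _, Finset.sum_pos' (fun b _ => mul_self_nonneg _)
        ⟨j, Finset.mem_univ _, mul_self_pos.2 hij⟩⟩
  rw [Lie1_kil, emb_thL, Matrix.mul_neg, Matrix.trace_neg, mul_neg, neg_lt_zero]
  positivity

theorem thL_ne_one (hn : 1 ≤ n) : thL n ℝ ≠ 1 := by
  intro h
  have h0 : (0 : Fin (n + 1)) ≠ Fin.last n := fun e => by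
    have := congrArg Fin.val e
    simp only [Fin.val_zero, Fin.val_last] at this
    omega
  have e := emb_thL (co (Matrix.single 0 (Fin.last n) (1 : ℝ)))
  rw [h, OneMemClass.coe_one, Units.val_one, one_mulVec,
    emb_co (Matrix.trace_single_eq_of_ne _ _ _ h0)] at e
  have e2 := congrFun (congrFun e 0) (Fin.last n)
  rw [Matrix.neg_apply, Matrix.transpose_apply, Matrix.single_apply_same,
    Matrix.single_apply_of_row_ne h0, neg_zero] at e2
  exact one_ne_zero e2

theorem Lie1_single (f : R →+* S) (i : Ix n) :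
    (emb (Pi.single i (1 : R))).map f = emb (Pi.single i (1 : S)) := by
  rw [emb_map]
  congr 1
  funext l
  by_cases h : l = i
  · subst h; simp
  · simp [Pi.single_eq_of_ne h]

theorem Lie1_adG (g : Gl n R) (i j : Ix n) :
    (adG g).1.1 i j = (g.1 * emb (Pi.single j 1) * (g⁻¹).1 : Mt n R) i.1.1 i.1.2 := rfl

theorem Lie1_thL (i j : Ix n) :
    (thL n R).1.1 i j = -emb (Pi.single j (1 : R)) i.1.2 i.1.1 := rfl

theorem adG_map (f : R →+* S) (g : Gl n R) :
    (adG (GeneralLinearGroup.map f g)).1 = GeneralLinearGroup.map f (adG g).1 := by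
  refine Units.ext (Matrix.ext fun i j => ?_)
  show _ = f ((adG g).1.1 i j)
  rw [Lie1_adG, Lie1_adG, ← Lie1_single f, ← map_inv, ← Matrix.map_apply (f := f),
    Matrix.map_mul, Matrix.map_mul]
  rfl

theorem thL_map (f : R →+* S) : (thL n S).1 = GeneralLinearGroup.map f (thL n R).1 := by
  refine Units.ext (Matrix.ext fun i j => ?_)
  show _ = f ((thL n R).1.1 i j)
  rw [Lie1_thL, Lie1_thL, ← Lie1_single f, map_neg, Matrix.map_apply]

theorem scalar_of_adG {g : Gl n R} (h : adG g = 1) : ∃ c : R, g.1 = c • (1 : Mt n R) := by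
  obtain ⟨c, hc⟩ := Matrix.mem_range_scalar_of_commute_single (M := g.1) fun i j hij => by
    have e := emb_adG g (co (Matrix.single i j (1 : R)))
    rw [h, OneMemClass.coe_one, Units.val_one, one_mulVec,
      emb_co (Matrix.trace_single_eq_of_ne _ _ _ hij)] at e
    show _ * _ = _ * _
    conv_lhs => rw [e]
    rw [Units.inv_mul_cancel_right]
  exact ⟨c, by rw [← hc, Matrix.scalar_apply, Matrix.smul_one_eq_diagonal]⟩

theorem Lie1_mul {ι : Type} [Fintype ι] {X Y : Matrix ι ι ℝ} {C D : ℝ} (hX : ∀ i j, |X i j| ≤ C)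
    (hY : ∀ i j, |Y i j| ≤ D) (i j : ι) : |(X * Y) i j| ≤ Fintype.card ι * (C * D) := by
  rw [Matrix.mul_apply]
  refine (Finset.abs_sum_le_sum_abs _ _).trans ((Finset.sum_le_card_nsmul _ _ (C * D)
    fun k _ => ?_).trans (le_of_eq ?_))
  · rw [abs_mul]
    exact mul_le_mul (hX i k) (hY k j) (abs_nonneg _) ((abs_nonneg _).trans (hX i k))
  · rw [nsmul_eq_mul, Finset.card_univ]

theorem bd_adG (C : ℝ) : ∃ D : ℝ, ∀ g : Gl n ℝ, (∀ i j, |g.1 i j| ≤ C) →
    (∀ i j, |(g⁻¹).1 i j| ≤ C) → Bd D (adG g) := by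
  obtain ⟨B, hB⟩ := (Set.finite_range fun z : Ix n × Fin (n + 1) × Fin (n + 1) =>
    |emb (Pi.single z.1 (1 : ℝ)) z.2.1 z.2.2|).bddAbove
  exact ⟨_, fun g h h' i j =>
    Lie1_mul (Lie1_mul h fun k l => hB ⟨(j, k, l), rfl⟩) h' i.1.1 i.1.2⟩

theorem bd_mul {ι : Type} [Fintype ι] [DecidableEq ι] {T : Tens ι ℝ} {C D : ℝ} {g h : AutL T}
    (hg : Bd C g) (hh : Bd D h) : Bd (Fintype.card ι * (C * D)) (g * h) :=
  Lie1_mul hg hh

theorem exists_bd {ι : Type} [Fintype ι] [DecidableEq ι] {T : Tens ι ℝ} (g : AutL T) :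
    ∃ C, Bd C g := by
  obtain ⟨B, hB⟩ := (Set.finite_range fun z : ι × ι => |g.1.1 z.1 z.2|).bddAbove
  exact ⟨B, fun i j => hB ⟨(i, j), rfl⟩⟩

theorem le_adG {A : Type} [NormedCommRing A] [IsUltrametricDist A] [NormOneClass A] {g : Gl n A}
    {C : ℝ} (h : Le C g.1) (h' : Le C (g⁻¹).1) (i j : Ix n) : ‖(adG g).1.1 i j‖ ≤ C * C := by
  have h1 : ∀ l : Ix n, ‖(Pi.single j (1 : A) : Ix n → A) l‖ ≤ 1 := fun l => by
    by_cases e : l = j
    · rw [e, Pi.single_eq_same, norm_one]
    · rw [Pi.single_eq_of_ne e, norm_zero]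
      exact zero_le_one
  have h2 : Le 1 (emb (Pi.single j (1 : A))) := fun k l => by
    rw [emb, Matrix.of_apply]
    split_ifs
    · rw [norm_neg]
      exact IsUltrametricDist.norm_sum_le_of_forall_le_of_nonneg zero_le_one fun k _ => h1 _
    · exact h1 _
  have h3 := (h.mul h2).mul h' i.1.1 i.1.2
  rwa [mul_one] at h3

/-- The cubic form does not vanish. -/
theorem exists_cube (hn : 2 ≤ n) {K : Type} [Field K] [CharZero K] :
    ∃ x : Ix n → K, (emb x * emb x * emb x).trace ≠ 0 := by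
  obtain ⟨m, rfl⟩ : ∃ m, n = m + 2 := ⟨n - 2, by omega⟩
  let d : Fin (m + 2 + 1) → K := Fin.cons 1 (Fin.cons 1 (Fin.cons (-2) 0))
  have h : (Matrix.diagonal d).trace = 0 := by
    rw [Matrix.trace_diagonal]
    simp only [d, Fin.sum_univ_succ, Fin.cons_zero, Fin.cons_succ, Pi.zero_apply,
      Finset.sum_const_zero]
    ring
  refine ⟨co (Matrix.diagonal d), ?_⟩
  rw [emb_co h, Matrix.diagonal_mul_diagonal, Matrix.diagonal_mul_diagonal, Matrix.trace_diagonal]
  simp only [d, Fin.sum_univ_succ, Fin.cons_zero, Fin.cons_succ, Pi.zero_apply, mul_zero,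
    Finset.sum_const_zero]
  norm_num

end Pool.Agent.P.MP_3c2f8c_gt.AO
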