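import Pool.Agent.P.MP_3c2f8c_gt.AO.ADefs
import Pool.Agent.P.MP_3c2f8c_gt.AO.Lie1
import Pool.Agent.P.MP_3c2f8c_gt.E6.An.Main
import Pool.Agent.P.MP_3c2f8c_gt.Ex.Gl.AbsB

/-! The abstract assembly: adelic data, Hecke data and matchings give isospectral manifolds. -/

namespace Pool.Agent.P.MP_3c2f8c_gt.AO

open E6

variable {ι : Type} [Fintype ι] [DecidableEq ι] {T : Tens ι ℝ} {θ : AutL T}
  {P : Type} {U : P → Type} [∀ p, Group (U p)] {G G' : Type} [Group G] [Group G']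
  [∀ p, TopologicalSpace (U p)] [∀ p, IsTopologicalGroup (U p)] {K₀ K : ∀ p, Subgroup (U p)}
  {Φ : G →* ∀ p, U p} {Φ' : G' →* ∀ p, U p} {ρ : G →* AutL T} {ρ' : G' →* AutL T} {Gd : Set P}

namespace AbsAux

theorem reps {H : Type} [Group H] {A B : Subgroup H} (h : A.relIndex B ≠ 0) :
    ∃ t : Set H, t.Finite ∧ t ⊆ B ∧ ∀ b ∈ B, ∃ c ∈ t, c⁻¹ * b ∈ A := by
  have : (A.subgroupOf B).FiniteIndex := ⟨h⟩
  refine ⟨Set.range fun z : B ⧸ A.subgroupOf B => (z.out : H), Set.finite_range _, ?_,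
    fun b hb => ⟨_, ⟨((⟨b, hb⟩ : B) : B ⧸ A.subgroupOf B), rfl⟩, ?_⟩⟩
  · rintro _ ⟨z, rfl⟩
    exact z.out.2
  · exact Subgroup.mem_subgroupOf.1
      (QuotientGroup.eq.1 (QuotientGroup.out_eq' ((⟨b, hb⟩ : B) : B ⧸ A.subgroupOf B)))

theorem reps_level {K' : ∀ p, Subgroup (U p)} (h : Level K₀ K) (h' : Level K₀ K') :
    ∃ t : Set (∀ p, U p), t.Finite ∧ t ⊆ Ad K₀ ∧
      ∀ b : ∀ p, U p, (∀ p, b p ∈ K' p) → ∃ c ∈ t, ∀ p, (c p)⁻¹ * b p ∈ K p := by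
  obtain ⟨t, h1, h2, h3⟩ := reps (Abs1Aux.relIndex_ne_zero h h' (MonoidHom.id (∀ p, U p)))
  refine ⟨t, h1, fun c hc => ?_, fun b hb => ?_⟩
  · rw [← h'.ad_eq]
    exact Set.finite_empty.subset fun p hp => hp ((mem_Gam _ _ _).1 (h2 hc) p)
  · obtain ⟨c, hc, h4⟩ := h3 b ((mem_Gam _ _ _).2 hb)
    exact ⟨c, hc, (mem_Gam _ _ _).1 h4⟩

end AbsAux

theorem Cocpt.level (h : Cocpt Φ ρ K₀) (h₀ : ∀ p, CO (K₀ p)) (hK : Level K₀ K) : Cocpt Φ ρ K := by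
  obtain ⟨R, s, hs, hsA, hc⟩ := h
  obtain ⟨t, ht, htA, h3⟩ := AbsAux.reps_level hK (K' := K₀) ⟨h₀, by simp⟩
  rw [Cocpt, hK.ad_eq]
  refine ⟨R, Set.image2 (· * ·) s t, hs.image2 _ ht, ?_, fun u hu x => ?_⟩
  · rintro _ ⟨r, hr, c, hc, rfl⟩
    exact mul_mem (hsA hr) (htA hc)
  · obtain ⟨g, r, hr, hg, hb⟩ := hc u hu x
    obtain ⟨c, hct, h4⟩ := h3 _ hg
    refine ⟨g, r * c, Set.mem_image2_of_mem hr hct, fun p => ?_, hb⟩
    simpa only [Pi.mul_apply, mul_inv_rev, mul_assoc] using h4 p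

theorem Proper.level (h : Proper Φ ρ K₀) (h₀ : ∀ p, CO (K₀ p)) (hK : Level K₀ K) :
    Proper Φ ρ K := by
  obtain ⟨t, ht, htA, h3⟩ := AbsAux.reps_level (K := K₀) ⟨h₀, by simp⟩ hK
  rw [Proper, hK.ad_eq]
  intro u hu u' hu' R
  refine (ht.biUnion fun c hc => h u hu (u' * c) (mul_mem hu' (htA hc)) R).subset fun g hg => ?_
  obtain ⟨c, hct, h4⟩ := h3 _ hg.1
  refine Set.mem_biUnion hct ⟨fun p => ?_, hg.2⟩
  simpa only [Pi.mul_apply, mul_inv_rev, mul_assoc] using h4 p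

theorem Dens.mono {Gd' : Set P} (h : Dens Φ K₀ Gd) (h' : (Gd \ Gd').Finite) : Dens Φ K₀ Gd' := by
  classical
  intro K hK s u hu
  obtain ⟨g, hg⟩ := h K hK (s ∪ h'.toFinset) u hu
  refine ⟨g, fun p hp => hg p ?_⟩
  by_cases h1 : p ∈ Gd
  · exact Or.inl (Finset.mem_union.2 (hp.imp_right fun h2 => h'.mem_toFinset.2 ⟨h1, h2⟩))
  · exact Or.inr h1

theorem Dens.dense (h : Dens Φ K₀ Gd) (h₀ : ∀ p, CO (K₀ p)) (p : P)
    (hb : ∀ N ∈ nhds (1 : U p), ∃ L : Subgroup (U p), CO L ∧ (L : Set (U p)) ⊆ N) :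
    Dense ((cmp Φ p).range : Set (U p)) := by
  classical
  refine fun x => mem_closure_iff_nhds.2 fun W hW => ?_
  have hN : (fun y : U p => x * y⁻¹) ⁻¹' W ∈ nhds (1 : U p) :=
    ContinuousAt.preimage_mem_nhds (by fun_prop) (by simpa using hW)
  obtain ⟨L, hL, hLN⟩ := hb _ hN
  have hu : Pi.mulSingle p x ∈ Ad K₀ := by
    refine (Set.finite_singleton p).subset fun p' hp' => ?_
    by_contra hne
    apply hp'
    rw [Pi.mulSingle_eq_of_ne hne]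
    exact one_mem _
  obtain ⟨g, hg⟩ := h _ (Level.update (K := K₀) ⟨h₀, by simp⟩ p hL) {p} _ hu
  have h1 := hg p (Or.inl (Finset.mem_singleton_self p))
  rw [Function.update_self, Pi.mulSingle_eq_same] at h1
  refine ⟨Φ g p, ?_, g, rfl⟩
  simpa using hLN h1

theorem Cocpt.cocompact (hθ : IsCartan θ) (h : Cocpt Φ ρ K) :
    ∃ C : Set (AutL T), IsCompact C ∧ ∀ g : AutL T, ∃ γ ∈ (Gam Φ K).map ρ, γ * g ∈ C := by
  obtain ⟨R, s, hs, -, hc⟩ := h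
  have h1 : ∀ r : ∀ p, U p, ∃ g₀ : G, ∀ g : G, (∀ p, (r p)⁻¹ * (Φ g p)⁻¹ ∈ K p) →
      ∀ p, (r p)⁻¹ * (Φ g₀ p)⁻¹ ∈ K p := fun r => by
    by_cases h : ∃ g : G, ∀ p, (r p)⁻¹ * (Φ g p)⁻¹ ∈ K p
    · obtain ⟨g, hg⟩ := h
      exact ⟨g, fun _ _ => hg⟩
    · exact ⟨1, fun g hg => absurd ⟨g, hg⟩ h⟩
  choose g₀ hg₀ using h1
  refine ⟨⋃ r ∈ s, (fun y => ρ (g₀ r) * y) '' {y | Bd R y},
    hs.isCompact_biUnion fun r _ => (isCompact_bd hθ R).image (by fun_prop), fun x => ?_⟩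
  obtain ⟨g, r, hr, hg, hb⟩ := hc 1 (one_mem _) x
  simp only [Pi.one_apply, mul_one] at hg
  refine ⟨_, ⟨g₀ r * g⁻¹, (mem_Gam _ _ _).2 fun p => ?_, rfl⟩, Set.mem_biUnion hr ⟨_, hb, ?_⟩⟩
  · have := mul_mem (inv_mem (hg₀ r g hg p)) (hg p)
    rw [mul_inv_rev, inv_inv, inv_inv, mul_assoc, mul_inv_cancel_left] at this
    rw [map_mul, map_inv]
    exact this
  · rw [map_mul, map_inv, mul_assoc]

theorem Cocpt.infinite (hL : IsLie T) (hθ : IsCartan θ) (h1 : θ ≠ 1) (h : Cocpt Φ ρ K) :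
    Infinite (Gam Φ K) := by
  have := infinite_of_cocompact hL hθ h1 (h.cocompact hθ)
  exact Infinite.of_surjective _ (ρ.subgroupMap_surjective (Gam Φ K))

section Transport

variable {U' : P → Type} [∀ p, Group (U' p)] [∀ p, TopologicalSpace (U' p)]
  [∀ p, IsTopologicalGroup (U' p)] {K₀' : ∀ p, Subgroup (U' p)} {e : ∀ p, U p ≃ₜ* U' p}

theorem AdD.along (D : AdD Φ ρ K₀ Gd)
    (he : {p | (K₀' p).comap (e p).toMulEquiv.toMonoidHom ≠ K₀ p}.Finite) :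
    AdD (Ex.along e Φ) ρ K₀' Gd := by
  refine ⟨fun g => Ex.AbsBAux.mem_ad he (D.mem g), fun p => (e p).injective.comp (D.inj p),
    D.injR, fun K hK => ?_, fun K hK u hu u' hu' R => ?_, fun K hK s u hu => ?_,
    fun K hK p hp => ?_⟩
  · obtain ⟨R, s, h1, h2, h3⟩ := D.cocpt _ (Ex.Level.comap he hK)
    refine ⟨R, (fun r p => e p (r p)) '' s, h1.image _, ?_, fun u hu x => ?_⟩
    · rintro _ ⟨r, hr, rfl⟩
      exact h2 hr
    · obtain ⟨g, r, hr, h4, h5⟩ := h3 _ (Ex.AbsBAux.symm_mem_ad hu) x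
      refine ⟨g, _, ⟨r, hr, rfl⟩, fun p => ?_, h5⟩
      have : e p ((r p)⁻¹ * (Φ g p)⁻¹ * (e p).symm (u p)) ∈ K p := h4 p
      rwa [map_mul, map_mul, map_inv, map_inv, ContinuousMulEquiv.apply_symm_apply] at this
  · refine (D.proper _ (Ex.Level.comap he hK) _ (Ex.AbsBAux.symm_mem_ad hu) _
      (Ex.AbsBAux.symm_mem_ad hu') R).subset fun g hg => ⟨fun p => ?_, hg.2⟩
    change e p (((e p).symm (u' p))⁻¹ * Φ g p * (e p).symm (u p)) ∈ K p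
    rw [map_mul, map_mul, map_inv, ContinuousMulEquiv.apply_symm_apply,
      ContinuousMulEquiv.apply_symm_apply]
    exact hg.1 p
  · rw [← hK.ad_eq] at hu
    obtain ⟨g, hg⟩ := D.dens _ (Ex.Level.comap he hK) s _
      ((Ex.Level.comap he hK).ad_eq ▸ Ex.AbsBAux.symm_mem_ad hu)
    refine ⟨g, fun p hp => ?_⟩
    have : e p ((Φ g p)⁻¹ * (e p).symm (u p)) ∈ K p := hg p hp
    rwa [map_mul, map_inv, ContinuousMulEquiv.apply_symm_apply] at this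
  · have := (e p).toHomeomorph.isOpenMap _ (D.opn _ (Ex.Level.comap he hK) p hp)
    rw [Subgroup.topologicalClosure_coe, Homeomorph.image_closure, Subgroup.coe_map,
      Set.image_image] at this
    exact this

theorem AdMatch.along {Ψ : G →* ∀ p, U' p} {ε : P → ℤ} {Rg : G → Prop}
    (he : {p | (K₀' p).comap (e p).toMulEquiv.toMonoidHom ≠ K₀ p}.Finite)
    (M : AdMatch (Ex.along (fun p => (e p).symm) Ψ) Φ' ρ ρ' K₀ ε Rg) :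
    AdMatch Ψ (Ex.along e Φ') ρ ρ' K₀' ε Rg := by
  refine ⟨fun γ hγ => ?_, fun γ₁ γ₂ h1 h2 => M.lg γ₁ γ₂ h1 fun p =>
    (e p).symm.toMulEquiv.toMonoidHom.map_isConj (h2 p)⟩
  obtain ⟨γ', τ, u, g, a, b, c, d, f⟩ := M.mat γ hγ
  refine ⟨γ', τ, fun p => e p (u p), g, a, b, Ex.AbsBAux.mem_ad he c, fun p t => ?_, f⟩
  have : e p (Φ' (τ t) p * u p) = e p (u p * (e p).symm (Ψ t p) ^ ε p) := congrArg (e p) (d p t)
  rwa [map_mul, map_mul, map_zpow, ContinuousMulEquiv.apply_symm_apply] at this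

end Transport

namespace AbsAux

omit [∀ p, TopologicalSpace (U p)] [∀ p, IsTopologicalGroup (U p)] in
theorem finCl (h : Cocpt Φ ρ K) : FinCl Φ K := by
  obtain ⟨R, s, hs, -, h⟩ := h
  refine ⟨s, hs, fun u hu => ?_⟩
  obtain ⟨g, r, hr, hg, -⟩ := h u hu 1
  exact ⟨g, r, hr, hg⟩

omit [∀ p, TopologicalSpace (U p)] [∀ p, IsTopologicalGroup (U p)] in
theorem matched (h : ∀ g, Φ g ∈ Ad K) (h' : ∀ g, Φ' g ∈ Ad K) (l : P)
    {κ : U l ⧸ K l → U l ⧸ K l → ℕ} (hinv : ∀ (g : U l) z z', κ (g • z) (g • z') = κ z z')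
    {ε : P → ℤ} (hε : ∀ p, ε p = 1 ∨ ε p = -1) (hε' : {p | ε p ≠ 1}.Finite) (hl : ε l = 1)
    (had : Ad K = Ad K₀) {γ : G} {γ' : G'} (M : Mat Φ Φ' ρ ρ' K₀ ε γ γ') :
    letI := zAct Φ K h
    letI := zAct Φ' K h'
    MatchedL ρ ρ' (kerAt K l κ) γ γ' := by
  letI := zAct Φ K h
  letI := zAct Φ' K h'
  obtain ⟨τ, u, g, hτ, hc, hu, hu', hg⟩ := M
  rw [← had] at hu
  have key : ∀ p, ∃ ι : U p ⧸ K p ≃ U p ⧸ K p, (ε p = 1 → ∀ y, ι y = y) ∧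
      ∀ (t : Subgroup.centralizer {γ}) y, ι (Φ t p • y) = (Φ t p ^ ε p) • ι y := fun p => by
    rcases hε p with e | e
    · exact ⟨Equiv.refl _, fun _ _ => rfl, fun t y => by rw [e, zpow_one]; rfl⟩
    · letI := MulAction.compHom (U p ⧸ K p) ((cmp Φ p).comp (Subgroup.centralizer {γ}).subtype)
      obtain ⟨ι, hι⟩ := exists_inv_equiv (Y := U p ⧸ K p) hc
      refine ⟨ι, fun e' => absurd (e.symm.trans e') (by decide), fun t y => ?_⟩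
      rw [e, zpow_neg_one]
      refine (hι t y).trans ?_
      show ((cmp Φ p).comp (Subgroup.centralizer {γ}).subtype) t⁻¹ • ι y = _
      rw [map_inv]
      rfl
  choose ι h1 h2 using key
  let e : ∀ p, U p ⧸ K p ≃ U p ⧸ K p := fun p => (ι p).trans (MulAction.toPerm (u p))
  have he : ∀ p y, e p y = u p • ι p y := fun _ _ => rfl
  have hfix : ∀ p, p ∉ {p | u p ∉ K p} ∪ {p | ε p ≠ 1} →
      e p ((1 : U p) : U p ⧸ K p) = ((1 : U p) : U p ⧸ K p) := fun p hp => by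
    simp only [Set.mem_union, Set.mem_setOf_eq, not_or, not_not] at hp
    rw [he, h1 p hp.2, MulAction.Quotient.smul_mk, smul_eq_mul, mul_one, QuotientGroup.eq]
    simpa using hp.1
  have hfin : ({p | u p ∉ K p} ∪ {p | ε p ≠ 1}).Finite := Set.Finite.union hu hε'
  let Ψ : Zs K ≃ Zs K := Equiv.subtypeEquiv (Equiv.piCongrRight e) fun z =>
    ⟨fun hz => (hz.union hfin).subset fun p hp => by
      by_contra h0
      rw [Set.mem_union, not_or] at h0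
      apply hp
      have h3 : z p = ((1 : U p) : U p ⧸ K p) := not_not.1 h0.1
      show e p (z p) = _
      rw [h3, hfix p h0.2],
    fun hz => (hz.union hfin).subset fun p hp => by
      by_contra h0
      rw [Set.mem_union, not_or] at h0
      have h3 : e p (z p) = ((1 : U p) : U p ⧸ K p) := not_not.1 h0.1
      exact hp ((e p).injective (h3.trans (hfix p h0.2).symm))⟩
  have hΨ : ∀ z p, (Ψ z).1 p = e p (z.1 p) := fun _ _ => rfl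
  refine ⟨τ, g, Ψ, hτ, hg, fun t z => Subtype.ext (funext fun p => ?_), fun z z' =>
    Abs3Aux.kerAt_congr (fun p => (e p).injective.eq_iff) ?_⟩
  · show e p (Φ t p • z.1 p) = Φ' (τ t) p • e p (z.1 p)
    rw [he, he, h2, ← mul_smul, ← mul_smul, hu']
  · rw [hΨ, hΨ, he, he, hinv, h1 l hl, h1 l hl]

omit [∀ p, TopologicalSpace (U p)] [∀ p, IsTopologicalGroup (U p)] in
theorem conj {ε : P → ℤ} {γ : G} {γ' : G'} (h : Mat Φ Φ' ρ ρ' K₀ ε γ γ') (p : P) :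
    IsConj (Φ γ p ^ ε p) (Φ' γ' p) := by
  obtain ⟨τ, u, g, h1, -, -, h2, -⟩ := h
  have hγ : γ ∈ Subgroup.centralizer {γ} := Subgroup.mem_centralizer_singleton_iff.2 rfl
  have h4 := h2 p ⟨γ, hγ⟩
  rw [h1 ⟨γ, hγ⟩ rfl] at h4
  refine isConj_iff.2 ⟨u p, ?_⟩
  rw [← h4, mul_inv_cancel_right]

omit [∀ p, TopologicalSpace (U p)] [∀ p, IsTopologicalGroup (U p)] in
theorem transfer (had : Ad K = Ad K₀) (h : ∀ g, Φ g ∈ Ad K) (h' : ∀ g, Φ' g ∈ Ad K)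
    {l : P} {RgL : U l → Prop} {κ : U l ⧸ K l → U l ⧸ K l → ℕ}
    (hinv : ∀ (g : U l) z z', κ (g • z) (g • z') = κ z z')
    (hreg : ∀ (m : ℕ) (γ : U l) (z : U l ⧸ K l), Chain κ (m + 1) z (γ • z) → RgL γ)
    {ε : P → ℤ} (hε : ∀ p, ε p = 1 ∨ ε p = -1) (hε' : {p | ε p ≠ 1}.Finite) (hl : ε l = 1)
    {Rg : G → Prop} (hR : ∀ γ, RgL (Φ γ l) → Rg γ) (M : AdMatch Φ Φ' ρ ρ' K₀ ε Rg) :
    letI := zAct Φ K h
    letI := zAct Φ' K h'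
    TransferL ρ ρ' (kerAt K l κ) := by
  have h0 : ∀ γ, ∃ γ', Rg γ → Mat Φ Φ' ρ ρ' K₀ ε γ γ' := fun γ => by
    by_cases hγ : Rg γ
    · exact (M.mat γ hγ).imp fun _ h _ => h
    · exact ⟨1, fun h => absurd h hγ⟩
  choose φ hφ using h0
  refine ⟨Rg, φ, fun m γ z hc => hR γ (hreg m _ (z.1 l) (chain_kerAt l hc)),
    fun γ hγ => matched h h' l hinv hε hε' hl had (hφ γ hγ),
    fun γ₁ γ₂ h₁ h₂ hc => M.lg γ₁ γ₂ h₁ fun p => ?_⟩
  have h3 : IsConj (Φ γ₁ p ^ ε p) (Φ γ₂ p ^ ε p) := (conj (hφ γ₁ h₁) p).trans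
    (((cmp Φ' p).map_isConj hc).trans (conj (hφ γ₂ h₂) p).symm)
  rcases hε p with e | e
  · rwa [e, zpow_one, zpow_one] at h3
  · rw [e, zpow_neg_one, zpow_neg_one] at h3
    obtain ⟨c, hc'⟩ := isConj_iff.1 h3
    refine isConj_iff.2 ⟨c, inv_injective ?_⟩
    rw [← hc']
    group

theorem nice (D : AdD Φ ρ K₀ Gd) (hK : Level K₀ K) (h : ∀ g, Φ g ∈ Ad K) :
    letI := zAct Φ K h
    NiceL G (Zs K) ρ := by
  letI := zAct Φ K h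
  refine ⟨D.injR, fun z z' R => ?_, ?_⟩
  · obtain ⟨u, rfl⟩ := exists_smul_z0 z
    obtain ⟨u', rfl⟩ := exists_smul_z0 z'
    exact (D.proper K hK u.1 u.2 u'.1 u'.2 R).subset fun g hg =>
      ⟨(zAct_smul_eq_iff Φ h g u u').1 hg.1, hg.2⟩
  · obtain ⟨R, s, hs, hsA, hc⟩ := D.cocpt K hK
    have hfin : ((fun r : Ad K => r • z0 K) '' (Subtype.val ⁻¹' s)).Finite :=
      (hs.preimage Subtype.val_injective.injOn).image _
    refine ⟨R, hfin.toFinset, fun x z => ?_⟩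
    obtain ⟨u, rfl⟩ := exists_smul_z0 z
    obtain ⟨g, r, hr, hg, hb⟩ := hc u.1 u.2 x
    refine ⟨g⁻¹, ?_, hfin.mem_toFinset.2 ⟨⟨r, hsA hr⟩, hr, ?_⟩⟩
    · rw [map_inv]
      exact hb
    · refine ((zAct_smul_eq_iff Φ h g⁻¹ u ⟨r, hsA hr⟩).2 fun p => ?_).symm
      rw [map_inv]
      exact hg p

theorem tf (D : AdD Φ ρ K₀ Gd) {q : P} (hq : ∀ g ∈ K q, IsOfFinOrder g → g = 1) :
    ∀ g ∈ (Gam Φ K).map ρ, IsOfFinOrder g → g = 1 := by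
  rintro _ ⟨γ, hγ, rfl⟩ hf
  have h1 : IsOfFinOrder γ := D.injR.isOfFinOrder_iff.1 hf
  have h2 : γ = 1 := D.inj q ((hq _ ((mem_Gam _ _ _).1 hγ q)
    ((cmp Φ q).isOfFinOrder h1)).trans (map_one _).symm)
  rw [h2, map_one]

theorem supp (D : AdD Φ ρ K₀ Gd) (hK : Level K₀ K) (l : P) :
    ∃ S : Finset P, (∀ p ∈ S, p ∈ Gd ∧ p ≠ l) ∧ ∀ u ∈ Ad K, ∃ g : G,
      ∀ p, p ∉ S → (Φ g p)⁻¹ * u p ∈ K p := by
  obtain ⟨R, s, hs, hsA, hc⟩ := D.cocpt K hK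
  have h1 : ∀ r ∈ s, ∃ g : G, ∀ p, p ∈ ({l} : Finset P) ∨ p ∉ Gd → (Φ g p)⁻¹ * r p ∈ K p :=
    fun r hr => D.dens K hK {l} r (hK.ad_eq ▸ hsA hr)
  choose! g₀ hg₀ using h1
  have hfin : (⋃ r ∈ s, {p | (Φ (g₀ r) p)⁻¹ * r p ∉ K p}).Finite := hs.biUnion fun r hr =>
    mul_mem (inv_mem (hK.ad_eq ▸ D.mem (g₀ r))) (hsA hr)
  refine ⟨hfin.toFinset, fun p hp => ?_, fun u hu => ?_⟩
  · obtain ⟨r, hr, h2⟩ := Set.mem_iUnion₂.1 (hfin.mem_toFinset.1 hp)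
    refine ⟨?_, fun e => h2 (hg₀ r hr p (Or.inl (Finset.mem_singleton.2 e)))⟩
    by_contra h3
    exact h2 (hg₀ r hr p (Or.inr h3))
  · obtain ⟨g, r, hr, hg, -⟩ := hc u hu 1
    refine ⟨g * g₀ r, fun p hp => ?_⟩
    have h2 : (Φ (g₀ r) p)⁻¹ * r p ∈ K p := by
      by_contra h3
      exact hp (hfin.mem_toFinset.2 (Set.mem_biUnion hr h3))
    simpa only [map_mul, Pi.mul_apply, mul_inv_rev, mul_assoc, mul_inv_cancel_left] using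
      mul_mem h2 (hg p)

theorem good_level (D : AdD Φ ρ K₀ Gd) (D' : AdD Φ' ρ' K₀ Gd) {K₁ : ∀ p, Subgroup (U p)}
    (h₁ : Level K₀ K₁) (hlev : ∀ p ∈ Gd, ∃ L : Subgroup (U p), GoodLev L) {l q : P} (hq : q ≠ l)
    (hqG : q ∈ Gd) : ∃ K, Level K₀ K ∧ K l = K₁ l ∧ (∀ g ∈ K q, IsOfFinOrder g → g = 1) ∧
      OneCl Φ K ∧ OneCl Φ' K := by
  classical
  obtain ⟨T₁, a₁, hT₁⟩ := supp D h₁ l
  obtain ⟨T₂, a₂, hT₂⟩ := supp D' h₁ l
  choose! L hL using hlev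
  let S : Finset P := insert q (T₁ ∪ T₂)
  let K : ∀ p, Subgroup (U p) := fun p => if p ∈ S then L p else K₁ p
  have hS : ∀ p ∈ S, p ∈ Gd ∧ p ≠ l := fun p hp => by
    rcases Finset.mem_insert.1 hp with rfl | hp
    · exact ⟨hqG, hq⟩
    · exact (Finset.mem_union.1 hp).elim (a₁ p) (a₂ p)
  have hKS : ∀ p ∈ S, GoodLev (K p) := fun p hp => by
    simp only [K, if_pos hp]
    exact hL p (hS p hp).1
  have hKn : ∀ p, p ∉ S → K p = K₁ p := fun p hp => if_neg hp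
  have hK : Level K₀ K := by
    refine ⟨fun p => ?_, (h₁.2.union S.finite_toSet).subset fun p hp => ?_⟩
    · by_cases h : p ∈ S
      · exact (hKS p h).1
      · rw [hKn p h]; exact h₁.1 p
    · by_cases h : p ∈ S
      · exact Or.inr h
      · exact Or.inl (by rw [Set.mem_ofPred_eq, ← hKn p h]; exact hp)
  have had : Ad K = Ad K₁ := hK.ad_eq.trans h₁.ad_eq.symm
  refine ⟨K, hK, hKn l fun h => (hS l h).2 rfl, (hKS q (Finset.mem_insert_self _ _)).2.2, ?_, ?_⟩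
  · exact Abs2Aux.oneCl_of (finCl (D.cocpt K hK)) had ∅ T₁ S
      (fun p hp => ⟨hKS p hp, D.opn K hK p (hS p hp).1⟩)
      (fun p hp => ⟨hKn p hp, Or.inr fun h => hp (by simp [S, h])⟩)
      fun u hu => (hT₁ u hu).imp fun g hg => ⟨by simp, hg⟩
  · exact Abs2Aux.oneCl_of (finCl (D'.cocpt K hK)) had ∅ T₂ S
      (fun p hp => ⟨hKS p hp, D'.opn K hK p (hS p hp).1⟩)
      (fun p hp => ⟨hKn p hp, Or.inr fun h => hp (by simp [S, h])⟩)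
      fun u hu => (hT₂ u hu).imp fun g hg => ⟨by simp, hg⟩

end AbsAux

theorem exists_isospectral [Countable G] [Countable G'] (hL : IsLie T) (hθ : IsCartan θ)
    (D : AdD Φ ρ K₀ Gd) (D' : AdD Φ' ρ' K₀ Gd) (h₀ : ∀ p, CO (K₀ p))
    (hlev : ∀ p ∈ Gd, ∃ L : Subgroup (U p), GoodLev L) {l q : P} (hq : q ≠ l) (hqG : q ∈ Gd)
    {RgL : U l → Prop} (hH : Hecke RgL) {ε : P → ℤ} (hε : ∀ p, ε p = 1 ∨ ε p = -1)
    (hε' : {p | ε p ≠ 1}.Finite) (hl : ε l = 1) {Rg : G → Prop} {Rg' : G' → Prop}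
    (hR : ∀ γ, RgL (Φ γ l) → Rg γ) (hR' : ∀ γ, RgL (Φ' γ l) → Rg' γ)
    (M : AdMatch Φ Φ' ρ ρ' K₀ ε Rg) (M' : AdMatch Φ' Φ ρ' ρ K₀ ε Rg') :
    ∃ K, Level K₀ K ∧ (∀ g ∈ (Gam Φ K).map ρ, IsOfFinOrder g → g = 1) ∧
      (∀ g ∈ (Gam Φ' K).map ρ', IsOfFinOrder g → g = 1) ∧
      E6.Isospectral θ ((Gam Φ K).map ρ) ((Gam Φ' K).map ρ') := by
  classical
  obtain ⟨L, κ, hLc, hκ, hinv, hreg⟩ := hH
  have h₁ : Level K₀ (Function.update K₀ l L) := Level.update ⟨h₀, by simp⟩ l hLc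
  obtain ⟨K, hK, hKl, hKq, o, o'⟩ := AbsAux.good_level D D' h₁ hlev hq hqG
  rw [Function.update_self] at hKl
  subst hKl
  have h : ∀ g, Φ g ∈ Ad K := fun g => hK.ad_eq ▸ D.mem g
  have h' : ∀ g, Φ' g ∈ Ad K := fun g => hK.ad_eq ▸ D'.mem g
  let _ := zAct Φ K h
  let _ := zAct Φ' K h'
  refine ⟨K, hK, AbsAux.tf D hKq, AbsAux.tf D' hKq, ?_⟩
  rw [← stabilizer_z0 Φ h, ← stabilizer_z0 Φ' h']
  exact isospectral_of_transfer hL hθ (AbsAux.nice D hK h) (AbsAux.nice D' hK h') (hk_kerAt l hκ)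
    (fun g => kerAt_smul l hinv ⟨_, h g⟩) (fun g => kerAt_smul l hinv ⟨_, h' g⟩)
    (AbsAux.transfer hK.ad_eq h h' hinv hreg hε hε' hl hR M)
    (AbsAux.transfer hK.ad_eq h' h hinv hreg hε hε' hl hR' M') (z0 K)
    (o.stabilizer h) (o'.stabilizer h')

theorem Proper.discrete (h : Proper Φ ρ K) (C : ℝ) :
    {g : AutL T | g ∈ (Gam Φ K).map ρ ∧ ∀ i j, |g.1.1 i j| ≤ C}.Finite := by
  refine ((h 1 (one_mem _) 1 (one_mem _) C).image ρ).subset ?_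
  rintro _ ⟨⟨γ, hγ, rfl⟩, hb⟩
  exact ⟨γ, ⟨fun p => by simpa using (mem_Gam _ _ _).1 hγ p, hb⟩, rfl⟩

/-- A cocompact subgroup of a discrete group has finite index. -/
theorem relIndex_ne_zero_of_cocompact (hθ : IsCartan θ) {Γ Λ : Subgroup (AutL T)} (hle : Γ ≤ Λ)
    (hΓ : ∃ C : Set (AutL T), IsCompact C ∧ ∀ g : AutL T, ∃ γ ∈ Γ, γ * g ∈ C)
    (hΛ : ∀ C : ℝ, {g : AutL T | g ∈ Λ ∧ Bd C g}.Finite) : Γ.relIndex Λ ≠ 0 := by
  obtain ⟨C, hC, h⟩ := hΓ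
  obtain ⟨R, hR⟩ := bd_of_isCompact hC
  have := (hΛ R).to_subtype
  have : Finite (Λ ⧸ Γ.subgroupOf Λ) := by
    refine Finite.of_surjective (fun f : {g : AutL T | g ∈ Λ ∧ Bd R g} =>
      (((⟨f.1, f.2.1⟩ : Λ)⁻¹ : Λ) : Λ ⧸ Γ.subgroupOf Λ)) fun z => ?_
    obtain ⟨x, rfl⟩ := QuotientGroup.mk_surjective z
    obtain ⟨γ, hγ, h1⟩ := h (x.1)⁻¹
    refine ⟨⟨γ * (x.1)⁻¹, mul_mem (hle hγ) (inv_mem x.2), hR _ h1⟩, QuotientGroup.eq.2 ?_⟩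
    rw [Subgroup.mem_subgroupOf]
    simpa using hγ
  exact Subgroup.index_ne_zero_of_finite

end Pool.Agent.P.MP_3c2f8c_gt.AO
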