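import Pool.Agent.P.MP_3c2f8c_gt.AO.Defs
import Pool.Agent.Lib.CFT.LDefs

/-!
Cyclic algebras with an involution of the second kind and their unitary groups, over a commutative
ring with two commuting automorphisms.
-/

namespace Pool.Agent.P.MP_3c2f8c_gt.AO

open Matrix Pool.Agent.Lib.CFT
open scoped TensorProduct

/-- Square matrices of size `n + 1`. -/
abbrev Mt (n : ℕ) (A : Type) : Type := Matrix (Fin (n + 1)) (Fin (n + 1)) A

/-- Invertible matrices of size `n + 1`. -/
abbrev Gl (n : ℕ) (A : Type) [CommRing A] : Type := GL (Fin (n + 1)) A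

/-- A commutative ring with two commuting automorphisms, the second one an involution. -/
class Tw (A : Type) [CommRing A] where
  sg : A ≃+* A
  ta : A ≃+* A
  comm : ∀ x, sg (ta x) = ta (sg x)
  tata : ∀ x, ta (ta x) = x

export Tw (sg ta)

/-- The order of the first automorphism divides `n + 1`. -/
class Ord (n : ℕ) (A : Type) [CommRing A] [Tw A] : Prop where
  pow : ∀ x : A, (sg ^ (n + 1) : A ≃+* A) x = x

variable {n : ℕ} {A A' : Type} [CommRing A] [Tw A] [CommRing A'] [Tw A']

/-- The partial norms. -/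
def om (i : ℕ) (c : A) : A := ∏ k ∈ Finset.range i, (sg ^ k : A ≃+* A) c

/-- `β` is fixed by the first automorphism and inverted by the second. -/
structure Par (β : Aˣ) : Prop where
  sg : sg β.1 = β.1
  ta : ta β.1 * β.1 = 1

/-- `β` is the norm of an element that is inverted by the second automorphism. -/
def UN (n : ℕ) (β c : A) : Prop := ta c * c = 1 ∧ om (n + 1) c = β

omit [Tw A] in
variable (n) in
/-- The companion matrix of `X ^ (n + 1) - β`. -/
def cm (β : A) : Mt n A := Matrix.of fun i j => if i = j + 1 then if i = 0 then β else 1 else 0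

omit [Tw A] in
theorem cm_mul_tr (β : Aˣ) : cm n β.1 * (cm n (β⁻¹).1)ᵀ = 1 := by
  ext i j
  rw [Matrix.mul_apply, Finset.sum_eq_single (i - 1)]
  · by_cases h : i = j
    · subst h
      by_cases h0 : i = 0 <;> simp [cm, h0]
    · have h' : ¬ j = i := fun e => h e.symm
      simp [cm, h, h']
  · intro k _ hk
    have : ¬ i = k + 1 := fun e => hk (by rw [e, add_sub_cancel_right])
    simp [cm, this]
  · simp

variable (n) in
/-- The companion matrix as an invertible matrix. -/
def aG (β : Aˣ) : Gl n A :=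
  ⟨cm n β.1, (cm n (β⁻¹).1)ᵀ, cm_mul_tr β, mul_eq_one_comm.1 (cm_mul_tr β)⟩

/-- The involution. -/
def st (x : Mt n A) : Mt n A := (x.map ta)ᵀ

theorem st_mul (x y : Mt n A) : st (x * y) = st y * st x := by
  rw [st, Matrix.map_mul, transpose_mul]; rfl

theorem st_one : st (1 : Mt n A) = 1 := by
  rw [st, Matrix.map_one _ (map_zero _) (map_one _), transpose_one]

variable (n) in
/-- The cyclic algebra. -/
def Dal (β : A) : Subring (Mt n A) where
  carrier := {x | x * cm n β = cm n β * x.map sg}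
  zero_mem' := by simp
  one_mem' := by simp
  add_mem' := fun {x y} hx hy => by
    simp only [Set.mem_ofPred_eq] at hx hy ⊢
    rw [Matrix.add_mul, hx, hy, Matrix.map_add _ (map_add _), Matrix.mul_add]
  neg_mem' := fun {x} hx => by
    simp only [Set.mem_ofPred_eq] at hx ⊢
    rw [Matrix.neg_mul, hx, Matrix.map_neg _ (map_neg _), Matrix.mul_neg]
  mul_mem' := fun {x y} hx hy => by
    simp only [Set.mem_ofPred_eq] at hx hy ⊢
    rw [Matrix.mul_assoc, hy, ← Matrix.mul_assoc, hx, Matrix.map_mul, Matrix.mul_assoc]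

theorem mem_Dal {β : A} {x : Mt n A} : x ∈ Dal n β ↔ x * cm n β = cm n β * x.map sg := Iff.rfl

theorem inv_mem_Dal {β : A} {g : Gl n A} (h : g.1 ∈ Dal n β) : (g⁻¹).1 ∈ Dal n β := by
  have e : g.1.map sg * (g⁻¹).1.map sg = 1 := by
    rw [← Matrix.map_mul, Units.mul_inv, Matrix.map_one _ (map_zero _) (map_one _)]
  calc (g⁻¹).1 * cm n β = (g⁻¹).1 * (cm n β * g.1.map sg) * (g⁻¹).1.map sg := by
        rw [Matrix.mul_assoc, Matrix.mul_assoc, e, Matrix.mul_one]
    _ = cm n β * (g⁻¹).1.map sg := by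
        rw [← mem_Dal.1 h, ← Matrix.mul_assoc, Units.inv_mul, Matrix.one_mul]

variable (n) in
/-- The unitary group. -/
def Un (β : A) : Subgroup (Gl n A) where
  carrier := {g | g.1 ∈ Dal n β ∧ st g.1 * g.1 = 1}
  one_mem' := ⟨one_mem _, by rw [Units.val_one, st_one, mul_one]⟩
  mul_mem' := fun {g h} hg hh => ⟨mul_mem hg.1 hh.1, by
    rw [Units.val_mul, st_mul, mul_assoc, ← mul_assoc (st g.1), hg.2, one_mul, hh.2]⟩
  inv_mem' := fun {g} hg => ⟨inv_mem_Dal hg.1, by
    have e : (g⁻¹).1 = st g.1 := Units.inv_eq_of_mul_eq_one_left hg.2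
    conv_lhs => rw [e]; arg 1; rw [← e]
    rw [← st_mul, Units.mul_inv, st_one]⟩

theorem Un.inv_val {β : A} (g : Un n β) : (g⁻¹).1.1 = st g.1.1 :=
  Units.inv_eq_of_mul_eq_one_left g.2.2

variable (n) in
/-- The scalars in the unitary group. -/
def Zc (β : A) : Subgroup (Un n β) where
  carrier := {g | ∃ c : A, g.1.1 = c • (1 : Mt n A)}
  one_mem' := ⟨1, by simp⟩
  mul_mem' := by
    rintro g h ⟨c, hc⟩ ⟨c', hc'⟩
    exact ⟨c * c', by rw [Subgroup.coe_mul, Units.val_mul, hc, hc', smul_mul_smul_comm, mul_one]⟩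
  inv_mem' := by
    rintro g ⟨c, hc⟩
    refine ⟨ta c, ?_⟩
    rw [Un.inv_val, hc]
    ext i j
    by_cases h : i = j
    · simp [st, h]
    · simp [st, Matrix.one_apply_ne h, Matrix.one_apply_ne' h]

instance (β : A) : (Zc n β).Normal := ⟨by
  rintro g ⟨c, hc⟩ h
  refine ⟨c, ?_⟩
  rw [Subgroup.coe_mul, Subgroup.coe_mul, Units.val_mul, Units.val_mul, hc, Matrix.mul_smul,
    Matrix.mul_one, Matrix.smul_mul, Subgroup.coe_inv, Units.mul_inv]⟩

variable (n) in
/-- The projective unitary group. -/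
abbrev PU (β : A) : Type := Un n β ⧸ Zc n β

/-- A ring homomorphism that commutes with the two automorphisms. -/
structure TwHom (f : A →+* A') : Prop where
  sg : ∀ x, f (sg x) = sg (f x)
  ta : ∀ x, f (ta x) = ta (f x)

omit [Tw A] [Tw A'] in
theorem cm_map (f : A →+* A') (β : A) : (cm n β).map f = cm n (f β) := by
  ext i j
  simp only [cm, Matrix.map_apply, Matrix.of_apply]
  split_ifs <;> simp

theorem TwHom.mem_Dal {f : A →+* A'} (hf : TwHom f) {β : A} {x : Mt n A} (h : x ∈ Dal n β) :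
    x.map f ∈ Dal n (f β) := by
  have e := congrArg (fun y : Mt n A => y.map f) (AO.mem_Dal.1 h)
  simp only [Matrix.map_mul, cm_map] at e
  rw [AO.mem_Dal, e]
  congr 1
  ext i j
  exact hf.sg _

theorem TwHom.st {f : A →+* A'} (hf : TwHom f) (x : Mt n A) : (st x).map f = st (x.map f) := by
  ext i j
  exact hf.ta _

/-- Change of the base ring on unitary groups. -/
def unMap {f : A →+* A'} (hf : TwHom f) (β : A) : Un n β →* Un n (f β) :=
  ((GeneralLinearGroup.map f).comp (Un n β).subtype).codRestrict _ fun g =>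
    ⟨hf.mem_Dal g.2.1, by
      show st (g.1.1.map f) * g.1.1.map f = 1
      rw [← hf.st, ← Matrix.map_mul, g.2.2, Matrix.map_one _ (map_zero _) (map_one _)]⟩

theorem unMap_val {f : A →+* A'} (hf : TwHom f) (β : A) (g : Un n β) :
    (unMap hf β g).1.1 = g.1.1.map f := rfl

/-- Change of the base ring on projective unitary groups. -/
def puMap {f : A →+* A'} (hf : TwHom f) (β : A) : PU n β →* PU n (f β) :=
  QuotientGroup.map _ _ (unMap hf β) (by
    rintro g ⟨c, hc⟩
    refine ⟨f c, ?_⟩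
    rw [unMap_val, hc]
    ext i j
    by_cases h : i = j
    · simp [h]
    · simp [Matrix.one_apply_ne h])

theorem puMap_mk {f : A →+* A'} (hf : TwHom f) (β : A) (g : Un n β) :
    puMap hf β (QuotientGroup.mk g) = QuotientGroup.mk (unMap hf β g) := rfl

/-- The identity or the second automorphism. -/
def tf (b : Bool) : A ≃+* A := cond b ta (RingEquiv.refl A)

variable (n) in
/-- The data of an isomorphism `g ↦ W⁻¹ * tf b g * W` between two unitary groups. -/
structure LI (b : Bool) (β β' : A) where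
  c : A
  W : Gl n A
  uc : ta c * c = 1
  uW : st W.1 * W.1 = 1
  rel : cm n (tf b β) * W.1.map sg = c ^ 2 • (W.1 * cm n β')

/-- Regular matrices: separable characteristic polynomial and non-zero trace. -/
def Reg {K : Type} [Field K] (x : Mt n K) : Prop := x.charpoly.Separable ∧ x.trace ≠ 0

section Field

/-- A number field with two commuting automorphisms, a square root `r` of an integer `m` that is
fixed by the first and changes sign under the second, and a real embedding. -/
class G2 (M : Type) [Field M] [NumberField M] where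
  σ : Aut M
  τ : Aut M
  comm : σ * τ = τ * σ
  ττ : τ * τ = 1
  gen : ∀ s : Aut M, ∃ i : ℕ, s = σ ^ i ∨ s = σ ^ i * τ
  gal : IsGalois ℚ M
  m : ℤ
  r : M
  rr : r ^ 2 = m
  r0 : r ≠ 0
  σr : σ r = r
  τr : τ r = -r
  φ : M →+* ℝ

variable {M : Type} [Field M] [NumberField M] [G2 M]

instance : Tw M where
  sg := (G2.σ : Aut M).toRingEquiv
  ta := (G2.τ : Aut M).toRingEquiv
  comm x := DFunLike.congr_fun (G2.comm (M := M)) x
  tata x := DFunLike.congr_fun (G2.ττ (M := M)) x

noncomputable instance (k : Type) [CommRing k] [Algebra ℚ k] : Tw (k ⊗[ℚ] M) where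
  sg := (lact k (G2.σ : Aut M)).toRingEquiv
  ta := (lact k (G2.τ : Aut M)).toRingEquiv
  comm x := by
    show lact k G2.σ (lact k G2.τ x) = lact k G2.τ (lact k G2.σ x)
    rw [← lact_mul, ← lact_mul, G2.comm]
  tata x := by
    show lact k G2.τ (lact k G2.τ x) = x
    rw [← lact_mul, G2.ττ, lact_one]

theorem twHom_inc (k : Type) [CommRing k] [Algebra ℚ k] : TwHom (inc k M) :=
  ⟨fun _ => rfl, fun _ => rfl⟩

/-- The first automorphism has order `n + 1`. -/
class OrdM (n : ℕ) (M : Type) [Field M] [NumberField M] [G2 M] : Prop where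
  ord : orderOf (G2.σ : Aut M) = n + 1

/-- No power of `β` is a norm, except for trivial reasons. -/
def Aniso (n : ℕ) (β : M) : Prop := ∀ (k : ℕ) (z : M), z ≠ 0 → om (n + 1) z = β ^ k → n + 1 ∣ k

variable (n M) in
/-- The arithmetic data. -/
structure Dat where
  b₁ : Mˣ
  b₂ : Mˣ
  par₁ : Par b₁
  par₂ : Par b₂
  S : Finset Nat.Primes
  Bad : Finset Nat.Primes
  sub : S ⊆ Bad
  c₁ : ∀ p : Nat.Primes, Ap p.1 M
  c₂ : ∀ p : Nat.Primes, Ap p.1 M
  un₁ : ∀ p, p ∈ S ∨ p ∉ Bad → UN n (inc ℚ_[p] M b₁.1) (c₁ p)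
  un₂ : ∀ p, p ∉ S → UN n (inc ℚ_[p] M b₂.1) (c₂ p)
  int₂ : ∀ p, p ∉ Bad → IsIntegral ℤ_[p] (c₂ p)
  inf₁ : ∃ c, UN n (inc ℝ M b₁.1) c
  inf₂ : ∃ c, UN n (inc ℝ M b₂.1) c
  an : Aniso n (b₁ * b₂).1
  an' : Aniso n (b₁ * b₂⁻¹).1
  nn₁ : ∀ z : M, om (n + 1) z ≠ b₁.1 ^ 2
  nn₂ : ∀ z : M, om (n + 1) z ≠ b₂.1 ^ 2

end Field

end Pool.Agent.P.MP_3c2f8c_gt.AO
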