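import Pool.Agent.P.MP_3c2f8c_gt.AO.Rat
import Pool.Agent.P.MP_3c2f8c_gt.AO.Abs

/-! The groups are arithmetic. -/

namespace Pool.Agent.P.MP_3c2f8c_gt.AO

open Matrix E6 Pool.Agent.Lib.CFT

namespace ArithAux

section Gen

variable {ι A : Type} [Fintype ι] [DecidableEq ι] [NormedCommRing A] [IsUltrametricDist A]
  [NormOneClass A]

/-- Matrices with entries of norm at most one. -/
def IntM (x : Matrix ι ι A) : Prop := ∀ i j, ‖x i j‖ ≤ 1

omit [DecidableEq ι] [NormOneClass A] in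
theorem IntM.mul {x y : Matrix ι ι A} (hx : IntM x) (hy : IntM y) : IntM (x * y) := fun i j => by
  rw [Matrix.mul_apply]
  exact IsUltrametricDist.norm_sum_le_of_forall_le_of_nonneg zero_le_one fun k _ =>
    (norm_mul_le _ _).trans (mul_le_one₀ (hx i k) (norm_nonneg _) (hy k j))

omit [Fintype ι] [IsUltrametricDist A] in
theorem intM_one : IntM (1 : Matrix ι ι A) := fun i j => by
  rw [Matrix.one_apply]
  split_ifs <;> simp

variable (ι A) in
/-- The integral invertible matrices. -/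
def IG : Subgroup (GL ι A) where
  carrier := {g | IntM g.1 ∧ IntM (g⁻¹).1}
  one_mem' := ⟨intM_one, intM_one⟩
  mul_mem' := fun hg hh => ⟨hg.1.mul hh.1, hh.2.mul hg.2⟩
  inv_mem' := fun hg => ⟨hg.2, hg.1⟩

theorem isOpen_IG : IsOpen (IG ι A : Set (GL ι A)) := by
  have h : IsOpen {x : Matrix ι ι A | IntM x} := by
    simp only [IntM, Set.ofPred_forall, ← mem_closedBall_zero_iff]
    exact isOpen_iInter_of_finite fun i => isOpen_iInter_of_finite fun j =>
      (IsUltrametricDist.isOpen_closedBall (0 : A) one_ne_zero).preimage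
        (continuous_id.matrix_elem i j)
  exact (h.preimage Units.continuous_val).inter (h.preimage Units.continuous_coe_inv)

end Gen

theorem lift {ι A B : Type} [Fintype ι] [DecidableEq ι] [CommRing A] [CommRing B] (f : A →+* B)
    (hf : Function.Injective f) (g : GL ι B) (h1 : ∀ a c, g.1 a c ∈ f.range)
    (h2 : ∀ a c, (g⁻¹).1 a c ∈ f.range) : g ∈ (GeneralLinearGroup.map f).range := by
  choose X hX using h1
  choose Y hY using h2
  have eX : (Matrix.of X).map f = g.1 := Matrix.ext hX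
  have eY : (Matrix.of Y).map f = (g⁻¹).1 := Matrix.ext hY
  refine ⟨⟨of X, of Y, Matrix.map_injective hf ?_, Matrix.map_injective hf ?_⟩, Units.ext eX⟩
  · simp only [Matrix.map_mul, eX, eY, Units.mul_inv, Matrix.map_one f (map_zero f) (map_one f)]
  · simp only [Matrix.map_mul, eX, eY, Units.inv_mul, Matrix.map_one f (map_zero f) (map_one f)]

variable {n : ℕ}

/-- The adjoint action of a projective unitary group. -/
def adP {A : Type} [CommRing A] [Tw A] (β : A) : PU n β →* GL (Ix n) A :=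
  QuotientGroup.lift _ ((AutL _).subtype.comp (adG.comp (Un n β).subtype)) (by
    rintro g ⟨c, hc⟩
    exact congrArg Subtype.val (adG_scalar hc))

theorem continuous_adP {A : Type} [NormedCommRing A] [Tw A] (β : A) :
    Continuous (adP (n := n) β) := by
  have h : Continuous fun g : Gl n A => (adG g).1.1 := continuous_matrix fun i j => by
    have e : ∀ g : Gl n A, (adG g).1.1 i j =
        (g.1 * emb (Pi.single j (1 : A)) * (g⁻¹).1 : Mt n A) i.1.1 i.1.2 := fun g => by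
      have h1 := congrFun (congrArg co (emb_adG g (Pi.single j 1))) i
      rwa [co_emb, mulVec_single_one] at h1
    simp only [e]
    exact ((Units.continuous_val.matrix_mul continuous_const).matrix_mul
      Units.continuous_coe_inv).matrix_elem _ _
  refine (QuotientGroup.isQuotientMap_mk _).continuous_iff.2
    (Units.continuous_iff.2 ⟨h.comp continuous_subtype_val, ?_⟩)
  exact h.comp (continuous_inv.comp continuous_subtype_val)

theorem exists_level {M : Type} [Field M] [NumberField M] [G2 M] (β : M) (f : GL (Ix n) M) :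
    ∃ K, Level (Kst n β) K ∧ ∀ g : Un n β, QuotientGroup.mk g ∈ Gam (Phi n β) K →
      ∀ p : Nat.Primes, gmap (inc ℚ_[p] M) (f⁻¹ * (adG g.1).1 * f) ∈ IG (Ix n) (Ap p M) := by
  refine ⟨fun p => Kst n β p ⊓ (IG (Ix n) (Ap p M)).comap
    ((MulAut.conj (gmap (inc ℚ_[p] M) f)⁻¹).toMonoidHom.comp (adP _)), ⟨fun p => ?_, ?_⟩,
    fun g hg p => ?_⟩
  · have h : IsOpen (((IG (Ix n) (Ap p M)).comap
        ((MulAut.conj (gmap (inc ℚ_[p] M) f)⁻¹).toMonoidHom.comp
          (adP (inc ℚ_[p] M β))) : Subgroup _) : Set (Ul n β p)) :=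
      isOpen_IG.preimage ((continuous_const.mul (continuous_adP _)).mul continuous_const)
    exact ⟨co_K0.1.inter_right (Subgroup.isClosed_of_isOpen _ h), co_K0.2.inter h⟩
  · have h : ∀ x : Matrix (Ix n) (Ix n) M,
        {p : Nat.Primes | ¬ IntM (x.map (inc ℚ_[p] M))}.Finite := fun x =>
      (Set.finite_iUnion fun i => Set.finite_iUnion fun j => finite_norm_gt (x i j)).subset
        fun p hp => by
          simp only [Set.mem_iUnion]
          by_contra h0
          exact hp fun i j => not_not.1 fun h1 => h0 ⟨i, j, h1⟩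
    refine ((h f.1).union (h (f⁻¹).1)).subset fun p hp => ?_
    by_contra h0
    simp only [Set.mem_union, Set.mem_ofPred_eq, not_or, not_not] at h0
    have h1 : gmap (inc ℚ_[p] M) f ∈ IG (Ix n) (Ap p M) := h0
    refine hp (inf_eq_left.2 ?_)
    rintro _ ⟨g, hg, rfl⟩
    have hg' : Le 1 (g.1⁻¹).1 := (KU n _).inv_mem hg
    have h2 : (adG g.1).1 ∈ IG (Ix n) (Ap p M) :=
      ⟨fun i j => (le_adG hg hg' i j).trans_eq (one_mul _),
        fun i j => (le_adG (g := g.1⁻¹) hg' hg i j).trans_eq (one_mul _)⟩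
    exact mul_mem (mul_mem (inv_mem h1) h2) (inv_mem (inv_mem h1))
  · have h : (gmap (inc ℚ_[p] M) f)⁻¹ * (adG (gmap (inc ℚ_[p] M) g.1)).1 *
        (gmap (inc ℚ_[p] M) f)⁻¹⁻¹ ∈ IG (Ix n) (Ap p M) := ((mem_Gam _ _ _).1 hg p).2
    rwa [inv_inv, adG_map, ← map_inv, ← map_mul, ← map_mul] at h

open NumberField in
theorem finite_int {ι : Type} [Fintype ι] [DecidableEq ι] {T : Tens ι ℝ} (T' : Tens ι ℚ)
    (f : GL ι ℝ) (C : ℝ) :
    {g : AutL T | g ∈ ((AutL T' ⊓ (GeneralLinearGroup.map (algebraMap (𝓞 ℚ) ℚ)).range).map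
      ((MulAut.conj f).toMonoidHom.comp (GeneralLinearGroup.map (algebraMap ℚ ℝ)))).subgroupOf
        (AutL T) ∧ Bd C g}.Finite := by
  obtain ⟨D, hD⟩ := Ex.Mah.exists_bdQ f.1
  obtain ⟨D', hD'⟩ := Ex.Mah.exists_bdQ (f⁻¹).1
  refine (((Ex.Mah.finite_mat (κ := ι)
    (Fintype.card ι * (Fintype.card ι * (D' * C) * D))).image
      fun x => f.1 * x.map (ra ℝ) * (f⁻¹).1).preimage (f := fun g : AutL T => g.1.1)
        fun _ _ _ _ h => Subtype.ext (Units.ext h)).subset ?_
  rintro g ⟨⟨_, ⟨-, u, rfl⟩, e⟩, hg⟩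
  replace e : f * gmap (algebraMap ℚ ℝ) (gmap (algebraMap (𝓞 ℚ) ℚ) u) * f⁻¹ = g.1 := e
  refine ⟨(gmap (algebraMap (𝓞 ℚ) ℚ) u).1, ⟨fun p i j => ?_, ?_⟩, congrArg Units.val e⟩
  · obtain ⟨y, hy⟩ := IsIntegrallyClosed.isIntegral_iff.1 (RingOfIntegers.isIntegral_coe (u.1 i j))
    show ‖ra ℚ_[p] (algebraMap (𝓞 ℚ) ℚ (u.1 i j))‖ ≤ 1
    rw [← hy, eq_intCast, map_intCast]
    exact Padic.norm_int_le_one y
  · have e1 : gmap (algebraMap ℚ ℝ) (gmap (algebraMap (𝓞 ℚ) ℚ) u) = f⁻¹ * g.1 * f := by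
      rw [← e]
      group
    have h := (hD'.mul (show Ex.Mah.BdQ C g.1.1 from hg)).mul hD
    rwa [← Units.val_mul, ← Units.val_mul, ← e1] at h

end ArithAux

open ArithAux

variable {n : ℕ} {M : Type} [Field M] [NumberField M] [G2 M] [OrdM n M] {β : Mˣ}

theorem arith (hn : 2 ≤ n) (hβ : Par β) (hc : Cocpt (Phi n β.1) (rho n β.1) (Kst n β.1))
    {K : ∀ p, Subgroup (Ul n β.1 p)} (hK : Level (Kst n β.1) K) :
    IsArithOuter ((Gam (Phi n β.1) K).map (rho n β.1)) := by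
  obtain ⟨F⟩ := exists_RF (n := n) hβ
  obtain ⟨R, hR⟩ := F.exists_rat
  obtain ⟨K₁, hK₁, hint⟩ := exists_level β.1 F.f
  have e0 : (G2.φ : M →+* ℝ).comp (algebraMap ℚ M) = algebraMap ℚ ℝ := Subsingleton.elim _ _
  refine ⟨ℚ, inferInstance, inferInstance, algebraMap ℚ ℝ, F.T, gmap G2.φ F.f, ?_, F.outer hn,
    fun φ hφ => absurd (Subsingleton.elim _ _) hφ, ?_⟩
  · have h := F.iso.map G2.φ
    rw [bc_slT] at h
    rw [← e0]
    exact h
  refine (commensurable_map _ (hK.commensurable hK₁ _)).trans ?_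
  refine (fun hle => ⟨relIndex_ne_zero_of_cocompact isCartan_thL hle
    ((hc.level (fun _ => co_K0) hK₁).cocompact isCartan_thL) (finite_int _ _),
    (Subgroup.relIndex_eq_one.2 hle).trans_ne one_ne_zero⟩) ?_
  rintro _ ⟨γ, hγ, rfl⟩
  obtain ⟨g, rfl⟩ := QuotientGroup.mk_surjective γ
  have e1 : F.f⁻¹ * (adG g.1).1 * F.f = gmap (algebraMap ℚ M) (R (QuotientGroup.mk g)).1 := by
    rw [mul_assoc, ← hR, inv_mul_cancel_left]
  have key : ∀ q : ℚ, (∀ p : Nat.Primes, ‖inc ℚ_[p] M (algebraMap ℚ M q)‖ ≤ 1) →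
      q ∈ (algebraMap (NumberField.RingOfIntegers ℚ) ℚ).range := fun q h => by
    obtain ⟨y, rfl⟩ := FinAux.exists_intCast (x := q) fun p => (norm_inc_rat q).ge.trans (h p)
    exact intCast_mem _ y
  have h1 := hint g hγ
  rw [e1] at h1
  refine ⟨(R (QuotientGroup.mk g)).1, ⟨(R (QuotientGroup.mk g)).2,
    lift _ (FaithfulSMul.algebraMap_injective _ _) _ (fun i j => key _ fun p => (h1 p).1 i j)
      fun i j => key _ fun p => (h1 p).2 i j⟩, ?_⟩
  have e2 : gmap (algebraMap ℚ ℝ) (R (QuotientGroup.mk g)).1 =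
      gmap G2.φ (gmap (algebraMap ℚ M) (R (QuotientGroup.mk g)).1) := by
    rw [← e0]
    rfl
  show gmap G2.φ F.f * gmap (algebraMap ℚ ℝ) (R (QuotientGroup.mk g)).1 * (gmap G2.φ F.f)⁻¹ =
    (adG (gmap G2.φ g.1)).1
  rw [e2, adG_map, ← map_mul, hR, map_mul, mul_inv_cancel_right]

end Pool.Agent.P.MP_3c2f8c_gt.AO
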