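import Pool.Agent.P.MP_3c2f8c_gt.AO.LieD

/-! The automorphisms of `𝔰𝔩ₙ₊₁` over a field of characteristic zero. -/

namespace Pool.Agent.P.MP_3c2f8c_gt.AO

open Matrix E6

variable {n : ℕ} {K : Type} [Field K] [CharZero K]

namespace Aut

variable {ι : Type} [Fintype ι] [DecidableEq ι]

omit [CharZero K] in
theorem prime {A B : Matrix ι ι K} (h : ∀ Y, A * Y * B = 0) : A = 0 ∨ B = 0 := by
  refine or_iff_not_imp_left.2 fun hA => Matrix.ext fun r s => ?_
  obtain ⟨p, q, hp⟩ : ∃ p q, A p q ≠ 0 := by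
    by_contra hh
    push Not at hh
    exact hA (Matrix.ext hh)
  have h1 := congrFun (congrFun (h (single q r 1)) p) s
  rw [mul_apply, Finset.sum_eq_single r
    (fun k _ hk => by rw [mul_single_apply_of_ne _ _ _ _ _ hk, zero_mul]) (by simp),
    mul_single_apply_same, mul_one] at h1
  exact (mul_eq_zero.1 h1).resolve_left hp

theorem nil {H e : Matrix ι ι K} (h : H * e - e * H = (2 : K) • e) : ∃ k, e ^ k = 0 := by
  by_contra hn
  push Not at hn
  have h1 : ∀ k : ℕ, H * e ^ k - e ^ k * H = (2 * k : K) • e ^ k := fun k => by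
    induction k with
    | zero => simp
    | succ k ih =>
      have h2 : H * e ^ (k + 1) - e ^ (k + 1) * H =
          (H * e ^ k - e ^ k * H) * e + e ^ k * (H * e - e * H) := by
        rw [pow_succ]
        noncomm_ring
      rw [h2, ih, h, smul_mul_assoc, mul_smul_comm, ← pow_succ, ← add_smul]
      congr 1
      push_cast
      ring
  refine Set.infinite_of_injective_forall_mem (f := fun k : ℕ => (2 * k : K))
    (fun a b hab => Nat.cast_injective (mul_left_cancel₀ two_ne_zero hab)) (fun k => ?_)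
    (Module.End.finite_hasEigenvalue (LinearMap.mulLeft K H - LinearMap.mulRight K H))
  exact Module.End.hasEigenvalue_of_hasEigenvector ⟨Module.End.mem_eigenspace_iff.2 (h1 k), hn k⟩

omit [CharZero K] in
theorem sq_zero {e : Matrix ι ι K} (h : ∃ k, e ^ k = 0)
    (h' : ∀ Y, ∃ c : K, e * (e * Y - Y * e) - (e * Y - Y * e) * e = c • e) : e * e = 0 := by
  obtain ⟨k, hk⟩ := h
  induction k with
  | zero => rw [← one_mul (e * e), ← pow_zero e, hk, zero_mul]
  | succ k ih =>
    refine (prime (A := e ^ k) fun Y => ?_).elim ih id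
    obtain ⟨c, hc⟩ := h' Y
    have h1 : e ^ k * Y * (e * e) = e ^ k * (e * (e * Y - Y * e) - (e * Y - Y * e) * e) -
        e ^ (k + 1) * (e * Y - Y * e - Y * e) := by
      rw [pow_succ]
      noncomm_ring
    rw [h1, hc, mul_smul_comm, ← pow_succ, hk, smul_zero, zero_mul, sub_zero]

/-- An automorphism of the Lie algebra of matrices of trace zero. -/
structure Au (F : Matrix ι ι K →ₗ[K] Matrix ι ι K) : Prop where
  br : ∀ X Y, X.trace = 0 → Y.trace = 0 → F (X * Y - Y * X) = F X * F Y - F Y * F X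
  surj : ∀ Y, Y.trace = 0 → ∃ X, X.trace = 0 ∧ F X = Y
  inj : ∀ X, X.trace = 0 → F X = 0 → X = 0

/-- The image of an elementary matrix. -/
def el (F : Matrix ι ι K →ₗ[K] Matrix ι ι K) (i j : ι) : Matrix ι ι K := F (single i j 1)

variable {F : Matrix ι ι K →ₗ[K] Matrix ι ι K} {i j k l a b c : ι}

omit [CharZero K] [DecidableEq ι] in
theorem tr_br (X Y : Matrix ι ι K) : (X * Y - Y * X).trace = 0 := by
  rw [trace_sub, trace_mul_comm, sub_self]

omit [CharZero K] in
theorem Au.ne_zero (h : Au F) (hij : i ≠ j) : el F i j ≠ 0 := fun e => by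
  have h1 := congrFun (congrFun (h.inj _ (trace_single_eq_of_ne i j 1 hij) e) i) j
  simp at h1

omit [CharZero K] in
theorem Au.br' (h : Au F) (hij : i ≠ j) (hkl : k ≠ l) : el F i j * el F k l - el F k l * el F i j =
    F (single i j 1 * single k l 1 - single k l 1 * single i j 1) :=
  (h.br _ _ (trace_single_eq_of_ne i j 1 hij) (trace_single_eq_of_ne k l 1 hkl)).symm

omit [CharZero K] in
theorem Au.br3 (h : Au F) (hij : i ≠ j) (hjk : j ≠ k) (hki : k ≠ i) :
    el F i j * el F j k - el F j k * el F i j = el F i k := by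
  rw [h.br' hij hjk, single_mul_single_same, single_mul_single_of_ne _ _ _ _ hki, mul_one, sub_zero,
    el]

omit [CharZero K] in
theorem Au.comm (h : Au F) (hij : i ≠ j) (hkl : k ≠ l) (hjk : j ≠ k) (hli : l ≠ i) :
    el F i j * el F k l = el F k l * el F i j := by
  rw [← sub_eq_zero, h.br' hij hkl, single_mul_single_of_ne _ _ _ _ hjk,
    single_mul_single_of_ne _ _ _ _ hli, sub_zero, map_zero]

omit [CharZero K] in
theorem Au.ad (h : Au F) (hij : i ≠ j) {X : Matrix ι ι K} (hX : X.trace = 0) :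
    el F i j * (el F i j * F X - F X * el F i j) - (el F i j * F X - F X * el F i j) * el F i j =
      (-(2 * X j i)) • el F i j := by
  have ht := trace_single_eq_of_ne i j (1 : K) hij
  have h1 : (single i j 1 : Matrix ι ι K) * single i j 1 = 0 :=
    single_mul_single_of_ne _ _ _ _ hij.symm _
  rw [el, ← h.br _ _ ht hX, ← h.br _ _ ht (tr_br _ _), ← map_smul, mul_sub, sub_mul, ← mul_assoc,
    ← mul_assoc, h1, mul_assoc X, h1, single_mul_mul_single, smul_single]
  congr 1
  ext p q
  simp only [single_apply, Matrix.sub_apply, zero_mul, mul_zero, Matrix.zero_apply]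
  split_ifs <;> simp [two_mul, sub_eq_add_neg]

theorem Au.ad' (h : Au F) (hij : i ≠ j) (Y : Matrix ι ι K) : ∃ c : K,
    el F i j * (el F i j * Y - Y * el F i j) - (el F i j * Y - Y * el F i j) * el F i j =
      c • el F i j := by
  have : Nonempty ι := ⟨i⟩
  obtain ⟨X, hX, e⟩ := h.surj (Y - (Y.trace / Fintype.card ι) • 1) (by
    rw [trace_sub, trace_smul, trace_one, smul_eq_mul,
      div_mul_cancel₀ _ (Nat.cast_ne_zero.2 Fintype.card_ne_zero), sub_self])
  refine ⟨_, Eq.trans ?_ (h.ad hij hX)⟩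
  have h1 : el F i j * F X - F X * el F i j = el F i j * Y - Y * el F i j := by
    rw [e, mul_sub, sub_mul, mul_smul_comm, smul_mul_assoc, mul_one, one_mul,
      sub_sub_sub_cancel_right]
  rw [h1]

omit [CharZero K] in
theorem Au.sl2 (h : Au F) (hij : i ≠ j) : (el F i j * el F j i - el F j i * el F i j) * el F i j -
    el F i j * (el F i j * el F j i - el F j i * el F i j) = (2 : K) • el F i j := by
  have h1 := h.ad hij (trace_single_eq_of_ne j i (1 : K) hij.symm)
  rw [single_apply_same, mul_one, neg_smul] at h1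
  rw [← neg_sub, ← neg_neg ((2 : K) • el F i j), ← h1]
  rfl

theorem Au.sq (h : Au F) (hij : i ≠ j) : el F i j * el F i j = 0 :=
  sq_zero (nil (h.sl2 hij)) (h.ad' hij)

theorem Au.sq' (h : Au F) (hij : i ≠ j) (Y : Matrix ι ι K) :
    el F i j * (el F i j * Y - Y * el F i j) - (el F i j * Y - Y * el F i j) * el F i j =
      (-2 : K) • (el F i j * Y * el F i j) := by
  rw [mul_sub, sub_mul, ← mul_assoc, ← mul_assoc, mul_assoc Y, h.sq hij, neg_smul, two_smul]
  noncomm_ring

theorem Au.rank (h : Au F) (hij : i ≠ j) (Y : Matrix ι ι K) :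
    ∃ c : K, el F i j * Y * el F i j = c • el F i j := by
  obtain ⟨c, hc⟩ := h.ad' hij Y
  refine ⟨(-2 : K)⁻¹ * c, ?_⟩
  rw [mul_smul, ← hc, h.sq' hij, inv_smul_smul₀ (by norm_num)]

theorem Au.efe (h : Au F) (hij : i ≠ j) : el F i j * el F j i * el F i j = el F i j := by
  have h1 := h.ad hij (trace_single_eq_of_ne j i (1 : K) hij.symm)
  rw [single_apply_same, mul_one, h.sq' hij] at h1
  exact smul_right_injective _ (by norm_num : (-2 : K) ≠ 0) h1

theorem Au.or (h : Au F) (hkl : k ≠ l) {A : Matrix ι ι K} (e : A * el F k l * A = 0) :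
    A * el F k l = 0 ∨ el F k l * A = 0 := prime fun Y => by
  obtain ⟨c, hc⟩ := h.rank hkl Y
  have h1 : A * el F k l * Y * (el F k l * A) = A * (el F k l * Y * el F k l) * A := by
    noncomm_ring
  rw [h1, hc, mul_smul_comm, smul_mul_assoc, e, smul_zero]

theorem Au.zero (h : Au F) (hij : i ≠ j) (hkl : k ≠ l) (hjk : j ≠ k) (hli : l ≠ i) :
    el F i j * el F k l = 0 := by
  have h1 := h.comm hij hkl hjk hli
  refine (h.or hkl ?_).elim id h1.trans
  rw [h1, mul_assoc, h.sq hij, mul_zero]

theorem Au.type (h : Au F) (hab : a ≠ b) (hbc : b ≠ c) (hca : c ≠ a) :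
    el F a b * el F b c = 0 ∨ el F b c * el F a b = 0 := by
  refine h.or hbc (smul_right_injective _ (by norm_num : (-2 : K) ≠ 0) ?_)
  beta_reduce
  rw [← h.sq' hab, h.br3 hab hbc hca, h.comm hab hca.symm hab.symm hca, sub_self, smul_zero]

theorem Au.kill (h : Au F) (hab : a ≠ b) (hbc : b ≠ c)
    (ht : el F b c * el F a b = 0) (hij : i ≠ j) (hj : j ≠ a) : el F i j * el F a b = 0 := by
  by_cases hi : b = i
  · subst hi
    by_cases hc : c = j
    · exact hc ▸ ht
    · rw [← h.br3 hbc hc hij.symm, sub_mul, mul_assoc, mul_assoc, ht, h.zero hc hab hj hbc,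
        mul_zero, mul_zero, sub_zero]
  · exact h.zero hij hab hj hi

/-- The matrices whose columns give the new basis. -/
def cl (F : Matrix ι ι K →ₗ[K] Matrix ι ι K) (a b k : ι) : Matrix ι ι K :=
  if k = a then el F a b else el F k a * el F a b

theorem Au.act (h : Au F) (hab : a ≠ b) (hbc : b ≠ c)
    (ht : el F b c * el F a b = 0) (hij : i ≠ j) (k : ι) :
    el F i j * cl F a b k = if j = k then cl F a b i else 0 := by
  have C : ∀ {i j}, i ≠ j → j ≠ a → a ≠ i →
      el F i j * (el F j a * el F a b) = el F i a * el F a b := fun hij hj hi => by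
    rw [← h.br3 hij hj hi, sub_mul, mul_assoc, mul_assoc, h.kill hab hbc ht hij hj, mul_zero,
      sub_zero]
  by_cases hk : k = a
  · subst hk
    rw [cl, if_pos rfl]
    split_ifs with e
    · rw [cl, if_neg (e ▸ hij), e]
    · exact h.kill hab hbc ht hij e
  rw [cl, if_neg hk]
  split_ifs with e
  · subst e
    by_cases hi : i = a
    · subst hi
      rw [cl, if_pos rfl]
      by_cases hb : b = j
      · rw [← hb, ← mul_assoc, h.efe hab]
      · have h1 := h.br3 hab hb hk
        rw [h.kill hab hbc ht hb hk, sub_zero] at h1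
        rw [← h1, mul_assoc, C hb hk hab, ← mul_assoc, h.efe hab]
    · rw [cl, if_neg hi, C hij hk (Ne.symm hi)]
  · by_cases hi : a = i
    · subst hi
      have h1 := h.br3 hk hij e
      rw [← mul_assoc, ← sub_sub_cancel (el F k a * el F a j) (el F a j * el F k a), h1, sub_mul,
        mul_assoc, h.kill hab hbc ht hij hij.symm, h.kill hab hbc ht (Ne.symm e) hij.symm,
        mul_zero, sub_zero]
    · rw [← mul_assoc, h.zero hij hk e hi, zero_mul]

theorem Au.inner (h : Au F) (hab : a ≠ b) (hbc : b ≠ c)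
    (ht : el F b c * el F a b = 0) :
    ∃ g : GL ι K, ∀ X : Matrix ι ι K, X.trace = 0 → F X = g.1 * X * (g⁻¹).1 := by
  obtain ⟨p, q, hp⟩ : ∃ p q, el F a b p q ≠ 0 := by
    by_contra hh
    push Not at hh
    exact h.ne_zero hab (Matrix.ext hh)
  let G : Matrix ι ι K := Matrix.of fun r k => cl F a b k r q
  have hG : ∀ {i j}, i ≠ j → el F i j * G = G * single i j 1 := fun {i j} hij => by
    ext r k
    have h1 : (el F i j * G) r k = (el F i j * cl F a b k) r q := rfl
    rw [h1, h.act hab hbc ht hij]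
    split_ifs with e
    · rw [← e, mul_single_apply_same, mul_one]
      rfl
    · rw [mul_single_apply_of_ne _ _ _ _ _ (Ne.symm e)]
      rfl
  have hp' : G p a ≠ 0 := by
    change cl F a b a p q ≠ 0
    rwa [cl, if_pos rfl]
  have hu : IsUnit G := by
    refine mulVec_injective_iff_isUnit.1 ((injective_iff_map_eq_zero G.mulVecLin).2 fun x hx => ?_)
    have h0 : ∀ t : K, G *ᵥ (t • Pi.single a 1) = 0 → t = 0 := fun t e => by
      have h1 := congrFun e p
      rw [mulVec_smul, mulVec_single_one] at h1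
      exact (mul_eq_zero.1 h1).resolve_right hp'
    have h1 : ∀ j, j ≠ a → x j = 0 := fun j hj => h0 _ (by
      rw [← one_mul (x j), ← single_mulVec_eq, mulVec_mulVec, ← hG hj.symm, ← mulVec_mulVec,
        show G *ᵥ x = 0 from hx, mulVec_zero])
    have h2 : x = x a • Pi.single a 1 := funext fun j => by
      by_cases e : j = a
      · simp [e]
      · simp [e, h1 j e]
    rw [h2, h0 (x a) (h2 ▸ hx), zero_smul]
  obtain ⟨g, hg⟩ := hu
  refine ⟨g, fun X hX => (Units.eq_mul_inv_iff_mul_eq g).2 ?_⟩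
  have h1 : ∀ i j, F (single i j 1 - if i = j then single a a 1 else 0) * G =
      G * (single i j 1 - if i = j then single a a 1 else 0) := fun i j => by
    split_ifs with e
    · subst e
      by_cases e : i = a
      · rw [e, sub_self, map_zero, zero_mul, mul_zero]
      · have h2 := h.br' e (Ne.symm e)
        rw [single_mul_single_same, single_mul_single_same, mul_one] at h2
        rw [← h2, sub_mul, mul_assoc, mul_assoc, hG e, hG (Ne.symm e), ← mul_assoc, ← mul_assoc,
          hG e, hG (Ne.symm e), mul_assoc, mul_assoc, single_mul_single_same,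
          single_mul_single_same, mul_one, mul_sub]
    · rw [sub_zero]
      exact hG e
  have h2 : X = ∑ i, ∑ j, X i j • (single i j 1 - if i = j then single a a 1 else 0) := by
    simp only [smul_sub, Finset.sum_sub_distrib, smul_ite, smul_zero, Finset.sum_ite_eq,
      Finset.mem_univ, if_true, ← Finset.sum_smul]
    rw [show ∑ i, X i i = 0 from hX, zero_smul, sub_zero]
    simp only [smul_single, smul_eq_mul, mul_one]
    exact matrix_eq_sum_single X
  rw [hg, h2]
  simp only [map_sum, map_smul, Finset.sum_mul, Finset.mul_sum, smul_mul_assoc, mul_smul_comm, h1]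

/-- The linear map on matrices defined by an automorphism. -/
def lin (g : AutL (slT n K)) : Mt n K →ₗ[K] Mt n K := embL ∘ₗ g.1.1.mulVecLin ∘ₗ co

omit [CharZero K] in
theorem lin_emb (g : AutL (slT n K)) (x : Ix n → K) : lin g (emb x) = emb (g.1.1 *ᵥ x) := by
  change emb (g.1.1 *ᵥ co (emb x)) = _
  rw [co_emb]

omit [CharZero K] in
theorem au_lin (g : AutL (slT n K)) : Au (lin g) where
  br X Y hX hY := by
    rw [← emb_co hX, ← emb_co hY, ← emb_br, lin_emb, lin_emb, lin_emb, g.2, emb_br]
  surj Y hY := ⟨emb ((g.1⁻¹).1 *ᵥ co Y), trace_emb _, by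
    rw [lin_emb, mulVec_mulVec, Units.mul_inv, one_mulVec, emb_co hY]⟩
  inj X hX e := by
    rw [← emb_co hX, lin_emb] at e
    have h1 : g.1.1 *ᵥ co X = 0 := by rw [← co_emb (g.1.1 *ᵥ co X), e, map_zero]
    rw [← emb_co hX, ← one_mulVec (co X), ← g.1.inv_mul, ← mulVec_mulVec, h1, mulVec_zero]
    exact embL.map_zero

theorem inner_lin (g : AutL (slT n K)) {a b c : Fin (n + 1)} (hab : a ≠ b) (hbc : b ≠ c)
    (ht : el (lin g) b c * el (lin g) a b = 0) : ∃ h : Gl n K, g = adG h := by
  obtain ⟨h, hh⟩ := (au_lin g).inner hab hbc ht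
  exact ⟨h, Subtype.ext (Units.ext (ext_emb fun x => by
    rw [← lin_emb, hh _ (trace_emb x), emb_adG]))⟩

end Aut

theorem aut_sl (hn : 2 ≤ n) (g : AutL (slT n K)) :
    ∃ h : Gl n K, g = adG h ∨ g = adG h * thL n K := by
  have hab : (⟨0, by omega⟩ : Fin (n + 1)) ≠ ⟨1, by omega⟩ := by simp
  have hbc : (⟨1, by omega⟩ : Fin (n + 1)) ≠ ⟨2, by omega⟩ := by simp
  have hca : (⟨2, by omega⟩ : Fin (n + 1)) ≠ ⟨0, by omega⟩ := by simp
  rcases (Aut.au_lin g).type hab hbc hca with ht | ht
  · have h1 : ∀ X, Aut.lin (thL n K * g) X = -(Aut.lin g X)ᵀ := fun X => by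
      change emb ((thL n K * g).1.1 *ᵥ co X) = -(emb (g.1.1 *ᵥ co X))ᵀ
      rw [Subgroup.coe_mul, Units.val_mul, ← mulVec_mulVec, emb_thL]
    obtain ⟨h, hh⟩ := Aut.inner_lin (thL n K * g) hab hbc (by
      rw [Aut.el, Aut.el, h1, h1, neg_mul_neg, ← transpose_mul]
      exact congrArg transpose ht)
    exact ⟨itr h, Or.inr (by rw [← thL_mul_adG, ← hh, ← mul_assoc, thL_sq, one_mul])⟩
  · obtain ⟨h, hh⟩ := Aut.inner_lin g hab hbc ht
    exact ⟨h, Or.inl hh⟩

end Pool.Agent.P.MP_3c2f8c_gt.AO
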