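import Pool.Agent.P.MP_3c2f8c_gt.AO.Top
import Pool.Agent.P.MP_3c2f8c_gt.Ex.Gl.Mah1

/-! Short elements of the cyclic algebra. -/

namespace Pool.Agent.P.MP_3c2f8c_gt.AO.CptAux

open Matrix Pool.Agent.Lib.CFT NumberField
open scoped TensorProduct

variable {n : ℕ}

section Lin

variable {k A ι : Type} [Field k] [CommRing A] [Algebra k A] [Fintype ι] [DecidableEq ι]
  (b : Module.Basis ι k A)

/-- The coordinates of a vector. -/
noncomputable def cv (v : Fin (n + 1) → A) : Fin (n + 1) × ι → k := fun i => b.repr (v i.1) i.2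

/-- The vector with given coordinates. -/
noncomputable def vc (y : Fin (n + 1) × ι → k) : Fin (n + 1) → A :=
  fun i => b.equivFun.symm fun a => y (i, a)

omit [DecidableEq ι] in
theorem cv_vc (y : Fin (n + 1) × ι → k) : cv b (vc b y) = y := funext fun i =>
  congrFun (b.equivFun.apply_symm_apply fun a => y (i.1, a)) i.2

/-- The matrix of the action on coordinates. -/
noncomputable def rp (x : Mt n A) : Matrix (Fin (n + 1) × ι) (Fin (n + 1) × ι) k :=
  Matrix.of fun i j => b.repr (x i.1 j.1 * b j.2) i.2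

omit [DecidableEq ι] in
theorem sum_mul_repr (x y : A) (a : ι) :
    ∑ c, b.repr (x * b c) a * b.repr y c = b.repr (x * y) a := by
  conv_rhs => rw [← b.sum_repr y, Finset.mul_sum, map_sum, Finsupp.finsetSum_apply]
  refine Finset.sum_congr rfl fun c _ => ?_
  rw [mul_smul_comm, map_smul, Finsupp.smul_apply, smul_eq_mul, mul_comm]

omit [DecidableEq ι] in
theorem rp_mulVec (x : Mt n A) (v : Fin (n + 1) → A) : rp b x *ᵥ cv b v = cv b (x *ᵥ v) := by
  funext i
  show ∑ j, rp b x i j * cv b v j = b.repr (∑ j, x i.1 j * v j) i.2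
  rw [Fintype.sum_prod_type, map_sum, Finsupp.finsetSum_apply]
  exact Finset.sum_congr rfl fun j _ => sum_mul_repr b (x i.1 j) (v j) i.2

variable [Tw A]

variable (n) in
/-- The Gram matrix of the invariant form. -/
noncomputable def gr (a₀ : ι) : Matrix (Fin (n + 1) × ι) (Fin (n + 1) × ι) k :=
  Matrix.of fun i j => if i.1 = j.1 then b.repr (ta (b i.2) * b j.2) a₀ else 0

omit [DecidableEq ι] in
theorem gr_form (hta : ∀ (c : k) (x : A), ta (c • x) = c • ta x) (a₀ : ι)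
    (v w : Fin (n + 1) → A) :
    cv b v ⬝ᵥ (gr n b a₀ *ᵥ cv b w) = b.repr (∑ i, ta (v i) * w i) a₀ := by
  show ∑ i, cv b v i * ∑ j, gr n b a₀ i j * cv b w j = _
  rw [Fintype.sum_prod_type, map_sum, Finsupp.finsetSum_apply]
  refine Finset.sum_congr rfl fun i _ => ?_
  have h : ∀ a, ∑ j, gr n b a₀ (i, a) j * cv b w j = b.repr (ta (b a) * w i) a₀ := fun a => by
    rw [Fintype.sum_prod_type, Finset.sum_eq_single i]
    · rw [← sum_mul_repr]
      exact Finset.sum_congr rfl fun c _ => by simp [gr, cv]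
    · intro j _ hj
      exact Finset.sum_eq_zero fun c _ => by simp [gr, hj.symm]
    · simp
  conv_rhs => rw [← b.sum_repr (v i), map_sum, Finset.sum_mul, map_sum, Finsupp.finsetSum_apply]
  refine Finset.sum_congr rfl fun a _ => ?_
  rw [h, hta, smul_mul_assoc, map_smul, Finsupp.smul_apply, smul_eq_mul]
  rfl

omit [Algebra k A] in
theorem form_mulVec (x : Mt n A) (v w : Fin (n + 1) → A) :
    ∑ i, ta ((x *ᵥ v) i) * (x *ᵥ w) i = ∑ i, ta (v i) * ((st x * x) *ᵥ w) i := by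
  have h : (fun i => ta ((x *ᵥ v) i)) = x.map ta *ᵥ fun i => ta (v i) := funext fun i => by
    simp [mulVec, dotProduct]
  show (fun i => ta ((x *ᵥ v) i)) ⬝ᵥ (x *ᵥ w) = (fun i => ta (v i)) ⬝ᵥ ((st x * x) *ᵥ w)
  rw [h, ← mulVec_mulVec, dotProduct_mulVec (fun i => ta (v i)), st, vecMul_transpose]

theorem rp_inv (hta : ∀ (c : k) (x : A), ta (c • x) = c • ta x) (a₀ : ι) {x : Mt n A}
    (hx : st x * x = 1) : (rp b x)ᵀ * gr n b a₀ * rp b x = gr n b a₀ := by
  have key : ∀ y z : Fin (n + 1) × ι → k,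
      y ⬝ᵥ (((rp b x)ᵀ * gr n b a₀ * rp b x) *ᵥ z) = y ⬝ᵥ (gr n b a₀ *ᵥ z) := fun y z => by
    rw [← cv_vc b y, ← cv_vc b z, ← mulVec_mulVec, ← mulVec_mulVec, dotProduct_mulVec,
      vecMul_transpose, rp_mulVec, rp_mulVec, gr_form b hta, gr_form b hta, form_mulVec, hx,
      one_mulVec]
  ext i j
  simpa using key (Pi.single i 1) (Pi.single j 1)

end Lin

section Field

variable {M : Type} [Field M] [NumberField M]

/-- The index set of the integral basis. -/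
abbrev Io (M : Type) [Field M] [NumberField M] : Type := Module.Free.ChooseBasisIndex ℤ (𝓞 M)

/-- The integral basis after a change of the base field. -/
noncomputable abbrev Bk (k : Type) [Field k] [Algebra ℚ k] (M : Type) [Field M] [NumberField M] :
    Module.Basis (Io M) k (k ⊗[ℚ] M) := Algebra.TensorProduct.basis k (integralBasis M)

variable (k : Type) [Field k] [Algebra ℚ k]

theorem repr_inc (m : M) (a : Io M) :
    (Bk k M).repr (inc k M m) a = ra k ((integralBasis M).repr m a) := by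
  have h : inc k M m = (1 : k) ⊗ₜ[ℚ] m := rfl
  rw [h, Algebra.TensorProduct.basis_repr_tmul]
  simp

theorem Bk_apply (a : Io M) : Bk k M a = inc k M (integralBasis M a) :=
  Algebra.TensorProduct.basis_apply _ _

theorem cv_inc (v : Fin (n + 1) → M) :
    cv (Bk k M) (fun i => inc k M (v i)) = fun j => ra k (cv (integralBasis M) v j) :=
  funext fun _ => repr_inc k _ _

variable [G2 M]

theorem gr_map (a₀ : Io M) : (gr n (integralBasis M) a₀).map (ra k) = gr n (Bk k M) a₀ := by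
  ext i j
  simp only [gr, Matrix.map_apply, Matrix.of_apply]
  split_ifs
  · rw [Bk_apply, Bk_apply, ← (twHom_inc k).ta, ← map_mul, repr_inc]
  · exact map_zero _

theorem ta_smul (c : k) (x : k ⊗[ℚ] M) : ta (c • x) = c • ta x :=
  map_smul (lact k (G2.τ : Aut M)) c x

open Classical in
theorem gr_unit (a₀ : Io M) : IsUnit (gr n (integralBasis M) a₀) := by
  have hta : ∀ (c : ℚ) (x : M), ta (c • x) = c • ta x := fun c x => map_rat_smul ta c x
  rw [← Matrix.mulVec_injective_iff_isUnit]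
  refine (injective_iff_map_eq_zero (gr n (integralBasis M) a₀).mulVecLin).2 fun z hz => ?_
  have hz' : gr n (integralBasis M) a₀ *ᵥ cv (integralBasis M) (vc (integralBasis M) z) = 0 := by
    rw [cv_vc]
    exact hz
  have h0 : vc (integralBasis M) z = 0 := funext fun i => by
    by_contra hi
    have h := gr_form (integralBasis M) hta a₀
      (Pi.single i (ta (integralBasis M a₀ * (vc (integralBasis M) z i)⁻¹))) (vc (integralBasis M) z)
    rw [hz', dotProduct_zero, Finset.sum_eq_single i, Pi.single_eq_same, Tw.tata,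
      inv_mul_cancel_right₀ hi] at h
    · simp at h
    · intro j _ hj
      rw [Pi.single_eq_of_ne hj, map_zero, zero_mul]
    · simp
  rw [← cv_vc (integralBasis M) z, h0]
  funext i
  simp [cv]

open Classical in
theorem rp_unit (a₀ : Io M) {x : Mt n (k ⊗[ℚ] M)} (hx : st x * x = 1) :
    IsUnit (rp (Bk k M) x) := by
  have h : IsUnit (gr n (Bk k M) a₀) := by
    rw [← gr_map]
    exact (gr_unit a₀).map (ra k).mapMatrix
  rw [← rp_inv (Bk k M) (ta_smul k) a₀ hx, Matrix.isUnit_iff_isUnit_det, det_mul] at h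
  exact (Matrix.isUnit_iff_isUnit_det _).2 (isUnit_of_mul_isUnit_right h)

end Field

theorem short_vec {κ : Type} [Fintype κ] [DecidableEq κ] [Nonempty κ] {β₀ : Matrix κ κ ℚ}
    (hβ : IsUnit β₀) :
    ∃ C : ℝ, ∀ (A : ∀ p : Nat.Primes, Matrix κ κ ℚ_[p]) (A' : Matrix κ κ ℝ),
      (∀ p, IsUnit (A p)) → IsUnit A' →
      (∀ p : Nat.Primes, (A p)ᵀ * β₀.map (ra ℚ_[p]) * A p = β₀.map (ra ℚ_[p])) →
      A'ᵀ * β₀.map (ra ℝ) * A' = β₀.map (ra ℝ) →
      {p : Nat.Primes | ¬ ∀ i j, ‖A p i j‖ ≤ 1}.Finite →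
      ∃ v : κ → ℚ, v ≠ 0 ∧ (∀ (p : Nat.Primes) i, ‖(A p *ᵥ fun j => ra ℚ_[p] (v j)) i‖ ≤ 1) ∧
        ∀ i, |(A' *ᵥ fun j => ra ℝ (v j)) i| ≤ C := by
  obtain ⟨C, hC⟩ := short_basis hβ one_pos
  refine ⟨max C 1, fun A A' h1 h2 h3 h4 h5 => ?_⟩
  by_cases h : ∀ v : κ → ℚ, v ≠ 0 →
      (∀ (p : Nat.Primes) i, ‖(A p *ᵥ fun j => (v j : ℚ_[p])) i‖ ≤ 1) →
        ∃ i, 1 ≤ |(A' *ᵥ fun j => (v j : ℝ)) i|
  · obtain ⟨e, he, he1, he2⟩ := hC β₀ A A' h1 h2 h3 h4 h5 h
    obtain ⟨j⟩ := ‹Nonempty κ›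
    refine ⟨fun i => e i j, fun h0 => ?_, fun p i => he1 p i j,
      fun i => (he2 i j).trans (le_max_left _ _)⟩
    exact ((Matrix.isUnit_iff_isUnit_det _).1 he).ne_zero
      (det_eq_zero_of_column_eq_zero j (congrFun h0))
  · push Not at h
    obtain ⟨v, hv, h1, h2⟩ := h
    exact ⟨v, hv, h1, fun i => (h2 i).le.trans (le_max_right _ _)⟩

variable {M : Type} [Field M] [NumberField M]

/-- The coordinates of `x` are bounded by `C`. -/
def RB (C : ℝ) (x : ℝ ⊗[ℚ] M) : Prop := ∀ a, |(Bk ℝ M).repr x a| ≤ C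

theorem norm_le_iff {p : ℕ} [Fact p.Prime] {x : Ap p M} :
    ‖x‖ ≤ 1 ↔ ∀ a, ‖(Bk ℚ_[p] M).repr x a‖ ≤ 1 :=
  norm_le_one_iff.trans (isIntegral_iff_repr x)

theorem finite_elt (C : ℝ) :
    {x : M | (∀ p : Nat.Primes, ‖inc ℚ_[p] M x‖ ≤ 1) ∧ RB C (inc ℝ M x)}.Finite := by
  refine Set.Finite.of_finite_image (f := (integralBasis M).equivFun)
    ((Set.Finite.pi' fun _ : Io M => FinAux.finite_rat one_pos C).subset ?_)
    (integralBasis M).equivFun.injective.injOn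
  rintro _ ⟨x, ⟨h1, h2⟩, rfl⟩ a
  refine ⟨fun p => ?_, ?_⟩
  · have h := norm_le_iff.1 (h1 p) a
    rw [repr_inc] at h
    rwa [Nat.cast_one, one_mul]
  · have h := h2 a
    rwa [repr_inc] at h

theorem exists_den (x : M) : ∃ N : ℕ, N ≠ 0 ∧ ∀ p : Nat.Primes,
    ‖inc ℚ_[p] M (N : M)‖ * max 1 ‖inc ℚ_[p] M x‖ ≤ 1 := by
  obtain ⟨N, hN, -, h⟩ := ShortAux.exists_mult
    (fun q : Nat.Primes => fun a => (Bk ℚ_[q] M).repr (inc ℚ_[q] M x) a)
    (by simpa only [norm_le_iff] using finite_norm_gt x) ∅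
  refine ⟨N, hN.ne', fun p => ?_⟩
  have e : ‖inc ℚ_[p] M (N : M)‖ = ‖(N : ℚ_[p])‖ := by
    simpa using norm_inc_rat (p := p) (M := M) (N : ℚ)
  rw [mul_max_of_nonneg _ _ (norm_nonneg _), e, mul_one, ← norm_smul]
  refine max_le (ShortAux.norm_nat_le N) (norm_le_iff.2 fun a => ?_)
  rw [map_smul]
  exact h p (Finset.notMem_empty p) a

variable [G2 M]

open Classical in
theorem short_col : ∃ C : ℝ, ∀ (u : ∀ p : Nat.Primes, Mt n (Ap p M)) (u' : Mt n (ℝ ⊗[ℚ] M)),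
    (∀ p, st (u p) * u p = 1) → st u' * u' = 1 → {p | ¬ Le 1 (u p)}.Finite →
    ∃ v : Fin (n + 1) → M, v ≠ 0 ∧
      (∀ (p : Nat.Primes) i, ‖(u p *ᵥ fun j => inc ℚ_[p] M (v j)) i‖ ≤ 1) ∧
      ∀ i, RB C ((u' *ᵥ fun j => inc ℝ M (v j)) i) := by
  obtain ⟨a₀⟩ : Nonempty (Io M) := (integralBasis M).index_nonempty
  have : Nonempty (Fin (n + 1) × Io M) := ⟨(0, a₀)⟩
  obtain ⟨C, hC⟩ := short_vec (gr_unit (n := n) a₀)
  refine ⟨C, fun u u' h1 h2 h3 => ?_⟩
  obtain ⟨y, hy, hy1, hy2⟩ := hC (fun p => rp (Bk ℚ_[p] M) (u p)) (rp (Bk ℝ M) u')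
    (fun p => rp_unit _ a₀ (h1 p)) (rp_unit _ a₀ h2)
    (fun p => by rw [gr_map]; exact rp_inv _ (ta_smul _) a₀ (h1 p))
    (by rw [gr_map]; exact rp_inv _ (ta_smul _) a₀ h2)
    (h3.subset fun p hp hu => hp fun i j => norm_le_iff.1 ((norm_mul_le _ _).trans
      (mul_le_one₀ (hu i.1 j.1) (norm_nonneg _)
        (norm_le_one_iff.2 (Loc1Aux.isIntegral_B j.2)))) i.2)
  rw [← cv_vc (integralBasis M) y] at hy hy1 hy2
  simp only [← cv_inc, rp_mulVec] at hy1 hy2
  refine ⟨vc (integralBasis M) y, fun h0 => hy ?_, fun p i => norm_le_iff.2 fun a => hy1 p (i, a),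
    fun i a => hy2 (i, a)⟩
  rw [h0]
  funext i
  simp [cv]

section Real

theorem bd_cpt {Y ι : Type} [TopologicalSpace Y] [Finite ι] {K : Set Y} (hK : IsCompact K)
    {f : ι → Y → ℝ} (hf : ∀ i, Continuous (f i)) : ∃ D : ℝ, ∀ y ∈ K, ∀ i, |f i y| ≤ D := by
  choose D hD using fun i => hK.exists_bound_of_continuousOn (hf i).continuousOn
  obtain ⟨E, hE⟩ := Finite.exists_le D
  exact ⟨E, fun y hy i => (hD i y hy).trans (hE i)⟩

/-- The topology of a finite-dimensional real vector space. -/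
@[reducible] noncomputable def tR (M : Type) [Field M] [NumberField M] :
    TopologicalSpace (ℝ ⊗[ℚ] M) := moduleTopology ℝ _

attribute [local instance] tR

omit [G2 M] in
theorem modT : IsModuleTopology ℝ (ℝ ⊗[ℚ] M) := ⟨rfl⟩

attribute [local instance] modT

omit [G2 M] in
theorem ringT : IsTopologicalRing (ℝ ⊗[ℚ] M) := IsModuleTopology.isTopologicalRing ℝ _

attribute [local instance] ringT

omit [G2 M] in
theorem isCompact_RB (C : ℝ) : IsCompact {x : ℝ ⊗[ℚ] M | RB C x} := by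
  have h : IsCompact {y : Io M → ℝ | ∀ a, y a ∈ Set.Icc (-C) C} :=
    isCompact_pi_infinite fun _ => isCompact_Icc
  convert h.image (IsModuleTopology.continuous_of_linearMap (Bk ℝ M).equivFun.symm.toLinearMap)
  ext x
  constructor
  · exact fun hx => ⟨(Bk ℝ M).equivFun x, fun a => abs_le.1 (hx a),
      (Bk ℝ M).equivFun.symm_apply_apply x⟩
  · rintro ⟨y, hy, rfl⟩ a
    exact (congrArg abs (congrFun ((Bk ℝ M).equivFun.apply_symm_apply y) a)).trans_le
      (abs_le.2 (hy a))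

omit [G2 M] in
theorem isCompact_mat (C : ℝ) : IsCompact {X : Mt n (ℝ ⊗[ℚ] M) | ∀ i j, RB C (X i j)} :=
  isCompact_pi_infinite fun _ => isCompact_pi_infinite fun _ => isCompact_RB C

omit [G2 M] in
theorem cont_repr (a : Io M) : Continuous fun x : ℝ ⊗[ℚ] M => (Bk ℝ M).repr x a :=
  IsModuleTopology.continuous_of_linearMap ((Bk ℝ M).coord a)

omit [G2 M] in
theorem cont_lact (s : Aut M) : Continuous (lact ℝ s) :=
  IsModuleTopology.continuous_of_linearMap (lact ℝ s).toLinearMap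

theorem cont_ev : Continuous (ev M) :=
  IsModuleTopology.continuous_of_linearMap (ev M).toLinearMap

theorem cont_st : Continuous (st : Mt n (ℝ ⊗[ℚ] M) → Mt n (ℝ ⊗[ℚ] M)) :=
  (continuous_id.matrix_map (cont_lact G2.τ)).matrix_transpose

theorem rb_extc (β t : ℝ ⊗[ℚ] M) (C : ℝ) : ∃ D : ℝ, ∀ v : Fin (n + 1) → ℝ ⊗[ℚ] M,
    (∀ i, RB C (v i)) → ∀ i j, RB D (extc β (fun i => t * v i) i j) := by
  obtain ⟨D, hD⟩ := bd_cpt (isCompact_pi_infinite fun _ : Fin (n + 1) => isCompact_RB (M := M) C)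
    (f := fun (i : Fin (n + 1) × Fin (n + 1) × Io M) v =>
      (Bk ℝ M).repr (extc β (fun i => t * v i) i.1 i.2.1) i.2.2) fun i => by
      have h : Continuous fun v : Fin (n + 1) → ℝ ⊗[ℚ] M => cm n β ^ i.2.1.1 *ᵥ
          fun k => (sg ^ i.2.1.1 : ℝ ⊗[ℚ] M ≃+* ℝ ⊗[ℚ] M) (t * v k) := by
        refine continuous_const.matrix_mulVec (continuous_pi fun k => ?_)
        simp only [sg_pow_lact]
        exact (cont_lact _).comp (continuous_const.mul (continuous_apply k))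
      exact (cont_repr _).comp ((continuous_apply i.1).comp h)
  exact ⟨D, fun v hv i j a => hD v hv (i, j, a)⟩

theorem rb_st (C : ℝ) : ∃ D : ℝ, ∀ X : Mt n (ℝ ⊗[ℚ] M), (∀ i j, RB C (X i j)) →
    ∀ i j, RB D ((st X * X) i j) := by
  obtain ⟨D, hD⟩ := bd_cpt (isCompact_mat (n := n) (M := M) C)
    (f := fun (i : Fin (n + 1) × Fin (n + 1) × Io M) X =>
      (Bk ℝ M).repr ((st X * X) i.1 i.2.1) i.2.2) fun i =>
      (cont_repr _).comp ((cont_st.matrix_mul continuous_id).matrix_elem _ _)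
  exact ⟨D, fun X hX i j a => hD X hX (i, j, a)⟩

theorem rb_ev {τ : Type} [Finite τ] (c : τ → Mt n (ℝ ⊗[ℚ] M)) (C : ℝ) :
    ∃ D : ℝ, ∀ X : Mt n (ℝ ⊗[ℚ] M), (∀ i j, RB C (X i j)) → ∀ t,
      (∀ i j, |ev M ((X * c t) i j)| ≤ D) ∧ ∀ i j, |ev M (st (X * c t) i j)| ≤ D := by
  obtain ⟨D, hD⟩ := bd_cpt (isCompact_mat (n := n) (M := M) C)
    (f := fun (i : τ × Fin (n + 1) × Fin (n + 1)) X => ev M ((X * c i.1) i.2.1 i.2.2)) fun i =>
      cont_ev.comp ((continuous_id.matrix_mul continuous_const).matrix_elem _ _)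
  obtain ⟨E, hE⟩ := bd_cpt (isCompact_mat (n := n) (M := M) C)
    (f := fun (i : τ × Fin (n + 1) × Fin (n + 1)) X => ev M (st (X * c i.1) i.2.1 i.2.2)) fun i =>
      cont_ev.comp ((cont_st.comp (continuous_id.matrix_mul continuous_const)).matrix_elem _ _)
  exact ⟨max D E, fun X hX t => ⟨fun i j => (hD X hX (t, i, j)).trans (le_max_left _ _),
    fun i j => (hE X hX (t, i, j)).trans (le_max_right _ _)⟩⟩

end Real

theorem mul_extc [OrdM n M] (k : Type) [Field k] [Algebra ℚ k] {β : M} (hβ : sg β = β)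
    {u : Mt n (k ⊗[ℚ] M)} (hu : u ∈ Dal n (inc k M β)) (t : M) (v : Fin (n + 1) → M) :
    u * (extc β fun i => t * v i).map (inc k M) =
      extc (inc k M β) fun i => inc k M t * (u *ᵥ fun j => inc k M (v j)) i := by
  have hβ' : sg (inc k M β) = inc k M β := by rw [← (twHom_inc k).sg, hβ]
  rw [eq_extc hβ' (mul_mem hu ((twHom_inc k).mem_Dal (extc_mem hβ fun i => t * v i)))]
  congr 1
  funext i
  simp only [Matrix.mul_apply, Matrix.map_apply, extc_zero, map_mul, mulVec, dotProduct,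
    Finset.mul_sum]
  exact Finset.sum_congr rfl fun j _ => mul_left_comm _ _ _

theorem short_elt [OrdM n M] {β : M} (hβ : sg β = β) :
    ∃ C : ℝ, ∀ (u : ∀ p : Nat.Primes, Un n (inc ℚ_[p] M β)) (u' : Un n (inc ℝ M β)),
      {p | ¬ Le 1 (u p).1.1}.Finite → ∃ δ : Mt n M, δ ≠ 0 ∧ δ ∈ Dal n β ∧
        (∀ p : Nat.Primes, Le 1 ((u p).1.1 * δ.map (inc ℚ_[p] M))) ∧
        ∀ i j, RB C ((u'.1.1 * δ.map (inc ℝ M)) i j) := by
  obtain ⟨C, hC⟩ := short_col (n := n) (M := M)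
  obtain ⟨N, hN, hN'⟩ := exists_den β
  obtain ⟨D, hD⟩ := rb_extc (n := n) (inc ℝ M β) (inc ℝ M ((N : M) ^ n)) C
  refine ⟨D, fun u u' hu => ?_⟩
  obtain ⟨v, hv, h1, h2⟩ := hC (fun p => (u p).1.1) u'.1.1 (fun p => (u p).2.2) u'.2.2 hu
  refine ⟨extc β fun i => (N : M) ^ n * v i, fun h0 => hv (funext fun i => ?_), extc_mem hβ _,
    fun p => ?_, ?_⟩
  · have h := extc_zero β (fun i => (N : M) ^ n * v i) i
    rw [h0] at h
    exact (mul_eq_zero.1 h.symm).resolve_left (pow_ne_zero _ (Nat.cast_ne_zero.2 hN))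
  · rw [mul_extc _ hβ (u p).2.1]
    refine (le_extc _ (C := ‖inc ℚ_[p] M (N : M)‖ ^ n) fun i => ?_).mono ?_
    · refine (norm_mul_le _ _).trans ((mul_le_of_le_one_right (norm_nonneg _) (h1 p i)).trans ?_)
      rw [map_pow]
      exact norm_pow_le _ _
    · rw [← mul_pow, mul_comm]
      exact pow_le_one₀ (by positivity) (hN' p)
  · rw [mul_extc _ hβ u'.2.1]
    exact hD _ h2

end Pool.Agent.P.MP_3c2f8c_gt.AO.CptAux
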