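import Pool.Agent.P.MP_3c2f8c_gt.AO.Split
import Pool.Agent.P.MP_3c2f8c_gt.AO.Aut
import Pool.Agent.P.MP_3c2f8c_gt.Ex.Gl.Mah1
import Pool.Agent.P.MP_3c2f8c_gt.AO.CptX

/-! Compactness of the adelic quotient. -/

namespace Pool.Agent.P.MP_3c2f8c_gt.AO

open Matrix E6 Pool.Agent.Lib.CFT
open scoped TensorProduct

variable {n : ℕ} {M : Type} [Field M] [NumberField M] [G2 M] [OrdM n M]

namespace CptAux

theorem finite_fam {P : Type} {U : P → Type} [∀ p, One (U p)] {S : Set P} (hS : S.Finite)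
    (s : ∀ p, Finset (U p)) :
    {r : ∀ p, U p | (∀ p ∈ S, r p ∈ s p) ∧ ∀ p ∉ S, r p = 1}.Finite := by
  have := hS.to_subtype
  refine Set.Finite.of_finite_image (f := fun (r : ∀ p, U p) (p : S) => r p)
    ((Set.Finite.pi' fun p : S => (s p).finite_toSet).subset ?_) fun r hr r' hr' h => ?_
  · rintro _ ⟨r, hr, rfl⟩ p
    exact hr.1 p p.2
  · funext p
    by_cases hp : p ∈ S
    · exact congrFun h ⟨p, hp⟩
    · rw [hr.2 p hp, hr'.2 p hp]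

omit [OrdM n M] in
theorem gram_eq (k : Type) [Field k] [Algebra ℚ k] {β : M} (y : Un n (inc k M β)) (δ : Mt n M) :
    (st δ * δ).map (inc k M) = st (y.1.1 * δ.map (inc k M)) * (y.1.1 * δ.map (inc k M)) := by
  rw [st_mul, Matrix.mul_assoc, ← Matrix.mul_assoc (st y.1.1), y.2.2, Matrix.one_mul,
    Matrix.map_mul, (twHom_inc k).st]

omit [OrdM n M] in
theorem exists_reps (β : M) (D : ℝ) : ∃ (τ : Type) (_ : Finite τ) (d : τ → Gl n M),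
    ∀ δ : Gl n M, δ.1 ∈ Dal n β →
      (∀ i j, (∀ p : Nat.Primes, ‖inc ℚ_[p] M ((st δ.1 * δ.1) i j)‖ ≤ 1) ∧
        RB D (inc ℝ M ((st δ.1 * δ.1) i j))) → ∃ t, δ * (d t)⁻¹ ∈ Un n β := by
  have hH : {h : Mt n M | (∀ i j, (∀ p : Nat.Primes, ‖inc ℚ_[p] M (h i j)‖ ≤ 1) ∧
      RB D (inc ℝ M (h i j))) ∧ ∃ δ : Gl n M, δ.1 ∈ Dal n β ∧ st δ.1 * δ.1 = h}.Finite :=
    (Set.Finite.pi' fun _ => Set.Finite.pi' fun _ => finite_elt D).subset fun h hh => hh.1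
  choose d h3 h4 using fun t : hH.toFinset => (hH.mem_toFinset.1 t.2).2
  refine ⟨_, inferInstance, d, fun δ h1 h2 => ?_⟩
  obtain ⟨t, ht⟩ : ∃ t, st (d t).1 * (d t).1 = st δ.1 * δ.1 :=
    ⟨⟨_, hH.mem_toFinset.2 ⟨h2, δ, h1, rfl⟩⟩, h4 _⟩
  refine ⟨t, mul_mem h1 (inv_mem_Dal (h3 t)), ?_⟩
  rw [Units.val_mul, st_mul, Matrix.mul_assoc, ← Matrix.mul_assoc (st δ.1), ← ht,
    Matrix.mul_assoc, Units.mul_inv, Matrix.mul_one, ← st_mul, Units.mul_inv, st_one]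

end CptAux

open CptAux in
theorem cocpt (hn : 2 ≤ n) {β : Mˣ} (hβ : Par β) (ha : Aniso n β.1) {c : ℝ ⊗[ℚ] M}
    (hc : UN n (inc ℝ M β.1) c) : Cocpt (Phi n β.1) (rho n β.1) (Kst n β.1) := by
  obtain ⟨C, hC⟩ := short_elt (n := n) hβ.sg
  obtain ⟨D, hD⟩ := rb_st (n := n) (M := M) C
  obtain ⟨τ, _, d, hd⟩ := exists_reps (n := n) β.1 D
  obtain ⟨D', hD'⟩ := rb_ev (fun t => ((d t)⁻¹).1.map (inc ℝ M)) C
  obtain ⟨R₁, hR₁⟩ := bd_adG (n := n) D'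
  obtain ⟨R₂, hR₂⟩ := exists_bd (thL n ℝ)
  have hS : {p : Nat.Primes | ∃ t, ¬ Le 1 (((d t)⁻¹).1.map (inc ℚ_[p] M))}.Finite :=
    (Set.finite_iUnion fun t => finite_not_le ((d t)⁻¹).1).subset fun p hp => Set.mem_iUnion.2 hp
  choose E hE using fun p : Nat.Primes => Finite.exists_le
    fun i : τ × Fin (n + 1) × Fin (n + 1) => ‖inc ℚ_[p] M (((d i.1)⁻¹).1 i.2.1 i.2.2)‖
  choose s hs using fun p : Nat.Primes => exists_cover (n := n) (β := inc ℚ_[p] M β.1) (E p)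
  refine ⟨max R₁ (Fintype.card (Ix n) * (R₁ * R₂)), _, finite_fam hS s,
    fun r hr => hS.subset fun p hp => by_contra fun hp' => hp (hr.2 p hp' ▸ one_mem _),
    fun u hu x => ?_⟩
  obtain ⟨v, hv, -, hv'⟩ := exists_lift hu
  obtain ⟨h, hx⟩ := aut_sl hn x
  obtain ⟨w, hw⟩ := ev_surj hβ hc h
  obtain ⟨δ, h0, h1, h2, h3⟩ := hC (fun p => (v p)⁻¹) w⁻¹
    (hv'.subset fun p hp hle => hp ((KU n _).inv_mem hle))
  obtain ⟨δ, rfl⟩ := isUnit_of_ne_zero hβ ha h1 h0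
  obtain ⟨t, ht⟩ := hd δ h1 fun i j => ⟨fun p => by
      have e := congrFun (congrFun (gram_eq ℚ_[p] (v p)⁻¹ δ.1) i) j
      rw [Matrix.map_apply] at e
      rw [e, ← mul_one (1 : ℝ)]
      exact (h2 p).st.mul (h2 p) i j, by
    have e := congrFun (congrFun (gram_eq ℝ w⁻¹ δ.1) i) j
    rw [Matrix.map_apply] at e
    rw [e]
    exact hD _ h3 i j⟩
  obtain ⟨g, hg⟩ : ∃ g : Un n β.1, g.1.1 = δ.1 * ((d t)⁻¹).1 := ⟨⟨_, ht⟩, rfl⟩
  have val : ∀ (k : Type) [Field k] [Algebra ℚ k] (y : Un n (inc k M β.1)),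
      (y⁻¹ * unMap (twHom_inc k) β.1 g).1.1 =
        (y⁻¹).1.1 * δ.1.map (inc k M) * ((d t)⁻¹).1.map (inc k M) := fun k _ _ y => by
    rw [Subgroup.coe_mul, Units.val_mul, unMap_val, hg, Matrix.map_mul, Matrix.mul_assoc]
  have loc : ∀ (p : Nat.Primes) (F : ℝ), Le F (((d t)⁻¹).1.map (inc ℚ_[p] M)) →
      Le F (((v p)⁻¹ * unMap (twHom_inc ℚ_[p]) β.1 g)⁻¹).1.1 := fun p F hF => by
    rw [Un.inv_val, val, ← one_mul F]
    exact ((h2 p).mul hF).st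
  have mk : ∀ p : Nat.Primes, (Phi n β.1 (QuotientGroup.mk g) p)⁻¹ * u p =
      QuotientGroup.mk ((v p)⁻¹ * unMap (twHom_inc ℚ_[p]) β.1 g)⁻¹ := fun p => by
    rw [Phi_mk, ← hv, _root_.mul_inv_rev, inv_inv]
    rfl
  have ex : ∀ p : Nat.Primes, ∃ r : Ul n β.1 p,
      ((∃ t, ¬ Le 1 (((d t)⁻¹).1.map (inc ℚ_[p] M))) → r ∈ s p) ∧
      ((¬ ∃ t, ¬ Le 1 (((d t)⁻¹).1.map (inc ℚ_[p] M))) → r = 1) ∧
      r⁻¹ * (Phi n β.1 (QuotientGroup.mk g) p)⁻¹ * u p ∈ Kst n β.1 p := fun p => by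
    by_cases hp : ∃ t, ¬ Le 1 (((d t)⁻¹).1.map (inc ℚ_[p] M))
    · obtain ⟨r, hr, hr'⟩ := hs p _ (loc p _ fun i j => hE p (t, i, j))
      exact ⟨r, fun _ => hr, fun h => absurd hp h, by rwa [mul_assoc, mk]⟩
    · refine ⟨1, fun h => absurd h hp, fun _ => rfl, ?_⟩
      rw [inv_one, one_mul, mk]
      exact mk_mem_K0 (loc p 1 (by_contra fun h => hp ⟨t, h⟩))
  choose r hr1 hr2 hr3 using ex
  refine ⟨QuotientGroup.mk g, r, ⟨hr1, hr2⟩, hr3, ?_⟩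
  have e1 : GeneralLinearGroup.map (ev M).toRingHom w.1 = h := Units.ext hw
  have e2 : GeneralLinearGroup.map (ev M).toRingHom (unMap (twHom_inc ℝ) β.1 g).1 =
      GeneralLinearGroup.map G2.φ g.1 := Units.ext (Matrix.ext fun i j => ev_inc _)
  have hb : Bd R₁ ((rho n β.1 (QuotientGroup.mk g))⁻¹ * adG h) := by
    have e : (rho n β.1 (QuotientGroup.mk g))⁻¹ * adG h = adG (GeneralLinearGroup.map
        (ev M).toRingHom ((w⁻¹ * unMap (twHom_inc ℝ) β.1 g)⁻¹).1) := by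
      rw [_root_.mul_inv_rev, inv_inv, Subgroup.coe_mul, Subgroup.coe_inv, map_mul, map_inv, e1, e2,
        map_mul, map_inv, rho_mk]
    rw [e]
    refine hR₁ _ (fun i j => ?_) fun i j => ?_
    · show |ev M (((w⁻¹ * unMap (twHom_inc ℝ) β.1 g)⁻¹).1.1 i j)| ≤ D'
      rw [Un.inv_val, val]
      exact (hD' _ h3 t).2 i j
    · show |ev M ((w⁻¹ * unMap (twHom_inc ℝ) β.1 g).1.1 i j)| ≤ D'
      rw [val]
      exact (hD' _ h3 t).1 i j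
  rcases hx with rfl | rfl
  · exact fun i j => (hb i j).trans (le_max_left _ _)
  · rw [← mul_assoc _ (adG h)]
    exact fun i j => (bd_mul hb hR₂ i j).trans (le_max_right _ _)

end Pool.Agent.P.MP_3c2f8c_gt.AO
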