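import Pool.Agent.P.MP_3c2f8c_gt.AO.Sieve

/-! Density of the rational points away from the split primes. -/

namespace Pool.Agent.P.MP_3c2f8c_gt.AO

open Matrix Pool.Agent.Lib.CFT

variable {n : ℕ} {M : Type} [Field M] [NumberField M] [G2 M] [OrdM n M]

namespace DensAux

theorem finite_bad {A F : Type} [CommRing A] [IsArtinianRing A] [Field F] (f : F →+* A)
    (v : Mt n A) : {t : F | ¬ IsUnit (f t • (1 : Mt n A) - v)}.Finite := by
  have key : ∀ m : MaximalSpectrum A, {t : F | v.charpoly.eval (f t) ∈ m.asIdeal}.Finite := by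
    intro m
    have := m.isMaximal
    let _ := Ideal.Quotient.field m.asIdeal
    have h0 : v.charpoly.map (Ideal.Quotient.mk m.asIdeal) ≠ 0 :=
      (v.charpoly_monic.map _).ne_zero
    refine ((Polynomial.finite_setOfPred_isRoot h0).preimage
      ((Ideal.Quotient.mk m.asIdeal).comp f).injective.injOn).subset fun t ht => ?_
    show (v.charpoly.map _).eval (Ideal.Quotient.mk m.asIdeal (f t)) = 0
    rw [Polynomial.eval_map_apply]
    exact Ideal.Quotient.eq_zero_iff_mem.2 ht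
  refine (Set.finite_iUnion key).subset fun t ht => ?_
  have h1 : ¬ IsUnit (v.charpoly.eval (f t)) := by
    rw [Matrix.eval_charpoly, ← Matrix.isUnit_iff_isUnit_det, Matrix.scalar_apply,
      ← Matrix.smul_one_eq_diagonal]
    exact ht
  obtain ⟨I, hI, hm⟩ := exists_max_ideal_of_mem_nonunits h1
  exact Set.mem_iUnion.2 ⟨⟨I, hI⟩, hm⟩

omit [OrdM n M] in
theorem infinite_unitary : {t : M | sg t = t ∧ ta t * t = 1}.Infinite := by
  have hr : (G2.r : M) ≠ 0 := G2.r0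
  have hs : ∀ j : ℕ, sg ((j : M) + G2.r) = j + G2.r := fun j => by
    rw [map_add, map_natCast]
    exact congrArg _ G2.σr
  have ht : ∀ j : ℕ, ta ((j : M) + G2.r) = j - G2.r := fun j => by
    rw [map_add, map_natCast, sub_eq_add_neg]
    exact congrArg _ G2.τr
  have h0 : ∀ j : ℕ, (j : M) + G2.r ≠ 0 := fun j h => by
    have h1 := ht j
    rw [h, map_zero] at h1
    have h2 : (2 : M) * G2.r = 0 := by linear_combination h + h1
    exact hr ((mul_eq_zero.1 h2).resolve_left two_ne_zero)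
  have h0' : ∀ j : ℕ, (j : M) - G2.r ≠ 0 := fun j => by
    rw [← ht]
    exact (map_ne_zero _).2 (h0 j)
  refine Set.infinite_of_injective_forall_mem
    (f := fun j : ℕ => ((j : M) + G2.r) / ta ((j : M) + G2.r)) (fun i j h => ?_) fun j => ⟨?_, ?_⟩
  · simp only [ht] at h
    rw [div_eq_div_iff (h0' i) (h0' j)] at h
    have h2 : (2 : M) * G2.r * ((j : M) - i) = 0 := by linear_combination h
    have h3 := (mul_eq_zero.1 h2).resolve_left (mul_ne_zero two_ne_zero hr)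
    exact (Nat.cast_injective (sub_eq_zero.1 h3)).symm
  · rw [map_div₀, Tw.comm, hs]
  · rw [map_div₀, Tw.tata, ht, div_mul_div_cancel₀ (h0 j), div_self (h0' j)]

section Loc

variable {A : Type} [NormedCommRing A] [IsUltrametricDist A]

theorem le_sub {C : ℝ} {x y : Mt n A} (hx : Le C x) (hy : Le C y) : Le C (x - y) := fun i j => by
  rw [Matrix.sub_apply, sub_eq_add_neg]
  exact (IsUltrametricDist.norm_add_le_max _ _).trans (max_le (hx i j) (by
    rw [norm_neg]; exact hy i j))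

omit [IsUltrametricDist A] in
theorem exists_le (x : Mt n A) : ∃ i j, Le ‖x i j‖ x := by
  obtain ⟨a, ha⟩ := Finite.exists_max fun a : Fin (n + 1) × Fin (n + 1) => ‖x a.1 a.2‖
  exact ⟨a.1, a.2, fun i j => ha (i, j)⟩

theorem inv_le {C ε : ℝ} {x y g g' : Mt n A} (hxy : y * x = 1) (hg : g * g' = 1) (hy : Le C y)
    (he : Le ε (g - x)) (h : C * ε < 1) : Le C g' := by
  obtain ⟨i, j, hm⟩ := exists_le g'
  have e : g' = y - y * (g - x) * g' := by
    rw [Matrix.mul_sub, hxy, Matrix.sub_mul, Matrix.mul_assoc, hg, Matrix.mul_one, Matrix.one_mul,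
      sub_sub_cancel]
  by_contra hn
  have h1 : C < ‖g' i j‖ := not_le.1 fun h1 => hn (hm.mono h1)
  have h0 : 0 < ‖g' i j‖ := ((norm_nonneg _).trans (hy i j)).trans_lt h1
  have h2 : Le (max C (C * ε * ‖g' i j‖)) (y - y * (g - x) * g') :=
    le_sub (hy.mono (le_max_left _ _)) (((hy.mul he).mul hm).mono (le_max_right _ _))
  rw [← e] at h2
  exact absurd (h2 i j) (not_le.2 (max_lt h1 (mul_lt_of_lt_one_left h0 h)))

variable [Tw A] [NTw A] [NormOneClass A] {β : A}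

/-- The Cayley transform near a unitary element without the eigenvalue `-1`. -/
theorem cayley {K : Subgroup (PU n β)} (hK : IsOpen (K : Set (PU n β))) (h2 : IsUnit (2 : A))
    (u : Un n β) (hu : IsUnit (1 + u.1.1)) :
    ∃ x ∈ Dal n β, x + st x = 2 ∧ ∃ ε : ℝ, 0 < ε ∧ ∀ (g : Gl n A) (γ : Un n β),
      γ.1.1 = st g.1 * (g⁻¹).1 → Le ε (g.1 - x) →
        (QuotientGroup.mk γ : PU n β)⁻¹ * QuotientGroup.mk u ∈ K := by
  obtain ⟨a, ha⟩ := hu
  obtain ⟨c, hc⟩ := h2.exists_left_inv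
  obtain ⟨δ, hδ, hK'⟩ := exists_cong hK
  have haD : (a⁻¹).1 ∈ Dal n β := inv_mem_Dal (g := a) (ha ▸ add_mem (one_mem _) u.2.1)
  have h1 : st (a⁻¹).1 = u.1.1 * (a⁻¹).1 := by
    have h3 : st (a⁻¹).1 * (1 + st u.1.1) = 1 := by
      rw [← st_one (n := n) (A := A), ← st_add, ← ha, ← st_mul, Units.mul_inv]
    have h4 : st (a⁻¹).1 * a.1 = u.1.1 := by
      have h5 := congrArg (· * u.1.1) h3
      simp only [Matrix.mul_assoc, Matrix.add_mul, u.2.2, Matrix.one_mul] at h5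
      rw [ha, add_comm 1 u.1.1, h5]
    rw [← h4, Units.mul_inv_cancel_right]
  have h3 : (a⁻¹).1 + st (a⁻¹).1 = 1 := by
    rw [h1, ← a.mul_inv, ha, Matrix.add_mul, Matrix.one_mul]
  obtain ⟨i, j, hy⟩ := exists_le (c • a.1)
  obtain ⟨i', j', hu'⟩ := exists_le u.1.1
  obtain ⟨C, hC, hCy, hCu⟩ : ∃ C : ℝ, 1 ≤ C ∧ Le C (c • a.1) ∧ Le C u.1.1 :=
    ⟨max 1 (max _ _), le_max_left _ _, hy.mono ((le_max_left _ _).trans (le_max_right _ _)),
      hu'.mono ((le_max_right _ _).trans (le_max_right _ _))⟩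
  have hC0 : 0 < C := one_pos.trans_le hC
  refine ⟨(a⁻¹).1 + (a⁻¹).1, add_mem haD haD, ?_, min (1 / (2 * C)) (δ / (C * C)),
    by positivity, fun g γ hγ he => ?_⟩
  · rw [st_add, add_add_add_comm, h3, one_add_one_eq_two]
  set ε := min (1 / (2 * C)) (δ / (C * C)) with hε
  have hε0 : 0 < ε := by positivity
  have hε1 : C * ε < 1 := by
    have h4 : ε * (2 * C) ≤ 1 := (le_div_iff₀ (by positivity)).1 (min_le_left _ _)
    nlinarith
  have hε2 : C * ε * C ≤ δ := by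
    have h4 : ε * (C * C) ≤ δ := (le_div_iff₀ (by positivity)).1 (min_le_right _ _)
    linarith
  have hyx : c • a.1 * ((a⁻¹).1 + (a⁻¹).1) = 1 := by
    rw [Matrix.smul_mul, Matrix.mul_add, Units.mul_inv, ← two_smul A, smul_smul, hc, one_smul]
  have hg' : Le C (g⁻¹).1 := inv_le hyx g.mul_inv hCy he hε1
  have e : (u⁻¹ * γ).1.1 - 1 = st u.1.1 * st (g.1 - ((a⁻¹).1 + (a⁻¹).1)) * (g⁻¹).1 -
      1 * (g.1 - ((a⁻¹).1 + (a⁻¹).1)) * (g⁻¹).1 := by
    have h4 : st u.1.1 * st ((a⁻¹).1 + (a⁻¹).1) = (a⁻¹).1 + (a⁻¹).1 := by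
      rw [st_add, h1, ← Matrix.mul_add, ← Matrix.mul_assoc, u.2.2, Matrix.one_mul]
    rw [Subgroup.coe_mul, Units.val_mul, Un.inv_val, hγ, st_sub, Matrix.mul_sub, h4,
      Matrix.one_mul, Matrix.sub_mul, Matrix.sub_mul, Units.mul_inv, sub_sub_sub_cancel_right,
      Matrix.mul_assoc]
  have h5 : Le δ ((u⁻¹ * γ).1.1 - 1) := by
    rw [e]
    exact (le_sub ((hCu.st.mul he.st).mul hg') ((((le_one.mono hC).mul he)).mul hg')).mono hε2
  have h6 := inv_mem (hK' _ h5)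
  rwa [QuotientGroup.mk_mul, QuotientGroup.mk_inv, _root_.mul_inv_rev, inv_inv] at h6

end Loc

/-- Multiplication by a unitary scalar. -/
theorem exists_scale {A : Type} [CommRing A] [Tw A] {β z : A} (hs : sg z = z) (ht : ta z * z = 1)
    (v : Un n β) : ∃ u : Un n β, u.1.1 = z • v.1.1 ∧
      (QuotientGroup.mk u : PU n β) = QuotientGroup.mk v := by
  have h1 : (z • (1 : Mt n A)) * (ta z • (1 : Mt n A)) = 1 := by
    rw [smul_mul_smul_comm, mul_comm z, ht, mul_one, one_smul]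
  let w : Un n β := ⟨⟨z • 1, ta z • 1, h1, mul_eq_one_comm.1 h1⟩,
    smul_mem_Dal hs (one_mem _), by
      show st (z • (1 : Mt n A)) * (z • 1) = 1
      rw [st_smul, st_one]
      exact mul_eq_one_comm.1 h1⟩
  refine ⟨w * v, ?_, ?_⟩
  · show (z • (1 : Mt n A)) * v.1.1 = _
    rw [Matrix.smul_mul, Matrix.one_mul]
  · have h2 : (QuotientGroup.mk w : PU n β) = 1 := (QuotientGroup.eq_one_iff _).2 ⟨z, rfl⟩
    rw [QuotientGroup.mk_mul, h2, one_mul]

omit [OrdM n M] in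
theorem exists_good (p : Nat.Primes) {β : Ap p.1 M} (v : Un n β) : ∃ u : Un n β,
    IsUnit (1 + u.1.1) ∧ (QuotientGroup.mk u : PU n β) = QuotientGroup.mk v := by
  have := IsArtinianRing.of_finite ℚ_[p] (Ap p.1 M)
  obtain ⟨t, ⟨h1, h2⟩, h3⟩ :=
    (infinite_unitary.sdiff (finite_bad (inc ℚ_[p] M) (-v.1.1))).nonempty
  have h4 : IsUnit (inc ℚ_[p] M t • (1 : Mt n (Ap p.1 M)) - -v.1.1) := not_not.1 h3
  have h5 : ta (inc ℚ_[p] M t) * inc ℚ_[p] M t = 1 := by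
    rw [← (twHom_inc ℚ_[p]).ta, ← map_mul, h2, map_one]
  obtain ⟨u, hu, hm⟩ := exists_scale (z := ta (inc ℚ_[p] M t))
    (by rw [Tw.comm, ← (twHom_inc ℚ_[p]).sg, h1]) (by rw [Tw.tata, mul_comm, h5]) v
  refine ⟨u, ?_, hm⟩
  have h6 : 1 + u.1.1 = ta (inc ℚ_[p] M t) • (inc ℚ_[p] M t • (1 : Mt n (Ap p.1 M)) - -v.1.1) := by
    rw [sub_neg_eq_add, smul_add, smul_smul, h5, one_smul, hu]
  rw [h6, Algebra.smul_def]
  exact ((IsUnit.of_mul_eq_one _ h5).map _).mul h4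

end DensAux

theorem dens {β : Mˣ} (hβ : Par β) : Dens (Phi n β.1) (Kst n β.1) {p | Sp M p} := by
  intro K hK s u hu
  classical
  obtain ⟨v, hv, -, -⟩ := exists_lift hu
  have h2 : ∀ p : Nat.Primes, IsUnit (2 : Ap p.1 M) := fun p => by
    have h := (IsUnit.mk0 (2 : ℚ_[p]) two_ne_zero).map (algebraMap ℚ_[p] (Ap p.1 M))
    rwa [map_ofNat] at h
  have key : ∀ p : Nat.Primes, ∃ x ∈ Dal n (inc ℚ_[p] M β.1), x + st x = 2 ∧ ∃ ε : ℝ, 0 < ε ∧
      ∀ (g : Gl n (Ap p.1 M)) (γ : Un n (inc ℚ_[p] M β.1)), γ.1.1 = st g.1 * (g⁻¹).1 →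
        Le ε (g.1 - x) → (QuotientGroup.mk γ : Ul n β.1 p)⁻¹ * u p ∈ K p := fun p => by
    obtain ⟨w, h1, h3⟩ := DensAux.exists_good p (v p)
    rw [← hv p, ← h3]
    exact DensAux.cayley (hK.1 p).2 (h2 p) w h1
  choose x hx hx2 e he hxe using key
  have hfin : {p | u p ∉ Kst n β.1 p}.Finite := hu
  let s' : Finset Nat.Primes := s ∪ (hK.2.union hfin).toFinset
  obtain ⟨ε, hε1, hε⟩ : ∃ ε : ℝ, (∀ p ∈ s', ε ≤ e p) ∧ 0 < ε :=
    (((Filter.eventually_all_finset s').2 fun p _ =>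
      Filter.mem_of_superset (Ioc_mem_nhdsGT (he p)) fun _ h => h.2).and
        self_mem_nhdsWithin).exists
  obtain ⟨g, hg, h1, h3, h4⟩ := approx hβ s' x (fun p _ => hx p) hε
  have h5 := h4 fun p _ => hx2 p
  have h6 : st (g⁻¹).1 * st g.1 = 1 := by rw [← st_mul, Units.mul_inv, st_one]
  have h7 : st (st g.1 * (g⁻¹).1) * (st g.1 * (g⁻¹).1) = 1 := by
    rw [st_mul, st_st, Matrix.mul_assoc, ← Matrix.mul_assoc g.1, ← h5, Matrix.mul_assoc,
      Units.mul_inv, Matrix.mul_one, h6]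
  let γ : Un n β.1 := ⟨⟨st g.1 * (g⁻¹).1, _, mul_eq_one_comm.1 h7, h7⟩,
    mul_mem (st_mem_Dal hβ hg) (inv_mem_Dal hg), h7⟩
  have h8 : ∀ p : Nat.Primes, (unMap (twHom_inc ℚ_[p]) β.1 γ).1.1 =
      st (g.1.map (inc ℚ_[p] M)) * (g⁻¹).1.map (inc ℚ_[p] M) := fun p => by
    rw [unMap_val, ← (twHom_inc ℚ_[p]).st, ← Matrix.map_mul]
  refine ⟨QuotientGroup.mk γ, fun p hp => ?_⟩
  rw [Phi_mk]
  by_cases hs : p ∈ s'
  · exact hxe p (GeneralLinearGroup.map (inc ℚ_[p] M) g) _ (h8 p) ((h1 p hs).mono (hε1 p hs))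
  · simp only [s', Finset.mem_union, Set.Finite.mem_toFinset, Set.mem_union, Set.mem_ofPred_eq,
      not_or, not_not] at hs
    have h9 := h3 p (by
      simp only [s', Finset.mem_union, Set.Finite.mem_toFinset, Set.mem_union, Set.mem_ofPred_eq,
        not_or, not_not]
      exact hs)
    rw [hs.2.1]
    refine mul_mem (inv_mem (mk_mem_K0 ?_)) hs.2.2
    rw [h8]
    simpa using h9.1.st.mul (h9.2 (hp.resolve_left hs.1))

end Pool.Agent.P.MP_3c2f8c_gt.AO
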