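import Pool.Agent.P.MP_3c2f8c_gt.AO.HkB

/-! Regular elements of the semigroup; a line in general position; the Hecke correspondence. -/

namespace Pool.Agent.P.MP_3c2f8c_gt.AO.HkG

open Matrix

variable {p : ℕ} [Fact p.Prime] {ι : Type} [Fintype ι] [DecidableEq ι]

theorem norms_of_inS {l : ι → ℤ} (hl : Function.Injective l) (hl0 : ∀ i, l i ≠ 0)
    {y : ι → ℝ} {s t : ℝ} (hts : t < s) {c : ℕ} (hc : 0 < c)
    {g : Matrix ι ι ℚ_[p]} (hg : InS l y s t c g) : ∃ v : ℕ → ℤ,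
      (∀ i j, i < j → j < Fintype.card ι → v j < v i) ∧ (∀ i, i < Fintype.card ι → v i ≠ 0) ∧
      ∀ k, k ≤ Fintype.card ι → ‖g.charpoly.coeff (Fintype.card ι - k)‖ =
        (p : ℝ) ^ (∑ i ∈ Finset.range k, v i) := by
  have hP : (1 : ℝ) < p := by exact_mod_cast (Fact.out : p.Prime).one_lt
  obtain ⟨σ, hσ⟩ : ∃ σ : Fin (Fintype.card ι) ≃ ι, StrictAnti fun a => l (σ a) := by
    refine ⟨(Tuple.sort fun a => -l ((Fintype.equivFin ι).symm a)).trans
      (Fintype.equivFin ι).symm, fun a b hab => ?_⟩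
    have h1 := Tuple.monotone_sort (fun a => -l ((Fintype.equivFin ι).symm a)) hab.le
    simp only [Function.comp_apply, neg_le_neg_iff] at h1
    refine lt_of_le_of_ne h1 fun e => hab.ne' ?_
    exact (Equiv.injective _) (hl e)
  refine ⟨fun i => if h : i < Fintype.card ι then c * l (σ ⟨i, h⟩) else 0, ?_, ?_, ?_⟩
  · intro i j hij hj
    beta_reduce
    rw [dif_pos hj, dif_pos (hij.trans hj)]
    exact mul_lt_mul_of_pos_left (hσ (Fin.mk_lt_mk.mpr hij)) (by exact_mod_cast hc)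
  · intro i hi
    beta_reduce
    rw [dif_pos hi]
    exact mul_ne_zero (by exact_mod_cast hc.ne') (hl0 _)
  intro k hk
  obtain ⟨τ, hτ⟩ : ∃ τ : Fin k → ι, τ = fun a => σ (Fin.castLE hk a) := ⟨_, rfl⟩
  have hinj : Function.Injective τ := by
    rw [hτ]; exact σ.injective.comp (Fin.castLE_injective hk)
  have htop : Top l τ := by
    refine ⟨hinj, fun a j hj => ?_⟩
    obtain ⟨b, rfl⟩ := σ.surjective j
    rw [hτ] at hj
    have hb : b < Fin.castLE hk a := hσ.lt_iff_gt.mp hj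
    exact ⟨⟨b, lt_trans hb a.2⟩, by rw [hτ]; rfl⟩
  obtain ⟨hle, heq⟩ := hg k τ htop
  have hr : Set.range τ = (Finset.univ.image τ : Finset ι) := by simp
  rw [charpoly_coeff_eq_sum_minors g k hk, norm_mul, norm_pow, norm_neg, norm_one, one_pow, one_mul,
    Hk5Aux.norm_sum_dom (i₀ := Finset.univ.image τ), Hk5Aux.det_enum g hinj hr, heq,
    ← Real.rpow_intCast, Finset.sum_range]
  · congr 1
    rw [Finset.mul_sum]
    push_cast
    refine Finset.sum_congr rfl fun a _ => ?_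
    rw [dif_pos (lt_of_lt_of_le a.2 hk), hτ]
    push_cast
    rfl
  · rw [Finset.mem_powersetCard, Finset.card_image_of_injective _ hinj]
    simp
  · intro S hS hne
    have hcard := (Finset.mem_powersetCard.mp hS).2
    obtain ⟨f, hf⟩ : ∃ f : Fin k → ι, f = fun a => ((S.equivFinOfCardEq hcard).symm a).1 :=
      ⟨_, rfl⟩
    have hfi : Function.Injective f := by
      rw [hf]; exact Subtype.val_injective.comp (Equiv.injective _)
    have hfr : Set.range f = S := by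
      ext x
      rw [hf]
      constructor
      · rintro ⟨a, rfl⟩
        exact ((S.equivFinOfCardEq hcard).symm a).2
      · intro hx
        exact ⟨S.equivFinOfCardEq hcard ⟨x, hx⟩, by simp⟩
    have hlt := htop.sum_lt hl hfi (by
      rw [hfr, hr]; exact fun e => hne (Finset.coe_injective e))
    have hlt' : ∑ a, (l (f a) : ℝ) < ∑ a, (l (τ a) : ℝ) := by exact_mod_cast hlt
    rw [Hk5Aux.det_enum g hinj hr, heq, Hk5Aux.det_enum g hfi hfr]
    refine (hle f f hfi hfi).trans_lt (Real.rpow_lt_rpow_of_exponent_lt hP ?_)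
    nlinarith

theorem reg_of_inS [Nonempty ι] {l : ι → ℤ} (hl : Function.Injective l) (hl0 : ∀ i, l i ≠ 0)
    {y : ι → ℝ} {s t : ℝ} (hts : t < s) {c : ℕ} (hc : 0 < c)
    {g : Matrix ι ι ℚ_[p]} (hg : InS l y s t c g) : g.charpoly.Separable ∧ g.trace ≠ 0 := by
  obtain ⟨v, h1, h2, h3⟩ := norms_of_inS hl hl0 hts hc hg
  refine ⟨(regP_of_norms g.charpoly_natDegree_eq_dim v h1 h2 h3).1, ?_⟩
  rw [trace_eq_neg_charpoly_coeff, neg_ne_zero, ← norm_pos_iff, h3 1 Fintype.card_pos]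
  exact zpow_pos Hk2Aux.p_pos _

section Line

open Polynomial

variable {d : ℕ}

/-- The direction of the line. -/
def dir (i : Fin d) : ℤ := (i : ℤ) + 1

theorem dir_inj : Function.Injective (dir (d := d)) := fun a b e =>
  Fin.ext (by simp only [dir] at e; omega)

/-- The base point as a vector of polynomials. -/
noncomputable def Y (i : Fin d) : ℤ[X] := monomial (i.1 + 1) 1

theorem coeff_Y (i j : Fin d) (k : ℤ) (c : Fin d) : (Y i - Y j - C k).coeff (c + 1) =
    (if i = c then 1 else 0) - if j = c then 1 else 0 := by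
  simp only [Y, coeff_sub, coeff_monomial, coeff_C_succ, sub_zero, Nat.add_right_cancel_iff,
    Fin.val_inj]

theorem key {θ : ℝ} (hθ : Transcendental ℤ θ) (t : ℝ) {i j : Fin d} (h : i ≠ j)
    (hk : ∃ k : ℤ, pt dir (fun i => aeval θ (Y i)) t i - pt dir (fun i => aeval θ (Y i)) t j = k) :
    Wall (pt dir (fun i : Fin d => aeval θ (Y i)) t) i j := by
  refine ⟨h, hk, fun i' j' h' hk' => ?_⟩
  obtain ⟨k, hk⟩ := hk
  obtain ⟨k', hk'⟩ := hk'
  have e : C (dir i' - dir j') * (Y i - Y j - C k) = C (dir i - dir j) * (Y i' - Y j' - C k') := by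
    apply transcendental_iff_injective.1 hθ
    simp only [pt] at hk hk'
    simp only [map_mul, map_sub, aeval_C, eq_intCast, map_intCast]
    linear_combination ((dir i' : ℝ) - dir j') * hk - ((dir i : ℝ) - dir j) * hk'
  have e1 : ∀ c : Fin d, (dir i' - dir j') * ((if i = c then 1 else 0) - if j = c then 1 else 0) =
      (dir i - dir j) * ((if i' = c then 1 else 0) - if j' = c then 1 else 0) := fun c => by
    have := congrArg (fun P => Polynomial.coeff P (c + 1)) e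
    simpa only [coeff_C_mul, coeff_Y] using this
  have hL : dir i' - dir j' ≠ 0 := sub_ne_zero.2 (dir_inj.ne h')
  have a1 : i' = i ∨ j' = i := by
    by_contra hc
    rw [not_or] at hc
    have := e1 i
    rw [if_pos rfl, if_neg h.symm, if_neg hc.1, if_neg hc.2] at this
    exact hL (by linarith)
  have a2 : i' = j ∨ j' = j := by
    by_contra hc
    rw [not_or] at hc
    have := e1 j
    rw [if_pos rfl, if_neg h, if_neg hc.1, if_neg hc.2] at this
    exact hL (by linarith)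
  rcases a1 with a1 | a1
  · exact .inl ⟨a1, a2.resolve_left fun a => h (a1.symm.trans a)⟩
  · exact .inr ⟨a2.resolve_right fun a => h (a1.symm.trans a), a1⟩

theorem exists_line (d : ℕ) : ∃ (l : Fin d → ℤ) (y : Fin d → ℝ),
    Function.Injective l ∧ (∀ i, l i ≠ 0) ∧
    ∀ t, Generic (pt l y t) ∨ ∃ i j, Wall (pt l y t) i j := by
  have hθ := transcendental_liouvilleNumber (m := 2) le_rfl
  generalize liouvilleNumber (2 : ℕ) = θ at hθ
  refine ⟨dir, fun i => aeval θ (Y i), dir_inj, fun i => by simp only [dir]; omega, fun t => ?_⟩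
  refine or_iff_not_imp_left.2 fun hG => ?_
  simp only [Generic, not_forall, not_not] at hG
  obtain ⟨i, j, h, k, hk⟩ := hG
  exact ⟨i, j, key hθ _ h ⟨k, hk⟩⟩

end Line

section Push

variable {G O : Type} [Group G] [Group O] (π : G →* O)

/-- A correspondence between the images of two subgroups. -/
def CorrP (A B : Subgroup G) (𝒮 : Set G) : Prop := Corr (A.map π) (B.map π) (π '' 𝒮)

variable {π}

theorem CorrP.mono {A B : Subgroup G} {𝒮 𝒯 : Set G} (h : CorrP π A B 𝒮) (hs : 𝒮 ⊆ 𝒯) :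
    CorrP π A B 𝒯 := Corr.mono h (Set.image_mono hs)

theorem corrP_refl (A : Subgroup G) : CorrP π A A (A : Set G) := corr_refl _

theorem CorrP.comp {A B C : Subgroup G} {𝒮 𝒯 𝒰 : Set G} (h : CorrP π A B 𝒮) (h' : CorrP π B C 𝒯)
    (hu : ∀ g ∈ 𝒮, ∀ g' ∈ 𝒯, g * g' ∈ 𝒰) : CorrP π A C 𝒰 := Corr.comp h h' (by
  rintro _ ⟨g, hg, rfl⟩ _ ⟨g', hg', rfl⟩
  exact ⟨g * g', hu g hg g' hg', map_mul π g g'⟩)

theorem map_conj (A : Subgroup G) (w : G) : (A.map (MulAut.conj w).toMonoidHom).map π =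
    (A.map π).map (MulAut.conj (π w)).toMonoidHom := by
  rw [Subgroup.map_map, Subgroup.map_map]
  congr 1
  ext g
  simp

theorem corrP_wall {B P : Subgroup G} (hBP : B ≤ P) (hfin : (B.map π).relIndex (P.map π) ≠ 0)
    (hker : ∀ g ∈ P, π g = 1 → g ∈ B) {w : G} (hw : w ∈ P) (hw' : w ∉ B) :
    CorrP π (B.map (MulAut.conj w).toMonoidHom) B {g | g ∈ P ∧ w⁻¹ * g ∉ B} := by
  rw [CorrP, map_conj]
  refine (corr_wall (Subgroup.map_mono hBP) hfin (Subgroup.mem_map_of_mem π hw) ?_).mono ?_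
  · rintro ⟨b, hb, e⟩
    have h1 := hker (b⁻¹ * w) (P.mul_mem (P.inv_mem (hBP hb)) hw) (by
      rw [map_mul, map_inv, e, inv_mul_cancel])
    exact hw' ((Subgroup.mul_mem_cancel_left _ (B.inv_mem hb)).1 h1)
  · rintro _ ⟨⟨g, hg, rfl⟩, h⟩
    refine ⟨g, ⟨hg, fun h1 => h ?_⟩, rfl⟩
    rw [← map_inv, ← map_mul]
    exact Subgroup.mem_map_of_mem π h1

theorem corrP_shift (A : Subgroup G) (s : G) :
    CorrP π (A.map (MulAut.conj s).toMonoidHom) A
      {g | g * s⁻¹ ∈ A.map (MulAut.conj s).toMonoidHom} := by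
  rw [CorrP, map_conj]
  refine (corr_shift (A.map π) (π s)).mono fun g hg => ?_
  rw [Set.mem_ofPred_eq, ← map_conj] at hg
  obtain ⟨a, ha, e⟩ := hg
  refine ⟨a * s, by rwa [Set.mem_ofPred_eq, mul_inv_cancel_right], ?_⟩
  rw [map_mul, e, inv_mul_cancel_right]

end Push

omit [Fintype ι] [DecidableEq ι] in
theorem pt_pt (l : ι → ℤ) (y : ι → ℝ) (t u : ℝ) : pt l (pt l y t) u = pt l y (t + u) := by
  funext i
  simp only [pt]
  ring

omit [Fintype ι] [DecidableEq ι] in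
theorem generic_add_one {l : ι → ℤ} {y : ι → ℝ} {t : ℝ} (h : Generic (pt l y t)) :
    Generic (pt l y (t + 1)) := fun i j hij k hk => h i j hij (k - (l i - l j)) (by
  simp only [pt] at hk ⊢
  push_cast
  linarith)

variable {O : Type} [Group O] [TopologicalSpace O] [IsTopologicalGroup O] {π : GL ι ℚ_[p] →* O}

theorem interval (hco : ∀ x : ι → ℝ, CO ((Gx p x).map π))
    (hker : ∀ x x' : ι → ℝ, ∀ g ∈ Gx p x, π g = 1 → g ∈ Gx p x')
    {l : ι → ℤ} (hl : Function.Injective l) {y : ι → ℝ}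
    (hw : ∀ t, Generic (pt l y t) ∨ ∃ i j, Wall (pt l y t) i j) {s : ℝ}
    (hs : Generic (pt l y s)) (n : ℕ) : ∀ t, s ≤ t → Generic (pt l y t) →
      {u | s ≤ u ∧ u ≤ t ∧ ¬ Generic (pt l y u)}.ncard = n →
      CorrP π (Gx p (pt l y s)) (Gx p (pt l y t)) {g | InS l y s t 0 g.1} := by
  induction n using Nat.strong_induction_on with
  | _ n ih =>
  intro t hst ht hn
  have fin := finite_not_generic hl y s t
  rcases {u | s ≤ u ∧ u ≤ t ∧ ¬ Generic (pt l y u)}.eq_empty_or_nonempty with he | hne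
  · rw [← Gx_pt_eq l y hst fun u h1 h2 => by
      by_contra h
      exact Set.eq_empty_iff_forall_notMem.1 he u ⟨h1, h2, h⟩]
    exact (corrP_refl _).mono fun g hg =>
      (inS_of_big hg.1 (big_of_generic l hs hg)).mono le_rfl hst
  obtain ⟨c, ⟨c1, c2, c3⟩, cmax⟩ := Set.exists_max_image _ id fin hne
  have c4 : s < c := lt_of_le_of_ne c1 fun h => c3 (h ▸ hs)
  have c5 : c < t := lt_of_le_of_ne c2 fun h => c3 (h ▸ ht)
  obtain ⟨i, j, hij⟩ := (hw c).resolve_left c3
  obtain ⟨ε₀, e0, e1⟩ := wall_step (p := p) hl hij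
  obtain ⟨u, ⟨u1, u2⟩, u3⟩ := (Set.Ioo_infinite (show max s (max (c - ε₀) (c - (t - c))) < c by
    simp only [max_lt_iff]
    exact ⟨c4, by linarith, by linarith⟩)).exists_notMem_finite fin
  simp only [max_lt_iff] at u1
  obtain ⟨u4, u5, u6⟩ := u1
  have u7 : Generic (pt l y u) := by
    by_contra h
    exact u3 ⟨u4.le, by linarith, h⟩
  obtain ⟨w, w1, w2, w3, w4, w5⟩ := e1 (c - u) (by linarith) (by linarith)
  have k1 := ih _ (hn ▸ Set.ncard_lt_ncard (s := {v | s ≤ v ∧ v ≤ u ∧ ¬ Generic (pt l y v)})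
    ⟨fun v hv => ⟨hv.1, hv.2.1.trans (by linarith), hv.2.2⟩,
      fun h => absurd (h ⟨c1, c2, c3⟩).2.1 (by linarith)⟩ fin) u u4.le u7 rfl
  have k2 := corrP_wall w3 ((hco _).relIndex_ne_zero (hco _)) (hker _ _) w1 w2
  rw [← w4, pt_pt, show c + -(c - u) = u by ring] at k2
  have k3 := k1.comp (𝒰 := {g : GL ι ℚ_[p] | InS l y s t 0 g.1}) k2 fun g hg g' hg' =>
      (InS.mul hl hg (inS_of_big hg'.1.1 (w5 g' hg'.1 hg'.2)) u2).mono le_rfl c2
  rw [pt_pt, Gx_pt_eq l y (show c + (c - u) ≤ t by linarith) fun v h1 h2 => by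
    by_contra h
    have := cmax v ⟨by linarith, h2, h⟩
    simp only [id] at this
    linarith] at k3
  exact k3

theorem hecke [Nonempty ι] (hco : ∀ x : ι → ℝ, CO ((Gx p x).map π))
    (hker : ∀ x x' : ι → ℝ, ∀ g ∈ Gx p x, π g = 1 → g ∈ Gx p x')
    {l : ι → ℤ} (hl : Function.Injective l) (hl0 : ∀ i, l i ≠ 0) {y : ι → ℝ}
    (hw : ∀ t, Generic (pt l y t) ∨ ∃ i j, Wall (pt l y t) i j) :
    ∃ (x : ι → ℝ) (𝒮 : Subsemigroup (GL ι ℚ_[p])), CorrP π (Gx p x) (Gx p x) 𝒮 ∧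
      ∀ g ∈ 𝒮, g.1.charpoly.Separable ∧ g.1.trace ≠ 0 := by
  obtain ⟨δ, d0, d1, d3⟩ : ∃ δ : ℝ, 0 < δ ∧ δ ≤ 1 ∧
      ∀ u, 0 < u → u < δ → Generic (pt l y u) := by
    have fin : {u | 0 < u ∧ u ≤ 1 ∧ ¬ Generic (pt l y u)}.Finite :=
      (finite_not_generic hl y 0 1).subset fun u hu => ⟨hu.1.le, hu.2⟩
    obtain ⟨m, m1, m2⟩ := Set.exists_min_image _ id (fin.insert 1) (Set.insert_nonempty _ _)
    have m3 : m ≤ 1 := m2 1 (Set.mem_insert _ _)
    have m4 : 0 < m := by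
      rcases m1 with h | h
      · rw [h]; exact one_pos
      · exact h.1
    refine ⟨m, m4, m3, fun u h1 h2 => ?_⟩
    by_contra h
    exact absurd (m2 u (Set.mem_insert_of_mem _ ⟨h1, by linarith, h⟩)) (not_le.2 h2)
  obtain ⟨σ, s1, s2⟩ := exists_shift (p := p) l
  refine ⟨pt l y (δ / 4), ⟨{g | ∃ c, 0 < c ∧ InS l y (3 * δ / 4) (δ / 2) c g.1}, ?_⟩, ?_, ?_⟩
  · rintro g h ⟨c, c1, c2⟩ ⟨c', -, c3⟩
    exact ⟨c + c', by omega, InS.mul hl c2 c3 (by linarith)⟩
  · have k1 := interval hco hker hl hw (d3 (3 * δ / 4) (by linarith) (by linarith)) _ (δ / 4 + 1)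
      (by linarith) (generic_add_one (d3 _ (by linarith) (by linarith))) rfl
    rw [← Gx_pt_eq l y (show δ / 4 ≤ 3 * δ / 4 by linarith)
      fun u h1 h2 => d3 u (by linarith) (by linarith)] at k1
    have k2 := corrP_shift (π := π) (Gx p (pt l y (δ / 4))) σ
    rw [← s2] at k2
    refine k1.comp k2 fun g hg g' hg' => ⟨0 + 0 + 1, by omega, ?_⟩
    have a1 : g' * σ⁻¹ ∈ Gx p (pt l y (δ / 2 + 1)) := by
      rw [← Gx_pt_eq l y (show δ / 4 + 1 ≤ δ / 2 + 1 by linarith) fun u h1 h2 => by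
        have := generic_add_one (d3 (u - 1) (by linarith) (by linarith))
        rwa [sub_add_cancel] at this]
      exact hg'
    have a2 := inS_of_big a1.1
      (big_of_generic l (generic_add_one (d3 _ (by linarith) (by linarith))) a1)
    have a3 := (InS.mul hl hg a2 (by linarith)).mul_shift
    have a4 : g * g' = g * (g' * σ⁻¹) * σ := by group
    rw [a4, ← s1] at *
    exact a3
  · rintro g ⟨c, c1, c2⟩
    exact reg_of_inS hl hl0 (by linarith) c1 c2

end Pool.Agent.P.MP_3c2f8c_gt.AO.HkG
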