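import Pool.Agent.P.MP_3c2f8c_gt.AO.GDefs
import Pool.Agent.P.MP_3c2f8c_gt.AO.HkC

/-! Hecke data in the projective linear group. -/

namespace Pool.Agent.P.MP_3c2f8c_gt.AO

open Matrix

variable {n p : ℕ} [Fact p.Prime] {O : Type} [Group O] [TopologicalSpace O] [IsTopologicalGroup O]

theorem Model.hecke (m : Model n p O) : Hecke fun γ : O => ∃ g, m.π g = γ ∧ Reg g.1 := by
  have hco : ∀ x : Fin (n + 1) → ℝ, CO ((HkG.Gx p x).map m.π) := fun x =>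
    ⟨(HkG.co_Gx x).1.image m.cont, m.opn _ (HkG.co_Gx x).2⟩
  have hker : ∀ x x' : Fin (n + 1) → ℝ, ∀ g ∈ HkG.Gx p x, m.π g = 1 → g ∈ HkG.Gx p x' := by
    intro x x' g hg h
    obtain ⟨c, hc⟩ := (m.ker g).1 h
    obtain ⟨c', hc'⟩ := (m.ker g⁻¹).1 (by rw [map_inv, h, inv_one])
    have h1 := hg.1
    have h2 := hg.2
    rw [hc] at h1
    rw [hc'] at h2
    exact ⟨hc ▸ h1.scalar x', hc' ▸ h2.scalar x'⟩
  obtain ⟨l, y, hl, hl0, hw⟩ := HkG.exists_line (n + 1)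
  obtain ⟨x, 𝒮, h1, h2⟩ := HkG.hecke hco hker hl hl0 hw
  obtain ⟨κ, k1, k2, k3⟩ := Corr.exists_hecke (A := (HkG.Gx p x).map m.π)
    (𝒮 := 𝒮.map m.π.toMulHom) h1
  refine ⟨_, κ, hco x, k1, k2, fun k γ z h => ?_⟩
  obtain ⟨g', s, hs, e⟩ := k3 k γ z h
  obtain ⟨g, rfl⟩ := m.surj g'
  have e' : m.π s = (m.π g)⁻¹ * γ * m.π g := e
  refine ⟨g * s * g⁻¹, by rw [map_mul, map_mul, map_inv, e']; group, ?_, ?_⟩
  · rw [Units.val_mul, Units.val_mul, coe_units_inv, charpoly_units_conj]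
    exact (h2 s hs).1
  · rw [Units.val_mul, Units.val_mul, trace_units_conj]
    exact (h2 s hs).2

end Pool.Agent.P.MP_3c2f8c_gt.AO
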