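import Pool.Agent.P.MP_3c2f8c_gt.AO.Loc
import Pool.Agent.Lib.CFT.Tr1

/-! The structure of the cyclic algebra: columns, the involution, division, isomorphisms. -/

namespace Pool.Agent.P.MP_3c2f8c_gt.AO

open Matrix Pool.Agent.Lib.CFT
open scoped TensorProduct

variable {n : ℕ} {A A' : Type} [CommRing A] [Tw A] [CommRing A'] [Tw A']

theorem om_zero (c : A) : om 0 c = 1 := by
  rw [om, Finset.prod_range_zero]

theorem om_add (i j : ℕ) (c : A) : om (i + j) c = om i c * (sg ^ i : A ≃+* A) (om j c) := by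
  rw [om, om, om, Finset.prod_range_add, map_prod]
  simp only [pow_add]
  rfl

theorem om_succ' (i : ℕ) (c : A) : om (i + 1) c = c * sg (om i c) := by
  rw [add_comm, om_add, pow_one, om, Finset.prod_range_one]
  rfl

theorem om_mul (i : ℕ) (c d : A) : om i (c * d) = om i c * om i d := by
  simp only [om, map_mul, Finset.prod_mul_distrib]

theorem om_one (i : ℕ) : om i (1 : A) = 1 := by
  simp only [om, map_one, Finset.prod_const_one]

theorem om_pow (i k : ℕ) (c : A) : om i (c ^ k) = om i c ^ k := by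
  simp only [om, map_pow, Finset.prod_pow]

theorem sg_pow_succ (k : ℕ) (x : A) :
    (sg ^ (k + 1) : A ≃+* A) x = sg ((sg ^ k : A ≃+* A) x) := by
  rw [pow_succ']; rfl

theorem sg_pow_succ' (k : ℕ) (x : A) :
    (sg ^ (k + 1) : A ≃+* A) x = (sg ^ k : A ≃+* A) (sg x) := by
  rw [pow_succ]; rfl

theorem sg_pow_fixed {c : A} (h : sg c = c) (k : ℕ) : (sg ^ k : A ≃+* A) c = c := by
  induction k with
  | zero => rfl
  | succ k ih => rw [sg_pow_succ, ih, h]

theorem TwHom.sg_pow {f : A →+* A'} (hf : TwHom f) (k : ℕ) (x : A) :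
    f ((Tw.sg ^ k : A ≃+* A) x) = (Tw.sg ^ k : A' ≃+* A') (f x) := by
  induction k with
  | zero => rfl
  | succ k ih => rw [sg_pow_succ, sg_pow_succ, hf.sg, ih]

theorem ta_sg_pow (k : ℕ) (x : A) :
    ta ((sg ^ k : A ≃+* A) x) = (sg ^ k : A ≃+* A) (ta x) := (twHom_tf true).sg_pow k x

theorem om_of_fixed (i : ℕ) {c : A} (h : sg c = c) : om i c = c ^ i := by
  simp only [om, sg_pow_fixed h, Finset.prod_const, Finset.card_range]

theorem ta_om (i : ℕ) (c : A) : ta (om i c) = om i (ta c) := by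
  simp only [om, map_prod, ta_sg_pow]

theorem TwHom.om {f : A →+* A'} (hf : TwHom f) (i : ℕ) (c : A) : f (om i c) = om i (f c) := by
  simp only [AO.om, map_prod, hf.sg_pow]

theorem UN.mul {β β' c c' : A} (h : UN n β c) (h' : UN n β' c') : UN n (β * β') (c * c') := by
  refine ⟨?_, by rw [om_mul, h.2, h'.2]⟩
  rw [map_mul, mul_mul_mul_comm, h.1, h'.1, one_mul]

theorem UN.ta {β c : A} (h : UN n β c) : UN n (ta β) (ta c) := by
  refine ⟨?_, by rw [← ta_om, h.2]⟩
  rw [Tw.tata, mul_comm, h.1]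

theorem Par.mul {β β' : Aˣ} (h : Par β) (h' : Par β') : Par (β * β') := by
  refine ⟨by rw [Units.val_mul, map_mul, h.sg, h'.sg], ?_⟩
  rw [Units.val_mul, map_mul, mul_mul_mul_comm, h.ta, h'.ta, one_mul]

theorem Par.inv {β : Aˣ} (h : Par β) : Par β⁻¹ := by
  constructor
  · refine (Units.inv_eq_of_mul_eq_one_left ?_).symm
    conv_lhs => rw [← h.sg]
    rw [← map_mul, Units.inv_mul, map_one]
  · rw [Units.inv_eq_of_mul_eq_one_left h.ta, Tw.tata, mul_comm, h.ta]

theorem Par.ta_eq {β : Aˣ} (h : Par β) : Tw.ta β.1 = (β⁻¹).1 := by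
  exact (Units.inv_eq_of_mul_eq_one_left h.ta).symm

theorem Par.map {f : A →+* A'} (hf : TwHom f) {β : Aˣ} (h : Par β) :
    Par (Units.map f.toMonoidHom β) := by
  constructor
  · show Tw.sg (f β.1) = f β.1
    rw [← hf.sg, h.sg]
  · show Tw.ta (f β.1) * f β.1 = 1
    rw [← hf.ta, ← map_mul, h.ta, map_one]

omit [Tw A] in
theorem mul_cm (β : A) (x : Mt n A) (i j : Fin (n + 1)) :
    (x * cm n β) i j = x i (j + 1) * if j + 1 = 0 then β else 1 := by
  rw [Matrix.mul_apply, Finset.sum_eq_single (j + 1)]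
  · simp [cm]
  · intro k _ hk
    simp [cm, hk]
  · simp

omit [Tw A] in
theorem cm_single (β : A) (j : Fin (n + 1)) : cm n β *ᵥ Pi.single j (1 : A) =
    (if j + 1 = 0 then β else 1) • Pi.single (j + 1) 1 := by
  funext i
  rw [mulVec_single_one, Pi.smul_apply, Pi.single_apply]
  show cm n β i j = _
  by_cases h : i = j + 1 <;> simp [cm, h]

theorem succ_mk {j : ℕ} (h : j + 1 < n + 1) :
    (⟨j, by omega⟩ : Fin (n + 1)) + 1 = ⟨j + 1, h⟩ :=
  Fin.ext (Fin.val_add_one_of_lt' h)

omit [Tw A] in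
theorem cm_pow_single (β : A) (j : ℕ) (h : j < n + 1) :
    (cm n β ^ j) *ᵥ Pi.single (0 : Fin (n + 1)) (1 : A) = Pi.single ⟨j, h⟩ 1 := by
  induction j with
  | zero => rw [pow_zero, one_mulVec]; rfl
  | succ j ih =>
    rw [pow_succ', ← mulVec_mulVec, ih (by omega), cm_single, succ_mk h,
      if_neg (by simp [Fin.ext_iff]), one_smul]

omit [Tw A] in
theorem cm_pow (β : A) : cm n β ^ (n + 1) = β • (1 : Mt n A) := by
  ext i j
  have h0 : ∀ j : Fin (n + 1), (cm n β ^ j.1) *ᵥ Pi.single (0 : Fin (n + 1)) (1 : A) =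
      Pi.single j 1 := fun j => cm_pow_single β j.1 j.2
  have h2 : cm n β ^ (n + 1) *ᵥ Pi.single (0 : Fin (n + 1)) (1 : A) = β • Pi.single 0 1 := by
    rw [pow_succ', ← mulVec_mulVec, cm_pow_single β n (Nat.lt_succ_self n), cm_single]
    have : (⟨n, Nat.lt_succ_self n⟩ : Fin (n + 1)) + 1 = 0 := Fin.last_add_one n
    rw [this, if_pos rfl]
  have h3 : cm n β ^ (n + 1) *ᵥ Pi.single j (1 : A) = β • Pi.single j 1 := by
    rw [← h0 j, mulVec_mulVec, pow_mul_comm, ← mulVec_mulVec, h2, mulVec_smul]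
  have h4 := congrFun h3 i
  rw [mulVec_single_one] at h4
  rw [Matrix.smul_apply, Matrix.one_apply]
  refine h4.trans ?_
  rw [Pi.smul_apply, Pi.single_apply]

theorem st_mem_Dal {β : Aˣ} (hβ : Par β) {x : Mt n A} (h : x ∈ Dal n β.1) : st x ∈ Dal n β.1 := by
  have e : st (cm n β.1) = ((aG n β)⁻¹).1 := by
    show ((cm n β.1).map (ta : A ≃+* A).toRingHom)ᵀ = _
    rw [cm_map]
    exact congrArg (fun t => (cm n t)ᵀ) hβ.ta_eq
  have e2 : st (x.map sg) = (st x).map sg := Matrix.ext fun _ _ => (Tw.comm _).symm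
  have h1 := congrArg st (mem_Dal.1 h)
  rw [st_mul, st_mul, e, e2] at h1
  have h2 := congrArg (fun y => (aG n β).1 * y * (aG n β).1) h1
  simp only [Units.mul_inv_cancel_left, Matrix.mul_assoc, Units.inv_mul, Matrix.mul_one] at h2
  exact h2

theorem smul_mem_Dal {β c : A} (hc : sg c = c) {x : Mt n A} (h : x ∈ Dal n β) :
    c • x ∈ Dal n β := by
  rw [mem_Dal, map_smul_ring, hc, Matrix.smul_mul, Matrix.mul_smul, mem_Dal.1 h]

theorem st_add (x y : Mt n A) : st (x + y) = st x + st y := by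
  exact Matrix.ext fun _ _ => map_add (ta : A ≃+* A) _ _

theorem st_sub (x y : Mt n A) : st (x - y) = st x - st y := by
  exact Matrix.ext fun _ _ => map_sub (ta : A ≃+* A) _ _

theorem st_smul (c : A) (x : Mt n A) : st (c • x) = ta c • st x := by
  exact Matrix.ext fun _ _ => map_mul (ta : A ≃+* A) _ _

theorem det_st (x : Mt n A) : (st x).det = ta x.det := by
  rw [st, det_transpose]
  exact ((ta : A ≃+* A).map_det x).symm

theorem map_sg_eq {β : Aˣ} {x : Mt n A} (h : x ∈ Dal n β.1) :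
    x.map sg = ((aG n β)⁻¹).1 * x * (aG n β).1 := by
  have h1 : x * (aG n β).1 = (aG n β).1 * x.map sg := h
  rw [Matrix.mul_assoc, h1, Units.inv_mul_cancel_left]

theorem sg_det {β : Aˣ} {x : Mt n A} (h : x ∈ Dal n β.1) : sg x.det = x.det := by
  have h1 := congrArg Matrix.det (map_sg_eq h)
  rw [det_units_conj'] at h1
  exact ((sg : A ≃+* A).map_det x).trans h1

theorem sg_trace {β : Aˣ} {x : Mt n A} (h : x ∈ Dal n β.1) : sg x.trace = x.trace := by
  have h1 := congrArg Matrix.trace (map_sg_eq h)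
  rw [Matrix.trace_mul_cycle, Units.mul_inv, Matrix.one_mul] at h1
  exact (AddMonoidHom.map_trace (sg : A ≃+* A) x).trans h1

/-- The element of the algebra with first column `v`. -/
def extc (β : A) (v : Fin (n + 1) → A) : Mt n A :=
  Matrix.of fun i j => (cm n β ^ j.1 *ᵥ fun k => (sg ^ j.1 : A ≃+* A) (v k)) i

theorem extc_zero (β : A) (v : Fin (n + 1) → A) (i : Fin (n + 1)) : extc β v i 0 = v i := by
  show (cm n β ^ 0 *ᵥ fun k => v k) i = _
  rw [pow_zero, one_mulVec]

theorem map_cm_pow {β : A} (hβ : sg β = β) (j : ℕ) : (cm n β ^ j).map sg = cm n β ^ j := by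
  induction j with
  | zero => rw [pow_zero, Matrix.map_one _ (map_zero _) (map_one _)]
  | succ j ih =>
    have e : (cm n β).map sg = cm n (sg β) := cm_map (sg : A ≃+* A).toRingHom β
    rw [pow_succ, Matrix.map_mul, ih, e, hβ]

theorem step_col {β : A} (hβ : sg β = β) (v : Fin (n + 1) → A) (i j : Fin (n + 1)) :
    (cm n β * (extc β v).map sg) i j =
      (cm n β ^ (j.1 + 1) *ᵥ fun k => (sg ^ (j.1 + 1) : A ≃+* A) (v k)) i := by
  rw [pow_succ', ← mulVec_mulVec, Matrix.mul_apply]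
  refine Finset.sum_congr rfl fun l _ => congrArg _ ?_
  have := RingHom.map_mulVec (sg : A ≃+* A).toRingHom (cm n β ^ j.1)
    (fun k => (sg ^ j.1 : A ≃+* A) (v k)) l
  refine this.trans ?_
  have e : (cm n β ^ j.1).map (sg : A ≃+* A).toRingHom = cm n β ^ j.1 := map_cm_pow hβ _
  rw [e]
  simp only [sg_pow_succ]
  rfl

theorem extc_mem [Ord n A] {β : A} (hβ : sg β = β) (v : Fin (n + 1) → A) :
    extc β v ∈ Dal n β := by
  rw [mem_Dal]
  ext i j
  rw [mul_cm, step_col hβ]
  split_ifs with h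
  · have hj : j.1 = n := by
      by_contra hne
      have := Fin.val_add_one_of_lt' (i := j) (by omega)
      rw [h] at this
      exact absurd this (by simp)
    rw [h, extc_zero, hj, cm_pow, Matrix.smul_mulVec, one_mulVec, Pi.smul_apply, Ord.pow,
      smul_eq_mul, mul_comm]
  · have hj : j.1 + 1 < n + 1 := by
      by_contra hne
      exact h ((show j = Fin.last n from Fin.ext (by simp; omega)) ▸ Fin.last_add_one n)
    rw [mul_one, extc, Matrix.of_apply, Fin.val_add_one_of_lt' hj]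

theorem eq_extc {β : A} (hβ : sg β = β) {x : Mt n A} (h : x ∈ Dal n β) :
    x = extc β fun i => x i 0 := by
  have key : ∀ (j : ℕ) (hj : j < n + 1) (i : Fin (n + 1)),
      x i ⟨j, hj⟩ = extc β (fun i => x i 0) i ⟨j, hj⟩ := by
    intro j
    induction j with
    | zero => exact fun _ i => (extc_zero β (fun i => x i 0) i).symm
    | succ j ih =>
      intro hj i
      have h1 := congrFun (congrFun (mem_Dal.1 h) i) ⟨j, by omega⟩
      rw [mul_cm, succ_mk hj, if_neg (by simp [Fin.ext_iff]), mul_one] at h1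
      rw [h1]
      refine Eq.trans ?_ (step_col hβ (fun i => x i 0) i ⟨j, by omega⟩)
      rw [Matrix.mul_apply, Matrix.mul_apply]
      exact Finset.sum_congr rfl fun l _ => by rw [Matrix.map_apply, Matrix.map_apply, ih]
  ext i j
  exact key j.1 j.2 i

theorem TwHom.extc {f : A →+* A'} (hf : TwHom f) (β : A) (v : Fin (n + 1) → A) :
    (extc β v).map f = extc (f β) fun i => f (v i) := by
  ext i j
  refine (RingHom.map_mulVec f (cm n β ^ j.1) (fun k => (Tw.sg ^ j.1 : A ≃+* A) (v k)) i).trans ?_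
  have e : (cm n β ^ j.1).map f = cm n (f β) ^ j.1 := by
    rw [← cm_map, ← RingHom.mapMatrix_apply, ← RingHom.mapMatrix_apply, map_pow]
  rw [e]
  simp only [Function.comp_def, hf.sg_pow]
  rfl

theorem norm_sg_pow {A : Type} [NormedCommRing A] [Tw A] [NTw A] (k : ℕ) (x : A) :
    ‖(sg ^ k : A ≃+* A) x‖ = ‖x‖ := by
  induction k with
  | zero => rfl
  | succ k ih => rw [sg_pow_succ, NTw.sg, ih]

theorem le_extc {A : Type} [NormedCommRing A] [Tw A] [NTw A] [IsUltrametricDist A]
    [NormOneClass A] (β : A) {v : Fin (n + 1) → A} {C : ℝ} (h : ∀ i, ‖v i‖ ≤ C) :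
    Le (max 1 ‖β‖ ^ n * C) (extc β v) := by
  have h1 : Le (max 1 ‖β‖) (cm n β) := fun i j => by
    simp only [cm, Matrix.of_apply]
    split_ifs <;> simp
  have h2 : ∀ j : ℕ, Le (max 1 ‖β‖ ^ j) (cm n β ^ j) := fun j => by
    induction j with
    | zero => simpa using le_one
    | succ j ih => rw [pow_succ, pow_succ]; exact ih.mul h1
  have hC : 0 ≤ C := (norm_nonneg _).trans (h 0)
  intro i j
  show ‖∑ k, (cm n β ^ j.1) i k * (sg ^ j.1 : A ≃+* A) (v k)‖ ≤ _
  refine IsUltrametricDist.norm_sum_le_of_forall_le_of_nonneg (by positivity) fun k _ => ?_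
  refine (norm_mul_le _ _).trans (mul_le_mul ((h2 j i k).trans
    (pow_le_pow_right₀ (le_max_left _ _) (Nat.lt_succ_iff.1 j.2))) ?_ (norm_nonneg _)
    (by positivity))
  rw [norm_sg_pow]
  exact h k

theorem exists_LI (b : Bool) {β β' c : A} (hc : ta c * c = 1)
    (h : tf b β = om (n + 1) (c ^ 2) * β') :
    ∃ L : LI n b β β', L.c = c ∧ L.W.1 = diagonal fun i => ta (om i.1 (c ^ 2)) := by
  have h1 : ∀ i, ta (ta (om i (c ^ 2))) * ta (om i (c ^ 2)) = 1 := fun i => by
    rw [Tw.tata, ta_om, ← om_mul, map_pow, ← mul_pow, mul_comm, hc, one_pow, om_one]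
  have h2 : st (diagonal fun i : Fin (n + 1) => ta (om i.1 (c ^ 2))) *
      (diagonal fun i : Fin (n + 1) => ta (om i.1 (c ^ 2))) = 1 := by
    rw [st, diagonal_map (map_zero _), diagonal_transpose, diagonal_mul_diagonal]
    simp only [h1, diagonal_one]
  refine ⟨⟨c, ⟨_, _, mul_eq_one_comm.1 h2, h2⟩, hc, h2, ?_⟩, rfl, rfl⟩
  show _ * (diagonal _).map sg = _ • (diagonal _ * _)
  rw [diagonal_map (map_zero _)]
  ext i j
  rw [mul_diagonal, Matrix.smul_apply, diagonal_mul, smul_eq_mul]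
  have h3 : sg (ta (om j.1 (c ^ 2))) = c ^ 2 * ta (om (j.1 + 1) (c ^ 2)) := by
    rw [om_succ', map_mul, ← mul_assoc, map_pow, ← mul_pow, mul_comm c, hc, one_pow, one_mul,
      Tw.comm]
  simp only [cm, Matrix.of_apply]
  split_ifs with h4 h5
  · have hj : j.1 = n := by
      by_contra hne
      have := Fin.val_add_one_of_lt' (i := j) (by omega)
      rw [← h4, h5] at this
      exact absurd this (by simp)
    have h6 := h1 (n + 1)
    rw [Tw.tata] at h6
    rw [h3, h, h5, hj, Fin.val_zero, om_zero, map_one]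
    linear_combination c ^ 2 * β' * h6
  · have hj : j.1 + 1 < n + 1 := by
      by_contra hne
      exact h5 (h4.trans
        ((show j = Fin.last n from Fin.ext (by simp; omega)) ▸ Fin.last_add_one n))
    rw [h3, h4, Fin.val_add_one_of_lt' hj, one_mul, mul_one]
  · simp

theorem iter_rel {β β' c : A} (hβ : sg β = β) (hβ' : sg β' = β') {g : Mt n A}
    (h : cm n β' * g.map sg = c • (g * cm n β)) (j : ℕ) :
    cm n β' ^ j * g.map (sg ^ j : A ≃+* A) = om j c • (g * cm n β ^ j) := by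
  induction j with
  | zero =>
    rw [pow_zero, pow_zero, pow_zero, om_zero, one_smul, Matrix.one_mul, Matrix.mul_one]
    rfl
  | succ j ih =>
    have h1 := congrArg (fun y : Mt n A => cm n β' * y.map sg) ih
    simp only [Matrix.map_mul, map_smul_ring, map_cm_pow hβ, map_cm_pow hβ', Matrix.mul_smul] at h1
    have e : (g.map (sg ^ j : A ≃+* A)).map sg = g.map (sg ^ (j + 1) : A ≃+* A) :=
      Matrix.ext fun _ _ => (sg_pow_succ _ _).symm
    rw [← Matrix.mul_assoc, ← pow_succ', e, ← Matrix.mul_assoc, h, Matrix.smul_mul, smul_smul,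
      Matrix.mul_assoc, ← pow_succ'] at h1
    rw [h1, om_succ', mul_comm c]

/-- An intertwiner of two companion matrices gives a norm. -/
theorem norm_of_rel [Ord n A] {β β' c : A} (hβ : sg β = β) (hβ' : sg β' = β') {g : Gl n A}
    (h : cm n β' * g.1.map sg = c • (g.1 * cm n β)) : β' = om (n + 1) c * β := by
  have h1 := iter_rel hβ hβ' h (n + 1)
  have h2 : g.1.map (sg ^ (n + 1) : A ≃+* A) = g.1 := Matrix.ext fun _ _ => Ord.pow _
  rw [cm_pow, cm_pow, h2, Matrix.smul_mul, Matrix.one_mul, Matrix.mul_smul, Matrix.mul_one,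
    smul_smul] at h1
  have h3 := congrArg (fun y => (y * (g⁻¹).1) 0 0) h1
  simpa using h3

variable {M : Type} [Field M] [NumberField M] [G2 M]

theorem sg_pow_eq (i : ℕ) (x : M) : (sg ^ i : M ≃+* M) x = (G2.σ ^ i : Aut M) x := by
  induction i with
  | zero => rfl
  | succ i ih => rw [sg_pow_succ, ih, pow_succ']; rfl

theorem sg_pow_lact (k : Type) [CommRing k] [Algebra ℚ k] (i : ℕ) (x : k ⊗[ℚ] M) :
    (sg ^ i : k ⊗[ℚ] M ≃+* k ⊗[ℚ] M) x = lact k (G2.σ ^ i) x := by
  induction i with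
  | zero => rw [pow_zero, pow_zero, lact_one]; rfl
  | succ i ih => rw [sg_pow_succ, ih, pow_succ', lact_mul]; rfl

instance [OrdM n M] : Ord n M := by
  refine ⟨fun x => ?_⟩
  rw [sg_pow_eq, ← OrdM.ord (n := n) (M := M), pow_orderOf_eq_one]
  rfl

instance [OrdM n M] (k : Type) [CommRing k] [Algebra ℚ k] : Ord n (k ⊗[ℚ] M) := by
  refine ⟨fun x => ?_⟩
  rw [sg_pow_lact, ← OrdM.ord (n := n) (M := M), pow_orderOf_eq_one, lact_one]

theorem isUnit_of_ne_zero [OrdM n M] {β : Mˣ} (hβ : Par β) (ha : Aniso n β.1) {x : Mt n M}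
    (h : x ∈ Dal n β.1) (h0 : x ≠ 0) : IsUnit x := by
  by_contra hu
  let W : Submodule M (Fin (n + 1) → M) := LinearMap.ker (toLin' x)
  let k := Module.finrank M W
  have hk0 : 0 < k := by
    refine Module.finrank_pos_iff.2 (Submodule.nontrivial_iff_ne_bot.2 fun hW => hu ?_)
    exact mulVec_injective_iff_isUnit.1 (LinearMap.ker_eq_bot.1 hW)
  have hk1 : k < n + 1 := by
    have := Submodule.finrank_lt (s := W) fun hW =>
      h0 (toLin'.injective (by rw [LinearMap.ker_eq_top.1 hW, map_zero]))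
    simpa using this
  let b := Module.finBasis M W
  let B : Matrix (Fin (n + 1)) (Fin k) M := Matrix.of fun i j => (b j).1 i
  have hB : ∀ y : Fin k → M, B *ᵥ y = (b.equivFun.symm y).1 := fun y => by
    funext i
    rw [Module.Basis.equivFun_symm_apply, Submodule.coe_sum, Finset.sum_apply]
    show ∑ j, (b j).1 i * y j = ∑ j, y j * (b j).1 i
    exact Finset.sum_congr rfl fun j _ => mul_comm _ _
  have hinj : ∀ C C' : Matrix (Fin k) (Fin k) M, B * C = B * C' → C = C' := fun C C' e => by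
    refine toLin'.injective (LinearMap.ext fun y => ?_)
    have e2 : B *ᵥ (C *ᵥ y) = B *ᵥ (C' *ᵥ y) := by rw [mulVec_mulVec, mulVec_mulVec, e]
    rw [hB, hB] at e2
    exact b.equivFun.symm.injective (Subtype.ext e2)
  have hxB : x * B = 0 := by
    ext i j
    exact congrFun (b j).2 i
  have hx2 : x * (cm n β.1 * B.map sg) = 0 := by
    rw [← Matrix.mul_assoc, mem_Dal.1 h, Matrix.mul_assoc, ← Matrix.map_mul, hxB,
      Matrix.map_zero _ (map_zero _), Matrix.mul_zero]
  have hmem : ∀ j, (fun i => (cm n β.1 * B.map sg) i j) ∈ W := fun j =>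
    funext fun i => congrFun (congrFun hx2 i) j
  let C : Matrix (Fin k) (Fin k) M := Matrix.of fun l j => b.equivFun ⟨_, hmem j⟩ l
  have hC : cm n β.1 * B.map sg = B * C := by
    ext i j
    have := congrFun (hB (b.equivFun ⟨_, hmem j⟩)) i
    rw [LinearEquiv.symm_apply_apply] at this
    exact this.symm
  have key : ∀ j : ℕ, ∃ C' : Matrix (Fin k) (Fin k) M,
      cm n β.1 ^ j * B.map (sg ^ j : M ≃+* M) = B * C' ∧ C'.det = om j C.det := fun j => by
    induction j with
    | zero => exact ⟨1, by rw [pow_zero, pow_zero, Matrix.one_mul, Matrix.mul_one]; rfl,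
        by rw [det_one, om_zero]⟩
    | succ j ih =>
      obtain ⟨C', h1, h2⟩ := ih
      refine ⟨C * C'.map sg, ?_, ?_⟩
      · have h3 := congrArg (fun y : Matrix (Fin (n + 1)) (Fin k) M =>
          cm n β.1 * (y.map sg : Matrix (Fin (n + 1)) (Fin k) M)) h1
        simp only [Matrix.map_mul, map_cm_pow hβ.sg] at h3
        have e : (B.map (sg ^ j : M ≃+* M)).map sg = B.map (sg ^ (j + 1) : M ≃+* M) :=
          Matrix.ext fun _ _ => (sg_pow_succ _ _).symm
        rw [← Matrix.mul_assoc, ← pow_succ', e, ← Matrix.mul_assoc, hC, Matrix.mul_assoc] at h3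
        exact h3
      · rw [det_mul, om_succ', ← h2]
        exact congrArg _ ((sg : M ≃+* M).map_det C').symm
  obtain ⟨C', h1, h2⟩ := key (n + 1)
  have h3 : B.map (sg ^ (n + 1) : M ≃+* M) = B := Matrix.ext fun _ _ => Ord.pow _
  rw [cm_pow, h3, Matrix.smul_mul, Matrix.one_mul, ← Matrix.mul_one B, ← Matrix.mul_smul,
    Matrix.mul_one] at h1
  rw [← hinj _ _ h1, det_smul, det_one, mul_one, Fintype.card_fin] at h2
  have h4 := ha k C.det (fun e => by
    rw [e, om_succ', zero_mul] at h2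
    exact pow_ne_zero _ β.ne_zero h2) h2.symm
  exact absurd (Nat.le_of_dvd hk0 h4) (by omega)

/-- Elements fixed by both automorphisms are scalars. -/
theorem exists_algebraMap (k : Type) [Field k] [Algebra ℚ k] {x : k ⊗[ℚ] M} (h : sg x = x)
    (h' : ta x = x) : ∃ t : k, algebraMap k _ t = x := by
  have := G2.gal (M := M)
  obtain ⟨y, hy⟩ := (isFix_top (M := M)).exists_lmap (κ := k) (x := x) fun s _ => by
    have e : ∀ i : ℕ, lact k (G2.σ ^ i) x = x := fun i => by
      rw [← sg_pow_lact, sg_pow_fixed h]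
    obtain ⟨i, rfl | rfl⟩ := G2.gen s
    · exact e i
    · rw [lact_mul, show lact k G2.τ x = x from h', e]
  refine ⟨TensorProduct.rid ℚ k y, ?_⟩
  rw [← hy]
  clear hy
  induction y using TensorProduct.induction_on with
  | zero => simp
  | tmul a q =>
    rw [TensorProduct.rid_tmul, lmap_tmul, Algebra.algebraMap_eq_smul_one q,
      TensorProduct.tmul_smul, TensorProduct.smul_tmul']
    rfl
  | add y z hy hz => rw [map_add, map_add, map_add, hy, hz]

theorem exists_rat {x : M} (h : sg x = x) (h' : ta x = x) : ∃ t : ℚ, (t : M) = x := by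
  have := G2.gal (M := M)
  refine (isFix_top (M := M) x).1 fun s _ => ?_
  have e : ∀ i : ℕ, (G2.σ ^ i : Aut M) x = x := fun i => by rw [← sg_pow_eq, sg_pow_fixed h]
  obtain ⟨i, rfl | rfl⟩ := G2.gen s
  · exact e i
  · rw [AlgEquiv.mul_apply, show G2.τ x = x from h', e]

end Pool.Agent.P.MP_3c2f8c_gt.AO
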