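import Pool.Agent.P.MP_3c2f8c_gt.AO.GDefs
import Pool.Agent.P.MP_3c2f8c_gt.AO.Lie1
import Pool.Agent.P.MP_3c2f8c_gt.AO.Div
import Pool.Agent.P.MP_3c2f8c_gt.Lo.Top

/-! Topology of the local groups and the first properties of the global maps. -/

namespace Pool.Agent.P.MP_3c2f8c_gt.AO

open Matrix E6 Pool.Agent.Lib.CFT

variable {n : ℕ}

section

variable {A : Type} [NormedCommRing A] [Tw A] [NTw A] [IsUltrametricDist A] [NormOneClass A]
  {β β' : A}

omit [NTw A] [IsUltrametricDist A] [NormOneClass A] in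
theorem Top_cont_val : Continuous fun g : Un n β => g.1.1 :=
  Units.continuous_val.comp continuous_subtype_val

omit [IsUltrametricDist A] [NormOneClass A] in
theorem Top_cont_st : Continuous (st : Mt n A → Mt n A) :=
  (continuous_id.matrix_map (continuous_tf true)).matrix_transpose

omit [IsUltrametricDist A] [NormOneClass A] in
theorem Top_isClosed_un (β : A) : IsClosed (Un n β : Set (Gl n A)) := by
  have h : Continuous (sg : A → A) :=
    (AddMonoidHomClass.isometry_of_norm (sg : A ≃+* A) NTw.sg).continuous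
  exact (isClosed_eq (Units.continuous_val.matrix_mul continuous_const)
    (continuous_const.matrix_mul (Units.continuous_val.matrix_map h))).inter
    (isClosed_eq ((Top_cont_st.comp Units.continuous_val).matrix_mul Units.continuous_val)
      continuous_const)

omit [IsUltrametricDist A] [NormOneClass A] in
theorem Top_isInducing (β : A) : Topology.IsInducing fun g : Un n β => g.1.1 :=
  TopAux.isInducing_units Top_cont_st Un.inv_val

omit [Tw A] [NTw A] [IsUltrametricDist A] [NormOneClass A] in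
theorem Top_compact_le [ProperSpace A] (C : ℝ) : IsCompact {x : Mt n A | Le C x} := by
  have h : IsCompact {x : Mt n A | ∀ i j, x i j ∈ Metric.closedBall (0 : A) C} :=
    isCompact_pi_infinite (s := fun _ : Fin (n + 1) => {v : Fin (n + 1) → A |
      ∀ j, v j ∈ Metric.closedBall (0 : A) C}) fun _ =>
        isCompact_pi_infinite fun _ => isCompact_closedBall _ _
  simp only [mem_closedBall_zero_iff] at h
  exact h

omit [Tw A] [NTw A] [NormOneClass A] in
theorem Top_open_le {C : ℝ} (hC : C ≠ 0) : IsOpen {x : Mt n A | Le C x} := by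
  have h : {x : Mt n A | Le C x} =
      ⋂ i, ⋂ j, (fun x => x i j) ⁻¹' Metric.closedBall (0 : A) C := by
    ext x
    simp only [Set.mem_iInter, Set.mem_preimage, mem_closedBall_zero_iff]
    rfl
  rw [h]
  exact isOpen_iInter_of_finite fun i => isOpen_iInter_of_finite fun j =>
    (IsUltrametricDist.isOpen_closedBall (0 : A) hC).preimage (continuous_id.matrix_elem i j)

omit [IsUltrametricDist A] [NormOneClass A] in
theorem Top_le_tf {b : Bool} {C : ℝ} {x : Mt n A} (h : Le C x) : Le C (x.map (tf b)) :=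
  fun i j => (norm_tf b _).le.trans (h i j)

omit [NormOneClass A] in
theorem Top_le_un {b : Bool} (L : LI n b β β') (h : Le 1 L.W.1) {g : Un n β} (hg : Le 1 g.1.1) :
    Le 1 (L.un g).1.1 := by
  have h1 := ((Le.st h).mul (Top_le_tf (b := b) hg)).mul h
  rw [one_mul, one_mul] at h1
  rw [L.un_val, L.inv_val]
  exact h1

omit [IsUltrametricDist A] [NormOneClass A] in
theorem Top_le_symm {b : Bool} (L : LI n b β β') (h : Le 1 L.W.1) : Le 1 L.symm.W.1 := by
  show Le 1 ((L.W⁻¹).1.map (tf b))
  rw [L.inv_val]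
  exact Top_le_tf (Le.st h)

theorem Top_pu_mem {b : Bool} (L : LI n b β β') (h : Le 1 L.W.1) {x : PU n β}
    (hx : x ∈ K0 n β) : L.pu x ∈ K0 n β' := by
  obtain ⟨g, hg, rfl⟩ := hx
  exact mk_mem_K0 (Top_le_un L h hg)

theorem isCompact_le [ProperSpace A] (C : ℝ) : IsCompact {g : Un n β | Le C g.1.1} := by
  refine (congrArg IsCompact (Set.ext fun g => ?_)).mp
    (TopAux.isCompact_units (Top_isClosed_un (n := n) β) (Top_compact_le C) (Top_compact_le C))
  exact ⟨fun h => h.1, fun h => ⟨h, by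
    show Le C (g⁻¹).1.1
    rw [Un.inv_val]
    exact Le.st h⟩⟩

theorem co_K0 [ProperSpace A] : CO (K0 n β) := by
  exact ⟨(isCompact_le 1).image QuotientGroup.continuous_mk,
    QuotientGroup.isOpenMap_coe _ ((Top_open_le one_ne_zero).preimage Top_cont_val)⟩

theorem exists_cong {K : Subgroup (PU n β)} (hK : IsOpen (K : Set (PU n β))) :
    ∃ ε : ℝ, 0 < ε ∧ ∀ g : Un n β, Le ε (g.1.1 - 1) → (QuotientGroup.mk g : PU n β) ∈ K := by
  have h1 : (fun g : Un n β => (QuotientGroup.mk g : PU n β)) ⁻¹' K ∈ nhds 1 :=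
    (hK.preimage QuotientGroup.continuous_mk).mem_nhds K.one_mem
  rw [(Top_isInducing β).nhds_eq_comap, Filter.mem_comap] at h1
  obtain ⟨t, ht, hs⟩ := h1
  obtain ⟨ε, hε, h2⟩ := (Metric.nhds_basis_closedBall (α := Fin (n + 1) → Fin (n + 1) → A)
    (x := (1 : Mt n A))).mem_iff.1 ht
  refine ⟨ε, hε, fun g hg => hs (h2 ?_)⟩
  refine (dist_pi_le_iff hε.le).2 fun i => (dist_pi_le_iff hε.le).2 fun j => ?_
  rw [dist_eq_norm]
  exact hg i j

theorem exists_cover [ProperSpace A] (C : ℝ) : ∃ s : Finset (PU n β), ∀ g : Un n β, Le C g.1.1 →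
    ∃ r ∈ s, r⁻¹ * (QuotientGroup.mk g : PU n β) ∈ K0 n β := by
  obtain ⟨s, hs⟩ := finite_cosets
    ((isCompact_le (n := n) (β := β) C).image QuotientGroup.continuous_mk) co_K0.2
  exact ⟨s, fun g hg => hs _ ⟨g, hg, rfl⟩⟩

theorem LI.comap_K0 {b : Bool} (L : LI n b β β') (h : Le 1 L.W.1) :
    (K0 n β').comap L.equiv.toMulEquiv.toMonoidHom = K0 n β := by
  ext x
  refine ⟨fun hx => ?_, fun hx => Top_pu_mem L h hx⟩
  have h1 := Top_pu_mem L.symm (Top_le_symm L h) hx
  exact (L.equiv.left_inv x : L.symm.pu (L.pu x) = x) ▸ h1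

end

variable {M : Type} [Field M] [NumberField M] [G2 M]

omit [G2 M] in
theorem finite_not_le (x : Mt n M) : {p : Nat.Primes | ¬ Le 1 (x.map (inc ℚ_[p] M))}.Finite := by
  refine (Set.finite_iUnion fun i => Set.finite_iUnion fun j => finite_norm_gt (x i j)).subset
    fun p hp => ?_
  obtain ⟨i, hi⟩ := not_forall.1 hp
  obtain ⟨j, hj⟩ := not_forall.1 hi
  exact Set.mem_iUnion.2 ⟨i, Set.mem_iUnion.2 ⟨j, hj⟩⟩

theorem Phi_mem (β : M) (g : PU n β) : Phi n β g ∈ Ad (Kst n β) := by
  induction g using QuotientGroup.induction_on with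
  | H g => exact (finite_not_le g.1.1).subset fun p hp h => hp (mk_mem_K0 h)

theorem Top_scalar {R S : Type} [CommRing R] [CommRing S] {f : R →+* S}
    (hf : Function.Injective f) {x : Mt n R} {c : S} (h : x.map f = c • (1 : Mt n S)) :
    x = x 0 0 • (1 : Mt n R) := by
  have h1 : ∀ i j, f (x i j) = c * (1 : Mt n S) i j := fun i j => congrFun (congrFun h i) j
  ext i j
  apply hf
  rw [Matrix.smul_apply, smul_eq_mul, map_mul, h1, h1, Matrix.one_apply_eq, mul_one,
    Matrix.one_apply, Matrix.one_apply, apply_ite f, map_one, map_zero]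

theorem Phi_inj (β : M) (p : Nat.Primes) : Function.Injective (cmp (Phi n β) p) := by
  refine (injective_iff_map_eq_one _).2 fun g hg => ?_
  induction g using QuotientGroup.induction_on with
  | H g =>
    obtain ⟨c, hc⟩ := (QuotientGroup.eq_one_iff (unMap (twHom_inc ℚ_[p]) β g)).1 hg
    exact (QuotientGroup.eq_one_iff g).2 ⟨_, Top_scalar (inc_injective ℚ_[p]) hc⟩

theorem rho_inj (β : M) : Function.Injective (rho n β) := by
  refine (injective_iff_map_eq_one _).2 fun g hg => ?_
  induction g using QuotientGroup.induction_on with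
  | H g =>
    obtain ⟨c, hc⟩ := scalar_of_adG ((rho_mk β g).symm.trans hg)
    exact (QuotientGroup.eq_one_iff g).2 ⟨_, Top_scalar (G2.φ : M →+* ℝ).injective hc⟩

theorem rho_inn (β : M) (g : PU n β) : Inn (rho n β g).1 := by
  induction g using QuotientGroup.induction_on with
  | H g => exact inn_iff.2 ⟨_, rfl⟩

instance (β : M) : Countable (PU n β) := by
  have : Countable M := (Module.finBasis ℚ M).equivFun.injective.countable
  have : Countable (Mt n M) := inferInstanceAs (Countable (Fin (n + 1) → Fin (n + 1) → M))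
  have : Countable (Gl n M) := Units.val_injective.countable
  exact QuotientGroup.mk_surjective.countable

/-- An adelic point has a lift that is integral at almost all primes. -/
theorem exists_lift {β : M} {u : ∀ p, Ul n β p} (hu : u ∈ Ad (Kst n β)) :
    ∃ v : ∀ p : Nat.Primes, Un n (inc ℚ_[p] M β), (∀ p, QuotientGroup.mk (v p) = u p) ∧
      (∀ p, u p ∈ Kst n β p → Le 1 (v p).1.1) ∧ {p | ¬ Le 1 (v p).1.1}.Finite := by
  have h : ∀ p : Nat.Primes, ∃ v : Un n (inc ℚ_[p] M β), QuotientGroup.mk v = u p ∧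
      (u p ∈ Kst n β p → Le 1 v.1.1) := fun p => by
    by_cases hp : u p ∈ Kst n β p
    · obtain ⟨v, hv, e⟩ := hp
      exact ⟨v, e, fun _ => hv⟩
    · obtain ⟨v, e⟩ := QuotientGroup.mk_surjective (u p)
      exact ⟨v, e, fun h => absurd h hp⟩
  choose v h1 h2 using h
  exact ⟨v, h1, h2, Set.Finite.subset hu fun p hp h => hp (h2 p h)⟩

end Pool.Agent.P.MP_3c2f8c_gt.AO
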