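import Pool.Agent.P.MP_3c2f8c_gt.AO.MtD
import Pool.Agent.P.MP_3c2f8c_gt.AO.Top
import Pool.Agent.Lib.CFT.Main

/-! The local cochains, Galois extensions of number fields, splitting of idelic cochains. -/

namespace Pool.Agent.P.MP_3c2f8c_gt.AO

open Matrix Pool.Agent.Lib.CFT
open scoped TensorProduct

variable {n : ℕ}

section Loc

variable {G : Type} [Group G] {M F A B : Type} [CommRing M] [Tw M] [CommRing F]
  [CommRing A] [Tw A] [CommRing B] {I : GI n G} {E : Ext M F I} (V : Plc A B E) {β β' δ : Mˣ}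
  {π : G →* Equiv.Perm (Fin (n + 1))} {P : Gl n F} {b : G → Fin (n + 1) → Fˣ} {f : Bool}

/-- The local cochain. -/
def Plc.zl (L : LI n f (V.iA β.1) (V.iA β'.1)) (b : G → Fin (n + 1) → Fˣ) (s : G) :
    Fin (n + 1) → Bˣ :=
  (cond f (um n V.iB (b s)) 1 * fun _ => V.E'.u (omU (I.ix s) L.c L.uc))⁻¹

theorem Plc.zl_mul [Ord n A] (L : LI n f (V.iA β.1) (V.iA β'.1)) (hc : Coc I E.α π (E.u β) b)
    (hL : om (n + 1) L.c = V.iA (cond f (δ * β⁻¹) δ).1) (s t : G) :
    V.zl L b (s * t) = um n V.iB (fun _ => E.u δ ^ I.car s t) *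
      (V.zl L b s * sa I V.E'.α π s (V.zl L b t)) := by
  have h1 := V.E'.coc_om (π := π) L.uc (δ := V.pr (cond f (δ * β⁻¹) δ)) hL s t
  have e : ∀ x : Mˣ, (fun _ => V.E'.u (V.pr x) ^ I.car s t) =
      um n V.iB fun _ => E.u x ^ I.car s t := fun x => funext fun _ => by
    show _ = Units.map V.iB.toMonoidHom (E.u x ^ I.car s t)
    rw [map_pow]
    exact congrArg (· ^ _) (Units.ext (V.sq _).symm)
  rw [e] at h1
  rw [Plc.zl, Plc.zl, Plc.zl, map_inv, ← mul_inv, eq_comm, mul_inv_eq_iff_eq_mul,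
    eq_inv_mul_iff_mul_eq, map_mul, mul_mul_mul_comm, h1]
  cases f
  · simp [mul_comm]
  · rw [cond_true, cond_true, cond_true, cond_true, V.sa_um, ← map_mul, hc, map_mul,
      mul_mul_mul_comm, ← map_mul, mul_comm]
    congr 2
    funext _
    simp [← mul_pow]

theorem Plc.fr_loc (hβ : Par β) (hβ' : Par β') (L : LI n f (V.iA β.1) (V.iA β'.1))
    (h : ∀ s, FrAt I E.α π (E.J (aG n β)) P b s) {η : G → Fin (n + 1) → Fˣ}
    {y : Fin (n + 1) → Bˣ}
    (hz : ∀ s, V.zl L b s ^ 2 = um n V.iB (η s) * (sa I V.E'.α π s y / y)) (s : G) :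
    FrAt I V.E'.α π (V.E'.J (aG n (V.pr β'))) ((V.E'.J L.W)⁻¹ * itb f (V.K P) * dg y⁻¹)
      (fun s => um n V.iB (b s * η s)) s := by
  have h1 := (V.E'.fr_LI (hβ.map V.tw) (hβ'.map V.tw) L (V.fr (h s))).mul_dg y⁻¹
  rw [FrAt] at h1 ⊢
  refine h1.trans (congrArg (fun x => _ * (dg x * _)) ?_)
  rw [map_mul, eq_mul_inv_of_mul_eq (hz s).symm, Plc.zl, map_inv]
  cases f <;> simp [sn, div_eq_mul_inv, pow_two, mul_comm, mul_left_comm, mul_assoc]

theorem Coc.dg_pm {α : G →* (F ≃+* F)} {β : Fˣ} (hc : Coc I α π β b) (s t : G) :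
    dg (b s) * pm (π s) * tw I α s (dg (b t) * pm (π t)) =
      dg (fun _ => β ^ I.car s t) * (dg (b (s * t)) * pm (π (s * t))) := by
  rw [map_mul, tw_pm, mul_assoc, ← mul_assoc (pm _), pm_tw_dg, ← mul_assoc, ← mul_assoc,
    ← map_mul, hc, map_mul, map_mul, map_mul]
  simp only [mul_assoc]

end Loc

variable {M F : Type} [Field M] [NumberField M] [G2 M] [Field F] [NumberField F] [Algebra M F]

variable (M) in
/-- The restriction of automorphisms is described by `I`. -/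
structure Res (I : GI n (Aut F)) : Prop where
  act : ∀ (s : Aut F) x, s (algebraMap M F x) =
    algebraMap M F ((G2.σ ^ I.ix s * cond (I.sw s) G2.τ 1 : Aut M) x)
  fix : ∃ N, IsFix (algebraMap M F) N ∧ ∀ s ∈ N, I.ix s = 0 ∧ I.sw s = false

theorem exists_res' [OrdM n M] [IsGalois ℚ F] (hn : 2 ≤ n) : ∃ I : GI n (Aut F), Res M I := by
  have := G2.gal (M := M)
  obtain ⟨r, hr, h1, h2⟩ := Rec3Aux.exists_res (E := M) (L := F)
  have ex : ∀ s, ∃ i, ∃ e : Bool, i < n + 1 ∧ r s = G2.σ ^ i * cond e G2.τ 1 := fun s => by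
    obtain ⟨i, h | h⟩ := G2.gen (r s)
    · exact ⟨i % (n + 1), false, Nat.mod_lt _ n.succ_pos, by
        rw [← OrdM.ord (M := M), pow_mod_orderOf, h, cond_false, mul_one]⟩
    · exact ⟨i % (n + 1), true, Nat.mod_lt _ n.succ_pos, by
        rw [← OrdM.ord (M := M), pow_mod_orderOf, h, cond_true]⟩
  choose ix sw hi he using ex
  have un : ∀ s i e, r s = G2.σ ^ i * cond e G2.τ 1 → i % (n + 1) = ix s ∧ e = sw s :=
    fun s i e h => by
      have h3 : ∀ (i : ℕ) (e : Bool), (G2.σ ^ i * cond e G2.τ 1 : Aut M) G2.r =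
          cond e (-G2.r) G2.r := fun i e => by
        have h4 : (G2.σ ^ i : Aut M) G2.r = G2.r :=
          (sg_pow_eq i _).symm.trans (sg_pow_fixed G2.σr i)
        cases e
        · exact h4
        · rw [AlgEquiv.mul_apply, cond_true, G2.τr, map_neg, h4, cond_true]
      have h4 := (h3 i e).symm.trans ((DFunLike.congr_fun (h.symm.trans (he s)) _).trans (h3 _ _))
      have h5 : e = sw s := by
        have h6 : -G2.r ≠ (G2.r : M) := fun h => G2.r0 (CharZero.neg_eq_self_iff.1 h)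
        revert h4
        cases e <;> cases sw s <;> simp [h6, h6.symm]
      rw [he s, ← h5, mul_left_inj, pow_eq_pow_iff_modEq, OrdM.ord (n := n)] at h
      exact ⟨Eq.trans h.symm (Nat.mod_eq_of_lt (hi s)), h5⟩
  have mu : ∀ s t, (ix s + ix t) % (n + 1) = ix (s * t) ∧ xor (sw s) (sw t) = sw (s * t) :=
    fun s t => un _ _ _ (by
      have hc : G2.τ * G2.σ ^ ix t = (G2.σ ^ ix t * G2.τ : Aut M) :=
        (Commute.pow_left (G2.comm (M := M)) _).eq.symm
      have hc' : G2.τ * (G2.σ ^ ix t * G2.τ) = (G2.σ ^ ix t : Aut M) := by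
        rw [← hc, ← mul_assoc, G2.ττ, one_mul]
      rw [map_mul, he s, he t, pow_add]
      cases sw s <;> cases sw t <;> simp [mul_assoc, hc, hc'])
  obtain ⟨s₁, hs₁⟩ := hr G2.σ
  obtain ⟨t₀, ht₀⟩ := hr G2.τ
  have h3 := un s₁ 1 false (by simpa using hs₁)
  have h4 := un t₀ 0 true (by simpa using ht₀)
  exact ⟨⟨ix, sw, fun s t => (ix s + ix t) / (n + 1), fun s t => by
    rw [← (mu s t).1, Nat.div_add_mod], fun s t => (mu s t).2.symm,
    ⟨s₁, h3.1.symm.trans (Nat.mod_eq_of_lt (by omega)), h3.2.symm⟩, t₀, h4.1.symm, h4.2.symm⟩,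
    fun s x => he s ▸ h1 s x, _, h2, fun s hs =>
      (un s 0 false (by simpa using hs)).imp Eq.symm Eq.symm⟩

variable {I : GI n (Aut F)}

/-- The global extension. -/
noncomputable def Res.ext (h : Res M I) : Ext M F I where
  j := algebraMap M F
  α := MulSemiringAction.toRingAut (Aut F) F
  inj := (algebraMap M F).injective
  act s x := (h.act s x).trans (by
    rw [sg_pow_eq]
    cases I.sw s <;> rfl)
  fix y hy := by
    obtain ⟨N, h1, h2⟩ := h.fix
    exact (h1 y).1 fun s hs => hy s (h2 s hs).1 (h2 s hs).2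

/-- The local extensions. -/
noncomputable def Res.plc (h : Res M I) (k : Type) [Field k] [Algebra ℚ k] :
    Plc (k ⊗[ℚ] M) (k ⊗[ℚ] F) h.ext where
  E' :=
    { j := (lmap k (algebraMap M F)).toRingHom
      α := MonoidHom.mk' (fun s => (lact k s).toRingEquiv) fun s t => RingEquiv.ext (lact_mul k s t)
      inj := lmap_injective k _
      act := fun s x => (lact_lmap (h.act s) x).trans (by
        rw [sg_pow_lact, lact_mul]
        cases I.sw s
        · rw [cond_false, lact_one]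
          rfl
        · rfl)
      fix := fun y hy => by
        obtain ⟨N, h1, h2⟩ := h.fix
        exact h1.exists_lmap fun s hs => hy s (h2 s hs).1 (h2 s hs).2 }
  iA := inc k M
  iB := inc k F
  tw := twHom_inc k
  sq _ := rfl
  eqv _ _ := rfl
  inj := inc_injective k

theorem idele_split (I : GI n (Aut F)) (π : Aut F →* Equiv.Perm (Fin (n + 1)))
    (z : Aut F → Fin (n + 1) → Idele F) (κ : Aut F → Aut F → Fˣ) (hz : ∀ s t j,
      z (s * t) j = prin F (κ s t) * (z s j * (s • z t ((π s)⁻¹ j)) ^ sn (I.sw s))) :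
    ∃ (η : Aut F → Fin (n + 1) → Fˣ) (y : Fin (n + 1) → Idele F), ∀ s j,
      z s j ^ 2 = prin F (η s j) * ((s • y ((π s)⁻¹ j)) ^ sn (I.sw s) / y j) := by
  obtain ⟨y, hy⟩ := sq_cob I π h1_cl (fun s j => (QuotientGroup.mk (z s j) : Cl F)) fun s t j => by
    rw [hz, QuotientGroup.mk_mul, (QuotientGroup.eq_one_iff (N := (prin F).range) _).2 ⟨_, rfl⟩]
    exact one_mul (QuotientGroup.mk _ : Cl F)
  choose y' hy' using fun j => QuotientGroup.mk_surjective (y j)
  choose η hη using fun s j => (QuotientGroup.eq (s := (prin F).range)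
    (a := (s • y' ((π s)⁻¹ j)) ^ sn (I.sw s) / y' j) (b := z s j ^ 2)).1 (by
      rw [QuotientGroup.mk_pow, hy, ← hy', ← hy']
      rfl)
  exact ⟨η, y', fun s j => by rw [hη, inv_mul_cancel_comm]⟩

theorem norm_om_le {A : Type} [NormedCommRing A] [NormOneClass A] [Tw A] [NTw A] {c : A}
    (h : ‖c‖ ≤ 1) (i : ℕ) : ‖om i c‖ ≤ 1 := by
  induction i with
  | zero => rw [om_zero, norm_one]
  | succ i ih =>
    rw [om_succ']
    exact (norm_mul_le _ _).trans (mul_le_one₀ h (norm_nonneg _) (by rwa [NTw.sg]))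

omit [G2 M] [Algebra M F] in
theorem norm_lmap_le {p : ℕ} [Fact p.Prime] (j : M →+* F) {x : Ap p M} :
    ‖lmap ℚ_[p] j x‖ ≤ 1 ↔ ‖x‖ ≤ 1 := by
  rw [norm_le_one_iff, norm_le_one_iff]
  exact isIntegral_algHom_iff ((lmap ℚ_[p] j).restrictScalars ℤ_[p]) (lmap_injective _ j)

end Pool.Agent.P.MP_3c2f8c_gt.AO
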