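import Pool.Agent.P.MP_3c2f8c_gt.AO.Alg

/-! The theorem of Speiser for matrices. -/

namespace Pool.Agent.P.MP_3c2f8c_gt.AO

open Matrix Pool.Agent.Lib.CFT

theorem Spei_nat_pt {Ω : Type} [Field Ω] [CharZero Ω] {I : Type} {q : MvPolynomial I Ω}
    (h : q ≠ 0) : ∃ c : I → ℕ, MvPolynomial.eval (fun i => (c i : Ω)) q ≠ 0 := by
  by_contra! H
  refine h (MvPolynomial.funext_set (fun _ => Set.range (Nat.cast : ℕ → Ω))
    (fun _ => Set.infinite_range_of_injective Nat.cast_injective) fun x hx => ?_)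
  choose c hc using fun i => hx i (Set.mem_univ i)
  rw [← funext hc, H, map_zero]

/-- The fixed points of a semilinear action span the space. -/
theorem Spei_span {F : Type} [Field F] [NumberField F] {V : Type} [AddCommGroup V] [Module F V]
    (N : Subgroup (Aut F)) (T : N → V →+ V) (one : ∀ v, T 1 v = v)
    (mul : ∀ s t v, T (s * t) v = T s (T t v))
    (smul : ∀ (s : N) (c : F) v, T s (c • v) = s.1 c • T s v) (v : V) :
    v ∈ Submodule.span F {v | ∀ s, T s v = v} := by
  by_contra h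
  obtain ⟨φ, h1, h2⟩ := Submodule.exists_dual_map_eq_bot_of_notMem h inferInstance
  have := Fintype.ofFinite N
  let χ : N → (F →* F) := fun s => s.1.toRingEquiv.toRingHom.toMonoidHom
  have hχ : Function.Injective χ := fun s t e =>
    Subtype.ext (AlgEquiv.ext fun x => DFunLike.congr_fun e x)
  have h4 := Fintype.linearIndependent_iff.1 ((linearIndependent_monoidHom F F).comp χ hχ)
    (fun s => φ (T s v)) ?_ 1
  · exact h1 (one v ▸ h4)
  funext c
  have h5 : φ (∑ s : N, T s (c • v)) = 0 := by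
    rw [← Submodule.mem_bot F, ← h2]
    refine Submodule.mem_map_of_mem (Submodule.subset_span fun s => ?_)
    rw [map_sum]
    exact Fintype.sum_equiv (Equiv.mulLeft s) _ _ fun t => (mul s t _).symm
  rw [Pi.zero_apply, ← h5, map_sum, Finset.sum_apply]
  refine Finset.sum_congr rfl fun s _ => ?_
  rw [smul, map_smul, smul_eq_mul, mul_comm]
  rfl

/-- If `X ↦ a s * s X * (b s)⁻¹` is an action of `N`, it has an invertible fixed point. -/
theorem speiser {F : Type} [Field F] [NumberField F] {ι : Type} [Fintype ι] [DecidableEq ι]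
    (N : Subgroup (Aut F)) (a b : Aut F → GL ι F) (c : Aut F → Aut F → F)
    (ha : ∀ s ∈ N, ∀ t ∈ N, (a s).1 * (a t).1.map s = c s t • (a (s * t)).1)
    (hb : ∀ s ∈ N, ∀ t ∈ N, (b s).1 * (b t).1.map s = c s t • (b (s * t)).1) :
    ∃ X : GL ι F, ∀ s ∈ N, (a s).1 * X.1.map s = X.1 * (b s).1 := by
  let T : N → Matrix ι ι F →+ Matrix ι ι F := fun s => AddMonoidHom.mk'
    (fun X => (a s).1 * X.map s.1 * ((b s)⁻¹).1) fun X Y => by
      rw [Matrix.map_add _ (map_add _), Matrix.mul_add, Matrix.add_mul]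
  have hT : ∀ (s : N) X, T s X * (b s).1 = (a s).1 * X.map s.1 := fun s X =>
    Units.inv_mul_cancel_right _ _
  have mul : ∀ s t v, T (s * t) v = T s (T t v) := by
    intro s t v
    have hu : IsUnit ((b t).1.map s.1) :=
      (b t).isUnit.map (s.1.toRingEquiv.toRingHom.mapMatrix (m := ι))
    have h1 : T s (T t v) * ((b s).1 * (b t).1.map s.1) =
        c s t • ((a (s * t : N)).1 * v.map (s * t : N).1) := by
      rw [← Matrix.mul_assoc, hT, Matrix.mul_assoc, ← Matrix.map_mul, hT, Matrix.map_mul,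
        ← Matrix.mul_assoc, ha s s.2 t t.2, Matrix.smul_mul]
      rfl
    have h2 : T (s * t) v * ((b s).1 * (b t).1.map s.1) =
        c s t • ((a (s * t : N)).1 * v.map (s * t : N).1) := by
      rw [hb s s.2 t t.2, Matrix.mul_smul, ← hT]
      rfl
    exact ((b s).isUnit.mul hu).mul_right_cancel (h2.trans h1.symm)
  have one : ∀ v, T 1 v = v := by
    intro v
    have h1 : T 1 (T 1 v) = T 1 v := by rw [← mul, mul_one]
    have h2 := hT 1 (T 1 v)
    rw [h1, hT] at h2
    exact ((a (1 : N)).isUnit.mul_left_cancel h2).symm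
  have smul : ∀ (s : N) (x : F) v, T s (x • v) = s.1 x • T s v := by
    intro s x v
    have e : (x • v).map s.1 = s.1 x • v.map s.1 := Matrix.ext fun _ _ => map_mul s.1 _ _
    change (a s).1 * (x • v).map s.1 * _ = s.1 x • ((a s).1 * v.map s.1 * _)
    rw [e, Matrix.mul_smul, Matrix.smul_mul]
  obtain ⟨m, x, w, hw⟩ := Submodule.mem_span_set'.1 (Spei_span N T one mul smul 1)
  have hq : ∀ y : Fin m → F, MvPolynomial.eval y (det (of fun j l =>
      ∑ i, MvPolynomial.X i * MvPolynomial.C ((w i).1 j l))) = det (∑ i, y i • (w i).1) := by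
    intro y
    rw [RingHom.map_det]
    congr 1
    ext j l
    simp [Matrix.sum_apply]
  obtain ⟨y, hy⟩ := Spei_nat_pt (q := det (of fun j l =>
      ∑ i, MvPolynomial.X i * MvPolynomial.C ((w i).1 j l))) fun e => by
    have h1 := hq x
    rw [e, map_zero, hw, det_one] at h1
    exact zero_ne_one h1
  rw [hq] at hy
  refine ⟨GeneralLinearGroup.mkOfDetNeZero _ hy, fun s hs => ?_⟩
  have h1 : T ⟨s, hs⟩ (∑ i, (y i : F) • (w i).1) = ∑ i, (y i : F) • (w i).1 := by
    simp only [Nat.cast_smul_eq_nsmul, map_sum, map_nsmul, fun i => (w i).2 ⟨s, hs⟩]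
  have h2 := hT ⟨s, hs⟩ (∑ i, (y i : F) • (w i).1)
  rw [h1] at h2
  exact h2.symm

end Pool.Agent.P.MP_3c2f8c_gt.AO
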