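import Pool.Agent.P.MP_3c2f8c_gt.AO.HP
import Pool.Agent.P.MP_3c2f8c_gt.AO.Spei
import Pool.Agent.P.MP_3c2f8c_gt.AO.MtE

/-! The matching of regular elements. -/

namespace Pool.Agent.P.MP_3c2f8c_gt.AO

open Matrix Pool.Agent.Lib.CFT
open scoped TensorProduct

variable {n : ℕ} {M : Type} [Field M] [NumberField M] [G2 M] [OrdM n M]

theorem mat (hn : 2 ≤ n) {β β' δ : Mˣ} (hβ : Par β) (hβ' : Par β') (ha' : Aniso n β'.1)
    (S : Finset Nat.Primes)
    (L : ∀ p : Nat.Primes, LI n (decide (p ∈ S)) (inc ℚ_[p] M β.1) (inc ℚ_[p] M β'.1))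
    (hL : ∀ p, om (n + 1) (L p).c = inc ℚ_[p] M (if p ∈ S then δ * β⁻¹ else δ).1)
    (hi : {p | ¬ (Le 1 (L p).W.1 ∧ ‖(L p).c‖ ≤ 1)}.Finite)
    (L' : LI n false (inc ℝ M β.1) (inc ℝ M β'.1)) (hL' : om (n + 1) L'.c = inc ℝ M δ.1)
    (γ : PU n β.1) (hγ : RegP γ) :
    ∃ γ', Mat (Ex.along (fun p => (L p).equiv) (Phi n β.1)) (Phi n β'.1) (rho n β.1) (rho n β'.1)
      (Kst n β'.1) (Ex.eps S) γ γ' := by
  classical
  obtain ⟨g, rfl, hg, htr⟩ := hγ
  obtain ⟨F, _, _, _, _, hs⟩ := exists_split g.1.1.charpoly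
  obtain ⟨I, h⟩ := exists_res' (M := M) (F := F) hn
  rw [← Matrix.charpoly_map] at hs
  obtain ⟨P, l, hl, hP⟩ := exists_eigen (h.ext.J g.1) (by
    show (g.1.1.map (algebraMap M F)).charpoly.Separable
    rw [Matrix.charpoly_map]
    exact hg.map) hs
  obtain ⟨π, b, hb, hl'⟩ := exists_fr hl hP (h.ext.fixAt_un hβ g)
  have hc := coc_of_fr (h.ext.aG_pow β) (h.ext.tw_aG hβ) hb
  have hS : {p | p ∈ S ∨ ¬ (Le 1 (L p).W.1 ∧ ‖(L p).c‖ ≤ 1)}.Finite := S.finite_toSet.union hi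
  obtain ⟨η, y, hy⟩ := idele_split I π (fun s j => ⟨(fun p => (h.plc ℚ_[p]).zl (L p) b s j,
      (h.plc ℝ).zl L' b s j), hS.subset fun p hp => by_contra fun h0 => hp (by
        obtain ⟨h1, h2⟩ := not_or.1 h0
        have h3 := (not_not.1 h2).2
        refine inv_mem (mul_mem ?_ (umap_mem _ ⟨norm_le_one_iff.1 (norm_om_le h3 _),
          norm_le_one_iff.1 (norm_om_le ((NTw.ta _).trans_le h3) _)⟩))
        rw [decide_eq_false h1]
        exact one_mem _)⟩) (fun s t => h.ext.u δ ^ I.car s t) fun s t j =>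
    Subtype.ext (Prod.ext (funext fun p => congrFun ((h.plc ℚ_[p]).zl_mul (L p) hc
      ((hL p).trans (by by_cases hp : p ∈ S <;> simp only [hp] <;> rfl)) s t) j)
      (congrFun ((h.plc ℝ).zl_mul L' hc hL' s t) j))
  have hQ := fun p : Nat.Primes => (h.plc ℚ_[p]).fr_loc hβ hβ' (L p) hb (η := η)
    (y := fun j => (y j).1.1 p) fun s => funext fun j =>
      congrArg (fun x : Idele F => x.1.1 p) (hy s j)
  have hQ' := (h.plc ℝ).fr_loc hβ hβ' L' hb (η := η) (y := fun j => (y j).1.2)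
    fun s => funext fun j => congrArg (fun x : Idele F => x.1.2) (hy s j)
  have hc' : Coc I h.ext.α π (h.ext.u β') fun s => b s * η s := (h.plc ℝ).coc
    (coc_of_fr ((h.plc ℝ).E'.aG_pow _) ((h.plc ℝ).E'.tw_aG (hβ'.map (twHom_inc ℝ))) hQ')
  obtain ⟨P₁, hP₁⟩ : ∃ P₁, ∀ s, I.sw s = false →
      FrAt I h.ext.α π (h.ext.J (aG n β')) P₁ (fun s => b s * η s) s := by
    have e : ∀ s, I.sw s = false → ∀ X : Gl n F, (tw I h.ext.α s X).1 = X.1.map s :=
      fun s hs X => by rw [tw, hs]; rfl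
    obtain ⟨X, hX⟩ := speiser ⟨⟨⟨{s | I.sw s = false}, fun {s t} hs ht => by
        rw [Set.mem_ofPred_eq, I.swm, hs, ht]; rfl⟩, I.sw_one⟩, fun {s} hs => by
        have h1 := I.swm s⁻¹ s
        rw [inv_mul_cancel, I.sw_one, hs] at h1
        simpa using h1⟩
      (fun s => h.ext.J (aG n β') ^ I.ix s) (fun s => dg (b s * η s) * pm (π s))
      (fun s t => (h.ext.u β' ^ I.car s t).1) (fun s hs t _ => by
        rw [← e s hs, map_pow, h.ext.tw_aG hβ', ← Units.val_mul, pow_car (h.ext.aG_pow β'),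
          dg_const_mul]) fun s hs t _ => by
        rw [← e s hs, ← Units.val_mul, ← dg_const_mul]
        exact congrArg Units.val (hc'.dg_pm s t)
    exact ⟨X, fun s hs => Units.ext (by rw [Units.val_mul, e s hs]; exact hX s hs)⟩
  have : Nonempty Nat.Primes := ⟨⟨2, Nat.prime_two⟩⟩
  obtain ⟨P', hP'⟩ := exists_frame (fun p : Nat.Primes => h.plc ℚ_[p]) hβ'
    (fun _ hH hl => hp0 hβ' ha' hH hl) hc' hP₁ fun p => ⟨_, hQ p⟩
  obtain ⟨ψ, hψ⟩ := exists_psi hb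
  obtain ⟨ψ', hψ'⟩ := exists_psi hP'
  obtain rfl : ψ ⟨l, hl'⟩ = g :=
    Subtype.ext (glMap_inj h.ext.inj ((hψ _).trans (eq_mul_inv_of_mul_eq hP).symm))
  have ht : (dg l).1.trace ≠ 0 := psi_trace hψ ⟨l, hl'⟩ ▸ (map_ne_zero _).2 htr
  have hr := psi_range hβ hb hψ (l := ⟨l, hl'⟩) hl ht
  obtain ⟨τ, hτ⟩ := exists_tau _ _ (fun y => (psi_ker hψ y).trans (psi_ker hψ' y).symm) hr
    (psi_range hβ' hP' hψ' (l := ⟨l, hl'⟩) hl ht)
  have hy' : ∀ t : Subgroup.centralizer {(QuotientGroup.mk (ψ ⟨l, hl'⟩) : PU n β.1)},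
      ∃ y, QuotientGroup.mk (ψ y) = t.1 := fun t => (hr.ge t.2 :)
  choose u hu hu' using fun p : Nat.Primes => (h.plc ℚ_[p]).exists_u (L p) hP' (hQ p) hψ hψ'
  obtain ⟨v, -, hv⟩ := (h.plc ℝ).exists_u L' hP' hQ' hψ hψ'
  refine ⟨_, τ, fun p => QuotientGroup.mk (u p),
    adG (GeneralLinearGroup.map (ev M).toRingHom (v.1 * L'.W⁻¹)), fun t ht => hτ t _ ht.symm,
    fun t t' => Subtype.ext ?_, ?_, fun p t => ?_, fun t => ?_⟩
  · obtain ⟨y, hy⟩ := hy' t
    obtain ⟨y', hy'⟩ := hy' t'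
    rw [Subgroup.coe_mul, Subgroup.coe_mul, ← hy, ← hy']
    exact ((Commute.all y y').map ((QuotientGroup.mk' (Zc n β.1)).comp ψ)).eq
  · refine ((hS.union ((finite_not_le P'.1).union (finite_not_le (P⁻¹).1))).union
      (Set.finite_iUnion fun j => (y j).2)).subset fun p hp => by_contra fun h0 => hp ?_
    simp only [Set.mem_union, Set.mem_ofPred_eq, Set.mem_iUnion, not_or, not_not, not_exists] at h0
    obtain ⟨⟨⟨h1, h2, -⟩, h3, h4⟩, h5⟩ := h0
    have h6 : Le 1 (dg fun j => (y j).1.1 p).1 := fun i j => by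
      rw [dg_val, diagonal_apply]
      split_ifs
      · exact norm_le_one_iff.2 (h5 i).1
      · rw [norm_zero]
        exact zero_le_one
    have h7 := h3.mul (h6.mul (h4.mul (y := (L p).W.1.map (lmap ℚ_[p] (algebraMap M F)))
      fun i j => (norm_lmap_le _).2 (h2 i j)))
    have h8 := hu p
    rw [map_inv, _root_.mul_inv_rev, _root_.mul_inv_rev, inv_inv, inv_inv] at h8
    have h9 : itb (decide (p ∈ S)) ((h.plc ℚ_[p]).K P) = (h.plc ℚ_[p]).K P := by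
      rw [decide_eq_false h1]
      rfl
    rw [h9] at h8
    refine mk_mem_K0 fun i j => (norm_lmap_le (algebraMap M F)).1 ?_
    rw [mul_one, mul_one, mul_one] at h7
    exact (congrArg (fun x : Gl n _ => ‖x.1 i j‖) h8).trans_le (h7 i j)
  · obtain ⟨y, hy⟩ := hy' t
    rw [hτ t y hy, ← hy]
    have e : Ex.eps S p = sn (decide (p ∈ S)) := by
      by_cases hp : p ∈ S <;> simp [Ex.eps, sn, hp]
    rw [e]
    exact congrArg QuotientGroup.mk (hu' p y)
  · obtain ⟨y, hy⟩ := hy' t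
    rw [hτ t y hy, ← hy]
    have e : ∀ x : Gl n M, GeneralLinearGroup.map G2.φ x = GeneralLinearGroup.map
        (ev M).toRingHom (GeneralLinearGroup.map (inc ℝ M) x) :=
      fun x => Units.ext (Matrix.ext fun _ _ => (ev_inc _).symm)
    show adG (GeneralLinearGroup.map G2.φ _) * _ = _ * adG (GeneralLinearGroup.map G2.φ _)
    rw [e, e, ← map_mul, ← map_mul, ← map_mul, ← map_mul, ← mul_assoc]
    have h1 := congrArg Subtype.val (hv y)
    rw [sn, cond_false, zpow_one] at h1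
    refine congrArg (fun x => adG (GeneralLinearGroup.map _ x)) ?_
    refine (congrArg (· * L'.W⁻¹) h1).trans ?_
    show v.1 * (L'.W⁻¹ * _ * L'.W) * L'.W⁻¹ = _
    rw [mul_assoc, mul_inv_cancel_right, mul_assoc]
    rfl

end Pool.Agent.P.MP_3c2f8c_gt.AO
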