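import Pool.Agent.P.MP_3c2f8c_gt.AO.LieD

/-! Irreducibility of the adjoint action. -/

namespace Pool.Agent.P.MP_3c2f8c_gt.AO

open Matrix E6

variable {n : ℕ} {K : Type} [Field K] [CharZero K]

/-- The matrix of `ad Eᵢⱼ`. -/
def adE (R : Type) [CommRing R] (i j : Fin (n + 1)) : Matrix (Ix n) (Ix n) R :=
  adM (slT n R) (co (Matrix.single i j 1))

theorem adE_map {R S : Type} [CommRing R] [CommRing S] (f : R →+* S) (i j : Fin (n + 1)) :
    (adE R i j).map f = adE S i j := by
  rw [adE, adE, ← adM_bc, bc_slT]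
  congr 1
  funext k
  simp only [Function.comp_apply, co_apply, Matrix.single_apply]
  split_ifs
  · exact map_one f
  · exact map_zero f

namespace IrrAux

theorem emb_adE {R : Type} [CommRing R] {i j : Fin (n + 1)} (h : i ≠ j) (v : Ix n → R) :
    emb (adE R i j *ᵥ v) = single i j 1 * emb v - emb v * single i j 1 := by
  have e := emb_br (co (single i j (1 : R))) v
  rwa [emb_co (Matrix.trace_single_eq_of_ne i j 1 h)] at e

omit [CharZero K] in
theorem ad_sq {a b : Fin (n + 1)} (h : a ≠ b) (Y : Mt n K) :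
    single b a 1 * (single b a 1 * Y - Y * single b a 1) -
      (single b a 1 * Y - Y * single b a 1) * single b a 1 = (-2 * Y a b) • single b a (1 : K) := by
  have e1 : single b a (1 : K) * single b a (1 : K) = 0 := single_mul_single_of_ne _ _ _ _ h _
  have e2 : single b a (1 : K) * Y * single b a (1 : K) = Y a b • single b a 1 := by
    rw [single_mul_mul_single, smul_single, one_mul, mul_one, smul_eq_mul, mul_one]
  rw [Matrix.mul_sub, Matrix.sub_mul, ← Matrix.mul_assoc, ← Matrix.mul_assoc, e1,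
    Matrix.mul_assoc Y, e1, e2, Matrix.zero_mul, Matrix.mul_zero, mul_smul]
  module

theorem core (W : Submodule K (Mt n K))
    (h : ∀ i j, i ≠ j → ∀ Y ∈ W, single i j 1 * Y - Y * single i j 1 ∈ W)
    {X : Mt n K} (hX : X ∈ W) (hX' : ∀ c : K, X ≠ c • 1) {Z : Mt n K} (hZ : Z.trace = 0) :
    Z ∈ W := by
  have s2 : ∀ a b, a ≠ b → ∀ Y ∈ W, Y a b ≠ 0 → single b a (1 : K) ∈ W := fun a b hab Y hY h0 => by
    have h1 := h b a hab.symm _ (h b a hab.symm Y hY)
    rw [ad_sq hab] at h1
    exact (W.smul_mem_iff (mul_ne_zero (by norm_num) h0)).1 h1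
  have s1 : ∃ a b, a ≠ b ∧ single b a (1 : K) ∈ W := by
    by_contra hn
    refine hX' (X 0 0) ?_
    ext i j
    by_cases hij : i = j
    · subst hij
      rw [Matrix.smul_apply, Matrix.one_apply_eq, smul_eq_mul, mul_one]
      by_contra h0
      have hi : i ≠ 0 := fun e => h0 (by rw [e])
      refine hn ⟨0, i, hi.symm, s2 0 i hi.symm _ (h 0 i hi.symm X hX) ?_⟩
      rw [Matrix.sub_apply, single_mul_apply_same, mul_single_apply_same, one_mul, mul_one]
      exact sub_ne_zero.2 h0
    · rw [Matrix.smul_apply, Matrix.one_apply_ne hij, smul_zero]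
      by_contra h0
      exact hn ⟨i, j, hij, s2 i j hij X hX h0⟩
  have dg : ∀ a b, a ≠ b → single b a (1 : K) ∈ W → single a a (1 : K) - single b b 1 ∈ W :=
    fun a b hab h0 => by
      have h1 := h a b hab _ h0
      rwa [single_mul_single_same, single_mul_single_same, one_mul] at h1
  have fl : ∀ a b, a ≠ b → single b a (1 : K) ∈ W → single a b (1 : K) ∈ W := fun a b hab h0 => by
    have h1 := h a b hab _ (dg a b hab h0)
    rw [Matrix.mul_sub, Matrix.sub_mul, single_mul_single_same, single_mul_single_same,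
      single_mul_single_of_ne _ _ _ _ hab.symm, single_mul_single_of_ne _ _ _ _ hab.symm, one_mul,
      show (0 : Mt n K) - single a b 1 - (single a b 1 - 0) = (-2 : K) • single a b 1 by module]
      at h1
    exact (W.smul_mem_iff (by norm_num)).1 h1
  have row : ∀ a b k, a ≠ b → k ≠ b → single b a (1 : K) ∈ W → single b k (1 : K) ∈ W :=
    fun a b k hab hk h0 => by
      by_cases e : k = a
      · rwa [e]
      have h1 := h a k (Ne.symm e) _ h0
      rw [single_mul_single_same, single_mul_single_of_ne _ _ _ _ hk, one_mul, zero_sub] at h1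
      exact W.neg_mem_iff.1 h1
  have all : ∀ i j, i ≠ j → single i j (1 : K) ∈ W := fun i j hij => by
    obtain ⟨a, b, hab, h0⟩ := s1
    by_cases e : i = b
    · subst e
      exact row a i j hab hij.symm h0
    · exact row b i j (Ne.symm e) hij.symm (fl i b e (row a b i hab e h0))
  have e : Z = ∑ i, ∑ j, Z i j • (single i j (1 : K) - if i = j then single 0 0 1 else 0) := by
    simp only [smul_sub, Finset.sum_sub_distrib, smul_ite, smul_zero, Finset.sum_ite_eq,
      Finset.mem_univ, if_true, ← Finset.sum_smul]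
    rw [show ∑ i, Z i i = 0 from hZ, zero_smul, sub_zero]
    simp only [smul_single, smul_eq_mul, mul_one]
    exact matrix_eq_sum_single Z
  rw [e]
  refine W.sum_mem fun i _ => W.sum_mem fun j _ => W.smul_mem _ ?_
  split_ifs with hij
  · subst hij
    by_cases h0 : i = 0
    · rw [h0, sub_self]
      exact W.zero_mem
    · exact dg i 0 h0 (all 0 i (Ne.symm h0))
  · rw [sub_zero]
    exact all i j hij

end IrrAux

theorem irr_sl (V : Submodule K (Ix n → K)) (h : ∀ i j, i ≠ j → ∀ v ∈ V, adE K i j *ᵥ v ∈ V) :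
    V = ⊥ ∨ V = ⊤ := by
  refine or_iff_not_imp_left.2 fun hV => eq_top_iff.2 fun x _ => ?_
  obtain ⟨v, hv, h0⟩ := Submodule.exists_mem_ne_zero_of_ne_bot hV
  obtain ⟨y, hy, e⟩ := IrrAux.core (V.map embL) (by
    rintro i j hij _ ⟨u, hu, rfl⟩
    exact ⟨_, h i j hij u hu, IrrAux.emb_adE hij u⟩) (X := emb v) ⟨v, hv, rfl⟩ (fun c hc => by
    have h1 := trace_emb v
    rw [hc, Matrix.trace_smul, Matrix.trace_one, smul_eq_mul, mul_eq_zero] at h1
    rcases h1 with h1 | h1
    · rw [h1, zero_smul] at hc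
      exact h0 (by rw [← co_emb v, hc, map_zero])
    · exact Nat.cast_ne_zero.2 Fintype.card_ne_zero h1) (trace_emb x)
  rwa [← emb_injective e]

theorem centroid_sl (X : Matrix (Ix n) (Ix n) K)
    (h : ∀ i j, i ≠ j → X * adE K i j = adE K i j * X) : ∃ c : K, X = c • 1 := by
  by_cases hn : (0 : Fin (n + 1)) = Fin.last n
  · refine ⟨0, ?_⟩
    ext i j
    have h1 : ∀ k : Fin (n + 1), k = Fin.last n := fun k =>
      le_antisymm (Fin.le_last k) (hn ▸ Fin.zero_le k) |>.trans rfl
    exact (i.2 (Prod.ext (h1 _) (h1 _))).elim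
  obtain ⟨a, b, hab⟩ : ∃ a b : Fin (n + 1), a ≠ b := ⟨_, _, hn⟩
  have e1 : ∀ v : Ix n → K, adE K b a *ᵥ (adE K b a *ᵥ v) =
      (-2 * emb v a b) • co (single b a (1 : K)) := fun v => by
    rw [← map_smul, ← IrrAux.ad_sq hab, ← IrrAux.emb_adE hab.symm, ← IrrAux.emb_adE hab.symm,
      co_emb]
  have e2 := e1 (co (single a b (1 : K)))
  rw [emb_co (Matrix.trace_single_eq_of_ne a b 1 hab), single_apply_same, mul_one] at e2
  set c := emb (X *ᵥ co (single a b (1 : K))) a b with hc
  have e3 : X *ᵥ co (single b a (1 : K)) = c • co (single b a (1 : K)) := by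
    have e4 := e1 (X *ᵥ co (single a b (1 : K)))
    rw [mulVec_mulVec _ (adE K b a) X, ← h b a hab.symm, ← mulVec_mulVec,
      mulVec_mulVec _ (adE K b a) X, ← h b a hab.symm, ← mulVec_mulVec, e2, mulVec_smul, ← hc,
      mul_smul] at e4
    exact smul_right_injective _ (by norm_num) e4
  rcases irr_sl (LinearMap.ker (Matrix.toLin' (X - c • 1))) (fun i j hij v hv => by
    rw [LinearMap.mem_ker, Matrix.toLin'_apply] at hv ⊢
    rw [mulVec_mulVec, Matrix.sub_mul, h i j hij, Matrix.smul_mul, Matrix.one_mul,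
      ← Matrix.mul_one (adE K i j), ← Matrix.mul_smul, Matrix.mul_one, ← Matrix.mul_sub,
      ← mulVec_mulVec, hv, mulVec_zero]) with h1 | h1
  · have h2 : co (single b a (1 : K)) ∈ LinearMap.ker (Matrix.toLin' (X - c • 1)) := by
      rw [LinearMap.mem_ker, Matrix.toLin'_apply, sub_mulVec, e3, smul_mulVec, one_mulVec, sub_self]
    rw [h1, Submodule.mem_bot] at h2
    have h3 := emb_co (Matrix.trace_single_eq_of_ne b a (1 : K) hab.symm)
    rw [h2, ← embL_apply, map_zero] at h3
    have h4 := congrFun (congrFun h3 b) a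
    rw [single_apply_same] at h4
    exact absurd h4 zero_ne_one
  · exact ⟨c, sub_eq_zero.1 (Matrix.toLin'.map_eq_zero_iff.1 (LinearMap.ker_eq_top.1 h1))⟩

theorem conj_top (V : Submodule K (Mt n K)) (h : ∀ g : Gl n K, ∀ X ∈ V, g.1 * X * (g⁻¹).1 ∈ V)
    (h1 : (1 : Mt n K) ∈ V) {X : Mt n K} (hX : X ∈ V) (hX' : ∀ c : K, X ≠ c • 1) : V = ⊤ := by
  have had : ∀ i j, i ≠ j → ∀ Y ∈ V, single i j 1 * Y - Y * single i j 1 ∈ V := fun i j hij Y hY => by
    have e0 : single i j (1 : K) * single i j (1 : K) = 0 := single_mul_single_of_ne _ _ _ _ hij.symm _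
    have e1 : (1 + single i j (1 : K)) * (1 - single i j 1) = 1 := by
      rw [mul_sub, mul_one, add_mul, one_mul, e0, add_zero, add_sub_cancel_right]
    have h2 := V.sub_mem (h ⟨_, _, e1, mul_eq_one_comm.1 e1⟩ Y hY)
      (h ⟨_, _, mul_eq_one_comm.1 e1, e1⟩ Y hY)
    have e2 : (1 + single i j (1 : K)) * Y * (1 - single i j 1) -
        (1 - single i j 1) * Y * (1 + single i j 1) =
        (2 : K) • (single i j 1 * Y - Y * single i j 1) := by
      rw [two_smul]
      noncomm_ring
    exact (V.smul_mem_iff two_ne_zero).1 (e2 ▸ h2)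
  refine eq_top_iff.2 fun Z _ => ?_
  have h2 := IrrAux.core V had hX hX' (Z := Z - (Z.trace / Fintype.card (Fin (n + 1))) • 1) (by
    rw [Matrix.trace_sub, Matrix.trace_smul, Matrix.trace_one, smul_eq_mul,
      div_mul_cancel₀ _ (Nat.cast_ne_zero.2 Fintype.card_ne_zero), sub_self])
  have h3 := V.add_mem h2 (V.smul_mem (Z.trace / Fintype.card (Fin (n + 1))) h1)
  rwa [sub_add_cancel] at h3

end Pool.Agent.P.MP_3c2f8c_gt.AO
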