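import Pool.Agent.P.MP_3c2f8c_gt.AO.Lev
import Pool.Agent.P.MP_3c2f8c_gt.AO.Irr
import Pool.Agent.P.MP_3c2f8c_gt.Ex.Lo.OpT2

/-! Subgroups with dense commensurator have open closure. -/

namespace Pool.Agent.P.MP_3c2f8c_gt.AO

open Matrix E6

variable {n p : ℕ} [Fact p.Prime] {O : Type} [Group O] [TopologicalSpace O] [IsTopologicalGroup O]

namespace OpnAux

open Filter Topology Ex.Op

variable (n p) in
/-- The norm on matrices. -/
@[reducible] noncomputable def nM : NormedAddCommGroup (Mt n ℚ_[p]) := Matrix.normedAddCommGroup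

attribute [local instance] nM

theorem nle_iff {r : ℝ} (hr : 0 ≤ r) {X : Mt n ℚ_[p]} : ‖X‖ ≤ r ↔ ∀ i j, ‖X i j‖ ≤ r :=
  Matrix.norm_le_iff hr

theorem bd_self (X : Mt n ℚ_[p]) (i j : Fin (n + 1)) : ‖X i j‖ ≤ ‖X‖ :=
  (nle_iff (norm_nonneg _)).1 le_rfl i j

theorem mul_le (X Y : Mt n ℚ_[p]) : ‖X * Y‖ ≤ ‖X‖ * ‖Y‖ := by
  refine (nle_iff (by positivity)).2 fun a c => ?_
  rw [Matrix.mul_apply]
  refine IsUltrametricDist.norm_sum_le_of_forall_le_of_nonneg (by positivity) fun k _ => ?_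
  rw [norm_mul]
  exact mul_le_mul (bd_self X a k) (bd_self Y k c) (norm_nonneg _) (norm_nonneg _)

variable (n p) in
/-- The normed ring of matrices. -/
@[reducible] noncomputable def rM : NormedRing (Mt n ℚ_[p]) :=
  { nM n p, (inferInstance : Ring (Mt n ℚ_[p])) with norm_mul_le := mul_le }

theorem smul_le (t : ℚ_[p]) (X : Mt n ℚ_[p]) : ‖t • X‖ ≤ ‖t‖ * ‖X‖ :=
  (Matrix.normedSpace (R := ℚ_[p])).norm_smul_le t X

theorem ultra : IsUltrametricDist (Mt n ℚ_[p]) :=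
  IsUltrametricDist.isUltrametricDist_of_forall_norm_add_le_max_norm fun X Y =>
    (nle_iff (le_max_of_le_left (norm_nonneg _))).2 fun a c =>
      (Padic.nonarchimedean _ _).trans (max_le_max (bd_self X a c) (bd_self Y a c))

theorem norm_one' : ‖(1 : Mt n ℚ_[p])‖ = 1 := by
  refine le_antisymm ((nle_iff zero_le_one).2 fun a c => ?_) ?_
  · rw [Matrix.one_apply]
    split_ifs <;> simp
  · have h := bd_self (1 : Mt n ℚ_[p]) 0 0
    rwa [Matrix.one_apply_eq, norm_one] at h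

theorem norm_det_le {X : Mt n ℚ_[p]} (h : ∀ i j, ‖X i j‖ ≤ 1) : ‖X.det‖ ≤ 1 := by
  rw [Matrix.det_apply']
  refine IsUltrametricDist.norm_sum_le_of_forall_le_of_nonneg zero_le_one fun σ _ => ?_
  rw [norm_mul, norm_prod]
  exact mul_le_one₀ (IsUltrametricDist.norm_intCast_le_one _ _)
    (Finset.prod_nonneg fun _ _ => norm_nonneg _)
    (Finset.prod_le_one (fun _ _ => norm_nonneg _) fun i _ => h _ _)

end OpnAux

namespace OpnAux

open Filter Topology Ex.Op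

theorem exists_deriv : ∃ L : Mt n ℚ_[p] → ℚ_[p], ∀ (t : ℕ → ℚ_[p]) (d : ℕ → Mt n ℚ_[p])
    (X : Mt n ℚ_[p]), Tendsto d atTop (𝓝 0) → Tendsto (fun k => t k • d k) atTop (𝓝 X) →
    Tendsto (fun k => t k • ((1 + d k).det - 1)) atTop (𝓝 (L X)) := by
  let f : (Fin (n + 1) → Fin (n + 1) → ℚ_[p]) → ℚ_[p] := fun M => (Matrix.of M).det
  have hf : ContDiff ℚ_[p] 1 f := by
    have e : f = fun M => ∑ σ : Equiv.Perm (Fin (n + 1)),
        ((Equiv.Perm.sign σ : ℤ) : ℚ_[p]) * ∏ i, M (σ i) i := by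
      funext M
      exact Matrix.det_apply' _
    rw [e]
    refine ContDiff.sum fun σ _ => contDiff_const.mul (contDiff_prod fun i _ => ?_)
    exact contDiff_apply_apply ℚ_[p] ℚ_[p] (σ i) i
  have hd := (hf.differentiable one_ne_zero (Matrix.of.symm (1 : Mt n ℚ_[p]))).hasFDerivAt
  refine ⟨fun X => fderiv ℚ_[p] f (Matrix.of.symm (1 : Mt n ℚ_[p])) (Matrix.of.symm X),
    fun t d X h0 h1 => ?_⟩
  have h2 := (hasFDerivWithinAt_univ.2 hd).lim (c := t) (d := fun k => Matrix.of.symm (d k))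
    (v := Matrix.of.symm X) h0 (.of_forall fun _ => Set.mem_univ _) h1
  refine h2.congr fun k => ?_
  show t k • ((1 + d k).det - (1 : Mt n ℚ_[p]).det) = _
  rw [Matrix.det_one]

theorem tan_not_scalar {Γ : Subgroup (Gl n ℚ_[p])} (hΓ : ∀ g ∈ Γ, g.1.det = 1) {c : ℚ_[p]}
    (h : TanA p Γ (c • (1 : Mt n ℚ_[p]))) : c = 0 := by
  obtain ⟨L, hL⟩ := exists_deriv (n := n) (p := p)
  obtain ⟨g, hg, hlim⟩ := h
  have hp := T1Aux.pk_lim (p := p)
  have h0 : Tendsto (fun k => (g k).1 - 1) atTop (𝓝 0) := by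
    have h1 := hp.smul hlim
    rw [zero_smul] at h1
    refine h1.congr fun k => ?_
    rw [smul_inv_smul₀ (T1Aux.pk_ne k)]
  have h1 := hL _ _ _ h0 hlim
  have h2 : L (c • 1) = 0 := by
    refine tendsto_nhds_unique h1 (tendsto_const_nhds.congr fun k => ?_)
    rw [add_sub_cancel, hΓ _ (hg k), sub_self, smul_zero]
  have h3 := hL (fun k => ((p : ℚ_[p]) ^ k)⁻¹) (fun k => (p : ℚ_[p]) ^ k • c • (1 : Mt n ℚ_[p]))
    (c • 1) (by simpa using hp.smul_const (c • (1 : Mt n ℚ_[p])))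
    (tendsto_const_nhds.congr fun k => (inv_smul_smul₀ (T1Aux.pk_ne k) _).symm)
  have h4 : Tendsto (fun k : ℕ => c * ∑ i ∈ Finset.range (n + 1), (1 + (p : ℚ_[p]) ^ k * c) ^ i)
      atTop (𝓝 (c * ∑ i ∈ Finset.range (n + 1), (1 + 0 * c) ^ i)) :=
    (tendsto_finsetSum _ fun i _ => ((hp.mul_const c).const_add 1).pow i).const_mul c
  have h5 : ∀ k : ℕ, ((p : ℚ_[p]) ^ k)⁻¹ •
      ((1 + (p : ℚ_[p]) ^ k • c • (1 : Mt n ℚ_[p])).det - 1) =
      c * ∑ i ∈ Finset.range (n + 1), (1 + (p : ℚ_[p]) ^ k * c) ^ i := by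
    intro k
    have e : 1 + (p : ℚ_[p]) ^ k • c • (1 : Mt n ℚ_[p]) =
        (1 + (p : ℚ_[p]) ^ k * c) • (1 : Mt n ℚ_[p]) := by
      rw [add_smul, one_smul, smul_smul]
    rw [e, Matrix.det_smul, Matrix.det_one, mul_one, Fintype.card_fin, ← mul_geom_sum,
      add_sub_cancel_left, smul_eq_mul, mul_assoc, inv_mul_cancel_left₀ (T1Aux.pk_ne k)]
  have h6 := tendsto_nhds_unique (h3.congr h5) h4
  rw [h2] at h6
  simp only [zero_mul, add_zero, one_pow, Finset.sum_const, Finset.card_range, nsmul_eq_mul,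
    mul_one] at h6
  exact (mul_eq_zero.1 h6.symm).resolve_right (Nat.cast_ne_zero.2 n.succ_ne_zero)

/-- The scalar matrix of a non-zero number. -/
noncomputable def sca (c : ℚ_[p]) (hc : c ≠ 0) : Gl n ℚ_[p] :=
  ⟨c • 1, c⁻¹ • 1, by rw [smul_mul_smul_comm, mul_inv_cancel₀ hc, mul_one, one_smul],
    by rw [smul_mul_smul_comm, inv_mul_cancel₀ hc, mul_one, one_smul]⟩

attribute [local instance] rM

variable (n p) in
/-- The normed algebra of matrices. -/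
@[reducible] noncomputable def aM : NormedAlgebra ℚ_[p] (Mt n ℚ_[p]) :=
  { (inferInstance : Algebra ℚ_[p] (Mt n ℚ_[p])) with norm_smul_le := smul_le }

attribute [local instance] aM

theorem proper : ProperSpace (Mt n ℚ_[p]) := FiniteDimensional.proper ℚ_[p] _

variable (n p) in
/-- The integral matrices of determinant one. -/
def SLi : Subgroup (Gl n ℚ_[p]) where
  carrier := {g | ‖g.1‖ ≤ 1 ∧ ‖(g⁻¹).1‖ ≤ 1 ∧ g.1.det = 1}
  one_mem' := ⟨norm_one'.le, norm_one'.le, Matrix.det_one⟩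
  mul_mem' := fun {g h} hg hh => ⟨T1Aux.norm_mul_le hg.1 hh.1, by
    rw [_root_.mul_inv_rev]
    exact T1Aux.norm_mul_le hh.2.1 hg.2.1, by
    rw [Units.val_mul, Matrix.det_mul, hg.2.2, hh.2.2, mul_one]⟩
  inv_mem' := fun {g} hg => ⟨hg.2.1, by rw [inv_inv]; exact hg.1, by
    have h := Matrix.det_mul (g⁻¹).1 g.1
    rwa [Units.inv_mul, Matrix.det_one, hg.2.2, mul_one, eq_comm] at h⟩

theorem norm_pow_le {X : Mt n ℚ_[p]} (h : ‖X‖ ≤ 1) (k : ℕ) : ‖X ^ k‖ ≤ 1 := by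
  induction k with
  | zero => rw [pow_zero]; exact norm_one'.le
  | succ k ih => rw [pow_succ]; exact T1Aux.norm_mul_le ih h

theorem exists_SLi {g : Gl n ℚ_[p]} (hg : ∀ i j, ‖(g.1 - 1) i j‖ ≤ (p : ℝ) ^ (-2 : ℤ)) :
    ∃ (c : ℚ_[p]) (hc : c ≠ 0), sca c hc * g ^ (n + 1) ∈ SLi n p := by
  have := ultra (n := n) (p := p)
  have : NormOneClass (Mt n ℚ_[p]) := ⟨norm_one'⟩
  have hp : (1 : ℝ) < p := by exact_mod_cast (Fact.out : p.Prime).one_lt
  have h1 : ‖g.1 - 1‖ < 1 :=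
    ((nle_iff (by positivity)).2 hg).trans_lt (zpow_lt_one_of_neg₀ hp (by norm_num))
  have h2 : ‖(g⁻¹).1‖ ≤ 1 := T2Aux.norm_inv_le h1
  have h3 : ‖g.1‖ ≤ 1 := by
    have h4 := T1Aux.norm_add_le h1.le (norm_one' (n := n) (p := p)).le
    rwa [sub_add_cancel] at h4
  have h5 : (g⁻¹).1.det * g.1.det = 1 := by
    rw [← Matrix.det_mul, Units.inv_mul, Matrix.det_one]
  have h6 : (g⁻¹).1.det ≠ 0 := left_ne_zero_of_mul_eq_one h5
  refine ⟨(g⁻¹).1.det, h6, ?_, ?_, ?_⟩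
  · show ‖((g⁻¹).1.det • (1 : Mt n ℚ_[p])) * (g ^ (n + 1)).1‖ ≤ 1
    rw [Units.val_pow_eq_pow_val]
    exact T1Aux.norm_mul_le (T1Aux.norm_smul_le_one
      (norm_det_le ((nle_iff zero_le_one).1 h2)) norm_one'.le) (norm_pow_le h3 _)
  · rw [_root_.mul_inv_rev, ← inv_pow]
    show ‖(g⁻¹ ^ (n + 1)).1 * (((g⁻¹).1.det)⁻¹ • (1 : Mt n ℚ_[p]))‖ ≤ 1
    rw [Units.val_pow_eq_pow_val, inv_eq_of_mul_eq_one_right h5]
    exact T1Aux.norm_mul_le (norm_pow_le h2 _) (T1Aux.norm_smul_le_one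
      (norm_det_le ((nle_iff zero_le_one).1 h3)) norm_one'.le)
  · show (((g⁻¹).1.det • (1 : Mt n ℚ_[p])) * (g ^ (n + 1)).1).det = 1
    rw [Units.val_pow_eq_pow_val, Matrix.det_mul, Matrix.det_smul, Matrix.det_one, mul_one,
      Fintype.card_fin, Matrix.det_pow, ← mul_pow, h5, one_pow]

theorem tan_exists {Γ : Subgroup (Gl n ℚ_[p])} (hΓ : Γ ≤ SLi n p) (hinf : Infinite Γ) :
    ∃ X : Mt n ℚ_[p], X ≠ 0 ∧ TanA p Γ X := by
  have := ultra (n := n) (p := p)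
  have := proper (n := n) (p := p)
  exact tanA_ne_zero (fun g hg => (hΓ hg).1) hinf

theorem tan_sub (Γ : Subgroup (Gl n ℚ_[p])) :
    ∃ V : Submodule ℚ_[p] (Mt n ℚ_[p]), ∀ X, X ∈ V ↔ TanA p Γ X := tanA_submodule Γ

theorem tan_conj {Γ : Subgroup (Gl n ℚ_[p])} {X : Mt n ℚ_[p]} (h : TanA p Γ X)
    {g : Gl n ℚ_[p]} {k : ℕ} (hk : 0 < k) (hg : ∀ γ ∈ Γ, g * γ ^ k * g⁻¹ ∈ Γ) :
    TanA p Γ (g.1 * X * (g⁻¹).1) := h.conj hk hg

theorem tan_open {Γ : Subgroup (Gl n ℚ_[p])} (h : ∀ X : Mt n ℚ_[p], TanA p Γ X) :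
    IsOpen ((Γ.subgroupOf ⊤).topologicalClosure : Set (⊤ : Subgroup (Gl n ℚ_[p]))) := by
  have := ultra (n := n) (p := p)
  have := proper (n := n) (p := p)
  have : NormOneClass (Mt n ℚ_[p]) := ⟨norm_one'⟩
  refine open_of_tanA (L := ⊤) (C := 0) le_top isClosed_univ
    (fun g _ r _ _ _ => ⟨g.1 - 1, trivial, ?_⟩) fun X _ => h X
  rw [sub_self, norm_zero, zero_mul]

end OpnAux

namespace OpnAux

open Filter Topology Ex.Op

theorem exists_close (m : Model n p O) {Γ K : Subgroup O} (hK : CO K) (hΓ : Γ ≤ K)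
    (hinf : Infinite Γ) : ∃ g : Gl n ℚ_[p], m.π g ∈ Γ ∧ m.π g ≠ 1 ∧
      ∀ i j, ‖(g.1 - 1) i j‖ ≤ (p : ℝ) ^ (-2 : ℤ) := by
  have hp : (0 : ℝ) < p := by exact_mod_cast (Fact.out : p.Prime).pos
  have hB : {g : Gl n ℚ_[p] | ∀ i j, ‖(g.1 - 1) i j‖ ≤ (p : ℝ) ^ (-2 : ℤ)} ∈ 𝓝 1 := by
    refine eventually_all.2 fun i => eventually_all.2 fun j => ?_
    have h1 : Continuous fun g : Gl n ℚ_[p] => ‖(g.1 - 1) i j‖ :=
      ((Units.continuous_val.sub continuous_const).matrix_elem i j).norm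
    refine (h1.tendsto 1).eventually (ge_mem_nhds ?_)
    simpa using zpow_pos hp (-2)
  have hN := m.opn.image_mem_nhds hB
  rw [map_one] at hN
  obtain ⟨L, hL, hLN⟩ := m.small hN
  obtain ⟨s, hs⟩ := finite_cosets hK.1 hL.2
  choose r hr hrL using fun γ : Γ => hs γ.1 (hΓ γ.2)
  obtain ⟨a, b, hab, e⟩ := Finite.exists_ne_map_eq_of_infinite fun γ : Γ => (⟨r γ, hr γ⟩ : s)
  have e' : r a = r b := congrArg Subtype.val e
  have h1 : a.1⁻¹ * b.1 ∈ L := by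
    have h2 := L.mul_mem (L.inv_mem (hrL a)) (hrL b)
    rwa [e', _root_.mul_inv_rev, inv_inv, mul_assoc, mul_inv_cancel_left] at h2
  obtain ⟨g, hg, hπ⟩ := hLN h1
  refine ⟨g, ?_, ?_, hg⟩
  · rw [hπ]
    exact Γ.mul_mem (Γ.inv_mem a.2) b.2
  · rw [hπ]
    exact fun h => hab (Subtype.ext (inv_mul_eq_one.1 h))

omit [IsTopologicalGroup O] in
theorem tan_one (m : Model n p O) (Γ : Subgroup O) :
    TanA p (Γ.comap m.π) (1 : Mt n ℚ_[p]) := by
  have h : ∀ k : ℕ, (1 + (p : ℚ_[p]) ^ k) ≠ 0 := fun k => by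
    have : ((p ^ k + 1 : ℕ) : ℚ_[p]) ≠ 0 := Nat.cast_ne_zero.2 (Nat.succ_ne_zero _)
    rwa [Nat.cast_succ, Nat.cast_pow, add_comm] at this
  refine ⟨fun k => sca _ (h k), fun k => ?_, tendsto_const_nhds.congr fun k => ?_⟩
  · rw [Subgroup.mem_comap, (m.ker _).2 ⟨_, rfl⟩]
    exact Γ.one_mem
  · show 1 = ((p : ℚ_[p]) ^ k)⁻¹ • ((1 + (p : ℚ_[p]) ^ k) • (1 : Mt n ℚ_[p]) - 1)
    rw [add_smul, one_smul, add_sub_cancel_left, inv_smul_smul₀ (T1Aux.pk_ne k)]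

theorem tan_nonscalar (m : Model n p O) {Γ K : Subgroup O} (hK : CO K) (hΓ : Γ ≤ K)
    (hinf : Infinite Γ) :
    ∃ X : Mt n ℚ_[p], TanA p (Γ.comap m.π) X ∧ ∀ c : ℚ_[p], X ≠ c • 1 := by
  obtain ⟨g, hg, hg1, hg2⟩ := exists_close m hK hΓ hinf
  obtain ⟨c, hc, hS⟩ := exists_SLi hg2
  have hπ : m.π (sca c hc * g ^ (n + 1)) = m.π g ^ (n + 1) := by
    rw [map_mul, (m.ker _).2 ⟨_, rfl⟩, one_mul, map_pow]
  have hfin : ¬ IsOfFinOrder (sca c hc * g ^ (n + 1)) := fun h => by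
    have h1 := m.π.isOfFinOrder h
    rw [hπ] at h1
    exact hg1 (m.torsionFree hg2 (h1.of_pow n.succ_ne_zero))
  have hi : Infinite (Subgroup.zpowers (sca c hc * g ^ (n + 1))) :=
    (infinite_zpowers.2 hfin).to_subtype
  have hle : Subgroup.zpowers (sca c hc * g ^ (n + 1)) ≤ SLi n p :=
    (Subgroup.zpowers_le).2 hS
  have hle' : Subgroup.zpowers (sca c hc * g ^ (n + 1)) ≤ Γ.comap m.π :=
    (Subgroup.zpowers_le).2 (by
      rw [Subgroup.mem_comap, hπ]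
      exact Γ.pow_mem hg _)
  obtain ⟨X, hX, hT⟩ := tan_exists hle hi
  refine ⟨X, ?_, ?_⟩
  · obtain ⟨a, ha, h⟩ := hT
    exact ⟨a, fun k => hle' (ha k), h⟩
  · rintro d rfl
    have h0 := tan_not_scalar (fun γ hγ => (hle hγ).2.2) hT
    exact hX (by rw [h0, zero_smul])

/-- The elementary matrices. -/
noncomputable def elm {i j : Fin (n + 1)} (hij : i ≠ j) (t : ℚ_[p]) : Gl n ℚ_[p] :=
  ⟨1 + t • Matrix.single i j 1, 1 - t • Matrix.single i j 1, by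
    simp [mul_sub, add_mul, Matrix.single_mul_single_of_ne _ _ _ _ hij.symm], by
    simp [sub_mul, mul_add, Matrix.single_mul_single_of_ne _ _ _ _ hij.symm]⟩

theorem continuous_elm {i j : Fin (n + 1)} (hij : i ≠ j) :
    Continuous (elm (p := p) hij) := by
  refine Units.continuous_iff.2 ⟨?_, ?_⟩
  · exact continuous_const.add (continuous_id.smul continuous_const)
  · exact continuous_const.sub (continuous_id.smul continuous_const)

theorem elm_zero {i j : Fin (n + 1)} (hij : i ≠ j) : elm (p := p) hij 0 = 1 :=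
  Units.ext (by simp [elm])

theorem adG_elm {i j : Fin (n + 1)} (hij : i ≠ j) (t : ℚ_[p]) :
    (adG (elm hij t)).1.1 - (adG (elm hij (-t))).1.1 = (2 * t) • adE ℚ_[p] i j := by
  refine ext_emb fun x => ?_
  have h0 : (Matrix.single i j (1 : ℚ_[p])).trace = 0 := Matrix.trace_single_eq_of_ne i j _ hij
  have h1 : emb (adE ℚ_[p] i j *ᵥ x) =
      Matrix.single i j 1 * emb x - emb x * Matrix.single i j 1 := by
    have h2 := emb_br (co (Matrix.single i j (1 : ℚ_[p]))) x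
    rw [emb_co h0] at h2
    exact h2
  rw [Matrix.sub_mulVec, Matrix.smul_mulVec, ← embL_apply, ← embL_apply, map_sub, map_smul,
    embL_apply, embL_apply, embL_apply, emb_adG, emb_adG, h1]
  show (1 + t • Matrix.single i j 1) * emb x * (1 - t • Matrix.single i j 1) -
    (1 + (-t) • Matrix.single i j 1) * emb x * (1 - (-t) • Matrix.single i j 1) = _
  generalize Matrix.single i j (1 : ℚ_[p]) = E
  simp only [mul_sub, add_mul, one_mul, mul_one, smul_mul_assoc, mul_smul_comm]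
  module

theorem continuous_adG : Continuous fun g : Gl n ℚ_[p] => (adG g).1.1 := by
  refine continuous_matrix fun a b => ?_
  have h : Continuous fun g : Gl n ℚ_[p] =>
      (g.1 * emb (Pi.single b (1 : ℚ_[p])) * (g⁻¹).1) a.1.1 a.1.2 :=
    ((Units.continuous_val.matrix_mul continuous_const).matrix_mul
      Units.continuous_coe_inv).matrix_elem _ _
  refine h.congr fun g => ?_
  rw [← emb_adG]
  refine (congrFun (co_emb ((adG g).1.1 *ᵥ Pi.single b 1)) a).trans ?_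
  rw [Matrix.mulVec_single_one]
  rfl

end OpnAux

open Filter Topology Ex.Op OpnAux

theorem Model.opn_closure (m : Model n p O) {Γ Δ K : Subgroup O} (hK : CO K) (hΓ : Γ ≤ K)
    (hinf : Infinite Γ) (hΔ : Dense (Δ : Set O))
    (hc : ∀ g ∈ Δ, ∃ k : ℕ, 0 < k ∧ ∀ γ ∈ Γ, g * γ ^ k * g⁻¹ ∈ Γ) :
    IsOpen (Γ.topologicalClosure : Set O) := by
  obtain ⟨V, hV⟩ := tan_sub (Γ.comap m.π)
  obtain ⟨X, hX, hX'⟩ := tan_nonscalar m hK hΓ hinf
  have hcl : IsClosed (V : Set (Mt n ℚ_[p])) := V.closed_of_finiteDimensional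
  have hinv : ∀ g : Gl n ℚ_[p], ∀ Y ∈ V, g.1 * Y * (g⁻¹).1 ∈ V := by
    intro g Y hY
    have h1 : IsClosed {g : Gl n ℚ_[p] | g.1 * Y * (g⁻¹).1 ∈ V} :=
      hcl.preimage ((Units.continuous_val.matrix_mul continuous_const).matrix_mul
        Units.continuous_coe_inv)
    refine h1.closure_subset_iff.2 (fun a ha => ?_) (hΔ.preimage m.opn g)
    obtain ⟨k, hk, h⟩ := hc (m.π a) ha
    refine (hV _).2 (tan_conj ((hV Y).1 hY) hk fun γ hγ => ?_)
    rw [Subgroup.mem_comap, map_mul, map_mul, map_pow, map_inv]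
    exact h _ hγ
  have htop := conj_top V hinv ((hV _).2 (tan_one m Γ)) ((hV _).2 hX) hX'
  have ho := tan_open (Γ := Γ.comap m.π) fun Y => (hV Y).1 (htop ▸ Submodule.mem_top)
  have hv : IsOpenMap (Subtype.val : (⊤ : Subgroup (Gl n ℚ_[p])) → Gl n ℚ_[p]) :=
    IsOpen.isOpenMap_subtype_val (s := ((⊤ : Subgroup (Gl n ℚ_[p])) : Set (Gl n ℚ_[p])))
      isOpen_univ
  have ho' := (m.opn.comp hv) _ ho
  refine Subgroup.isOpen_of_mem_nhds _ (g := 1) (mem_of_superset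
    (ho'.mem_nhds ⟨1, Subgroup.one_mem _, map_one m.π⟩) ?_)
  rintro _ ⟨g, hg, rfl⟩
  exact map_mem_closure (m.cont.comp continuous_subtype_val) hg fun a ha => ha

theorem opn_of_relIndex {Γ Γ' : Subgroup O} (h : IsOpen (Γ.topologicalClosure : Set O))
    (hle : Γ' ≤ Γ) (hi : Γ'.relIndex Γ ≠ 0) : IsOpen (Γ'.topologicalClosure : Set O) := by
  have : (Γ'.subgroupOf Γ).FiniteIndex := ⟨hi⟩
  have hcl : ∀ a : O, IsClosed {x : O | a⁻¹ * x ∈ Γ'.topologicalClosure} := fun a =>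
    Γ'.isClosed_topologicalClosure.preimage (continuous_const.mul continuous_id)
  have h1 : (Γ.topologicalClosure : Set O) ⊆
      ⋃ q : Γ ⧸ Γ'.subgroupOf Γ, {x : O | (q.out : O)⁻¹ * x ∈ Γ'.topologicalClosure} := by
    refine (isClosed_iUnion_of_finite fun q => hcl _).closure_subset_iff.2 fun x hx => ?_
    refine Set.mem_iUnion.2 ⟨QuotientGroup.mk ⟨x, hx⟩, Γ'.le_topologicalClosure ?_⟩
    have h0 := QuotientGroup.eq.1
      (QuotientGroup.out_eq' (QuotientGroup.mk ⟨x, hx⟩ : Γ ⧸ Γ'.subgroupOf Γ))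
    exact h0
  have h2 : IsClosed (⋃ q : {q : Γ ⧸ Γ'.subgroupOf Γ // (q.out : O) ∉ Γ'.topologicalClosure},
      {x : O | (q.1.out : O)⁻¹ * x ∈ Γ'.topologicalClosure}) :=
    isClosed_iUnion_of_finite fun q => hcl _
  refine Subgroup.isOpen_of_mem_nhds _ (g := 1) (mem_of_superset
    ((h.sdiff h2).mem_nhds ⟨Subgroup.one_mem _, fun h3 => ?_⟩) ?_)
  · obtain ⟨q, hq⟩ := Set.mem_iUnion.1 h3
    refine q.2 ((Subgroup.inv_mem_iff _).1 ?_)
    simpa using hq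
  · rintro x ⟨hx, hx'⟩
    obtain ⟨q, hq⟩ := Set.mem_iUnion.1 (h1 hx)
    by_cases h4 : (q.out : O) ∈ Γ'.topologicalClosure
    · have h5 := Subgroup.mul_mem _ h4 hq
      rwa [mul_inv_cancel_left] at h5
    · exact (hx' (Set.mem_iUnion.2 ⟨⟨q, h4⟩, hq⟩)).elim

theorem Model.adE_mem (m : Model n p O) {Γ : Subgroup O}
    (h : IsOpen (Γ.topologicalClosure : Set O)) {i j : Fin (n + 1)} (hij : i ≠ j) :
    adE ℚ_[p] i j ∈ Submodule.span ℚ_[p] ((fun g => (adG g).1.1) '' {g | m.π g ∈ Γ}) := by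
  obtain ⟨W, hW⟩ : ∃ W, W = Submodule.span ℚ_[p]
    ((fun g : Gl n ℚ_[p] => (adG g).1.1) '' {g | m.π g ∈ Γ}) := ⟨_, rfl⟩
  have hcl : IsClosed {g : Gl n ℚ_[p] | (adG g).1.1 ∈ W} :=
    W.closed_of_finiteDimensional.preimage continuous_adG
  have h1 : m.π ⁻¹' (Γ.topologicalClosure : Set O) ⊆ {g : Gl n ℚ_[p] | (adG g).1.1 ∈ W} :=
    m.opn.preimage_closure_subset_closure_preimage.trans (hcl.closure_subset_iff.2 fun g hg => by
      rw [hW]
      exact Submodule.subset_span ⟨g, hg, rfl⟩)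
  have h2 : {g : Gl n ℚ_[p] | (adG g).1.1 ∈ W} ∈ 𝓝 (elm hij 0) := by
    refine mem_of_superset ((h.preimage m.cont).mem_nhds ?_) h1
    rw [elm_zero, Set.mem_preimage, map_one]
    exact Subgroup.one_mem _
  have hp := T1Aux.pk_lim (p := p)
  have h3 := (((continuous_elm hij).tendsto 0).comp hp).eventually h2
  have h4 := (((continuous_elm hij).tendsto 0).comp (by simpa using hp.neg :
    Tendsto (fun k : ℕ => -(p : ℚ_[p]) ^ k) atTop (𝓝 0))).eventually h2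
  obtain ⟨k, h5, h6⟩ := (h3.and h4).exists
  have h7 := W.sub_mem h5 h6
  rw [Function.comp_apply, Function.comp_apply, adG_elm] at h7
  rw [← hW]
  exact (W.smul_mem_iff (mul_ne_zero two_ne_zero (T1Aux.pk_ne k))).1 h7

end Pool.Agent.P.MP_3c2f8c_gt.AO
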