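import Pool.Agent.P.MP_3c2f8c_gt.AO.Rat
import Pool.Agent.P.MP_3c2f8c_gt.AO.Opn

/-! The groups are not commensurable. -/

namespace Pool.Agent.P.MP_3c2f8c_gt.AO

open Matrix E6 Pool.Agent.Lib.CFT

namespace NCAux

variable {n : ℕ} {Ω : Type} [Field Ω] [CharZero Ω]

/-- In the frame `P` the matrices of `S` span all the maps `ad Eᵢⱼ`. -/
def Full (S : Set (Matrix (Ix n) (Ix n) ℚ)) (P : GL (Ix n) Ω) : Prop :=
  ∀ i j, i ≠ j → adE Ω i j ∈
    Submodule.span Ω ((fun s => P.1 * s.map (algebraMap ℚ Ω) * (P⁻¹).1) '' S)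

variable {S : Set (Matrix (Ix n) (Ix n) ℚ)} {P : GL (Ix n) Ω}

theorem Full.isUnit (hS : Full S P) {X : Matrix (Ix n) (Ix n) ℚ} (h0 : X ≠ 0)
    (hX : ∀ s ∈ S, ∃ s' : Matrix (Ix n) (Ix n) ℚ, X * s = s' * X) : IsUnit X := by
  set Y := X.map (algebraMap ℚ Ω) * (P⁻¹).1 with hY
  have key : ∀ A ∈ Submodule.span Ω ((fun s => P.1 * s.map (algebraMap ℚ Ω) * (P⁻¹).1) '' S),
      ∀ v, Y *ᵥ v = 0 → Y *ᵥ (A *ᵥ v) = 0 := by
    intro A hA v hv
    induction hA using Submodule.span_induction with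
    | mem A hA =>
      obtain ⟨s, hs, rfl⟩ := hA
      obtain ⟨s', e⟩ := hX s hs
      have e' : Y * (P.1 * s.map (algebraMap ℚ Ω) * (P⁻¹).1) = s'.map (algebraMap ℚ Ω) * Y := by
        rw [hY]
        simp only [Matrix.mul_assoc, Units.inv_mul_cancel_left]
        rw [← Matrix.mul_assoc, ← Matrix.map_mul, e, Matrix.map_mul, Matrix.mul_assoc]
      rw [mulVec_mulVec, e', ← mulVec_mulVec, hv, mulVec_zero]
    | zero => rw [zero_mulVec, mulVec_zero]
    | add A B _ _ hA hB => rw [add_mulVec, mulVec_add, hA, hB, add_zero]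
    | smul c A _ hA => rw [smul_mulVec, mulVec_smul, hA, smul_zero]
  rcases irr_sl (LinearMap.ker (toLin' Y)) (fun i j hij v hv => key _ (hS i j hij) v hv) with h | h
  · have h1 : IsUnit Y := by
      rw [← Matrix.isUnit_toLin'_iff, LinearMap.isUnit_iff_ker_eq_bot]
      exact h
    have h2 : IsUnit (X.map (algebraMap ℚ Ω)) := isUnit_of_mul_isUnit_left h1
    rw [Matrix.isUnit_iff_isUnit_det, isUnit_iff_ne_zero] at h2 ⊢
    intro h3
    apply h2
    rw [← RingHom.mapMatrix_apply, ← RingHom.map_det, h3, map_zero]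
  · exfalso
    apply h0
    have h1 : Y = 0 := toLin'.injective (by rw [map_zero]; exact LinearMap.ker_eq_top.1 h)
    have h2 : X.map (algebraMap ℚ Ω) = 0 := by
      have := congrArg (· * P.1) h1
      simpa only [hY, Matrix.mul_assoc, Units.inv_mul, Matrix.mul_one, Matrix.zero_mul] using this
    ext i j
    exact (algebraMap ℚ Ω).injective (by rw [Matrix.zero_apply, map_zero]; exact congrFun₂ h2 i j)

theorem Full.scalar (hS : Full S P) {X : Matrix (Ix n) (Ix n) ℚ}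
    (hX : ∀ s ∈ S, X * s = s * X) : (∀ i j, i ≠ j → X i j = 0) ∧ ∀ i j, X i i = X j j := by
  set Y := P.1 * X.map (algebraMap ℚ Ω) * (P⁻¹).1 with hY
  have key : ∀ A ∈ Submodule.span Ω ((fun s => P.1 * s.map (algebraMap ℚ Ω) * (P⁻¹).1) '' S),
      Y * A = A * Y := by
    intro A hA
    induction hA using Submodule.span_induction with
    | mem A hA =>
      obtain ⟨s, hs, rfl⟩ := hA
      rw [hY]
      simp only [Matrix.mul_assoc, Units.inv_mul_cancel_left]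
      rw [← Matrix.mul_assoc (X.map _), ← Matrix.mul_assoc (s.map _), ← Matrix.map_mul,
        ← Matrix.map_mul, hX s hs]
    | zero => rw [Matrix.mul_zero, Matrix.zero_mul]
    | add A B _ _ hA hB => rw [Matrix.mul_add, Matrix.add_mul, hA, hB]
    | smul c A _ hA => rw [Matrix.mul_smul, Matrix.smul_mul, hA]
  obtain ⟨c, hc⟩ := centroid_sl Y fun i j hij => key _ (hS i j hij)
  have h2 : X.map (algebraMap ℚ Ω) = c • (1 : Matrix (Ix n) (Ix n) Ω) := by
    have := congrArg (fun Z => (P⁻¹).1 * Z * P.1) hc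
    simpa only [hY, Matrix.mul_assoc, Units.inv_mul, Matrix.mul_one, Units.inv_mul_cancel_left,
      Matrix.mul_smul, Matrix.smul_mul, Matrix.one_mul] using this
  have h3 : ∀ i j, algebraMap ℚ Ω (X i j) = c * (1 : Matrix (Ix n) (Ix n) Ω) i j :=
    fun i j => congrFun₂ h2 i j
  refine ⟨fun i j hij => (algebraMap ℚ Ω).injective ?_, fun i j => (algebraMap ℚ Ω).injective ?_⟩
  · rw [h3, Matrix.one_apply_ne hij, mul_zero, map_zero]
  · rw [h3, h3, Matrix.one_apply_eq, Matrix.one_apply_eq]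

section Coef

variable {ι : Type} [Fintype ι]

theorem lin_mul (l : ℝ →ₗ[ℚ] ℚ) (a : ℝ) (q : ℚ) : l (a * algebraMap ℚ ℝ q) = l a * q := by
  rw [mul_comm, ← Algebra.smul_def, map_smul, smul_eq_mul, mul_comm]

theorem map_mul_rat (l : ℝ →ₗ[ℚ] ℚ) (A : Matrix ι ι ℝ) (s : Matrix ι ι ℚ) :
    (A * s.map (algebraMap ℚ ℝ)).map l = A.map l * s := by
  ext i j
  simp only [Matrix.map_apply, Matrix.mul_apply, map_sum, lin_mul]

theorem map_rat_mul (l : ℝ →ₗ[ℚ] ℚ) (A : Matrix ι ι ℝ) (s : Matrix ι ι ℚ) :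
    (s.map (algebraMap ℚ ℝ) * A).map l = s * A.map l := by
  ext i j
  simp only [Matrix.map_apply, Matrix.mul_apply, map_sum]
  exact Finset.sum_congr rfl fun k _ => by rw [mul_comm, lin_mul, mul_comm]

theorem exists_form {t : ℝ} (ht : t ≠ 0) : ∃ l : ℝ →ₗ[ℚ] ℚ, l t ≠ 0 := by
  by_contra h
  push Not at h
  exact ht ((Module.forall_dual_apply_eq_zero_iff ℚ t).1 h)

theorem exists_form_one {t : ℝ} (ht : t ≠ 0) : ∃ l : ℝ →ₗ[ℚ] ℚ, l 1 = 1 ∧ l t ≠ 0 := by
  obtain ⟨l₀, h₀⟩ := exists_form (one_ne_zero (α := ℝ))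
  obtain ⟨l₂, h₂⟩ := exists_form ht
  have h₁ : ((l₀ 1)⁻¹ • l₀) 1 = 1 := by
    rw [LinearMap.smul_apply, smul_eq_mul, inv_mul_cancel₀ h₀]
  generalize (l₀ 1)⁻¹ • l₀ = l₁ at h₁
  by_cases h : l₁ t = 0
  · refine ⟨l₁ + l₂ - l₂ 1 • l₁, ?_, ?_⟩
    · simp [h₁]
    · simpa [h] using h₂
  · exact ⟨l₁, h₁, h⟩

theorem br_bc {R R' : Type} [CommRing R] [CommRing R'] (φ : R →+* R') (T : Tens ι R)
    (x y : ι → R) : br (E6.bc φ T) (φ ∘ x) (φ ∘ y) = φ ∘ br T x y := by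
  funext k
  rw [br, adM_bc, Function.comp_apply, br, RingHom.map_mulVec]

theorem br_smul [DecidableEq ι] {R : Type} [CommRing R] (T : Tens ι R) (c : R) (x y : ι → R) :
    br T (c • x) (c • y) = (c * c) • br T x y := by
  rw [← brL_apply, ← brL_apply, map_smul, map_smul, LinearMap.smul_apply, smul_smul]

/-- A real multiple of a rational matrix that is an isomorphism can be replaced by a rational
multiple. -/
theorem exists_iso_of_smul [DecidableEq ι] {T T' : Tens ι ℚ} {h : GL ι ℝ} {h₀ : GL ι ℚ} {t : ℝ}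
    (ht : t ≠ 0) (e : h.1 = t • h₀.1.map (algebraMap ℚ ℝ))
    (hiso : IsoL (E6.bc (algebraMap ℚ ℝ) T) (E6.bc (algebraMap ℚ ℝ) T') h) :
    ∃ h₁ : GL ι ℚ, IsoL T T' h₁ := by
  obtain ⟨l, h1, h2⟩ := exists_form_one ht
  refine ⟨Units.mk0 (l t) h2 • h₀, fun x y => ?_⟩
  have e1 : ∀ z : ι → ℚ, h.1 *ᵥ (algebraMap ℚ ℝ ∘ z) = t • (algebraMap ℚ ℝ ∘ (h₀.1 *ᵥ z)) := by
    intro z
    rw [e, smul_mulVec]
    congr 1
    funext k
    rw [Function.comp_apply, RingHom.map_mulVec]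
  have h3 := hiso (algebraMap ℚ ℝ ∘ x) (algebraMap ℚ ℝ ∘ y)
  rw [br_bc, e1, e1, e1, br_smul, br_bc] at h3
  show (l t • h₀.1) *ᵥ _ = br T' ((l t • h₀.1) *ᵥ x) ((l t • h₀.1) *ᵥ y)
  rw [smul_mulVec, smul_mulVec, smul_mulVec, br_smul]
  funext k
  have h4 := congrFun h3 k
  simp only [Pi.smul_apply, Function.comp_apply, smul_eq_mul] at h4 ⊢
  rw [mul_assoc] at h4 ⊢
  have h5 := congrArg l (mul_left_cancel₀ ht h4)
  rw [lin_mul, ← one_mul (algebraMap ℚ ℝ _), lin_mul, h1, one_mul] at h5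
  rw [h5]

end Coef

/-- A real intertwiner gives a rational isomorphism. -/
theorem Full.exists_iso (hn : 1 ≤ n) (hS : Full S P) {T T' : Tens (Ix n) ℚ} {h : GL (Ix n) ℝ}
    (hiso : IsoL (E6.bc (algebraMap ℚ ℝ) T) (E6.bc (algebraMap ℚ ℝ) T') h)
    (hint : ∀ s ∈ S, ∃ s' : Matrix (Ix n) (Ix n) ℚ,
      h.1 * s.map (algebraMap ℚ ℝ) = s'.map (algebraMap ℚ ℝ) * h.1) :
    ∃ h₁ : GL (Ix n) ℚ, IsoL T T' h₁ := by
  have i₀ : Ix n := ⟨(0, Fin.last n), fun e => by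
    have := congrArg (fun x => x.1.1) e
    simp only [Fin.val_zero, Fin.val_last] at this
    omega⟩
  have : Nonempty (Ix n) := ⟨i₀⟩
  choose! σ hσ using hint
  have hl : ∀ l : ℝ →ₗ[ℚ] ℚ, ∀ s ∈ S, h.1.map l * s = σ s * h.1.map l := fun l s hs => by
    rw [← map_mul_rat, hσ s hs, map_rat_mul]
  obtain ⟨i, j, hij⟩ : ∃ i j, h.1 i j ≠ 0 := by
    by_contra h0
    push Not at h0
    exact h.ne_zero (Matrix.ext h0)
  obtain ⟨l₀, h₀⟩ := exists_form hij
  obtain ⟨X, hX⟩ := hS.isUnit (X := h.1.map l₀) (fun e => h₀ (congrFun₂ e i j))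
    fun s hs => ⟨σ s, hl l₀ s hs⟩
  set Z := (X⁻¹).1.map (algebraMap ℚ ℝ) * h.1 with hZ
  have hc : ∀ l : ℝ →ₗ[ℚ] ℚ, ∀ s ∈ S, Z.map l * s = s * Z.map l := fun l s hs => by
    have e : (X⁻¹).1 * σ s = s * (X⁻¹).1 := by
      have h1 := congrArg (fun Y => (X⁻¹).1 * Y * (X⁻¹).1) (hl l₀ s hs)
      simp only [← hX, Matrix.mul_assoc, Units.inv_mul_cancel_left, Units.mul_inv,
        Matrix.mul_one] at h1
      exact h1.symm
    rw [hZ, map_rat_mul, Matrix.mul_assoc, hl l s hs, ← Matrix.mul_assoc, e, Matrix.mul_assoc]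
  have hz : Z = Z i₀ i₀ • (1 : Matrix (Ix n) (Ix n) ℝ) := by
    ext a b
    rw [Matrix.smul_apply, smul_eq_mul]
    by_cases hab : a = b
    · subst hab
      rw [Matrix.one_apply_eq, mul_one, ← sub_eq_zero, ← Module.forall_dual_apply_eq_zero_iff ℚ]
      intro l
      rw [map_sub, sub_eq_zero]
      exact (hS.scalar (hc l)).2 a i₀
    · rw [Matrix.one_apply_ne hab, mul_zero, ← Module.forall_dual_apply_eq_zero_iff ℚ]
      intro l
      exact (hS.scalar (hc l)).1 a b hab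
  have e : h.1 = Z i₀ i₀ • X.1.map (algebraMap ℚ ℝ) := by
    have h1 : X.1.map (algebraMap ℚ ℝ) * Z = h.1 := by
      rw [hZ, ← Matrix.mul_assoc, ← Matrix.map_mul, Units.mul_inv,
        Matrix.map_one _ (map_zero _) (map_one _), Matrix.one_mul]
    rw [← h1]
    conv_lhs => rw [hz]
    rw [Matrix.mul_smul, Matrix.mul_one]
  refine exists_iso_of_smul (t := Z i₀ i₀) (fun h0 => ?_) e hiso
  rw [h0, zero_smul] at e
  exact h.ne_zero e

end NCAux

variable {n : ℕ} {M : Type} [Field M] [NumberField M] [G2 M] [OrdM n M] {β β' : Mˣ}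

namespace NCAux

theorem norm_of_ad (hβ : Par β) (hβ' : Par β') {k : Gl n M}
    (h : adG (aG n β') * adG (GeneralLinearGroup.map (sg : M ≃+* M).toRingHom k) =
      adG k * adG (aG n β)) : ∃ z : M, β'.1 = om (n + 1) z * β.1 := by
  have h1 : adG ((k * aG n β)⁻¹ *
      (aG n β' * GeneralLinearGroup.map (sg : M ≃+* M).toRingHom k)) = 1 := by
    rw [map_mul, map_mul adG (aG n β'), h, ← map_mul, ← map_mul, inv_mul_cancel, map_one]
  obtain ⟨c, hc⟩ := scalar_of_adG h1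
  refine ⟨c, norm_of_rel (g := k) hβ.sg hβ'.sg ?_⟩
  have h2 := congrArg (fun Y => (k * aG n β).1 * Y) hc
  simp only [Units.val_mul (k * aG n β)⁻¹, Units.mul_inv_cancel_left, Matrix.mul_smul,
    Matrix.mul_one] at h2
  exact h2

theorem norm_of_iso (hn : 2 ≤ n) (hβ : Par β) (hβ' : Par β') (F : RF n β) (F' : RF n β')
    {h : GL (Ix n) ℚ} (hiso : IsoL F.T F'.T h) :
    ∃ z : M, β'.1 = om (n + 1) z * β.1 ∨ β'.1 = om (n + 1) z * (β⁻¹).1 := by
  let s : GL (Ix n) M →* GL (Ix n) M := GeneralLinearGroup.map (sg : M ≃+* M).toRingHom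
  let α : AutL (slT n M) := ⟨F'.f * gmap (algebraMap ℚ M) h * F.f⁻¹,
    (F'.iso.mul (hiso.map (algebraMap ℚ M))).mul F.iso.inv⟩
  have h1 : (adG (aG n β)).1 * s F.f = F.f := Units.ext F.hσ
  have h2 : (adG (aG n β')).1 * s F'.f = F'.f := Units.ext F'.hσ
  have h3 : s (gmap (algebraMap ℚ M) h) = gmap (algebraMap ℚ M) h :=
    Units.ext (Matrix.ext fun i j => (G2.σ : Aut M).commutes _)
  have h4 : (adG (aG n β')).1 * s α.1 = α.1 * (adG (aG n β)).1 := by
    show _ * s (F'.f * gmap (algebraMap ℚ M) h * F.f⁻¹) =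
      F'.f * gmap (algebraMap ℚ M) h * F.f⁻¹ * _
    rw [map_mul, map_mul, map_inv, h3, ← mul_assoc, ← mul_assoc, h2, eq_inv_mul_iff_mul_eq.2 h1]
    group
  obtain ⟨k, hk | hk⟩ := aut_sl hn α
  · obtain ⟨z, hz⟩ := norm_of_ad (k := k) hβ hβ' (Subtype.ext (by
      rw [hk] at h4
      rw [Subgroup.coe_mul, Subgroup.coe_mul, adG_map]
      exact h4))
    exact ⟨z, Or.inl hz⟩
  · have e : itr (aG n β) = aG n β⁻¹ := Units.ext (transpose_transpose _)
    obtain ⟨z, hz⟩ := norm_of_ad (k := k) hβ.inv hβ' (by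
      refine mul_right_cancel (b := thL n M) ?_
      rw [mul_assoc (adG k), ← e, ← thL_mul_adG, ← mul_assoc, ← hk, mul_assoc]
      refine Subtype.ext ?_
      rw [Subgroup.coe_mul, Subgroup.coe_mul, Subgroup.coe_mul, ← h4, hk, Subgroup.coe_mul, map_mul,
        adG_map, ← thL_map])
    exact ⟨z, Or.inr hz⟩

omit [G2 M] [OrdM n M] in
theorem gmap_rat {K : Type} [Field K] [CharZero K] (ψ : M →+* K) (x : GL (Ix n) ℚ) :
    GeneralLinearGroup.map ψ (GeneralLinearGroup.map (algebraMap ℚ M) x) =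
      GeneralLinearGroup.map (algebraMap ℚ K) x :=
  Units.ext (Matrix.ext fun i j =>
    DFunLike.congr_fun (RingHom.ext_rat (ψ.comp (algebraMap ℚ M)) (algebraMap ℚ K)) (x.1 i j))

omit [G2 M] [OrdM n M] in
theorem frame_map {K : Type} [Field K] [CharZero K] (ψ : M →+* K) {f : GL (Ix n) M}
    {x : GL (Ix n) ℚ} {u : Gl n M}
    (h : f * GeneralLinearGroup.map (algebraMap ℚ M) x = (adG u).1 * f) :
    GeneralLinearGroup.map ψ f * GeneralLinearGroup.map (algebraMap ℚ K) x =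
      (adG (GeneralLinearGroup.map ψ u)).1 * GeneralLinearGroup.map ψ f := by
  rw [adG_map, ← map_mul, ← h, map_mul, gmap_rat]

omit [OrdM n M] in
theorem iso_map {K : Type} [Field K] [CharZero K] (ψ : M →+* K) (F : RF n β) :
    IsoL (E6.bc (algebraMap ℚ K) F.T) (slT n K) (GeneralLinearGroup.map ψ F.f) := by
  have h := F.iso.map ψ
  rw [bc_slT] at h
  have e : E6.bc ψ (E6.bc (algebraMap ℚ M) F.T) = E6.bc (algebraMap ℚ K) F.T := by
    funext i j k
    exact DFunLike.congr_fun (RingHom.ext_rat (ψ.comp (algebraMap ℚ M)) (algebraMap ℚ K)) _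
  rwa [e] at h

theorem adG_of_rel {K : Type} [Field K] {a W g : Gl n K} {z : K}
    (h : a.1 * W.1 = z • (W.1 * g.1)) : adG W⁻¹ * adG a = adG g * adG W⁻¹ := by
  have h1 : adG (g⁻¹ * W⁻¹ * a * W) = 1 := by
    refine adG_scalar (c := z) ?_
    simp only [Units.val_mul, Matrix.mul_assoc, h, Matrix.mul_smul, Units.inv_mul_cancel_left,
      Units.inv_mul]
  have h2 : W⁻¹ * a = g * (g⁻¹ * W⁻¹ * a * W) * W⁻¹ := by group
  rw [← map_mul, h2, map_mul, map_mul, h1, mul_one]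

omit [OrdM n M] in
theorem full_of_open {p : Nat.Primes} {Ω : Type} [Field Ω] [CharZero Ω] [Algebra ℚ_[p] Ω]
    (m : Spl n (inc ℚ_[p] M β.1) Ω) (F : RF n β) {R : PU n β.1 →* AutL F.T}
    (hR : ∀ g : Un n β.1, F.f * GeneralLinearGroup.map (algebraMap ℚ M)
      (R (QuotientGroup.mk g)).1 = (adG g.1).1 * F.f) {Δ : Subgroup (PU n β.1)}
    (ho : IsOpen ((Δ.map (cmp (Phi n β.1) p)).topologicalClosure : Set (Ul n β.1 p))) :
    ∃ P : GL (Ix n) Ω, Full ((fun γ => (R γ).1.1) '' Δ) P := by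
  let ψ : M →+* Ω := m.ω.toRingHom.comp (inc ℚ_[p] M)
  refine ⟨(adG m.W⁻¹).1 * GeneralLinearGroup.map ψ F.f, fun i j hij => ?_⟩
  rw [← adE_map (algebraMap ℚ_[p] Ω)]
  have hA := m.toModel.adE_mem ho hij
  generalize adE ℚ_[p] i j = A at hA
  induction hA using Submodule.span_induction with
  | mem A hA =>
    obtain ⟨g, ⟨γ, hγ, e⟩, rfl⟩ := hA
    refine Submodule.subset_span ⟨_, ⟨γ, hγ, rfl⟩, ?_⟩
    obtain ⟨u, rfl⟩ := QuotientGroup.mk_surjective γ
    obtain ⟨z, -, hz⟩ := m.rel g (unMap (twHom_inc ℚ_[p]) β.1 u) e.symm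
    have h1 := congrArg Subtype.val (adG_of_rel (a := GeneralLinearGroup.map ψ u.1) (W := m.W)
      (g := GeneralLinearGroup.map (algebraMap ℚ_[p] Ω) g) (z := z) hz)
    rw [Subgroup.coe_mul, Subgroup.coe_mul] at h1
    have h2 : (adG m.W⁻¹).1 * GeneralLinearGroup.map ψ F.f *
        GeneralLinearGroup.map (algebraMap ℚ Ω) (R (QuotientGroup.mk u)).1 *
        ((adG m.W⁻¹).1 * GeneralLinearGroup.map ψ F.f)⁻¹ =
        GeneralLinearGroup.map (algebraMap ℚ_[p] Ω) (adG g).1 := by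
      rw [mul_assoc (adG m.W⁻¹).1, frame_map ψ (hR u), ← mul_assoc, h1, adG_map, mul_assoc _ _
        (GeneralLinearGroup.map ψ F.f), mul_inv_cancel_right]
    exact congrArg Units.val h2
  | zero =>
    rw [Matrix.map_zero _ (map_zero _)]
    exact zero_mem _
  | add A B _ _ hA hB =>
    rw [Matrix.map_add _ (map_add _)]
    exact add_mem hA hB
  | smul c A _ hA =>
    have e : (c • A).map (algebraMap ℚ_[p] Ω) =
        algebraMap ℚ_[p] Ω c • A.map (algebraMap ℚ_[p] Ω) :=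
      Matrix.ext fun _ _ => map_mul (algebraMap ℚ_[p] Ω) _ _
    rw [e]
    exact Submodule.smul_mem _ _ hA

end NCAux

theorem norm_of_comm (hn : 2 ≤ n) (hβ : Par β) (hβ' : Par β') {p : Nat.Primes} {Ω : Type} [Field Ω]
    [Algebra ℚ_[p] Ω] (m : Spl n (inc ℚ_[p] M β.1) Ω) {Γ : Subgroup (PU n β.1)}
    {Γ' : Subgroup (PU n β'.1)}
    (ho : IsOpen ((Γ.map (cmp (Phi n β.1) p)).topologicalClosure : Set (Ul n β.1 p)))
    (h : E6.WideComm (Γ.map (rho n β.1)) (Γ'.map (rho n β'.1))) :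
    ∃ z : M, β'.1 = om (n + 1) z * β.1 ∨ β'.1 = om (n + 1) z * (β⁻¹).1 := by
  have : CharZero Ω := charZero_of_injective_algebraMap (algebraMap ℚ_[p] Ω).injective
  obtain ⟨F⟩ := exists_RF (n := n) hβ
  obtain ⟨F'⟩ := exists_RF (n := n) hβ'
  obtain ⟨R, hR⟩ := F.exists_rat
  obtain ⟨R', hR'⟩ := F'.exists_rat
  obtain ⟨g, hg⟩ := h
  have hi : ((Γ'.map (rho n β'.1)).comap
      ((MulAut.conj g).toMonoidHom.comp (rho n β.1)) ⊓ Γ).relIndex Γ ≠ 0 := by
    rw [Subgroup.inf_relIndex_right, Subgroup.relIndex_comap, ← Subgroup.map_map]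
    exact hg.2
  have ho' := opn_of_relIndex ho (Subgroup.map_mono inf_le_right)
    (by rwa [Subgroup.relIndex_map_map_of_injective _ _ (Phi_inj β.1 p)])
  obtain ⟨P, hP⟩ := NCAux.full_of_open m F hR ho'
  obtain ⟨h₁, hh⟩ := hP.exists_iso (by omega) (T := F.T) (T' := F'.T)
    (h := (GeneralLinearGroup.map G2.φ F'.f)⁻¹ * g.1 * GeneralLinearGroup.map G2.φ F.f)
    (((NCAux.iso_map G2.φ F').inv.mul g.2).mul (NCAux.iso_map G2.φ F)) (by
      rintro _ ⟨γ, ⟨⟨γ', -, e⟩, -⟩, rfl⟩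
      refine ⟨(R' γ').1.1, ?_⟩
      obtain ⟨u, rfl⟩ := QuotientGroup.mk_surjective γ
      obtain ⟨u', rfl⟩ := QuotientGroup.mk_surjective γ'
      have h1 := NCAux.frame_map G2.φ (hR u)
      have h2 := NCAux.frame_map G2.φ (hR' u')
      have h3 : (adG (GeneralLinearGroup.map G2.φ u'.1)).1 =
          g.1 * (adG (GeneralLinearGroup.map G2.φ u.1)).1 * g.1⁻¹ := congrArg Subtype.val e
      have h4 : (GeneralLinearGroup.map G2.φ F'.f)⁻¹ * g.1 * GeneralLinearGroup.map G2.φ F.f *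
          GeneralLinearGroup.map (algebraMap ℚ ℝ) (R (QuotientGroup.mk u)).1 =
          GeneralLinearGroup.map (algebraMap ℚ ℝ) (R' (QuotientGroup.mk u')).1 *
          ((GeneralLinearGroup.map G2.φ F'.f)⁻¹ * g.1 * GeneralLinearGroup.map G2.φ F.f) := by
        rw [mul_assoc, h1, eq_inv_mul_iff_mul_eq.2 h2, h3]
        group
      exact congrArg Units.val h4)
  exact NCAux.norm_of_iso hn hβ hβ' F F' hh

end Pool.Agent.P.MP_3c2f8c_gt.AO
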