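import Pool.Agent.P.MP_3c2f8c_gt.AO.Data
import Pool.Agent.P.MP_3c2f8c_gt.AO.NC
import Pool.Agent.P.MP_3c2f8c_gt.AO.Arith
import Pool.Agent.P.MP_3c2f8c_gt.AO.Cpt
import Pool.Agent.P.MP_3c2f8c_gt.AO.Match
import Pool.Agent.P.MP_3c2f8c_gt.AO.Dens
import Pool.Agent.P.MP_3c2f8c_gt.AO.Hk

/-! The main theorem in type `Aₙ`. -/

namespace Pool.Agent.P.MP_3c2f8c_gt.AO

open Matrix E6 Pool.Agent.Lib.CFT
open scoped TensorProduct

variable {n : ℕ} {M : Type} [Field M] [NumberField M] [G2 M] [OrdM n M]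

theorem adD (hn : 2 ≤ n) {β : Mˣ} (hβ : Par β) (ha : Aniso n β.1) {c : ℝ ⊗[ℚ] M}
    (hc : UN n (inc ℝ M β.1) c) (B : Finset Nat.Primes)
    (hB : ∀ p, p ∉ B → ∃ c, UN n (inc ℚ_[p] M β.1) c) :
    AdD (Phi n β.1) (rho n β.1) (Kst n β.1) {p | Sp M p ∧ p ∉ B} := by
  have h₀ : ∀ p, CO (Kst n β.1 p) := fun _ => co_K0
  have hco := cocpt hn hβ ha hc
  have hd : Dens (Phi n β.1) (Kst n β.1) {p | Sp M p ∧ p ∉ B} :=
    (dens hβ).mono (B.finite_toSet.subset fun p hp => by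
      by_contra h
      exact hp.2 ⟨hp.1, h⟩)
  refine ⟨Phi_mem _, Phi_inj _, rho_inj _, fun K hK => hco.level h₀ hK,
    fun K hK => (proper hβ).level h₀ hK, hd, fun K hK p hp => ?_⟩
  obtain ⟨c, hc⟩ := hB p hp.2
  obtain ⟨Ω, _, _, ⟨m⟩⟩ := exists_spl hp.1 hβ hc
  have hinf := (hco.level h₀ hK).infinite isLie_slT isCartan_thL (thL_ne_one (by omega))
  refine m.toModel.opn_closure (hK.1 p) ?_ ?_ (hd.dense h₀ p fun N hN => m.toModel.small hN) ?_
  · rintro _ ⟨g, hg, rfl⟩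
    exact (mem_Gam _ _ _).1 hg p
  · exact Infinite.of_injective _ (Subgroup.equivMapOfInjective _ _ (Phi_inj β.1 p)).injective
  · rintro _ ⟨g, rfl⟩
    obtain ⟨k, hk, h⟩ := hK.exists_pow (Phi_mem β.1) g
    refine ⟨k, hk, ?_⟩
    rintro _ ⟨γ, hγ, rfl⟩
    exact ⟨_, h γ hγ, by simp only [map_mul, map_pow, map_inv]⟩

theorem reg_of_map {K Ω : Type} [Field K] [Field Ω] (f : K →+* Ω) {x : Mt n K}
    (h : Reg (x.map f)) : Reg x := by
  refine ⟨?_, fun h0 => h.2 ?_⟩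
  · have h1 := h.1
    rwa [Matrix.charpoly_map, Polynomial.separable_map] at h1
  · rw [← AddMonoidHom.map_trace, h0, map_zero]

theorem reg_map {K Ω : Type} [Field K] [Field Ω] (f : K →+* Ω) {x : Mt n K}
    (h : Reg x) : Reg (x.map f) := by
  refine ⟨?_, fun h0 => h.2 ?_⟩
  · rw [Matrix.charpoly_map, Polynomial.separable_map]
    exact h.1
  · rw [← AddMonoidHom.map_trace] at h0
    exact (map_eq_zero f).1 h0

open Polynomial in
theorem reg_conj {K : Type} [Field K] {x y : Mt n K} {W : Gl n K} {z : K} (hz : z ≠ 0)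
    (h : x * W.1 = z • (W.1 * y)) (hy : Reg y) : Reg x := by
  have e : x = W.1 * (z • y) * (W⁻¹).1 := by
    rw [Matrix.mul_smul, ← h, Units.mul_inv_cancel_right]
  refine ⟨?_, ?_⟩
  · have e1 : charmatrix (z • y) =
        C z • (compRingHom (C z⁻¹ * X)).mapMatrix (charmatrix y) := by
      ext1 i j
      by_cases hij : i = j
      · simp [hij, mul_sub, ← mul_assoc, ← map_mul, mul_inv_cancel₀ hz]
      · simp [hij]
    rw [e, Matrix.charpoly_mul_comm, Units.inv_mul_cancel_left, Matrix.charpoly, e1, det_smul,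
      ← RingHom.map_det]
    refine Separable.unit_mul ((isUnit_C.2 hz.isUnit).pow _) ?_
    have h1 := IsCoprime.map hy.1 (compRingHom (C z⁻¹ * X))
    rw [Separable, coe_compRingHom_apply, derivative_comp, derivative_C_mul_X]
    exact (isCoprime_mul_unit_left_right (isUnit_C.2 (inv_ne_zero hz).isUnit) _ _).2 h1
  · rw [e, Matrix.trace_mul_cycle, Units.inv_mul, Matrix.one_mul, Matrix.trace_smul]
    exact mul_ne_zero hz hy.2

theorem main (hn : 2 ≤ n) : CaseA n := by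
  classical
  obtain ⟨M, _, _, _, _, ⟨D⟩⟩ := exists_dat hn
  have hβ : Par (D.b₁ * D.b₂) := D.par₁.mul D.par₂
  have hβ' : Par (D.b₁ * D.b₂⁻¹) := D.par₁.mul D.par₂.inv
  have un : ∀ (k : Type) [Field k] [Algebra ℚ k] {c₁ c₂ : k ⊗[ℚ] M}, UN n (inc k M D.b₁.1) c₁ →
      UN n (inc k M D.b₂.1) c₂ → UN n (inc k M (D.b₁ * D.b₂).1) (c₁ * c₂) ∧
        UN n (inc k M (D.b₁ * D.b₂⁻¹).1) (c₁ * ta c₂) := fun k _ _ c₁ c₂ h₁ h₂ => by
    have h3 := h₂.ta
    rw [← (twHom_inc k).ta, D.par₂.ta_eq] at h3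
    rw [Units.val_mul, Units.val_mul, map_mul, map_mul]
    exact ⟨h₁.mul h₂, h₁.mul h3⟩
  obtain ⟨r₁, hr₁⟩ := D.inf₁
  obtain ⟨r₂, hr₂⟩ := D.inf₂
  have nS : ∀ p, p ∉ D.Bad → p ∉ D.S := fun p hp h => hp (D.sub h)
  have A := adD hn hβ D.an (un ℝ hr₁ hr₂).1 D.Bad fun p hp =>
    ⟨_, (un _ (D.un₁ p (Or.inr hp)) (D.un₂ p (nS p hp))).1⟩
  have A' := adD hn hβ' D.an' (un ℝ hr₁ hr₂).2 D.Bad fun p hp =>
    ⟨_, (un _ (D.un₁ p (Or.inr hp)) (D.un₂ p (nS p hp))).2⟩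
  have li : ∀ (k : Type) [Field k] [Algebra ℚ k] {c : k ⊗[ℚ] M}, UN n (inc k M D.b₂.1) c →
      ∃ L : LI n false (inc k M (D.b₁ * D.b₂).1) (inc k M (D.b₁ * D.b₂⁻¹).1),
        L.c = c ∧ L.W.1 = diagonal fun i => ta (om i.1 (c ^ 2)) := fun k _ _ c h =>
    exists_LI false h.1 (by
      rw [om_pow, h.2, ← map_pow, ← map_mul]
      exact congrArg (inc k M) (by push_cast; field_simp))
  have hL : ∀ p : Nat.Primes, ∃ L : LI n (decide (p ∈ D.S)) (inc ℚ_[p] M (D.b₁ * D.b₂).1)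
      (inc ℚ_[p] M (D.b₁ * D.b₂⁻¹).1),
      om (n + 1) L.c = inc ℚ_[p] M (if p ∈ D.S then D.b₂ * (D.b₁ * D.b₂)⁻¹ else D.b₂).1 ∧
      om (n + 1) L.symm.c =
        inc ℚ_[p] M (if p ∈ D.S then D.b₂⁻¹ * (D.b₁ * D.b₂⁻¹)⁻¹ else D.b₂⁻¹).1 ∧
      (p ∉ D.Bad → Le 1 L.W.1 ∧ ‖L.c‖ ≤ 1) := fun p => by
    by_cases hp : p ∈ D.S
    · have h := (D.un₁ p (Or.inl hp)).ta
      rw [← (twHom_inc ℚ_[p]).ta, D.par₁.ta_eq] at h
      rw [decide_eq_true hp, if_pos hp, if_pos hp]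
      obtain ⟨L, h1, -⟩ := exists_LI (n := n) true (β := inc ℚ_[p] M (D.b₁ * D.b₂).1)
        (β' := inc ℚ_[p] M (D.b₁ * D.b₂⁻¹).1) h.1 (by
          show ta _ = _
          rw [om_pow, h.2, ← map_pow, ← map_mul, ← (twHom_inc ℚ_[p]).ta, hβ.ta_eq]
          exact congrArg (inc ℚ_[p] M) (by push_cast; field_simp))
      refine ⟨L, ?_, ?_, fun h' => absurd (D.sub hp) h'⟩
      · rw [h1, h.2]
        exact congrArg (inc ℚ_[p] M) (by push_cast; field_simp)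
      · show om (n + 1) (ta (ta L.c)) = _
        rw [Tw.tata, h1, h.2]
        exact congrArg (inc ℚ_[p] M) (by push_cast; field_simp)
    · rw [decide_eq_false hp, if_neg hp, if_neg hp]
      obtain ⟨L, h1, h2⟩ := li _ (D.un₂ p hp)
      have h := (D.un₂ p hp).ta
      rw [← (twHom_inc ℚ_[p]).ta, D.par₂.ta_eq] at h
      refine ⟨L, by rw [h1, (D.un₂ p hp).2], ?_, fun h' => ?_⟩
      · show om (n + 1) (ta L.c) = _
        rw [h1, h.2]
      · have h3 : ‖D.c₂ p‖ ≤ 1 := norm_le_one_iff.2 (D.int₂ p h')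
        refine ⟨fun i j => ?_, h1 ▸ h3⟩
        rw [h2, Matrix.diagonal_apply]
        split_ifs
        · rw [NTw.ta]
          exact norm_om_le (norm_le_one_iff.2 ((D.int₂ p h').pow 2)) _
        · rw [norm_zero]
          exact zero_le_one
  choose L hL₁ hL₂ hL₃ using hL
  obtain ⟨L', hL', -⟩ := li ℝ hr₂
  have hi : {p | ¬ (Le 1 (L p).W.1 ∧ ‖(L p).c‖ ≤ 1)}.Finite :=
    D.Bad.finite_toSet.subset fun p hp => by
      by_contra h
      exact hp (hL₃ p h)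
  have hi' : {p | ¬ (Le 1 (L p).symm.W.1 ∧ ‖(L p).symm.c‖ ≤ 1)}.Finite :=
    hi.subset fun p hp h => hp ⟨fun i j => by
      show ‖tf _ (((L p).W⁻¹).1 i j)‖ ≤ 1
      rw [norm_tf, (L p).inv_val]
      exact h.1.st i j, by
      show ‖tf _ (ta (L p).c)‖ ≤ 1
      rw [norm_tf, NTw.ta]
      exact h.2⟩
  have he : {p | (Kst n (D.b₁ * D.b₂⁻¹).1 p).comap (L p).equiv.toMulEquiv.toMonoidHom ≠
      Kst n (D.b₁ * D.b₂).1 p}.Finite := hi.subset fun p hp h => hp ((L p).comap_K0 h.1)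
  have m₁ : AdMatch (Ex.along (fun p => (L p).equiv) (Phi n (D.b₁ * D.b₂).1))
      (Phi n (D.b₁ * D.b₂⁻¹).1) (rho n _) (rho n _) (Kst n _) (Ex.eps D.S) RegP :=
    ⟨mat hn hβ hβ' (δ := D.b₂) D.an' D.S L hL₁ hi L' (hL' ▸ hr₂.2),
      fun γ₁ γ₂ h h' => lg hβ D.an γ₁ γ₂ h fun p => by
        have h2 := (L p).equiv.symm.toMulEquiv.toMonoidHom.map_isConj (h' p)
        have e : ∀ γ, (L p).equiv.symm.toMulEquiv.toMonoidHom
          (Ex.along (fun p => (L p).equiv) (Phi n (D.b₁ * D.b₂).1) γ p) = Phi n _ γ p :=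
          fun γ => (L p).equiv.symm_apply_apply _
        rwa [e, e] at h2⟩
  have m₂ : AdMatch (Ex.along (fun p => (L p).equiv.symm) (Phi n (D.b₁ * D.b₂⁻¹).1))
      (Phi n (D.b₁ * D.b₂).1) (rho n _) (rho n _) (Kst n _) (Ex.eps D.S) RegP := by
    simp only [LI.equiv_symm]
    have h3 := hr₂.ta
    rw [← (twHom_inc ℝ).ta, D.par₂.ta_eq, ← hL'] at h3
    exact ⟨mat hn hβ' hβ (δ := D.b₂⁻¹) D.an D.S (fun p => (L p).symm) hL₂ hi' L'.symm h3.2,
      fun γ₁ γ₂ h h' => lg hβ' D.an' γ₁ γ₂ h fun p => by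
        have h2 := (L p).symm.equiv.symm.toMulEquiv.toMonoidHom.map_isConj (h' p)
        have e : ∀ γ, (L p).symm.equiv.symm.toMulEquiv.toMonoidHom
          (Ex.along (fun p => (L p).symm.equiv) (Phi n (D.b₁ * D.b₂⁻¹).1) γ p) = Phi n _ γ p :=
          fun γ => (L p).symm.equiv.symm_apply_apply _
        rwa [e, e] at h2⟩
  have spl : ∀ p, Sp M p ∧ p ∉ D.Bad → ∃ (Ω : Type) (_ : Field Ω) (_ : Algebra ℚ_[p] Ω),
      Nonempty (Spl n (inc ℚ_[p] M (D.b₁ * D.b₂⁻¹).1) Ω) := fun p hp =>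
    exists_spl hp.1 hβ' (un _ (D.un₁ p (Or.inr hp.2)) (D.un₂ p (nS p hp.2))).2
  obtain ⟨l, hl, q, hq, hlq⟩ := ((infinite_sp M).sdiff D.Bad.finite_toSet).nontrivial
  obtain ⟨Ω, _, _, ⟨m⟩⟩ := spl l hl
  have hreg : ∀ u : Un n (inc ℚ_[l] M (D.b₁ * D.b₂⁻¹).1),
      (∃ g, m.π g = QuotientGroup.mk u ∧ Reg g.1) → Reg (u.1.1.map m.ω) := by
    rintro u ⟨g, hg, hg'⟩
    obtain ⟨z, hz, h⟩ := m.rel g u hg
    exact reg_conj hz h (reg_map _ hg')
  obtain ⟨K, hK, t₁, t₂, iso⟩ := exists_isospectral isLie_slT isCartan_thL (A.along he) A'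
    (fun _ => co_K0) (fun p hp => by
      obtain ⟨Ω, _, _, ⟨m⟩⟩ := spl p hp
      exact m.toModel.goodLev) hlq.symm hq m.toModel.hecke (ε := Ex.eps D.S)
    (fun p => by unfold Ex.eps; split_ifs <;> simp)
    (D.S.finite_toSet.subset fun p hp => by
      by_contra h
      exact hp (if_neg h)) (if_neg (nS l hl.2)) (Rg := RegP) (Rg' := RegP)
    (fun γ hγ => by
      induction γ using QuotientGroup.induction_on with
      | H γ =>
        have h1 := hreg ((L l).un (unMap (twHom_inc ℚ_[l]) _ γ)) hγ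
        refine ⟨γ, rfl, reg_of_map ((m.ω.toRingHom.comp (tf (decide (l ∈ D.S))).toRingHom).comp
          (inc ℚ_[l] M)) (reg_conj (W := GeneralLinearGroup.map m.ω.toRingHom (L l).W)
            one_ne_zero ?_ h1)⟩
        show _ * (L l).W.1.map m.ω = _ • ((L l).W.1.map m.ω * _)
        rw [one_smul, ← Matrix.map_mul, LI.un_val, Matrix.mul_assoc, Units.mul_inv_cancel_left,
          Matrix.map_mul]
        rfl)
    (fun γ hγ => by
      induction γ using QuotientGroup.induction_on with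
      | H γ => exact ⟨γ, rfl, reg_of_map (m.ω.toRingHom.comp (inc ℚ_[l] M))
          (hreg (unMap (twHom_inc ℚ_[l]) _ γ) hγ)⟩) m₁ (m₂.along he)
  have hK' := Ex.Level.comap he hK
  rw [Ex.gam_along] at t₁ iso
  have h₀ : Level (Kst n (D.b₁ * D.b₂).1) (Kst n _) := ⟨fun _ => co_K0, by simp⟩
  have h₀' : Level (Kst n (D.b₁ * D.b₂⁻¹).1) (Kst n _) := ⟨fun _ => co_K0, by simp⟩
  refine ⟨thL n ℝ, emb_thL, isCartan_thL, _, _,
    ⟨(A.proper _ hK').discrete, t₁, (A.cocpt _ hK').cocompact isCartan_thL, ?_⟩,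
    ⟨(A'.proper _ hK).discrete, t₂, (A'.cocpt _ hK).cocompact isCartan_thL, ?_⟩,
    arith hn hβ (A.cocpt _ h₀) hK', arith hn hβ' (A'.cocpt _ h₀') hK, iso, fun hc => ?_⟩
  · rintro _ ⟨g, -, rfl⟩
    exact rho_inn _ g
  · rintro _ ⟨g, -, rfl⟩
    exact rho_inn _ g
  · obtain ⟨Ω, _, _, ⟨m⟩⟩ := exists_spl hl.1 hβ
      (un _ (D.un₁ l (Or.inr hl.2)) (D.un₂ l (nS l hl.2))).1
    obtain ⟨z, h | h⟩ := norm_of_comm hn hβ hβ' m (A.opn _ hK' l hl) hc
    · have h1 : om (n + 1) z * D.b₂.1 ^ 2 = 1 := by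
        push_cast at h
        field_simp at h
        linear_combination -h
      have hz : z ≠ 0 := fun h0 => by
        rw [h0, om_succ', zero_mul, zero_mul] at h1
        exact zero_ne_one h1
      refine D.nn₂ z⁻¹ ?_
      have h2 : om (n + 1) z * om (n + 1) z⁻¹ = 1 := by
        rw [← om_mul, mul_inv_cancel₀ hz, om_one]
      linear_combination D.b₂.1 ^ 2 * h2 - om (n + 1) z⁻¹ * h1
    · refine D.nn₁ z ?_
      push_cast at h
      field_simp at h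
      linear_combination -h

end Pool.Agent.P.MP_3c2f8c_gt.AO
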