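import Pool.Agent.P.MP_3c2f8c_gt.AO.SDefsC
import Pool.Agent.P.MP_3c2f8c_gt.AO.Main

/-! The main theorem in type `Aₙ` for the definitions of `SDefs`, which unfold to those of `Defs`. -/

namespace Pool.Agent.P.MP_3c2f8c_gt.SA

theorem mainC {n : ℕ} (hn : 2 ≤ n) : CaseA n := by
  obtain ⟨θ, h1, -, h⟩ := AO.main hn
  exact ⟨θ, h1, h⟩

end Pool.Agent.P.MP_3c2f8c_gt.SA
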