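import Pool.Agent.P.MP_3c2f8c_gt.AO.Div

/-! Extraction of coefficients from points over an extension of the rationals. -/

namespace Pool.Agent.P.MP_3c2f8c_gt.AO

open Matrix Pool.Agent.Lib.CFT
open scoped TensorProduct

variable {M : Type} [Field M] [NumberField M] {k : Type} [Field k] [Algebra ℚ k]

variable (M) in
/-- The coefficient map given by a rational linear form. -/
noncomputable def cf (l : k →ₗ[ℚ] ℚ) : k ⊗[ℚ] M →ₗ[ℚ] M :=
  (TensorProduct.lid ℚ M).toLinearMap ∘ₗ l.rTensor M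

theorem cf_tmul (l : k →ₗ[ℚ] ℚ) (a : k) (x : M) : cf M l (a ⊗ₜ x) = l a • x := rfl

theorem cf_mul_inc (l : k →ₗ[ℚ] ℚ) (y : k ⊗[ℚ] M) (x : M) :
    cf M l (y * inc k M x) = cf M l y * x := by
  induction y using TensorProduct.induction_on with
  | zero => simp only [zero_mul, map_zero]
  | tmul a z =>
    have e : (a ⊗ₜ[ℚ] z) * inc k M x = a ⊗ₜ[ℚ] (z * x) :=
      (Algebra.TensorProduct.tmul_mul_tmul a 1 z x).trans (by rw [mul_one])
    rw [e, cf_tmul, cf_tmul, smul_mul_assoc]
  | add y y' h h' => simp only [add_mul, map_add, h, h']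

theorem cf_lact (l : k →ₗ[ℚ] ℚ) (s : Aut M) (y : k ⊗[ℚ] M) :
    cf M l (lact k s y) = s (cf M l y) := by
  induction y using TensorProduct.induction_on with
  | zero => simp only [map_zero]
  | tmul a z => rw [lact_tmul, cf_tmul, cf_tmul, map_rat_smul]
  | add y y' h h' => simp only [map_add, h, h']

theorem Coef_sum {I : Type} (b : Module.Basis I ℚ k) (z : k ⊗[ℚ] M) : ∃ s : Finset I,
    ∀ t : Finset I, s ⊆ t → z = ∑ i ∈ t, b i • inc k M (cf M (b.coord i) z) := by
  classical
  induction z using TensorProduct.induction_on with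
  | zero => exact ⟨∅, fun t _ => by simp only [map_zero, smul_zero, Finset.sum_const_zero]⟩
  | tmul a x =>
    refine ⟨(b.repr a).support, fun t ht => ?_⟩
    have h1 : a = ∑ i ∈ t, b.repr a i • b i := by
      conv_lhs => rw [← b.linearCombination_repr a]
      exact Finsupp.sum_of_support_subset (b.repr a) ht (fun i c => c • b i)
        fun i _ => zero_smul _ _
    conv_lhs => rw [h1, TensorProduct.sum_tmul]
    refine Finset.sum_congr rfl fun i _ => ?_
    rw [cf_tmul, TensorProduct.smul_tmul]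
    change _ = b i • ((1 : k) ⊗ₜ[ℚ] (b.repr a i • x))
    rw [TensorProduct.smul_tmul', smul_eq_mul, mul_one]
  | add y y' h h' =>
    obtain ⟨s, hs⟩ := h
    obtain ⟨s', hs'⟩ := h'
    refine ⟨s ∪ s', fun t ht => ?_⟩
    simp only [map_add, smul_add, Finset.sum_add_distrib]
    rw [← hs t (Finset.subset_union_left.trans ht), ← hs' t (Finset.subset_union_right.trans ht)]

/-- A matrix is a combination of its coefficients. -/
theorem mem_span_cf {ι κ : Type} [Fintype ι] [Fintype κ] (y : Matrix ι κ (k ⊗[ℚ] M)) :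
    y ∈ Submodule.span k (Set.range fun l : k →ₗ[ℚ] ℚ => (y.map (cf M l)).map (inc k M)) := by
  classical
  let b := Module.Basis.ofVectorSpace ℚ k
  choose s hs using fun ij : ι × κ => Coef_sum b (y ij.1 ij.2)
  have h : y = ∑ i ∈ Finset.univ.biUnion s, b i • (y.map (cf M (b.coord i))).map (inc k M) := by
    ext i j
    rw [Matrix.sum_apply]
    exact hs (i, j) _ (Finset.subset_biUnion_of_mem s (Finset.mem_univ _))
  have h' : ∑ i ∈ Finset.univ.biUnion s, b i • (y.map (cf M (b.coord i))).map (inc k M) ∈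
      Submodule.span k (Set.range fun l : k →ₗ[ℚ] ℚ => (y.map (cf M l)).map (inc k M)) :=
    Submodule.sum_mem _ fun i _ => Submodule.smul_mem _ _ (Submodule.subset_span ⟨_, rfl⟩)
  rwa [← h] at h'

theorem map_cf_mul {ι : Type} [Fintype ι] (l : k →ₗ[ℚ] ℚ) (y : Matrix ι ι (k ⊗[ℚ] M))
    (x : Matrix ι ι M) : (y * x.map (inc k M)).map (cf M l) = y.map (cf M l) * x := by
  ext i j
  simp only [Matrix.map_apply, Matrix.mul_apply, map_sum, cf_mul_inc]

theorem map_cf_mul' {ι : Type} [Fintype ι] (l : k →ₗ[ℚ] ℚ) (y : Matrix ι ι (k ⊗[ℚ] M))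
    (x : Matrix ι ι M) : (x.map (inc k M) * y).map (cf M l) = x * y.map (cf M l) := by
  ext i j
  simp only [Matrix.map_apply, Matrix.mul_apply, map_sum]
  exact Finset.sum_congr rfl fun m _ => by rw [mul_comm, cf_mul_inc, mul_comm]

theorem cf_mem_Dal [G2 M] {n : ℕ} {β : M} (l : k →ₗ[ℚ] ℚ) {y : Mt n (k ⊗[ℚ] M)}
    (h : y ∈ Dal n (inc k M β)) : y.map (cf M l) ∈ Dal n β := by
  have e := congrArg (fun z : Mt n (k ⊗[ℚ] M) => z.map (cf M l)) (mem_Dal.1 h)
  simp only [← cm_map, map_cf_mul, map_cf_mul'] at e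
  rw [mem_Dal, e]
  congr 1
  ext i j
  exact cf_lact l G2.σ (y i j)

end Pool.Agent.P.MP_3c2f8c_gt.AO
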