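import Pool.Agent.P.MP_3c2f8c_gt.AO.Alg
import Pool.Agent.Lib.CFT.Main

/-! The real abelian field with group `ℤ / (n + 1) × ℤ / 2` and its inert primes. -/

namespace Pool.Agent.P.MP_3c2f8c_gt.AO.DataAux

open Pool.Agent.Lib.CFT Pool.Agent.P.MP_9ec3f0_nt.SY NumberField IsDedekindDomain
open IsCyclotomicExtension.Rat

section Cyc

variable {N : ℕ} [NeZero N] {F : Type} [Field F] [NumberField F] [IsCyclotomicExtension {N} ℚ F]

variable (F) in
/-- The automorphism `ζ ↦ ζ ^ a`. -/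
noncomputable def aut (a : ℕ) (h : a.Coprime N) : Aut F :=
  (galEquivZMod N F).symm (ZMod.unitOfCoprime a h)

theorem aut_apply (a : ℕ) (h : a.Coprime N) {x : F} (hx : x ^ N = 1) : aut F a h x = x ^ a := by
  rw [galEquivZMod_apply_of_pow_eq N F _ hx, aut, MulEquiv.apply_symm_apply,
    ZMod.coe_unitOfCoprime, ZMod.val_natCast, ← pow_eq_pow_mod _ hx]

open scoped Pointwise in
theorem aut_fixes {p : ℕ} [Fact p.Prime] (h : p.Coprime N) {W : Pr F} (hW : Ab p W) :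
    cj (aut F p h) W = W := by
  have := W.isMaximal
  have : W.asIdeal.LiesOver (Ideal.span {(p : ℤ)}) :=
    (Ideal.liesOver_span_iff W.isPrime.ne_top (Nat.prime_iff_prime_int.1 Fact.out)).2
      (by rw [map_natCast]; exact hW)
  have h1 := galEquivZMod_stabilizer N F p W.asIdeal h
  have h2 : ZMod.unitOfCoprime p h ∈ (galEquivZMod N F).mapSubgroup
      (MulAction.stabilizer (Aut F) W.asIdeal) := by
    rw [h1]; exact Subgroup.mem_zpowers _
  obtain ⟨s, hs, e⟩ := h2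
  have e' : aut F p h = s := by
    rw [aut, ← e]
    exact (galEquivZMod N F).symm_apply_apply s
  rw [e']
  refine HeightOneSpectrum.ext ?_
  rw [ExtAux.cj_asIdeal]
  exact hs

variable (N F) in
theorem exists_conj : ∃ (ψ : F →+* ℂ) (c : Aut F), galEquivZMod N F c = -1 ∧
    ∀ x, ψ (c x) = starRingEnd ℂ (ψ x) := by
  have := IsCyclotomicExtension.isGalois {N} ℚ F
  obtain ⟨ψ⟩ : Nonempty (F →+* ℂ) := inferInstance
  obtain ⟨s, hs⟩ := ComplexEmbedding.exists_comp_symm_eq_of_comp_eq (k := ℚ) ψ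
    (ComplexEmbedding.conjugate ψ) (RingHom.ext_rat _ _)
  have hc : ∀ x, ψ (s.symm x) = starRingEnd ℂ (ψ x) := fun x => DFunLike.congr_fun hs x
  refine ⟨ψ, s.symm, ?_, hc⟩
  have hζ := IsCyclotomicExtension.zeta_spec N ℚ F
  have h1 := galEquivZMod_apply_of_pow_eq N F s.symm hζ.pow_eq_one
  have h2 : s.symm (IsCyclotomicExtension.zeta N ℚ F) * IsCyclotomicExtension.zeta N ℚ F = 1 := by
    refine ψ.injective ?_
    rw [map_mul, hc, map_one, Complex.conj_mul',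
      (hζ.map_of_injective ψ.injective).norm'_eq_one (NeZero.ne N)]
    simp
  rw [h1, ← pow_succ, hζ.pow_eq_one_iff_dvd, ← ZMod.natCast_eq_zero_iff, Nat.cast_succ,
    ZMod.natCast_zmod_val] at h2
  exact Units.ext (eq_neg_of_add_eq_zero_left h2)

end Cyc

theorem fixes_dn {E F : Type} [Field E] [NumberField E] [Field F] [NumberField F] [Algebra E F]
    {s : Aut F} {t : Aut E} (h : ∀ x, s (algebraMap E F x) = algebraMap E F (t x)) {W : Pr F}
    (hW : cj s W = W) : cj t (dn E W) = dn E W := by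
  refine HeightOneSpectrum.eq_of_valuation_isEquiv_valuation (K := E) ?_
  rw [Valuation.isEquiv_iff_val_lt_one]
  intro x
  obtain ⟨y, rfl⟩ := t.surjective x
  rw [val_cj, ← val_algebraMap_lt_one_iff, ← val_algebraMap_lt_one_iff, ← h,
    (fixes_iff s W).1 hW]

theorem exists_crt {l : ℕ} [Fact l.Prime] (hl : l ≠ 2) (u : ℕ) (hu : u.Coprime 8)
    (g : (ZMod l)ˣ) : ∃ a : ℕ, a.Coprime (8 * l) ∧ a ≡ u [MOD 8] ∧ (a : ZMod l) = g := by
  have hc : Nat.Coprime 8 l := ((Nat.coprime_primes Nat.prime_two Fact.out).2 hl.symm).pow_left 3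
  obtain ⟨a, h1, h2⟩ := Nat.chineseRemainder hc u g.1.val
  have h3 : (a : ZMod l) = g := by
    rw [(ZMod.natCast_eq_natCast_iff _ _ _).2 h2, ZMod.natCast_zmod_val]
  refine ⟨a, Nat.Coprime.mul_right ?_ ?_, h1, h3⟩
  · rw [Nat.Coprime, h1.gcd_eq]; exact hu
  · exact (ZMod.isUnit_iff_coprime a l).1 (h3 ▸ g.isUnit)

/-- A group theoretic description of the data in the cyclotomic field. -/
theorem exists_big (n : ℕ) : ∃ (F : Type) (_ : Field F) (_ : NumberField F) (_ : IsGalois ℚ F)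
    (H : Subgroup (Aut F)) (σ τ c : Aut F) (r : F) (ψ : F →+* ℂ),
    (∀ s t : Aut F, s * t = t * s) ∧ r ^ 2 = 2 ∧ (∀ s ∈ H, s r = r) ∧ σ r = r ∧ τ r = -r ∧
    τ * τ ∈ H ∧ (∀ k : ℕ, σ ^ k ∈ H ↔ n + 1 ∣ k) ∧
    (∀ s : Aut F, ∃ i : ℕ, (σ ^ i)⁻¹ * s ∈ H ∨ (σ ^ i * τ)⁻¹ * s ∈ H) ∧ c ∈ H ∧
    (∀ x, ψ (c x) = starRingEnd ℂ (ψ x)) ∧
    ∀ B : ℕ, ∃ p : Nat.Primes, B < p.1 ∧ p.1 % 8 = 1 ∧ ∃ W : Pr F, Ab p.1 W ∧ cj σ W = W := by
  obtain ⟨l, hl, hl2, hl1⟩ := Nat.exists_prime_gt_modEq_one (k := 2 * (n + 1)) 2 (by omega)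
  have := Fact.mk hl
  obtain ⟨k, hk⟩ := (Nat.modEq_iff_dvd' hl.one_lt.le).1 hl1.symm
  have hk0 : k ≠ 0 := by rintro rfl; omega
  have : NeZero (8 * l) := ⟨by omega⟩
  obtain ⟨F, _, _, _⟩ : ∃ (F : Type) (_ : Field F) (_ : NumberField F),
      IsCyclotomicExtension {8 * l} ℚ F := ⟨CyclotomicField (8 * l) ℚ, inferInstance,
    inferInstance, CyclotomicField.isCyclotomicExtension (8 * l) ℚ⟩
  let e := galEquivZMod (8 * l) F
  obtain ⟨g, hg⟩ := IsCyclic.exists_generator (α := (ZMod l)ˣ)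
  have hog : orderOf g = (n + 1) * (2 * k) := by
    rw [orderOf_eq_card_of_forall_mem_zpowers hg, Nat.card_eq_fintype_card, ZMod.card_units, hk]
    ring
  let χ : Aut F →* (ZMod l)ˣ := (powMonoidHom (2 * k)).comp
    ((ZMod.unitsMap (dvd_mul_left l 8)).comp e.toMonoidHom)
  have hχ : ∀ (a : ℕ) (h : a.Coprime (8 * l)) (u : (ZMod l)ˣ), (a : ZMod l) = u →
      χ (aut F a h) = u ^ (2 * k) := fun a h u hu => by
    change (ZMod.unitsMap (dvd_mul_left l 8) (e (e.symm (ZMod.unitOfCoprime a h)))) ^ (2 * k) = _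
    rw [MulEquiv.apply_symm_apply]
    congr 1
    refine Units.ext ?_
    rw [ZMod.unitsMap_val, ZMod.coe_unitOfCoprime, ZMod.cast_natCast (dvd_mul_left l 8), hu]
  have hζ := IsCyclotomicExtension.zeta_spec (8 * l) ℚ F
  have hω : IsPrimitiveRoot (IsCyclotomicExtension.zeta (8 * l) ℚ F ^ l) 8 :=
    hζ.pow (NeZero.pos _) (mul_comm _ _)
  generalize IsCyclotomicExtension.zeta (8 * l) ℚ F ^ l = ω at hω
  have h8 : ω ^ 8 = 1 := hω.pow_eq_one
  have h4 : ω ^ 4 = -1 := (hω.pow (by norm_num) (show 8 = 4 * 2 by norm_num)).eq_neg_one_of_two_right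
  have hN : ω ^ (8 * l) = 1 := by rw [pow_mul, h8, one_pow]
  have hω' : ∀ (a : ℕ) (h : a.Coprime (8 * l)) (u : ℕ), a ≡ u [MOD 8] → aut F a h ω = ω ^ u :=
    fun a h u hu => by rw [aut_apply a h hN, pow_eq_pow_mod a h8, hu, ← pow_eq_pow_mod u h8]
  obtain ⟨a, ha, ha1, ha2⟩ := exists_crt hl2.ne' 1 (by norm_num) g
  obtain ⟨b, hb, hb1, hb2⟩ := exists_crt hl2.ne' 3 (by norm_num) (1 : (ZMod l)ˣ)
  obtain ⟨ψ, c, hc, hψ⟩ := exists_conj (8 * l) F
  have hr : (ω + ω ^ 7) ^ 2 = 2 := by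
    linear_combination (ω ^ 10 - ω ^ 6 + 2 * ω ^ 4 + ω ^ 2 - 2) * h4
  have hσr : aut F a ha (ω + ω ^ 7) = ω + ω ^ 7 := by
    rw [map_add, map_pow, hω' a ha 1 ha1, pow_one]
  have hτr : aut F b hb (ω + ω ^ 7) = -(ω + ω ^ 7) := by
    rw [map_add, map_pow, hω' b hb 3 hb1]
    linear_combination (ω ^ 17 - ω ^ 13 + ω ^ 9 - ω ^ 5 + ω ^ 3 + ω) * h4
  have hχσ := hχ a ha g ha2
  have hχτ : χ (aut F b hb) = 1 := by rw [hχ b hb 1 hb2, one_pow]
  have hσi : ∀ i : ℕ, (aut F a ha ^ i) (ω + ω ^ 7) = ω + ω ^ 7 := fun i =>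
    pow_mem (show aut F a ha ∈ MulAction.stabilizer (Aut F) (ω + ω ^ 7) from hσr) i
  refine ⟨F, inferInstance, inferInstance, IsCyclotomicExtension.isGalois {8 * l} ℚ F,
    χ.ker ⊓ MulAction.stabilizer (Aut F) (ω + ω ^ 7), aut F a ha, aut F b hb, c, ω + ω ^ 7, ψ,
    fun s t => e.injective (by rw [map_mul, map_mul, mul_comm (e s)]), hr, fun s hs => hs.2, hσr, hτr,
    ⟨?_, ?_⟩, fun i => ⟨fun h => ?_, fun h => ⟨?_, hσi i⟩⟩, fun s => ?_, ⟨?_, ?_⟩, hψ,
    fun B => ?_⟩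
  · change χ _ = 1
    rw [map_mul, hχτ, mul_one]
  · change aut F b hb (aut F b hb _) = _
    rw [hτr, map_neg, hτr, neg_neg]
  · have h1 : χ (aut F a ha ^ i) = 1 := h.1
    rw [map_pow, hχσ, ← pow_mul, ← orderOf_dvd_iff_pow_eq_one, hog, mul_comm (2 * k)] at h1
    exact Nat.dvd_of_mul_dvd_mul_right (by omega) h1
  · change χ _ = 1
    rw [map_pow, hχσ, ← pow_mul, ← orderOf_dvd_iff_pow_eq_one, hog, mul_comm (2 * k) i]
    exact Nat.mul_dvd_mul_right h _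
  · obtain ⟨i, hi⟩ := mem_powers_iff_mem_zpowers.2
      (hg (ZMod.unitsMap (dvd_mul_left l 8) (e s)))
    have h1 : χ s = χ (aut F a ha ^ i) := by
      rw [map_pow, hχσ, pow_right_comm]
      exact congrArg (· ^ (2 * k)) hi.symm
    have h2 : s (ω + ω ^ 7) ^ 2 = (ω + ω ^ 7) ^ 2 := by rw [← map_pow, hr, map_ofNat]
    refine ⟨i, (sq_eq_sq_iff_eq_or_eq_neg.1 h2).imp (fun h => ⟨?_, ?_⟩) fun h => ⟨?_, ?_⟩⟩
    · change χ _ = 1
      rw [map_mul, map_inv, h1, inv_mul_cancel]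
    · change (aut F a ha ^ i).symm (s _) = _
      rw [AlgEquiv.symm_apply_eq, h, hσi]
    · change χ _ = 1
      rw [map_mul, map_inv, map_mul, hχτ, mul_one, h1, inv_mul_cancel]
    · change (aut F a ha ^ i * aut F b hb).symm (s _) = _
      rw [AlgEquiv.symm_apply_eq, h, AlgEquiv.mul_apply, hτr, map_neg, hσi]
  · change (ZMod.unitsMap (dvd_mul_left l 8) (e c)) ^ (2 * k) = 1
    rw [← map_pow, show e c = -1 from hc, pow_mul, neg_one_sq, one_pow, map_one]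
  · have h1 : c ω * ω = 1 := by
      refine ψ.injective ?_
      rw [map_mul, hψ, map_one, Complex.conj_mul',
        (hω.map_of_injective ψ.injective).norm'_eq_one (by norm_num)]
      simp
    have h2 : c ω = ω ^ 7 := by linear_combination ω ^ 7 * h1 - c ω * h8
    change c _ = _
    rw [map_add, map_pow, h2]
    linear_combination (ω ^ 41 + ω ^ 33 + ω ^ 25 + ω ^ 17 + ω ^ 9 + ω) * h8
  · obtain ⟨p, hB, hp, hpa⟩ := Nat.forall_exists_prime_gt_and_modEq B (NeZero.ne (8 * l)) ha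
    have := Fact.mk hp
    have hp' : p.Coprime (8 * l) := by rw [Nat.Coprime, hpa.gcd_eq]; exact ha
    obtain ⟨W, hW⟩ := exists_Ab' p F
    have e1 : aut F a ha = aut F p hp' := congrArg e.symm (Units.ext (by
      rw [ZMod.coe_unitOfCoprime, ZMod.coe_unitOfCoprime]
      exact (ZMod.natCast_eq_natCast_iff _ _ _).2 hpa.symm))
    exact ⟨⟨p, hp⟩, hB, (hpa.of_mul_right l).trans ha1, W, hW, e1 ▸ aut_fixes hp' hW⟩

theorem exists_field (n : ℕ) : ∃ (M : Type) (_ : Field M) (_ : NumberField M) (_ : G2 M)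
    (_ : OrdM n M), G2.m M = 2 ∧ ∀ B : ℕ, ∃ p : Nat.Primes, B < p.1 ∧ p.1 % 8 = 1 ∧
      ∃ w : Pr M, Ab p.1 w ∧ cj G2.σ w = w := by
  obtain ⟨F, _, _, _, H, σ, τ, c, r, ψ, hc, hr, hH, hσ, hτ, hττ, hord, hgen, hcH, hψ, hp⟩ :=
    exists_big n
  obtain ⟨M, _, _, _, hM⟩ := exists_fix H
  have := Rec3Aux.isGalois_of_isFix
    ⟨fun s hs g => by rw [hc g s, mul_inv_cancel_right]; exact hs⟩ hM
  obtain ⟨ρ, hs, hρ, hk⟩ := Rec3Aux.exists_res (E := M) (L := F)
  have hker : ∀ s, ρ s = 1 ↔ s ∈ H := fun s => (hk.mem_iff s).trans (hM.mem_iff s).symm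
  obtain ⟨r, rfl⟩ := (hM r).1 hH
  have hreal : ComplexEmbedding.IsReal (ψ.comp (algebraMap M F)) :=
    ComplexEmbedding.isReal_iff.2 (RingHom.ext fun x => by
      change starRingEnd ℂ (ψ (algebraMap M F x)) = ψ (algebraMap M F x)
      rw [← hψ, (hM.mem_iff c).1 hcH])
  have hr' : r ^ 2 = ((2 : ℤ) : M) := (algebraMap M F).injective (by
    rw [map_pow, hr, map_intCast]; norm_num)
  let G : G2 M :=
    { σ := ρ σ
      τ := ρ τ
      comm := by rw [← map_mul, hc, map_mul]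
      ττ := by rw [← map_mul, hker]; exact hττ
      gen := fun s => by
        obtain ⟨s, rfl⟩ := hs s
        obtain ⟨i, hi⟩ := hgen s
        refine ⟨i, hi.imp (fun h => ?_) fun h => ?_⟩
        · rw [← hker, map_mul, map_inv, inv_mul_eq_one, map_pow] at h
          exact h.symm
        · rw [← hker, map_mul, map_inv, inv_mul_eq_one, map_mul, map_pow] at h
          exact h.symm
      gal := this
      m := 2
      r := r
      rr := hr'
      r0 := fun e => by rw [e] at hr'; norm_num at hr'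
      σr := (algebraMap M F).injective (by rw [← hρ, hσ])
      τr := (algebraMap M F).injective (by rw [← hρ, hτ, map_neg])
      φ := hreal.embedding }
  have hO : OrdM n M := ⟨Nat.dvd_antisymm
    (orderOf_dvd_of_pow_eq_one (by
      change ρ σ ^ (n + 1) = 1
      rw [← map_pow, hker, hord]))
    ((hord _).1 ((hker _).1 (by rw [map_pow]; exact pow_orderOf_eq_one _)))⟩
  refine ⟨M, inferInstance, inferInstance, G, hO, rfl, fun B => ?_⟩
  obtain ⟨p, h1, h2, W, hW, hσW⟩ := hp B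
  exact ⟨p, h1, h2, dn M W, (ab_dn W).2 hW, fixes_dn (hρ σ) hσW⟩

end Pool.Agent.P.MP_3c2f8c_gt.AO.DataAux
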