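import Pool.Agent.Lib.CFT.Main

/-! Local norms: units at unramified primes, principal units, approximation. -/

namespace Pool.Agent.P.MP_3c2f8c_gt.AO.DataAux

open Pool.Agent.Lib.CFT Pool.Agent.P.MP_9ec3f0_nt.SY NumberField
open scoped TensorProduct

section Unram

variable {p : ℕ} [Fact p.Prime]

theorem unram_sub {E M : Type} [Field E] [NumberField E] [Field M] [NumberField M] [Algebra E M]
    (h : Unram p M) : Unram p E := fun v hv => by
  obtain ⟨w, rfl⟩ := exists_above M v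
  obtain ⟨e, -, he⟩ := exists_e (F := E) w
  have h1 := h w ((ab_dn w).1 hv)
  have h2 := he (p : E)
  rw [map_natCast, h1] at h2
  exact Int.eq_one_of_mul_eq_one_left
    (nonneg_of_mul_nonneg_right (by rw [← h2]; exact zero_le_one) (by
      rcases Nat.eq_zero_or_pos e with rfl | h0
      · simp at h2
      · exact_mod_cast h0)) h2.symm

theorem Nm_mul {A : Type} [CommGroup A] (α : A →* A) (a b : ℕ) (y : A) :
    Nm α (a * b) y = Nm α a (∏ j ∈ Finset.range b, α^[a * j] y) := by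
  induction b with
  | zero => simp [Nm_apply]
  | succ b ih =>
    rw [Finset.prod_range_succ, map_mul, ← ih, Nat.mul_succ, Nm_apply, Nm_apply, Nm_apply,
      Finset.prod_range_add]
    congr 1
    exact Finset.prod_congr rfl fun i _ => by rw [add_comm, Function.iterate_add_apply]

/-- At an unramified prime the fixed units are norms of units. -/
theorem norm_unram (d : ℕ) : ∀ (M : Type) [Field M] [NumberField M] (σ : Aut M), orderOf σ = d →
    Unram p M → ∀ x ∈ IntU p M, uact ℚ_[p] σ x = x →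
      ∃ y ∈ IntU p M, Nm (uact ℚ_[p] σ) d y = x := by
  induction d using Nat.strong_induction_on with
  | _ d ih =>
  intro M _ _ σ hd hp x hx hσ
  by_cases h1 : d = 1
  · exact ⟨x, hx, by simp [h1, Nm_apply]⟩
  obtain ⟨l, hl, a, rfl⟩ := Nat.exists_prime_and_dvd h1
  have h0 : l * a ≠ 0 := hd ▸ (orderOf_pos σ).ne'
  have ha : a ≠ 0 := right_ne_zero_of_mul h0
  have hlt : a < l * a := lt_mul_of_one_lt_left (Nat.pos_of_ne_zero ha) hl.one_lt
  have hpow : (σ ^ a) ^ l = 1 := by rw [← pow_mul, mul_comm, ← hd, pow_orderOf_eq_one]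
  have hne : σ ^ a ≠ 1 := pow_ne_one_of_lt_orderOf ha (hd ▸ hlt)
  obtain ⟨E, _, _, _, hE⟩ := exists_fix (Subgroup.zpowers (σ ^ a))
  obtain ⟨τ, hτ⟩ := hE.exists_res (σ := σ) (by
    rintro _ ⟨i, rfl⟩
    refine ⟨i, ?_⟩
    have hc : Commute ((σ ^ a) ^ i) σ := ((Commute.refl σ).pow_left a).zpow_left i
    show (σ ^ a) ^ i = σ⁻¹ * (σ ^ a) ^ i * σ
    rw [mul_assoc, hc.eq, inv_mul_cancel_left])
  have hfix : ∀ y, (σ ^ a) (algebraMap E M y) = algebraMap E M y :=
    (hE.mem_iff _).1 (Subgroup.mem_zpowers _)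
  have hord : orderOf τ = a := by
    refine Nat.dvd_antisymm (orderOf_dvd_of_pow_eq_one (AlgEquiv.ext fun y =>
      (algebraMap E M).injective ?_)) ?_
    · rw [← Glo3Aux.iter hτ, hfix]; rfl
    · obtain ⟨i, hi⟩ := (hE.mem_iff (σ ^ orderOf τ)).2 fun y => by
        rw [Glo3Aux.iter hτ, pow_orderOf_eq_one]; rfl
      have h2 : σ ^ (orderOf τ * l) = 1 := by
        have hi' : (σ ^ a) ^ i = σ ^ orderOf τ := hi
        rw [pow_mul, ← hi', ← zpow_natCast, ← zpow_mul, mul_comm, zpow_mul, zpow_natCast, hpow,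
          one_zpow]
      have h3 := orderOf_dvd_of_pow_eq_one h2
      rw [hd, mul_comm l] at h3
      exact Nat.dvd_of_mul_dvd_mul_right hl.pos h3
  have hc : ∀ z, umap ℚ_[p] (algebraMap E M) (uact ℚ_[p] τ z) =
      uact ℚ_[p] σ (umap ℚ_[p] (algebraMap E M) z) := fun z =>
    Units.ext (lact_lmap hτ z.1).symm
  obtain ⟨x', rfl⟩ := hE.exists_umap (κ := ℚ_[p]) (x := x) (by
    intro s hs
    obtain ⟨i, rfl⟩ := (mem_powers_iff_mem_zpowers.2 hs)
    show uact ℚ_[p] ((σ ^ a) ^ i) x = x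
    rw [← pow_mul, ← uact_iterate]
    exact Function.iterate_fixed hσ _)
  obtain ⟨y', hy', e'⟩ := ih a hlt E τ hord (unram_sub hp) x' ((umap_mem_iff x').1 hx)
    (umap_injective ℚ_[p] (algebraMap E M) ((hc x').trans hσ))
  obtain ⟨y, hy⟩ := h0_eq_one_iff.1 (h_unram hl hpow hne hp).1
    ⟨umap ℚ_[p] (algebraMap E M) y', umap_mem _ hy'⟩
    (Subtype.ext (Units.ext (lact_lmap_fixed hfix y'.1)))
  have hy2 := congrArg Subtype.val hy
  rw [Loc6Aux.resS_Nm] at hy2
  refine ⟨y.1, y.2, ?_⟩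
  rw [mul_comm, Nm_mul, ← e', map_Nm _ hc]
  congr 1
  refine Eq.trans ?_ hy2
  rw [Nm_apply]
  exact Finset.prod_congr rfl fun i _ => by rw [uact_iterate, uact_iterate, pow_mul]

end Unram

section Root

variable {p : ℕ} [Fact p.Prime] {M : Type} [Field M] [NumberField M]

theorem root_sm {l : ℕ} (hl : l.Prime) {y : Ap p M} (hy : Sm 2 (y - 1)) (j : ℕ)
    (hx : Sm (j + 3) (y ^ l - 1)) : Sm (j + 2) (y - 1) := by
  induction j with
  | zero => exact hy
  | succ j ih =>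
    have h1 := ih (hx.mono (by omega))
    have he := Loc5Aux.eps_le p l
    have h2 := Loc5Aux.sm_key (l := l) (y := (1 : Ap p M)) (by rw [sub_self]; exact sm_zero 1) h1
      ((Loc5Aux.sm_l_mul hl).2 h1) (by omega)
    rw [add_sub_cancel, one_pow] at h2
    have h3 := (hx.mono (show j + 2 + Loc5Aux.eps p l + 1 ≤ j + 1 + 3 by omega)).sub h2
    rw [sub_sub_cancel] at h3
    exact (Loc5Aux.sm_l_mul hl).1 (h3.mono (by omega))

end Root

/-- Elements close to `1` have roots that are fixed by the same automorphisms. -/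
theorem exists_root {d : ℕ} (hd : d ≠ 0) : ∃ N : ℕ, ∀ (p : ℕ) [Fact p.Prime] (M : Type) [Field M]
    [NumberField M] (x : Ap p M), Sm (N + 2) (x - 1) → ∃ y : Ap p M, Sm 2 (y - 1) ∧ y ^ d = x ∧
      ∀ s : Aut M, lact ℚ_[p] s x = x → lact ℚ_[p] s y = y := by
  induction d using induction_on_primes with
  | zero => exact absurd rfl hd
  | one => exact ⟨0, fun p _ M _ _ x hx => ⟨x, hx, pow_one x, fun _ h => h⟩⟩
  | prime_mul l a hl ih =>
    obtain ⟨N, hN⟩ := ih (right_ne_zero_of_mul hd)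
    refine ⟨N + 1, fun p _ M _ _ x hx => ?_⟩
    obtain ⟨y, hy, rfl⟩ := Loc5Aux.root hl
      (hx.mono (show 2 + Loc5Aux.eps p l ≤ N + 1 + 2 by have := Loc5Aux.eps_le p l; omega))
    obtain ⟨z, hz, rfl, hs⟩ := hN p M y (root_sm hl hy N hx)
    refine ⟨z, hz, by rw [mul_comm, pow_mul], fun s h => hs s ?_⟩
    refine Loc5Aux.root_unique hl ?_ hy (by rw [← map_pow, h])
    have h1 := hy.lact s
    rwa [map_sub, map_one] at h1

variable {M : Type} [Field M] [NumberField M]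

/-- Approximation by totally positive fixed elements. -/
theorem exists_approx (σ : Aut M) {d : ℕ} (hd : d ≠ 0) (q : Nat.Primes) (T : Finset Nat.Primes)
    (hq : q ∉ T) (N : ℕ) {t : M} (ht : t ≠ 0) (hσ : σ t = t) : ∃ x : M, x ≠ 0 ∧ σ x = x ∧
      Sm 1 (inc ℚ_[q] M (x / t) - 1) ∧ (∀ p ∈ T, Sm N (inc ℚ_[p] M x - 1)) ∧
      ∃ z : (Ai M)ˣ, uact ℝ σ z = z ∧ (z ^ d).1 = inc ℝ M x := by
  classical
  obtain ⟨E, _, _, _, hE⟩ := exists_fix (Subgroup.zpowers σ)
  obtain ⟨t, rfl⟩ := (hE.zpowers t).1 hσ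
  have hfix : ∀ y, σ (algebraMap E M y) = algebraMap E M y := fun y => (hE.zpowers _).2 ⟨y, rfl⟩
  have ht' : t ≠ 0 := fun e => ht (by rw [e, map_zero])
  obtain ⟨n, hn⟩ := exists_isIntegral_mul ((incU ℚ_[q] E (Units.mk0 t ht'))⁻¹).1
  obtain ⟨m, h1, h2⟩ := InfAux.approx (M := E) (insert q T)
    (fun p => inc ℚ_[p] E (if p = q then t else 1)) (fun _ => N + (1 + 1 + n)) 1
  have hq1 := h1 q (Finset.mem_insert_self _ _)
  rw [if_pos rfl] at hq1
  obtain ⟨hm, hq2⟩ := Loc1Aux.close_unit (x := incU ℚ_[q] E (Units.mk0 t ht')) hn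
    (hq1.mono (Nat.le_add_left _ _))
  refine ⟨algebraMap E M m, (map_ne_zero _).2 hm, hfix m, ?_, fun p hp => ?_, ?_⟩
  · have h3 := Loc2Aux.sm_lmap (algebraMap E M) hq2
    rw [map_sub, map_one, ← map_inv] at h3
    have e : inc ℚ_[q] E m * (incU ℚ_[q] E (Units.mk0 t ht')⁻¹).1 = inc ℚ_[q] E (m / t) := by
      rw [div_eq_mul_inv, map_mul]; rfl
    rwa [e, lmap_inc, map_div₀] at h3
  · have h3 := h1 p (Finset.mem_insert_of_mem hp)
    rw [if_neg (fun e : p = q => hq (e ▸ hp))] at h3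
    have h4 := Loc2Aux.sm_lmap (algebraMap E M) (h3.neg.mono (Nat.le_add_right _ _))
    rwa [neg_sub, map_one, map_sub, map_one, lmap_inc] at h4
  · obtain ⟨z, hz⟩ := InfAux.root hd (incU ℝ E (Units.mk0 m hm)) fun w => Or.inr (by
      have h3 := h2 w.1.embedding
      rw [inv_one, Units.val_one, mul_one, InfAux.ev_real, Complex.ofReal_re] at h3
      exact h3)
    refine ⟨umap ℝ (algebraMap E M) z, Units.ext (lact_lmap_fixed hfix z.1), ?_⟩
    rw [← map_pow, hz]
    rfl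

end Pool.Agent.P.MP_3c2f8c_gt.AO.DataAux
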