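import Pool.Agent.P.MP_3c2f8c_gt.AO.Div
import Pool.Agent.P.MP_3c2f8c_gt.AO.DataF
import Pool.Agent.P.MP_3c2f8c_gt.AO.DataU
import Pool.Agent.Lib.CFT.Main

/-! Existence of the arithmetic data. -/

namespace Pool.Agent.P.MP_3c2f8c_gt.AO

namespace DataAux

open Pool.Agent.Lib.CFT Pool.Agent.P.MP_9ec3f0_nt.SY NumberField
open scoped TensorProduct

variable {n : ℕ} {M : Type} [Field M] [NumberField M] [G2 M]

theorem om_eq_Nm (κ : Type) [Field κ] [Algebra ℚ κ] (d : ℕ) (z : (κ ⊗[ℚ] M)ˣ) :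
    om d z.1 = (Nm (uact κ G2.σ) d z).1 := by
  rw [om, Nm_apply, Units.coe_prod]
  refine Finset.prod_congr rfl fun i hi => ?_
  clear hi
  induction i with
  | zero => rfl
  | succ i ih =>
    rw [pow_succ', RingAut.mul_apply, ih, Function.iterate_succ_apply']
    rfl

theorem ord_om {w : Pr M} (hw : cj G2.σ w = w) (z : M) (d : ℕ) :
    ord w (om d z) = d * ord w z := by
  have h : ∀ i : ℕ, w.valuation M ((sg ^ i : M ≃+* M) z) = w.valuation M z := fun i => by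
    induction i with
    | zero => rfl
    | succ i ih =>
      rw [pow_succ', RingAut.mul_apply, ← ih]
      exact (fixes_iff _ w).1 hw _
  rw [← ord_pow, ord, ord, om, map_prod, Finset.prod_congr rfl fun i _ => h i, Finset.prod_const,
    Finset.card_range, map_pow]

/-- The quotient of an element by its conjugate. -/
noncomputable def qu (x : Mˣ) : Mˣ := x * (gact G2.τ x)⁻¹

theorem qu_val (x : Mˣ) : (qu x).1 = x.1 / (G2.τ : Aut M) x.1 := by
  rw [qu, Units.val_mul, Units.val_inv_eq_inv_val, gact_val, div_eq_mul_inv]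

theorem par_qu {x : Mˣ} (h : (G2.σ : Aut M) x.1 = x.1) : Par (qu x) := by
  have h1 : (G2.σ : Aut M) ((G2.τ : Aut M) x.1) = (G2.τ : Aut M) x.1 :=
    (Tw.comm x.1).trans (congrArg _ h)
  have h2 : (G2.τ : Aut M) ((G2.τ : Aut M) x.1) = x.1 := Tw.tata x.1
  have h3 : (G2.τ : Aut M) x.1 ≠ 0 := (map_ne_zero _).2 x.ne_zero
  constructor
  · change (G2.σ : Aut M) (qu x).1 = _
    rw [qu_val, map_div₀, h, h1]
  · change (G2.τ : Aut M) (qu x).1 * _ = _
    rw [qu_val, map_div₀, h2, div_mul_div_cancel₀ x.ne_zero, div_self h3]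

theorem un_of_Nm (κ : Type) [Field κ] [Algebra ℚ κ] {x : Mˣ} {z : (κ ⊗[ℚ] M)ˣ}
    (h : Nm (uact κ G2.σ) (n + 1) z = incU κ M x) :
    UN n (inc κ M (qu x).1) (z * (uact κ G2.τ z)⁻¹).1 := by
  have h2 : uact κ G2.τ (uact κ G2.τ z) = z := Units.ext (Tw.tata z.1)
  constructor
  · change (uact κ G2.τ (z * (uact κ G2.τ z)⁻¹) * (z * (uact κ G2.τ z)⁻¹)).1 = _
    rw [map_mul, map_inv, h2, mul_assoc, inv_mul_cancel_left, mul_inv_cancel, Units.val_one]
  · rw [om_eq_Nm, map_mul, map_inv, ← map_Nm (α := uact κ G2.σ) (uact κ G2.τ)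
      fun y => Units.ext (Tw.comm y.1).symm, h, uact_incU, ← map_inv, ← map_mul]
    rfl

/-- `x` is the norm of a local unit. -/
def Good (n : ℕ) (x : Mˣ) (p : Nat.Primes) : Prop :=
  ∃ z ∈ Lib.CFT.IntU p.1 M, Nm (uact ℚ_[p] G2.σ) (n + 1) z = incU ℚ_[p] M x

theorem Good.un {x : Mˣ} {p : Nat.Primes} (h : Good n x p) :
    ∃ c : Ap p.1 M, UN n (inc ℚ_[p] M (qu x).1) c ∧ IsIntegral ℤ_[p] c := by
  obtain ⟨z, hz, h⟩ := h
  exact ⟨_, un_of_Nm ℚ_[p] h, (mul_mem hz (inv_mem (uact_mem _ hz))).1⟩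

theorem good_of_unram [OrdM n M] {x : Mˣ} (h : (G2.σ : Aut M) x.1 = x.1) {p : Nat.Primes}
    (hp : Unram p.1 M) (hx : incU ℚ_[p] M x ∈ Lib.CFT.IntU p.1 M) : Good n x p :=
  norm_unram (n + 1) M G2.σ OrdM.ord hp _ hx (Units.ext (congrArg (inc ℚ_[p] M) h))

theorem exists_good (n : ℕ) : ∃ N : ℕ, ∀ (x : Mˣ) (p : Nat.Primes), (G2.σ : Aut M) x.1 = x.1 →
    Sm (N + 2) (inc ℚ_[p] M x.1 - 1) → Good n x p := by
  obtain ⟨N, hN⟩ := exists_root (Nat.succ_ne_zero n)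
  refine ⟨N, fun x p h hx => ?_⟩
  obtain ⟨y, hy, e, hs⟩ := hN p.1 M _ hx
  obtain ⟨u, hu, rfl⟩ := exists_unit_of_sm (hy.mono (by omega))
  refine ⟨u, hu, ?_⟩
  rw [Nm_of_fixed (Units.ext (hs _ (congrArg (inc ℚ_[p] M) h)))]
  exact Units.ext (by rw [Units.val_pow_eq_pow_val]; exact e)

omit [G2 M] in
theorem finite_not_intU (x : Mˣ) : {p : Nat.Primes | incU ℚ_[p] M x ∉ Lib.CFT.IntU p.1 M}.Finite :=
  (prin M x).2

theorem ord_qu_zero {p : ℕ} [Fact p.Prime] {w : Pr M} (hw : Ab p w) {x : M} (hx : x ≠ 0)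
    (h : Sm 1 (inc ℚ_[p] M x - 1)) : ord w (x / (G2.τ : Aut M) x) = 0 := by
  have h1 := h.lact G2.τ
  have h3 : (G2.τ : Aut M) x ≠ 0 := (map_ne_zero _).2 hx
  rw [map_sub, map_one, lact_inc] at h1
  rw [ord_div w hx h3, Loc2Aux.ord_eq_zero hw hx h, Loc2Aux.ord_eq_zero hw h3 h1, sub_zero]

theorem exists_sq {p : ℕ} [Fact p.Prime] (hp : p % 8 = 1) :
    ∃ s k : ℤ, s ^ 2 - 2 = p * k ∧ ¬ (p : ℤ) ∣ k := by
  have hp' : Prime (p : ℤ) := Nat.prime_iff_prime_int.1 Fact.out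
  have h2 : ¬ (p : ℤ) ∣ 2 := fun h => by
    have : p ≤ 2 := Nat.le_of_dvd two_pos (by exact_mod_cast h)
    have := (Fact.out : p.Prime).two_le
    omega
  obtain ⟨a, ha⟩ := (ZMod.exists_sq_eq_two_iff (p := p) (by omega)).2 (Or.inl hp)
  obtain ⟨s, rfl⟩ := ZMod.intCast_surjective a
  obtain ⟨k, hk⟩ := (ZMod.intCast_zmod_eq_zero_iff_dvd (s ^ 2 - 2) p).1
    (by push_cast; rw [ha]; ring)
  by_cases h : (p : ℤ) ∣ k
  · refine ⟨s + p, k + 2 * s + p, by linear_combination hk, fun h' => ?_⟩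
    have h3 : (p : ℤ) ∣ 2 * s := (dvd_add_right h).1 ((dvd_add_left dvd_rfl).1 h')
    have h4 := (hp'.dvd_or_dvd h3).resolve_left h2
    refine h2 ?_
    have e : (2 : ℤ) = s * s - p * k := by linear_combination -hk
    rw [e]
    exact dvd_sub (h4.mul_right _) (dvd_mul_right _ _)
  · exact ⟨s, k, hk, h⟩

/-- An element whose quotient by its conjugate is a uniformiser or its inverse. -/
theorem exists_unif (hm : G2.m M = 2) {p : ℕ} [Fact p.Prime] (hp : p % 8 = 1) {w : Pr M}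
    (hw : Ab p w) (hu : Unram p M) : ∃ t : M, t ≠ 0 ∧ (G2.σ : Aut M) t = t ∧
      (ord w (t / (G2.τ : Aut M) t)).natAbs = 1 := by
  obtain ⟨s, k, hk, hpk⟩ := exists_sq hp
  have hr : (G2.r : M) ^ 2 = 2 := by rw [G2.rr, hm]; norm_num
  have hp0 : (p : M) ≠ 0 := Nat.cast_ne_zero.2 (Fact.out : p.Prime).ne_zero
  have hk0 : (k : M) ≠ 0 := Int.cast_ne_zero.2 fun e => hpk (e ▸ dvd_zero _)
  have e : ((s : M) + G2.r) * (s - G2.r) = p * k := by
    have := congrArg (Int.cast : ℤ → M) hk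
    push_cast at this
    linear_combination this - hr
  have h0 := e ▸ mul_ne_zero hp0 hk0
  have h1 := left_ne_zero_of_mul h0
  have h2 := right_ne_zero_of_mul h0
  have hk1 : ord w (k : M) = 0 := by
    have h := Loc1Aux.val_coprime hw (n := k.natAbs) fun h => hpk (Int.natCast_dvd.2 h)
    rw [Nat.cast_natAbs] at h
    rw [← val_eq_one_iff w hk0, ← h]
    rcases abs_choice k with h' | h' <;> rw [h']
    rw [Int.cast_neg, Valuation.map_neg]
  have hs := Loc1Aux.val_intCast_le w s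
  have hr1 : w.valuation M G2.r ≤ 1 := by
    have h := Loc1Aux.val_natCast_le w 2
    rw [Nat.cast_ofNat, ← hr, map_pow] at h
    exact (pow_le_one_iff two_ne_zero).1 h
  have h3 := (val_le_one_iff w h1).1 (Valuation.map_add_le _ hs hr1)
  have h4 := (val_le_one_iff w h2).1 (Valuation.map_sub_le _ hs hr1)
  have h5 := ord_mul w h1 h2
  rw [e, ord_mul w hp0 hk0, hu w hw, hk1] at h5
  refine ⟨s + G2.r, h1, by rw [map_add, map_intCast, G2.σr], ?_⟩
  rw [map_add, map_intCast, G2.τr, ← sub_eq_add_neg, ord_div w h1 h2]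
  omega

theorem exists_elt (hm : G2.m M = 2) (n N : ℕ) {q : Nat.Primes} (hq : q.1 % 8 = 1) {w : Pr M}
    (hw : Ab q.1 w) (hu : Unram q.1 M) (T : Finset Nat.Primes) (hT : q ∉ T) :
    ∃ x : Mˣ, (G2.σ : Aut M) x.1 = x.1 ∧ (ord w (qu x).1).natAbs = 1 ∧
      (∀ p ∈ T, Sm N (inc ℚ_[p] M x.1 - 1)) ∧ ∃ c, UN n (inc ℝ M (qu x).1) c := by
  obtain ⟨t, ht, hσ, h1⟩ := exists_unif hm hq hw hu
  obtain ⟨x, hx, hσx, h2, h3, z, hz, e⟩ :=
    exists_approx G2.σ (Nat.succ_ne_zero n) q T hT N ht hσ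
  refine ⟨Units.mk0 x hx, hσx, ?_, h3, _, un_of_Nm ℝ (z := z) ?_⟩
  · have h4 := ord_qu_zero hw (div_ne_zero hx ht) h2
    have hx' : (G2.τ : Aut M) x ≠ 0 := (map_ne_zero _).2 hx
    have ht' : (G2.τ : Aut M) t ≠ 0 := (map_ne_zero _).2 ht
    rw [map_div₀, ord_div w (div_ne_zero hx ht) (div_ne_zero hx' ht'), ord_div w hx ht,
      ord_div w hx' ht'] at h4
    rw [ord_div w ht ht'] at h1
    rw [qu_val, Units.val_mk0, ord_div w hx hx']
    omega
  · rw [Nm_of_fixed hz]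
    exact Units.ext e

theorem aniso_of {w : Pr M} (hw : cj G2.σ w = w) {b : M} (h : (ord w b).natAbs = 1) :
    Aniso n b := fun k z _ e => by
  have h1 := congrArg (fun x => (ord w x).natAbs) e
  simp only [ord_om hw, ord_pow, Int.natAbs_mul, Int.natAbs_natCast, h, mul_one] at h1
  exact ⟨_, h1.symm⟩

theorem not_norm (hn : 2 ≤ n) {b : Mˣ} (h : Aniso n b.1) (z : M) : om (n + 1) z ≠ b.1 ^ 2 :=
  fun e => by
    have hz : z ≠ 0 := fun h0 => pow_ne_zero 2 b.ne_zero (by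
      rw [← e, h0, om]
      exact Finset.prod_eq_zero (Finset.mem_range.2 (Nat.succ_pos n)) (map_zero _))
    have := Nat.le_of_dvd two_pos (h 2 z hz e)
    omega

theorem exists_bound {s : Set Nat.Primes} (h : s.Finite) : ∃ B : ℕ, ∀ p ∈ s, p.1 ≤ B := by
  obtain ⟨B, hB⟩ := (h.image Subtype.val).bddAbove
  exact ⟨B, fun p hp => hB ⟨p, hp, rfl⟩⟩

theorem nonempty_dat (hn : 2 ≤ n) [OrdM n M] (hm : G2.m M = 2)
    (hp : ∀ B : ℕ, ∃ p : Nat.Primes, B < p.1 ∧ p.1 % 8 = 1 ∧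
      ∃ w : Pr M, Ab p.1 w ∧ cj G2.σ w = w) : Nonempty (Dat n M) := by
  classical
  obtain ⟨B, hB⟩ := exists_bound (finite_not_unram M)
  obtain ⟨N, hN⟩ := exists_good (M := M) n
  obtain ⟨p₁, h₁, hp₁, w₁, hw₁, hσ₁⟩ := hp B
  have hu₁ : Unram p₁.1 M := not_not.1 fun h => (hB _ h).not_gt h₁
  obtain ⟨x, hx, hx1, -, hxi⟩ := exists_elt hm n 0 hp₁ hw₁ hu₁ ∅ (Finset.notMem_empty _)
  let T : Finset Nat.Primes :=
    insert p₁ ((finite_not_unram M).toFinset ∪ (finite_not_intU x).toFinset)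
  have hT : ∀ p, p ∉ T → Unram p.1 M ∧ Good n x p := fun p h => by
    simp only [T, Finset.mem_insert, Finset.mem_union, Set.Finite.mem_toFinset, Set.mem_ofPred_eq,
      not_or, not_not] at h
    exact ⟨h.2.1, good_of_unram hx h.2.1 h.2.2⟩
  obtain ⟨B', hB'⟩ := exists_bound T.finite_toSet
  obtain ⟨p₂, h₂, hp₂, w₂, hw₂, hσ₂⟩ := hp B'
  have hT₂ : p₂ ∉ T := fun h => (hB' _ h).not_gt h₂
  obtain ⟨y, hy, hy1, hyT, hyi⟩ := exists_elt hm n (N + 2) hp₂ hw₂ (hT _ hT₂).1 T hT₂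
  have hy0 : ord w₁ (qu y).1 = 0 := by
    rw [qu_val]
    exact ord_qu_zero hw₁ y.ne_zero ((hyT p₁ (Finset.mem_insert_self _ _)).mono (by omega))
  let S : Finset Nat.Primes := (finite_not_intU y).toFinset \ T
  have hS : ∀ p, p ∉ S → Good n y p := fun p h => by
    by_cases h' : p ∈ T
    · exact hN y p hy (hyT p h')
    · refine good_of_unram hy (hT p h').1 (not_not.1 fun h'' => h ?_)
      exact Finset.mem_sdiff.2 ⟨(Set.Finite.mem_toFinset _).2 h'', h'⟩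
  have k₁ : ∀ p : Nat.Primes, ∃ c : Ap p.1 M, p ∉ T → UN n (inc ℚ_[p] M (qu x).1) c := fun p => by
    by_cases h : p ∈ T
    · exact ⟨0, fun h' => absurd h h'⟩
    · obtain ⟨c, hc, -⟩ := (hT p h).2.un
      exact ⟨c, fun _ => hc⟩
  have k₂ : ∀ p : Nat.Primes, ∃ c : Ap p.1 M, p ∉ S →
      UN n (inc ℚ_[p] M (qu y).1) c ∧ IsIntegral ℤ_[p] c := fun p => by
    by_cases h : p ∈ S
    · exact ⟨0, fun h' => absurd h h'⟩
    · obtain ⟨c, hc⟩ := (hS p h).un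
      exact ⟨c, fun _ => hc⟩
  choose c₁ hc₁ using k₁
  choose c₂ hc₂ using k₂
  exact ⟨{
    b₁ := qu x
    b₂ := qu y
    par₁ := par_qu hx
    par₂ := par_qu hy
    S := S
    Bad := S ∪ T
    sub := Finset.subset_union_left
    c₁ := c₁
    c₂ := c₂
    un₁ := fun p h => hc₁ p (h.elim (fun h => (Finset.mem_sdiff.1 h).2)
      fun h h' => h (Finset.mem_union_right _ h'))
    un₂ := fun p h => (hc₂ p h).1
    int₂ := fun p h => (hc₂ p fun h' => h (Finset.mem_union_left _ h')).2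
    inf₁ := hxi
    inf₂ := hyi
    an := aniso_of hσ₁ (by
      rw [Units.val_mul, ord_mul w₁ (qu x).ne_zero (qu y).ne_zero, hy0, add_zero, hx1])
    an' := aniso_of hσ₁ (by
      rw [Units.val_mul, ord_mul w₁ (qu x).ne_zero (qu y)⁻¹.ne_zero, Units.val_inv_eq_inv_val,
        ord_inv, hy0, neg_zero, add_zero, hx1])
    nn₁ := not_norm hn (aniso_of hσ₁ hx1)
    nn₂ := not_norm hn (aniso_of hσ₂ hy1) }⟩

open Polynomial in
theorem isSquare_padic {p : ℕ} [Fact p.Prime] {m a : ℤ} (hp : ¬ (p : ℤ) ∣ 2 * m)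
    (h : (p : ℤ) ∣ a ^ 2 - m) : IsSquare ((m : ℤ) : ℚ_[p]) := by
  have hp' : Prime (p : ℤ) := Nat.prime_iff_prime_int.1 Fact.out
  have h2 : ¬ (p : ℤ) ∣ 2 * a := fun h' => hp ((hp'.dvd_or_dvd h').elim (·.mul_right _) fun h' => by
    have e : m = a * a - (a ^ 2 - m) := by ring
    rw [e]
    exact (dvd_sub (h'.mul_right _) h).mul_left _)
  have e1 : aeval (a : ℤ_[p]) (X ^ 2 - C m : ℤ[X]) = ((a ^ 2 - m : ℤ) : ℤ_[p]) := by simp
  have e2 : aeval (a : ℤ_[p]) (derivative (X ^ 2 - C m : ℤ[X])) = ((2 * a : ℤ) : ℤ_[p]) := by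
    simp [map_ofNat]
  obtain ⟨z, hz, -⟩ := hensels_lemma (F := (X ^ 2 - C m : ℤ[X])) (a := (a : ℤ_[p])) (by
    rw [e1, e2, le_antisymm (PadicInt.norm_le_one ((2 * a : ℤ) : ℤ_[p]))
      (not_lt.1 fun h' => h2 ((PadicInt.norm_int_lt_one_iff_dvd _).1 h')), one_pow]
    exact (PadicInt.norm_int_lt_one_iff_dvd _).2 h)
  have hz' : z ^ 2 - (m : ℤ_[p]) = 0 := by simpa using hz
  refine ⟨(z : ℚ_[p]), ?_⟩
  have h3 := congrArg (fun t : ℤ_[p] => (t : ℚ_[p])) (sub_eq_zero.1 hz')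
  simp only [PadicInt.coe_pow, PadicInt.coe_intCast] at h3
  rw [← h3, sq]

end DataAux

theorem exists_dat {n : ℕ} (hn : 2 ≤ n) : ∃ (M : Type) (_ : Field M) (_ : NumberField M) (_ : G2 M)
    (_ : OrdM n M), Nonempty (Dat n M) := by
  obtain ⟨M, _, _, _, hO, hm, hp⟩ := DataAux.exists_field n
  exact ⟨M, inferInstance, inferInstance, inferInstance, hO, DataAux.nonempty_dat hn hm hp⟩

theorem infinite_sp (M : Type) [Field M] [NumberField M] [G2 M] :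
    {p : Nat.Primes | IsSquare (((G2.m M : ℤ) : ℚ_[p]))}.Infinite := by
  intro hf
  obtain ⟨B, hB⟩ := DataAux.exists_bound hf
  have hm : G2.m M ≠ 0 := fun e => by
    have h := G2.rr (M := M)
    rw [e, Int.cast_zero] at h
    exact G2.r0 (pow_eq_zero_iff two_ne_zero |>.1 h)
  obtain ⟨l, hl, hN, a, ha⟩ := Pool.Agent.Lib.CFT.Rec1Aux.schur
    (f := Polynomial.X ^ 2 - Polynomial.C (G2.m M)) (by rw [Polynomial.natDegree_X_pow_sub_C]; omega)
    (N := 2 * G2.m M * (B.factorial : ℤ))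
    (mul_ne_zero (mul_ne_zero two_ne_zero hm) (Int.natCast_ne_zero.2 B.factorial_ne_zero))
  have := Fact.mk hl
  have h1 : IsSquare ((G2.m M : ℤ) : ℚ_[l]) :=
    DataAux.isSquare_padic (a := a) (fun h => hN (h.mul_right _)) (by simpa using ha)
  exact hN (Dvd.dvd.mul_left (Int.natCast_dvd_natCast.2 (hl.dvd_factorial.2 (hB ⟨l, hl⟩ h1))) _)

end Pool.Agent.P.MP_3c2f8c_gt.AO
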