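import Pool.Agent.P.MP_3c2f8c_gt.E6.Defs

/-!
Definitions for the statement in type `Aₙ`: the Lie algebra `𝔰𝔩ₙ₊₁` by structure constants, inner
automorphisms, outer forms, arithmetic subgroups defined by outer forms.
-/

namespace Pool.Agent.P.MP_3c2f8c_gt.AO

open Matrix E6

variable {n : ℕ} {R : Type} [CommRing R]

/-- All positions of an `(n+1) × (n+1)` matrix except the last diagonal one. -/
abbrev Ix (n : ℕ) : Type := {ij : Fin (n + 1) × Fin (n + 1) // ij ≠ (Fin.last n, Fin.last n)}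

/-- The matrix of trace zero with the given entries outside the last diagonal position. -/
def emb (x : Ix n → R) : Matrix (Fin (n + 1)) (Fin (n + 1)) R := Matrix.of fun i j =>
  if h : (i, j) = (Fin.last n, Fin.last n) then
    -∑ k : Fin n, x ⟨(k.castSucc, k.castSucc), fun e => k.castSucc_ne_last (congrArg Prod.fst e)⟩
  else x ⟨(i, j), h⟩

variable (n R) in
/-- The structure constants of `𝔰𝔩ₙ₊₁`. -/
def slT : Tens (Ix n) R := fun i j k =>
  (emb (Pi.single i 1) * emb (Pi.single j 1) - emb (Pi.single j 1) * emb (Pi.single i 1) :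
    Matrix (Fin (n + 1)) (Fin (n + 1)) R) k.1.1 k.1.2

/-- `g` is conjugation by an invertible matrix, that is, a point of `PGLₙ₊₁`. -/
def Inn (g : GL (Ix n) R) : Prop :=
  ∃ h : GL (Fin (n + 1)) R, ∀ x, emb (g.1 *ᵥ x) = h.1 * emb x * (h⁻¹).1

/-- `Γ` is a discrete, torsion-free, cocompact subgroup of `PGLₙ₊₁(ℝ)`. -/
def IsMfd (Γ : Subgroup (AutL (slT n ℝ))) : Prop :=
  (∀ C : ℝ, {g : AutL (slT n ℝ) | g ∈ Γ ∧ ∀ i j, |g.1.1 i j| ≤ C}.Finite) ∧
  (∀ g ∈ Γ, IsOfFinOrder g → g = 1) ∧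
  (∃ C : Set (AutL (slT n ℝ)), IsCompact C ∧ ∀ g : AutL (slT n ℝ), ∃ γ ∈ Γ, γ * g ∈ C) ∧
  ∀ g ∈ Γ, Inn g.1

/-- The form `β` of `𝔰𝔩ₙ₊₁` over `k` is outer: it is not an inner twist of the split form. -/
def IsOuter {k : Type} [Field k] (β : Tens (Ix n) k) : Prop :=
  ∀ f : GL (Ix n) (AlgebraicClosure k),
    IsoL (bc (algebraMap k (AlgebraicClosure k)) β) (slT n (AlgebraicClosure k)) f →
      ∃ s : AlgebraicClosure k ≃ₐ[k] AlgebraicClosure k,
        ¬ Inn (f * (GeneralLinearGroup.map s.toRingEquiv.toRingHom f)⁻¹)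

open NumberField in
/-- `Γ` is arithmetic and defined by an outer form: there are a number field `k`, a real place
`v₀` and an outer `k`-form `β` of `𝔰𝔩ₙ₊₁(ℝ)` at `v₀` that is compact at all other infinite places,
and `Γ` is commensurable with the group of automorphisms of `β` that lie in `GL(𝓞 k)`. -/
def IsArithOuter (Γ : Subgroup (AutL (slT n ℝ))) : Prop :=
  ∃ (k : Type) (_ : Field k) (_ : NumberField k) (v₀ : k →+* ℝ) (β : Tens (Ix n) k)
    (f : GL (Ix n) ℝ), IsoL (bc v₀ β) (slT n ℝ) f ∧ IsOuter β ∧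
    (∀ φ : k →+* ℂ, φ ≠ Complex.ofRealHom.comp v₀ → ∃ ψ : k →+* ℝ,
      φ = Complex.ofRealHom.comp ψ ∧ ∀ x, x ≠ 0 → kil (bc ψ β) x x < 0) ∧
    Subgroup.Commensurable Γ
      (((AutL β ⊓ (GeneralLinearGroup.map (algebraMap (𝓞 k) k)).range).map
        ((MulAut.conj f).toMonoidHom.comp (GeneralLinearGroup.map v₀))).subgroupOf
          (AutL (slT n ℝ)))

variable (n) in
/-- Two compact arithmetic quotients of `SLₙ₊₁(ℝ) / SO(n+1)`, defined by outer forms, that are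
isospectral and not commensurable. -/
def CaseA : Prop :=
  ∃ θ : AutL (slT n ℝ), (∀ x, emb (θ.1.1 *ᵥ x) = -(emb x)ᵀ) ∧ IsCartan θ ∧
    ∃ Γ₁ Γ₂ : Subgroup (AutL (slT n ℝ)), IsMfd Γ₁ ∧ IsMfd Γ₂ ∧ IsArithOuter Γ₁ ∧
      IsArithOuter Γ₂ ∧ Isospectral θ Γ₁ Γ₂ ∧ ¬ WideComm Γ₁ Γ₂

end Pool.Agent.P.MP_3c2f8c_gt.AO
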