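import Pool.Agent.P.MP_3c2f8c_gt.AO.Alg
import Pool.Agent.P.MP_3c2f8c_gt.E6.Lie

/-! The Lie algebra `𝔰𝔩ₙ₊₁`: coordinates, adjoint action, Cartan involution. -/

namespace Pool.Agent.P.MP_3c2f8c_gt.AO

open Matrix E6

variable {n : ℕ} {R S : Type} [CommRing R] [CommRing S]

/-- The coordinates of a matrix. -/
def co : Mt n R →ₗ[R] (Ix n → R) where
  toFun X i := X i.1.1 i.1.2
  map_add' _ _ := rfl
  map_smul' _ _ := rfl

theorem co_apply (X : Mt n R) (i : Ix n) : co X i = X i.1.1 i.1.2 := rfl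

/-- The embedding as a linear map. -/
def embL : (Ix n → R) →ₗ[R] Mt n R where
  toFun := emb
  map_add' x y := by
    ext i j
    simp only [emb, Matrix.of_apply, Matrix.add_apply, Pi.add_apply]
    split_ifs
    · rw [Finset.sum_add_distrib, neg_add]
    · rfl
  map_smul' c x := by
    ext i j
    simp only [emb, Matrix.of_apply, Matrix.smul_apply, Pi.smul_apply, RingHom.id_apply,
      smul_eq_mul]
    split_ifs
    · rw [← Finset.mul_sum, mul_neg]
    · rfl

theorem embL_apply (x : Ix n → R) : embL x = emb x := rfl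

theorem co_emb (x : Ix n → R) : co (emb x) = x := funext fun i => by
  rw [co_apply, emb, Matrix.of_apply, dif_neg i.2]

theorem emb_injective : Function.Injective (emb : (Ix n → R) → Mt n R) := fun x y h => by
  rw [← co_emb x, h, co_emb]

theorem trace_emb (x : Ix n → R) : (emb x).trace = 0 := by
  rw [Matrix.trace, Fin.sum_univ_castSucc]
  have h : ∀ k : Fin n, (emb x).diag k.castSucc = x ⟨(k.castSucc, k.castSucc),
      fun e => k.castSucc_ne_last (congrArg Prod.fst e)⟩ := fun k => by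
    rw [Matrix.diag_apply, emb, Matrix.of_apply, dif_neg]
  simp only [h]
  rw [Matrix.diag_apply, emb, Matrix.of_apply, dif_pos rfl, add_neg_cancel]

theorem emb_co {X : Mt n R} (h : X.trace = 0) : emb (co X) = X := by
  ext i j
  rw [emb, Matrix.of_apply]
  split_ifs with e
  · obtain ⟨rfl, rfl⟩ := Prod.ext_iff.1 e
    rw [Matrix.trace, Fin.sum_univ_castSucc] at h
    exact (eq_neg_of_add_eq_zero_right h).symm
  · rfl

theorem emb_map (f : R →+* S) (x : Ix n → R) : (emb x).map f = emb fun i => f (x i) := by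
  ext i j
  simp only [emb, Matrix.of_apply, Matrix.map_apply]
  split_ifs
  · rw [map_neg, map_sum]
  · rfl

theorem emb_br (x y : Ix n → R) : emb (br (slT n R) x y) = emb x * emb y - emb y * emb x := by
  have h : br (slT n R) x y = co (emb x * emb y - emb y * emb x) := by
    funext k
    have e : ∀ z : Ix n → R, emb z = ∑ i, z i • emb (Pi.single i (1 : R)) := fun z => by
      conv_lhs => rw [← embL_apply, pi_eq_sum_univ' z, map_sum]
      simp only [map_smul, embL_apply]
    rw [e x, e y]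
    simp only [br, adM, slT, Matrix.mulVec, dotProduct, Matrix.of_apply, Finset.sum_mul,
      Finset.mul_sum, Matrix.smul_mul, Matrix.mul_smul, co_apply, Matrix.sub_apply,
      Matrix.sum_apply, Matrix.smul_apply, smul_eq_mul]
    rw [Finset.sum_comm (f := fun i j => x i * (y j * _)), ← Finset.sum_sub_distrib]
    refine Finset.sum_congr rfl fun j _ => ?_
    rw [← Finset.sum_sub_distrib]
    exact Finset.sum_congr rfl fun i _ => by ring
  rw [h, emb_co]
  rw [Matrix.trace_sub, Matrix.trace_mul_comm, sub_self]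

theorem bc_slT (f : R →+* S) : bc f (slT n R) = slT n S := by
  funext i j k
  have e : ∀ i : Ix n, (emb (Pi.single i (1 : R))).map f = emb (Pi.single i (1 : S)) := fun i => by
    rw [emb_map]
    congr 1
    funext l
    by_cases h : l = i
    · subst h; simp
    · simp [Pi.single_eq_of_ne h]
  simp only [bc, slT, ← e, ← Matrix.map_mul]
  rw [Matrix.sub_apply, Matrix.sub_apply, map_sub]
  rfl

/-- The matrix of the restriction of a linear map to the matrices of trace zero. -/
def rs (T : Mt n R →ₗ[R] Mt n R) : Matrix (Ix n) (Ix n) R :=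
  LinearMap.toMatrix' (co ∘ₗ T ∘ₗ embL)

theorem rs_mulVec (T : Mt n R →ₗ[R] Mt n R) (x : Ix n → R) : rs T *ᵥ x = co (T (emb x)) := by
  rw [rs, LinearMap.toMatrix'_mulVec]; rfl

theorem ext_emb {X Y : Matrix (Ix n) (Ix n) R} (h : ∀ x, emb (X *ᵥ x) = emb (Y *ᵥ x)) : X = Y :=
  Matrix.toLin'.injective (LinearMap.ext fun x => emb_injective (h x))

/-- Conjugation as a linear map. -/
def cj (g : Gl n R) : Mt n R →ₗ[R] Mt n R :=
  LinearMap.mulRight R (g⁻¹).1 ∘ₗ LinearMap.mulLeft R g.1

theorem emb_rs_cj (g : Gl n R) (x : Ix n → R) : emb (rs (cj g) *ᵥ x) = g.1 * emb x * (g⁻¹).1 := by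
  rw [rs_mulVec, emb_co]
  · rfl
  · show (g.1 * emb x * (g⁻¹).1).trace = 0
    rw [Matrix.trace_mul_cycle, Units.inv_mul, Matrix.one_mul, trace_emb]

theorem rs_cj_mul (g h : Gl n R) : rs (cj (g * h)) = rs (cj g) * rs (cj h) := ext_emb fun x => by
  rw [← mulVec_mulVec, emb_rs_cj, emb_rs_cj, emb_rs_cj, _root_.mul_inv_rev]
  simp only [Units.val_mul, Matrix.mul_assoc]

theorem rs_cj_one : rs (cj (1 : Gl n R)) = 1 := ext_emb fun x => by
  rw [emb_rs_cj, one_mulVec]; simp

/-- The adjoint action. -/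
def adG : Gl n R →* AutL (slT n R) where
  toFun g := ⟨⟨rs (cj g), rs (cj g⁻¹), by rw [← rs_cj_mul, mul_inv_cancel, rs_cj_one],
    by rw [← rs_cj_mul, inv_mul_cancel, rs_cj_one]⟩, fun x y => emb_injective (by
      show emb (rs (cj g) *ᵥ _) = emb (br _ (rs (cj g) *ᵥ x) (rs (cj g) *ᵥ y))
      rw [emb_br, emb_rs_cj, emb_rs_cj, emb_rs_cj, emb_br]
      simp only [Matrix.mul_sub, Matrix.sub_mul, Matrix.mul_assoc, Units.inv_mul_cancel_left])⟩
  map_one' := Subtype.ext (Units.ext rs_cj_one)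
  map_mul' g h := Subtype.ext (Units.ext (rs_cj_mul g h))

theorem emb_adG (g : Gl n R) (x : Ix n → R) : emb ((adG g).1.1 *ᵥ x) = g.1 * emb x * (g⁻¹).1 :=
  emb_rs_cj g x

theorem emb_rs_th (x : Ix n → R) :
    emb (rs (-(Matrix.transposeLinearEquiv _ _ R R).toLinearMap) *ᵥ x) = -(emb x)ᵀ := by
  rw [rs_mulVec, emb_co]
  · rfl
  · show (-(emb x)ᵀ).trace = 0
    rw [Matrix.trace_neg, Matrix.trace_transpose, trace_emb, neg_zero]

theorem rs_th_sq : rs (-(Matrix.transposeLinearEquiv _ _ R R).toLinearMap) *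
    rs (n := n) (-(Matrix.transposeLinearEquiv _ _ R R).toLinearMap) = 1 := ext_emb fun x => by
  rw [← mulVec_mulVec, emb_rs_th, emb_rs_th, one_mulVec, transpose_neg, neg_neg, transpose_transpose]

variable (n R) in
/-- The negative transpose. -/
def thL : AutL (slT n R) :=
  ⟨⟨rs (-(Matrix.transposeLinearEquiv _ _ R R).toLinearMap), _, rs_th_sq, rs_th_sq⟩,
    fun x y => emb_injective (by
      show emb (rs _ *ᵥ _) = emb (br _ (rs _ *ᵥ x) (rs _ *ᵥ y))
      rw [emb_br, emb_rs_th, emb_rs_th, emb_rs_th, emb_br]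
      simp only [transpose_sub, transpose_mul, neg_mul_neg, neg_sub])⟩

theorem emb_thL (x : Ix n → R) : emb ((thL n R).1.1 *ᵥ x) = -(emb x)ᵀ := emb_rs_th x

theorem thL_sq : thL n R * thL n R = 1 := Subtype.ext (Units.ext rs_th_sq)

/-- The inverse transpose. -/
def itr : Gl n R →* Gl n R where
  toFun g := ⟨(g⁻¹).1ᵀ, g.1ᵀ, by rw [← transpose_mul, Units.mul_inv, transpose_one],
    by rw [← transpose_mul, Units.inv_mul, transpose_one]⟩
  map_one' := Units.ext (by simp)
  map_mul' g h := Units.ext (by simp)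

theorem itr_val (g : Gl n R) : (itr g).1 = (g⁻¹).1ᵀ := rfl

theorem itr_inv_val (g : Gl n R) : ((itr g)⁻¹).1 = g.1ᵀ := rfl

theorem itr_itr (g : Gl n R) : itr (itr g) = g := Units.ext (transpose_transpose _)

theorem thL_mul_adG (g : Gl n R) : thL n R * adG g = adG (itr g) * thL n R :=
  Subtype.ext (Units.ext (ext_emb fun x => by
    simp only [Subgroup.coe_mul, Units.val_mul, ← mulVec_mulVec, emb_thL, emb_adG, itr_val,
      itr_inv_val, transpose_mul, Matrix.mul_neg, Matrix.neg_mul, Matrix.mul_assoc]))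

theorem inn_iff {g : GL (Ix n) R} : Inn g ↔ ∃ h : Gl n R, (adG h).1 = g :=
  exists_congr fun h => ⟨fun H => Units.ext (ext_emb fun x => by rw [H, emb_adG]),
    fun H x => by rw [← H, emb_adG]⟩

end Pool.Agent.P.MP_3c2f8c_gt.AO
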