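import Pool.Agent.P.MP_3c2f8c_gt.AO.Loc
import Pool.Agent.P.MP_3c2f8c_gt.AO.LieD
import Pool.Agent.P.MP_3c2f8c_gt.AO.ADefs

/-! The global groups, their local and real images, split models, rational forms. -/

namespace Pool.Agent.P.MP_3c2f8c_gt.AO

open Matrix E6 Pool.Agent.Lib.CFT
open scoped TensorProduct

variable {n : ℕ}

variable (n) in
/-- A presentation of `O` as the projective linear group over `ℚ_p`. -/
structure Model (p : ℕ) [Fact p.Prime] (O : Type) [Group O] [TopologicalSpace O] where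
  π : Gl n ℚ_[p] →* O
  cont : Continuous π
  opn : IsOpenMap π
  surj : Function.Surjective π
  ker : ∀ g, π g = 1 ↔ ∃ c : ℚ_[p], g.1 = c • (1 : Mt n ℚ_[p])

theorem adG_scalar {R : Type} [CommRing R] {g : Gl n R} {c : R} (h : g.1 = c • (1 : Mt n R)) :
    adG g = 1 := Subtype.ext (Units.ext (ext_emb fun x => by
  rw [emb_adG, h, Matrix.smul_mul, Matrix.one_mul, Matrix.smul_mul, ← Matrix.mul_smul,
    ← Matrix.one_mul (g⁻¹).1, ← Matrix.smul_mul, ← h, Units.mul_inv, Matrix.mul_one]
  simp))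

variable {M : Type} [Field M] [NumberField M] [G2 M]

variable (n) in
/-- The local groups. -/
abbrev Ul (β : M) (p : Nat.Primes) : Type := PU n (inc ℚ_[p] M β)

variable (n) in
/-- The map to the finite places. -/
noncomputable def Phi (β : M) : PU n β →* ∀ p, Ul n β p :=
  MonoidHom.pi fun p => puMap (twHom_inc ℚ_[p]) β

theorem Phi_mk (β : M) (g : Un n β) (p : Nat.Primes) :
    Phi n β (QuotientGroup.mk g) p = QuotientGroup.mk (unMap (twHom_inc ℚ_[p]) β g) := rfl

variable (n) in
/-- The standard level. -/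
noncomputable abbrev Kst (β : M) (p : Nat.Primes) : Subgroup (Ul n β p) := K0 n (inc ℚ_[p] M β)

variable (n) in
/-- The action on the real Lie algebra. -/
noncomputable def rho (β : M) : PU n β →* AutL (slT n ℝ) :=
  QuotientGroup.lift _ (adG.comp ((GeneralLinearGroup.map G2.φ).comp (Un n β).subtype)) (by
    rintro g ⟨c, hc⟩
    refine adG_scalar (c := G2.φ c) ?_
    show g.1.1.map G2.φ = _
    rw [hc, map_smul_ring, Matrix.map_one _ (map_zero _) (map_one _)])

theorem rho_mk (β : M) (g : Un n β) :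
    rho n β (QuotientGroup.mk g) = adG (GeneralLinearGroup.map G2.φ g.1) := rfl

/-- Regular elements. -/
def RegP {β : M} (γ : PU n β) : Prop := ∃ g : Un n β, QuotientGroup.mk g = γ ∧ Reg g.1.1

variable (M) in
/-- The prime `p` splits in the quadratic field. -/
def Sp (p : Nat.Primes) : Prop := IsSquare (((G2.m M : ℤ) : ℚ_[p]))

variable (n) in
/-- A split model of a local group, with its description over a field `Ω`. -/
structure Spl {p : ℕ} [Fact p.Prime] (β : Ap p M) (Ω : Type) [Field Ω] [Algebra ℚ_[p] Ω]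
    extends Model n p (PU n β) where
  ω : Ap p M →ₐ[ℚ_[p]] Ω
  W : Gl n Ω
  rel : ∀ (g : Gl n ℚ_[p]) (u : Un n β), π g = QuotientGroup.mk u → ∃ z : Ω, z ≠ 0 ∧
    u.1.1.map ω * W.1 = z • (W.1 * g.1.map (algebraMap ℚ_[p] Ω))

variable (n) in
/-- A rational form of the Lie algebra with its frame over `M`. -/
structure RF (β : Mˣ) where
  T : Tens (Ix n) ℚ
  f : GL (Ix n) M
  iso : IsoL (E6.bc (algebraMap ℚ M) T) (slT n M) f
  hσ : (adG (aG n β)).1.1 * f.1.map sg = f.1
  hτ : (thL n M).1.1 * f.1.map ta = f.1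

variable (M) in
/-- The evaluation at the real embedding. -/
noncomputable def ev : ℝ ⊗[ℚ] M →ₐ[ℝ] ℝ :=
  Algebra.TensorProduct.lift (AlgHom.id ℝ ℝ) (G2.φ : M →+* ℝ).toRatAlgHom fun _ _ => Commute.all _ _

theorem ev_inc (x : M) : ev M (inc ℝ M x) = G2.φ x := by
  show ev M (1 ⊗ₜ x) = _
  rw [ev, Algebra.TensorProduct.lift_tmul, map_one, one_mul]
  rfl

end Pool.Agent.P.MP_3c2f8c_gt.AO
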