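import Pool.Agent.P.MP_3c2f8c_gt.AO.SieveA

/-! Approximation in the algebra with invertibility at the inert primes. -/

namespace Pool.Agent.P.MP_3c2f8c_gt.AO

open Matrix Pool.Agent.Lib.CFT

variable {n : ℕ} {M : Type} [Field M] [NumberField M] [G2 M] [OrdM n M]

section

variable {β : Mˣ}

theorem Sieve_loc (hβ : Par β) {p : ℕ} [Fact p.Prime] {x : Mt n (Ap p M)}
    (hx : x ∈ Dal n (inc ℚ_[p] M β.1)) {ε : ℝ} (hε : 0 < ε) :
    ∃ y ∈ Dal n β.1, Le ε (y.map (inc ℚ_[p] M) - x) := by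
  obtain ⟨C, hC⟩ : ∃ C, C = max 1 ‖inc ℚ_[p] M β.1‖ ^ n := ⟨_, rfl⟩
  have C0 : 0 < C := hC ▸ pow_pos (lt_max_of_lt_left one_pos) n
  obtain ⟨k, hk⟩ := PadicInt.exists_pow_neg_lt p (div_pos hε C0)
  choose m hm using fun i => Pool.Agent.Lib.CFT.exists_close (x i 0) k
  refine ⟨extc β.1 m, extc_mem hβ.sg m, ?_⟩
  have h1 : (extc β.1 m).map (inc ℚ_[p] M) - x ∈ Dal n (inc ℚ_[p] M β.1) :=
    sub_mem ((twHom_inc _).mem_Dal (extc_mem hβ.sg m)) hx
  have hs : sg (inc ℚ_[p] M β.1) = inc ℚ_[p] M β.1 := by rw [← (twHom_inc _).sg, hβ.sg]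
  rw [eq_extc hs h1]
  refine (le_extc _ (C := ε / C) fun i => ?_).mono (by rw [← hC, mul_div_cancel₀ _ C0.ne'])
  show ‖inc ℚ_[p] M (extc β.1 m i 0) - x i 0‖ ≤ _
  rw [extc_zero, norm_sub_rev]
  exact ((norm_le_iff_sm k).2 (hm i)).trans hk.le

/-- weak approximation in the algebra -/
theorem Sieve_wa (hβ : Par β) (s : Finset Nat.Primes) (x : ∀ p : Nat.Primes, Mt n (Ap p.1 M))
    (hx : ∀ p ∈ s, x p ∈ Dal n (inc ℚ_[p] M β.1)) {ε : ℝ} (hε : 0 < ε) :
    ∃ y ∈ Dal n β.1, ∀ p ∈ s, Le ε (y.map (inc ℚ_[p] M) - x p) := by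
  classical
  induction s using Finset.induction_on with
  | empty => exact ⟨0, zero_mem _, by simp⟩
  | insert q s hq ih =>
    obtain ⟨y, hy, h1⟩ := ih fun p hp => hx p (Finset.mem_insert_of_mem hp)
    obtain ⟨y', hy', h2⟩ := Sieve_loc hβ (hx q (Finset.mem_insert_self _ _)) hε
    obtain ⟨c, c1, c2⟩ := Sieve_glue s {q} (y - y') hε
    refine ⟨y' + (c : M) • (y - y'),
      add_mem hy' (smul_mem_Dal (map_natCast _ c) (sub_mem hy hy')), fun p hp i j => ?_⟩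
    show ‖inc ℚ_[p] M (y' i j + c * (y i j - y' i j)) - x p i j‖ ≤ ε
    rcases Finset.mem_insert.1 hp with rfl | hp
    · rw [map_add, add_sub_right_comm]
      exact Sieve_add (h2 i j) (c2 p (Finset.mem_singleton_self _) hq i j)
    · rw [show y' i j + c * (y i j - y' i j) =
        y i j + (c * (y i j - y' i j) - (y i j - y' i j)) by ring, map_add, add_sub_right_comm]
      exact Sieve_add (h1 p hp i j) (c1 p hp i j)

theorem Sieve_half {n : ℕ} {A : Type} [CommRing A] {h : A} (e : 2 * h = 1) (a b x : Mt n A) :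
    1 + (a - b) - x = a - h • x - (b - h • ((2 : A) • 1 - x)) := by
  have e1 : a - h • x - (b - h • ((2 : A) • 1 - x)) = a - b - (2 * h) • (x - 1) := by module
  rw [e1, e, one_smul]
  abel

theorem Sieve_skew (hβ : Par β) (s : Finset Nat.Primes) (x : ∀ p : Nat.Primes, Mt n (Ap p.1 M))
    (hx : ∀ p ∈ s, x p ∈ Dal n (inc ℚ_[p] M β.1)) {ε : ℝ} (hε : 0 < ε) :
    ∃ y ∈ Dal n β.1, (∀ p ∈ s, Le ε (y.map (inc ℚ_[p] M) - x p)) ∧
      ((∀ p ∈ s, x p + st (x p) = 2) → y + st y = (2 : M) • 1) := by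
  by_cases H : ∀ p ∈ s, x p + st (x p) = 2
  swap
  · obtain ⟨y, h1, h2⟩ := Sieve_wa hβ s x hx hε
    exact ⟨y, h1, h2, fun h => absurd h H⟩
  obtain ⟨y, h1, h2⟩ := Sieve_wa hβ s (fun p => inc ℚ_[p] M 2⁻¹ • x p) (fun p hp =>
    smul_mem_Dal (by rw [← (twHom_inc _).sg, map_inv₀, map_ofNat]) (hx p hp)) hε
  refine ⟨1 + (y - st y), add_mem (one_mem _) (sub_mem h1 (st_mem_Dal hβ h1)), fun p hp => ?_,
    fun _ => ?_⟩
  · have e1 : ta (inc ℚ_[p] M 2⁻¹) = inc ℚ_[p] M 2⁻¹ := by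
      rw [← (twHom_inc _).ta, map_inv₀, map_ofNat]
    have e2 : 2 * inc ℚ_[p] M 2⁻¹ = 1 := by
      rw [← map_ofNat (inc ℚ_[p] M) 2, ← map_mul, mul_inv_cancel₀ two_ne_zero, map_one]
    have e3 : st (x p) = (2 : Ap p.1 M) • 1 - x p := by
      rw [two_smul, one_add_one_eq_two, ← H p hp, add_sub_cancel_left]
    have e4 : (1 + (y - st y)).map (inc ℚ_[p] M) - x p =
        (y.map (inc ℚ_[p] M) - inc ℚ_[p] M 2⁻¹ • x p) -
          st (y.map (inc ℚ_[p] M) - inc ℚ_[p] M 2⁻¹ • x p) := by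
      rw [Matrix.map_add _ (map_add _), Matrix.map_sub _ (map_sub _),
        Matrix.map_one _ (map_zero _) (map_one _), (twHom_inc _).st, st_sub, st_smul, e1, e3]
      exact Sieve_half e2 _ _ _
    rw [e4]
    exact fun i j => Sieve_sub (h2 p hp i j) ((h2 p hp).st i j)
  · rw [st_add, st_sub, st_st, st_one, two_smul]
    abel

theorem Sieve_int (hβ : Par β) (s : Finset Nat.Primes) (x : ∀ p : Nat.Primes, Mt n (Ap p.1 M))
    (hx : ∀ p ∈ s, x p ∈ Dal n (inc ℚ_[p] M β.1)) {ε : ℝ} (hε : 0 < ε) :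
    ∃ y ∈ Dal n β.1, (∀ p ∈ s, Le ε (y.map (inc ℚ_[p] M) - x p)) ∧
      (∀ p, p ∉ s → Le 1 (y.map (inc ℚ_[p] M))) ∧
      ((∀ p ∈ s, x p + st (x p) = 2) → ∃ c : M, y + st y = c • 1) := by
  obtain ⟨y, h1, h2, h3⟩ := Sieve_skew hβ s x hx hε
  obtain ⟨c, c1, c2⟩ := Sieve_glue s (finite_not_le y).toFinset y (lt_min hε one_pos)
  refine ⟨(c : M) • y, smul_mem_Dal (map_natCast _ c) h1, fun p hp i j => ?_, fun p hp i j => ?_,
    fun H => ⟨c * 2, ?_⟩⟩
  · show ‖inc ℚ_[p] M (c * y i j) - x p i j‖ ≤ ε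
    rw [show c * y i j = y i j + (c * y i j - y i j) by ring, map_add, add_sub_right_comm]
    exact Sieve_add (h2 p hp i j) ((c1 p hp i j).trans (min_le_left _ _))
  · show ‖inc ℚ_[p] M (c * y i j)‖ ≤ 1
    by_cases h : Le 1 (y.map (inc ℚ_[p] M))
    · rw [map_mul]
      exact Sieve_mul (Sieve_nat c) (h i j)
    · exact (c2 p ((Set.Finite.mem_toFinset _).2 h) hp i j).trans (min_le_right _ _)
  · rw [st_smul, map_natCast, ← smul_add, h3 H, smul_smul]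

omit [G2 M] [OrdM n M] in
theorem Sieve_shift {p : ℕ} [Fact p.Prime] {y : Mt n M} {x : Mt n (Ap p M)} {c : M} {ε : ℝ}
    (h : Le ε (y.map (inc ℚ_[p] M) - x)) (hc : ‖inc ℚ_[p] M c‖ ≤ ε) :
    Le ε ((y + c • 1).map (inc ℚ_[p] M) - x) := fun i j => by
  show ‖inc ℚ_[p] M (y i j + c * (1 : Mt n M) i j) - x i j‖ ≤ ε
  rw [map_add, add_sub_right_comm, map_mul, mul_comm]
  refine Sieve_add (h i j) (Sieve_mul ?_ hc)
  rw [Matrix.one_apply]
  split_ifs
  · rw [map_one, norm_one]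
  · rw [map_zero, norm_zero]
    exact zero_le_one

end

theorem approx {β : Mˣ} (hβ : Par β) (s : Finset Nat.Primes)
    (x : ∀ p : Nat.Primes, Mt n (Ap p.1 M)) (hx : ∀ p ∈ s, x p ∈ Dal n (inc ℚ_[p] M β.1))
    {ε : ℝ} (hε : 0 < ε) : ∃ g : Gl n M, g.1 ∈ Dal n β.1 ∧
      (∀ p ∈ s, Le ε (g.1.map (inc ℚ_[p] M) - x p)) ∧
      (∀ p, p ∉ s → Le 1 (g.1.map (inc ℚ_[p] M)) ∧
        (¬ Sp M p → Le 1 ((g⁻¹).1.map (inc ℚ_[p] M)))) ∧
      ((∀ p ∈ s, x p + st (x p) = 2) → st g.1 * g.1 = g.1 * st g.1) := by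
  classical
  have r1 : sg (G2.r : M) = G2.r := G2.σr
  have r2 : ta (G2.r : M) = -G2.r := G2.τr
  obtain ⟨s', s1, s2⟩ : ∃ s' : Finset Nat.Primes, s ⊆ s' ∧ ∀ q, q ∉ s' →
      ‖inc ℚ_[q] M (2 * (G2.m M : ℤ) : M)⁻¹‖ ≤ 1 ∧
      ‖inc ℚ_[q] M (((n + 1).factorial : M))⁻¹‖ ≤ 1 := by
    refine ⟨s ∪ ((finite_norm_gt (2 * (G2.m M : ℤ) : M)⁻¹).union
      (finite_norm_gt (((n + 1).factorial : M))⁻¹)).toFinset, Finset.subset_union_left,
      fun q hq => ?_⟩
    simp only [Finset.mem_union, Set.Finite.mem_toFinset, Set.mem_union, Set.mem_ofPred_eq, not_or,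
      not_not] at hq
    exact hq.2
  obtain ⟨δ, d0, d1, d2⟩ : ∃ δ : ℝ, 0 < δ ∧ δ ≤ ε ∧ δ ≤ 1 / 2 :=
    ⟨min ε (1 / 2), lt_min hε (by norm_num), min_le_left _ _, min_le_right _ _⟩
  obtain ⟨y, y1, y2, y3, y4⟩ := Sieve_int hβ s' (fun p => if p ∈ s then x p else 1)
    (fun p _ => by
      split_ifs with h
      exacts [hx p h, one_mem _]) d0
  obtain ⟨N, N0, hN⟩ := Sieve_crt (M := M) s' (fun _ => 0) d0
  obtain ⟨a, U, V, hUV⟩ := Sieve_coprime (charpoly_monic (-y)).ne_zero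
    (charpoly_monic (-st y)).ne_zero (mul_ne_zero (Nat.cast_ne_zero.2 N0.ne') (G2.r0 (M := M)))
  obtain ⟨c, hc⟩ : ∃ c : M, c = a * (N * G2.r) := ⟨_, rfl⟩
  rw [← hc] at hUV
  have c1 : sg c = c := by rw [hc, map_mul, map_mul, map_natCast, map_natCast, r1]
  have c2 : ta c = -c := by
    rw [hc, map_mul, map_mul, map_natCast, map_natCast, r2, mul_neg, mul_neg]
  have c3 : ∀ (p : Nat.Primes) (η : ℝ), ‖inc ℚ_[p] M N‖ ≤ η → ‖inc ℚ_[p] M c‖ ≤ η :=
    fun p η h => by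
      rw [hc, map_mul, map_mul, mul_comm (inc ℚ_[p] M N)]
      exact Sieve_mul (Sieve_nat a) (Sieve_mul Sieve_r h)
  have z1 : y + c • 1 ∈ Dal n β.1 := add_mem y1 (smul_mem_Dal c1 (one_mem _))
  have z2 : ∀ p ∈ s', Le δ ((y + c • 1).map (inc ℚ_[p] M) - if p ∈ s then x p else 1) :=
    fun p hp => Sieve_shift (y2 p hp) (c3 p δ (by simpa using hN p hp))
  have z3 : ∀ (p : Nat.Primes) (k : ℕ), p ∉ s' →
      Le 1 ((y + c • 1 + (k : M) • 1).map (inc ℚ_[p] M)) := fun p k hp => by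
    simpa only [sub_zero] using Sieve_shift (x := 0) (Sieve_shift (x := 0)
      (by simpa only [sub_zero] using y3 p hp) (c3 p 1 (Sieve_nat N))) (Sieve_nat k)
  have z4 : ∀ t : ℕ, st (y + c • 1 + (t : M) • 1) = st y + ((t : M) - c) • 1 := fun t => by
    rw [st_add, st_add, st_smul, st_smul, st_one, c2, map_natCast]
    module
  have z5 : ∀ t : ℕ, U.eval (t : M) * (y + c • 1 + (t : M) • 1).det +
      V.eval (t : M) * ta (y + c • 1 + (t : M) • 1).det = 1 := fun t => by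
    rw [← det_st, z4, add_assoc, ← add_smul, add_comm c, ← Sieve_eval_det, ← Sieve_eval_det]
    exact hUV t
  choose! k hk using fun (q : Nat.Primes) (hq : q ∉ s') => Sieve_diff (y + c • 1) (s2 q hq).2
  obtain ⟨t, -, ht⟩ := Sieve_crt (M := M)
    (s' ∪ ((Sieve_eval U).union (Sieve_eval V)).toFinset) (fun p => if p ∈ s' then 0 else k p) d0
  obtain ⟨g, hg⟩ : ∃ g, g = y + c • 1 + (t : M) • 1 := ⟨_, rfl⟩
  have g1 : g ∈ Dal n β.1 := hg ▸ add_mem z1 (smul_mem_Dal (map_natCast _ t) (one_mem _))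
  have g2 : ∀ p ∈ s', Le δ (g.map (inc ℚ_[p] M) - if p ∈ s then x p else 1) := fun p hp =>
    hg ▸ Sieve_shift (z2 p hp) (by simpa [hp] using ht p (Finset.mem_union_left _ hp))
  have g3 := z5 t
  rw [← hg] at g3
  have g4 : g.det ≠ 0 := fun h => by
    rw [h, map_zero, mul_zero, mul_zero, add_zero] at g3
    exact zero_ne_one g3
  have hd : ∀ (p : Nat.Primes) (w : Mt n M),
      inc ℚ_[p] M w.det = (w.map (inc ℚ_[p] M)).det := fun p w => RingHom.map_det _ _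
  have g5 : ∀ p, p ∉ s' → 1 ≤ ‖inc ℚ_[p] M g.det‖ := fun p hp => by
    by_cases h : p ∈ ((Sieve_eval U).union (Sieve_eval V)).toFinset
    · have h1 := ht p (Finset.mem_union_right _ h)
      rw [if_neg hp, ← map_natCast (inc ℚ_[p] M), ← map_natCast (inc ℚ_[p] M), ← map_sub] at h1
      have h2 := Sieve_shift (y := y + c • 1 + (k p : M) • 1)
        (x := (y + c • 1 + (k p : M) • 1).map (inc ℚ_[p] M))
        (fun i j => by simpa using d0.le) h1
      rw [add_assoc _ _ (_ • _), ← add_smul, add_sub_cancel] at h2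
      have h3 := Sieve_det_sub (z3 p t hp) (z3 p (k p) hp) h2
      rw [← hd, ← hd, ← hg] at h3
      have h4 := Sieve_sub (le_max_left _ δ) (h3.trans (le_max_right ‖inc ℚ_[p] M g.det‖ δ))
      rw [sub_sub_cancel] at h4
      rcases le_max_iff.1 ((hk p hp).trans h4) with h5 | h5
      · exact h5
      · linarith
    · simp only [Set.Finite.mem_toFinset, Set.mem_union, Set.mem_ofPred_eq, not_or, not_not] at h
      have h1 := Sieve_add (Sieve_mul (h.1 t) le_rfl) (Sieve_mul (h.2 t) (Sieve_ta g.det).le)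
      rwa [← map_mul, ← map_mul, ← map_add, g3, map_one, norm_one] at h1
  have g6 : ∀ p, p ∉ s → Le 1 (g.map (inc ℚ_[p] M)) := fun p hp => by
    by_cases h : p ∈ s'
    · have h1 := g2 p h
      rw [if_neg hp] at h1
      intro i j
      have h2 := Sieve_add ((h1 i j).trans (d2.trans (by norm_num))) (le_one (A := Ap p.1 M) i j)
      rwa [Matrix.sub_apply, sub_add_cancel] at h2
    · exact hg ▸ z3 p t h
  refine ⟨⟨g, g.det⁻¹ • g.adjugate, ?_, ?_⟩, g1, fun p hp => ?_, fun p hp => ⟨g6 p hp, fun h => ?_⟩,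
    fun H => ?_⟩
  · rw [Matrix.mul_smul, mul_adjugate, smul_smul, inv_mul_cancel₀ g4, one_smul]
  · rw [Matrix.smul_mul, adjugate_mul, smul_smul, inv_mul_cancel₀ g4, one_smul]
  · have h1 := g2 p (s1 hp)
    rw [if_pos hp] at h1
    exact h1.mono d1
  · have h1 : ‖inc ℚ_[p] M g.det⁻¹‖ ≤ 1 := by
      by_cases h2 : p ∈ s'
      · have h3 := g2 p h2
        rw [if_neg hp] at h3
        have h4 := Sieve_det_sub (g6 p hp) le_one h3
        rw [det_one, ← hd] at h4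
        exact Sieve_inv (by rw [← map_mul, mul_inv_cancel₀ g4, map_one]) (h4.trans d2)
      · exact Sieve_inert (s2 p h2).1 h (sg_det g1) (hd p g ▸ Sieve_det (g6 p hp)) (g5 p h2)
    have h2 : g.adjugate.map (inc ℚ_[p] M) = (g.map (inc ℚ_[p] M)).adjugate :=
      RingHom.map_adjugate _ _
    show Le 1 ((g.det⁻¹ • g.adjugate).map (inc ℚ_[p] M))
    rw [map_smul_ring, h2]
    exact fun i j => Sieve_mul h1 (Sieve_adj (g6 p hp) i j)
  · obtain ⟨e, he⟩ := y4 fun p _ => by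
      split_ifs with h
      · exact H p h
      · rw [st_one, one_add_one_eq_two]
    have h1 : st g = (e + 2 * t) • 1 - g := by
      rw [hg, z4, eq_sub_of_add_eq' he]
      module
    show st g * g = g * st g
    rw [h1, Matrix.sub_mul, Matrix.mul_sub, Matrix.smul_mul, Matrix.mul_smul, Matrix.one_mul,
      Matrix.mul_one]

end Pool.Agent.P.MP_3c2f8c_gt.AO
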