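import Pool.Agent.P.MP_3c2f8c_gt.AO.NL
import Pool.Agent.P.MP_3c2f8c_gt.AO.Sieve
import Pool.Agent.P.MP_3c2f8c_gt.AO.Coef

/-! The Hasse principle for hermitian elements and for conjugacy of regular elements. -/

namespace Pool.Agent.P.MP_3c2f8c_gt.AO

open Matrix Pool.Agent.Lib.CFT

variable {n : ℕ} {M : Type} [Field M] [NumberField M] [G2 M] [OrdM n M]

section Aux

variable {A : Type} [CommRing A] [Tw A]

theorem HP_unit {y h : Mt n A} (hh : IsUnit h) (e : st y * y = h) : IsUnit y := by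
  rw [← e, Matrix.isUnit_iff_isUnit_det, det_mul] at hh
  exact (Matrix.isUnit_iff_isUnit_det y).2 (isUnit_of_mul_isUnit_right hh)

/-- The involution on invertible matrices. -/
def HP_st (g : Gl n A) : Gl n A :=
  ⟨st g.1, st (g⁻¹).1, by rw [← st_mul, Units.inv_mul, st_one],
    by rw [← st_mul, Units.mul_inv, st_one]⟩

theorem HP_move {y h : Mt n A} (g : Gl n A) (e : st y * y = st g.1 * h * g.1) :
    st (y * (g⁻¹).1) * (y * (g⁻¹).1) = h := by
  rw [st_mul, mul_assoc, ← mul_assoc (st y), e, mul_assoc, Units.mul_inv, mul_one, ← mul_assoc,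
    ← st_mul, Units.mul_inv, st_one, one_mul]

end Aux

section Nrm

variable {A : Type} [NormedCommRing A] [Tw A] [NTw A] [IsUltrametricDist A]

omit [Tw A] [NTw A] in
theorem HP_add {C : ℝ} {x y : Mt n A} (hx : Le C x) (hy : Le C y) : Le C (x + y) := fun i j =>
  (IsUltrametricDist.norm_add_le_max _ _).trans (max_le (hx i j) (hy i j))

omit [Tw A] [NTw A] [IsUltrametricDist A] in
theorem HP_bound (x : Mt n A) : ∃ C : ℝ, 0 < C ∧ Le C x := by
  obtain ⟨C, hC⟩ := (Set.finite_range fun ij : Fin (n + 1) × Fin (n + 1) => ‖x ij.1 ij.2‖).bddAbove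
  exact ⟨max C 1, lt_max_of_lt_right one_pos, fun i j =>
    (hC ⟨(i, j), rfl⟩).trans (le_max_left _ _)⟩

theorem HP_near {t : ℝ} (ht : t ≤ 1) {u : Mt n A} (hu : Le t (u - 1)) : Le t (st u * u - 1) := by
  have h0 : 0 ≤ t := (norm_nonneg _).trans (hu 0 0)
  have e : st u * u - 1 = st (u - 1) + (u - 1) + st (u - 1) * (u - 1) := by
    rw [st_sub, st_one]
    noncomm_ring
  rw [e]
  exact HP_add (HP_add hu.st hu) ((hu.st.mul hu).mono (mul_le_of_le_one_left h0 ht))

end Nrm

theorem HP_eps {ι : Type} (s : Finset ι) (t : ι → ℝ) (ht : ∀ i, 0 < t i) :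
    ∃ ε : ℝ, 0 < ε ∧ ∀ i ∈ s, ε ≤ t i := by
  have h : ∀ᶠ ε in nhdsWithin (0 : ℝ) (Set.Ioi 0), ∀ i ∈ s, ε ≤ t i :=
    (Filter.eventually_all_finset s).2 fun i _ =>
      nhdsWithin_le_nhds (Iic_mem_nhds (ht i))
  obtain ⟨ε, h1, h2⟩ := (h.and self_mem_nhdsWithin).exists
  exact ⟨ε, h2, h1⟩

omit [OrdM n M] in
theorem HP_fin : {p : Nat.Primes | (p.1 : ℤ) ∣ 2 * G2.m M}.Finite := by
  have h0 : 2 * G2.m M ≠ 0 := by
    refine mul_ne_zero two_ne_zero fun h => G2.r0 (M := M) ?_
    have := G2.rr (M := M)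
    rw [h, Int.cast_zero] at this
    exact pow_eq_zero_iff two_ne_zero |>.1 this
  refine ((Set.finite_Iic (2 * G2.m M).natAbs).preimage
    (f := fun p : Nat.Primes => p.1) Subtype.val_injective.injOn).subset fun p hp => ?_
  exact Nat.le_of_dvd (Int.natAbs_pos.2 h0) (Int.natCast_dvd.1 hp)

omit [OrdM n M] in
theorem HP_rat (β : M) (q : ℚ) : algebraMap ℚ (Mt n M) q ∈ Dal n β ∧
    st (algebraMap ℚ (Mt n M) q) = algebraMap ℚ (Mt n M) q := by
  have e : algebraMap ℚ (Mt n M) q = (q : M) • (1 : Mt n M) := by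
    rw [Algebra.algebraMap_eq_smul_one, Rat.cast_smul_eq_qsmul]
  rw [e]
  exact ⟨smul_mem_Dal (map_ratCast _ q) (one_mem _), by rw [st_smul, st_one, map_ratCast]⟩

omit [OrdM n M] in
theorem HP_r (β : M) : (G2.r : M) • (1 : Mt n M) ∈ Dal n β :=
  smul_mem_Dal (G2.σr (M := M)) (one_mem _)

theorem hp0 {β : Mˣ} (hβ : Par β) (ha : Aniso n β.1) {h : Gl n M} (hh : h.1 ∈ Dal n β.1)
    (hl : ∀ p : Nat.Primes, ∃ g ∈ Dal n (inc ℚ_[p] M β.1), st g * g = h.1.map (inc ℚ_[p] M)) :
    ∃ g : Gl n M, g.1 ∈ Dal n β.1 ∧ st g.1 * g.1 = h.1 := by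
  classical
  choose G hG hG' using hl
  have hu : ∀ p, IsUnit (G p) := fun p =>
    HP_unit (GeneralLinearGroup.map (inc ℚ_[p] M) h).isUnit (hG' p)
  have hst : st h.1 = h.1 := by
    refine Matrix.map_injective (inc_injective (M := M) ℚ_[(⟨2, Nat.prime_two⟩ : Nat.Primes)]) ?_
    show (st h.1).map _ = h.1.map _
    rw [(twHom_inc _).st, ← hG' ⟨2, Nat.prime_two⟩, st_mul, st_st]
  choose C hC hC' using fun p => HP_bound (G p)
  set s := (((HP_fin (M := M)).union (finite_not_le h.1)).union (finite_not_le (h⁻¹).1)).toFinset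
    with hs
  obtain ⟨ε, hε, hε'⟩ := HP_eps s (fun p => (p.1 : ℝ) ^ (-3 : ℤ) / C p) fun p =>
    div_pos (zpow_pos (Nat.cast_pos.2 p.2.pos) _) (hC p)
  obtain ⟨g, g1, g2, g3, -⟩ := approx hβ s (fun p => ((hu p).unit⁻¹).1)
    (fun p _ => inv_mem_Dal (g := (hu p).unit) (hG p)) hε
  set h1 : Gl n M := HP_st g * h * g with hh1
  have e1 : h1.1 = st g.1 * h.1 * g.1 := rfl
  have e2 : (h1⁻¹).1 = (g⁻¹).1 * ((h⁻¹).1 * st (g⁻¹).1) := rfl
  have e3 : st h1.1 = h1.1 := by rw [e1, st_mul, st_mul, st_st, hst, mul_assoc]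
  have hm : ∀ x ∈ ({h1.1, (G2.r : M) • (1 : Mt n M)} : Set (Mt n M)),
      x ∈ Algebra.adjoin ℚ ({h1.1, (G2.r : M) • (1 : Mt n M)} : Set (Mt n M)) :=
    Algebra.subset_adjoin
  obtain ⟨y, hy, hy'⟩ := norm_lemma hβ ha
    (Algebra.adjoin ℚ ({h1.1, (G2.r : M) • (1 : Mt n M)} : Set (Mt n M)))
    (fun x hx => by
      induction hx using Algebra.adjoin_induction with
      | mem x hx =>
        rcases hx with rfl | rfl
        · exact mul_mem (mul_mem (st_mem_Dal hβ g1) hh) g1
        · exact HP_r _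
      | algebraMap q => exact (HP_rat _ q).1
      | add x y _ _ hx hy => exact add_mem hx hy
      | mul x y _ _ hx hy => exact mul_mem hx hy)
    (fun x hx y hy => by
      refine Algebra.commute_of_mem_adjoin_of_forall_mem_commute hy fun b hb =>
        (Algebra.commute_of_mem_adjoin_of_forall_mem_commute hx fun a ha => ?_).symm
      rcases hb with rfl | rfl
      · rcases ha with rfl | rfl
        · exact Commute.refl _
        · exact (Commute.one_right _).smul_right _
      · exact (Commute.one_left _).smul_left _)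
    (fun x hx => by
      induction hx using Algebra.adjoin_induction with
      | mem x hx =>
        rcases hx with rfl | rfl
        · rw [e3]
          exact hm _ (Or.inl rfl)
        · have : ta (G2.r : M) = -G2.r := G2.τr
          rw [st_smul, st_one, this, neg_smul]
          exact neg_mem (hm _ (Or.inr rfl))
      | algebraMap q =>
        rw [(HP_rat β.1 q).2]
        exact Subalgebra.algebraMap_mem _ q
      | add x y _ _ hx hy =>
        rw [st_add]
        exact add_mem hx hy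
      | mul x y _ _ hx hy =>
        rw [st_mul]
        exact mul_mem hy hx)
    (hm _ (Or.inr rfl)) (hm _ (Or.inl rfl)) e3 (fun p => by
      by_cases hp : p ∈ s
      · refine Or.inr (Or.inl ?_)
        have a1 : h1.1.map (inc ℚ_[p] M) =
            st (G p * g.1.map (inc ℚ_[p] M)) * (G p * g.1.map (inc ℚ_[p] M)) := by
          rw [e1, Matrix.map_mul, Matrix.map_mul, (twHom_inc _).st, ← hG', st_mul]
          simp only [mul_assoc]
        have a2 : G p * g.1.map (inc ℚ_[p] M) - 1 =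
            G p * (g.1.map (inc ℚ_[p] M) - ((hu p).unit⁻¹).1) := by
          rw [mul_sub, IsUnit.mul_val_inv]
        rw [a1]
        refine HP_near (zpow_le_one_of_nonpos₀ (by exact_mod_cast p.2.one_lt.le) (by norm_num)) ?_
        rw [a2]
        refine ((hC' p).mul (g2 p hp)).mono ?_
        have := hε' p hp
        rwa [le_div_iff₀' (hC p)] at this
      · by_cases hsp : Sp M p
        · exact Or.inl hsp
        · obtain ⟨b1, b2⟩ := g3 p hp
          rw [hs, Set.Finite.mem_toFinset] at hp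
          simp only [Set.mem_union, Set.mem_ofPred_eq, not_or, not_not] at hp
          refine Or.inr (Or.inr (Or.inl ⟨hp.1.1, ?_, ?_⟩))
          · rw [e1, Matrix.map_mul, Matrix.map_mul, (twHom_inc _).st]
            simpa using (b1.st.mul hp.1.2).mul b1
          · rw [e2, Matrix.map_mul, Matrix.map_mul, (twHom_inc _).st]
            simpa using (b2 hsp).mul (hp.2.mul (b2 hsp).st))
  have hyD : y ∈ Dal n β.1 := by
    clear hy'
    induction hy using Algebra.adjoin_induction with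
    | mem x hx =>
      rcases hx with rfl | rfl
      · exact mul_mem (mul_mem (st_mem_Dal hβ g1) hh) g1
      · exact HP_r _
    | algebraMap q => exact (HP_rat _ q).1
    | add x y _ _ hx hy => exact add_mem hx hy
    | mul x y _ _ hx hy => exact mul_mem hx hy
  exact ⟨(HP_unit h1.isUnit hy').unit * g⁻¹, mul_mem hyD (inv_mem_Dal g1), HP_move g hy'⟩

theorem HP_diag {L V ι : Type} [Field L] [AddCommGroup V] [Module L V] (b : Module.Basis ι L V)
    {f x : Module.End L V} {μ : ι → L} (hμ : Function.Injective μ) (hf : ∀ i, f (b i) = μ i • b i)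
    (hx : x * f = f * x) (i : ι) : ∃ c : L, x (b i) = c • b i := by
  classical
  have key : ∀ j, (b.coord j) ∘ₗ f = μ j • b.coord j := fun j => b.ext fun k => by
    simp only [LinearMap.comp_apply, hf, map_smul, LinearMap.smul_apply, Module.Basis.coord_apply,
      Module.Basis.repr_self, Finsupp.single_apply]
    split_ifs with h
    · rw [h]
    · simp
  refine ⟨b.repr (x (b i)) i, b.repr.injective (Finsupp.ext fun j => ?_)⟩
  rw [map_smul, Module.Basis.repr_self, Finsupp.smul_apply, Finsupp.single_apply]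
  split_ifs with h
  · rw [h, smul_eq_mul, mul_one]
  · have h1 := LinearMap.congr_fun (key j) (x (b i))
    have h2 := LinearMap.congr_fun hx (b i)
    rw [Module.End.mul_apply, Module.End.mul_apply, hf, map_smul] at h2
    rw [LinearMap.comp_apply, ← h2, map_smul, LinearMap.smul_apply, Module.Basis.coord_apply,
      smul_eq_mul, smul_eq_mul] at h1
    rw [smul_zero]
    exact (mul_eq_mul_right_iff.1 h1).resolve_left fun e => h (hμ e)

theorem HP_comm_closed {K : Type} [Field K] [IsAlgClosed K] {γ x y : Mt n K}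
    (h : γ.charpoly.Separable) (hx : x * γ = γ * x) (hy : y * γ = γ * y) : x * y = y * x := by
  classical
  have h0 : γ.charpoly ≠ 0 := γ.charpoly_monic.ne_zero
  have hv : ∀ μ : γ.charpoly.rootSet K, ∃ v, Module.End.HasEigenvector (toLin' γ) μ.1 v := by
    intro μ
    refine Module.End.HasEigenvalue.exists_hasEigenvector ?_
    rw [Module.End.hasEigenvalue_iff_isRoot_charpoly, charpoly_toLin']
    have := (Polynomial.mem_rootSet.1 μ.2).2
    rwa [Polynomial.coe_aeval_eq_eval] at this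
  choose v hv using hv
  have li := Module.End.eigenvectors_linearIndependent' (toLin' γ)
    (fun μ : γ.charpoly.rootSet K => μ.1) Subtype.val_injective v hv
  have hc : Fintype.card (γ.charpoly.rootSet K) = Module.finrank K (Fin (n + 1) → K) := by
    rw [Polynomial.card_rootSet_eq_natDegree h (IsAlgClosed.splits _), charpoly_natDegree_eq_dim,
      Module.finrank_fintype_fun_eq_card]
  have : Nonempty (γ.charpoly.rootSet K) := by
    rw [← Fintype.card_pos_iff, hc]
    exact Module.finrank_pos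
  set b := basisOfLinearIndependentOfCardEqFinrank li hc with hb
  have hf : ∀ i, toLin' γ (b i) = i.1 • b i := fun i => by
    rw [hb, coe_basisOfLinearIndependentOfCardEqFinrank]
    exact (hv i).apply_eq_smul
  have e : ∀ z : Mt n K, z * γ = γ * z → ∀ i, ∃ c : K, toLin' z (b i) = c • b i := fun z hz =>
    HP_diag b Subtype.val_injective hf (by
      rw [Module.End.mul_eq_comp, Module.End.mul_eq_comp, ← toLin'_mul, ← toLin'_mul, hz])
  refine toLin'.injective (b.ext fun i => ?_)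
  obtain ⟨c, h1⟩ := e x hx i
  obtain ⟨d, h2⟩ := e y hy i
  rw [toLin'_mul, toLin'_mul, LinearMap.comp_apply, LinearMap.comp_apply, h1, h2, map_smul,
    map_smul, h1, h2, smul_comm]

/-- Matrices that commute with a matrix with separable characteristic polynomial commute. -/
theorem comm_of_sep {K : Type} [Field K] {γ x y : Mt n K} (h : γ.charpoly.Separable)
    (hx : x * γ = γ * x) (hy : y * γ = γ * y) : x * y = y * x := by
  have key := HP_comm_closed (γ := γ.map (algebraMap K (AlgebraicClosure K)))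
    (x := x.map (algebraMap K (AlgebraicClosure K))) (y := y.map (algebraMap K (AlgebraicClosure K)))
    (by rw [Matrix.charpoly_map]; exact h.map)
    (by rw [← Matrix.map_mul, hx, Matrix.map_mul]) (by rw [← Matrix.map_mul, hy, Matrix.map_mul])
  rw [← Matrix.map_mul, ← Matrix.map_mul] at key
  exact Matrix.map_injective (algebraMap K (AlgebraicClosure K)).injective key

/-- Conjugacy in the projective group in terms of matrices. -/
theorem HP_conj {A : Type} [CommRing A] [Tw A] {β : A} {g₁ g₂ u : Un n β} :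
    (QuotientGroup.mk u * QuotientGroup.mk g₁ * (QuotientGroup.mk u)⁻¹ : PU n β) =
      QuotientGroup.mk g₂ ↔ ∃ z : A, g₂.1.1 * u.1.1 = u.1.1 * (z • g₁.1.1) := by
  rw [← QuotientGroup.mk_mul, ← QuotientGroup.mk_inv, ← QuotientGroup.mk_mul, QuotientGroup.eq]
  refine exists_congr fun z => ?_
  have e : ((u * g₁ * u⁻¹)⁻¹ * g₂).1.1 = u.1.1 * ((g₁.1⁻¹).1 * (u.1⁻¹).1) * g₂.1.1 := rfl
  rw [e]
  constructor
  · intro h
    have h2 := congrArg (fun w => u.1.1 * (g₁.1.1 * ((u.1⁻¹).1 * w)) * u.1.1) h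
    simpa only [mul_assoc, Units.inv_mul_cancel_left, Units.mul_inv_cancel_left, mul_smul_comm,
      smul_mul_assoc, mul_one, Units.inv_mul] using h2
  · intro h
    have h2 := congrArg (fun w => u.1.1 * ((g₁.1⁻¹).1 * ((u.1⁻¹).1 * w)) * (u.1⁻¹).1) h
    simpa only [mul_assoc, Units.inv_mul_cancel_left, Units.mul_inv_cancel_left, mul_smul_comm,
      smul_mul_assoc, mul_one, Units.inv_mul, Units.mul_inv] using h2

theorem HP_herm {A : Type} [CommRing A] [Tw A] {γ γ' g : Mt n A} (h : st γ * γ = 1)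
    (h' : st γ' * γ' = 1) (e : γ' * g = g * γ) : γ * st g = st g * γ' := by
  have h1 : γ * st γ = 1 := mul_eq_one_comm.1 h
  have h2 := congrArg (fun w => γ * st w * γ') e
  simp only [st_mul, mul_assoc, h', mul_one] at h2
  rw [h2, ← mul_assoc, h1, one_mul]

variable (n) in
/-- The centraliser of an element in the algebra. -/
def HP_cen (β : M) (γ : Mt n M) : Subalgebra ℚ (Mt n M) where
  carrier := {x | x ∈ Dal n β ∧ x * γ = γ * x}
  add_mem' := fun hx hy => ⟨add_mem hx.1 hy.1, by rw [add_mul, mul_add, hx.2, hy.2]⟩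
  mul_mem' := fun hx hy => ⟨mul_mem hx.1 hy.1, by
    rw [mul_assoc, hy.2, ← mul_assoc, hx.2, mul_assoc]⟩
  algebraMap_mem' := fun q => ⟨(HP_rat β q).1, Algebra.commutes q γ⟩

theorem lg {β : Mˣ} (hβ : Par β) (ha : Aniso n β.1) (γ₁ γ₂ : PU n β.1) (h : RegP γ₁)
    (hl : ∀ p, IsConj (Phi n β.1 γ₁ p) (Phi n β.1 γ₂ p)) : IsConj γ₁ γ₂ := by
  obtain ⟨g₁, rfl, hsep, htr⟩ := h
  induction γ₂ using QuotientGroup.induction_on with
  | H g₂ =>
  set ζ : M := g₂.1.1.trace / g₁.1.1.trace with hζ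
  set γ : Mt n M := ζ • g₁.1.1 with hγ
  have loc : ∀ p : Nat.Primes, ∃ u : Un n (inc ℚ_[p] M β.1),
      g₂.1.1.map (inc ℚ_[p] M) * u.1.1 = u.1.1 * γ.map (inc ℚ_[p] M) := fun p => by
    obtain ⟨c, hc⟩ := isConj_iff.1 (hl p)
    induction c using QuotientGroup.induction_on with
    | H u =>
    rw [Phi_mk, Phi_mk] at hc
    obtain ⟨z, hz⟩ := HP_conj.1 hc
    rw [unMap_val, unMap_val] at hz
    have h1 := congrArg (fun w => ((u.1⁻¹).1 * w).trace) hz
    simp only [Units.inv_mul_cancel_left] at h1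
    rw [trace_mul_comm, mul_assoc, Units.mul_inv, mul_one, trace_smul, ← AddMonoidHom.map_trace,
      ← AddMonoidHom.map_trace, smul_eq_mul] at h1
    have h2 : inc ℚ_[p] M ζ = z := by
      rw [hζ, div_eq_mul_inv, map_mul, h1, mul_assoc, ← map_mul, mul_inv_cancel₀ htr, map_one,
        mul_one]
    exact ⟨u, by rw [hγ, map_smul_ring, h2, hz]⟩
  obtain ⟨u, hu⟩ := loc ⟨2, Nat.prime_two⟩
  have inj := inc_injective (M := M) ℚ_[(⟨2, Nat.prime_two⟩ : Nat.Primes)]
  have hγu : st γ * γ = 1 := by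
    refine Matrix.map_injective inj ?_
    show (st γ * γ).map _ = (1 : Mt n M).map _
    have h1 := congrArg (fun w => st w * w) hu
    simp only [st_mul, mul_assoc] at h1
    rw [← mul_assoc (st (g₂.1.1.map _)), ← (twHom_inc _).st, ← Matrix.map_mul, g₂.2.2,
      Matrix.map_one _ (map_zero _) (map_one _), one_mul, ← mul_assoc (st u.1.1), u.2.2,
      one_mul] at h1
    rw [Matrix.map_mul, (twHom_inc _).st, ← h1, Matrix.map_one _ (map_zero _) (map_one _)]
  have hζ0 : ζ ≠ 0 := fun h0 => by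
    rw [hγ, h0, zero_smul, mul_zero] at hγu
    exact zero_ne_one hγu
  obtain ⟨l, hl0⟩ : ∃ l, u.1.1.map (cf M l) ≠ 0 := by
    by_contra hn
    push Not at hn
    have h1 := mem_span_cf u.1.1
    have h2 : u.1.1 = 0 := by
      refine (Submodule.mem_bot _).1 (Submodule.span_le.2 ?_ h1)
      rintro _ ⟨l, rfl⟩
      simp only [hn, Matrix.map_zero _ (map_zero _), SetLike.mem_coe, Submodule.mem_bot]
    have := inj.nontrivial
    exact u.1.ne_zero h2
  have gD : u.1.1.map (cf M l) ∈ Dal n β.1 := cf_mem_Dal l u.2.1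
  have gc : g₂.1.1 * u.1.1.map (cf M l) = u.1.1.map (cf M l) * γ := by
    rw [← map_cf_mul', hu, map_cf_mul]
  obtain ⟨g, hg⟩ := isUnit_of_ne_zero hβ ha gD hl0
  rw [← hg] at gD gc
  have g3 := HP_herm hγu g₂.2.2 gc
  obtain ⟨y, hy, hy'⟩ := norm_lemma hβ ha (HP_cen n β.1 γ) (fun x hx => hx.1)
    (fun x hx y hy => by
      have key : ∀ w : Mt n M, w * γ = γ * w → w * g₁.1.1 = g₁.1.1 * w := fun w hw => by
        rw [hγ, mul_smul_comm, smul_mul_assoc] at hw
        exact smul_right_injective _ hζ0 hw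
      exact comm_of_sep hsep (key x hx.2) (key y hy.2))
    (fun x hx => ⟨st_mem_Dal hβ hx.1, (HP_herm hγu hγu hx.2.symm).symm⟩)
    ⟨HP_r _, ((Commute.one_left γ).smul_left _).eq⟩ (h := HP_st g * g)
    ⟨mul_mem (st_mem_Dal hβ gD) gD, by
      show st g.1 * g.1 * γ = γ * (st g.1 * g.1)
      rw [mul_assoc, ← gc, ← mul_assoc, ← g3, mul_assoc]⟩
    (by
      show st (st g.1 * g.1) = st g.1 * g.1
      rw [st_mul, st_st])
    (fun p => by
      obtain ⟨v, hv⟩ := loc p
      have a1 : (v.1⁻¹).1 * g.1.map (inc ℚ_[p] M) * γ.map (inc ℚ_[p] M) =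
          γ.map (inc ℚ_[p] M) * ((v.1⁻¹).1 * g.1.map (inc ℚ_[p] M)) := by
        have b := congrArg (fun w => (v.1⁻¹).1 * w * (v.1⁻¹).1) hv
        simp only [mul_assoc, Units.mul_inv, mul_one, Units.inv_mul_cancel_left] at b
        rw [mul_assoc, ← Matrix.map_mul, ← gc, Matrix.map_mul, ← mul_assoc, b, mul_assoc]
      have a2 : (v.1⁻¹).1 * g.1.map (inc ℚ_[p] M) ∈ Dal n (inc ℚ_[p] M β.1) :=
        mul_mem (inv_mem_Dal v.2.1) ((twHom_inc _).mem_Dal gD)
      refine Or.inr (Or.inr (Or.inr ⟨(v.1⁻¹).1 * g.1.map (inc ℚ_[p] M), ?_, ?_⟩))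
      · refine Submodule.span_mono ?_ (mem_span_cf _)
        rintro _ ⟨l', rfl⟩
        exact ⟨_, ⟨cf_mem_Dal l' a2, by rw [← map_cf_mul, a1, map_cf_mul']⟩, rfl⟩
      · show _ = (st g.1 * g.1).map _
        have b : st (v.1⁻¹).1 * (v.1⁻¹).1 = 1 := (v⁻¹).2.2
        rw [st_mul, mul_assoc, ← mul_assoc (st (v.1⁻¹).1), b, one_mul, Matrix.map_mul,
          (twHom_inc _).st])
  obtain ⟨Y, rfl⟩ := HP_unit (HP_st g * g).isUnit hy'
  have w1 : st (g.1 * (Y⁻¹).1) * (g.1 * (Y⁻¹).1) = 1 :=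
    HP_move Y (by rw [mul_one]; exact hy'.symm)
  refine isConj_iff.2 ⟨QuotientGroup.mk ⟨g * Y⁻¹, mul_mem gD (inv_mem_Dal hy.1), w1⟩,
    HP_conj.2 ⟨ζ, ?_⟩⟩
  show g₂.1.1 * (g.1 * (Y⁻¹).1) = g.1 * (Y⁻¹).1 * γ
  have b := congrArg (fun w => (Y⁻¹).1 * w * (Y⁻¹).1) hy.2
  simp only [mul_assoc, Units.mul_inv, mul_one, Units.inv_mul_cancel_left] at b
  rw [← mul_assoc, gc, mul_assoc, b, mul_assoc]

end Pool.Agent.P.MP_3c2f8c_gt.AO
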