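import Pool.Agent.P.MP_3c2f8c_gt.Lo.Hk8

/-! Stabilisers of norms in the general linear group; unit minors. -/

namespace Pool.Agent.P.MP_3c2f8c_gt.AO.HkG

open Matrix Hk2Aux

variable {p : ℕ} [Fact p.Prime] {ι : Type} [Fintype ι] [DecidableEq ι]

/-- The entries of `g` are bounded by the weights `x`. -/
def Wb (x : ι → ℝ) (g : Matrix ι ι ℚ_[p]) : Prop :=
  ∀ i j, ‖g i j‖ ≤ (p : ℝ) ^ (x i - x j)

omit [DecidableEq ι] in
theorem Wb.mul {x : ι → ℝ} {g h : Matrix ι ι ℚ_[p]} (hg : Wb x g) (hh : Wb x h) :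
    Wb x (g * h) := fun i j => by
  have hp : (0 : ℝ) < p := p_pos
  rw [Matrix.mul_apply]
  refine IsUltrametricDist.norm_sum_le_of_forall_le_of_nonneg (by positivity) fun k _ => ?_
  rw [norm_mul, show x i - x j = (x i - x k) + (x k - x j) by ring, Real.rpow_add hp]
  exact mul_le_mul (hg i k) (hh k j) (norm_nonneg _) (by positivity)

omit [Fintype ι] in
theorem wb_one (x : ι → ℝ) : Wb x (1 : Matrix ι ι ℚ_[p]) := fun i j => by
  rw [Matrix.one_apply]
  split_ifs with h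
  · simp [h]
  · rw [norm_zero]
    positivity

omit [Fintype ι] in
theorem Wb.scalar {x : ι → ℝ} (x' : ι → ℝ) {c : ℚ_[p]} (h : Wb x (c • (1 : Matrix ι ι ℚ_[p]))) :
    Wb x' (c • (1 : Matrix ι ι ℚ_[p])) := fun i j => by
  by_cases e : i = j
  · subst e
    simpa using h i i
  · rw [Matrix.smul_apply, Matrix.one_apply_ne e, smul_zero, norm_zero]
    positivity

/-- The stabiliser of the norm with weights `x`. -/
def Gx (p : ℕ) [Fact p.Prime] (x : ι → ℝ) : Subgroup (GL ι ℚ_[p]) where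
  carrier := {g | Wb x g.1 ∧ Wb x (g⁻¹).1}
  one_mem' := ⟨wb_one x, by simpa using wb_one x⟩
  mul_mem' := fun {g h} hg hh => ⟨hg.1.mul hh.1, by
    simpa only [_root_.mul_inv_rev, Units.val_mul] using hh.2.mul hg.2⟩
  inv_mem' := fun {g} hg => ⟨hg.2, by simpa only [inv_inv] using hg.1⟩

theorem mem_Gx {x : ι → ℝ} {g : GL ι ℚ_[p]} : g ∈ Gx p x ↔ Wb x g.1 ∧ Wb x (g⁻¹).1 := Iff.rfl

/-- No difference of weights is an integer. -/
def Generic (x : ι → ℝ) : Prop := ∀ i j, i ≠ j → ∀ k : ℤ, x i - x j ≠ k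

/-- The only integral differences of weights are those of the pair `i₀, j₀`. -/
def Wall (y : ι → ℝ) (i₀ j₀ : ι) : Prop :=
  i₀ ≠ j₀ ∧ (∃ k : ℤ, y i₀ - y j₀ = k) ∧ ∀ i j, i ≠ j → (∃ k : ℤ, y i - y j = k) →
    (i = i₀ ∧ j = j₀) ∨ (i = j₀ ∧ j = i₀)

/-- `τ` enumerates the `k` indices with the largest values of `l`. -/
def Top {k : ℕ} (l : ι → ℤ) (τ : Fin k → ι) : Prop :=
  Function.Injective τ ∧ ∀ a j, l (τ a) < l j → ∃ a', τ a' = j

/-- All leading principal minors are units. -/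
def Big (l : ι → ℤ) (g : Matrix ι ι ℚ_[p]) : Prop :=
  ∀ (k : ℕ) (τ : Fin k → ι), Top l τ → ‖(g.submatrix τ τ).det‖ = 1

/-- The bounds on all minors that define the semigroup. -/
def InS (l : ι → ℤ) (y : ι → ℝ) (s t : ℝ) (c : ℕ) (g : Matrix ι ι ℚ_[p]) : Prop :=
  ∀ (k : ℕ) (τ : Fin k → ι), Top l τ →
    (∀ f f' : Fin k → ι, Function.Injective f → Function.Injective f' →
      ‖(g.submatrix f f').det‖ ≤ (p : ℝ) ^ (∑ a, y (f a) - ∑ a, y (f' a) +
        s * (∑ a, (l (f a) : ℝ) - ∑ a, (l (τ a) : ℝ)) -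
        t * (∑ a, (l (f' a) : ℝ) - ∑ a, (l (τ a) : ℝ)) + c * ∑ a, (l (τ a) : ℝ))) ∧
    ‖(g.submatrix τ τ).det‖ = (p : ℝ) ^ (c * ∑ a, (l (τ a) : ℝ))

/-- The point `y + t l`. -/
def pt (l : ι → ℤ) (y : ι → ℝ) (t : ℝ) : ι → ℝ := fun i => y i + t * l i

omit [Fintype ι] [DecidableEq ι] in
theorem cont (l : ι → ℤ) (y : ι → ℝ) (i j : ι) :
    Continuous fun u => pt l y u i - pt l y u j := by
  simp only [pt]
  fun_prop

theorem isCompact_gl (R : ℝ) :
    IsCompact {g : GL ι ℚ_[p] | ∀ i j, ‖g.1 i j‖ ≤ R ∧ ‖(g⁻¹).1 i j‖ ≤ R} := by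
  have h : IsCompact {X : Matrix ι ι ℚ_[p] | ∀ i j, X i j ∈ Metric.closedBall (0 : ℚ_[p]) R} :=
    isCompact_pi_infinite (s := fun _ : ι => {v : ι → ℚ_[p] |
      ∀ j, v j ∈ Metric.closedBall (0 : ℚ_[p]) R}) fun _ =>
        isCompact_pi_infinite fun _ => isCompact_closedBall _ _
  have h2 := (Units.isClosedEmbedding_embedProduct (α := Matrix ι ι ℚ_[p])).isCompact_preimage
    (h.prod (h.image MulOpposite.continuous_op))
  refine (congrArg IsCompact (Set.ext fun g => ?_)).mp h2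
  simp only [Set.mem_preimage, Units.embedProduct_apply, Set.mem_prod, Set.mem_ofPred_eq,
    mem_closedBall_zero_iff, Set.mem_image, MulOpposite.op_inj, exists_eq_right, forall_and]

theorem co_Gx (x : ι → ℝ) : CO (Gx p x) := by
  have hp : (0 : ℝ) < p := p_pos
  have h1 : ∀ i j, Continuous fun g : GL ι ℚ_[p] => g.1 i j := fun i j =>
    Units.continuous_val.matrix_elem i j
  have h2 : ∀ {f : GL ι ℚ_[p] → Matrix ι ι ℚ_[p]}, (∀ i j, Continuous fun g => f g i j) →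
      IsClopen {g | Wb x (f g)} := fun {f} hf => by
    simp only [Wb, Set.ofPred_forall, ← mem_closedBall_zero_iff]
    exact isClopen_iInter_of_finite fun i => isClopen_iInter_of_finite fun j =>
      (IsUltrametricDist.isClopen_closedBall _ (Real.rpow_pos_of_pos hp _).ne').preimage (hf i j)
  have h3 : IsClopen (Gx p x : Set (GL ι ℚ_[p])) :=
    (h2 h1).inter (h2 fun i j => (h1 i j).comp continuous_inv)
  obtain ⟨R, hR⟩ := Finite.bddAbove_range fun q : ι × ι => (p : ℝ) ^ (x q.1 - x q.2)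
  exact ⟨(isCompact_gl R).of_isClosed_subset h3.1 fun g hg i j =>
    ⟨(hg.1 i j).trans (hR ⟨(i, j), rfl⟩), (hg.2 i j).trans (hR ⟨(i, j), rfl⟩)⟩, h3.2⟩

theorem Gx_mono {x x' : ι → ℝ} (h : ∀ i j, ⌊x i - x j⌋ ≤ ⌊x' i - x' j⌋) :
    Gx p x ≤ Gx p x' := fun _ hg =>
  ⟨fun i j => Hk1Aux.le_of_floor (h i j) (hg.1 i j),
    fun i j => Hk1Aux.le_of_floor (h i j) (hg.2 i j)⟩

/-- The stabiliser does not change along a segment of generic points. -/
theorem Gx_pt_eq (l : ι → ℤ) (y : ι → ℝ) {t t' : ℝ} (h : t ≤ t')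
    (hg : ∀ u, t ≤ u → u ≤ t' → Generic (pt l y u)) : Gx p (pt l y t) = Gx p (pt l y t') := by
  have key : ∀ i j, ⌊pt l y t i - pt l y t j⌋ = ⌊pt l y t' i - pt l y t' j⌋ := fun i j => by
    by_cases hij : i = j
    · simp [hij]
    have h1 : ∀ k : ℤ, (k : ℝ) ∉ Set.uIcc (pt l y t i - pt l y t j) (pt l y t' i - pt l y t' j) :=
      fun k hk => by
        obtain ⟨u, hu, h2⟩ := intermediate_value_uIcc (f := fun u => pt l y u i - pt l y u j)
          (cont l y i j).continuousOn hk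
        rw [Set.uIcc_of_le h] at hu
        exact hg u hu.1 hu.2 i j hij k h2
    refine le_antisymm (not_lt.1 fun h2 => h1 _ (Set.mem_uIcc_of_ge (Int.floor_lt.1 h2).le
      (Int.floor_le _))) (not_lt.1 fun h2 => h1 _ (Set.mem_uIcc_of_le (Int.floor_lt.1 h2).le
      (Int.floor_le _)))
  exact le_antisymm (Gx_mono fun i j => (key i j).le) (Gx_mono fun i j => (key i j).ge)

omit [DecidableEq ι] in
theorem finite_not_generic {l : ι → ℤ} (hl : Function.Injective l) (y : ι → ℝ) (t t' : ℝ) :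
    {u | t ≤ u ∧ u ≤ t' ∧ ¬ Generic (pt l y u)}.Finite := by
  have key : ∀ q : {q : ι × ι // q.1 ≠ q.2}, ((fun u => pt l y u q.1.1 - pt l y u q.1.2) ⁻¹'
      (Int.cast '' (Int.cast ⁻¹' ((fun u => pt l y u q.1.1 - pt l y u q.1.2) ''
        Set.Icc t t')))).Finite := fun q => by
    refine Set.Finite.preimage (fun u _ v _ h => ?_) (Set.Finite.image _ (isCompact_iff_finite.1
      (Int.isClosedEmbedding_coe_real.isCompact_preimage
        (isCompact_Icc.image (cont l y _ _)))))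
    have h1 : (l q.1.1 - l q.1.2 : ℝ) ≠ 0 :=
      sub_ne_zero.2 (by exact_mod_cast fun h => q.2 (hl h))
    refine mul_right_cancel₀ h1 ?_
    simp only [pt] at h
    linarith
  refine (Set.finite_iUnion key).subset fun u hu => ?_
  obtain ⟨h1, h2, h3⟩ := hu
  simp only [Generic, not_forall, not_not] at h3
  obtain ⟨i, j, hij, k, hk⟩ := h3
  exact Set.mem_iUnion.2 ⟨⟨(i, j), hij⟩, k, ⟨u, ⟨h1, h2⟩, hk⟩, hk.symm⟩

theorem exists_shift (l : ι → ℤ) :
    ∃ s : GL ι ℚ_[p], s.1 = diagonal (fun i => (p : ℚ_[p]) ^ (-l i)) ∧ ∀ (y : ι → ℝ) (t : ℝ),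
      Gx p (pt l y (t + 1)) = (Gx p (pt l y t)).map (MulAut.conj s).toMonoidHom := by
  have hp : (0 : ℝ) < p := p_pos
  have hq : (p : ℚ_[p]) ≠ 0 := by exact_mod_cast (Fact.out : p.Prime).ne_zero
  let s : GL ι ℚ_[p] := ⟨diagonal fun i => (p : ℚ_[p]) ^ (-l i),
    diagonal fun i => (p : ℚ_[p]) ^ l i,
    by simp [diagonal_mul_diagonal, zpow_ne_zero _ hq],
    by simp [diagonal_mul_diagonal, zpow_ne_zero _ hq]⟩
  refine ⟨s, rfl, fun y t => ?_⟩
  have key : ∀ g : GL ι ℚ_[p], Wb (pt l y (t + 1)) g.1 ↔ Wb (pt l y t) (s⁻¹ * g * s).1 :=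
    fun g => forall₂_congr fun i j => by
      have h1 : (s⁻¹ * g * s).1 = diagonal (fun i => (p : ℚ_[p]) ^ l i) * g.1 *
        diagonal fun i => (p : ℚ_[p]) ^ (-l i) := rfl
      rw [h1, mul_diagonal, diagonal_mul, norm_mul, norm_mul, Padic.norm_p_zpow, Padic.norm_p_zpow,
        ← Real.rpow_intCast, ← Real.rpow_intCast, mul_right_comm, ← Real.rpow_add hp,
        ← le_inv_mul_iff₀ (Real.rpow_pos_of_pos hp _), ← Real.rpow_neg hp.le, ← Real.rpow_add hp]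
      simp only [pt, Int.cast_neg]
      ring_nf
  ext g
  rw [Subgroup.mem_map_equiv, MulAut.conj_symm_apply]
  refine and_congr (key g) ((key g⁻¹).trans ?_)
  simp only [_root_.mul_inv_rev, inv_inv, mul_assoc]

omit [DecidableEq ι] in
/-- Just after and just before the point `y`. -/
theorem exists_wb_pt (l : ι → ℤ) (y : ι → ℝ) :
    ∃ ε₀ : ℝ, 0 < ε₀ ∧ ∀ ε : ℝ, 0 < ε → ε < ε₀ → ∀ g : Matrix ι ι ℚ_[p],
      (Wb (pt l y ε) g ↔ Wb y g ∧ ∀ i j, l i < l j → ‖g i j‖ < (p : ℝ) ^ (y i - y j)) ∧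
      (Wb (pt l y (-ε)) g ↔ Wb y g ∧ ∀ i j, l j < l i → ‖g i j‖ < (p : ℝ) ^ (y i - y j)) := by
  obtain ⟨ε₀, h0, h⟩ := mem_nhdsGT_iff_exists_Ioo_subset.1 (Filter.eventually_all.2 fun i =>
    Filter.eventually_all.2 fun j => (Hk1Aux.near (p := p) (y i - y j) (l i - l j)).and
      (Hk1Aux.near (p := p) (y i - y j) (l j - l i)))
  refine ⟨ε₀, h0, fun ε h1 h2 g => ?_⟩
  simp only [Wb, ← forall_and]
  refine ⟨forall₂_congr fun i j => ?_, forall₂_congr fun i j => ?_⟩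
  · rw [← Int.cast_lt (R := ℝ), ← sub_neg, ← (h ⟨h1, h2⟩ i j).1]
    simp only [pt]
    ring_nf
  · rw [← Int.cast_lt (R := ℝ), ← sub_neg, ← (h ⟨h1, h2⟩ i j).2]
    simp only [pt]
    ring_nf

/-- The core lemma. -/
theorem core {y : ι → ℝ} {g h : Matrix ι ι ℚ_[p]} (hgh : g * h = 1) (hg : Wb y g)
    (hh : Wb y h) {k : ℕ} {τ : Fin k → ι} (hτ : Function.Injective τ)
    (hb : ∀ b, (∀ j, (∃ m : ℤ, y j - y (τ b) = m) → ∃ a, τ a = j) ∨
      (‖g (τ b) (τ b)‖ = 1 ∧ ∀ a, a ≠ b → ∀ m : ℤ, y (τ a) - y (τ b) ≠ m)) :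
    ‖(g.submatrix τ τ).det‖ = 1 := by
  classical
  set F : Fin k → Prop := fun b => ∀ j, (∃ m : ℤ, y j - y (τ b) = m) → ∃ a, τ a = j with hF
  set B : Matrix (Fin k) (Fin k) ℚ_[p] := Matrix.of fun c b =>
    if F b then h (τ c) (τ b) else if c = b then (g (τ b) (τ b))⁻¹ else 0 with hB
  have hA : ‖(g.submatrix τ τ).det‖ ≤ 1 := det_le (fun a => y (τ a)) fun a b => hg _ _
  have hBle : ‖B.det‖ ≤ 1 := by
    refine det_le (fun a => y (τ a)) fun c b => ?_
    rw [hB, Matrix.of_apply]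
    split_ifs with h1 h2
    · exact hh _ _
    · subst h2
      rw [norm_inv, ((hb c).resolve_left h1).1, inv_one, sub_self, Real.rpow_zero]
    · rw [norm_zero]
      exact (Real.rpow_pos_of_pos p_pos _).le
  have hAB : ‖(g.submatrix τ τ * B).det‖ = 1 := by
    refine det_eq_one (fun a => y (τ a)) fun a b => ?_
    by_cases hFb : F b
    · have e1 : (g.submatrix τ τ * B) a b = ∑ j ∈ Finset.univ.image τ, g (τ a) j * h j (τ b) := by
        rw [Finset.sum_image fun c _ d _ hcd => hτ hcd, Matrix.mul_apply]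
        refine Finset.sum_congr rfl fun c _ => ?_
        rw [hB, Matrix.of_apply, if_pos hFb, Matrix.submatrix_apply]
      have e2 : (1 : Matrix (Fin k) (Fin k) ℚ_[p]) a b = ∑ j, g (τ a) j * h j (τ b) := by
        rw [← Matrix.mul_apply, hgh, Matrix.one_apply, Matrix.one_apply]
        simp only [hτ.eq_iff]
      rw [Matrix.sub_apply, e1, e2, ← Finset.sum_add_sum_compl (Finset.univ.image τ),
        sub_add_cancel_left, norm_neg]
      refine norm_sum_lt _ _ (Real.rpow_pos_of_pos p_pos _) fun j hj => ?_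
      have hj' : ∀ m : ℤ, y j - y (τ b) ≠ m := fun m hm => by
        obtain ⟨c, hc⟩ := hFb j ⟨m, hm⟩
        exact (Finset.mem_compl.1 hj) (Finset.mem_image.2 ⟨c, Finset.mem_univ _, hc⟩)
      rw [norm_mul, show y (τ a) - y (τ b) = (y (τ a) - y j) + (y j - y (τ b)) by ring,
        Real.rpow_add p_pos]
      exact mul_lt_mul_of_le_of_lt_of_nonneg_of_pos (hg _ _) (lt_of_nonint hj' (hh _ _))
        (norm_nonneg _) (Real.rpow_pos_of_pos p_pos _)
    · obtain ⟨hu, hs⟩ := (hb b).resolve_left hFb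
      have hne : g (τ b) (τ b) ≠ 0 := fun h0 => by
        rw [h0, norm_zero] at hu
        exact zero_ne_one hu
      have e1 : (g.submatrix τ τ * B) a b = g (τ a) (τ b) * (g (τ b) (τ b))⁻¹ := by
        rw [Matrix.mul_apply, Finset.sum_eq_single b]
        · rw [hB, Matrix.of_apply, if_neg hFb, if_pos rfl, Matrix.submatrix_apply]
        · intro c _ hc
          rw [hB, Matrix.of_apply, if_neg hFb, if_neg hc, mul_zero]
        · intro hc
          exact absurd (Finset.mem_univ b) hc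
      rw [Matrix.sub_apply, e1]
      by_cases hab : a = b
      · subst hab
        rw [mul_inv_cancel₀ hne, Matrix.one_apply_eq, sub_self, norm_zero]
        exact Real.rpow_pos_of_pos p_pos _
      · rw [Matrix.one_apply_ne hab, sub_zero, norm_mul, norm_inv, hu, inv_one, mul_one]
        exact lt_of_nonint (hs a hab) (hg _ _)
  rw [Matrix.det_mul, norm_mul] at hAB
  refine le_antisymm hA ?_
  calc (1 : ℝ) = ‖(g.submatrix τ τ).det‖ * ‖B.det‖ := hAB.symm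
    _ ≤ ‖(g.submatrix τ τ).det‖ * 1 := mul_le_mul_of_nonneg_left hBle (norm_nonneg _)
    _ = _ := mul_one _

theorem big_of_generic (l : ι → ℤ) {y : ι → ℝ} (hy : Generic y) {g : GL ι ℚ_[p]}
    (hg : g ∈ Gx p y) : Big l g.1 := by
  intro k τ hτ
  refine core g.mul_inv hg.1 hg.2 hτ.1 fun b => Or.inl fun j ⟨m, hm⟩ => ⟨b, ?_⟩
  by_contra hne
  exact hy j (τ b) (fun h => hne h.symm) m hm

theorem big_of_wall {l : ι → ℤ} {y : ι → ℝ} {i₀ j₀ : ι}
    (hw : Wall y i₀ j₀) (hlt : l j₀ < l i₀) {g : GL ι ℚ_[p]} (hg : g ∈ Gx p y)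
    (h1 : ‖g.1 i₀ i₀‖ = 1) : Big l g.1 := by
  intro k τ hτ
  refine core g.mul_inv hg.1 hg.2 hτ.1 fun b => ?_
  by_cases hF : ∀ j, (∃ m : ℤ, y j - y (τ b) = m) → ∃ a, τ a = j
  · exact Or.inl hF
  right
  push Not at hF
  obtain ⟨j, ⟨m, hm⟩, hj⟩ := hF
  have hW : ∀ a, a ≠ b → ∀ n : ℤ, y (τ a) - y (τ b) = n →
      (τ a = i₀ ∧ τ b = j₀) ∨ (τ a = j₀ ∧ τ b = i₀) := fun a hab n hn =>
    hw.2.2 _ _ (fun h => hab (hτ.1 h)) ⟨n, hn⟩
  rcases hw.2.2 j (τ b) (fun h => hj b h.symm) ⟨m, hm⟩ with ⟨e1, e2⟩ | ⟨e1, e2⟩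
  · obtain ⟨a, ha⟩ := hτ.2 b j (by rw [e1, e2]; exact hlt)
    exact absurd ha (hj a)
  · refine ⟨by rw [e2]; exact h1, fun a hab n hn => ?_⟩
    rcases hW a hab n hn with ⟨f1, f2⟩ | ⟨f1, f2⟩
    · exact hw.1 (e2.symm.trans f2)
    · exact hj a (f1.trans e1.symm)

end Pool.Agent.P.MP_3c2f8c_gt.AO.HkG
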