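import Pool.Agent.P.MP_3c2f8c_gt.AO.HkA

/-! Crossing a wall in the general linear group; the semigroup. -/

namespace Pool.Agent.P.MP_3c2f8c_gt.AO.HkG

open Matrix

set_option linter.unusedSectionVars false

variable {p : ℕ} [Fact p.Prime] {ι : Type} [Fintype ι] [DecidableEq ι]

section Wall

open Hk3Aux (ppos rp lt_left lt_right add_lt sub_lt)

/-- The normalised size of an entry. -/
noncomputable def nu (y : ι → ℝ) (g : Matrix ι ι ℚ_[p]) (i j : ι) : ℝ :=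
  ‖g i j‖ / (p : ℝ) ^ (y i - y j)

variable {y : ι → ℝ} {g h : Matrix ι ι ℚ_[p]}

theorem nu_nonneg (i j : ι) : 0 ≤ nu y g i j := div_nonneg (norm_nonneg _) (rp _).le

theorem nu_le {i j : ι} : nu y g i j ≤ 1 ↔ ‖g i j‖ ≤ (p : ℝ) ^ (y i - y j) :=
  div_le_one (rp _)

theorem nu_lt {i j : ι} : nu y g i j < 1 ↔ ‖g i j‖ < (p : ℝ) ^ (y i - y j) :=
  div_lt_one (rp _)

theorem nu_self (i : ι) : nu y g i i = ‖g i i‖ := by simp [nu]

theorem nu_lt_of (hg : Wb y g) {i j : ι} (hij : ¬ ∃ k : ℤ, y i - y j = k) :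
    nu y g i j < 1 := by
  refine nu_lt.2 (lt_of_le_of_ne (hg i j) fun e => hij ?_)
  have h0 : g i j ≠ 0 := fun h0 => by
    rw [h0, norm_zero] at e
    exact (rp _).ne e
  rw [Padic.norm_eq_zpow_neg_valuation h0, ← Real.rpow_intCast] at e
  have h1 : (1 : ℝ) < p := by exact_mod_cast (Fact.out : p.Prime).one_lt
  exact ⟨_, (Real.rpow_right_inj ppos h1.ne').1 e.symm⟩

theorem norm_mul_eq (i k j : ι) :
    ‖g i k * h k j‖ = nu y g i k * nu y h k j * (p : ℝ) ^ (y i - y j) := by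
  rw [norm_mul, nu, nu, show y i - y j = (y i - y k) + (y k - y j) by ring, Real.rpow_add ppos]
  field_simp [(rp (p := p) (y i - y k)).ne', (rp (p := p) (y k - y j)).ne']

theorem norm_mul_lt {i k j : ι} :
    ‖g i k * h k j‖ < (p : ℝ) ^ (y i - y j) ↔ nu y g i k * nu y h k j < 1 := by
  rw [norm_mul_eq (y := y), mul_lt_iff_lt_one_left (rp _)]

/-- The class of `i` is contained in `{i, j}`. -/
def Cl (y : ι → ℝ) (i j : ι) : Prop :=
  i ≠ j ∧ ∀ k, (∃ m : ℤ, y i - y k = m) → k = i ∨ k = j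

theorem block (hg : Wb y g) (hh : Wb y h) {i j : ι} (hc : Cl y i j) (c : ι) :
    ‖(g * h) i c - (g i i * h i c + g i j * h j c)‖ < (p : ℝ) ^ (y i - y c) := by
  rw [Matrix.mul_apply, ← Finset.add_sum_erase _ _ (Finset.mem_univ i),
    ← Finset.add_sum_erase _ _ (Finset.mem_erase.2 ⟨hc.1.symm, Finset.mem_univ j⟩), ← add_assoc,
    add_sub_cancel_left]
  refine Hk2Aux.norm_sum_lt _ _ (rp _) fun k hk => norm_mul_lt.2 (lt_left (nu_lt_of hg fun e => ?_)
    (nu_nonneg _ _) (nu_le.2 (hh k c)))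
  simp only [Finset.mem_erase] at hk
  exact (hc.2 k e).elim hk.2.1 hk.1

theorem diag_rel (hg : Wb y g) (hh : Wb y h) (e : g * h = 1) {i j : ι} (hc : Cl y i j)
    (h1 : nu y g i i * nu y h i i < 1) (h2 : nu y g i j * nu y h j i < 1) : False := by
  have b := block hg hh hc i
  have b1 := add_lt b (add_lt (norm_mul_lt.2 h1) (norm_mul_lt.2 h2))
  simp [e] at b1

theorem off_rel (hg : Wb y g) (hh : Wb y h) (e : g * h = 1) {i j : ι} (hc : Cl y i j) :
    ‖g i i * h i j + g i j * h j j‖ < (p : ℝ) ^ (y i - y j) := by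
  have b := block hg hh hc j
  rwa [e, one_apply_ne hc.1, zero_sub, norm_neg] at b

theorem dual (hg : Wb y g) (hh : Wb y h) (e : g * h = 1) {i j : ι} (hc : Cl y i j)
    (h1 : nu y g i i < 1) : nu y h j j < 1 := by
  have a1 : ¬ nu y g i j < 1 := fun a => diag_rel hg hh e hc
    (lt_left h1 (nu_nonneg _ _) (nu_le.2 (hh _ _))) (lt_left a (nu_nonneg _ _) (nu_le.2 (hh _ _)))
  have a2 := sub_lt (off_rel hg hh e hc)
    (norm_mul_lt.2 (lt_left h1 (nu_nonneg _ _) (nu_le.2 (hh i j))))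
  rw [add_sub_cancel_left, norm_mul_lt, le_antisymm (nu_le.2 (hg i j)) (not_lt.1 a1),
    one_mul] at a2
  exact a2

theorem exists_w (σ : Equiv.Perm ι) (h1 : ∀ i, σ (σ i) = i)
    (h3 : ∀ i, ∃ m : ℤ, y (σ i) - y i = m) :
    ∃ w ∈ Gx p y, w⁻¹ = w ∧ (∀ g i j, nu y (w.1 * g) i j = nu y g (σ i) j) ∧
      ∀ g i j, nu y (g * w.1) i j = nu y g i (σ j) := by
  choose n hn using h3
  have p0 : (p : ℚ_[p]) ≠ 0 := Nat.cast_ne_zero.2 (Fact.out : p.Prime).ne_zero
  let d : ι → ℚ_[p] := fun i => (p : ℚ_[p]) ^ (-n i)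
  have dd : ∀ {i j}, (n i : ℝ) + n j = 0 → d i * d j = 1 := fun {i j} e => by
    have e' : -n i + -n j = 0 := by
      have : n i + n j = 0 := by exact_mod_cast e
      omega
    simp only [d]
    rw [← zpow_add₀ p0, e', zpow_zero]
  have d1 : ∀ i, d (σ i) * d i = 1 := fun i => dd (by rw [← hn, ← hn, h1]; ring)
  have nd : ∀ i, ‖d i‖ = (p : ℝ) ^ (y (σ i) - y i) := fun i => by
    simp only [d]
    rw [Padic.norm_p_zpow, neg_neg, hn, Real.rpow_intCast]
  let w : Matrix ι ι ℚ_[p] := (diagonal d).submatrix σ id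
  have wv : ∀ i j, w i j = if σ i = j then d j else 0 := fun i j => by
    simp only [w, submatrix_apply, id, diagonal_apply]
    split_ifs with e
    exacts [by rw [e], rfl]
  have wl : ∀ g : Matrix ι ι ℚ_[p], ∀ i j, (w * g) i j = d (σ i) * g (σ i) j := by
    intro g i j
    simp [Matrix.mul_apply, wv]
  have wr : ∀ g : Matrix ι ι ℚ_[p], ∀ i j, (g * w) i j = g i (σ j) * d j := by
    intro g i j
    rw [Matrix.mul_apply, Finset.sum_eq_single (σ j) (fun k _ hk => ?_) (by simp), wv,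
      if_pos (h1 j)]
    rw [wv, if_neg fun e => hk (by rw [← e, h1]), mul_zero]
  have ww : w * w = 1 := by
    ext i j
    rw [wl, wv, h1, one_apply]
    split_ifs with e
    exacts [e ▸ d1 i, mul_zero _]
  have nl : ∀ g : Matrix ι ι ℚ_[p], ∀ i j, nu y (w * g) i j = nu y g (σ i) j := by
    intro g i j
    rw [nu, nu, wl, norm_mul, nd, h1, div_eq_div_iff (rp _).ne' (rp _).ne', mul_right_comm,
      ← Real.rpow_add ppos, mul_comm]
    congr 2
    ring
  have nr : ∀ g : Matrix ι ι ℚ_[p], ∀ i j, nu y (g * w) i j = nu y g i (σ j) := by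
    intro g i j
    rw [nu, nu, wr, norm_mul, nd, div_eq_div_iff (rp _).ne' (rp _).ne', mul_assoc,
      ← Real.rpow_add ppos]
    congr 2
    ring
  have hw : Wb y w := fun i j => nu_le.1 (by
    have := nl 1 i j
    rw [Matrix.mul_one] at this
    exact this.trans_le (nu_le.2 (wb_one y _ _)))
  exact ⟨⟨w, w, ww, ww⟩, ⟨hw, hw⟩, rfl, nl, nr⟩

omit [Fintype ι] in
theorem swap_int {a b : ι} (h : ∃ m : ℤ, y a - y b = m) (i : ι) :
    ∃ m : ℤ, y (Equiv.swap a b i) - y i = m := by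
  obtain ⟨m, hm⟩ := h
  rw [Equiv.swap_apply_def]
  split_ifs with e1 e2
  · exact ⟨-m, by rw [e1]; push_cast; linarith⟩
  · exact ⟨m, by rw [e2, hm]⟩
  · exact ⟨0, by simp⟩

omit [Fintype ι] [DecidableEq ι] in
theorem wall_symm {i₀ j₀ : ι} (hw : Wall y i₀ j₀) : Wall y j₀ i₀ := by
  obtain ⟨h1, ⟨k, hk⟩, h3⟩ := hw
  exact ⟨h1.symm, ⟨-k, by push_cast; linarith⟩, fun i j hij h => (h3 i j hij h).symm⟩

omit [Fintype ι] [DecidableEq ι] in
theorem wall_cl {i₀ j₀ : ι} (hw : Wall y i₀ j₀) : Cl y i₀ j₀ := by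
  refine ⟨hw.1, fun k hk => ?_⟩
  by_cases e : i₀ = k
  · exact Or.inl e.symm
  rcases hw.2.2 i₀ k e hk with h | h
  · exact Or.inr h.2
  · exact absurd h.1 hw.1

theorem strict_iff {l : ι → ℤ} {i₀ j₀ : ι} (hw : Wall y i₀ j₀) (hlt : l j₀ < l i₀) (hg : Wb y g) :
    (∀ i j, l i < l j → ‖g i j‖ < (p : ℝ) ^ (y i - y j)) ↔ nu y g j₀ i₀ < 1 := by
  refine ⟨fun h => nu_lt.2 (h _ _ hlt), fun h i j hij => nu_lt.1 ?_⟩
  by_cases e : ∃ k : ℤ, y i - y j = k
  · rcases hw.2.2 i j (fun e' => by rw [e'] at hij; exact lt_irrefl _ hij) e with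
      ⟨rfl, rfl⟩ | ⟨rfl, rfl⟩
    · omega
    · exact h
  · exact nu_lt_of hg e

theorem step {l : ι → ℤ} {i₀ j₀ : ι} (hw : Wall y i₀ j₀) (hlt : l j₀ < l i₀) :
    ∃ ε₀ : ℝ, 0 < ε₀ ∧ ∀ ε : ℝ, 0 < ε → ε < ε₀ → ∃ w ∈ Gx p y,
      w ∉ Gx p (pt l y ε) ∧ Gx p (pt l y ε) ≤ Gx p y ∧
      Gx p (pt l y (-ε)) = (Gx p (pt l y ε)).map (MulAut.conj w).toMonoidHom ∧
      ∀ g ∈ Gx p y, w⁻¹ * g ∉ Gx p (pt l y ε) → Big l g.1 := by
  obtain ⟨ε₀, h0, H⟩ := exists_wb_pt (p := p) l y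
  obtain ⟨w, hwG, wi, wl, wr⟩ := exists_w (p := p) (Equiv.swap i₀ j₀)
    (Equiv.swap_apply_self _ _) (swap_int hw.2.1)
  have s4 := Equiv.swap_apply_left i₀ j₀
  have s4' := Equiv.swap_apply_right i₀ j₀
  refine ⟨ε₀, h0, fun ε e1 e2 => ?_⟩
  have P0 : ∀ g : Matrix ι ι ℚ_[p], Wb (pt l y ε) g ↔ Wb y g ∧ nu y g j₀ i₀ < 1 := fun g => by
    rw [(H ε e1 e2 g).1]
    exact and_congr_right fun hg => strict_iff hw hlt hg
  have M0 : ∀ g : Matrix ι ι ℚ_[p], Wb (pt l y (-ε)) g ↔ Wb y g ∧ nu y g i₀ j₀ < 1 := fun g => by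
    rw [(H ε e1 e2 g).2]
    refine and_congr_right fun hg => ?_
    rw [← strict_iff (l := fun i => -l i) (wall_symm hw) (by omega) hg]
    simp only [neg_lt_neg_iff]
  have P : ∀ g : GL ι ℚ_[p], g ∈ Gx p (pt l y ε) ↔ g ∈ Gx p y ∧
      nu y g.1 j₀ i₀ < 1 ∧ nu y (g⁻¹).1 j₀ i₀ < 1 := fun g => by
    rw [mem_Gx, mem_Gx, P0, P0, and_and_and_comm]
  have M : ∀ g : GL ι ℚ_[p], g ∈ Gx p (pt l y (-ε)) ↔ g ∈ Gx p y ∧
      nu y g.1 i₀ j₀ < 1 ∧ nu y (g⁻¹).1 i₀ j₀ < 1 := fun g => by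
    rw [mem_Gx, mem_Gx, M0, M0, and_and_and_comm]
  refine ⟨w, hwG, fun h => ?_, fun g hg => ((P g).1 hg).1, ?_, fun g hg h => ?_⟩
  · have := ((P w).1 h).2.1
    rw [← Matrix.mul_one w.1, wl, s4', nu_self] at this
    simp at this
  · ext g
    rw [Subgroup.mem_map_equiv, M, P, MulAut.conj_symm_apply, _root_.mul_inv_rev,
      _root_.mul_inv_rev, inv_inv, wi]
    simp only [Units.val_mul, wr, wl, s4, s4']
    refine and_congr_left fun _ => ⟨fun hg => mul_mem (mul_mem hwG hg) hwG, fun hg => ?_⟩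
    exact (Subgroup.mul_mem_cancel_left _ hwG).1 ((Subgroup.mul_mem_cancel_right _ hwG).1 hg)
  · rw [P, _root_.mul_inv_rev, inv_inv, wi] at h
    simp only [Units.val_mul, wl, wr, s4, s4', mul_mem hwG hg, true_and] at h
    have a1 : ¬ nu y g.1 i₀ i₀ < 1 := fun b => h ⟨b, dual hg.1 hg.2 g.mul_inv (wall_cl hw) b⟩
    refine big_of_wall hw hlt hg ?_
    rw [← nu_self (y := y)]
    exact le_antisymm (nu_le.2 (hg.1 _ _)) (not_lt.1 a1)

theorem wall_step {l : ι → ℤ} (hl : Function.Injective l) {i₀ j₀ : ι} (hw : Wall y i₀ j₀) :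
    ∃ ε₀ : ℝ, 0 < ε₀ ∧ ∀ ε : ℝ, 0 < ε → ε < ε₀ → ∃ w ∈ Gx p y,
      w ∉ Gx p (pt l y ε) ∧ Gx p (pt l y ε) ≤ Gx p y ∧
      Gx p (pt l y (-ε)) = (Gx p (pt l y ε)).map (MulAut.conj w).toMonoidHom ∧
      ∀ g ∈ Gx p y, w⁻¹ * g ∉ Gx p (pt l y ε) → Big l g.1 := by
  rcases lt_or_gt_of_ne (hl.ne hw.1) with h | h
  · exact step (wall_symm hw) h
  · exact step hw h

end Wall

section Semigroup

open Hk4Aux (cauchy_binet' one_lt pos)

theorem sum_add_le {l : ι → ℤ} {k : ℕ} {τ f : Fin k → ι} (hτ : Function.Injective τ)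
    (hf : Function.Injective f) (d : ℤ)
    (h : ∀ i a, (∀ a', τ a' ≠ i) → l i + d ≤ l (τ a)) :
    ∑ a, l (f a) + (Finset.univ.image f \ Finset.univ.image τ).card * d ≤ ∑ a, l (τ a) := by
  have c : (Finset.univ.image f).card = (Finset.univ.image τ).card := by
    rw [Finset.card_image_of_injective _ hf, Finset.card_image_of_injective _ hτ]
  have e := Finset.equivOfCardEq (Finset.card_sdiff_comm c)
  have h1 : ∑ i ∈ Finset.univ.image f \ Finset.univ.image τ, (l i + d) ≤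
      ∑ i ∈ Finset.univ.image τ \ Finset.univ.image f, l i := by
    rw [← Finset.sum_coe_sort, ← Finset.sum_coe_sort _ l, ← e.sum_comp]
    refine Finset.sum_le_sum fun i _ => ?_
    obtain ⟨a, -, ha⟩ := Finset.mem_image.1 (Finset.mem_sdiff.1 (e i).2).1
    rw [← ha]
    exact h i a fun a' h' => (Finset.mem_sdiff.1 i.2).2 (Finset.mem_image.2 ⟨a', by simp, h'⟩)
  rw [Finset.sum_add_distrib, Finset.sum_const, nsmul_eq_mul] at h1
  have h2 := Finset.sum_sdiff_sub_sum_sdiff (s₁ := Finset.univ.image f) (s₂ := Finset.univ.image τ)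
    (f := l)
  rw [Finset.sum_image hf.injOn, Finset.sum_image hτ.injOn] at h2
  linarith

theorem inS_of_big {l : ι → ℤ} {y : ι → ℝ} {t : ℝ} {g : Matrix ι ι ℚ_[p]}
    (hg : Wb (pt l y t) g) (hb : Big l g) : InS l y t t 0 g := fun k τ hτ => by
  refine ⟨fun f f' _ _ => ?_, by simpa using hb k τ hτ⟩
  rw [det_apply']
  refine IsUltrametricDist.norm_sum_le_of_forall_le_of_nonneg (Real.rpow_nonneg pos.le _)
    fun σ _ => ?_
  have h1 : ‖((Equiv.Perm.sign σ : ℤ) : ℚ_[p])‖ = 1 := by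
    rcases Int.units_eq_one_or (Equiv.Perm.sign σ) with h | h <;> simp [h]
  rw [norm_mul, h1, one_mul, norm_prod]
  refine (Finset.prod_le_prod (fun _ _ => norm_nonneg _) fun a _ => hg (f (σ a)) (f' a)).trans
    (le_of_eq ?_)
  rw [← Real.rpow_sum_of_pos pos, Finset.sum_sub_distrib,
    Equiv.sum_comp σ fun a => pt l y t (f a)]
  simp only [pt, Finset.sum_add_distrib, ← Finset.mul_sum]
  congr 1
  push_cast
  ring

theorem Top.sum_le {l : ι → ℤ} {k : ℕ} {τ : Fin k → ι} (hτ : Top l τ) {f : Fin k → ι}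
    (hf : Function.Injective f) : ∑ a, l (f a) ≤ ∑ a, l (τ a) := by
  simpa using sum_add_le (l := l) hτ.1 hf 0 fun i a h => by
    rw [add_zero]
    exact not_lt.1 fun h' => (hτ.2 a i h').elim h

theorem Top.sum_lt {l : ι → ℤ} (hl : Function.Injective l) {k : ℕ} {τ : Fin k → ι}
    (hτ : Top l τ) {f : Fin k → ι} (hf : Function.Injective f)
    (hne : Set.range f ≠ Set.range τ) : ∑ a, l (f a) < ∑ a, l (τ a) := by
  have h1 := sum_add_le (l := l) hτ.1 hf 1 fun i a h =>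
    lt_of_le_of_ne (not_lt.1 fun h' => (hτ.2 a i h').elim h) fun h' => h a (hl h').symm
  have h2 : (Finset.univ.image f \ Finset.univ.image τ).card ≠ 0 := fun h => hne (by
    have := Finset.eq_of_subset_of_card_le (Finset.sdiff_eq_empty_iff_subset.1
      (Finset.card_eq_zero.1 h)) (by
        rw [Finset.card_image_of_injective _ hf, Finset.card_image_of_injective _ hτ.1])
    simpa using congrArg (fun s : Finset ι => (s : Set ι)) this)
  omega

theorem sum_le {l : ι → ℤ} {k : ℕ} {τ : Fin k → ι} (hτ : Top l τ) {f : Fin k → ι}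
    (hf : Function.Injective f) : ∑ a, (l (f a) : ℝ) - ∑ a, (l (τ a) : ℝ) ≤ 0 := by
  rw [sub_nonpos]
  exact_mod_cast hτ.sum_le hf

theorem InS.mono {l : ι → ℤ} {y : ι → ℝ} {s t s' t' : ℝ} {c : ℕ}
    {g : Matrix ι ι ℚ_[p]} (h : InS l y s t c g) (hs : s' ≤ s) (ht : t ≤ t') :
    InS l y s' t' c g := fun k τ hτ => by
  refine ⟨fun f f' hf hf' => ((h k τ hτ).1 f f' hf hf').trans
    (Real.rpow_le_rpow_of_exponent_le one_lt.le ?_), (h k τ hτ).2⟩
  linarith [mul_le_mul_of_nonpos_right hs (sum_le hτ hf),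
    mul_le_mul_of_nonpos_right ht (sum_le hτ hf')]

theorem InS.mul {l : ι → ℤ} (hl : Function.Injective l) {y : ι → ℝ} {s t s' t' : ℝ}
    {c c' : ℕ} {g h : Matrix ι ι ℚ_[p]} (hg : InS l y s t c g) (hh : InS l y s' t' c' h)
    (hts : t < s') : InS l y s t' (c + c') (g * h) := fun k τ hτ => by
  obtain ⟨T, hT, cb⟩ := cauchy_binet' (R := ℚ_[p]) hτ.1
  have cb' : ∀ f f' : Fin k → ι, ((g * h).submatrix f f').det =
      (g.submatrix f τ).det * (h.submatrix τ f').det +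
        ∑ e ∈ T, (g.submatrix f e).det * (h.submatrix e f').det := fun f f' =>
    cb (g.submatrix f id) (h.submatrix id f')
  have key : ∀ f e f' : Fin k → ι, Function.Injective f → Function.Injective e →
      Function.Injective f' → ‖(g.submatrix f e).det * (h.submatrix e f').det‖ ≤
        (p : ℝ) ^ (∑ a, y (f a) - ∑ a, y (f' a) + s * (∑ a, (l (f a) : ℝ) - ∑ a, (l (τ a) : ℝ)) -
          t' * (∑ a, (l (f' a) : ℝ) - ∑ a, (l (τ a) : ℝ)) + (c + c' : ℕ) * ∑ a, (l (τ a) : ℝ) +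
          (s' - t) * (∑ a, (l (e a) : ℝ) - ∑ a, (l (τ a) : ℝ))) := fun f e f' hf he hf' => by
    rw [norm_mul]
    refine (mul_le_mul ((hg k τ hτ).1 f e hf he) ((hh k τ hτ).1 e f' he hf') (norm_nonneg _)
      (Real.rpow_nonneg pos.le _)).trans (le_of_eq ?_)
    rw [← Real.rpow_add pos]
    congr 1
    push_cast
    ring
  refine ⟨fun f f' hf hf' => ?_, ?_⟩
  · have k2 := fun e he => (key f e f' hf he hf').trans (Real.rpow_le_rpow_of_exponent_le one_lt.le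
      (add_le_of_nonpos_right (mul_nonpos_of_nonneg_of_nonpos (sub_nonneg.2 hts.le) (sum_le hτ he))))
    rw [cb']
    exact (IsUltrametricDist.norm_add_le_max _ _).trans (max_le (k2 τ hτ.1)
      (IsUltrametricDist.norm_sum_le_of_forall_le_of_nonneg (Real.rpow_nonneg pos.le _)
        fun e he => k2 e (hT e he).1))
  · have h1 : ‖(g.submatrix τ τ).det * (h.submatrix τ τ).det‖ =
        (p : ℝ) ^ ((c + c' : ℕ) * ∑ a, (l (τ a) : ℝ)) := by
      rw [norm_mul, (hg k τ hτ).2, (hh k τ hτ).2, ← Real.rpow_add pos, Nat.cast_add, add_mul]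
    have h2 : ‖∑ e ∈ T, (g.submatrix τ e).det * (h.submatrix e τ).det‖ <
        (p : ℝ) ^ ((c + c' : ℕ) * ∑ a, (l (τ a) : ℝ)) := by
      refine (IsUltrametricDist.norm_sum_le_of_forall_le_of_nonneg (C := (p : ℝ) ^
        ((c + c' : ℕ) * ∑ a, (l (τ a) : ℝ) - (s' - t))) (Real.rpow_nonneg pos.le _)
        fun e he => (key τ e τ hτ.1 (hT e he).1 hτ.1).trans
          (Real.rpow_le_rpow_of_exponent_le one_lt.le ?_)).trans_lt
        (Real.rpow_lt_rpow_of_exponent_lt one_lt (by linarith))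
      have : ∑ a, (l (e a) : ℝ) + 1 ≤ ∑ a, (l (τ a) : ℝ) := by
        exact_mod_cast hτ.sum_lt hl (hT e he).1 (hT e he).2
      nlinarith
    rw [cb', IsUltrametricDist.norm_add_eq_max_of_norm_ne_norm (h1 ▸ h2.ne'), h1,
      max_eq_left h2.le]

theorem InS.mul_shift {l : ι → ℤ} {y : ι → ℝ} {s t : ℝ} {c : ℕ}
    {g : Matrix ι ι ℚ_[p]} (hg : InS l y s (t + 1) c g) :
    InS l y s t (c + 1) (g * diagonal fun i => (p : ℚ_[p]) ^ (-l i)) := fun k τ hτ => by
  have key : ∀ f f' : Fin k → ι,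
      ‖((g * diagonal fun i => (p : ℚ_[p]) ^ (-l i)).submatrix f f').det‖ =
        ‖(g.submatrix f f').det‖ * (p : ℝ) ^ ∑ a, (l (f' a) : ℝ) := fun f f' => by
    have : (g * diagonal fun i => (p : ℚ_[p]) ^ (-l i)).submatrix f f' =
        g.submatrix f f' * diagonal fun a => (p : ℚ_[p]) ^ (-l (f' a)) := by
      ext a b
      simp only [submatrix_apply, mul_diagonal]
    rw [this, det_mul, det_diagonal, norm_mul, norm_prod, Real.rpow_sum_of_pos pos]
    simp only [Padic.norm_p_zpow, neg_neg, Real.rpow_intCast]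
  refine ⟨fun f f' hf hf' => ?_, ?_⟩
  · rw [key]
    refine (mul_le_mul_of_nonneg_right ((hg k τ hτ).1 f f' hf hf')
      (Real.rpow_nonneg pos.le _)).trans (le_of_eq ?_)
    rw [← Real.rpow_add pos]
    congr 1
    push_cast
    ring
  · rw [key, (hg k τ hτ).2, ← Real.rpow_add pos, Nat.cast_succ, add_one_mul]

end Semigroup

end Pool.Agent.P.MP_3c2f8c_gt.AO.HkG
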