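import Pool.Agent.P.MP_3c2f8c_gt.AO.GDefs
import Pool.Agent.P.MP_3c2f8c_gt.Lo.Top
import Pool.Agent.P.MP_3c2f8c_gt.Ex.Lo.T1

/-! Good levels in the projective linear group. -/

namespace Pool.Agent.P.MP_3c2f8c_gt.AO

open Matrix

namespace LevAux

variable {κ : Type} [Fintype κ] [DecidableEq κ] {p : ℕ} [Fact p.Prime] {w : κ → ℝ} {r s : ℝ}
  {X Y : Matrix κ κ ℚ_[p]}

omit [Fintype κ] [DecidableEq κ] in
theorem wr_add (hX : Ex.Wr p w r X) (hY : Ex.Wr p w r Y) : Ex.Wr p w r (X + Y) := fun a b =>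
  (IsUltrametricDist.norm_add_le_max _ _).trans (max_le (hX a b) (hY a b))

omit [Fintype κ] [DecidableEq κ] in
theorem wr_mono (hX : Ex.Wr p w r X) (h : r ≤ s) : Ex.Wr p w s X := fun a b =>
  (hX a b).trans (mul_le_mul_of_nonneg_right h (by positivity))

omit [Fintype κ] [DecidableEq κ] in
theorem wr_nsmul (hX : Ex.Wr p w r X) (n : ℕ) : Ex.Wr p w r (n • X) := fun a b =>
  (IsUltrametricDist.norm_nsmul_le _ n).trans (hX a b)

theorem pos : (0 : ℝ) < p := by exact_mod_cast (Fact.out : p.Prime).pos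

theorem inv_lt : (p : ℝ)⁻¹ < 1 :=
  inv_lt_one_of_one_lt₀ (by exact_mod_cast (Fact.out : p.Prime).one_lt)

theorem eps_pos : (0 : ℝ) < (p : ℝ)⁻¹ * (p : ℝ)⁻¹ := mul_pos (inv_pos.2 pos) (inv_pos.2 pos)

theorem eps_lt : (p : ℝ)⁻¹ * (p : ℝ)⁻¹ < 1 :=
  mul_lt_one_of_nonneg_of_lt_one_left (by positivity) inv_lt inv_lt.le

omit [Fintype κ] in
theorem wr_one_of (h : Ex.Wr p w r (X - 1)) (hr : r < 1) : Ex.Wr p w 1 X := by
  have := wr_add (wr_mono h hr.le) (Ex.wr_one w)
  rwa [sub_add_cancel] at this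

variable (p) in
/-- The weighted congruence subgroup. -/
def cong (w : κ → ℝ) (h0 : 0 < r) (h1 : r < 1) : Subgroup (GL κ ℚ_[p]) where
  carrier := {g | Ex.Wr p w r (g.1 - 1)}
  one_mem' := fun a b => by
    simp only [Units.val_one, sub_self, Matrix.zero_apply, norm_zero]
    positivity
  mul_mem' := fun {g h} hg hh => by
    have h2 := (wr_one_of hg h1).mul hh zero_le_one h0.le
    rw [one_mul] at h2
    have h3 := wr_add h2 hg
    rw [Matrix.mul_sub, Matrix.mul_one, sub_add_sub_cancel] at h3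
    exact h3
  inv_mem' := fun {g} hg => (Ex.Wr.inv hg h0.le h1).2

theorem co_cong (w : κ → ℝ) (h0 : 0 < r) (h1 : r < 1) : CO (cong p w h0 h1) := by
  have h2 : IsClopen (cong p w h0 h1 : Set (GL κ ℚ_[p])) :=
    Ex.isClopen_wr (f := fun g : GL κ ℚ_[p] => g.1 - 1)
      (Units.continuous_val.sub continuous_const) w h0
  obtain ⟨R, hR⟩ := Ex.Wr.exists_bd (A := ℚ_[p]) p w 1
  have h3 := (Ex.isCompact_bdd (G := (⊤ : Subgroup (GL κ ℚ_[p]))) isClosed_univ R).image
    continuous_subtype_val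
  exact ⟨h3.of_isClosed_subset h2.1 fun g hg => ⟨⟨g, trivial⟩,
    ⟨hR _ (wr_one_of hg h1), hR _ (wr_one_of (inv_mem hg) h1)⟩, rfl⟩, h2.2⟩

theorem conj_mem {h0 : 0 < s} {h1 : s < 1} {g k : GL κ ℚ_[p]} (hg : g ∈ Ex.WS p w)
    (hk : k ∈ cong p w h0 h1) : g * k * g⁻¹ ∈ cong p w h0 h1 := by
  obtain ⟨r, hr, h2, h3⟩ := hg
  have h4 := (h2.mul hk hr.le h0.le).mul h3 (mul_nonneg hr.le h0.le) (inv_pos.2 hr).le
  rw [mul_right_comm, mul_inv_cancel₀ hr.ne', one_mul, Matrix.mul_sub, Matrix.sub_mul,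
    Matrix.mul_one, ← Units.val_mul g g⁻¹, mul_inv_cancel] at h4
  exact h4

theorem comm_pow {h0 : 0 < r} {h1 : r < 1} {g : GL κ ℚ_[p]} (hg : g ∈ cong p w h0 h1) (hs : 0 ≤ s)
    (hZ : Ex.Wr p w s (g.1 * X - X * g.1)) (i : ℕ) :
    Ex.Wr p w (r * s) (g.1 ^ i * X - X * g.1 ^ i - i • (g.1 * X - X * g.1)) := by
  induction i with
  | zero =>
    intro a b
    simp only [pow_zero, Matrix.one_mul, Matrix.mul_one, sub_self, zero_smul, Matrix.zero_apply,
      norm_zero]
    positivity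
  | succ i ih =>
    have hi : Ex.Wr p w r (g.1 ^ i - 1) := by
      have := pow_mem hg i
      rwa [← Units.val_pow_eq_pow_val]
    have h2 := hi.mul hZ h0.le hs
    have h3 := ih.mul (wr_one_of hg h1) (mul_nonneg h0.le hs) zero_le_one
    have h4 := (wr_nsmul hZ i).mul hg hs h0.le
    rw [mul_one] at h3
    rw [mul_comm s] at h4
    have h5 := wr_add (wr_add h2 h3) h4
    have e : (g.1 ^ i - 1) * (g.1 * X - X * g.1) +
        (g.1 ^ i * X - X * g.1 ^ i - i • (g.1 * X - X * g.1)) * g.1 +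
        (i • (g.1 * X - X * g.1)) * (g.1 - 1) =
        g.1 ^ (i + 1) * X - X * g.1 ^ (i + 1) - (i + 1) • (g.1 * X - X * g.1) := by
      rw [pow_succ, succ_nsmul]
      generalize i • (g.1 * X - X * g.1) = V
      noncomm_ring
    rwa [e] at h5

theorem norm_prime {l : ℕ} (hl : l.Prime) : (p : ℝ)⁻¹ ≤ ‖(l : ℚ_[p])‖ := by
  by_cases h : p = l
  · subst h
    exact Padic.norm_p.ge
  · rw [Padic.norm_natCast_eq_one_iff.2 ((Nat.coprime_primes Fact.out hl).2 h)]
    exact inv_lt.le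

theorem comm_of_pow {g : GL κ ℚ_[p]} (hg : g ∈ cong p w (eps_pos (p := p)) eps_lt) {l : ℕ}
    (hl : l.Prime) {t : ℚ_[p]} (h : g.1 ^ l = t • (1 : Matrix κ κ ℚ_[p])) (i₀ : κ)
    (X : Matrix κ κ ℚ_[p]) : X * g.1 = g.1 * X := by
  have : Nonempty κ := ⟨i₀⟩
  have hp : ∀ x : ℝ, (0 : ℝ) < (p : ℝ) ^ x := fun x => Real.rpow_pos_of_pos pos x
  obtain ⟨⟨a, b⟩, hab⟩ := Finite.exists_max fun x : κ × κ =>
    ‖(g.1 * X - X * g.1) x.1 x.2‖ / (p : ℝ) ^ (w x.1 - w x.2)
  set s := ‖(g.1 * X - X * g.1) a b‖ / (p : ℝ) ^ (w a - w b) with hs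
  have hs0 : 0 ≤ s := div_nonneg (norm_nonneg _) (hp _).le
  have hZ : Ex.Wr p w s (g.1 * X - X * g.1) := fun a' b' => (div_le_iff₀ (hp _)).1 (hab (a', b'))
  have h1 := comm_pow hg hs0 hZ l a b
  rw [h, Matrix.smul_mul, Matrix.mul_smul, Matrix.one_mul, Matrix.mul_one, sub_self, zero_sub,
    Matrix.neg_apply, norm_neg, Matrix.smul_apply, ← Nat.cast_smul_eq_nsmul ℚ_[p], norm_smul,
    ← div_le_iff₀ (hp _), mul_div_assoc, ← hs] at h1
  have h2 : (p : ℝ)⁻¹ * s ≤ (p : ℝ)⁻¹ * ((p : ℝ)⁻¹ * s) := by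
    rw [← mul_assoc]
    exact (mul_le_mul_of_nonneg_right (norm_prime hl) hs0).trans h1
  have h3 : s ≤ (p : ℝ)⁻¹ * s := le_of_mul_le_mul_left h2 (inv_pos.2 pos)
  have h4 : s = 0 := by
    have := inv_lt (p := p)
    nlinarith
  rw [eq_comm, ← sub_eq_zero]
  ext a' b'
  have h5 := hZ a' b'
  rw [h4, zero_mul] at h5
  exact norm_le_zero_iff.1 h5

/-- Monomial matrices that are adapted to the weights. -/
theorem exists_mono (σ : Equiv.Perm κ) (d : κ → ℚ_[p]) (hr : 0 < r)
    (hd : ∀ a, ‖d a‖ = r * (p : ℝ) ^ (w a - w (σ a))) :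
    ∃ g ∈ Ex.WS (A := ℚ_[p]) p w, g.1.det = (∏ a, d a) * ((Equiv.Perm.sign σ : ℤ) : ℚ_[p]) := by
  have hp : ∀ x : ℝ, (0 : ℝ) < (p : ℝ) ^ x := fun x => Real.rpow_pos_of_pos pos x
  have h0 : ∀ a, d a ≠ 0 := fun a => norm_pos_iff.1 (by rw [hd]; exact mul_pos hr (hp _))
  let M : Matrix κ κ ℚ_[p] := Matrix.of fun a b => if σ a = b then d a else 0
  let M' : Matrix κ κ ℚ_[p] := Matrix.of fun b a => if σ a = b then (d a)⁻¹ else 0
  have h1 : M * M' = 1 := by
    ext a a'
    rw [Matrix.mul_apply, Finset.sum_eq_single (σ a) (fun b _ hb => by simp [M, hb.symm])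
      (by simp), Matrix.one_apply]
    by_cases e : a = a'
    · subst e
      simp [M, M', h0 a]
    · simp [M, M', e, Ne.symm e]
  refine ⟨⟨M, M', h1, mul_eq_one_comm.1 h1⟩, ⟨r, hr, fun a b => ?_, fun b a => ?_⟩, ?_⟩
  · change ‖if σ a = b then d a else 0‖ ≤ _
    split_ifs with e
    · rw [hd, e]
    · rw [norm_zero]
      exact (mul_pos hr (hp _)).le
  · change ‖if σ a = b then (d a)⁻¹ else 0‖ ≤ _
    split_ifs with e
    · rw [norm_inv, hd, e, mul_inv, ← Real.rpow_neg pos.le, neg_sub]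
    · rw [norm_zero]
      exact (mul_pos (inv_pos.2 hr) (hp _)).le
  · have e : M = diagonal d * σ.permMatrix ℚ_[p] := by
      ext a b
      rw [Matrix.diagonal_mul]
      simp [M, Equiv.Perm.permMatrix, PEquiv.toMatrix_apply]
    change M.det = _
    rw [e, Matrix.det_mul, Matrix.det_diagonal, Matrix.det_permutation]

theorem transvection_mem {F : Type} [Field F] [CharZero F] {i j : κ} (h : i ≠ j) (a : F) :
    SpecialLinearGroup.transvection h a ∈ fiRes (SpecialLinearGroup κ F) := by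
  have e : ∀ (b : F) (k : ℕ), SpecialLinearGroup.transvection h b ^ k =
      SpecialLinearGroup.transvection h (k * b) := fun b k => by
    induction k with
    | zero => rw [pow_zero, Nat.cast_zero, zero_mul, SpecialLinearGroup.transvection_coeff_zero]
    | succ k ih => rw [pow_succ, ih, ← SpecialLinearGroup.transvection_add, Nat.cast_succ,
        add_mul, one_mul]
  refine mem_fiRes_of_root fun k hk => ⟨SpecialLinearGroup.transvection h (a / k), ?_⟩
  rw [e, mul_div_cancel₀ a (Nat.cast_ne_zero.2 hk.ne')]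

theorem sl_mem {F : Type} [Field F] [CharZero F] (M : SpecialLinearGroup κ F) :
    M ∈ fiRes (SpecialLinearGroup κ F) := by
  rcases subsingleton_or_nontrivial κ with hκ | hκ
  · rw [Subsingleton.elim M 1]
    exact one_mem _
  refine SpecialLinearGroup.diagonal_transvection_induction' (· ∈ fiRes _) M
    (fun i j h c hc => ?_) (fun i j h a => transvection_mem h a) fun A B => mul_mem
  have e : SpecialLinearGroup.diag2n h c hc =
      SpecialLinearGroup.transvection h.symm (c⁻¹ - 1) * SpecialLinearGroup.transvection h 1 *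
        SpecialLinearGroup.transvection h.symm (c - 1) *
          SpecialLinearGroup.transvection h (-c⁻¹) := by
    refine Subtype.ext ?_
    have e1 : (diagonal fun k => if k = i then c else if k = j then c⁻¹ else 1) =
        (1 : Matrix κ κ F) + single i i (c - 1) + single j j (c⁻¹ - 1) := by
      ext k l
      by_cases h1 : k = l
      · subst h1
        by_cases h2 : k = i
        · subst h2
          simp [h.symm]
        · by_cases h3 : k = j
          · subst h3
            simp [h, h2]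
          · simp [h2, h3, Ne.symm h2, Ne.symm h3]
      · have h2 : ¬(i = k ∧ i = l) := fun h3 => h1 (h3.1.symm.trans h3.2)
        have h3 : ¬(j = k ∧ j = l) := fun h3 => h1 (h3.1.symm.trans h3.2)
        simp [h1, h2, h3]
    change (diagonal fun k => if k = i then c else if k = j then c⁻¹ else 1) =
      (1 + single j i (c⁻¹ - 1)) * (1 + single i j 1) * (1 + single j i (c - 1)) *
        (1 + single i j (-c⁻¹))
    simp only [e1, mul_add, add_mul, one_mul, mul_one, single_mul_single_same,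
      single_mul_single_of_ne _ _ _ _ h, single_mul_single_of_ne _ _ _ _ h.symm, add_zero]
    ext k l
    simp only [Matrix.add_apply, single_apply]
    split_ifs <;> field_simp <;> ring
  rw [e]
  exact mul_mem (mul_mem (mul_mem (transvection_mem _ _) (transvection_mem _ _))
    (transvection_mem _ _)) (transvection_mem _ _)

theorem mem_of_det {F : Type} [Field F] [CharZero F] {g : GL κ F} (h : g.1.det = 1) :
    g ∈ fiRes (GL κ F) := by
  have := Ex.fiRes_map SpecialLinearGroup.toGL (sl_mem (⟨g.1, h⟩ : SpecialLinearGroup κ F))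
  rwa [show SpecialLinearGroup.toGL (⟨g.1, h⟩ : SpecialLinearGroup κ F) = g from Units.ext rfl]
    at this

/-- Every determinant is the determinant of an element that is adapted to the weights. -/
theorem exists_det (n : ℕ) {t : ℚ_[p]} (ht : t ≠ 0) :
    ∃ g ∈ Ex.WS (A := ℚ_[p]) p (fun a : Fin (n + 1) => -(a : ℝ) / (n + 1)), g.1.det = t := by
  have hn : (n : ℝ) + 1 ≠ 0 := by positivity
  obtain ⟨c, hc, hdet⟩ := exists_mono (p := p) (w := fun a : Fin (n + 1) => -(a : ℝ) / (n + 1))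
    (finRotate (n + 1)) (fun a => if a = Fin.last n then (p : ℚ_[p]) else 1)
    (Real.rpow_pos_of_pos (pos (p := p)) (-1 / ((n : ℝ) + 1))) fun a => by
      rw [← Real.rpow_add pos, finRotate_apply]
      split_ifs with e
      · rw [e, Fin.last_add_one, Padic.norm_p, ← Real.rpow_neg_one]
        congr 1
        simp only [Fin.val_last, Fin.val_zero, Nat.cast_zero]
        field_simp
        ring
      · rw [norm_one, Fin.val_add_one_of_lt (Fin.lt_last_iff_ne_last.2 e)]
        refine (Real.rpow_zero p).symm.trans (congrArg _ ?_)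
        push_cast
        field_simp
        ring
  have hc1 : ‖c.1.det‖ = (p : ℝ)⁻¹ := by
    rw [hdet, Finset.prod_ite_eq', if_pos (Finset.mem_univ _), norm_mul, Padic.norm_p]
    rcases Int.units_eq_one_or (Equiv.Perm.sign (finRotate (n + 1))) with e | e <;> simp [e]
  have hc0 : c.1.det ≠ 0 := norm_pos_iff.1 (by rw [hc1]; exact inv_pos.2 pos)
  obtain ⟨u, hu, hdu⟩ := exists_mono (p := p) (w := fun a : Fin (n + 1) => -(a : ℝ) / (n + 1))
    1 (fun a => if a = 0 then t / c.1.det ^ t.valuation else 1) one_pos fun a => by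
      rw [Equiv.Perm.one_apply, sub_self, Real.rpow_zero, mul_one]
      split_ifs
      · rw [norm_div, norm_zpow, hc1, Padic.norm_eq_zpow_neg_valuation ht, _root_.inv_zpow', div_self]
        exact (zpow_pos pos _).ne'
      · exact norm_one
  refine ⟨u * c ^ t.valuation, mul_mem hu (zpow_mem hc _), ?_⟩
  have e : (c ^ t.valuation).1.det = c.1.det ^ t.valuation := by
    have := congrArg Units.val (map_zpow GeneralLinearGroup.det c t.valuation)
    rwa [Units.val_zpow_eq_zpow_val, GeneralLinearGroup.val_det_apply,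
      GeneralLinearGroup.val_det_apply] at this
  rw [Units.val_mul, Matrix.det_mul, e, hdu, Finset.prod_ite_eq', if_pos (Finset.mem_univ _)]
  simp [div_mul_cancel₀ _ (zpow_ne_zero _ hc0)]

end LevAux

open LevAux

variable {n p : ℕ} [Fact p.Prime] {O : Type} [Group O] [TopologicalSpace O] [IsTopologicalGroup O]

omit [IsTopologicalGroup O] in
theorem LevAux.co_map (m : Model n p O) {K : Subgroup (Gl n ℚ_[p])} (h : CO K) : CO (K.map m.π) :=
  ⟨h.1.image m.cont, m.opn _ h.2⟩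

omit [IsTopologicalGroup O] in
theorem LevAux.tf (m : Model n p O) (w : Fin (n + 1) → ℝ) (k : ℕ) : k ≠ 0 →
    ∀ γ ∈ (cong p w (eps_pos (p := p)) eps_lt).map m.π, γ ^ k = 1 → γ = 1 := by
  induction k using induction_on_primes with
  | zero => exact fun h => absurd rfl h
  | one => exact fun _ γ _ h => by rwa [pow_one] at h
  | prime_mul l a hl ih =>
    intro h0 γ hγ h
    refine ih (right_ne_zero_of_mul h0) γ hγ ?_
    obtain ⟨g, hg, e⟩ := pow_mem hγ a
    rw [mul_comm, pow_mul, ← e, ← map_pow, m.ker, Units.val_pow_eq_pow_val] at h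
    obtain ⟨t, ht⟩ := h
    obtain ⟨c, hc⟩ := Matrix.mem_range_scalar_iff_commute_single'.2 fun i j =>
      comm_of_pow hg hl ht 0 (Matrix.single i j 1)
    rw [← e, m.ker]
    exact ⟨c, by rw [← hc, Matrix.scalar_apply, Matrix.smul_one_eq_diagonal]⟩

theorem Model.small (m : Model n p O) {N : Set O} (hN : N ∈ nhds (1 : O)) :
    ∃ L : Subgroup O, CO L ∧ (L : Set O) ⊆ N := by
  have h0 : ∀ j : ℕ, (0 : ℝ) < (1 / 2) ^ (j + 1) := fun j => by positivity
  have h1 : ∀ j : ℕ, ((1 : ℝ) / 2) ^ (j + 1) < 1 := fun j =>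
    pow_lt_one₀ (by norm_num) (by norm_num) j.succ_ne_zero
  by_contra hn
  have h2 : ∀ j : ℕ, ∃ c ∈ cong p (0 : Fin (n + 1) → ℝ) (h0 j) (h1 j), m.π c ∉ N := fun j => by
    by_contra h3
    refine hn ⟨_, co_map m (co_cong 0 (h0 j) (h1 j)), ?_⟩
    rintro _ ⟨c, hc, rfl⟩
    by_contra h4
    exact h3 ⟨c, hc, h4⟩
  choose c hc hcN using h2
  have h3 := Ex.tendsto_one_of_bd (c := c) ((tendsto_pow_atTop_nhds_zero_of_lt_one
    (r := (1 : ℝ) / 2) (by norm_num) (by norm_num)).comp (Filter.tendsto_add_atTop_nat 1))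
    fun j => Ex.T1Aux.wr_zero.1 (hc j)
  have h4 := (m.cont.tendsto 1).comp h3
  rw [map_one] at h4
  obtain ⟨j, hj⟩ := (h4.eventually hN).exists
  exact hcN j hj

/-- Elements close to the identity are not torsion in the projective group. -/
theorem Model.torsionFree (m : Model n p O) {g : Gl n ℚ_[p]}
    (hg : ∀ i j, ‖(g.1 - 1) i j‖ ≤ (p : ℝ) ^ (-2 : ℤ)) (h : IsOfFinOrder (m.π g)) : m.π g = 1 := by
  obtain ⟨k, hk, h1⟩ := isOfFinOrder_iff_pow_eq_one.1 h
  refine LevAux.tf m 0 k hk.ne' _ ⟨g, Ex.T1Aux.wr_zero.2 fun i j => (hg i j).trans_eq ?_, rfl⟩ h1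
  rw [_root_.zpow_neg, zpow_two, mul_inv]

theorem Model.goodLev (m : Model n p O) : ∃ L : Subgroup O, GoodLev L := by
  refine ⟨(cong p (fun a : Fin (n + 1) => -(a : ℝ) / (n + 1)) (eps_pos (p := p)) eps_lt).map m.π,
    co_map m (co_cong _ _ _), fun γ => ?_, fun γ hγ h => ?_⟩
  · obtain ⟨g, rfl⟩ := m.surj γ
    obtain ⟨h, hh, hd⟩ := exists_det (p := p) n (t := g.1.det) (GeneralLinearGroup.det_ne_zero g)
    refine ⟨m.π (g * h⁻¹), Ex.fiRes_map m.π (mem_of_det ?_), ?_⟩
    · rw [Units.val_mul, Matrix.det_mul, ← hd, ← Matrix.det_mul, ← Units.val_mul, mul_inv_cancel,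
        Units.val_one, Matrix.det_one]
    · rw [← map_inv, ← map_mul, _root_.mul_inv_rev, inv_inv, inv_mul_cancel_right]
      refine Subgroup.le_normalizer_map _ ⟨h, Subgroup.mem_normalizer_iff.2 fun k =>
        ⟨conj_mem hh, fun hk => ?_⟩, rfl⟩
      have := conj_mem (g := h⁻¹) (inv_mem hh) hk
      rwa [inv_inv, ← mul_assoc, ← mul_assoc, inv_mul_cancel, one_mul, inv_mul_cancel_right] at this
  · obtain ⟨k, hk, h1⟩ := isOfFinOrder_iff_pow_eq_one.1 h
    exact LevAux.tf m _ k hk.ne' γ hγ h1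

end Pool.Agent.P.MP_3c2f8c_gt.AO
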