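import Pool.Agent.P.MP_3c2f8c_gt.AO.Nrm
import Pool.Agent.P.MP_3c2f8c_gt.Qu.Defs

/-! Isomorphisms between unitary groups, the topology, the standard level. -/

namespace Pool.Agent.P.MP_3c2f8c_gt.AO

open Matrix

variable {n : ℕ}

section Alg

variable {A : Type} [CommRing A] [Tw A] {b : Bool} {β β' : A}

theorem tf_tf (b : Bool) (x : A) : tf b (tf b x) = x := by
  cases b
  · rfl
  · exact Tw.tata x

theorem twHom_tf (b : Bool) : TwHom (tf b : A ≃+* A).toRingHom := by
  cases b
  · exact ⟨fun _ => rfl, fun _ => rfl⟩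
  · exact ⟨fun x => (Tw.comm x).symm, fun _ => rfl⟩

omit [Tw A] in
theorem map_smul_ring {A' : Type} [CommRing A'] {F : Type} [FunLike F A A'] [RingHomClass F A A']
    (f : F) (c : A) (x : Mt n A) : (c • x).map f = f c • x.map f :=
  Matrix.ext fun _ _ => map_mul f _ _

omit [Tw A] in
theorem map_mul_inv {A' : Type} [CommRing A'] {F : Type} [FunLike F A A'] [RingHomClass F A A']
    (f : F) (g : Gl n A) : g.1.map f * (g⁻¹).1.map f = 1 := by
  rw [← Matrix.map_mul, Units.mul_inv, Matrix.map_one _ (map_zero _) (map_one _)]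

omit [Tw A] in
theorem map_inv_mul {A' : Type} [CommRing A'] {F : Type} [FunLike F A A'] [RingHomClass F A A']
    (f : F) (g : Gl n A) : (g⁻¹).1.map f * g.1.map f = 1 := by
  rw [← Matrix.map_mul, Units.inv_mul, Matrix.map_one _ (map_zero _) (map_one _)]

theorem LI.rel' (L : LI n b β β') :
    cm n β' * (L.W⁻¹).1.map sg = ta L.c ^ 2 • ((L.W⁻¹).1 * cm n (tf b β)) := by
  have h := congrArg (fun y => ta L.c ^ 2 • ((L.W⁻¹).1 * y * (L.W⁻¹).1.map sg)) L.rel
  simp only [Matrix.mul_smul, Matrix.smul_mul, smul_smul, ← mul_pow, L.uc, one_pow, one_smul,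
    Units.inv_mul_cancel_left] at h
  rw [← h, Matrix.mul_assoc, Matrix.mul_assoc, map_mul_inv, Matrix.mul_one]

theorem LI.inv_val (L : LI n b β β') : (L.W⁻¹).1 = st L.W.1 :=
  Units.inv_eq_of_mul_eq_one_left L.uW

theorem LI.mem_Dal (L : LI n b β β') {x : Mt n A} (h : x ∈ Dal n β) :
    (L.W⁻¹).1 * x.map (tf b) * L.W.1 ∈ Dal n β' := by
  have h1 : x.map (tf b) * cm n (tf b β) = cm n (tf b β) * (x.map (tf b)).map sg :=
    (twHom_tf b).mem_Dal h
  have h2 : L.W.1 * cm n β' = ta L.c ^ 2 • (cm n (tf b β) * L.W.1.map sg) := by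
    rw [L.rel, smul_smul, ← mul_pow, L.uc, one_pow, one_smul]
  rw [AO.mem_Dal, Matrix.map_mul, Matrix.map_mul, Matrix.mul_assoc, h2, ← Matrix.mul_assoc,
    ← Matrix.mul_assoc, L.rel']
  simp only [Matrix.mul_smul, Matrix.smul_mul, Matrix.mul_assoc]
  rw [← Matrix.mul_assoc (x.map _), h1, Matrix.mul_assoc]

theorem st_st (x : Mt n A) : st (st x) = x := Matrix.ext fun _ _ => Tw.tata _

theorem LI.st (L : LI n b β β') (x : Mt n A) :
    st ((L.W⁻¹).1 * x.map (tf b) * L.W.1) = (L.W⁻¹).1 * (st x).map (tf b) * L.W.1 := by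
  have h : (AO.st x).map (tf b) = AO.st (x.map (tf b)) := (twHom_tf b).st x
  rw [st_mul, st_mul, L.inv_val, st_st, h, Matrix.mul_assoc]

/-- The map on unitary groups. -/
def LI.un (L : LI n b β β') : Un n β →* Un n β' :=
  (((MulAut.conj L.W⁻¹).toMonoidHom.comp (GeneralLinearGroup.map (tf b).toRingHom)).comp
    (Un n β).subtype).codRestrict _ fun g => ⟨L.mem_Dal g.2.1, by
      show AO.st ((L.W⁻¹).1 * g.1.1.map (tf b) * L.W.1) *
        ((L.W⁻¹).1 * g.1.1.map (tf b) * L.W.1) = 1
      rw [L.st]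
      simp only [Matrix.mul_assoc, Units.mul_inv_cancel_left]
      rw [← Matrix.mul_assoc ((AO.st g.1.1).map _), ← Matrix.map_mul, g.2.2,
        Matrix.map_one _ (map_zero _) (map_one _), Matrix.one_mul, Units.inv_mul]⟩

theorem LI.un_val (L : LI n b β β') (g : Un n β) :
    (L.un g).1.1 = (L.W⁻¹).1 * g.1.1.map (tf b) * L.W.1 := rfl

/-- The inverse isomorphism. -/
def LI.symm (L : LI n b β β') : LI n b β' β where
  c := tf b (ta L.c)
  W := GeneralLinearGroup.map (tf b).toRingHom L.W⁻¹
  uc := by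
    have h : tf b (ta (ta L.c)) = ta (tf b (ta L.c)) := (twHom_tf b).ta _
    rw [← h, ← map_mul, Tw.tata, mul_comm, L.uc, map_one]
  uW := by
    have h : (AO.st (L.W⁻¹).1).map (tf b) = AO.st ((L.W⁻¹).1.map (tf b)) := (twHom_tf b).st _
    show AO.st ((L.W⁻¹).1.map (tf b)) * (L.W⁻¹).1.map (tf b) = 1
    rw [← h, L.inv_val, st_st, ← L.inv_val, map_mul_inv]
  rel := by
    have h := congrArg (fun y : Mt n A => y.map (tf b)) L.rel'
    have e : ∀ x : A, (cm n x).map (tf b) = cm n (tf b x) := cm_map (tf b).toRingHom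
    have e2 : ((L.W⁻¹).1.map sg).map (tf b) = ((L.W⁻¹).1.map (tf b)).map sg :=
      Matrix.ext fun _ _ => (twHom_tf b).sg _
    simp only [map_smul_ring, Matrix.map_mul, e, tf_tf, e2, map_pow] at h
    exact h

theorem map_tf_tf (x : Mt n A) : (x.map (tf b)).map (tf b) = x :=
  Matrix.ext fun _ _ => tf_tf _ _

theorem LI.symm_un (L : LI n b β β') (g : Un n β) : L.symm.un (L.un g) = g :=
  Subtype.ext (Units.ext (by
    show L.W.1.map (tf b) * ((L.W⁻¹).1 * g.1.1.map (tf b) * L.W.1).map (tf b) *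
      (L.W⁻¹).1.map (tf b) = g.1.1
    rw [← Matrix.map_mul, ← Matrix.map_mul]
    simp only [Matrix.mul_assoc, Units.mul_inv_cancel_left, Units.mul_inv, Matrix.mul_one]
    exact map_tf_tf _))

theorem LI.un_symm (L : LI n b β β') (g : Un n β') : L.un (L.symm.un g) = g :=
  Subtype.ext (Units.ext (by
    show (L.W⁻¹).1 * (L.W.1.map (tf b) * g.1.1.map (tf b) * (L.W⁻¹).1.map (tf b)).map (tf b) *
      L.W.1 = g.1.1
    rw [← Matrix.map_mul, ← Matrix.map_mul, map_tf_tf]
    simp only [Matrix.mul_assoc, Units.inv_mul_cancel_left, Units.inv_mul, Matrix.mul_one]))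

/-- The map on projective unitary groups. -/
def LI.pu (L : LI n b β β') : PU n β →* PU n β' :=
  QuotientGroup.map _ _ L.un (by
    rintro g ⟨c, hc⟩
    refine ⟨tf b c, ?_⟩
    rw [L.un_val, hc, map_smul_ring, Matrix.map_one _ (map_zero _) (map_one _), Matrix.mul_smul,
      Matrix.mul_one, Matrix.smul_mul, Units.inv_mul])

theorem LI.pu_mk (L : LI n b β β') (g : Un n β) :
    L.pu (QuotientGroup.mk g) = QuotientGroup.mk (L.un g) := rfl

end Alg

section Top

variable {A : Type} [NormedCommRing A] [Tw A] [NTw A] {b : Bool} {β β' : A}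

/-- The entries of `x` have norm at most `C`. -/
def Le (C : ℝ) (x : Mt n A) : Prop := ∀ i j, ‖x i j‖ ≤ C

theorem norm_tf (b : Bool) (x : A) : ‖tf b x‖ = ‖x‖ := by
  cases b
  · rfl
  · exact NTw.ta x

theorem continuous_tf (b : Bool) : Continuous (tf b : A → A) :=
  (AddMonoidHomClass.isometry_of_norm (tf b : A ≃+* A) (norm_tf b)).continuous

theorem LI.continuous_un (L : LI n b β β') : Continuous L.un := by
  have h : ∀ L : LI n b β β', Continuous fun g : Un n β => (L.un g).1.1 := fun L =>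
    (continuous_const.matrix_mul ((Units.continuous_val.comp continuous_subtype_val).matrix_map
      (continuous_tf b))).matrix_mul continuous_const
  refine Continuous.subtype_mk (Units.continuous_iff.2 ⟨h L, ?_⟩) _
  exact ((h L).comp continuous_inv).congr fun g => by
    show (L.un g⁻¹).1.1 = _
    rw [map_inv]
    rfl

theorem LI.continuous_pu (L : LI n b β β') : Continuous L.pu :=
  (QuotientGroup.isQuotientMap_mk _).continuous_iff.2
    (QuotientGroup.continuous_mk.comp L.continuous_un)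

/-- The isomorphism of topological groups. -/
def LI.equiv (L : LI n b β β') : PU n β ≃ₜ* PU n β' where
  toFun := L.pu
  invFun := L.symm.pu
  left_inv g := by
    induction g using QuotientGroup.induction_on with
    | H g => exact congrArg QuotientGroup.mk (L.symm_un g)
  right_inv g := by
    induction g using QuotientGroup.induction_on with
    | H g => exact congrArg QuotientGroup.mk (L.un_symm g)
  map_mul' := map_mul L.pu
  continuous_toFun := L.continuous_pu
  continuous_invFun := L.symm.continuous_pu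

theorem LI.equiv_mk (L : LI n b β β') (g : Un n β) :
    L.equiv (QuotientGroup.mk g) = QuotientGroup.mk (L.un g) := rfl

theorem LI.equiv_symm (L : LI n b β β') : L.equiv.symm = L.symm.equiv :=
  ContinuousMulEquiv.ext fun _ => rfl

omit [Tw A] [NTw A] in
theorem Le.mono {C D : ℝ} {x : Mt n A} (h : Le C x) (hC : C ≤ D) : Le D x :=
  fun i j => (h i j).trans hC

theorem Le.st {C : ℝ} {x : Mt n A} (h : Le C x) : Le C (st x) :=
  fun i j => (NTw.ta _).le.trans (h j i)

variable [IsUltrametricDist A] [NormOneClass A]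

omit [Tw A] [NTw A] [NormOneClass A] in
theorem Le.mul {C D : ℝ} {x y : Mt n A} (hx : Le C x) (hy : Le D y) : Le (C * D) (x * y) :=
  fun i j => by
    have hC : 0 ≤ C := (norm_nonneg _).trans (hx i j)
    have hD : 0 ≤ D := (norm_nonneg _).trans (hy i j)
    rw [Matrix.mul_apply]
    exact IsUltrametricDist.norm_sum_le_of_forall_le_of_nonneg (mul_nonneg hC hD) fun k _ =>
      (norm_mul_le _ _).trans (mul_le_mul (hx i k) (hy k j) (norm_nonneg _) hC)

omit [Tw A] [NTw A] [IsUltrametricDist A] in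
theorem le_one : Le 1 (1 : Mt n A) := fun i j => by
  by_cases h : i = j
  · rw [h, Matrix.one_apply_eq, norm_one]
  · rw [Matrix.one_apply_ne h, norm_zero]
    exact zero_le_one

variable (n) in
/-- The integral unitary matrices. -/
def KU (β : A) : Subgroup (Un n β) where
  carrier := {g | Le 1 g.1.1}
  one_mem' := le_one
  mul_mem' := fun {g h} hg hh => by simpa using Le.mul hg hh
  inv_mem' := fun {g} hg => by
    show Le 1 (g⁻¹).1.1
    rw [Un.inv_val]
    exact Le.st hg

variable (n) in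
/-- The standard level. -/
def K0 (β : A) : Subgroup (PU n β) := (KU n β).map (QuotientGroup.mk' _)

theorem mk_mem_K0 {g : Un n β} (h : Le 1 g.1.1) : (QuotientGroup.mk g : PU n β) ∈ K0 n β :=
  ⟨g, h, rfl⟩

end Top

end Pool.Agent.P.MP_3c2f8c_gt.AO
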