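import Pool.Agent.P.MP_3c2f8c_gt.AO.Div
import Pool.Agent.P.MP_3c2f8c_gt.AO.LieD

/-! Twisted Galois actions on matrices, frames and their torus cochains. -/

namespace Pool.Agent.P.MP_3c2f8c_gt.AO

open Matrix

variable {n : ℕ} {G : Type} [Group G] {B : Type} [CommRing B]

/-- The sign of a Boolean. -/
def sn (b : Bool) : ℤ := cond b (-1) 1

theorem sn_xor (b c : Bool) : sn (xor b c) = sn b * sn c := by cases b <;> cases c <;> rfl

/-- The identity or the inverse transpose. -/
def itb (b : Bool) : Gl n B →* Gl n B := cond b itr (MonoidHom.id _)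

theorem itb_xor (b c : Bool) (g : Gl n B) : itb (xor b c) g = itb b (itb c g) := by
  cases b <;> cases c
  · rfl
  · rfl
  · rfl
  · exact (itr_itr g).symm

/-- Diagonal matrices. -/
def dg : (Fin (n + 1) → Bˣ) →* Gl n B where
  toFun t := ⟨diagonal fun i => (t i).1, diagonal fun i => ((t i)⁻¹).1,
    by simp [diagonal_mul_diagonal], by simp [diagonal_mul_diagonal]⟩
  map_one' := Units.ext (by simp)
  map_mul' t u := Units.ext (by simp [diagonal_mul_diagonal])

theorem dg_val (t : Fin (n + 1) → Bˣ) : (dg t).1 = diagonal fun i => (t i).1 := rfl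

theorem dg_injective : Function.Injective (dg : (Fin (n + 1) → Bˣ) → Gl n B) := fun t u h =>
  funext fun i => Units.ext (by simpa [dg_val] using congrArg (fun g : Gl n B => g.1 i i) h)

/-- The matrix of a permutation. -/
def pmM (B : Type) [CommRing B] (π : Equiv.Perm (Fin (n + 1))) : Mt n B :=
  Matrix.of fun i j => if i = π j then 1 else 0

theorem mul_pmM (X : Mt n B) (π : Equiv.Perm (Fin (n + 1))) (i j : Fin (n + 1)) :
    (X * pmM B π) i j = X i (π j) := by
  simp [Matrix.mul_apply, pmM]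

theorem pmM_mul (π ρ : Equiv.Perm (Fin (n + 1))) : pmM B π * pmM B ρ = pmM B (π * ρ) := by
  ext i j
  rw [mul_pmM]
  rfl

theorem pmM_one : pmM B (1 : Equiv.Perm (Fin (n + 1))) = 1 := by
  ext i j
  simp [pmM, Matrix.one_apply]

/-- Permutation matrices. -/
def pm : Equiv.Perm (Fin (n + 1)) →* Gl n B where
  toFun π := ⟨pmM B π, pmM B π⁻¹, by rw [pmM_mul, mul_inv_cancel, pmM_one],
    by rw [pmM_mul, inv_mul_cancel, pmM_one]⟩
  map_one' := Units.ext pmM_one
  map_mul' π ρ := Units.ext (pmM_mul π ρ).symm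

theorem pm_dg (π : Equiv.Perm (Fin (n + 1))) (t : Fin (n + 1) → Bˣ) :
    pm π * dg t = dg (fun j => t (π⁻¹ j)) * pm π := Units.ext (by
  ext i j
  show (pmM B π * diagonal _ : Mt n B) i j = (diagonal _ * pmM B π : Mt n B) i j
  rw [mul_diagonal, diagonal_mul, pmM, Matrix.of_apply]
  split_ifs with h
  · simp [h]
  · simp)

theorem itb_dg (b : Bool) (t : Fin (n + 1) → Bˣ) : itb b (dg t) = dg (t ^ sn b) := by
  cases b
  · exact congrArg dg (zpow_one t).symm
  · refine Units.ext ?_
    show (diagonal _)ᵀ = diagonal _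
    rw [diagonal_transpose]
    simp [sn]

theorem itb_pm (b : Bool) (π : Equiv.Perm (Fin (n + 1))) : itb b (pm π : Gl n B) = pm π := by
  cases b
  · rfl
  · refine Units.ext ?_
    ext i j
    show (if j = π⁻¹ i then 1 else 0) = if i = π j then (1 : B) else 0
    simp only [Equiv.Perm.eq_inv_iff_eq, eq_comm (a := i)]

/-- Scalar matrices are central. -/
theorem dg_const_comm (c : Bˣ) (g : Gl n B) : dg (fun _ => c) * g = g * dg fun _ => c :=
  Units.ext (by
    ext i j
    show (diagonal _ * g.1 : Mt n B) i j = (g.1 * diagonal _ : Mt n B) i j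
    rw [diagonal_mul, mul_diagonal, mul_comm])

theorem dg_const_mul (c : Bˣ) (g : Gl n B) : (dg (fun _ => c) * g).1 = c.1 • g.1 := by
  ext i j
  show (diagonal _ * g.1 : Mt n B) i j = _
  rw [diagonal_mul]
  rfl

variable (n G) in
/-- The image of the group in the product of two cyclic groups. -/
structure GI where
  ix : G → ℕ
  sw : G → Bool
  car : G → G → ℕ
  add : ∀ s t, ix s + ix t = (n + 1) * car s t + ix (s * t)
  swm : ∀ s t, sw (s * t) = xor (sw s) (sw t)
  s₁ : ∃ s, ix s = 1 ∧ sw s = false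
  t₀ : ∃ s, ix s = 0 ∧ sw s = true

variable (I : GI n G) (α : G →* (B ≃+* B))

/-- The twisted action on invertible matrices. -/
def tw (s : G) : Gl n B →* Gl n B :=
  (itb (I.sw s)).comp (GeneralLinearGroup.map (α s).toRingHom)

theorem map_itb {B' : Type} [CommRing B'] (f : B →+* B') (b : Bool) (g : Gl n B) :
    GeneralLinearGroup.map f (itb b g) = itb b (GeneralLinearGroup.map f g) := by
  cases b <;> rfl

theorem tw_mul (s t : G) (g : Gl n B) : tw I α (s * t) g = tw I α s (tw I α t g) := by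
  show itb _ _ = itb _ (GeneralLinearGroup.map _ (itb _ _))
  rw [map_itb, I.swm, itb_xor, map_mul]
  rfl

theorem tw_itb (s : G) (b : Bool) (g : Gl n B) : tw I α s (itb b g) = itb b (tw I α s g) := by
  show itb _ (GeneralLinearGroup.map _ (itb _ _)) = itb _ (itb _ _)
  rw [map_itb, ← itb_xor, ← itb_xor, Bool.xor_comm]

theorem tw_pm (s : G) (π : Equiv.Perm (Fin (n + 1))) : tw I α s (pm π) = pm π := by
  have e : GeneralLinearGroup.map (α s).toRingHom (pm π : Gl n B) = pm π := Units.ext (by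
    ext i j
    show α s (if i = π j then 1 else 0) = if i = π j then 1 else 0
    split_ifs <;> simp)
  show itb _ _ = _
  rw [e, itb_pm]

/-- The action on units. -/
def ua (s : G) : Bˣ →* Bˣ := Units.map (α s).toRingHom.toMonoidHom

theorem ua_mul (s t : G) (x : Bˣ) : ua α (s * t) x = ua α s (ua α t x) :=
  Units.ext (by rw [ua, map_mul]; rfl)

variable (π : G →* Equiv.Perm (Fin (n + 1)))

/-- The twisted action on the diagonal torus. -/
def sa (s : G) : (Fin (n + 1) → Bˣ) →* (Fin (n + 1) → Bˣ) where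
  toFun t j := ua α s (t ((π s)⁻¹ j)) ^ sn (I.sw s)
  map_one' := funext fun _ => by simp
  map_mul' t u := funext fun _ => by simp [mul_zpow]

theorem sa_apply (s : G) (t : Fin (n + 1) → Bˣ) (j : Fin (n + 1)) :
    sa I α π s t j = ua α s (t ((π s)⁻¹ j)) ^ sn (I.sw s) := rfl

theorem tw_dg (s : G) (t : Fin (n + 1) → Bˣ) :
    tw I α s (dg t) = dg fun j => ua α s (t j) ^ sn (I.sw s) := by
  have e : GeneralLinearGroup.map (α s).toRingHom (dg t) = dg fun j => ua α s (t j) :=
    Units.ext (diagonal_map (map_zero _))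
  show itb _ _ = _
  rw [e, itb_dg]
  rfl

theorem pm_tw_dg (s : G) (t : Fin (n + 1) → Bˣ) :
    pm (π s) * tw I α s (dg t) = dg (sa I α π s t) * pm (π s) := by
  rw [tw_dg, pm_dg]
  rfl

/-- The frame equation at `s`. -/
def FrAt (a P : Gl n B) (b : G → Fin (n + 1) → Bˣ) (s : G) : Prop :=
  a ^ I.ix s * tw I α s P = P * (dg (b s) * pm (π s))

/-- `u` is fixed by the action of `s` twisted by `a`. -/
def FixAt (a u : Gl n B) (s : G) : Prop := a ^ I.ix s * tw I α s u = u * a ^ I.ix s

/-- The cochain `b` has the factor system of `β`. -/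
def Coc (β : Bˣ) (b : G → Fin (n + 1) → Bˣ) : Prop :=
  ∀ s t, b s * sa I α π s (b t) = (fun _ => β ^ I.car s t) * b (s * t)

variable {I α π} {a P Q u : Gl n B} {b : G → Fin (n + 1) → Bˣ} {s t : G} {β : Bˣ}

theorem FrAt.fix (h : FrAt I α π a P b s) (h' : FrAt I α π a Q b s) :
    FixAt I α a (Q * P⁻¹) s := by
  have e : tw I α s P = (a ^ I.ix s)⁻¹ * (P * (dg (b s) * pm (π s))) := by
    rw [← h, inv_mul_cancel_left]
  rw [FixAt, map_mul, map_inv, ← mul_assoc, h', e]
  group

theorem FixAt.fr (h : FixAt I α a u s) (h' : FrAt I α π a P b s) :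
    FrAt I α π a (u * P) b s := by
  rw [FrAt, map_mul, ← mul_assoc, h, mul_assoc, h', mul_assoc]

theorem FrAt.mul_dg (h : FrAt I α π a P b s) (y : Fin (n + 1) → Bˣ) :
    FrAt I α π a (P * dg y) (fun s => b s * sa I α π s y / y) s := by
  rw [FrAt, map_mul, ← mul_assoc, h, mul_assoc, mul_assoc, pm_tw_dg, mul_assoc, ← mul_assoc (dg y),
    ← mul_assoc (dg (b s)), ← map_mul, ← map_mul, mul_div_cancel]

theorem FrAt.symm_eq {b' : G → Fin (n + 1) → Bˣ} (h : FrAt I α π a P b s)
    (h' : FrAt I α π a P b' s) : b s = b' s :=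
  dg_injective (mul_right_cancel (mul_left_cancel (h.symm.trans h')))

theorem FrAt.fix_iff (h : FrAt I α π a P b s) (y : Fin (n + 1) → Bˣ) :
    FixAt I α a (P * dg y * P⁻¹) s ↔ sa I α π s y = y := by
  constructor
  · intro h1
    have h2 := h1.fr h
    rw [inv_mul_cancel_right] at h2
    have h3 := (FrAt.symm_eq h2 (h.mul_dg y))
    have h4 : b s * sa I α π s y / y = b s := h3.symm
    rw [div_eq_iff_eq_mul] at h4
    exact mul_left_cancel h4
  · intro h1
    have h2 := h.mul_dg y
    have h3 : FrAt I α π a (P * dg y) b s := by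
      rw [FrAt] at h2 ⊢
      rwa [h1, mul_div_cancel_right] at h2
    exact h.fix h3

theorem pow_car (ha : a ^ (n + 1) = dg fun _ => β) (s t : G) :
    a ^ I.ix s * a ^ I.ix t = dg (fun _ => β ^ I.car s t) * a ^ I.ix (s * t) := by
  rw [← pow_add, I.add, pow_add, pow_mul, ha, ← map_pow]
  rfl

theorem fr_mul_aux (ha : a ^ (n + 1) = dg fun _ => β) (ht : tw I α s a = a)
    (h : FrAt I α π a P b s) (h' : FrAt I α π a P b t) :
    dg (fun _ => β ^ I.car s t) * (a ^ I.ix (s * t) * tw I α (s * t) P) =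
      P * (dg (b s * sa I α π s (b t)) * pm (π (s * t))) := by
  have h1 := congrArg (tw I α s) h'
  rw [map_mul, map_pow, ht, ← tw_mul, map_mul, map_mul, tw_pm] at h1
  rw [← mul_assoc, ← pow_car ha, mul_assoc, h1, ← mul_assoc, h, mul_assoc, mul_assoc,
    ← mul_assoc (pm (π s)), pm_tw_dg, map_mul, map_mul, map_mul]
  simp only [mul_assoc]

theorem coc_of_fr (ha : a ^ (n + 1) = dg fun _ => β) (ht : ∀ s, tw I α s a = a)
    (h : ∀ s, FrAt I α π a P b s) : Coc I α π β b := fun s t => by
  have h1 := fr_mul_aux ha (ht s) (h s) (h t)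
  rw [h (s * t), ← mul_assoc, dg_const_comm, mul_assoc, ← mul_assoc (dg _), ← map_mul] at h1
  exact (dg_injective (mul_right_cancel (mul_left_cancel h1))).symm

theorem FrAt.mul (ha : a ^ (n + 1) = dg fun _ => β) (ht : tw I α s a = a) (hc : Coc I α π β b)
    (h : FrAt I α π a P b s) (h' : FrAt I α π a P b t) : FrAt I α π a P b (s * t) := by
  have h1 := fr_mul_aux ha ht h h'
  rw [hc, map_mul, mul_assoc, ← mul_assoc P, ← dg_const_comm, mul_assoc] at h1
  exact mul_left_cancel h1

end Pool.Agent.P.MP_3c2f8c_gt.AO
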