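import Pool.Agent.P.MP_3c2f8c_gt.AO.MtA

/-! Galois extensions of twisted rings: descent and transport of frames. -/

namespace Pool.Agent.P.MP_3c2f8c_gt.AO

open Matrix

variable {n : ℕ} {G : Type} [Group G] {A B : Type} [CommRing A] [Tw A] [CommRing B]

/-- The involution of the linear group whose fixed points are the unitary matrices. -/
def ci (b : Bool) (g : Gl n A) : Gl n A := itb b (GeneralLinearGroup.map (tf b).toRingHom g)

theorem ci_eq_iff {g : Gl n A} : ci true g = g ↔ st g.1 * g.1 = 1 := by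
  have e : ((ci true g)⁻¹).1 = st g.1 := rfl
  rw [← e]
  exact ⟨fun h => by rw [h, Units.inv_mul], fun h => inv_injective
    (Units.ext (Units.inv_eq_of_mul_eq_one_left h).symm)⟩

theorem ci_of_un (b : Bool) {g : Gl n A} (h : st g.1 * g.1 = 1) : ci b g = g := by
  cases b
  · rfl
  · exact ci_eq_iff.2 h

theorem itb_itb (b : Bool) (g : Gl n B) : itb b (itb b g) = g := by
  rw [← itb_xor, Bool.xor_self]
  rfl

theorem map_tf_of_un (b : Bool) {g : Gl n A} (h : st g.1 * g.1 = 1) :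
    GeneralLinearGroup.map (tf b).toRingHom g = itb b g := by
  conv_rhs => rw [← ci_of_un b h, ci, itb_itb]

theorem un_aG {β : Aˣ} (hβ : Par β) : st (aG n β).1 * (aG n β).1 = 1 := by
  have e : (cm n β.1).map ta = cm n (β⁻¹).1 := hβ.ta_eq ▸ cm_map (ta : A ≃+* A).toRingHom β.1
  show ((cm n β.1).map ta)ᵀ * _ = 1
  rw [e]
  exact (aG n β).inv_mul

theorem itb_aG_val (b : Bool) {β : Aˣ} (hβ : Par β) : (itb b (aG n β)).1 = cm n (tf b β.1) := by
  rw [← map_tf_of_un b (un_aG hβ)]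
  exact cm_map (tf b : A ≃+* A).toRingHom β.1

/-- The partial norms of an element that is inverted by the second automorphism. -/
def omU (i : ℕ) (c : A) (hc : ta c * c = 1) : Aˣ :=
  ⟨om i c, om i (ta c), by rw [← om_mul, mul_comm, hc, om_one], by rw [← om_mul, hc, om_one]⟩

theorem omU_tf (b : Bool) (i : ℕ) (c : A) (hc : ta c * c = 1) :
    tf b (omU i c hc ^ sn b).1 = om i c := by
  cases b
  · rw [sn, cond_false, zpow_one]
    rfl
  · rw [sn, cond_true, _root_.zpow_neg_one]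
    show ta (om i (ta c)) = _
    rw [ta_om, Tw.tata]

variable (A B) in
/-- A Galois extension of a twisted ring. -/
structure Ext (I : GI n G) where
  j : A →+* B
  α : G →* (B ≃+* B)
  inj : Function.Injective j
  act : ∀ s x, α s (j x) = j ((sg ^ I.ix s : A ≃+* A) (tf (I.sw s) x))
  fix : ∀ y, (∀ s, I.ix s = 0 → I.sw s = false → α s y = y) → ∃ x, j x = y

variable {I : GI n G} (E : Ext A B I)

/-- The map on matrices. -/
abbrev Ext.J : Gl n A →* Gl n B := GeneralLinearGroup.map E.j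

/-- The map on units. -/
abbrev Ext.u : Aˣ →* Bˣ := Units.map E.j.toMonoidHom

omit [Tw A] in
theorem glMap_inj {f : A →+* B} (hf : Function.Injective f) :
    Function.Injective (GeneralLinearGroup.map (n := Fin (n + 1)) f) := fun _ _ e =>
  Units.ext (Matrix.map_injective hf (congrArg Units.val e))

theorem Ext.tw_J (s : G) {g : Gl n A} (h : ci (I.sw s) g = g) : tw I E.α s (E.J g) =
    E.J (GeneralLinearGroup.map (sg ^ I.ix s : A ≃+* A).toRingHom g) := by
  conv_rhs => rw [← h, ci, map_itb, map_itb]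
  exact congrArg (itb _) (Units.ext (Matrix.ext fun _ _ => E.act _ _))

variable {β β' : Aˣ}

theorem Ext.tw_aG (hβ : Par β) (s : G) : tw I E.α s (E.J (aG n β)) = E.J (aG n β) := by
  rw [E.tw_J s (ci_of_un _ (un_aG hβ))]
  refine congrArg _ (Units.ext ((cm_map _ _).trans ?_))
  exact congrArg (cm n) (sg_pow_fixed hβ.sg _)

omit [Tw A] in
theorem map_dg (f : A →+* B) (t : Fin (n + 1) → Aˣ) :
    GeneralLinearGroup.map f (dg t) = dg fun j => Units.map f.toMonoidHom (t j) :=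
  Units.ext (diagonal_map (map_zero _))

theorem Ext.aG_pow (β : Aˣ) : E.J (aG n β) ^ (n + 1) = dg fun _ => E.u β := by
  rw [← map_pow, ← map_dg]
  refine congrArg _ (Units.ext ?_)
  rw [← mul_one (dg _), dg_const_mul]
  exact cm_pow _

theorem Ext.fixAt (hβ : Par β) {g : Gl n A} (hg : g.1 ∈ Dal n β.1) {s : G}
    (h : ci (I.sw s) g = g) : FixAt I E.α (E.J (aG n β)) (E.J g) s := by
  rw [FixAt, E.tw_J s h, ← map_pow, ← map_mul, ← map_mul]
  refine congrArg _ (Units.ext ?_)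
  have h1 := iter_rel hβ.sg hβ.sg (c := 1) (by rw [one_smul]; exact (mem_Dal.1 hg).symm) (I.ix s)
  rwa [om_one, one_smul] at h1

theorem Ext.fixAt_un (hβ : Par β) (g : Un n β.1) (s : G) :
    FixAt I E.α (E.J (aG n β)) (E.J g.1) s := E.fixAt hβ g.2.1 (ci_of_un _ g.2.2)

theorem Ext.desc {X : Gl n B} (h : ∀ s, I.sw s = false → FixAt I E.α (E.J (aG n β)) X s) :
    ∃ g : Gl n A, E.J g = X ∧ g.1 ∈ Dal n β.1 := by
  have h0 : ∀ s, I.ix s = 0 → I.sw s = false →
      GeneralLinearGroup.map (E.α s).toRingHom X = X := fun s h1 h2 => by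
    have h3 := h s h2
    rw [FixAt, h1, pow_zero, one_mul, mul_one, tw, h2] at h3
    exact h3
  choose x hx using fun i j => E.fix (X.1 i j) fun s h1 h2 =>
    congrArg (fun Y : Gl n B => Y.1 i j) (h0 s h1 h2)
  choose y hy using fun i j => E.fix ((X⁻¹).1 i j) fun s h1 h2 =>
    congrArg (fun Y : Gl n B => (Y⁻¹).1 i j) (h0 s h1 h2)
  have hx' : (Matrix.of x).map E.j = X.1 := Matrix.ext hx
  have hy' : (Matrix.of y).map E.j = (X⁻¹).1 := Matrix.ext hy
  have e : Matrix.of x * Matrix.of y = 1 := Matrix.map_injective E.inj (by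
    show (_ : Mt n A).map _ = (1 : Mt n A).map _
    rw [Matrix.map_mul, hx', hy', Units.mul_inv, Matrix.map_one _ (map_zero _) (map_one _)])
  obtain ⟨g, rfl⟩ : ∃ g : Gl n A, E.J g = X := ⟨⟨_, _, e, mul_eq_one_comm.1 e⟩, Units.ext hx'⟩
  obtain ⟨s, h1, h2⟩ := I.s₁
  have h3 := h s h2
  rw [FixAt, E.tw_J s (by rw [h2]; rfl), h1, pow_one, pow_one, ← map_mul, ← map_mul] at h3
  exact ⟨g, rfl, (congrArg Units.val (glMap_inj E.inj h3)).symm⟩

theorem Ext.tw_t₀ {s : G} (h1 : I.ix s = 0) (h2 : I.sw s = true) (g : Gl n A) :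
    tw I E.α s (E.J g) = E.J (ci true g) := by
  rw [ci, map_itb, tw, h2]
  refine congrArg (itb true) (Units.ext (Matrix.ext fun i j => ?_))
  have h3 := E.act s (g.1 i j)
  rw [h1, h2] at h3
  exact h3

theorem Ext.descU {X : Gl n B} (h : ∀ s, FixAt I E.α (E.J (aG n β)) X s) :
    ∃ g : Un n β.1, E.J g.1 = X := by
  obtain ⟨g, rfl, hg⟩ := E.desc fun s _ => h s
  obtain ⟨s, h1, h2⟩ := I.t₀
  have h3 := h s
  rw [FixAt, h1, pow_zero, one_mul, mul_one, E.tw_t₀ h1 h2] at h3
  exact ⟨⟨g, hg, ci_eq_iff.1 (glMap_inj E.inj h3)⟩, rfl⟩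

variable {π : G →* Equiv.Perm (Fin (n + 1))} {P : Gl n B} {b : G → Fin (n + 1) → Bˣ} {s : G}

theorem fr_aux {H : Type} [Group H] {X T T' D W a P b w : H} (hD : ∀ g, D * g = g * D)
    (h1 : X * T' = P * (b * w)) (h3 : X * T = D * (W * a)) :
    a * (T⁻¹ * T') = W⁻¹ * P * (b / D * w) := by
  have h4 : b / D = P⁻¹ * D⁻¹ * (P * b) := by
    rw [mul_assoc, (Commute.inv_left (hD (P * b))).eq, div_eq_mul_inv]
    group
  rw [eq_inv_mul_iff_mul_eq.2 h1, eq_inv_mul_iff_mul_eq.2 h3, h4]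
  group

theorem Ext.fr_LI {f : Bool} (hβ : Par β) (hβ' : Par β') (L : LI n f β.1 β'.1)
    (h : FrAt I E.α π (E.J (aG n β)) P b s) :
    FrAt I E.α π (E.J (aG n β')) ((E.J L.W)⁻¹ * itb f P)
      (fun s => (b s ^ sn f) / (fun _ => E.u (omU (I.ix s) L.c L.uc)) ^ 2) s := by
  have h1 := congrArg (itb f) h
  rw [map_mul, map_mul, map_mul, map_pow, ← map_itb, ← tw_itb, itb_dg, itb_pm] at h1
  have h2 : itb f (aG n β) ^ I.ix s *
      GeneralLinearGroup.map (sg ^ I.ix s : A ≃+* A).toRingHom L.W =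
      dg (fun _ => omU (I.ix s) L.c L.uc ^ 2) * (L.W * aG n β' ^ I.ix s) := Units.ext (by
    rw [dg_const_mul, Units.val_mul, Units.val_mul, Units.val_pow_eq_pow_val,
      Units.val_pow_eq_pow_val, Units.val_pow_eq_pow_val, itb_aG_val f hβ]
    have h3 := iter_rel hβ'.sg (((twHom_tf f).sg _).symm.trans (congrArg _ hβ.sg)) L.rel (I.ix s)
    rw [om_pow] at h3
    exact h3)
  have h3 := congrArg E.J h2
  rw [map_mul, map_mul, map_mul, map_pow, map_pow, ← E.tw_J s (ci_of_un _ L.uW), map_dg] at h3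
  rw [map_pow] at h3
  rw [FrAt, map_mul, map_inv, map_div]
  exact fr_aux (dg_const_comm _) h1 h3

theorem Ext.coc_om [Ord n A] {c : A} (hc : ta c * c = 1) {δ : Aˣ} (h : om (n + 1) c = δ.1) :
    Coc I E.α π (E.u δ) fun s _ => E.u (omU (I.ix s) c hc) := fun s t => funext fun j => by
  refine Units.ext ?_
  have h1 : ∀ k, om ((n + 1) * k) c = δ.1 ^ k := fun k => by
    induction k with
    | zero => rw [mul_zero, om_zero, pow_zero]
    | succ k ih =>
      rw [mul_add, mul_one, add_comm, om_add, h, Ord.pow, ih, pow_succ']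
  have h2 : ∀ k (x : A), (sg ^ ((n + 1) * k) : A ≃+* A) x = x := fun k => by
    induction k with
    | zero => exact fun _ => rfl
    | succ k ih => exact fun x => by rw [mul_add, mul_one, pow_add]; exact (ih _).trans (Ord.pow x)
  rw [Pi.mul_apply, sa_apply, ← map_zpow, ← map_zpow]
  show E.j _ * E.α s (E.j _) = E.j δ.1 ^ _ * E.j (om _ c)
  rw [E.act, omU_tf, ← map_mul, ← map_pow, ← map_mul, ← h1, ← h2 (I.car s t) (om (I.ix (s * t)) c),
    ← om_add,
    ← I.add, om_add]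
  rfl

end Pool.Agent.P.MP_3c2f8c_gt.AO
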