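import Pool.Agent.P.MP_3c2f8c_gt.AO.MtB

/-! Change of the base ring for frames, global frames, tori. -/

namespace Pool.Agent.P.MP_3c2f8c_gt.AO

open Matrix

variable {n : ℕ} {G : Type} [Group G] {M F A B : Type} [CommRing M] [Tw M] [CommRing F]
  [CommRing A] [Tw A] [CommRing B] {I : GI n G}

/-- The map on diagonal tori. -/
def um (n : ℕ) (f : F →+* B) : (Fin (n + 1) → Fˣ) →* (Fin (n + 1) → Bˣ) :=
  (Units.map f.toMonoidHom).compLeft _

theorem map_dg' (f : F →+* B) (t : Fin (n + 1) → Fˣ) :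
    GeneralLinearGroup.map f (dg t) = dg (um n f t) := map_dg f t

theorem map_pm (f : F →+* B) (w : Equiv.Perm (Fin (n + 1))) :
    GeneralLinearGroup.map f (pm w) = pm w := Units.ext (by
  ext i j
  show f (if i = w j then 1 else 0) = if i = w j then 1 else 0
  split_ifs <;> simp)

variable (A B) in
/-- A completion of a Galois extension of twisted rings. -/
structure Plc (E : Ext M F I) where
  E' : Ext A B I
  iA : M →+* A
  iB : F →+* B
  tw : TwHom iA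
  sq : ∀ x, iB (E.j x) = E'.j (iA x)
  eqv : ∀ s x, E'.α s (iB x) = iB (E.α s x)
  inj : Function.Injective iB

variable {E : Ext M F I} (V : Plc A B E) {β β' : Mˣ} {π : G →* Equiv.Perm (Fin (n + 1))}
  {P Q u : Gl n F} {b : G → Fin (n + 1) → Fˣ} {s : G}

/-- The map on matrices. -/
abbrev Plc.K : Gl n F →* Gl n B := GeneralLinearGroup.map V.iB

/-- The local parameter. -/
abbrev Plc.pr (β : Mˣ) : Aˣ := Units.map V.iA.toMonoidHom β

theorem Plc.K_J (g : Gl n M) : V.K (E.J g) = V.E'.J (GeneralLinearGroup.map V.iA g) :=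
  Units.ext (Matrix.ext fun _ _ => V.sq _)

theorem Plc.K_aG (β : Mˣ) : V.K (E.J (aG n β)) = V.E'.J (aG n (V.pr β)) :=
  (V.K_J _).trans (congrArg _ (Units.ext (cm_map _ _)))

theorem Plc.tw_K (s : G) (g : Gl n F) : AO.tw I V.E'.α s (V.K g) = V.K (AO.tw I E.α s g) := by
  show itb _ _ = GeneralLinearGroup.map _ (itb _ _)
  rw [map_itb]
  exact congrArg (itb (I.sw s)) (Units.ext (Matrix.ext fun _ _ => V.eqv _ _))

theorem Plc.sa_um (s : G) (t : Fin (n + 1) → Fˣ) :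
    sa I V.E'.α π s (um n V.iB t) = um n V.iB (sa I E.α π s t) := funext fun j => by
  show _ = Units.map V.iB.toMonoidHom (ua E.α s (t ((π s)⁻¹ j)) ^ sn (I.sw s))
  rw [map_zpow, sa_apply]
  exact congrArg (· ^ _) (Units.ext (V.eqv _ _))

theorem Plc.fr (h : FrAt I E.α π (E.J (aG n β)) P b s) :
    FrAt I V.E'.α π (V.E'.J (aG n (V.pr β))) (V.K P) (fun s => um n V.iB (b s)) s := by
  have h1 := congrArg V.K h
  rwa [map_mul, map_mul, map_mul, map_pow, V.K_aG, ← V.tw_K, map_dg', map_pm] at h1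

theorem Plc.fix (h : FixAt I V.E'.α (V.E'.J (aG n (V.pr β))) (V.K u) s) :
    FixAt I E.α (E.J (aG n β)) u s := glMap_inj V.inj (by
  rw [map_mul, map_mul, map_pow, V.K_aG, ← V.tw_K]
  exact h)

theorem Plc.coc (h : Coc I V.E'.α π (V.E'.u (V.pr β)) fun s => um n V.iB (b s)) :
    Coc I E.α π (E.u β) b := fun s t => funext fun j => Units.ext (V.inj (by
  have h1 := congrArg (fun y : Fin (n + 1) → Bˣ => (y j).1) (h s t)
  rw [V.sa_um] at h1
  simp only [Pi.mul_apply, Units.val_mul, map_mul, Units.val_pow_eq_pow_val, map_pow] at h1 ⊢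
  exact h1.trans (congrArg (· ^ _ * _) (V.sq _).symm)))

theorem Ext.fr_t₀ (E : Ext M F I) (h1 : I.ix s = 0) (h2 : I.sw s = true) (a g : Gl n M) :
    FrAt I E.α π (E.J a) (E.J g * P) b s ↔
      E.J ((ci true g)⁻¹ * g) = tw I E.α s P * (dg (b s) * pm (π s))⁻¹ * P⁻¹ := by
  rw [FrAt, h1, pow_zero, one_mul, map_mul, E.tw_t₀ h1 h2, map_mul, map_inv,
    eq_mul_inv_iff_mul_eq, eq_mul_inv_iff_mul_eq, mul_assoc (_⁻¹), mul_assoc (_⁻¹),
    inv_mul_eq_iff_eq_mul, eq_comm]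

theorem GI.sw_one (I : GI n G) : I.sw 1 = false := by
  have h := I.swm 1 1
  rwa [mul_one, Bool.xor_self] at h

theorem exists_frame {ι : Type} [Nonempty ι] {A B : ι → Type} [∀ p, CommRing (A p)]
    [∀ p, Tw (A p)] [∀ p, CommRing (B p)] (V : ∀ p, Plc (A p) (B p) E) (hβ : Par β)
    (hp : ∀ h : Gl n M, h.1 ∈ Dal n β.1 →
      (∀ p, ∃ g ∈ Dal n ((V p).iA β.1), st g * g = h.1.map (V p).iA) →
      ∃ g : Gl n M, g.1 ∈ Dal n β.1 ∧ st g.1 * g.1 = h.1)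
    (hc : Coc I E.α π (E.u β) b) (h : ∀ s, I.sw s = false → FrAt I E.α π (E.J (aG n β)) P b s)
    (hQ : ∀ p, ∃ Q, ∀ s, FrAt I (V p).E'.α π ((V p).E'.J (aG n ((V p).pr β))) Q
      (fun s => um n (V p).iB (b s)) s) :
    ∃ P', ∀ s, FrAt I E.α π (E.J (aG n β)) P' b s := by
  obtain ⟨t, h1, h2⟩ := I.t₀
  have key : ∀ p, ∃ g : Gl n (A p), g.1 ∈ Dal n ((V p).iA β.1) ∧ (V p).E'.J ((ci true g)⁻¹ * g) =
      (V p).K (tw I E.α t P * (dg (b t) * pm (π t))⁻¹ * P⁻¹) := fun p => by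
    obtain ⟨Q, hQ⟩ := hQ p
    obtain ⟨g, e, hg⟩ := (V p).E'.desc fun s hs => ((V p).fr (h s hs)).fix (hQ s)
    refine ⟨g, hg, ?_⟩
    have h3 := hQ t
    rw [← eq_mul_inv_iff_mul_eq.1 e, (V p).E'.fr_t₀ h1 h2] at h3
    rw [h3, map_mul, map_mul, map_inv, map_inv, map_mul, map_dg', map_pm, (V p).tw_K]
  obtain ⟨p₀⟩ := ‹Nonempty ι›
  obtain ⟨g₀, hg₀, e₀⟩ := key p₀
  obtain ⟨H, eH, hH⟩ := E.desc fun s hs => (V p₀).fix (e₀ ▸ (V p₀).E'.fixAt (hβ.map (V p₀).tw)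
    (mul_mem (st_mem_Dal (hβ.map (V p₀).tw) hg₀) hg₀) (s := s) (by rw [hs]; rfl))
  obtain ⟨g, hg, e⟩ := hp H hH fun p => by
    obtain ⟨g, hg, e⟩ := key p
    rw [← eH, (V p).K_J] at e
    exact ⟨g.1, hg, congrArg Units.val (glMap_inj (V p).E'.inj e)⟩
  have h3 : ∀ s, I.sw s = false → FrAt I E.α π (E.J (aG n β)) (E.J g * P) b s := fun s hs =>
    (E.fixAt hβ hg (by rw [hs]; rfl)).fr (h s hs)
  have h4 : FrAt I E.α π (E.J (aG n β)) (E.J g * P) b t :=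
    (E.fr_t₀ h1 h2 _ _).2 (eH ▸ congrArg E.J (Units.ext e))
  refine ⟨E.J g * P, fun s => ?_⟩
  cases hs : I.sw s
  · exact h3 s hs
  · have h5 := I.swm (s * t⁻¹) t
    rw [inv_mul_cancel_right, hs, h2] at h5
    rw [← inv_mul_cancel_right s t]
    exact FrAt.mul (E.aG_pow β) (E.tw_aG hβ _) hc (h3 _ (by simpa using h5)) h4

variable (E π) in
/-- The rational points of the torus. -/
def Tq : Subgroup (Fin (n + 1) → Fˣ) where
  carrier := {y | ∀ s, sa I E.α π s y = y}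
  one_mem' := fun _ => map_one _
  mul_mem' := fun hx hy s => by rw [map_mul, hx s, hy s]
  inv_mem' := fun hx s => by rw [map_inv, hx s]

theorem exists_psi (h : ∀ s, FrAt I E.α π (E.J (aG n β)) P b s) :
    ∃ ψ : Tq E π →* Un n β.1, ∀ y, E.J (ψ y).1 = P * dg y.1 * P⁻¹ := by
  choose ψ hψ using fun y : Tq E π => E.descU fun s => ((h s).fix_iff y.1).2 (y.2 s)
  refine ⟨MonoidHom.mk' ψ fun x y => Subtype.ext (glMap_inj E.inj ?_), hψ⟩
  rw [Subgroup.coe_mul, map_mul, hψ, hψ, hψ, Subgroup.coe_mul, map_mul]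
  group

theorem psi_ker {ψ : Tq E π →* Un n β.1} (h : ∀ y, E.J (ψ y).1 = P * dg y.1 * P⁻¹) (y : Tq E π) :
    (QuotientGroup.mk (ψ y) : PU n β.1) = 1 ↔ ∃ c, (dg y.1).1 = E.j c • (1 : Mt n F) := by
  rw [QuotientGroup.eq_one_iff]
  refine exists_congr fun c => ?_
  have e : (c • (1 : Mt n M)).map E.j = E.j c • (1 : Mt n F) := by
    rw [map_smul_ring, Matrix.map_one _ (map_zero _) (map_one _)]
  have h1 : (ψ y).1.1.map E.j = P.1 * (dg y.1).1 * (P⁻¹).1 := congrArg Units.val (h y)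
  rw [← (Matrix.map_injective E.inj).eq_iff, e, h1]
  constructor
  · intro h2
    have h3 := congrArg (fun z => (P⁻¹).1 * z * P.1) h2
    simpa [Matrix.mul_assoc] using h3
  · intro h2
    simp [h2]

theorem exists_tau {T H H' : Type} [Group T] [Group H] [Group H'] (f : T →* H) (f' : T →* H')
    (hk : ∀ y, f y = 1 ↔ f' y = 1) {C : Subgroup H} {C' : Subgroup H'} (hC : f.range = C)
    (hC' : f'.range = C') : ∃ τ : C ≃* C', ∀ (t : C) y, f y = t → (τ t : H') = f' y := by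
  subst hC hC'
  refine ⟨(QuotientGroup.quotientKerEquivRange f).symm.trans ((QuotientGroup.quotientMulEquivOfEq
    (Subgroup.ext hk)).trans (QuotientGroup.quotientKerEquivRange f')), fun t y h => ?_⟩
  have h1 : (QuotientGroup.quotientKerEquivRange f).symm t = QuotientGroup.mk y :=
    (MulEquiv.symm_apply_eq _).2 (Subtype.ext h.symm)
  rw [MulEquiv.trans_apply, h1]
  rfl

/-- The local intertwiner of the two tori. -/
theorem Plc.exists_u {f : Bool} (L : LI n f (V.iA β.1) (V.iA β'.1)) {P' : Gl n F}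
    {b' : G → Fin (n + 1) → Fˣ} (h' : ∀ s, FrAt I E.α π (E.J (aG n β')) P' b' s)
    {y : Fin (n + 1) → Bˣ} (hQ : ∀ s, FrAt I V.E'.α π (V.E'.J (aG n (V.pr β')))
      ((V.E'.J L.W)⁻¹ * itb f (V.K P) * dg y) (fun s => um n V.iB (b' s)) s)
    {ψ : Tq E π →* Un n β.1} (hψ : ∀ y, E.J (ψ y).1 = P * dg y.1 * P⁻¹)
    {ψ' : Tq E π →* Un n β'.1} (hψ' : ∀ y, E.J (ψ' y).1 = P' * dg y.1 * P'⁻¹) :
    ∃ u : Un n (V.iA β'.1), V.E'.J u.1 = V.K P' * ((V.E'.J L.W)⁻¹ * itb f (V.K P) * dg y)⁻¹ ∧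
      ∀ t, unMap V.tw β'.1 (ψ' t) * u = u * L.un (unMap V.tw β.1 (ψ t)) ^ sn f := by
  obtain ⟨u, hu⟩ : ∃ u : Un n (V.iA β'.1), V.E'.J u.1 = _ :=
    V.E'.descU (β := V.pr β') fun s => (hQ s).fix (V.fr (h' s))
  refine ⟨u, hu, fun t => Subtype.ext (glMap_inj V.E'.inj ?_)⟩
  have h1 : V.E'.J (unMap V.tw β'.1 (ψ' t)).1 = V.K P' * dg (um n V.iB t.1) * (V.K P')⁻¹ := by
    rw [← map_dg', ← map_inv, ← map_mul, ← map_mul, ← hψ', V.K_J]
    rfl
  have h2 : V.E'.J (L.un (unMap V.tw β.1 (ψ t))).1 = (V.E'.J L.W)⁻¹ * (itb f (V.K P) *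
      dg (um n V.iB t.1) ^ sn f * (itb f (V.K P))⁻¹) * V.E'.J L.W := by
    rw [← map_zpow, ← itb_dg, ← map_dg', ← map_inv, ← map_inv, ← map_mul, ← map_mul, ← map_inv,
      ← map_mul, ← map_mul, ← hψ, V.K_J, ← map_itb, ← map_mul, ← map_mul]
    refine congrArg _ ?_
    exact congrArg (L.W⁻¹ * · * L.W) (map_tf_of_un f (unMap V.tw β.1 (ψ t)).2.2)
  have h3 : sn f * sn f = 1 := by cases f <;> rfl
  have h4 : dg (um n V.iB t.1) = (dg y)⁻¹ * dg (um n V.iB t.1) * dg y := by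
    rw [← map_inv, ← map_mul, ← map_mul, inv_mul_cancel_comm]
  have h5 : ∀ w x : Gl n B, (w⁻¹ * x * w) ^ sn f = w⁻¹ * x ^ sn f * w := fun w x => by
    simpa using conj_zpow (a := w⁻¹) (b := x) (i := sn f)
  rw [Subgroup.coe_mul, Subgroup.coe_mul, Subgroup.coe_zpow, map_mul, map_mul, map_zpow, h1, h2, hu,
    h5, conj_zpow, ← _root_.zpow_mul, h3, zpow_one]
  conv_lhs => rw [h4]
  group

end Pool.Agent.P.MP_3c2f8c_gt.AO
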