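import Pool.Agent.P.MP_3c2f8c_gt.AO.MtC

/-! Frames of regular elements, centralisers, the lemma of Shapiro. -/

namespace Pool.Agent.P.MP_3c2f8c_gt.AO

open Matrix Polynomial

variable {n : ℕ}

theorem exists_split {M : Type} [Field M] [NumberField M] (χ : M[X]) :
    ∃ (F : Type) (_ : Field F) (_ : NumberField F) (_ : IsGalois ℚ F) (_ : Algebra M F),
      (χ.map (algebraMap M F)).Splits := by
  have key : ∀ (E : Type) [Field E] [NumberField E], ∃ (F : Type) (_ : Field F) (_ : NumberField F)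
      (_ : IsGalois ℚ F), Nonempty (E →+* F) := fun E _ _ => by
    let F := IntermediateField.normalClosure ℚ E (AlgebraicClosure E)
    have : Algebra.IsAlgebraic ℚ (AlgebraicClosure E) := Algebra.IsAlgebraic.trans ℚ E _
    have : IsAlgClosure ℚ (AlgebraicClosure E) := ⟨inferInstance, this⟩
    have h3 : Normal ℚ F := normalClosure.normal ℚ E _
    have h4 : NumberField F := NumberField.of_module_finite ℚ F
    exact ⟨F, inferInstance, h4, {}, ⟨algebraMap E F⟩⟩
  have := NumberField.of_module_finite M χ.SplittingField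
  obtain ⟨F, _, _, _, ⟨j⟩⟩ := key χ.SplittingField
  refine ⟨F, inferInstance, inferInstance, inferInstance,
    (j.comp (algebraMap M χ.SplittingField)).toAlgebra, ?_⟩
  have h := (SplittingField.splits χ).map j
  rwa [Polynomial.map_map] at h

variable {F : Type} [Field F]

theorem exists_eigen (g : Gl n F) (h : g.1.charpoly.Separable) (h' : g.1.charpoly.Splits) :
    ∃ (P : Gl n F) (l : Fin (n + 1) → Fˣ), Function.Injective l ∧ g * P = P * dg l := by
  classical
  have h1 : g.1.charpoly.roots.toFinset.card = n + 1 := by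
    rw [Multiset.toFinset_card_of_nodup (nodup_roots h), ← h'.natDegree_eq_card_roots,
      charpoly_natDegree_eq_dim, Fintype.card_fin]
  let e := (Finset.equivFinOfCardEq h1).symm
  have he : Function.Injective fun a => (e a).1 := Subtype.val_injective.comp e.injective
  choose v hv using fun a => Module.End.HasEigenvalue.exists_hasEigenvector
    (f := toLin' g.1) (μ := (e a).1) (by
      rw [Module.End.hasEigenvalue_iff_isRoot_charpoly, charpoly_toLin']
      exact isRoot_of_mem_roots (Multiset.mem_toFinset.1 (e a).2))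
  obtain ⟨P, hP⟩ := (linearIndependent_cols_iff_isUnit (A := (Matrix.of v)ᵀ)).1
    (Module.End.eigenvectors_linearIndependent' (toLin' g.1) _ he v hv)
  have h2 : g.1 * P.1 = P.1 * diagonal fun a => (e a).1 := by
    rw [hP]
    ext i a
    rw [mul_diagonal, mul_comm]
    exact congrFun (hv a).apply_eq_smul i
  have h3 : ∀ a, (e a).1 ≠ 0 := fun a h0 => by
    have h4 := congrArg Matrix.det h2
    rw [det_mul, det_mul, det_diagonal, Finset.prod_eq_zero (Finset.mem_univ a) h0, mul_zero,
      ← det_mul] at h4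
    exact ((g * P).isUnit.map detMonoidHom).ne_zero h4
  exact ⟨P, fun a => Units.mk0 _ (h3 a), fun a b hab => he (congrArg Units.val hab), Units.ext h2⟩

theorem monomial {Y : Gl n F} {l l' : Fin (n + 1) → Fˣ} (hl : Function.Injective l)
    (h : dg l * Y = Y * dg l') : ∃ (b : Fin (n + 1) → Fˣ) (w : Equiv.Perm (Fin (n + 1))),
      Y = dg b * pm w ∧ ∀ j, l' j = l (w j) := by
  have h1 : ∀ i j, Y.1 i j ≠ 0 → l' j = l i := fun i j h0 => by
    have h2 := congrArg (fun g : Gl n F => g.1 i j) h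
    simp only [Units.val_mul, dg_val, diagonal_mul, mul_diagonal] at h2
    exact Units.ext (mul_left_cancel₀ h0 (by rw [← h2, mul_comm]))
  have h2 : ∀ j, ∃ i, Y.1 i j ≠ 0 := fun j => by
    by_contra h0
    have h3 := congrArg (fun x : Mt n F => x j j) Y.inv_mul
    simp only [not_exists, not_not] at h0
    simp [Matrix.mul_apply, h0] at h3
  have h3 : ∀ i, ∃ j, Y.1 i j ≠ 0 := fun i => by
    by_contra h0
    have h3 := congrArg (fun x : Mt n F => x i i) Y.mul_inv
    simp only [not_exists, not_not] at h0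
    simp [Matrix.mul_apply, h0] at h3
  choose w hw using h2
  have h4 : ∀ i j, Y.1 i j ≠ 0 → i = w j := fun i j h0 =>
    hl ((h1 i j h0).symm.trans (h1 _ j (hw j)))
  have h5 : Function.Surjective w := fun i => (h3 i).imp fun j hj => (h4 i j hj).symm
  let e := Equiv.ofBijective w h5.bijective_of_finite
  refine ⟨fun i => Units.mk0 _ (hw (e.symm i)), e, Units.ext ?_, fun j => h1 _ j (hw j)⟩
  ext i j
  show _ = (diagonal _ * pmM F e : Mt n F) i j
  rw [diagonal_mul, pmM, Matrix.of_apply]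
  split_ifs with h6
  · rw [h6, mul_one, Units.val_mk0, e.symm_apply_apply]
    rfl
  · rw [mul_zero]
    exact by_contra fun h0 => h6 (h4 i j h0)

variable {G : Type} [Group G] {I : GI n G}

theorem exists_fr {α : G →* (F ≃+* F)} {a g P : Gl n F} {l : Fin (n + 1) → Fˣ}
    (hl : Function.Injective l) (h : g * P = P * dg l) (hg : ∀ s, FixAt I α a g s) :
    ∃ (π : G →* Equiv.Perm (Fin (n + 1))) (b : G → Fin (n + 1) → Fˣ),
      (∀ s, FrAt I α π a P b s) ∧ ∀ s, sa I α π s l = l := by
  choose b w hb hw using fun s => monomial (Y := P⁻¹ * (a ^ I.ix s * tw I α s P)) hl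
    (l' := fun j => ua α s (l j) ^ sn (I.sw s)) (by
      rw [← tw_dg, mul_assoc, mul_assoc, ← map_mul, ← h, map_mul, ← mul_assoc (a ^ _), hg s,
        eq_inv_mul_iff_mul_eq.2 h.symm]
      group)
  refine ⟨MonoidHom.mk' w fun s t => Equiv.ext fun j => hl ?_, b,
    fun s => inv_mul_eq_iff_eq_mul.1 (hb s), fun s => funext fun j => ?_⟩
  · rw [← hw, Equiv.Perm.mul_apply, ← hw s, ← hw t, map_zpow, ← ua_mul, ← _root_.zpow_mul, I.swm,
      sn_xor, mul_comm]
  · exact (hw s _).trans (congrArg l ((w s).apply_symm_apply j))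

variable {M : Type} [Field M] [Tw M] {E : Ext M F I} {β : Mˣ} {π : G →* Equiv.Perm (Fin (n + 1))}
  {P : Gl n F} {b : G → Fin (n + 1) → Fˣ}

theorem psi_trace {ψ : Tq E π →* Un n β.1} (hψ : ∀ y, E.J (ψ y).1 = P * dg y.1 * P⁻¹)
    (y : Tq E π) : E.j (ψ y).1.1.trace = (dg y.1).1.trace := by
  have h1 : (ψ y).1.1.map E.j = P.1 * (dg y.1).1 * (P⁻¹).1 := congrArg Units.val (hψ y)
  rw [AddMonoidHom.map_trace, h1, Matrix.trace_mul_cycle, Units.inv_mul, Matrix.one_mul]

theorem psi_range (hβ : Par β) (h : ∀ s, FrAt I E.α π (E.J (aG n β)) P b s)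
    {ψ : Tq E π →* Un n β.1} (hψ : ∀ y, E.J (ψ y).1 = P * dg y.1 * P⁻¹) {l : Tq E π}
    (hl : Function.Injective l.1) (ht : (dg l.1).1.trace ≠ 0) :
    ((QuotientGroup.mk' (Zc n β.1)).comp ψ).range =
      Subgroup.centralizer {QuotientGroup.mk (ψ l)} := by
  ext t
  rw [Subgroup.mem_centralizer_singleton_iff]
  constructor
  · rintro ⟨y, rfl⟩
    exact ((Commute.all y l).map ((QuotientGroup.mk' (Zc n β.1)).comp ψ)).eq
  · induction t using QuotientGroup.induction_on with
    | H t =>
      intro h1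
      obtain ⟨c, hc⟩ := QuotientGroup.eq.1 h1
      have h2 : (ψ l).1.1 * t.1.1 = c • (t.1.1 * (ψ l).1.1) := by
        have h3 := congrArg ((t * ψ l).1.1 * ·) hc
        simp only [Subgroup.coe_mul, Subgroup.coe_inv, Units.val_mul (_⁻¹),
          Units.mul_inv_cancel_left, Matrix.mul_smul, Matrix.mul_one] at h3
        exact h3
      have h3 := congrArg (fun x => E.j (x * (t.1⁻¹).1).trace) h2
      simp only [Units.mul_inv_cancel_right, Matrix.smul_mul, Matrix.trace_smul, smul_eq_mul,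
        Matrix.trace_mul_cycle t.1.1, Units.inv_mul, Matrix.one_mul, map_mul, psi_trace hψ] at h3
      have h4 : c = 1 := E.inj (by rw [map_one]; exact (mul_eq_right₀ ht).1 h3.symm)
      rw [h4, one_smul] at h2
      have h5 := congrArg E.J (Units.ext h2 : (ψ l).1 * t.1 = t.1 * (ψ l).1)
      rw [map_mul, map_mul, hψ] at h5
      obtain ⟨y, w, hy, hw⟩ := monomial (Y := P⁻¹ * E.J t.1 * P) (l' := l.1) hl (by
        rw [← mul_right_inj P, ← mul_left_inj P⁻¹]
        simpa only [mul_assoc, mul_inv_cancel_left, mul_inv_cancel, mul_one] using h5)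
      rw [show w = 1 from Equiv.ext fun j => (hl (hw j)).symm, map_one, mul_one] at hy
      have h6 : E.J t.1 = P * dg y * P⁻¹ := by
        rw [← hy]
        group
      exact ⟨⟨y, fun s => ((h s).fix_iff y).1 (h6 ▸ E.fixAt_un hβ t s)⟩, congrArg QuotientGroup.mk
        (Subtype.ext (glMap_inj E.inj ((hψ _).trans h6.symm)))⟩

theorem shapiro {J C : Type} [MulAction G J] [CommGroup C] [MulDistribMulAction G C]
    (h1 : ∀ (H : Subgroup G) (c : H → C), (∀ s t : H, c (s * t) = c s * (s : G) • c t) →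
      ∃ z : C, ∀ s : H, c s = (s : G) • z * z⁻¹)
    (z : G → J → C) (hz : ∀ s t j, z (s * t) j = z s j * s • z t (s⁻¹ • j)) :
    ∃ y : J → C, ∀ s j, z s j = s • y (s⁻¹ • j) / y j := by
  let r : J → J := fun j => (Quotient.mk (MulAction.orbitRel G J) j).out
  have hr : ∀ j, ∃ g : G, g • r j = j := fun j =>
    MulAction.orbitRel_apply.1 ((MulAction.orbitRel G J).symm
      (Quotient.mk_out (s := MulAction.orbitRel G J) j))
  have hr' : ∀ (s : G) j, r (s • j) = r j := fun s j => congrArg Quotient.out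
    (Quotient.sound (MulAction.orbitRel_apply.2 ⟨s, rfl⟩))
  choose g hg using hr
  choose w hw using fun j => h1 (MulAction.stabilizer G j) (fun s => z s j) fun s t =>
    (hz s t j).trans (by rw [show (s : G)⁻¹ • j = j from (s⁻¹).2])
  refine ⟨fun j => g j • w (r j) / z (g j) j, fun s j => ?_⟩
  have h2 : (g j)⁻¹ • j = r j := inv_smul_eq_iff.2 (hg j).symm
  have h3 : ((g j)⁻¹ * s * g (s⁻¹ • j)) • r j = r j := by
    rw [mul_smul, mul_smul, ← hr' s⁻¹ j, hg, smul_inv_smul, h2, hr']
  have h4 := hz (g j) ((g j)⁻¹ * s * g (s⁻¹ • j)) j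
  have h5 := hw (r j) ⟨_, h3⟩
  simp only at h5
  rw [h2, h5, ← mul_assoc, mul_inv_cancel_left, hz, smul_mul', smul_inv', smul_smul,
    ← mul_assoc (g j), mul_inv_cancel_left] at h4
  simp only [hr', smul_div', smul_smul]
  rw [eq_mul_inv_of_mul_eq h4]
  simp only [div_eq_mul_inv, _root_.mul_inv_rev, inv_inv, mul_comm, mul_left_comm, mul_assoc]

theorem sq_cob (I : GI n G) (π : G →* Equiv.Perm (Fin (n + 1))) {C : Type} [CommGroup C]
    [MulDistribMulAction G C]
    (h1 : ∀ (H : Subgroup G) (c : H → C), (∀ s t : H, c (s * t) = c s * (s : G) • c t) →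
      ∃ z : C, ∀ s : H, c s = (s : G) • z * z⁻¹) (z : G → Fin (n + 1) → C)
    (hz : ∀ s t j, z (s * t) j = z s j * (s • z t ((π s)⁻¹ j)) ^ sn (I.sw s)) :
    ∃ y : Fin (n + 1) → C, ∀ s j, z s j ^ 2 = (s • y ((π s)⁻¹ j)) ^ sn (I.sw s) / y j := by
  let _ : MulAction G (Fin (n + 1) × Bool) :=
    { smul := fun s x => (π s x.1, xor (I.sw s) x.2)
      one_smul := fun x => Prod.ext (by show π 1 x.1 = _; rw [map_one]; rfl)
        (by show xor (I.sw 1) x.2 = _; rw [I.sw_one, Bool.false_xor])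
      mul_smul := fun s t x => Prod.ext (by show π (s * t) x.1 = _; rw [map_mul]; rfl)
        (by show xor (I.sw (s * t)) x.2 = _; rw [I.swm, Bool.xor_assoc]; rfl) }
  have e : ∀ (s : G) j e, s⁻¹ • ((j, e) : Fin (n + 1) × Bool) = ((π s)⁻¹ j, xor (I.sw s) e) :=
    fun s j e => by
      have h2 := I.swm s⁻¹ s
      rw [inv_mul_cancel, I.sw_one] at h2
      rw [← map_inv, ← show I.sw s⁻¹ = I.sw s by simpa using h2]
      rfl
  obtain ⟨y, hy⟩ := shapiro h1 (fun s (x : Fin (n + 1) × Bool) => z s x.1 ^ sn x.2)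
    fun s t ⟨j, b⟩ => by rw [e, hz, mul_zpow, ← _root_.zpow_mul, sn_xor, smul_zpow']
  refine ⟨fun j => y (j, false) / y (j, true), fun s j => ?_⟩
  have h2 := hy s (j, false)
  have h3 := hy s (j, true)
  rw [e, sn, cond_false, zpow_one] at h2
  rw [e, sn, cond_true, _root_.zpow_neg_one, inv_eq_iff_eq_inv] at h3
  rw [sq]
  nth_rewrite 1 [h2]
  rw [h3]
  cases I.sw s <;> simp [sn, smul_div', div_eq_mul_inv, mul_comm, mul_left_comm, mul_assoc]

end Pool.Agent.P.MP_3c2f8c_gt.AO
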