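import Pool.Agent.P.MP_3c2f8c_gt.AO.Top
import Pool.Agent.Lib.CFT.Main

/-! Local norms in a quadratic extension generated by the square root of an integer. -/

namespace Pool.Agent.P.MP_3c2f8c_gt.AO.NLAux

open Matrix Pool.Agent.Lib.CFT Pool.Agent.P.MP_9ec3f0_nt.SY
open scoped TensorProduct

section Abstract

variable {K : Type} [Field K] [NumberField K] {ρ : Aut K} {r : K} {m : ℤ}

theorem Nm_two {A : Type} [CommGroup A] (α : A →* A) (y : A) : Nm α 2 y = α y * y := by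
  rw [Nm_apply, Finset.prod_range_succ, Finset.prod_range_one, mul_comm]
  rfl

theorem norm_split (hr : ρ r = -r) (hm : r ^ 2 = m) (h0 : r ≠ 0) (κ : Type) [Field κ]
    [Algebra ℚ κ] (hs : IsSquare (m : κ)) {x : (κ ⊗[ℚ] K)ˣ} (hx : uact κ ρ x = x) :
    ∃ y, Nm (uact κ ρ) 2 y = x := by
  obtain ⟨a, ha⟩ := hs
  have : CharZero κ := algebraRat.charZero κ
  have hm0 : m ≠ 0 := by
    rintro rfl
    exact h0 (pow_eq_zero_iff two_ne_zero |>.1 (by simpa using hm))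
  have ha0 : a ≠ 0 := by
    rintro rfl
    exact hm0 (by exact_mod_cast ha.trans (mul_zero _))
  let s : κ ⊗[ℚ] K := a⁻¹ ⊗ₜ r
  have hss : s * s = 1 := by
    show (a⁻¹ ⊗ₜ r : κ ⊗[ℚ] K) * a⁻¹ ⊗ₜ r = 1
    rw [Algebra.TensorProduct.tmul_mul_tmul, ← sq r, hm, ← mul_one (m : K), ← zsmul_eq_mul,
      ← Int.cast_smul_eq_zsmul ℚ, ← TensorProduct.smul_tmul, Int.cast_smul_eq_zsmul, zsmul_eq_mul, ha,
      Algebra.TensorProduct.one_def]
    congr 1
    field_simp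
  have hls : lact κ ρ s = -s := by
    show lact κ ρ (a⁻¹ ⊗ₜ r) = -(a⁻¹ ⊗ₜ r)
    rw [lact_tmul, hr, TensorProduct.tmul_neg]
  let t : κ ⊗[ℚ] K := algebraMap κ _ (2⁻¹ : κ)
  have ht : 2 * t = 1 := by
    show 2 * algebraMap κ (κ ⊗[ℚ] K) (2⁻¹ : κ) = 1
    rw [← map_ofNat (algebraMap κ (κ ⊗[ℚ] K)) 2, ← map_mul, mul_inv_cancel₀ two_ne_zero, map_one]
  have hlt : lact κ ρ t = t := AlgEquiv.commutes _ _
  have he : IsIdempotentElem (t * (1 + s)) := by
    show t * (1 + s) * (t * (1 + s)) = t * (1 + s)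
    linear_combination t * t * hss + t * (1 + s) * ht
  have hle : lact κ ρ (t * (1 + s)) = 1 - t * (1 + s) := by
    rw [map_mul, map_add, map_one, hlt, hls]
    linear_combination ht
  have hx' : lact κ ρ x.1 = x.1 := congrArg Units.val hx
  refine ⟨pcj he x, Units.ext ?_⟩
  rw [Nm_two, Units.val_mul, uact_val, pcj_val, map_add, map_sub, map_one, map_mul (lact κ ρ) _ x.1,
    hle, hx']
  linear_combination (2 * x.1 - x.1 * x.1 - 1) * he.eq

variable {p : ℕ} [Fact p.Prime]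

theorem norm_close {x : (Ap p K)ˣ} (hx : uact ℚ_[p] ρ x = x) (h : Sm 3 (x.1 - 1)) :
    ∃ y, Nm (uact ℚ_[p] ρ) 2 y = x := by
  obtain ⟨y, -, e, hy⟩ := exists_pow_of_sm Nat.prime_two h
  exact ⟨y, by rw [Nm_of_fixed (hy ρ hx), e]⟩

theorem exists_fixed_unif (hρ : ∀ x, ρ (ρ x) = x) (hr : ρ r = -r) (hm : r ^ 2 = m)
    (hp : ¬ (p : ℤ) ∣ 2 * m) {w : Pr K} (hw : Ab p w) (hc : MP_9ec3f0_nt.SY.cj ρ w = w) :
    ∃ π : K, ρ π = π ∧ ord w π = 1 := by
  have hv : ∀ x, w.valuation K (ρ x) = w.valuation K x := fun x => by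
    have h := val_cj ρ w x
    rwa [hc] at h
  have h2 : w.valuation K (2 : K) = 1 := by
    have h := Loc1Aux.val_coprime hw (n := 2) fun h =>
      hp ((Int.natCast_dvd_natCast.2 h).mul_right m)
    rwa [Nat.cast_ofNat] at h
  have hmv : w.valuation K (m : K) = 1 := by
    have h := Loc1Aux.val_coprime hw (n := m.natAbs) fun h =>
      hp ((Int.natCast_dvd.2 h).mul_left 2)
    rcases Int.natAbs_eq m with e | e
    · rw [e, Int.cast_natCast, h]
    · rw [e, Int.cast_neg, Int.cast_natCast, Valuation.map_neg, h]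
  have hrv : w.valuation K r = 1 := by
    rw [← hm, map_pow] at hmv
    exact (pow_eq_one_iff_of_nonneg zero_le two_ne_zero).1 hmv
  obtain ⟨ϖ, hϖ⟩ := ExtAux.exists_unif w
  have ha : w.valuation K (ϖ + ρ ϖ) ≤ w.valuation K ϖ :=
    Valuation.map_add_le _ le_rfl (hv ϖ).le
  have hb : w.valuation K (ϖ - ρ ϖ) ≤ w.valuation K ϖ :=
    Valuation.map_sub_le _ le_rfl (hv ϖ).le
  rcases ha.eq_or_lt with ha | ha
  · refine ⟨ϖ + ρ ϖ, by rw [map_add, hρ, add_comm], ?_⟩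
    rw [← hϖ, ord, ord, ha]
  rcases hb.eq_or_lt with hb | hb
  · refine ⟨(ϖ - ρ ϖ) * r, by rw [map_mul, map_sub, hρ, hr]; ring, ?_⟩
    rw [← hϖ, ord, ord, map_mul, hb, hrv, mul_one]
  have h := Valuation.map_add_lt _ ha hb
  rw [show ϖ + ρ ϖ + (ϖ - ρ ϖ) = 2 * ϖ by ring, map_mul, h2, one_mul] at h
  exact absurd h (lt_irrefl _)

theorem rho_sq (hρ : ∀ x, ρ (ρ x) = x) : ρ ^ 2 = 1 := AlgEquiv.ext fun x => by
  rw [sq]
  exact hρ x

theorem rho_ne (hr : ρ r = -r) (h0 : r ≠ 0) : ρ ≠ 1 := by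
  rintro rfl
  exact h0 (self_eq_neg.1 hr)

theorem norm_unr (hρ : ∀ x, ρ (ρ x) = x) (hr : ρ r = -r) (hm : r ^ 2 = m) (h0 : r ≠ 0)
    (hp : ¬ (p : ℤ) ∣ 2 * m) {x : (Ap p K)ˣ} (hx : uact ℚ_[p] ρ x = x) (h : x ∈ Lib.CFT.IntU p K) :
    ∃ y, Nm (uact ℚ_[p] ρ) 2 y = x :=
  exists_norm_of_unr Nat.prime_two (rho_sq hρ) (rho_ne hr h0) hx fun w hw hc =>
    ⟨exists_fixed_unif hρ hr hm hp hw hc, mem_IntU_iff.1 h w hw⟩

end Abstract

section Transfer

variable {n : ℕ} {M : Type} [Field M] [NumberField M] {K : Type} [Field K] [NumberField K]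

/-- The extension of an embedding into a matrix algebra to the local algebras. -/
noncomputable def Psi (ι : K →+* Mt n M) (κ : Type) [Field κ] [Algebra ℚ κ] :
    κ ⊗[ℚ] K →ₐ[κ] Mt n (κ ⊗[ℚ] M) :=
  Algebra.TensorProduct.lift (Algebra.ofId κ _)
    ((inc κ M).mapMatrix.comp ι).toRatAlgHom fun a _ => Algebra.commutes a _

variable (ι : K →+* Mt n M) (κ : Type) [Field κ] [Algebra ℚ κ]

theorem Psi_tmul (a : κ) (x : K) : Psi ι κ (a ⊗ₜ x) = a • (ι x).map (inc κ M) := by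
  rw [Psi, Algebra.TensorProduct.lift_tmul, Algebra.smul_def]
  rfl

theorem Psi_inc (x : K) : Psi ι κ (inc κ K x) = (ι x).map (inc κ M) := by
  show Psi ι κ (1 ⊗ₜ x) = _
  rw [Psi_tmul, one_smul]

theorem Psi_injective : Function.Injective (Psi ι κ) := by
  obtain ⟨g, hg⟩ := LinearMap.exists_leftInverse_of_injective ι.toRatAlgHom.toLinearMap
    (LinearMap.ker_eq_bot.2 ι.injective)
  have hg' : ∀ x, g (ι x) = x := fun x => LinearMap.congr_fun hg x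
  let L : Mt n (κ ⊗[ℚ] M) → κ ⊗[ℚ] K := fun X =>
    ∑ i, ∑ j, LinearMap.lTensor κ (g ∘ₗ Matrix.singleLinearMap ℚ i j) (X i j)
  refine Function.LeftInverse.injective (g := L) fun z => ?_
  induction z using TensorProduct.induction_on with
  | zero => simp [L]
  | tmul a x =>
    have e : ∀ i j, Psi ι κ (a ⊗ₜ x) i j = a ⊗ₜ ι x i j := fun i j => by
      rw [Psi_tmul, Matrix.smul_apply, Matrix.map_apply]
      show a • ((1 : κ) ⊗ₜ[ℚ] ι x i j) = _
      rw [TensorProduct.smul_tmul', smul_eq_mul, mul_one]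
    simp only [L, e, LinearMap.lTensor_tmul, ← TensorProduct.tmul_sum, LinearMap.comp_apply,
      ← map_sum, Matrix.singleLinearMap_apply]
    rw [← Matrix.matrix_eq_sum_single, hg']
  | add x y hx hy =>
    simp only [L, map_add, Matrix.add_apply, Finset.sum_add_distrib] at hx hy ⊢
    rw [hx, hy]

theorem Psi_lact [G2 M] {ρ : Aut K} (hρ : ∀ x, ι (ρ x) = st (ι x)) (z : κ ⊗[ℚ] K) :
    Psi ι κ (lact κ ρ z) = st (Psi ι κ z) := by
  induction z using TensorProduct.induction_on with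
  | zero => simp [st]
  | tmul a x =>
    rw [lact_tmul, Psi_tmul, Psi_tmul, hρ, (twHom_inc κ).st, ← algebraMap_smul (κ ⊗[ℚ] M) a,
      ← algebraMap_smul (κ ⊗[ℚ] M) a, st_smul]
    congr 1
    exact (AlgEquiv.commutes (lact κ (G2.τ : Aut M)) a).symm
  | add x y hx hy => rw [map_add, map_add, map_add, hx, hy, st_add]

theorem exists_Psi {E : Set (Mt n M)} (hE : ∀ x ∈ E, ∃ y, ι y = x) {y : Mt n (κ ⊗[ℚ] M)}
    (hy : y ∈ Submodule.span κ ((fun x : Mt n M => x.map (inc κ M)) '' E)) :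
    ∃ z, Psi ι κ z = y := by
  have h : Submodule.span κ ((fun x : Mt n M => x.map (inc κ M)) '' E) ≤
      LinearMap.range (Psi ι κ).toLinearMap := by
    rw [Submodule.span_le]
    rintro _ ⟨x, hx, rfl⟩
    obtain ⟨u, rfl⟩ := hE x hx
    exact ⟨inc κ K u, Psi_inc ι κ u⟩
  exact h hy

variable {p : ℕ} [Fact p.Prime]

theorem isIntegral_matrix {X : Mt n (Ap p M)} (h : ∀ i j, IsIntegral ℤ_[p] (X i j)) :
    IsIntegral ℤ_[p] X := by
  let Y : Mt n (integralClosure ℤ_[p] (Ap p M)) := Matrix.of fun i j => ⟨X i j, h i j⟩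
  have h1 : IsIntegral ℤ_[p] Y := isIntegral_trans Y (Matrix.isIntegral Y)
  exact h1.map (integralClosure ℤ_[p] (Ap p M)).val.mapMatrix

theorem isIntegral_of_Psi {z : Ap p K} (h : ∀ i j, IsIntegral ℤ_[p] (Psi ι ℚ_[p] z i j)) :
    IsIntegral ℤ_[p] z :=
  (isIntegral_algHom_iff ((Psi ι ℚ_[p]).restrictScalars ℤ_[p]) (Psi_injective ι ℚ_[p])).1
    (isIntegral_matrix h)

theorem sm_of_Psi {k : ℕ} {z : Ap p K} (h : ∀ i j, Sm k (Psi ι ℚ_[p] z i j)) : Sm k z := by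
  have hp : ((p : ℚ_[p]) ^ k) ≠ 0 := pow_ne_zero _ (Nat.cast_ne_zero.2 (Fact.out : p.Prime).ne_zero)
  refine ⟨((p : ℚ_[p]) ^ k)⁻¹ • z, isIntegral_of_Psi ι fun i j => ?_, ?_⟩
  · obtain ⟨y, hy, e⟩ := h i j
    rw [map_smul, Matrix.smul_apply, e, Loc1Aux.ppow_mul, inv_smul_smul₀ hp]
    exact hy
  · rw [Loc1Aux.ppow_mul, smul_inv_smul₀ hp]

end Transfer

end Pool.Agent.P.MP_3c2f8c_gt.AO.NLAux
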