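import Pool.Agent.P.MP_3c2f8c_gt.AO.Top
import Pool.Agent.Lib.CFT.Main
import Pool.Agent.P.MP_3c2f8c_gt.AO.NLX

/-! The Hasse norm theorem in commutative subfields of the algebra. -/

namespace Pool.Agent.P.MP_3c2f8c_gt.AO

open Matrix Pool.Agent.Lib.CFT

variable {n : ℕ} {M : Type} [Field M] [NumberField M] [G2 M] [OrdM n M]

namespace NLAux

omit [G2 M] [OrdM n M] in
theorem exists_field (E : Subalgebra ℚ (Mt n M)) (hu : ∀ x ∈ E, x ≠ 0 → IsUnit x)
    (hc : ∀ x ∈ E, ∀ y ∈ E, x * y = y * x) : ∃ (K : Type) (_ : Field K) (_ : NumberField K)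
      (ι : K →+* Mt n M), ∀ x, x ∈ E ↔ ∃ y, ι y = x := by
  have hF : IsField E := by
    refine ⟨exists_pair_ne E, fun x y => Subtype.ext (hc _ x.2 _ y.2), fun {x} hx => ?_⟩
    have hx' : IsUnit x.1 := hu x.1 x.2 fun h => hx (Subtype.ext h)
    have hi : Function.Injective (LinearMap.mulLeft ℚ x) := fun y z h =>
      Subtype.ext (hx'.mul_left_cancel (congrArg Subtype.val h))
    exact LinearMap.injective_iff_surjective.1 hi 1
  have key : ∀ (K : Type) [Field K], (K →+* Mt n M) → NumberField K := fun K _ ι => by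
    have : CharZero (Mt n M) := algebraRat.charZero _
    have : CharZero K := ι.charZero
    have : Module.Finite ℚ K := Module.Finite.of_injective ι.toRatAlgHom.toLinearMap ι.injective
    exact ⟨⟩
  let _ : Field E := hF.toField
  exact ⟨E, inferInstance, key E E.val.toRingHom, E.val.toRingHom,
    fun x => ⟨fun hx => ⟨⟨x, hx⟩, rfl⟩, fun ⟨y, hy⟩ => hy ▸ y.2⟩⟩

omit [OrdM n M] in
theorem exists_rho {K : Type} [Field K] [NumberField K] (ι : K →+* Mt n M)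
    (hs : ∀ x, ∃ y, ι y = st (ι x)) : ∃ ρ : Aut K, ∀ x, ι (ρ x) = st (ι x) := by
  choose f hf using hs
  have hff : ∀ x, f (f x) = x := fun x => ι.injective (by rw [hf, hf, st_st])
  let e : K ≃+* K :=
    { toFun := f
      invFun := f
      left_inv := hff
      right_inv := hff
      map_mul' := fun x y => ι.injective (by
        rw [mul_comm (f x), map_mul, hf, hf, hf, map_mul, st_mul])
      map_add' := fun x y => ι.injective (by rw [map_add, hf, hf, hf, map_add, st_add]) }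
  exact ⟨AlgEquiv.ofRingEquiv (f := e) fun q => by simp, hf⟩

end NLAux

open NLAux in
theorem norm_lemma {β : Mˣ} (hβ : Par β) (ha : Aniso n β.1) (E : Subalgebra ℚ (Mt n M))
    (hD : ∀ x ∈ E, x ∈ Dal n β.1) (hc : ∀ x ∈ E, ∀ y ∈ E, x * y = y * x)
    (hs : ∀ x ∈ E, st x ∈ E) (hr : (G2.r : M) • (1 : Mt n M) ∈ E) {h : Gl n M} (hh : h.1 ∈ E)
    (hst : st h.1 = h.1)
    (hl : ∀ p : Nat.Primes, Sp M p ∨ Le ((p.1 : ℝ) ^ (-3 : ℤ)) (h.1.map (inc ℚ_[p] M) - 1) ∨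
      (¬ (p.1 : ℤ) ∣ 2 * G2.m M ∧ Le 1 (h.1.map (inc ℚ_[p] M)) ∧
        Le 1 ((h⁻¹).1.map (inc ℚ_[p] M))) ∨
      ∃ y ∈ Submodule.span ℚ_[p] ((fun x : Mt n M => x.map (inc ℚ_[p] M)) '' E),
        st y * y = h.1.map (inc ℚ_[p] M)) :
    ∃ y ∈ E, st y * y = h.1 := by
  obtain ⟨K, _, _, ι, hE⟩ := exists_field E
    (fun x hx h0 => isUnit_of_ne_zero hβ ha (hD x hx) h0) hc
  obtain ⟨ρ, hρ⟩ := exists_rho ι fun x => (hE _).1 (hs _ ((hE _).2 ⟨x, rfl⟩))
  have hρρ : ∀ x, ρ (ρ x) = x := fun x => ι.injective (by rw [hρ, hρ, st_st])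
  obtain ⟨r, hr'⟩ := (hE _).1 hr
  have hρr : ρ r = -r := ι.injective (by
    rw [hρ, map_neg, hr', st_smul, st_one, ← neg_smul]
    exact congrArg (· • (1 : Mt n M)) G2.τr)
  have hm : r ^ 2 = (G2.m M : ℤ) := ι.injective (by
    rw [map_pow, hr', _root_.smul_pow, one_pow, G2.rr, map_intCast, Int.cast_smul_eq_zsmul,
      zsmul_eq_mul, mul_one])
  have h0 : r ≠ 0 := by
    rintro rfl
    rw [map_zero, eq_comm, smul_eq_zero] at hr'
    exact hr'.elim G2.r0 one_ne_zero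
  obtain ⟨x₀, hx₀⟩ := (hE _).1 hh
  have hx0 : x₀ ≠ 0 := by
    rintro rfl
    exact h.ne_zero (hx₀.symm.trans (map_zero ι))
  let x : Kˣ := Units.mk0 x₀ hx0
  have hx : ι x.1 = h.1 := hx₀
  have hxi : ι (x⁻¹).1 = (h⁻¹).1 :=
    (Units.inv_eq_of_mul_eq_one_right (by rw [← hx, ← map_mul, Units.mul_inv, map_one])).symm
  have hρx : gact ρ x = x := Units.ext (ι.injective (by rw [gact_val, hρ, hx, hst]))
  have hfix : ∀ (κ : Type) [Field κ] [Algebra ℚ κ], uact κ ρ (incU κ K x) = incU κ K x :=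
    fun κ _ _ => by rw [uact_incU, hρx]
  obtain ⟨y, hy⟩ := hasse_norm Nat.prime_two (rho_sq hρρ) (rho_ne hρr h0) x (fun p => by
    have e1 : Psi ι ℚ_[p] (incU ℚ_[p] K x).1 = h.1.map (inc ℚ_[p] M) := by
      rw [← hx]
      exact Psi_inc ι _ _
    have e2 : Psi ι ℚ_[p] ((incU ℚ_[p] K x)⁻¹).1 = (h⁻¹).1.map (inc ℚ_[p] M) := by
      rw [← hxi]
      exact Psi_inc ι _ _
    rcases hl p with h1 | h1 | ⟨h1, h2, h3⟩ | ⟨y, hy, h1⟩
    · exact norm_split hρr hm h0 _ h1 (hfix _)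
    · refine norm_close (hfix _) (sm_of_Psi ι fun i j => ?_)
      rw [map_sub, map_one, e1]
      exact (norm_le_iff_sm 3).1 (h1 i j)
    · refine norm_unr hρρ hρr hm h0 h1 (hfix _) ⟨isIntegral_of_Psi ι fun i j => ?_,
        isIntegral_of_Psi ι fun i j => ?_⟩
      · rw [e1]
        exact norm_le_one_iff.1 (h2 i j)
      · rw [e2]
        exact norm_le_one_iff.1 (h3 i j)
    · obtain ⟨z, rfl⟩ := exists_Psi ι ℚ_[p] (fun x hx => (hE x).1 hx) hy
      have e3 : lact ℚ_[p] ρ z * z = (incU ℚ_[p] K x).1 :=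
        Psi_injective ι _ (by rw [map_mul, Psi_lact ι _ hρ, h1, e1])
      have hz : IsUnit z := isUnit_of_mul_isUnit_right (e3 ▸ (incU ℚ_[p] K x).isUnit)
      obtain ⟨u, rfl⟩ := hz
      exact ⟨u, Units.ext (by rw [Nm_two, Units.val_mul, uact_val, e3])⟩)
    (norm_split hρr hm h0 ℝ ⟨G2.φ (G2.r : M), by rw [← map_mul, ← sq, G2.rr, map_intCast]⟩ (hfix _))
  refine ⟨ι y.1, (hE _).2 ⟨_, rfl⟩, ?_⟩
  rw [← hρ, ← map_mul, ← hx, ← hy, Nm_two, Units.val_mul, gact_val]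

end Pool.Agent.P.MP_3c2f8c_gt.AO
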