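import Pool.Agent.P.MP_3c2f8c_gt.AO.Alg
import Pool.Agent.Lib.CFT.Loc1

/-! The norm on the semi-local algebras. -/

namespace Pool.Agent.P.MP_3c2f8c_gt.AO

open Pool.Agent.Lib.CFT NumberField
open scoped TensorProduct

variable {p : ℕ} [Fact p.Prime] {M : Type} [Field M] [NumberField M]

namespace NrmAux

open Loc1Aux

/-- The additive normed structure: the largest norm of a coordinate in an integral basis. -/
@[reducible] noncomputable def nA (p : ℕ) [Fact p.Prime] (M : Type) [Field M] [NumberField M] :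
    NormedAddCommGroup (Ap p M) :=
  NormedAddCommGroup.induced (Ap p M) (Module.Free.ChooseBasisIndex ℤ (𝓞 M) → ℚ_[p])
    (B p M).equivFun.toLinearMap (B p M).equivFun.injective

attribute [local instance] nA

theorem norm_def (x : Ap p M) : ‖x‖ = ‖(B p M).equivFun x‖ := rfl

theorem smul_eq (c : ℚ_[p]) (x : Ap p M) : ‖c • x‖ = ‖c‖ * ‖x‖ := by
  rw [norm_def, map_smul, norm_smul, norm_def]

theorem le_one_iff {x : Ap p M} : ‖x‖ ≤ 1 ↔ IsIntegral ℤ_[p] x := by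
  rw [norm_def, pi_norm_le_iff_of_nonneg zero_le_one, isIntegral_iff_repr]
  rfl

theorem exists_eq (x : Ap p M) : ∃ (c : ℚ_[p]) (y : Ap p M), ‖y‖ ≤ 1 ∧ x = c • y ∧ ‖c‖ = ‖x‖ := by
  by_cases hx : x = 0
  · exact ⟨0, 0, by simp, by simp [hx], by simp [hx]⟩
  have : Nonempty (Module.Free.ChooseBasisIndex ℤ (𝓞 M)) := (B p M).index_nonempty
  obtain ⟨i, hi⟩ : ∃ i, ‖(B p M).equivFun x i‖ = ‖(B p M).equivFun x‖ := by
    obtain ⟨i, hi⟩ := Finite.exists_max fun i => ‖(B p M).equivFun x i‖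
    exact ⟨i, le_antisymm (norm_le_pi_norm _ i)
      ((pi_norm_le_iff_of_nonneg (norm_nonneg _)).2 hi)⟩
  have h0 : ‖(B p M).equivFun x i‖ ≠ 0 := by
    rw [hi, ← norm_def]
    exact norm_ne_zero_iff.2 hx
  refine ⟨(B p M).equivFun x i, ((B p M).equivFun x i)⁻¹ • x, ?_, ?_, hi⟩
  · rw [smul_eq, norm_inv, norm_def, ← hi, inv_mul_cancel₀ h0]
  · rw [smul_smul, mul_inv_cancel₀ (norm_ne_zero_iff.1 h0), one_smul]

theorem mul_le (x y : Ap p M) : ‖x * y‖ ≤ ‖x‖ * ‖y‖ := by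
  obtain ⟨c, x', hx, rfl, hc⟩ := exists_eq x
  obtain ⟨d, y', hy, rfl, hd⟩ := exists_eq y
  rw [← hc, ← hd, smul_mul_smul_comm, smul_eq, norm_mul]
  exact mul_le_of_le_one_right (by positivity)
    (le_one_iff.2 ((le_one_iff.1 hx).mul (le_one_iff.1 hy)))

end NrmAux

noncomputable scoped instance normedAp : NormedCommRing (Ap p M) :=
  { NrmAux.nA p M, (inferInstance : CommRing (Ap p M)) with norm_mul_le := NrmAux.mul_le }

noncomputable scoped instance normedAlgAp : NormedAlgebra ℚ_[p] (Ap p M) :=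
  { (inferInstance : Algebra ℚ_[p] (Ap p M)) with
    norm_smul_le := fun c x => (NrmAux.smul_eq c x).le }

theorem norm_le_one_iff {x : Ap p M} : ‖x‖ ≤ 1 ↔ IsIntegral ℤ_[p] x := NrmAux.le_one_iff

theorem norm_le_iff_sm (j : ℕ) {x : Ap p M} : ‖x‖ ≤ (p : ℝ) ^ (-(j : ℤ)) ↔ Sm j x := by
  rw [NrmAux.norm_def, pi_norm_le_iff_of_nonneg (by positivity), sm_iff_repr]
  rfl

/-- Every element is a scalar of the same norm times an integral element. -/
theorem exists_smul_eq (x : Ap p M) :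
    ∃ (c : ℚ_[p]) (y : Ap p M), ‖y‖ ≤ 1 ∧ x = c • y ∧ ‖c‖ = ‖x‖ := NrmAux.exists_eq x

scoped instance ultraAp : IsUltrametricDist (Ap p M) :=
  IsUltrametricDist.isUltrametricDist_of_forall_norm_add_le_max_norm fun x y => by
    rw [NrmAux.norm_def, NrmAux.norm_def, NrmAux.norm_def, map_add]
    exact IsUltrametricDist.norm_add_le_max _ _

scoped instance normOneAp : NormOneClass (Ap p M) := ⟨by
  refine le_antisymm (norm_le_one_iff.2 isIntegral_one) ?_
  have h := norm_mul_le (1 : Ap p M) 1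
  rw [mul_one] at h
  have h0 : 0 < ‖(1 : Ap p M)‖ := norm_pos_iff.2 one_ne_zero
  exact le_of_mul_le_mul_left (by rwa [mul_one]) h0⟩

scoped instance properAp : ProperSpace (Ap p M) := FiniteDimensional.proper ℚ_[p] _

theorem norm_lact (s : Aut M) (x : Ap p M) : ‖lact ℚ_[p] s x‖ = ‖x‖ := by
  have key : ∀ (s : Aut M) (x : Ap p M), ‖lact ℚ_[p] s x‖ ≤ ‖x‖ := fun s x => by
    obtain ⟨c, y, hy, rfl, hc⟩ := exists_smul_eq x
    rw [map_smul, norm_smul, ← hc]
    exact mul_le_of_le_one_right (norm_nonneg _)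
      (norm_le_one_iff.2 (isIntegral_lact s (norm_le_one_iff.1 hy)))
  refine le_antisymm (key s x) ?_
  have h := key s⁻¹ (lact ℚ_[p] s x)
  rwa [← lact_mul, inv_mul_cancel, lact_one] at h

theorem inc_ratCast (q : ℚ) : inc ℚ_[p] M (q : M) = algebraMap ℚ_[p] (Ap p M) (q : ℚ_[p]) := by
  have h := DFunLike.congr_fun (RingHom.ext_rat ((inc ℚ_[p] M).comp (Rat.castHom M))
    ((algebraMap ℚ_[p] (Ap p M)).comp (Rat.castHom ℚ_[p]))) q
  exact h

theorem norm_inc_rat (q : ℚ) : ‖inc ℚ_[p] M (q : M)‖ = ‖(q : ℚ_[p])‖ := by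
  rw [inc_ratCast, norm_algebraMap']

theorem norm_lt_one_iff {x : Ap p M} : ‖x‖ < 1 ↔ ‖x‖ ≤ (p : ℝ)⁻¹ := by
  obtain ⟨c, -, -, -, hc⟩ := exists_smul_eq x
  rw [← hc, ← zpow_neg_one, Padic.norm_le_pow_iff_norm_lt_pow_add_one]
  simp

theorem finite_norm_gt (x : M) : {q : Nat.Primes | ¬ ‖inc ℚ_[q] M x‖ ≤ 1}.Finite := by
  simpa only [norm_le_one_iff] using finite_not_isIntegral x

/-- The two automorphisms preserve the norm. -/
class NTw (A : Type) [NormedCommRing A] [Tw A] : Prop where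
  sg : ∀ x : A, ‖sg x‖ = ‖x‖
  ta : ∀ x : A, ‖ta x‖ = ‖x‖

instance [G2 M] : NTw (Ap p M) := ⟨norm_lact _, norm_lact _⟩

end Pool.Agent.P.MP_3c2f8c_gt.AO
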