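import Pool.Agent.P.MP_3c2f8c_gt.AO.Top
import Pool.Agent.P.MP_3c2f8c_gt.AO.Spei
import Pool.Agent.P.MP_3c2f8c_gt.AO.Aut
import Pool.Agent.P.MP_3c2f8c_gt.Ex.Gl.Mah1

/-! The rational form of the Lie algebra, discreteness, outer type. -/

namespace Pool.Agent.P.MP_3c2f8c_gt.AO

open Matrix E6 Pool.Agent.Lib.CFT
open scoped TensorProduct

section Gen

variable {ι : Type} [Fintype ι] [DecidableEq ι] {R S : Type} [CommRing R] [CommRing S]

omit [Fintype ι] in
theorem Rat_single (φ : R →+* S) (i : ι) :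
    (Pi.single i 1 : ι → S) = φ ∘ (Pi.single i 1 : ι → R) := by
  funext j
  by_cases hj : j = i <;> simp [hj]

theorem Rat_adM (T : Tens ι R) (i j k : ι) : adM T (Pi.single i 1) k j = T i j k := by
  simp [adM, Pi.single_apply]

theorem Rat_uniq {T T' U : Tens ι R} {f : GL ι R} (h : IsoL T U f) (h' : IsoL T' U f) :
    T = T' := by
  funext i j k
  have e := (isoL_iff_single.1 h i).trans (isoL_iff_single.1 h' i).symm
  rw [← Rat_adM T, ← Rat_adM T', (Units.mul_right_inj f).1 e]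

theorem Rat_exists (U : Tens ι R) (f : GL ι R) : ∃ T : Tens ι R, IsoL T U f := by
  refine ⟨fun i j k => ((f⁻¹).1 * (adM U (f.1 *ᵥ Pi.single i 1) * f.1)) k j,
    isoL_iff_single.2 fun i => ?_⟩
  rw [← Units.mul_inv_cancel_left f (adM U (f.1 *ᵥ Pi.single i 1) * f.1)]
  congr 1
  ext k j
  rw [Rat_adM]

theorem Rat_descend {φ : R →+* S} (hφ : Function.Injective φ) {T T' : Tens ι R} {g : GL ι R}
    (h : IsoL (E6.bc φ T) (E6.bc φ T') (gmap φ g)) : IsoL T T' g := by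
  rw [isoL_iff_single] at h ⊢
  intro i
  have e' : (gmap φ g).1 *ᵥ (φ ∘ (Pi.single i 1 : ι → R)) = φ ∘ (g.1 *ᵥ Pi.single i 1) := by
    funext j
    rw [gmap_val, Function.comp_apply, RingHom.map_mulVec]
  have h1 := h i
  rw [Rat_single φ, e', adM_bc, adM_bc, gmap_val, ← Matrix.map_mul, ← Matrix.map_mul] at h1
  exact Matrix.map_injective hφ h1

theorem Rat_gmap_inj {φ : R →+* S} (hφ : Function.Injective φ) :
    Function.Injective (gmap φ : GL ι R →* GL ι S) := fun _ _ h =>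
  Units.ext (Matrix.map_injective hφ (congrArg Units.val h))

/-- Matrices with entries of norm at most one. -/
def Rat_Int {A : Type} [NormedCommRing A] (x : Matrix ι ι A) : Prop := ∀ i j, ‖x i j‖ ≤ 1

omit [DecidableEq ι] in
theorem Rat_Int.mul {A : Type} [NormedCommRing A] [IsUltrametricDist A] {x y : Matrix ι ι A}
    (hx : Rat_Int x) (hy : Rat_Int y) : Rat_Int (x * y) := fun i j => by
  rw [Matrix.mul_apply]
  exact IsUltrametricDist.norm_sum_le_of_forall_le_of_nonneg zero_le_one fun k _ =>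
    (norm_mul_le _ _).trans (mul_le_one₀ (hx i k) (norm_nonneg _) (hy k j))

variable {M : Type} [Field M] [NumberField M]

theorem Rat_den (B : ∀ p : Nat.Primes, Matrix ι ι (Ap p.1 M)) (h : {p | ¬ Rat_Int (B p)}.Finite) :
    ∃ D : ℕ, 0 < D ∧ ∀ p : Nat.Primes, Rat_Int ((D : ℚ_[p]) • B p) := by
  choose c y hy hc hn using fun (p : Nat.Primes) (k : ι × ι) => exists_smul_eq (B p k.1 k.2)
  obtain ⟨D, hD, -, h3⟩ := ShortAux.exists_mult c (h.subset fun p hp hB => hp fun k => by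
    rw [hn]
    exact hB k.1 k.2) ∅
  refine ⟨D, hD, fun p i j => ?_⟩
  have h4 := h3 p (Finset.notMem_empty _) (i, j)
  rw [norm_mul, hn] at h4
  rw [Matrix.smul_apply, norm_smul]
  exact h4

omit [DecidableEq ι] in
theorem Rat_fin_inc (x : Matrix ι ι M) :
    {p : Nat.Primes | ¬ Rat_Int (x.map (inc ℚ_[p] M))}.Finite := by
  refine (Set.finite_iUnion fun k : ι × ι => finite_norm_gt (x k.1 k.2)).subset fun p hp => ?_
  by_contra h
  exact hp fun i j => not_not.1 fun h' => h (Set.mem_iUnion.2 ⟨(i, j), h'⟩)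

omit [DecidableEq ι] in
theorem Rat_fin_mul {B B' : ∀ p : Nat.Primes, Matrix ι ι (Ap p.1 M)}
    (h : {p | ¬ Rat_Int (B p)}.Finite) (h' : {p | ¬ Rat_Int (B' p)}.Finite) :
    {p | ¬ Rat_Int (B p * B' p)}.Finite := by
  refine (h.union h').subset fun p hp => ?_
  by_contra hn
  rw [Set.mem_union, not_or] at hn
  exact hp ((not_not.1 hn.1).mul (not_not.1 hn.2))

/-- The action of an automorphism of the field on invertible matrices. -/
abbrev Rat_gs (s : Aut M) : GL ι M →* GL ι M := gmap s.toRingEquiv.toRingHom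

theorem Rat_gs_mul (s t : Aut M) (g : GL ι M) : Rat_gs (s * t) g = Rat_gs s (Rat_gs t g) := rfl

theorem Rat_gs_pow {s : Aut M} {g : GL ι M} (h : Rat_gs s g = g) (i : ℕ) :
    Rat_gs (s ^ i) g = g := by
  induction i with
  | zero => rfl
  | succ i ih => rw [pow_succ, Rat_gs_mul, h, ih]

theorem Rat_range [G2 M] {g : GL ι M} (h : Rat_gs G2.σ g = g) (h' : Rat_gs G2.τ g = g) :
    g ∈ (gmap (algebraMap ℚ M) : GL ι ℚ →* GL ι M).range := by
  have key : ∀ g : GL ι M, Rat_gs G2.σ g = g → Rat_gs G2.τ g = g →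
      ∃ x : Matrix ι ι ℚ, x.map (algebraMap ℚ M) = g.1 := fun g h h' => by
    choose t ht using fun i j => exists_rat (x := g.1 i j)
      (congrArg (fun z : GL ι M => z.1 i j) h) (congrArg (fun z : GL ι M => z.1 i j) h')
    exact ⟨Matrix.of t, Matrix.ext ht⟩
  obtain ⟨x, hx⟩ := key g h h'
  obtain ⟨y, hy⟩ := key g⁻¹ (by rw [map_inv, h]) (by rw [map_inv, h'])
  have e : x * y = 1 := Matrix.map_injective (algebraMap ℚ M).injective (by
    show (x * y).map _ = (1 : Matrix ι ι ℚ).map _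
    rw [Matrix.map_mul, hx, hy, Units.mul_inv, Matrix.map_one _ (map_zero _) (map_one _)])
  exact ⟨⟨x, y, e, mul_eq_one_comm.1 e⟩, Units.ext hx⟩

theorem Rat_ext {k E : Type} [Field k] [Field E] [Algebra k E] [Algebra.IsAlgebraic k E]
    (t : E ≃ₐ[k] E) : ∃ (j : E →+* AlgebraicClosure k)
      (s : AlgebraicClosure k ≃ₐ[k] AlgebraicClosure k), ∀ x, s (j x) = j (t x) := by
  let j : E →ₐ[k] AlgebraicClosure k := IsAlgClosed.lift
  let _ : Algebra E (AlgebraicClosure k) := j.toRingHom.toAlgebra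
  have : IsScalarTower k E (AlgebraicClosure k) :=
    IsScalarTower.of_algebraMap_eq fun x => (j.commutes x).symm
  exact ⟨j.toRingHom, t.liftNormal _, fun x => t.liftNormal_commutes _ x⟩

theorem Rat_not_inn {n : ℕ} (hn : 2 ≤ n) {K : Type} [Field K] [CharZero K] (g : Gl n K) :
    adG g ≠ thL n K := fun h => by
  obtain ⟨x, hx⟩ := exists_cube hn (K := K)
  have h1 := emb_adG g x
  rw [h, emb_thL] at h1
  have h2 : (g.1 * emb x * (g⁻¹).1) * (g.1 * emb x * (g⁻¹).1) * (g.1 * emb x * (g⁻¹).1) =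
      g.1 * (emb x * emb x * emb x) * (g⁻¹).1 := by
    simp only [Matrix.mul_assoc, Units.inv_mul_cancel_left]
  have h3 := congrArg Matrix.trace h2
  rw [← h1, Matrix.trace_mul_cycle g.1, Units.inv_mul, Matrix.one_mul, neg_mul_neg,
    Matrix.mul_neg, Matrix.trace_neg, ← transpose_mul, ← transpose_mul, Matrix.trace_transpose,
    ← Matrix.mul_assoc] at h3
  exact hx (CharZero.neg_eq_self_iff.1 h3)

end Gen

variable {n : ℕ} {M : Type} [Field M] [NumberField M] [G2 M] [OrdM n M] {β : Mˣ}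

omit [G2 M] [OrdM n M] in
theorem Rat_gs_adG (s : Aut M) (g : Gl n M) : Rat_gs s (adG g).1 = (adG (Rat_gs s g)).1 :=
  (adG_map _ g).symm

omit [G2 M] [OrdM n M] in
theorem Rat_gs_th (s : Aut M) : Rat_gs s (thL n M).1 = (thL n M).1 := (thL_map _).symm

omit [NumberField M] [G2 M] [OrdM n M] in
theorem Rat_th_sq : (thL n M).1 * (thL n M).1 = 1 := congrArg Subtype.val thL_sq

omit [NumberField M] [G2 M] [OrdM n M] in
theorem Rat_th_adG (g : Gl n M) : (thL n M).1 * (adG g).1 = (adG (itr g)).1 * (thL n M).1 :=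
  congrArg Subtype.val (thL_mul_adG g)

theorem Rat_cocycle (hβ : Par β) : ∃ a : Aut M → GL (Ix n) M, a G2.σ = (adG (aG n β)).1 ∧
    a G2.τ = (thL n M).1 ∧ ∀ s t, a s * Rat_gs s (a t) = a (s * t) := by
  obtain ⟨A, hA⟩ : ∃ A, A = (adG (aG n β)).1 := ⟨_, rfl⟩
  obtain ⟨θ, hθ⟩ : ∃ θ, θ = (thL n M).1 := ⟨_, rfl⟩
  have hθθ : θ * θ = 1 := hθ ▸ Rat_th_sq
  have hσA : Rat_gs G2.σ A = A := by
    have e : Rat_gs G2.σ (aG n β) = aG n β := Units.ext
      ((cm_map _ _).trans (congrArg (cm n) hβ.sg))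
    rw [hA, Rat_gs_adG, e]
  have hτA : θ * Rat_gs G2.τ A = A * θ := by
    have e : Rat_gs G2.τ (aG n β) = itr (aG n β) := Units.ext
      (((cm_map _ _).trans (congrArg (cm n) hβ.ta_eq)).trans (transpose_transpose _).symm)
    rw [hA, hθ, Rat_gs_adG, e, Rat_th_adG, itr_itr]
  have hτA' : ∀ j : ℕ, θ * Rat_gs G2.τ (A ^ j) = A ^ j * θ := fun j => by
    rw [map_pow]
    exact SemiconjBy.pow_right hτA j
  have hsθ : ∀ s : Aut M, Rat_gs s θ = θ := fun s => hθ ▸ Rat_gs_th s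
  have hσA' : ∀ i j : ℕ, Rat_gs (G2.σ ^ i) (A ^ j) = A ^ j := fun i j => by
    rw [map_pow, Rat_gs_pow hσA]
  have hAn : A ^ (n + 1) = 1 := by
    rw [hA, ← Subgroup.coe_pow, ← map_pow,
      adG_scalar (c := β.1) ((Units.val_pow_eq_pow_val _ _).trans (cm_pow _))]
    rfl
  have hAi : ∀ i j : ℕ, (G2.σ : Aut M) ^ i = G2.σ ^ j → A ^ i = A ^ j := fun i j h => by
    rw [pow_eq_pow_iff_modEq, OrdM.ord (n := n)] at h
    exact pow_eq_pow_iff_modEq.2 (h.of_dvd (orderOf_dvd_of_pow_eq_one hAn))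
  have hne : ∀ i j : ℕ, (G2.σ : Aut M) ^ i ≠ G2.σ ^ j * G2.τ := fun i j h => by
    have e : ∀ i : ℕ, ((G2.σ : Aut M) ^ i) G2.r = G2.r := fun i => by
      rw [← sg_pow_eq, sg_pow_fixed (c := (G2.r : M)) G2.σr]
    have h1 := DFunLike.congr_fun h G2.r
    rw [AlgEquiv.mul_apply, G2.τr, map_neg, e, e] at h1
    exact G2.r0 (CharZero.eq_neg_self_iff.1 h1)
  have hc : ∀ j : ℕ, (G2.τ : Aut M) * G2.σ ^ j = G2.σ ^ j * G2.τ := fun j =>
    (Commute.pow_left G2.comm j).symm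
  let Rl : Aut M → GL (Ix n) M → Prop := fun s g =>
    ∃ i : ℕ, (s = G2.σ ^ i ∧ g = A ^ i) ∨ (s = G2.σ ^ i * G2.τ ∧ g = A ^ i * θ)
  have hex : ∀ s, ∃ g, Rl s g := fun s => by
    obtain ⟨i, h | h⟩ := G2.gen s
    · exact ⟨_, i, Or.inl ⟨h, rfl⟩⟩
    · exact ⟨_, i, Or.inr ⟨h, rfl⟩⟩
  have hun : ∀ s g g', Rl s g → Rl s g' → g = g' := by
    rintro s g g' ⟨i, ⟨rfl, rfl⟩ | ⟨rfl, rfl⟩⟩ ⟨j, ⟨h, rfl⟩ | ⟨h, rfl⟩⟩
    · exact hAi i j h
    · exact (hne i j h).elim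
    · exact (hne j i h.symm).elim
    · rw [hAi i j (mul_right_cancel h)]
  have hmul : ∀ s t g g', Rl s g → Rl t g' → Rl (s * t) (g * Rat_gs s g') := by
    rintro s t g g' ⟨i, ⟨rfl, rfl⟩ | ⟨rfl, rfl⟩⟩ ⟨j, ⟨rfl, rfl⟩ | ⟨rfl, rfl⟩⟩
    · exact ⟨i + j, Or.inl ⟨(pow_add _ _ _).symm, by rw [hσA', pow_add]⟩⟩
    · exact ⟨i + j, Or.inr ⟨by rw [pow_add, mul_assoc],
        by rw [map_mul, hσA', hsθ, pow_add, mul_assoc]⟩⟩
    · refine ⟨i + j, Or.inr ⟨by rw [pow_add, mul_assoc, mul_assoc, hc], ?_⟩⟩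
      rw [← hc, Rat_gs_mul, hσA', mul_assoc, hτA', pow_add, mul_assoc]
    · refine ⟨i + j, Or.inl ⟨?_, ?_⟩⟩
      · rw [pow_add, mul_assoc, ← mul_assoc G2.τ, hc, mul_assoc, G2.ττ, mul_one]
      · rw [map_mul, hsθ, ← hc, Rat_gs_mul, hσA', mul_assoc, ← mul_assoc θ, hτA', mul_assoc, hθθ,
          mul_one, pow_add]
  choose a ha using hex
  refine ⟨a, hun _ _ _ (ha _) ⟨1, Or.inl ⟨(pow_one _).symm, hA ▸ (pow_one _).symm⟩⟩,
    hun _ _ _ (ha _) ⟨0, Or.inr ⟨by rw [pow_zero, one_mul], by rw [pow_zero, one_mul, hθ]⟩⟩,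
    fun s t => hun _ _ _ (hmul _ _ _ _ (ha s) (ha t)) (ha _)⟩

omit [OrdM n M] in
theorem RF.Rat_sg (F : RF n β) : (adG (aG n β)).1 * Rat_gs G2.σ F.f = F.f := Units.ext F.hσ

omit [OrdM n M] in
theorem RF.Rat_ta (F : RF n β) : (thL n M).1 * Rat_gs G2.τ F.f = F.f := Units.ext F.hτ

theorem exists_RF (hβ : Par β) : Nonempty (RF n β) := by
  obtain ⟨a, hσ, hτ, ha⟩ := Rat_cocycle (n := n) hβ
  obtain ⟨X, hX⟩ := speiser ⊤ a (fun _ => 1) (fun _ _ => 1)
    (fun s _ t _ => by rw [one_smul, ← ha]; rfl)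
    (fun s _ t _ => by
      rw [one_smul, Units.val_one, Matrix.map_one _ (map_zero _) (map_one _), mul_one])
  have h1 : (adG (aG n β)).1 * Rat_gs G2.σ X = X :=
    Units.ext (hσ ▸ (hX G2.σ trivial).trans (mul_one _))
  have h2 : (thL n M).1 * Rat_gs G2.τ X = X :=
    Units.ext (hτ ▸ (hX G2.τ trivial).trans (mul_one _))
  obtain ⟨T', hT'⟩ := Rat_exists (slT n M) X
  have key : ∀ (s : Aut M) (g : AutL (slT n M)), g.1 * Rat_gs s X = X →
      ∀ i j k, s (T' i j k) = T' i j k := fun s g h i j k => by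
    have h3 := hT'.map s.toRingEquiv.toRingHom
    rw [bc_slT] at h3
    have h4 := IsoL.mul g.2 h3
    rw [h] at h4
    exact congrFun (congrFun (congrFun (Rat_uniq h4 hT') i) j) k
  choose T hT using fun i j k => exists_rat (key _ _ h1 i j k) (key _ _ h2 i j k)
  have h5 : E6.bc (algebraMap ℚ M) T = T' := funext fun i => funext fun j => funext (hT i j)
  exact ⟨⟨T, X, h5 ▸ hT', congrArg Units.val h1, congrArg Units.val h2⟩⟩

theorem RF.exists_rat (F : RF n β) : ∃ R : PU n β.1 →* AutL F.T, ∀ g : Un n β.1,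
    F.f * GeneralLinearGroup.map (algebraMap ℚ M) (R (QuotientGroup.mk g)).1 = (adG g.1).1 * F.f := by
  let Y : Un n β.1 →* GL (Ix n) M := (MulAut.conj F.f⁻¹).toMonoidHom.comp
    (((AutL (slT n M)).subtype.comp adG).comp (Un n β.1).subtype)
  have hY : ∀ g, Y g = F.f⁻¹ * (adG g.1).1 * F.f := fun g => rfl
  have hr : ∀ g, Y g ∈ (gmap (algebraMap ℚ M) : GL (Ix n) ℚ →* GL (Ix n) M).range := fun g => by
    refine Rat_range ?_ ?_
    · have e : Rat_gs G2.σ g.1 = (aG n β)⁻¹ * g.1 * aG n β := Units.ext (map_sg_eq g.2.1)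
      rw [hY, map_mul, map_mul, map_inv, Rat_gs_adG, e, eq_inv_mul_of_mul_eq F.Rat_sg, map_mul,
        map_mul, map_inv, Subgroup.coe_mul, Subgroup.coe_mul, Subgroup.coe_inv]
      group
    · have e : Rat_gs G2.τ g.1 = itr g.1 := Units.ext (by
        rw [itr_val, ← Subgroup.coe_inv, Un.inv_val, st, transpose_transpose]
        rfl)
      rw [hY, map_mul, map_mul, map_inv, Rat_gs_adG, e, eq_inv_mul_of_mul_eq F.Rat_ta,
        eq_mul_inv_of_mul_eq (Rat_th_adG g.1).symm, _root_.mul_inv_rev, inv_inv,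
        inv_eq_of_mul_eq_one_left Rat_th_sq]
      simp only [mul_assoc]
      rw [← mul_assoc (thL n M).1 (thL n M).1, ← mul_assoc (thL n M).1 (thL n M).1, Rat_th_sq,
        one_mul, one_mul]
  have hj : Function.Injective (gmap (algebraMap ℚ M) : GL (Ix n) ℚ →* GL (Ix n) M) :=
    Rat_gmap_inj (algebraMap ℚ M).injective
  let R₀ : Un n β.1 →* GL (Ix n) ℚ :=
    (MonoidHom.ofInjective hj).symm.toMonoidHom.comp (Y.codRestrict _ hr)
  have hR : ∀ g, gmap (algebraMap ℚ M) (R₀ g) = F.f⁻¹ * (adG g.1).1 * F.f := fun g =>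
    MonoidHom.apply_ofInjective_symm hj _
  have hA : ∀ g, R₀ g ∈ AutL F.T := fun g => Rat_descend (algebraMap ℚ M).injective (by
    rw [hR]
    exact (F.iso.inv.mul (adG g.1).2).mul F.iso)
  refine ⟨QuotientGroup.lift _ (R₀.codRestrict _ hA) ?_, fun g => ?_⟩
  · rintro g ⟨c, hc⟩
    refine Subtype.ext (hj ?_)
    show gmap _ (R₀ g) = gmap _ 1
    rw [hR, adG_scalar hc, map_one, OneMemClass.coe_one, mul_one, inv_mul_cancel]
  · show F.f * gmap _ (R₀ g) = _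
    rw [hR, mul_assoc, mul_inv_cancel_left]

theorem proper (hβ : Par β) : Proper (Phi n β.1) (rho n β.1) (Kst n β.1) := by
  intro u hu u' hu' C
  obtain ⟨F⟩ := exists_RF (n := n) hβ
  obtain ⟨R, hR⟩ := F.exists_rat
  have key : ∀ {S : Type} [CommRing S] (φ : M →+* S) (g : Un n β.1),
      (R (QuotientGroup.mk g)).1.1.map (φ.comp (algebraMap ℚ M)) =
        (F.f⁻¹).1.map φ * (adG (gmap φ g.1)).1.1 * F.f.1.map φ := fun φ g => by
    have h1 := eq_inv_mul_of_mul_eq (hR g)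
    rw [adG_map, gmap_val, ← Matrix.map_mul, ← Matrix.map_mul, ← Units.val_mul, ← Units.val_mul,
      mul_assoc, ← h1]
    rfl
  have hinj : Function.Injective fun g => (R g).1.1 := by
    intro g g' h
    induction g using QuotientGroup.induction_on with | H g => ?_
    induction g' using QuotientGroup.induction_on with | H g' => ?_
    have h1 : R (QuotientGroup.mk g) = R (QuotientGroup.mk g') := Subtype.ext (Units.ext h)
    have h2 := hR g
    rw [h1, hR] at h2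
    refine rho_inj β.1 (Subtype.ext ?_)
    rw [rho_mk, rho_mk, adG_map, adG_map, mul_right_cancel h2]
  obtain ⟨v, hv, -, hv'⟩ := exists_lift hu
  obtain ⟨w, hw, -, hw'⟩ := exists_lift hu'
  have hint : ∀ (p : Nat.Primes) (x : Un n (inc ℚ_[p] M β.1)), Le 1 x.1.1 →
      Rat_Int (adG x.1).1.1 ∧ Rat_Int (adG (x⁻¹).1).1.1 := fun p x hx => by
    have h1 : Le 1 (x.1⁻¹).1 := (KU n _).inv_mem (x := x) hx
    exact ⟨fun i j => (le_adG hx h1 i j).trans_eq (mul_one _),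
      fun i j => (le_adG (g := x.1⁻¹) h1 hx i j).trans_eq (mul_one _)⟩
  obtain ⟨D, hD, hD'⟩ := Rat_den
    (fun p => (F.f⁻¹).1.map (inc ℚ_[p] M) * (adG (w p).1).1.1)
    (Rat_fin_mul (Rat_fin_inc _) (hw'.subset fun p hp h => hp (hint p _ h).1))
  obtain ⟨E, hE, hE'⟩ := Rat_den
    (fun p => (adG ((v p)⁻¹).1).1.1 * F.f.1.map (inc ℚ_[p] M))
    (Rat_fin_mul (hv'.subset fun p hp h => hp (hint p _ h).2) (Rat_fin_inc _))
  obtain ⟨C₁, h₁⟩ := Ex.Mah.exists_bdQ ((F.f⁻¹).1.map (G2.φ : M →+* ℝ))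
  obtain ⟨C₂, h₂⟩ := Ex.Mah.exists_bdQ (F.f.1.map (G2.φ : M →+* ℝ))
  refine Set.Finite.subset ((Set.Finite.pi' fun _ : Ix n => Set.Finite.pi' fun _ : Ix n =>
    FinAux.finite_rat (mul_pos hD hE) (Fintype.card (Ix n) *
      (Fintype.card (Ix n) * (C₁ * C) * C₂))).preimage hinj.injOn) ?_
  rintro g ⟨hg, hg'⟩ i j
  induction g using QuotientGroup.induction_on with | H g => ?_
  refine ⟨fun p => ?_, ?_⟩
  · obtain ⟨k, hk, hk'⟩ := hg p
    rw [Phi_mk, ← hv, ← hw, ← QuotientGroup.mk_inv, ← QuotientGroup.mk_mul,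
      ← QuotientGroup.mk_mul] at hk'
    obtain ⟨c, hc⟩ := QuotientGroup.eq.1 hk'
    have h3 := adG_scalar hc
    have h4 : adG (gmap (inc ℚ_[p] M) g.1) = adG (w p).1 * adG k.1 * adG ((v p)⁻¹).1 := by
      have h5 : gmap (inc ℚ_[p] M) g.1 = (w p).1 * k.1 *
          (k⁻¹ * ((w p)⁻¹ * unMap (twHom_inc ℚ_[p]) β.1 g * v p)).1 * ((v p)⁻¹).1 := by
        simp only [Subgroup.coe_mul, Subgroup.coe_inv, mul_assoc, mul_inv_cancel_left,
          mul_inv_cancel, mul_one]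
        rfl
      rw [h5, map_mul, map_mul, h3, mul_one, map_mul]
    have h6 := ((hD' p).mul (hint p k hk).1).mul (hE' p) i j
    rw [Matrix.smul_mul, Matrix.smul_mul, Matrix.mul_smul, smul_smul, ← Matrix.mul_assoc,
      Matrix.mul_assoc ((F.f⁻¹).1.map _), Matrix.mul_assoc ((F.f⁻¹).1.map _), ← Units.val_mul,
      ← Units.val_mul, ← Subgroup.coe_mul, ← Subgroup.coe_mul, ← h4, ← key, Matrix.smul_apply,
      norm_smul] at h6
    rw [norm_mul, Nat.cast_mul]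
    refine le_of_eq_of_le ?_ h6
    exact congrArg _ (norm_inc_rat _).symm
  · have h3 := (h₁.mul (B := (adG (gmap G2.φ g.1)).1.1) hg').mul h₂ i j
    rw [← key, RingHom.ext_rat (RingHom.comp _ _) (ra ℝ)] at h3
    exact h3

theorem RF.outer (hn : 2 ≤ n) (F : RF n β) : IsOuter F.T := by
  intro f hf
  obtain ⟨j, s, hs⟩ := Rat_ext (G2.τ : Aut M)
  have h0 := F.iso.map j
  have e0 : E6.bc j (E6.bc (algebraMap ℚ M) F.T) =
      E6.bc (algebraMap ℚ (AlgebraicClosure ℚ)) F.T :=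
    congrArg (fun φ => E6.bc φ F.T) (RingHom.ext_rat (j.comp (algebraMap ℚ M)) _)
  rw [bc_slT, e0] at h0
  have h1 : (thL n _).1 * gmap s.toRingEquiv.toRingHom (gmap j F.f) = gmap j F.f := by
    have e : gmap s.toRingEquiv.toRingHom (gmap j F.f) = gmap j (Rat_gs G2.τ F.f) :=
      Units.ext (Matrix.ext fun a b => hs _)
    rw [e, thL_map j, ← map_mul, F.Rat_ta]
  obtain ⟨k, hk⟩ := aut_sl hn ⟨f * (gmap j F.f)⁻¹, hf.mul h0.inv⟩
  refine ⟨s, fun hi => ?_⟩
  obtain ⟨m, hm⟩ := inn_iff.1 hi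
  have h2 : f * (gmap s.toRingEquiv.toRingHom f)⁻¹ =
      (adG k * thL n _ * (adG (gmap s.toRingEquiv.toRingHom k))⁻¹).1 := by
    have hθ : (thL n (AlgebraicClosure ℚ)).1⁻¹ = (thL n _).1 :=
      inv_eq_of_mul_eq_one_left Rat_th_sq
    rw [Subgroup.coe_mul, Subgroup.coe_mul, Subgroup.coe_inv, adG_map]
    rcases hk with hk | hk
    · rw [eq_mul_of_mul_inv_eq (congrArg Subtype.val hk), map_mul, eq_inv_mul_of_mul_eq h1]
      group
    · rw [eq_mul_of_mul_inv_eq (congrArg Subtype.val hk), Subgroup.coe_mul, map_mul, map_mul,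
        ← thL_map, mul_assoc (gmap _ _), h1]
      group
  refine Rat_not_inn hn (k⁻¹ * m * gmap s.toRingEquiv.toRingHom k) ?_
  rw [map_mul, map_mul, map_inv, Subtype.ext (hm.trans h2)]
  group

end Pool.Agent.P.MP_3c2f8c_gt.AO
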