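import Mathlib

/-!
Definitions for the statement in type `Aₙ`: the Lie algebra `𝔰𝔩ₙ₊₁` and its forms by structure
constants, automorphism groups, the group `PGLₙ₊₁(ℝ)` of inner automorphisms, outer forms and the
arithmetic subgroups they define.
-/

namespace Pool.Agent.P.MP_3c2f8c_gt.SA

open Matrix NumberField

/-- All positions of an `(n+1) × (n+1)` matrix except the last diagonal one. -/
def Ix (n : ℕ) : Type := {ij : Fin (n + 1) × Fin (n + 1) // ij ≠ (Fin.last n, Fin.last n)}

variable {n : ℕ}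

instance : Fintype (Ix n) :=
  (inferInstance : Fintype {ij : Fin (n + 1) × Fin (n + 1) // ij ≠ (Fin.last n, Fin.last n)})

instance : DecidableEq (Ix n) :=
  (inferInstance : DecidableEq {ij : Fin (n + 1) × Fin (n + 1) // ij ≠ (Fin.last n, Fin.last n)})

/-- Structure constants: `[bᵢ, bⱼ] = ∑ₖ β i j k • bₖ`. -/
def Tens (n : ℕ) (R : Type) : Type := Ix n → Ix n → Ix n → R

/-- Invertible matrices of the size of the Lie algebra. -/
def GLx (n : ℕ) (R : Type) [CommRing R] : Type := GL (Ix n) R

section Algebra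

variable {R S : Type} [CommRing R] [CommRing S]

/-- The group structure of the general linear group. -/
instance : Group (GLx n R) := (inferInstance : Group (GL (Ix n) R))

/-- The underlying matrix. -/
def val (g : GLx n R) : Matrix (Ix n) (Ix n) R := Units.val g

/-- The matrix of trace zero with the given entries outside the last diagonal position. -/
def emb (x : Ix n → R) : Matrix (Fin (n + 1)) (Fin (n + 1)) R := Matrix.of fun i j =>
  if h : (i, j) = (Fin.last n, Fin.last n) then
    -∑ k : Fin n, x ⟨(k.castSucc, k.castSucc), fun e => k.castSucc_ne_last (congrArg Prod.fst e)⟩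
  else x ⟨(i, j), h⟩

variable (n R) in
/-- The structure constants of `𝔰𝔩ₙ₊₁`. -/
def slT : Tens n R := fun i j k =>
  (emb (Pi.single i 1) * emb (Pi.single j 1) - emb (Pi.single j 1) * emb (Pi.single i 1) :
    Matrix (Fin (n + 1)) (Fin (n + 1)) R) k.1.1 k.1.2

/-- The matrix of `ad x`. -/
def adM (β : Tens n R) (x : Ix n → R) : Matrix (Ix n) (Ix n) R :=
  Matrix.of fun k j => ∑ i, x i * β i j k

/-- The Killing form. -/
def kil (β : Tens n R) (x y : Ix n → R) : R := (adM β x * adM β y).trace

/-- Change of the base ring. -/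
def bc (φ : R →+* S) (β : Tens n R) : Tens n S := fun i j k => φ (β i j k)

/-- `g` is an isomorphism from the algebra `β` onto the algebra `β'`: it respects the brackets
`[x, y] = ad x y`. -/
def IsoL (β β' : Tens n R) (g : GLx n R) : Prop :=
  ∀ x y, val g *ᵥ (adM β x *ᵥ y) = adM β' (val g *ᵥ x) *ᵥ (val g *ᵥ y)

theorem isoL_one (β : Tens n R) : IsoL β β 1 := fun x y => by
  rw [show val (1 : GLx n R) = 1 from rfl, one_mulVec, one_mulVec, one_mulVec]

theorem isoL_mul (β : Tens n R) {g h : GLx n R} (hg : IsoL β β g) (hh : IsoL β β h) :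
    IsoL β β (g * h) := fun x y => by
  rw [show val (g * h) = val g * val h from rfl, ← mulVec_mulVec, ← mulVec_mulVec, ← mulVec_mulVec,
    hh, hg]

theorem isoL_inv (β : Tens n R) {g : GLx n R} (hg : IsoL β β g) : IsoL β β g⁻¹ := fun x y => by
  have e : ∀ x, val g *ᵥ (val g⁻¹ *ᵥ x) = x := fun x => by
    rw [mulVec_mulVec, show val g * val g⁻¹ = 1 from Units.mul_inv g, one_mulVec]
  have e' : ∀ x, val g⁻¹ *ᵥ (val g *ᵥ x) = x := fun x => by
    rw [mulVec_mulVec, show val g⁻¹ * val g = 1 from Units.inv_mul g, one_mulVec]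
  rw [← e' (adM β (val g⁻¹ *ᵥ x) *ᵥ (val g⁻¹ *ᵥ y)), hg, e, e]

/-- The automorphism group. -/
def AutL (β : Tens n R) : Subgroup (GLx n R) where
  carrier := {g | IsoL β β g}
  one_mem' := isoL_one β
  mul_mem' := isoL_mul β
  inv_mem' := isoL_inv β

/-- `g` is conjugation by the invertible matrix `h`. -/
def IsAd (g : Matrix (Ix n) (Ix n) R) (h : GL (Fin (n + 1)) R) : Prop :=
  ∀ x, emb (g *ᵥ x) = h.1 * emb x * (h⁻¹).1

/-- The action of a ring homomorphism on invertible matrices. -/
def glm (φ : R →+* S) : GLx n R →* GLx n S := GeneralLinearGroup.map φ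

end Algebra

/-- The form `β` of `𝔰𝔩ₙ₊₁` over `k` is outer: it is not an inner twist of the split form. For
every isomorphism `f` onto `𝔰𝔩ₙ₊₁` over the algebraic closure, some value `f s(f)⁻¹` of its
cocycle is not an inner automorphism. -/
def IsOuter {k : Type} [Field k] (β : Tens n k) : Prop :=
  ∀ f : GLx n (AlgebraicClosure k),
    IsoL (bc (algebraMap k (AlgebraicClosure k)) β) (slT n (AlgebraicClosure k)) f →
      ∃ s : AlgebraicClosure k ≃ₐ[k] AlgebraicClosure k,
        ¬ ∃ h, IsAd (val (f * (glm s.toRingEquiv.toRingHom f)⁻¹)) h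

/-- The automorphism group of `𝔰𝔩ₙ₊₁(ℝ)`, which is the isometry group of
`SLₙ₊₁(ℝ) / SO(n+1)`. Its inner automorphisms form `PGLₙ₊₁(ℝ)`. -/
def Aut (n : ℕ) : Type := AutL (slT n ℝ)

/-- The group structure of the subgroup. -/
noncomputable instance : Group (Aut n) := (AutL (slT n ℝ)).toGroup

/-- The topology of the general linear group. -/
instance : TopologicalSpace (GLx n ℝ) := (inferInstance : TopologicalSpace (GL (Ix n) ℝ))

/-- The topology induced from the general linear group. -/
instance : TopologicalSpace (Aut n) := (inferInstance : TopologicalSpace (AutL (slT n ℝ)))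

/-- The matrix of an automorphism. -/
def mat (g : Aut n) : Matrix (Ix n) (Ix n) ℝ := val (Subtype.val g)

/-- `Γ` is a discrete, torsion-free, cocompact subgroup of `PGLₙ₊₁(ℝ)`. -/
def IsMfd (Γ : Subgroup (Aut n)) : Prop :=
  (∀ C : ℝ, {g : Aut n | g ∈ Γ ∧ ∀ i j, |mat g i j| ≤ C}.Finite) ∧
  (∀ g ∈ Γ, IsOfFinOrder g → g = 1) ∧
  (∃ C : Set (Aut n), IsCompact C ∧ ∀ g : Aut n, ∃ γ ∈ Γ, γ * g ∈ C) ∧
  ∀ g ∈ Γ, ∃ h, IsAd (mat g) h

/-- The automorphisms of `β` with matrix in `GL(𝓞 k)`. -/
noncomputable def intAut {k : Type} [Field k] (β : Tens n k) : Subgroup (GLx n k) :=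
  AutL β ⊓ (glm (algebraMap (𝓞 k) k)).range

/-- The image of the integral automorphisms of `β` under the real place `v` and the isomorphism
`f` onto `𝔰𝔩ₙ₊₁(ℝ)`. -/
noncomputable def intPts {k : Type} [Field k] (β : Tens n k) (v : k →+* ℝ) (f : GLx n ℝ) :
    Subgroup (Aut n) :=
  ((intAut β).map ((MulAut.conj f).toMonoidHom.comp (glm v))).subgroupOf (AutL (slT n ℝ))

/-- `Γ` is arithmetic and defined by an outer form: there are a number field `k`, a real place
`v` and an outer `k`-form `β` of `𝔰𝔩ₙ₊₁(ℝ)` at `v` that is compact (real, with negative definite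
Killing form) at all other infinite places, and `Γ` is commensurable with the image of the integral
automorphisms of `β`. -/
def IsArithOuter (Γ : Subgroup (Aut n)) : Prop :=
  ∃ (k : Type) (_ : Field k) (_ : NumberField k) (v : k →+* ℝ) (β : Tens n k)
    (f : GLx n ℝ), IsoL (bc v β) (slT n ℝ) f ∧ IsOuter β ∧
    (∀ φ : k →+* ℂ, φ ≠ Complex.ofRealHom.comp v → ∃ ψ : k →+* ℝ,
      φ = Complex.ofRealHom.comp ψ ∧ ∀ x, x ≠ 0 → kil (bc ψ β) x x < 0) ∧
    Subgroup.Commensurable Γ (intPts β v f)

/-- The two quotients have a common finite isometric cover: a conjugate of `Γ₁` by an isometry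
meets `Γ₂` in a subgroup of finite index in both. -/
def WideComm (Γ₁ Γ₂ : Subgroup (Aut n)) : Prop :=
  ∃ g : Aut n, Subgroup.Commensurable (Γ₁.map (MulAut.conj g).toMonoidHom) Γ₂

end Pool.Agent.P.MP_3c2f8c_gt.SA
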