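import Pool.Agent.P.MP_3c2f8c_gt.AO.SDefs

/-! The Laplacian of `SLₙ₊₁(ℝ) / SO(n+1)` as a Casimir operator, and its eigenspaces. -/

namespace Pool.Agent.P.MP_3c2f8c_gt.SA

open Matrix Topology

variable {n : ℕ}

/-- Smooth functions on the automorphism group: locally restrictions of smooth functions of the
matrix entries. -/
def Smooth (f : Aut n → ℝ) : Prop :=
  ∀ g : Aut n, ∃ F : (Ix n → Ix n → ℝ) → ℝ, ContDiff ℝ (⊤ : ℕ∞) F ∧
    ∀ᶠ g' in 𝓝 g, f g' = F fun i j => mat g' i j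

/-- The function `x ↦ f (g * exp (ad x))` on the Lie algebra. -/
noncomputable def chart (f : Aut n → ℝ) (g : Aut n) (x : Ix n → ℝ) : ℝ :=
  Function.extend mat f 0 (mat g * NormedSpace.exp (adM (slT n ℝ) x))

/-- The derivative in the `i`-th coordinate direction. -/
noncomputable def pd (i : Ix n) (F : (Ix n → ℝ) → ℝ) (x : Ix n → ℝ) : ℝ :=
  fderiv ℝ F x (Pi.single i 1)

variable (n) in
/-- The Gram matrix of the Killing form. -/
def kilM : Matrix (Ix n) (Ix n) ℝ :=
  Matrix.of fun i j => kil (slT n ℝ) (Pi.single i 1) (Pi.single j 1)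

/-- The Casimir operator of the Killing form. On functions invariant under right translation by
the centraliser `K` of a Cartan involution it is the Laplace-Beltrami operator of the symmetric
space `Aut / K` for the invariant metric given by the Killing form. -/
noncomputable def lap (f : Aut n → ℝ) (g : Aut n) : ℝ :=
  ∑ i, ∑ j, (kilM n)⁻¹ i j * pd i (pd j (chart f g)) 0

/-- The eigenspace of the Laplacian on the quotient of the symmetric space `Aut / K` by `Γ`: the
(space spanned by the) smooth functions on `Γ \ Aut / K` with `lap f = -ev * f`. -/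
def Eig (θ : Aut n) (Γ : Subgroup (Aut n)) (ev : ℝ) : Submodule ℝ (Aut n → ℝ) :=
  Submodule.span ℝ {f | Smooth f ∧ (∀ γ ∈ Γ, ∀ g, f (γ * g) = f g) ∧
    (∀ u, u * θ = θ * u → ∀ g, f (g * u) = f g) ∧ ∀ g, lap f g = -ev * f g}

/-- The two quotients have the same Laplace eigenvalues with the same finite multiplicities. -/
def Isospectral (θ : Aut n) (Γ₁ Γ₂ : Subgroup (Aut n)) : Prop :=
  ∀ ev : ℝ, Module.Finite ℝ (Eig θ Γ₁ ev) ∧ Module.Finite ℝ (Eig θ Γ₂ ev) ∧
    Module.finrank ℝ (Eig θ Γ₁ ev) = Module.finrank ℝ (Eig θ Γ₂ ev)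

variable (n) in
/-- Two compact arithmetic quotients of `SLₙ₊₁(ℝ) / SO(n+1)`, defined by outer forms, that are
isospectral and not commensurable; `θ` is the Cartan involution `X ↦ -Xᵀ`. -/
def CaseA : Prop :=
  ∃ θ : Aut n, (∀ x, emb (mat θ *ᵥ x) = -(emb x)ᵀ) ∧
    ∃ Γ₁ Γ₂ : Subgroup (Aut n), IsMfd Γ₁ ∧ IsMfd Γ₂ ∧ IsArithOuter Γ₁ ∧
      IsArithOuter Γ₂ ∧ Isospectral θ Γ₁ Γ₂ ∧ ¬ WideComm Γ₁ Γ₂

end Pool.Agent.P.MP_3c2f8c_gt.SA
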