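import Pool.Agent.P.MP_3c2f8c_gt.AO.SDefs

/-!
The symmetric space `SLₙ₊₁(ℝ) / SO(n+1)` of positive definite matrices of determinant one, its
Laplace-Beltrami operator, eigenspaces on quotients.
-/

namespace Pool.Agent.P.MP_3c2f8c_gt.SA

open Matrix

/-- The positions on or above the diagonal of an `(n+1) × (n+1)` matrix. -/
def Sy (n : ℕ) : Type := {ij : Fin (n + 1) × Fin (n + 1) // ij.1 ≤ ij.2}

variable {n : ℕ}

instance : Fintype (Sy n) :=
  (inferInstance : Fintype {ij : Fin (n + 1) × Fin (n + 1) // ij.1 ≤ ij.2})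

instance : DecidableEq (Sy n) :=
  (inferInstance : DecidableEq {ij : Fin (n + 1) × Fin (n + 1) // ij.1 ≤ ij.2})

/-- The symmetric matrix with the given entries on and above the diagonal. -/
def sym (x : Sy n → ℝ) : Matrix (Fin (n + 1)) (Fin (n + 1)) ℝ :=
  Matrix.of fun i j => x ⟨(min i j, max i j), min_le_max⟩

/-- The cone of positive definite matrices. -/
def cone (n : ℕ) : Set (Sy n → ℝ) := {x | (sym x).PosDef}

/-- The symmetric space: positive definite matrices of determinant one. -/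
def XS (n : ℕ) : Type := {x : Sy n → ℝ // x ∈ cone n ∧ (sym x).det = 1}

/-- The radial projection onto the hypersurface `det = 1`. -/
noncomputable def rad (x : Sy n → ℝ) : Sy n → ℝ := (sym x).det ^ (-(1 / (n + 1)) : ℝ) • x

open Classical in
/-- The extension of a function on the symmetric space to the cone, homogeneous of degree `0`. -/
noncomputable def ext (f : XS n → ℝ) (x : Sy n → ℝ) : ℝ :=
  if hx : rad x ∈ cone n ∧ (sym (rad x)).det = 1 then f ⟨rad x, hx⟩ else 0

/-- The derivative in the direction of the coordinate `a`. -/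
noncomputable def pd (a : Sy n) (F : (Sy n → ℝ) → ℝ) (x : Sy n → ℝ) : ℝ :=
  fderiv ℝ F x (Pi.single a 1)

/-- The invariant Riemannian metric `tr (x⁻¹ dx x⁻¹ dx)` of the cone. -/
noncomputable def gm (x : Sy n → ℝ) : Matrix (Sy n) (Sy n) ℝ := Matrix.of fun a b =>
  ((sym x)⁻¹ * sym (Pi.single a 1) * (sym x)⁻¹ * sym (Pi.single b 1)).trace

/-- The Laplace-Beltrami operator of the metric `gm`, in coordinates. -/
noncomputable def lapC (F : (Sy n → ℝ) → ℝ) (x : Sy n → ℝ) : ℝ :=
  (√(gm x).det)⁻¹ * ∑ a, pd a (fun y => √(gm y).det * ∑ b, (gm y)⁻¹ a b * pd b F y) x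

/-- The Laplace-Beltrami operator of the symmetric space. The cone is the Riemannian product of a
line and the symmetric space, so this is `lapC` on the extension of degree `0`. -/
noncomputable def lap (f : XS n → ℝ) (x : XS n) : ℝ := lapC (ext f) x.1

/-- Smooth functions on the symmetric space. -/
def Smooth (f : XS n → ℝ) : Prop := ContDiffOn ℝ (⊤ : ℕ∞) (ext f) (cone n)

/-- The element `γ = Ad h` of `PGLₙ₊₁(ℝ)` moves `x` to `y`: `y` is a multiple of `h x hᵀ`. -/
def Moves (γ : Aut n) (x y : XS n) : Prop :=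
  ∃ (h : GL (Fin (n + 1)) ℝ) (c : ℝ), IsAd (mat γ) h ∧ sym y.1 = c • (h.1 * sym x.1 * h.1ᵀ)

/-- The eigenspace of the Laplacian on the quotient by `Γ`: the span of the smooth `Γ`-invariant
functions `f` with `lap f = -ev * f`. -/
def Eig (Γ : Subgroup (Aut n)) (ev : ℝ) : Submodule ℝ (XS n → ℝ) :=
  Submodule.span ℝ {f | Smooth f ∧ (∀ γ ∈ Γ, ∀ x y, Moves γ x y → f y = f x) ∧
    ∀ x, lap f x = -ev * f x}

/-- The two quotients have the same Laplace eigenvalues with the same finite multiplicities. -/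
def Isospectral (Γ₁ Γ₂ : Subgroup (Aut n)) : Prop :=
  ∀ ev : ℝ, Module.Finite ℝ (Eig Γ₁ ev) ∧ Module.Finite ℝ (Eig Γ₂ ev) ∧
    Module.finrank ℝ (Eig Γ₁ ev) = Module.finrank ℝ (Eig Γ₂ ev)

end Pool.Agent.P.MP_3c2f8c_gt.SA
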