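import Pool.Agent.P.MP_3c2f8c_gt.AO.Top
import Pool.Agent.P.MP_3c2f8c_gt.Gl.Short

/-! Ultrametric estimates, remainders and the inert primes. -/

namespace Pool.Agent.P.MP_3c2f8c_gt.AO

open Matrix Pool.Agent.Lib.CFT

section Ultra

variable {n : ℕ} {A : Type} [NormedCommRing A] [IsUltrametricDist A] [NormOneClass A] {ε : ℝ}

omit [NormOneClass A] in
theorem Sieve_add {a b : A} (ha : ‖a‖ ≤ ε) (hb : ‖b‖ ≤ ε) : ‖a + b‖ ≤ ε :=
  (IsUltrametricDist.norm_add_le_max a b).trans (max_le ha hb)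

omit [NormOneClass A] in
theorem Sieve_sub {a b : A} (ha : ‖a‖ ≤ ε) (hb : ‖b‖ ≤ ε) : ‖a - b‖ ≤ ε := by
  rw [sub_eq_add_neg]
  exact Sieve_add ha (by rwa [norm_neg])

omit [NormOneClass A] [IsUltrametricDist A] in
theorem Sieve_mul {a b : A} (ha : ‖a‖ ≤ 1) (hb : ‖b‖ ≤ ε) : ‖a * b‖ ≤ ε :=
  (norm_mul_le a b).trans ((mul_le_of_le_one_left (norm_nonneg _) ha).trans hb)

theorem Sieve_prod {ι : Type} (s : Finset ι) {a b : ι → A} (h0 : 0 ≤ ε) (ha : ∀ i, ‖a i‖ ≤ 1)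
    (hb : ∀ i, ‖b i‖ ≤ 1) (h : ∀ i, ‖a i - b i‖ ≤ ε) :
    ‖∏ i ∈ s, b i‖ ≤ 1 ∧ ‖∏ i ∈ s, a i - ∏ i ∈ s, b i‖ ≤ ε := by
  classical
  induction s using Finset.induction_on with
  | empty => simp [h0]
  | insert j s hj ih =>
    rw [Finset.prod_insert hj, Finset.prod_insert hj]
    refine ⟨Sieve_mul (hb j) ih.1, ?_⟩
    have e : a j * ∏ i ∈ s, a i - b j * ∏ i ∈ s, b i =
        a j * (∏ i ∈ s, a i - ∏ i ∈ s, b i) + (∏ i ∈ s, b i) * (a j - b j) := by ring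
    rw [e]
    exact Sieve_add (Sieve_mul (ha j) ih.2) (Sieve_mul ih.1 (h j))

theorem Sieve_det_sub {x y : Mt n A} (hx : Le 1 x) (hy : Le 1 y) (h : Le ε (x - y)) :
    ‖x.det - y.det‖ ≤ ε := by
  have h0 : 0 ≤ ε := (norm_nonneg _).trans (h 0 0)
  rw [det_apply', det_apply', ← Finset.sum_sub_distrib]
  refine IsUltrametricDist.norm_sum_le_of_forall_le_of_nonneg h0 fun σ _ => ?_
  rw [← mul_sub]
  exact Sieve_mul (IsUltrametricDist.norm_intCast_le_one _ _)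
    (Sieve_prod _ h0 (fun i => hx _ i) (fun i => hy _ i) fun i => h _ i).2

theorem Sieve_det {x : Mt n A} (hx : Le 1 x) : ‖x.det‖ ≤ 1 := by
  have h := Sieve_det_sub hx le_one fun i j => Sieve_sub (hx i j) (le_one i j)
  rw [det_one] at h
  simpa using Sieve_add h norm_one.le

theorem Sieve_adj {x : Mt n A} (hx : Le 1 x) : Le 1 x.adjugate := fun i j => by
  rw [adjugate_apply]
  refine Sieve_det fun k l => ?_
  rw [updateRow_apply]
  split_ifs
  · rw [Pi.single_apply]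
    split_ifs <;> simp
  · exact hx k l

/-- the inverse of an element close to one is integral -/
theorem Sieve_inv {a b : A} (hab : a * b = 1) (h : ‖a - 1‖ ≤ 1 / 2) : ‖b‖ ≤ 1 := by
  have e : b = 1 + -(b * (a - 1)) := by linear_combination hab
  have h1 := IsUltrametricDist.norm_add_le_max (1 : A) (-(b * (a - 1)))
  rw [← e, norm_one, norm_neg] at h1
  have h2 := (norm_mul_le b (a - 1)).trans (mul_le_mul_of_nonneg_left h (norm_nonneg b))
  rcases le_max_iff.1 h1 with h3 | h3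
  · exact h3
  · linarith

end Ultra

open Polynomial in
theorem Sieve_hensel {p : ℕ} [Fact p.Prime] {m : ℤ} {a b : ℚ_[p]} (h2 : ‖(2 : ℚ_[p])‖ = 1)
    (hm : ‖(m : ℚ_[p])‖ = 1) (hs : ¬ IsSquare (m : ℚ_[p])) (ha : ‖a‖ ≤ 1) (hb : ‖b‖ ≤ 1)
    (h : ‖a ^ 2 - m * b ^ 2‖ < 1) : ‖a‖ < 1 ∧ ‖b‖ < 1 := by
  have key : ∀ u v : ℚ_[p], ‖u‖ < 1 → ‖v‖ < 1 → ‖u + v‖ < 1 := fun u v hu hv =>
    (IsUltrametricDist.norm_add_le_max u v).trans_lt (max_lt hu hv)
  by_cases hb1 : ‖b‖ < 1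
  · refine ⟨?_, hb1⟩
    have h3 := key _ (m * b ^ 2) h (by
      rw [norm_mul, hm, one_mul, norm_pow]
      exact pow_lt_one₀ (norm_nonneg _) hb1 two_ne_zero)
    rw [sub_add_cancel, norm_pow] at h3
    exact (sq_lt_one_iff₀ (norm_nonneg _)).1 h3
  exfalso
  have hb2 : ‖b‖ = 1 := le_antisymm hb (not_lt.1 hb1)
  have hb0 : b ≠ 0 := norm_ne_zero_iff.1 (by rw [hb2]; exact one_ne_zero)
  have hu : ‖a / b‖ ≤ 1 := by rwa [norm_div, hb2, div_one]
  have h3 : ‖(a / b) ^ 2 - m‖ < 1 := by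
    have e : (a / b) ^ 2 - m = (a ^ 2 - m * b ^ 2) / b ^ 2 := by field_simp
    rwa [e, norm_div, norm_pow, hb2, one_pow, div_one]
  have h4 : ‖a / b‖ = 1 := by
    refine le_antisymm hu (not_lt.1 fun h4 => ?_)
    have h5 := key ((a / b) ^ 2) (-((a / b) ^ 2 - m)) (by
      rw [norm_pow]
      exact pow_lt_one₀ (norm_nonneg _) h4 two_ne_zero) (by rwa [norm_neg])
    rw [← sub_eq_add_neg, sub_sub_cancel, hm] at h5
    exact lt_irrefl _ h5
  obtain ⟨u, hu'⟩ : ∃ u : ℤ_[p], (u : ℚ_[p]) = a / b := ⟨⟨a / b, hu⟩, rfl⟩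
  obtain ⟨z, hz, -⟩ := hensels_lemma (p := p) (F := (X ^ 2 - C (m : ℤ_[p]) : ℤ_[p][X])) (a := u) (by
    have e1 : (X ^ 2 - C (m : ℤ_[p]) : ℤ_[p][X]).aeval u = u ^ 2 - m := by simp
    have e2 : (X ^ 2 - C (m : ℤ_[p]) : ℤ_[p][X]).derivative.aeval u = 2 * u := by
      simp
      norm_num
    rw [e1, e2, PadicInt.norm_def, PadicInt.norm_def]
    push_cast
    have e3 : ((2 : ℤ_[p]) : ℚ_[p]) = 2 := rfl
    rw [hu', e3, norm_mul, h2, h4]
    simpa using h3)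
  have h5 : z ^ 2 = (m : ℤ_[p]) := by simpa [sub_eq_zero] using hz
  refine hs ⟨z, ?_⟩
  rw [← sq]
  exact_mod_cast congrArg (fun t : ℤ_[p] => (t : ℚ_[p])) h5.symm

open Polynomial in
theorem Sieve_coprime {K : Type} [Field K] [CharZero K] {P Q : K[X]} (hP : P ≠ 0) (hQ : Q ≠ 0)
    {c : K} (hc : c ≠ 0) : ∃ (a : ℕ) (U V : K[X]), ∀ t : K,
      U.eval t * P.eval (t + a * c) + V.eval t * Q.eval (t - a * c) = 1 := by
  have hS := (P.rootSet_finite (AlgebraicClosure K)).image2 (fun a b => a - b)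
    (Q.rootSet_finite (AlgebraicClosure K))
  have hi : Function.Injective fun a : ℕ => algebraMap K (AlgebraicClosure K) (2 * (a * c)) :=
    fun a b h => by
      have h1 := (algebraMap K (AlgebraicClosure K)).injective h
      exact_mod_cast mul_right_cancel₀ hc (mul_left_cancel₀ two_ne_zero h1)
  obtain ⟨a, ha⟩ := (hS.preimage hi.injOn).exists_notMem
  obtain ⟨U, V, h⟩ : IsCoprime (P.comp (X + C (a * c))) (Q.comp (X - C (a * c))) := by
    refine (Polynomial.isCoprime_iff_aeval_ne_zero_of_isAlgClosed K (AlgebraicClosure K) _ _).2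
      fun z => ?_
    by_contra h
    rw [not_or, not_not, not_not, aeval_comp, aeval_comp] at h
    refine ha ⟨_, (mem_rootSet_of_ne hP).2 h.1, _, (mem_rootSet_of_ne hQ).2 h.2, ?_⟩
    simp only [map_add, map_sub, aeval_X, aeval_C, map_mul, map_ofNat]
    ring
  refine ⟨a, U, V, fun t => ?_⟩
  simpa [eval_comp] using congrArg (eval t) h

variable {n : ℕ} {M : Type} [Field M] [NumberField M]

theorem Sieve_crt (s : Finset Nat.Primes) (a : Nat.Primes → ℕ) {δ : ℝ} (hδ : 0 < δ) :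
    ∃ c : ℕ, 0 < c ∧ ∀ p ∈ s, ‖(c : Ap p.1 M) - a p‖ ≤ δ := by
  choose k hk using fun p : Nat.Primes => PadicInt.exists_pow_neg_lt p.1 hδ
  obtain ⟨c, hc⟩ := Nat.chineseRemainderOfFinset a (fun p => p.1 ^ k p) s
    (fun p _ => pow_ne_zero _ p.2.ne_zero) fun p _ q _ h =>
      Nat.Coprime.pow _ _ ((Nat.coprime_primes p.2 q.2).2 fun e => h (Subtype.ext e))
  refine ⟨c + ∏ p ∈ s, p.1 ^ k p,
    Nat.add_pos_right _ (Finset.prod_pos fun p _ => pow_pos p.2.pos _), fun p hp => ?_⟩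
  have h1 : c + ∏ p ∈ s, p.1 ^ k p ≡ a p + 0 [MOD p.1 ^ k p] :=
    (hc p hp).add ((Nat.modEq_zero_iff_dvd).2 (Finset.dvd_prod_of_mem _ hp))
  generalize c + ∏ p ∈ s, p.1 ^ k p = c' at h1
  have h2 := (Padic.norm_int_le_pow_iff_dvd (p := p.1) ((c' : ℤ) - a p) (k p)).2
    (by exact_mod_cast h1.symm.dvd)
  have e : (c' : Ap p.1 M) - a p = algebraMap ℚ_[p] _ (((c' : ℤ) - a p : ℤ) : ℚ_[p]) := by
    rw [map_intCast]
    push_cast
    rfl
  rw [e, norm_algebraMap']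
  exact h2.trans (hk p).le

theorem Sieve_glue (s t : Finset Nat.Primes) (y : Mt n M) {δ : ℝ} (hδ : 0 < δ) :
    ∃ c : ℕ, (∀ p ∈ s, ∀ i j, ‖inc ℚ_[p] M (c * y i j - y i j)‖ ≤ δ) ∧
      ∀ p ∈ t, p ∉ s → ∀ i j, ‖inc ℚ_[p] M (c * y i j)‖ ≤ δ := by
  classical
  obtain ⟨C, hC⟩ := Finite.bddAbove_range
    fun z : (s ∪ t : Finset Nat.Primes) × Fin (n + 1) × Fin (n + 1) =>
      ‖inc ℚ_[z.1.1] M (y z.2.1 z.2.2)‖
  have C0 : 0 < max C 1 := lt_max_of_lt_right one_pos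
  obtain ⟨c, -, hc⟩ := Sieve_crt (M := M) (s ∪ t) (fun p => if p ∈ s then 1 else 0)
    (div_pos hδ C0)
  have key : ∀ p ∈ s ∪ t, ∀ i j,
      ‖((c : Ap p.1 M) - (if p ∈ s then 1 else 0 : ℕ)) * inc ℚ_[p] M (y i j)‖ ≤ δ :=
    fun p hp i j => by
      have h1 : ‖inc ℚ_[p] M (y i j)‖ ≤ max C 1 :=
        le_max_of_le_left (hC ⟨(⟨p, hp⟩, i, j), rfl⟩)
      refine (norm_mul_le _ _).trans
        ((mul_le_mul (hc p hp) h1 (norm_nonneg _) (div_pos hδ C0).le).trans_eq ?_)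
      exact div_mul_cancel₀ _ C0.ne'
  refine ⟨c, fun p hp i j => ?_, fun p hp hp' i j => ?_⟩
  · have h1 := key p (Finset.mem_union_left _ hp) i j
    rwa [if_pos hp, Nat.cast_one, sub_mul, one_mul, ← map_natCast (inc ℚ_[p] M), ← map_mul,
      ← map_sub] at h1
  · have h1 := key p (Finset.mem_union_right _ hp) i j
    rwa [if_neg hp', Nat.cast_zero, sub_zero, ← map_natCast (inc ℚ_[p] M), ← map_mul] at h1

theorem Sieve_nat {p : ℕ} [Fact p.Prime] (c : ℕ) : ‖inc ℚ_[p] M c‖ ≤ 1 := by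
  rw [map_natCast]
  exact IsUltrametricDist.norm_natCast_le_one _ c

theorem Sieve_eval (U : Polynomial M) :
    {q : Nat.Primes | ¬ ∀ t : ℕ, ‖inc ℚ_[q] M (U.eval (t : M))‖ ≤ 1}.Finite := by
  induction U using Polynomial.induction_on' with
  | add U V hU hV =>
    refine (hU.union hV).subset fun q hq => ?_
    by_contra h
    simp only [Set.mem_union, Set.mem_ofPred_eq, not_or, not_not] at h
    refine hq fun t => ?_
    rw [Polynomial.eval_add, map_add]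
    exact Sieve_add (h.1 t) (h.2 t)
  | monomial k a =>
    refine (finite_norm_gt a).subset fun q hq h => hq fun t => ?_
    rw [Polynomial.eval_monomial, map_mul, ← Nat.cast_pow]
    exact Sieve_mul h (Sieve_nat _)

omit [NumberField M] in
theorem Sieve_eval_det (y : Mt n M) (t : M) : (-y).charpoly.eval t = (y + t • 1).det := by
  rw [Matrix.eval_charpoly, sub_neg_eq_add, add_comm _ y, Matrix.scalar_apply,
    smul_one_eq_diagonal]

/-- finite differences -/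
theorem Sieve_diff {p : ℕ} [Fact p.Prime] (y : Mt n M)
    (h : ‖inc ℚ_[p] M (((n + 1).factorial : M))⁻¹‖ ≤ 1) :
    ∃ k : ℕ, 1 ≤ ‖inc ℚ_[p] M (y + (k : M) • 1).det‖ := by
  have h1 := congrFun (Polynomial.fwdDiff_iter_degree_eq_factorial (-y).charpoly) 0
  rw [fwdDiff_iter_eq_sum_shift, charpoly_natDegree_eq_dim, Fintype.card_fin,
    (charpoly_monic _).leadingCoeff, one_smul, Pi.natCast_apply] at h1
  have h2 := congrArg (inc ℚ_[p] M) h1
  rw [map_sum] at h2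
  obtain ⟨k, -, hk⟩ := IsUltrametricDist.exists_norm_finsetSum_le (Finset.range (n + 1 + 1))
    fun k => inc ℚ_[p] M (((-1 : ℤ) ^ (n + 1 - k) * (n + 1).choose k) •
      (-y).charpoly.eval (0 + k • (1 : M)))
  rw [h2, zero_add, nsmul_one, Sieve_eval_det, zsmul_eq_mul, map_mul, map_intCast] at hk
  refine ⟨k, ?_⟩
  have h3 := Sieve_mul h (hk.trans (Sieve_mul (IsUltrametricDist.norm_intCast_le_one _ _) le_rfl))
  rwa [← map_mul, inv_mul_cancel₀ (Nat.cast_ne_zero.2 (Nat.factorial_ne_zero _)), map_one,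
    norm_one] at h3

variable [G2 M]

theorem Sieve_m0 : ((G2.m M : ℤ) : M) ≠ 0 := by
  rw [← G2.rr]
  exact pow_ne_zero _ G2.r0

theorem Sieve_r {p : ℕ} [Fact p.Prime] : ‖inc ℚ_[p] M G2.r‖ ≤ 1 := by
  refine norm_le_one_iff.2 (IsIntegral.of_pow two_pos ?_)
  rw [← map_pow, G2.rr, map_intCast]
  exact norm_le_one_iff.1 (IsUltrametricDist.norm_intCast_le_one _ _)

theorem Sieve_ta {p : ℕ} [Fact p.Prime] (f : M) :
    ‖inc ℚ_[p] M (ta f)‖ = ‖inc ℚ_[p] M f‖ := by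
  rw [(twHom_inc ℚ_[p]).ta, NTw.ta]

theorem Sieve_inert {q : Nat.Primes} (hq : ‖inc ℚ_[q] M (2 * (G2.m M : ℤ) : M)⁻¹‖ ≤ 1)
    (hs : ¬ Sp M q) {f : M} (hf : sg f = f) (h1 : ‖inc ℚ_[q] M f‖ ≤ 1)
    (h2 : 1 ≤ ‖inc ℚ_[q] M f‖) : ‖inc ℚ_[q] M f⁻¹‖ ≤ 1 := by
  have r1 : sg (G2.r : M) = G2.r := G2.σr
  have r2 : ta (G2.r : M) = -G2.r := G2.τr
  have rr : (G2.r : M) ^ 2 = (G2.m M : ℤ) := G2.rr
  have hw := inv_mul_cancel₀ (mul_ne_zero two_ne_zero (Sieve_m0 (M := M)))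
  obtain ⟨a, ha⟩ := exists_rat
    (x := (2 * (G2.m M : ℤ) : M)⁻¹ * ((G2.m M : ℤ) * (f + ta f)))
    (by simp only [map_mul, map_inv₀, map_ofNat, map_intCast, map_add, Tw.comm, hf])
    (by simp only [map_mul, map_inv₀, map_ofNat, map_intCast, map_add, Tw.tata, add_comm])
  obtain ⟨b, hb⟩ := exists_rat (x := (2 * (G2.m M : ℤ) : M)⁻¹ * (G2.r * (f - ta f)))
    (by simp only [map_mul, map_inv₀, map_ofNat, map_intCast, map_sub, Tw.comm, hf, r1])
    (by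
      simp only [map_mul, map_inv₀, map_ofNat, map_intCast, map_sub, Tw.tata, r2]
      ring)
  have h3 := (Sieve_ta (p := q) f).trans_le h1
  have a1 : ‖(a : ℚ_[q])‖ ≤ 1 := by
    rw [← norm_inc_rat (M := M), ha, map_mul, map_mul, map_add, map_intCast]
    exact Sieve_mul hq (Sieve_mul (IsUltrametricDist.norm_intCast_le_one _ _) (Sieve_add h1 h3))
  have b1 : ‖(b : ℚ_[q])‖ ≤ 1 := by
    rw [← norm_inc_rat (M := M), hb, map_mul, map_mul, map_sub]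
    exact Sieve_mul hq (Sieve_mul Sieve_r (Sieve_sub h1 h3))
  have e1 : f = a + G2.r * b := by
    rw [ha, hb]
    linear_combination (-f) * hw - (2 * (G2.m M : ℤ) : M)⁻¹ * (f - ta f) * rr
  have e2 : ta f = a - G2.r * b := by
    rw [ha, hb]
    linear_combination (-ta f) * hw + (2 * (G2.m M : ℤ) : M)⁻¹ * (f - ta f) * rr
  have e3 : f * ta f = ((a ^ 2 - G2.m M * b ^ 2 : ℚ) : M) := by
    rw [e2]
    conv_lhs => arg 1; rw [e1]
    push_cast
    linear_combination (-(b : M) ^ 2) * rr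
  have m1 : 1 ≤ ‖(2 : ℚ_[q])‖ * ‖((G2.m M : ℤ) : ℚ_[q])‖ := by
    have h4 := norm_inc_rat (p := q) (M := M) (2 * (G2.m M : ℤ))
    push_cast at h4
    rw [← norm_mul, ← h4]
    have h5 := Sieve_mul hq (le_refl ‖inc ℚ_[q] M (2 * (G2.m M : ℤ) : M)‖)
    rwa [← map_mul, hw, map_one, norm_one] at h5
  have m2 : ‖(2 : ℚ_[q])‖ ≤ 1 := IsUltrametricDist.norm_natCast_le_one _ 2
  have m3 : ‖((G2.m M : ℤ) : ℚ_[q])‖ ≤ 1 := IsUltrametricDist.norm_intCast_le_one _ _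
  have n1 : 1 ≤ ‖((a ^ 2 - G2.m M * b ^ 2 : ℚ) : ℚ_[q])‖ := by
    refine not_lt.1 fun h4 => ?_
    push_cast at h4
    obtain ⟨h5, h6⟩ := Sieve_hensel
      (le_antisymm m2 (m1.trans (mul_le_of_le_one_right (norm_nonneg _) m3)))
      (le_antisymm m3 (m1.trans (mul_le_of_le_one_left (norm_nonneg _) m2))) hs a1 b1 h4
    rw [← norm_inc_rat (M := M)] at h5 h6
    rw [e1, map_add, map_mul] at h2
    exact absurd (h2.trans (Sieve_add (le_max_left _ _) (Sieve_mul Sieve_r (le_max_right _ _))))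
      (not_le.2 (max_lt h5 h6))
  generalize a ^ 2 - G2.m M * b ^ 2 = ν at e3 n1
  have n0 : (ν : M) ≠ 0 := by
    rintro h4
    rw [Rat.cast_eq_zero.1 h4, Rat.cast_zero, norm_zero] at n1
    linarith
  have e4 : f⁻¹ = ta f * (ν⁻¹ : ℚ) := by
    refine inv_eq_of_mul_eq_one_right ?_
    rw [← mul_assoc, e3, Rat.cast_inv, mul_inv_cancel₀ n0]
  rw [e4, map_mul]
  refine Sieve_mul h3 ?_
  rw [norm_inc_rat, Rat.cast_inv, norm_inv]
  exact inv_le_one_of_one_le₀ n1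

end Pool.Agent.P.MP_3c2f8c_gt.AO
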