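import Pool.Agent.P.MP_3c2f8c_gt.AO.Top

/-! Split places: the unitary group is a general linear group. -/

namespace Pool.Agent.P.MP_3c2f8c_gt.AO

open Matrix E6 Pool.Agent.Lib.CFT
open scoped TensorProduct

namespace SplAux

variable {n : ℕ} {k A : Type} [Field k] [CommRing A] [Algebra k A] [Tw A] {β : A}

variable (n k) in
/-- The data of a splitting. -/
structure SD (β : A) where
  W : Gl n A
  c : A
  uc : ta c * c = 1
  rel : cm n β * W.1.map sg = c • W.1
  stm : ∀ x ∈ Dal n β, st x ∈ Dal n β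
  e : A
  ee : e * e = e
  sge : sg e = e
  tae : ta e = 1 - e
  sgk : ∀ t : k, sg (algebraMap k A t) = algebraMap k A t
  tak : ∀ t : k, ta (algebraMap k A t) = algebraMap k A t
  fix : ∀ x : A, sg x = x → ta x = x → ∃ t : k, algebraMap k A t = x
  ret : A →ₗ[k] k
  ret_alg : ∀ t : k, ret (algebraMap k A t) = t

variable (S : SD n k β)

theorem SD.rel' : (S.W⁻¹).1 * cm n β = S.c • (S.W⁻¹).1.map sg := by
  have h := congrArg (fun y => (S.W⁻¹).1 * y * (S.W⁻¹).1.map sg) S.rel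
  simp only [Matrix.mul_smul, Matrix.smul_mul, Units.inv_mul, Matrix.one_mul] at h
  rw [← h, Matrix.mul_assoc, Matrix.mul_assoc, map_mul_inv, Matrix.mul_one]

theorem SD.e0 : S.e * (1 - S.e) = 0 := by rw [mul_sub, S.ee, mul_one, sub_self]

theorem SD.e0' : (1 - S.e) * S.e = 0 := by rw [mul_comm, S.e0]

theorem SD.e1 : (1 - S.e) * (1 - S.e) = 1 - S.e := by rw [mul_sub, S.e0', mul_one, sub_zero]

theorem SD.tae' : ta (1 - S.e) = S.e := by rw [map_sub, map_one, S.tae, sub_sub_cancel]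

/-- The conjugate of a matrix over the base field. -/
def SD.x (g : Mt n k) : Mt n A := S.W.1 * g.map (algebraMap k A) * (S.W⁻¹).1

theorem SD.x_mul (g h : Mt n k) : S.x (g * h) = S.x g * S.x h := by
  simp only [SD.x, Matrix.map_mul, Matrix.mul_assoc, Units.inv_mul_cancel_left]

theorem SD.x_one : S.x 1 = 1 := by
  rw [SD.x, Matrix.map_one _ (map_zero _) (map_one _), Matrix.mul_one, Units.mul_inv]

theorem SD.x_smul (t : k) : S.x (t • 1) = algebraMap k A t • 1 := by
  rw [SD.x, map_smul_ring, Matrix.map_one _ (map_zero _) (map_one _), Matrix.mul_smul,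
    Matrix.mul_one, Matrix.smul_mul, Units.mul_inv]

theorem SD.x_mem (g : Mt n k) : S.x g ∈ Dal n β := by
  have h : (g.map (algebraMap k A)).map sg = g.map (algebraMap k A) :=
    Matrix.ext fun _ _ => S.sgk _
  rw [mem_Dal, SD.x, Matrix.map_mul, Matrix.map_mul, h, Matrix.mul_assoc, S.rel',
    ← Matrix.mul_assoc, ← Matrix.mul_assoc, S.rel]
  simp only [Matrix.mul_smul, Matrix.smul_mul]

/-- The matrix of the unitary element. -/
def SD.y (g : Gl n k) : Mt n A := S.e • S.x g.1 + (1 - S.e) • st (S.x (g⁻¹).1)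

theorem SD.y_mul (g h : Gl n k) : S.y (g * h) = S.y g * S.y h := by
  simp only [SD.y, _root_.mul_inv_rev, Units.val_mul, S.x_mul, st_mul, Matrix.add_mul,
    Matrix.mul_add, smul_mul_smul_comm, S.ee, S.e0, S.e0', S.e1, zero_smul, add_zero, zero_add]

theorem SD.y_one : S.y 1 = 1 := by
  rw [SD.y, inv_one, Units.val_one, S.x_one, st_one, ← add_smul, add_sub_cancel, one_smul]

theorem SD.st_y (g : Gl n k) : st (S.y g) = S.y g⁻¹ := by
  rw [SD.y, SD.y, st_add, st_smul, st_smul, st_st, S.tae, S.tae', inv_inv, add_comm]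

theorem SD.y_mem (g : Gl n k) : S.y g ∈ Dal n β :=
  add_mem (smul_mem_Dal S.sge (S.x_mem _))
    (smul_mem_Dal (by rw [map_sub, map_one, S.sge]) (S.stm _ (S.x_mem _)))

theorem SD.y_inv (g : Gl n k) : S.y g⁻¹ * S.y g = 1 := by
  rw [← S.y_mul, inv_mul_cancel, S.y_one]

/-- The map from the general linear group to the unitary group. -/
def SD.ψ : Gl n k →* Un n β where
  toFun g := ⟨⟨S.y g, S.y g⁻¹, by rw [← S.y_mul, mul_inv_cancel, S.y_one], S.y_inv g⟩,
    S.y_mem g, by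
      show st (S.y g) * S.y g = 1
      rw [S.st_y, S.y_inv]⟩
  map_one' := Subtype.ext (Units.ext S.y_one)
  map_mul' g h := Subtype.ext (Units.ext (S.y_mul g h))

theorem SD.ψ_val (g : Gl n k) : (S.ψ g).1.1 = S.y g := rfl

/-- The component at the idempotent. -/
def SD.lam (z : A) : k := S.ret (S.e * z + ta (S.e * z))

theorem SD.lam_congr {z z' : A} (h : S.e * z = S.e * z') : S.lam z = S.lam z' := by
  rw [SD.lam, h, SD.lam]

theorem SD.lam_alg (t : k) : S.lam (algebraMap k A t) = t := by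
  rw [SD.lam, map_mul, S.tae, S.tak, ← add_mul, add_sub_cancel, one_mul, S.ret_alg]

theorem SD.lam_zero : S.lam 0 = 0 := by
  have h := S.lam_alg 0
  rwa [map_zero] at h

theorem SD.e_lam {z : A} (h : sg z = z) : S.e * algebraMap k A (S.lam z) = S.e * z := by
  obtain ⟨t, ht⟩ := S.fix (S.e * z + ta (S.e * z))
    (by rw [map_add, Tw.comm, map_mul, S.sge, h]) (by rw [map_add, Tw.tata, add_comm])
  rw [SD.lam, ← ht, S.ret_alg, ht, map_mul, S.tae, mul_add, ← mul_assoc, ← mul_assoc, S.ee, S.e0,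
    zero_mul, add_zero]

theorem SD.map_lam {X : Mt n A} {g : Mt n k} (h : S.e • X = S.e • g.map (algebraMap k A)) :
    X.map S.lam = g := by
  ext i j
  exact (S.lam_congr (congrFun (congrFun h i) j)).trans (S.lam_alg _)

theorem SD.sg_conj {u : Mt n A} (hu : u ∈ Dal n β) :
    ((S.W⁻¹).1 * u * S.W.1).map sg = (S.W⁻¹).1 * u * S.W.1 := by
  have h : S.c • ((S.W⁻¹).1 * u * S.W.1).map sg = S.c • ((S.W⁻¹).1 * u * S.W.1) := by
    rw [Matrix.map_mul, Matrix.map_mul, ← Matrix.smul_mul, ← Matrix.smul_mul, ← S.rel',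
      Matrix.mul_assoc _ (cm n β), ← mem_Dal.1 hu, ← Matrix.mul_assoc, Matrix.mul_assoc _ (cm n β),
      S.rel, Matrix.mul_smul]
  have h2 := congrArg (fun y => ta S.c • y) h
  simpa only [smul_smul, S.uc, one_smul] using h2

/-- The matrix over the base field of an element of the algebra. -/
def SD.m (u : Mt n A) : Mt n k := ((S.W⁻¹).1 * u * S.W.1).map S.lam

theorem SD.e_m {u : Mt n A} (hu : u ∈ Dal n β) :
    S.e • (S.m u).map (algebraMap k A) = S.e • ((S.W⁻¹).1 * u * S.W.1) := by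
  ext i j
  exact S.e_lam (congrFun (congrFun (S.sg_conj hu) i) j)

theorem SD.m_mul {u v : Mt n A} (hu : u ∈ Dal n β) (hv : v ∈ Dal n β) :
    S.m (u * v) = S.m u * S.m v := by
  refine S.map_lam ?_
  conv_rhs => rw [Matrix.map_mul, ← S.ee, ← smul_mul_smul_comm, S.e_m hu, S.e_m hv,
    smul_mul_smul_comm, S.ee]
  simp only [Matrix.mul_assoc, Units.mul_inv_cancel_left]

theorem SD.m_smul (a : A) : S.m (a • 1) = S.lam a • 1 := by
  rw [SD.m, Matrix.mul_smul, Matrix.mul_one, Matrix.smul_mul, Units.inv_mul]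
  ext i j
  by_cases h : i = j
  · simp [h]
  · simp [Matrix.one_apply_ne h, S.lam_zero]

theorem SD.m_one : S.m 1 = 1 := by
  refine S.map_lam ?_
  rw [Matrix.mul_one, Units.inv_mul, Matrix.map_one _ (map_zero _) (map_one _)]

theorem SD.e_x_m {u : Mt n A} (hu : u ∈ Dal n β) : S.e • S.x (S.m u) = S.e • u := by
  rw [SD.x, ← Matrix.smul_mul, ← Matrix.mul_smul, S.e_m hu]
  simp only [Matrix.mul_smul, Matrix.smul_mul, Matrix.mul_assoc, Units.mul_inv_cancel_left,
    Units.mul_inv, Matrix.mul_one]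

theorem SD.m_y (g : Gl n k) : S.m (S.y g) = g.1 := by
  refine S.map_lam ?_
  rw [← Matrix.smul_mul, ← Matrix.mul_smul, SD.y, smul_add, smul_smul, smul_smul, S.ee, S.e0,
    zero_smul, add_zero, SD.x]
  simp only [Matrix.mul_smul, Matrix.smul_mul, Matrix.mul_assoc, Units.inv_mul_cancel_left,
    Units.inv_mul, Matrix.mul_one]

/-- The inverse map. -/
def SD.φ (u : Un n β) : Gl n k :=
  ⟨S.m u.1.1, S.m (u⁻¹).1.1, by
    rw [← S.m_mul u.2.1 (u⁻¹).2.1, Subgroup.coe_inv, Units.mul_inv, S.m_one], by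
    rw [← S.m_mul (u⁻¹).2.1 u.2.1, Subgroup.coe_inv, Units.inv_mul, S.m_one]⟩

theorem SD.φ_ψ (g : Gl n k) : S.φ (S.ψ g) = g := Units.ext (S.m_y g)

theorem SD.ψ_φ (u : Un n β) : S.ψ (S.φ u) = u := Subtype.ext (Units.ext (by
  show S.e • S.x (S.m u.1.1) + (1 - S.e) • st (S.x (S.m (u⁻¹).1.1)) = u.1.1
  rw [S.e_x_m u.2.1, ← S.tae, ← st_smul, S.e_x_m (u⁻¹).2.1, st_smul, Un.inv_val, st_st, S.tae,
    ← add_smul, add_sub_cancel, one_smul]))

theorem SD.ker (g : Gl n k) : S.ψ g ∈ Zc n β ↔ ∃ t : k, g.1 = t • (1 : Mt n k) := by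
  constructor
  · rintro ⟨a, ha⟩
    exact ⟨S.lam a, by rw [← S.m_y g, ← S.ψ_val, ha, S.m_smul]⟩
  · rintro ⟨t, ht⟩
    have h0 : t ≠ 0 := by
      rintro rfl
      have h := congrFun (congrFun g.mul_inv 0) 0
      rw [ht, zero_smul, Matrix.zero_mul] at h
      simp at h
    have h1 : (g⁻¹).1 = t⁻¹ • (1 : Mt n k) := Units.inv_eq_of_mul_eq_one_left (by
      rw [ht, smul_mul_smul_comm, inv_mul_cancel₀ h0, mul_one, one_smul])
    refine ⟨S.e * algebraMap k A t + (1 - S.e) * ta (algebraMap k A t⁻¹), ?_⟩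
    rw [S.ψ_val, SD.y, ht, h1, S.x_smul, S.x_smul, st_smul, st_one, smul_smul, smul_smul, add_smul]

theorem SD.map_y {Ω : Type} [CommRing Ω] [Algebra k Ω] (ω : A →ₐ[k] Ω) (h : ω S.e = 1)
    (g : Gl n k) :
    (S.y g).map ω = S.W.1.map ω * g.1.map (algebraMap k Ω) * (S.W⁻¹).1.map ω := by
  have h1 : (g.1.map (algebraMap k A)).map ω = g.1.map (algebraMap k Ω) :=
    Matrix.ext fun _ _ => ω.commutes _
  rw [SD.y, Matrix.map_add _ (map_add ω), map_smul_ring, map_smul_ring, map_sub, map_one, h,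
    sub_self, zero_smul, add_zero, one_smul, SD.x, Matrix.map_mul, Matrix.map_mul, h1]

theorem SD.not_unit [Nontrivial A] : ¬ IsUnit (1 - S.e) := fun h => by
  have h1 : S.e = 0 := h.mul_left_eq_zero.1 S.e0
  have h2 := S.tae
  rw [h1, map_zero, sub_zero] at h2
  exact zero_ne_one h2

theorem succ_last {j : Fin (n + 1)} (h : j + 1 = 0) : j.1 = n := by
  by_contra hne
  have := Fin.val_add_one_of_lt' (i := j) (by omega)
  rw [h] at this
  exact absurd this (by simp)

theorem succ_val {j : Fin (n + 1)} (h : j + 1 ≠ 0) : (j + 1).1 = j.1 + 1 := by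
  refine Fin.val_add_one_of_lt' ?_
  by_contra hne
  exact h ((show j = Fin.last n from Fin.ext (by simp; omega)) ▸ Fin.last_add_one n)

theorem exists_diag {c : A} (hc : UN n β c) :
    ∃ D : Gl n A, cm n β * D.1.map sg = c • (D.1 * cm n 1) := by
  have h1 : ∀ i, om i c * om i (ta c) = 1 := fun i => by
    rw [← om_mul, mul_comm, hc.1, om_one]
  have h2 : (diagonal fun i : Fin (n + 1) => om i.1 c) *
      (diagonal fun i : Fin (n + 1) => om i.1 (ta c)) = 1 := by
    rw [diagonal_mul_diagonal]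
    simp only [h1, diagonal_one]
  refine ⟨⟨_, _, mul_eq_one_comm.1 h2, h2⟩, ?_⟩
  show _ * (diagonal _).map sg = _ • (diagonal _ * _)
  rw [diagonal_map (map_zero _)]
  ext i j
  rw [mul_diagonal, Matrix.smul_apply, diagonal_mul, smul_eq_mul]
  have h3 : sg (om j.1 (ta c)) = c * om (j.1 + 1) (ta c) := by
    rw [om_succ', ← mul_assoc, mul_comm c, hc.1, one_mul]
  simp only [cm, Matrix.of_apply]
  split_ifs with h4 h5
  · have h6 := h1 (n + 1)
    rw [hc.2] at h6
    rw [h3, succ_last (h4.symm.trans h5), h5, Fin.val_zero, om_zero]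
    linear_combination c * h6
  · rw [h3, h4, succ_val (h4 ▸ h5), one_mul, mul_one]
  · simp

variable {M : Type} [Field M] [NumberField M] [G2 M] [OrdM n M]

theorem exists_Q : ∃ Q : Gl n M, cm n 1 * Q.1.map sg = Q.1 := by
  have hinj : Function.Injective fun i : Fin (n + 1) =>
      ((G2.σ ^ i.1 : Aut M) : M →* M) := fun i j h => by
    have h1 : (G2.σ ^ i.1 : Aut M) = G2.σ ^ j.1 := AlgEquiv.ext fun x => DFunLike.congr_fun h x
    refine Fin.ext (pow_injOn_Iio_orderOf ?_ ?_ h1)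
    · rw [OrdM.ord (n := n)]; exact i.2
    · rw [OrdM.ord (n := n)]; exact j.2
  have hli : LinearIndependent M fun (i : Fin (n + 1)) (x : M) => (G2.σ ^ i.1 : Aut M) x :=
    (linearIndependent_monoidHom M M).comp _ hinj
  have htop := span_flip_eq_top_iff_linearIndependent.2 hli
  have hex := Submodule.exists_fun_fin_finrank_span_eq M
    (Set.range (flip fun (i : Fin (n + 1)) (x : M) => (G2.σ ^ i.1 : Aut M) x))
  rw [htop, finrank_top, Module.finrank_fin_fun] at hex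
  obtain ⟨f, hf, -, hl⟩ := hex
  choose z hz using hf
  have hu : IsUnit (Matrix.of fun (i j : Fin (n + 1)) => (G2.σ ^ i.1 : Aut M) (z j)) := by
    refine linearIndependent_cols_iff_isUnit.1 ?_
    rw [← funext hz] at hl
    exact hl
  refine ⟨hu.unit, ?_⟩
  rw [hu.unit_spec]
  ext i j
  obtain ⟨l, rfl⟩ : ∃ l, i = l + 1 := ⟨i - 1, (sub_add_cancel i 1).symm⟩
  rw [Matrix.mul_apply, Finset.sum_eq_single l]
  · rw [Matrix.map_apply, Matrix.of_apply, Matrix.of_apply, ← sg_pow_eq, ← sg_pow_eq,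
      ← sg_pow_succ, cm, Matrix.of_apply, if_pos rfl, ite_self, one_mul]
    by_cases h : l + 1 = 0
    · rw [succ_last h, h, Ord.pow]
      rfl
    · rw [succ_val h]
  · intro b _ hb
    rw [cm, Matrix.of_apply, if_neg (fun h => hb (add_right_cancel h).symm), zero_mul]
  · simp

theorem exists_SD (k : Type) [Field k] [Algebra ℚ k] {r₀ : k} (hr : r₀ * r₀ = (G2.m M : ℤ))
    {β : Mˣ} (hβ : Par β) {c : k ⊗[ℚ] M} (hc : UN n (inc k M β.1) c) :
    ∃ S : SD n k (inc k M β.1), algebraMap k _ (2 * r₀) * S.e =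
      algebraMap k _ r₀ + inc k M G2.r ∧ r₀ ≠ 0 := by
  have : CharZero k := algebraRat.charZero k
  obtain ⟨Q, hQ⟩ := exists_Q (n := n) (M := M)
  obtain ⟨D, hD⟩ := exists_diag hc
  have hm : (G2.m M : ℤ) ≠ 0 := fun h => G2.r0 (M := M) (by
    have h1 := G2.rr (M := M)
    rw [h, Int.cast_zero] at h1
    exact pow_eq_zero_iff two_ne_zero |>.1 h1)
  have h0 : r₀ ≠ 0 := fun h => hm (by
    rw [h, mul_zero] at hr
    exact Int.cast_eq_zero.1 hr.symm)
  have hQ' : cm n 1 * (Q.1.map (inc k M)).map sg = Q.1.map (inc k M) := by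
    have h1 := congrArg (fun y : Mt n M => y.map (inc k M)) hQ
    simp only [Matrix.map_mul, cm_map, map_one] at h1
    exact h1
  obtain ⟨ret, hret⟩ := (Algebra.linearMap k (k ⊗[ℚ] M)).exists_leftInverse_of_injective
    (LinearMap.ker_eq_bot.2 (algebraMap k (k ⊗[ℚ] M)).injective)
  obtain ⟨a, ha⟩ : ∃ a, a = algebraMap k (k ⊗[ℚ] M) (2 * r₀)⁻¹ := ⟨_, rfl⟩
  obtain ⟨s, hs⟩ : ∃ s, s = algebraMap k (k ⊗[ℚ] M) r₀ := ⟨_, rfl⟩
  have sgk : ∀ t : k, sg (algebraMap k (k ⊗[ℚ] M) t) = algebraMap k _ t :=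
    fun t => (lact k G2.σ).commutes t
  have tak : ∀ t : k, ta (algebraMap k (k ⊗[ℚ] M) t) = algebraMap k _ t :=
    fun t => (lact k G2.τ).commutes t
  have has : a * (2 * s) = 1 := by
    rw [ha, hs, ← map_ofNat (algebraMap k (k ⊗[ℚ] M)) 2, ← map_mul, ← map_mul,
      inv_mul_cancel₀ (mul_ne_zero two_ne_zero h0), map_one]
  have hrr : inc k M G2.r * inc k M G2.r = s * s := by
    rw [hs, ← map_mul, ← map_mul, hr, ← sq, G2.rr, map_intCast, map_intCast]
  have hσ : sg (inc k M G2.r) = inc k M G2.r := congrArg (inc k M) G2.σr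
  have hτ : ta (inc k M G2.r) = -inc k M G2.r :=
    (congrArg (inc k M) G2.τr).trans (map_neg _ _)
  refine ⟨⟨D * GeneralLinearGroup.map (inc k M) Q, c, hc.1, ?_, fun x hx => ?_,
    a * (s + inc k M G2.r), ?_, ?_, ?_, sgk, tak, fun x => exists_algebraMap k, ret,
    fun t => DFunLike.congr_fun hret t⟩, ?_, h0⟩
  · show cm n _ * (D.1 * Q.1.map (inc k M)).map sg = c • (D.1 * Q.1.map (inc k M))
    rw [Matrix.map_mul, ← Matrix.mul_assoc, hD, Matrix.smul_mul, Matrix.mul_assoc, hQ']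
  · exact st_mem_Dal (hβ.map (twHom_inc k)) hx
  · linear_combination a * a * hrr + a * (s + inc k M G2.r) * has
  · rw [map_mul, map_add, hσ, ha, hs, sgk, sgk]
  · rw [map_mul, map_add, hτ, ha, hs, tak, tak, ← ha, ← hs]
    linear_combination has
  · show _ * (a * (s + inc k M G2.r)) = _
    rw [map_mul, map_ofNat, ← hs]
    linear_combination (s + inc k M G2.r) * has

section Top

variable {p : ℕ} [Fact p.Prime] {β : Ap p M} (S : SD n ℚ_[p] β)

omit [OrdM n M]

theorem continuous_st : Continuous (st : Mt n (Ap p M) → Mt n (Ap p M)) :=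
  (continuous_id.matrix_map (continuous_tf true)).matrix_transpose

theorem SD.continuous_x : Continuous S.x :=
  (continuous_const.matrix_mul (continuous_id.matrix_map (continuous_algebraMap _ _))).matrix_mul
    continuous_const

theorem SD.continuous_y : Continuous S.y :=
  ((S.continuous_x.comp Units.continuous_val).const_smul S.e).add
    ((continuous_st.comp (S.continuous_x.comp Units.continuous_coe_inv)).const_smul (1 - S.e))

theorem SD.continuous_ψ : Continuous S.ψ := by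
  have h : Continuous fun g => (S.ψ g).1 :=
    Units.continuous_iff.2 ⟨S.continuous_y, S.continuous_y.comp continuous_inv⟩
  exact Continuous.subtype_mk h _

theorem SD.continuous_lam : Continuous S.lam :=
  S.ret.continuous_of_finiteDimensional.comp ((continuous_const.mul continuous_id).add
    ((continuous_tf true).comp (continuous_const.mul continuous_id)))

theorem SD.continuous_φ : Continuous S.φ := by
  have h : Continuous fun u : Un n β => S.m u.1.1 :=
    ((continuous_const.matrix_mul (Units.continuous_val.comp continuous_subtype_val)).matrix_mul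
      continuous_const).matrix_map S.continuous_lam
  exact Units.continuous_iff.2 ⟨h, h.comp continuous_inv⟩

theorem SD.isOpenMap_ψ : IsOpenMap S.ψ :=
  IsOpenMap.of_inverse S.continuous_φ S.ψ_φ S.φ_ψ

end Top

end SplAux

open SplAux

variable {n : ℕ} {M : Type} [Field M] [NumberField M] [G2 M] [OrdM n M]

theorem exists_spl {p : Nat.Primes} (hp : Sp M p) {β : Mˣ} (hβ : Par β) {c : Ap p.1 M}
    (hc : UN n (inc ℚ_[p] M β.1) c) :
    ∃ (Ω : Type) (_ : Field Ω) (_ : Algebra ℚ_[p] Ω), Nonempty (Spl n (inc ℚ_[p] M β.1) Ω) := by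
  obtain ⟨r₀, hr⟩ := hp
  obtain ⟨S, -⟩ := exists_SD ℚ_[p] hr.symm hβ hc
  obtain ⟨I, hI, hle⟩ := exists_max_ideal_of_mem_nonunits (mem_nonunits_iff.2 S.not_unit)
  have hω : Ideal.Quotient.mkₐ ℚ_[p] I S.e = 1 := by
    have h := Ideal.Quotient.eq_zero_iff_mem.2 hle
    rw [map_sub, map_one, sub_eq_zero] at h
    exact h.symm
  let := Ideal.Quotient.field I
  refine ⟨Ap p.1 M ⧸ I, this, inferInstance, ⟨⟨⟨(QuotientGroup.mk' _).comp S.ψ,
    QuotientGroup.continuous_mk.comp S.continuous_ψ,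
    QuotientGroup.isOpenMap_coe.comp S.isOpenMap_ψ,
    QuotientGroup.mk_surjective.comp fun u => ⟨S.φ u, S.ψ_φ u⟩,
    fun g => (QuotientGroup.eq_one_iff _).trans (S.ker g)⟩, Ideal.Quotient.mkₐ ℚ_[p] I,
    GeneralLinearGroup.map (Ideal.Quotient.mk I) S.W, fun g u h => ?_⟩⟩⟩
  obtain ⟨a, ha⟩ : (S.ψ g)⁻¹ * u ∈ Zc n _ := QuotientGroup.eq.1 h
  have h1 : u.1.1 = a • S.y g := by
    have h2 : u = S.ψ g * ((S.ψ g)⁻¹ * u) := (mul_inv_cancel_left _ _).symm
    rw [h2, Subgroup.coe_mul, Units.val_mul, ha, Matrix.mul_smul, Matrix.mul_one, S.ψ_val]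
  refine ⟨Ideal.Quotient.mkₐ ℚ_[p] I a, fun h0 => ?_, ?_⟩
  · have h2 := map_mul_inv (Ideal.Quotient.mkₐ ℚ_[p] I) u.1
    rw [h1, map_smul_ring, h0, zero_smul, Matrix.zero_mul] at h2
    have h3 := congrFun (congrFun h2 0) 0
    rw [Matrix.zero_apply, Matrix.one_apply_eq] at h3
    exact hI.ne_top (Ideal.Quotient.zero_eq_one_iff.1 h3)
  · show u.1.1.map (Ideal.Quotient.mkₐ ℚ_[p] I) * S.W.1.map (Ideal.Quotient.mkₐ ℚ_[p] I) =
      _ • (S.W.1.map (Ideal.Quotient.mkₐ ℚ_[p] I) * _)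
    rw [h1, map_smul_ring, S.map_y _ hω, Matrix.smul_mul, Matrix.mul_assoc, map_inv_mul,
      Matrix.mul_one]

theorem ev_surj {β : Mˣ} (hβ : Par β) {c : ℝ ⊗[ℚ] M} (hc : UN n (inc ℝ M β.1) c) (g : Gl n ℝ) :
    ∃ u : Un n (inc ℝ M β.1), u.1.1.map (ev M) = g.1 := by
  have hr : G2.φ (G2.r : M) * G2.φ (G2.r : M) = (G2.m M : ℤ) := by
    rw [← map_mul, ← sq, G2.rr, map_intCast]
  obtain ⟨S, hS, h0⟩ := exists_SD ℝ hr hβ hc
  have hω : ev M S.e = 1 := by
    have h := congrArg (ev M) hS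
    rw [map_mul, map_add, AlgHom.commutes, AlgHom.commutes, ev_inc] at h
    refine mul_left_cancel₀ (mul_ne_zero two_ne_zero h0) (h.trans ?_)
    show G2.φ (G2.r : M) + _ = _
    ring
  obtain ⟨W, hW⟩ : ∃ W : Gl n ℝ, W = GeneralLinearGroup.map (ev M).toRingHom S.W := ⟨_, rfl⟩
  have h1 : S.W.1.map (ev M) = W.1 := by rw [hW]; rfl
  have h2 : (S.W⁻¹).1.map (ev M) = (W⁻¹).1 := by rw [hW]; rfl
  refine ⟨S.ψ (W⁻¹ * g * W), ?_⟩
  rw [S.ψ_val, S.map_y _ hω, h1, h2]
  show W.1 * (W⁻¹ * g * W).1 * (W⁻¹).1 = g.1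
  rw [← Units.val_mul, ← Units.val_mul]
  congr 1
  group

end Pool.Agent.P.MP_3c2f8c_gt.AO
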