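import Pool.Agent.P.MP_3c2f8c_gt.AO.SDefsX

/-! The Laplacian of the cone of positive definite matrices on functions of degree zero. -/

namespace Pool.Agent.P.MP_3c2f8c_gt.SA

open Matrix Topology

variable {n : ℕ}

/-- Real square matrices. -/
abbrev MR (n : ℕ) : Type := Matrix (Fin (n + 1)) (Fin (n + 1)) ℝ

/-- The symmetric matrix as a linear map. -/
def symL : (Sy n → ℝ) →ₗ[ℝ] MR n where
  toFun := sym
  map_add' _ _ := rfl
  map_smul' _ _ := rfl

/-- The coordinates of a matrix. -/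
def cs : MR n →ₗ[ℝ] (Sy n → ℝ) where
  toFun X a := X a.1.1 a.1.2
  map_add' _ _ := rfl
  map_smul' _ _ := rfl

theorem cs_apply (X : MR n) (a : Sy n) : cs X a = X a.1.1 a.1.2 := rfl

theorem sym_smul (c : ℝ) (x : Sy n → ℝ) : sym (c • x) = c • sym x := rfl

theorem cs_sym (x : Sy n → ℝ) : cs (sym x) = x := funext fun a =>
  congrArg x (Subtype.ext (Prod.ext (min_eq_left a.2) (max_eq_right a.2)))

theorem sym_comm (x : Sy n → ℝ) (i j : Fin (n + 1)) : sym x i j = sym x j i :=
  congrArg x (Subtype.ext (Prod.ext (min_comm _ _) (max_comm _ _)))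

theorem sym_tr (x : Sy n → ℝ) : (sym x)ᵀ = sym x := Matrix.ext fun i j => sym_comm x j i

theorem sym_cs {X : MR n} (h : Xᵀ = X) : sym (cs X) = X := by
  ext i j
  show X (min i j) (max i j) = _
  rcases le_total i j with e | e
  · rw [min_eq_left e, max_eq_right e]
  · rw [min_eq_right e, max_eq_left e, ← transpose_apply X, h]

theorem sym_single (a : Sy n) (u : Fin (n + 1)) :
    sym (Pi.single a 1) a.1.1 u = (if u = a.1.2 then 1 else 0) ∧
      sym (Pi.single a 1) u a.1.2 = if u = a.1.1 then 1 else 0 := by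
  obtain ⟨⟨i, j⟩, h⟩ := a
  constructor <;>
  · refine (Pi.single_apply _ _ _).trans (if_congr (Subtype.ext_iff.trans ?_) rfl rfl)
    simp only [Prod.ext_iff, Fin.ext_iff, Fin.le_def, Fin.coe_min, Fin.coe_max] at h ⊢
    omega

theorem sum_Sy (g : Fin (n + 1) → ℝ) :
    ∑ a : Sy n, (g a.1.1 + g a.1.2) = (n + 2) * ∑ k, g k := by
  have h1 : ∀ f : Fin (n + 1) → Fin (n + 1) → ℝ, ∑ a : Sy n, f a.1.1 a.1.2 =
      ∑ i, ∑ j, if i ≤ j then f i j else 0 := fun f => by
    rw [← Fintype.sum_prod_type', ← Finset.sum_filter]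
    exact (Finset.sum_subtype (F := inferInstance) _ (fun x => by simp)
      fun x : Fin (n + 1) × Fin (n + 1) => f x.1 x.2).symm
  rw [Finset.sum_add_distrib, h1 fun i _ => g i, h1 fun _ j => g j, Finset.sum_comm (f := fun i j =>
    if i ≤ j then g j else 0), ← Finset.sum_add_distrib, Finset.mul_sum]
  refine Finset.sum_congr rfl fun i _ => ?_
  rw [← Finset.sum_add_distrib, Finset.sum_congr (g := fun j => g i + if j = i then g i else 0) rfl
    fun j _ => by
      rcases lt_trichotomy i j with h | h | h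
      · simp [h.le, h.not_ge, h.ne']
      · simp [h]
      · simp [h.le, h.not_ge, h.ne]]
  simp [Finset.sum_add_distrib]
  ring

/-- The polar form of the inverse metric. -/
noncomputable def Bm (V X : MR n) : Matrix (Sy n) (Sy n) ℝ := Matrix.of fun a b =>
  (V a.1.1 b.1.1 * X a.1.2 b.1.2 + V a.1.1 b.1.2 * X a.1.2 b.1.1) / 2

theorem Bm_pair (V X : MR n) {Z : MR n} (hZ : Zᵀ = Z) (a : Sy n) :
    ∑ c, Bm V X a c * (sym (Pi.single c 1) * Z).trace = (V * Z * Xᵀ) a.1.1 a.1.2 := by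
  let W : MR n := Matrix.of fun p q => (V a.1.1 p * X a.1.2 q + V a.1.1 q * X a.1.2 p) / 2
  have h1 : sym (cs W) = W := sym_cs (Matrix.ext fun p q => by
    simp only [W, transpose_apply, of_apply]
    ring)
  have h2 : sym (cs W) = ∑ c, Bm V X a c • sym (Pi.single c 1) := by
    show symL _ = _
    rw [pi_eq_sum_univ' (cs W), map_sum]
    exact Finset.sum_congr rfl fun c _ => map_smul _ _ _
  have h3 : ∑ c, Bm V X a c * (sym (Pi.single c 1) * Z).trace = (W * Z).trace := by
    rw [← h1, h2, Finset.sum_mul, trace_sum]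
    simp only [Matrix.smul_mul, trace_smul, smul_eq_mul]
  have h4 : ∀ p q, Z q p = Z p q := fun p q => by rw [← transpose_apply Z, hZ]
  have h5 : (V * Z * Xᵀ) a.1.1 a.1.2 = ∑ p, ∑ q, V a.1.1 q * X a.1.2 p * Z q p := by
    simp only [mul_apply, transpose_apply, Finset.sum_mul]
    exact Finset.sum_congr rfl fun p _ => Finset.sum_congr rfl fun q _ => by ring
  have h6 : (W * Z).trace = (∑ p, ∑ q, V a.1.1 p * X a.1.2 q * Z p q +
      ∑ p, ∑ q, V a.1.1 q * X a.1.2 p * Z q p) / 2 := by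
    simp only [Matrix.trace, diag_apply, mul_apply, ← Finset.sum_add_distrib, Finset.sum_div]
    refine Finset.sum_congr rfl fun p _ => Finset.sum_congr rfl fun q _ => ?_
    rw [← h4 p q]
    simp only [W, of_apply]
    ring
  rw [h3, h6, Finset.sum_comm, h5]
  ring

theorem gm_eq (x : Sy n → ℝ) (c a : Sy n) : gm x c a =
    (sym (Pi.single c 1) * ((sym x)⁻¹ * sym (Pi.single a 1) * (sym x)⁻¹)).trace := by
  rw [gm, of_apply, Matrix.mul_assoc, Matrix.mul_assoc, trace_mul_comm]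
  simp only [Matrix.mul_assoc]

theorem Bm_mul_gm (V X : MR n) (x : Sy n → ℝ) (a b : Sy n) : (Bm V X * gm x) a b =
    (V * ((sym x)⁻¹ * sym (Pi.single b 1) * (sym x)⁻¹) * Xᵀ) a.1.1 a.1.2 := by
  simp only [mul_apply (M := Bm V X), gm_eq]
  refine Bm_pair V X ?_ a
  rw [transpose_mul, transpose_mul, transpose_nonsing_inv, sym_tr, sym_tr, Matrix.mul_assoc]

variable {x : Sy n → ℝ}

theorem U_mul_gm (hx : IsUnit (sym x).det) : Bm (sym x) (sym x) * gm x = 1 := by
  ext a b
  rw [Bm_mul_gm, sym_tr, Matrix.mul_assoc, Matrix.mul_assoc, nonsing_inv_mul _ hx, Matrix.mul_one,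
    mul_nonsing_inv_cancel_left _ _ hx, one_apply, ← Pi.single_apply]
  exact congrFun (cs_sym _) a

theorem trace_gm (hx : IsUnit (sym x).det) (V : MR n) (hV : Vᵀ = V) :
    (gm x * (Bm V (sym x) + Bm (sym x) V)).trace = (n + 2) * (V * (sym x)⁻¹).trace := by
  rw [trace_mul_comm, Matrix.trace, Matrix.trace, ← sum_Sy]
  refine Finset.sum_congr rfl fun a _ => ?_
  have e : (sym x)⁻¹ * V = (V * (sym x)⁻¹)ᵀ := by
    rw [transpose_mul, transpose_nonsing_inv, sym_tr, hV]
  rw [diag_apply, Matrix.add_mul, Matrix.add_apply, Bm_mul_gm, Bm_mul_gm, sym_tr, hV,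
    Matrix.mul_assoc V, Matrix.mul_assoc _ _ (sym x), nonsing_inv_mul _ hx, Matrix.mul_one,
    Matrix.mul_assoc (sym x)⁻¹, mul_nonsing_inv_cancel_left _ _ hx, ← Matrix.mul_assoc V,
    Matrix.mul_assoc _ _ V, e, mul_apply, mul_apply]
  simp [(sym_single a _).1, (sym_single a _).2]

theorem Bm_eq (h : MR n) (a b : Sy n) : Bm (h * hᵀ) (h * hᵀ) a b = ∑ kl : Fin (n + 1) × Fin (n + 1),
    cs (h * (single kl.1 kl.2 1 + single kl.2 kl.1 1) * hᵀ) a / 2 *
      (cs (h * (single kl.1 kl.2 1 + single kl.2 kl.1 1) * hᵀ) b / 2) := by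
  have e : ∀ k l i j, (h * (single k l 1 + single l k 1) * hᵀ : MR n) i j =
      h i k * h j l + h i l * h j k := fun k l i j => by
    simp [Matrix.mul_add, add_mul, Finset.sum_add_distrib, mul_apply, single_apply, ite_and]
  simp only [cs_apply, e, Bm, of_apply, mul_apply, transpose_apply, Finset.sum_mul_sum,
    Fintype.sum_prod_type]
  have e2 : ∀ f : Fin (n + 1) → Fin (n + 1) → ℝ,
      ∑ k, ∑ l, f k l = ∑ k, ∑ l, (f k l + f l k) / 2 := fun f => by
    simp only [← Finset.sum_div, Finset.sum_add_distrib]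
    rw [Finset.sum_comm (f := fun k l => f l k)]
    ring
  rw [← Finset.sum_add_distrib, Finset.sum_div]
  simp only [← Finset.sum_add_distrib, Finset.sum_div]
  rw [e2]
  exact Finset.sum_congr rfl fun k _ => Finset.sum_congr rfl fun l _ => by ring

open scoped MatrixOrder in
theorem exists_sq (hx : x ∈ cone n) : ∃ h : GL (Fin (n + 1)) ℝ, sym x = h.1 * h.1ᵀ := by
  obtain ⟨B, ⟨h, rfl⟩, e⟩ := CStarAlgebra.isStrictlyPositive_iff_eq_mul_star_self.1
    (PosDef.isStrictlyPositive hx)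
  exact ⟨h, e⟩

theorem det_U_pos (hx : x ∈ cone n) : 0 < (Bm (sym x) (sym x)).det := by
  obtain ⟨h, e⟩ := exists_sq hx
  have h1 : (Bm (sym x) (sym x)).PosSemidef := by
    have h2 := posSemidef_self_mul_conjTranspose (Matrix.of fun a (kl : Fin (n + 1) × Fin (n + 1)) =>
      cs (h.1 * (single kl.1 kl.2 1 + single kl.2 kl.1 1) * h.1ᵀ) a / 2)
    rw [e]
    exact (Matrix.ext fun a b => (Bm_eq h.1 a b).symm : _ = Bm _ _) ▸ h2
  have h2 := congrArg det (U_mul_gm (PosDef.det_pos hx).ne'.isUnit)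
  rw [det_mul, det_one] at h2
  exact h1.det_nonneg.lt_of_ne' (left_ne_zero_of_mul_eq_one h2)

theorem jacobi {κ E : Type} [Fintype κ] [DecidableEq κ] [NormedAddCommGroup E] [NormedSpace ℝ E]
    {A : E → Matrix κ κ ℝ} {x : E} (hA : ∀ i j, DifferentiableAt ℝ (fun y => A y i j) x)
    (h : IsUnit (A x).det) : DifferentiableAt ℝ (fun y => (A y).det) x ∧ ∀ v,
      fderiv ℝ (fun y => (A y).det) x v =
        (A x).det * ((A x)⁻¹ * Matrix.of fun i j => fderiv ℝ (fun y => A y i j) x v).trace := by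
  have h1 : Differentiable ℝ fun M : κ → κ → ℝ => (Matrix.of M).det := by
    simp only [det_apply', of_apply]
    fun_prop
  have h2 : HasFDerivAt (fun y i j => A y i j) (ContinuousLinearMap.pi fun i =>
      ContinuousLinearMap.pi fun j => fderiv ℝ (fun y => A y i j) x) x :=
    hasFDerivAt_pi.2 fun i => hasFDerivAt_pi.2 fun j => (hA i j).hasFDerivAt
  have h3 := (h1 _).hasFDerivAt.comp x h2
  refine ⟨h3.differentiableAt, fun v => (DFunLike.congr_fun h3.fderiv v).trans ?_⟩
  generalize hN : (Matrix.of fun i j => fderiv ℝ (fun y => A y i j) x v) = N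
  have h4 := (h1 fun i j => A x i j).hasFDerivAt.comp_hasDerivAt_of_eq (0 : ℝ)
    (((hasDerivAt_id' (0 : ℝ)).smul_const fun i j => N i j).const_add fun i j => A x i j) (by simp)
  obtain ⟨q, hq⟩ : ∃ q : Polynomial ℝ, ∀ t : ℝ, (A x + t • N).det =
      (A x).det * (1 + ((A x)⁻¹ * N).trace * t + q.eval t * t ^ 2) := ⟨_, fun t => by
    rw [← det_one_add_smul, ← det_mul, Matrix.mul_add, Matrix.mul_one, Matrix.mul_smul,
      mul_nonsing_inv_cancel_left _ _ h]⟩
  have h5 := (((((hasDerivAt_id' (0 : ℝ)).const_mul ((A x)⁻¹ * N).trace).const_add 1).add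
    ((q.hasDerivAt 0).mul (hasDerivAt_pow 2 (0 : ℝ)))).const_mul (A x).det)
  have h6 := h4.unique (h5.congr_of_eventuallyEq (Filter.Eventually.of_forall hq))
  rw [one_smul] at h6
  simp only [mul_one, ne_eq, OfNat.ofNat_ne_zero, not_false_eq_true, zero_pow, mul_zero,
    Nat.add_one_sub_one, pow_one, add_zero] at h6
  rw [← h6, ← hN]
  rfl

end Pool.Agent.P.MP_3c2f8c_gt.SA
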