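import Pool.Agent.P.MP_3c2f8c_gt.AO.XA

/-! Charts of the cone, the Laplacian at a point `h hᵀ`, the radial projection. -/

namespace Pool.Agent.P.MP_3c2f8c_gt.SA

open Matrix Topology NormedSpace

variable {n : ℕ} {x : Sy n → ℝ} {F : (Sy n → ℝ) → ℝ}

/-- The exponential as an invertible matrix. -/
noncomputable def exG (X : MR n) : GL (Fin (n + 1)) ℝ :=
  ⟨exp X, exp (-X), by
    rw [← Matrix.exp_add_of_commute _ _ (Commute.refl X).neg_right, add_neg_cancel, exp_zero], by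
    rw [← Matrix.exp_add_of_commute _ _ (Commute.refl X).neg_left, neg_add_cancel, exp_zero]⟩

/-- The coordinates of `h X hᵀ`. -/
def cg (h : MR n) : MR n →ₗ[ℝ] (Sy n → ℝ) :=
  cs ∘ₗ LinearMap.mulRight ℝ hᵀ ∘ₗ LinearMap.mulLeft ℝ h

theorem cg_apply (h X : MR n) : cg h X = cs (h * X * hᵀ) := rfl

theorem cg_mul (h k X : MR n) : cg (h * k) X = cg h (k * X * kᵀ) := by
  simp only [cg_apply, transpose_mul, Matrix.mul_assoc]

theorem sym_cg (h : MR n) {X : MR n} (hX : Xᵀ = X) : sym (cg h X) = h * X * hᵀ :=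
  sym_cs (X := h * X * hᵀ) (by
    rw [transpose_mul, transpose_mul, transpose_transpose, hX, Matrix.mul_assoc])

theorem cg_mem (h : GL (Fin (n + 1)) ℝ) : cg h.1 1 ∈ cone n := by
  show PosDef _
  rw [sym_cg _ transpose_one]
  exact PosDef.one.mul_mul_conjTranspose_same (vecMul_injective_of_isUnit h.isUnit)

theorem exists_cg (hx : x ∈ cone n) : ∃ h : GL (Fin (n + 1)) ℝ, cg h.1 1 = x :=
  (exists_sq hx).imp fun h e => by rw [cg_apply, Matrix.mul_one, ← e, cs_sym]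

theorem cg_exp (h : GL (Fin (n + 1)) ℝ) (v : Sy n → ℝ) :
    cg h.1 (exp (sym v)) = cg (h * exG ((1 / 2 : ℝ) • sym v)).1 1 := by
  rw [Units.val_mul, cg_mul, Matrix.mul_one]
  show _ = cg h.1 (exp _ * (exp _)ᵀ)
  rw [← Matrix.exp_transpose, transpose_smul, sym_tr,
    ← Matrix.exp_add_of_commute _ _ (Commute.refl _), ← add_smul, add_halves, one_smul]

open scoped Matrix.Norms.Operator in
theorem exp_aux (A : MR n →ₗ[ℝ] (Sy n → ℝ)) :
    ContDiffAt ℝ (⊤ : ℕ∞) (fun v => A (exp (sym v))) 0 ∧ HasFDerivAt (fun v => A (exp (sym v)))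
      (LinearMap.toContinuousLinearMap (A ∘ₗ symL)) 0 := by
  let A' := LinearMap.toContinuousLinearMap A
  let S := LinearMap.toContinuousLinearMap (symL (n := n))
  have h0 : HasFDerivAt (exp : MR n → MR n) (1 : MR n →L[ℝ] MR n) (S 0) := by
    rw [map_zero]
    exact hasFDerivAt_exp_zero
  have h1 : ContDiffAt ℝ (⊤ : ℕ∞) (exp : MR n → MR n) (S 0) := (exp_analytic (𝕂 := ℝ) _).contDiffAt
  have h2 := A'.contDiff.contDiffAt.comp 0 (h1.comp 0 S.contDiff.contDiffAt)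
  have h3 := A'.hasFDerivAt.comp 0 (h0.comp 0 S.hasFDerivAt)
  exact ⟨h2, h3⟩

/-- A smooth local section of the exponential chart. -/
theorem exists_sec (h : GL (Fin (n + 1)) ℝ) : ∃ ψ : (Sy n → ℝ) → Sy n → ℝ,
    ContDiffAt ℝ (⊤ : ℕ∞) ψ (cg h.1 1) ∧ ∀ᶠ y in 𝓝 (cg h.1 1), cg h.1 (exp (sym (ψ y))) = y := by
  have e : ∀ k : GL (Fin (n + 1)) ℝ,
      (cg k.1 ∘ₗ symL) ∘ₗ (cg (k⁻¹).1 ∘ₗ symL) = LinearMap.id := fun k => LinearMap.ext fun v => by
    show cg k.1 (sym (cg (k⁻¹).1 (sym v))) = v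
    rw [sym_cg _ (sym_tr v), ← cg_mul, Units.mul_inv, cg_apply, transpose_one, Matrix.mul_one,
      Matrix.one_mul, cs_sym]
  obtain ⟨h1, h2⟩ := exp_aux (cg h.1)
  have h3 : HasFDerivAt (fun v => cg h.1 (exp (sym v))) ((LinearEquiv.ofLinearMap _ _ (e h)
    (e h⁻¹)).toContinuousLinearEquiv : (Sy n → ℝ) →L[ℝ] Sy n → ℝ) 0 := h2
  have h4 := h1.to_localInverse h3 (by simp)
  have h5 := (h1.hasStrictFDerivAt' h3 (by simp)).eventually_right_inverse
  beta_reduce at h4 h5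
  rw [show sym (0 : Sy n → ℝ) = 0 from rfl, exp_zero] at h4 h5
  exact ⟨_, h4, h5⟩

theorem cone_nhds (hx : x ∈ cone n) : cone n ∈ 𝓝 x := by
  obtain ⟨h, rfl⟩ := exists_cg hx
  obtain ⟨ψ, -, h1⟩ := exists_sec h
  refine h1.mono fun y hy => ?_
  rw [← hy, cg_exp]
  exact cg_mem _

theorem lin_sum {W : Type} [NormedAddCommGroup W] [NormedSpace ℝ W] (L : (Sy n → ℝ) →L[ℝ] W)
    (u : Sy n → ℝ) : L u = ∑ a, u a • L (Pi.single a 1) := by
  conv_lhs => rw [pi_eq_sum_univ' u]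
  rw [map_sum]
  exact Finset.sum_congr rfl fun a _ => map_smul L _ _

theorem euler (hF : ContDiffOn ℝ (⊤ : ℕ∞) F (cone n))
    (h0 : ∀ t : ℝ, 0 < t → ∀ x ∈ cone n, F (t • x) = F x) (hx : x ∈ cone n) :
    fderiv ℝ F x x = 0 := by
  have hd : HasFDerivAt F (fderiv ℝ F x) ((1 : ℝ) • x) := by
    rw [one_smul]
    exact ((hF.contDiffAt (cone_nhds hx)).differentiableAt (by simp)).hasFDerivAt
  have h1 := hd.comp_hasDerivAt (1 : ℝ) ((hasDerivAt_id' (1 : ℝ)).smul_const x)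
  rw [one_smul] at h1
  refine h1.unique ((hasDerivAt_const (1 : ℝ) (F x)).congr_of_eventuallyEq ?_)
  filter_upwards [lt_mem_nhds (zero_lt_one' ℝ)] with t ht
  exact h0 t ht x hx

theorem hasFDerivAt_two (hF : ContDiffOn ℝ (⊤ : ℕ∞) F (cone n)) (hx : x ∈ cone n) :
    HasFDerivAt (fderiv ℝ F) (fderiv ℝ (fderiv ℝ F) x) x :=
  (((hF.contDiffAt (cone_nhds hx)).fderiv_right (m := 1) (by norm_cast)).differentiableAt
    (by simp)).hasFDerivAt

theorem euler_two (hF : ContDiffOn ℝ (⊤ : ℕ∞) F (cone n))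
    (h0 : ∀ t : ℝ, 0 < t → ∀ x ∈ cone n, F (t • x) = F x) (hx : x ∈ cone n) (v : Sy n → ℝ) :
    fderiv ℝ (fderiv ℝ F) x v x + fderiv ℝ F x v = 0 := by
  have h1 := ((hasFDerivAt_two hF hx).clm_apply (hasFDerivAt_id x)).unique
    ((hasFDerivAt_const (0 : ℝ) x).congr_of_eventuallyEq
      (Filter.mem_of_superset (cone_nhds hx) fun y hy => euler hF h0 hy))
  simpa [add_comm] using DFunLike.congr_fun h1 v

theorem fderiv_U (x : Sy n → ℝ) (a b : Sy n) :
    DifferentiableAt ℝ (fun y => Bm (sym y) (sym y) a b) x ∧ ∀ v, fderiv ℝ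
      (fun y => Bm (sym y) (sym y) a b) x v = (Bm (sym v) (sym x) + Bm (sym x) (sym v)) a b := by
  have h : ∀ i j, HasFDerivAt (fun y : Sy n → ℝ => sym y i j) (ContinuousLinearMap.proj (R := ℝ)
      (φ := fun _ : Sy n => ℝ) ⟨(min i j, max i j), min_le_max⟩) x := fun i j => hasFDerivAt_apply _ _
  have h1 : HasFDerivAt (fun y => Bm (sym y) (sym y) a b) _ x :=
    (((h a.1.1 b.1.1).mul (h a.1.2 b.1.2)).add ((h a.1.1 b.1.2).mul (h a.1.2 b.1.1))).mul_const 2⁻¹
  refine ⟨h1.differentiableAt, fun v => ?_⟩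
  rw [h1.fderiv]
  simp only [_root_.add_apply, _root_.smul_apply, ContinuousLinearMap.proj_apply, smul_eq_mul,
    Matrix.add_apply, Bm, of_apply, sym]
  ring

theorem lapC_eq (hF : ContDiffOn ℝ (⊤ : ℕ∞) F (cone n))
    (h0 : ∀ t : ℝ, 0 < t → ∀ x ∈ cone n, F (t • x) = F x) (hx : x ∈ cone n) :
    lapC F x = ∑ a, ∑ b, Bm (sym x) (sym x) a b *
      fderiv ℝ (fderiv ℝ F) x (Pi.single a 1) (Pi.single b 1) := by
  have hu : ∀ y ∈ cone n, Bm (sym y) (sym y) * gm y = 1 := fun y hy =>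
    U_mul_gm (PosDef.det_pos hy).ne'.isUnit
  have hρ : ∀ y ∈ cone n, √(gm y).det = (√(Bm (sym y) (sym y)).det)⁻¹ := fun y hy => by
    rw [← inv_eq_right_inv (hu y hy), det_nonsing_inv, Ring.inverse_eq_inv, Real.sqrt_inv]
  have hp := det_U_pos hx
  have hs := Real.sqrt_pos.2 hp
  obtain ⟨h1, h2⟩ := jacobi (fun a b => (fderiv_U x a b).1) hp.ne'.isUnit
  have h3 := (hasDerivAt_inv hs.ne').comp_hasFDerivAt x (h1.hasFDerivAt.sqrt hp.ne')
  have h4 : ∀ b : Sy n, HasFDerivAt (fun y => fderiv ℝ F y (Pi.single b 1))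
      ((fderiv ℝ (fderiv ℝ F) x).flip (Pi.single b 1)) x := fun b => by
    simpa using (hasFDerivAt_two hF hx).clm_apply (hasFDerivAt_const (Pi.single b 1) x)
  have he : ∑ b, x b * pd b F x = 0 := by
    rw [← euler hF h0 hx, lin_sum]
    rfl
  have hb : ∀ b : Sy n, sym x b.1.1 b.1.2 = x b := congrFun (cs_sym x)
  have s1 : ∀ b, ∑ a, fderiv ℝ (fun y => Bm (sym y) (sym y) a b) x (Pi.single a 1) =
      (n + 2) * x b := fun b => by
    have h5 := sum_Sy fun k => ((if b.1.1 = k then sym x k b.1.2 else 0) +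
      if b.1.2 = k then sym x k b.1.1 else 0) / 2
    have h6 : ∑ k, ((if b.1.1 = k then sym x k b.1.2 else 0) +
        if b.1.2 = k then sym x k b.1.1 else 0) / 2 = x b := by
      rw [← Finset.sum_div, Finset.sum_add_distrib, Finset.sum_ite_eq, Finset.sum_ite_eq,
        if_pos (Finset.mem_univ _), if_pos (Finset.mem_univ _), sym_comm x b.1.2, add_self_div_two,
        hb]
    rw [← h6, ← h5]
    refine Finset.sum_congr rfl fun a _ => ?_
    rw [(fderiv_U x a b).2]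
    simp only [Matrix.add_apply, Bm, of_apply, (sym_single a _).1,
      sym_comm (Pi.single a 1) a.1.2, (sym_single a _).2]
    split_ifs <;> ring
  have s2 : ∀ b, ∑ a, Bm (sym x) (sym x) a b * fderiv ℝ (fun y => (Bm (sym y) (sym y)).det) x
      (Pi.single a 1) = (Bm (sym x) (sym x)).det * ((n + 2) * x b) := fun b => by
    have h5 := lin_sum (fderiv ℝ (fun y => (Bm (sym y) (sym y)).det) x)
      fun a => Bm (sym x) (sym x) a b
    have h6 : (fun a => Bm (sym x) (sym x) a b) =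
        cg (sym x) ((1 / 2 : ℝ) • (single b.1.1 b.1.2 1 + single b.1.2 b.1.1 1)) := funext fun a => by
      simp [cg_apply, cs_apply, Bm, Matrix.mul_add, add_mul, mul_apply,
        single_apply, ite_and]
      ring
    rw [h2, inv_eq_right_inv (hu x hx)] at h5
    refine h5.symm.trans (congrArg _ ?_)
    have h7 : ∀ v, (Matrix.of fun i j => fderiv ℝ (fun y => Bm (sym y) (sym y) i j) x v) =
        Bm (sym v) (sym x) + Bm (sym x) (sym v) :=
      fun v => Matrix.ext fun i j => (fderiv_U x i j).2 _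
    rw [h7, trace_gm (PosDef.det_pos hx).ne'.isUnit _ (sym_tr _), h6, sym_cg _ (by
        rw [transpose_smul, transpose_add, transpose_single, transpose_single,
          add_comm (single _ _ _)]), sym_tr,
      mul_nonsing_inv_cancel_right _ _ (PosDef.det_pos hx).ne'.isUnit]
    simp [Matrix.mul_add, trace_mul_single, sym_comm x b.1.2, hb]
    exact Or.inl (by ring)
  have key : ∀ a, pd a (fun y => √(gm y).det * ∑ b, (gm y)⁻¹ a b * pd b F y) x =
      (√(Bm (sym x) (sym x)).det)⁻¹ * (∑ b, Bm (sym x) (sym x) a b *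
        fderiv ℝ (fderiv ℝ F) x (Pi.single a 1) (Pi.single b 1) +
        ∑ b, fderiv ℝ (fun y => Bm (sym y) (sym y) a b) x (Pi.single a 1) * pd b F x -
        (2 * (Bm (sym x) (sym x)).det)⁻¹ * ∑ b, Bm (sym x) (sym x) a b *
          fderiv ℝ (fun y => (Bm (sym y) (sym y)).det) x (Pi.single a 1) * pd b F x) := fun a => by
    have h5 := h3.fun_mul (HasFDerivAt.fun_sum (u := Finset.univ) fun b _ =>
      (fderiv_U x a b).1.hasFDerivAt.fun_mul (h4 b))
    have h6 := (h5.congr_of_eventuallyEq (f₁ := fun y => √(gm y).det * ∑ b, (gm y)⁻¹ a b * pd b F y)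
      (Filter.mem_of_superset (cone_nhds hx) fun y hy => by
        show √(gm y).det * _ = _
        rw [hρ y hy, inv_eq_left_inv (hu y hy)]
        rfl)).fderiv
    rw [pd, h6]
    simp only [_root_.add_apply, _root_.smul_apply, _root_.sum_apply,
      ContinuousLinearMap.flip_apply, smul_eq_mul, Function.comp_apply, Finset.sum_add_distrib,
      mul_right_comm _ _ (pd _ F x), ← Finset.sum_mul, mul_comm (fderiv ℝ F x _)]
    have h7 := Real.mul_self_sqrt hp.le
    unfold pd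
    generalize √(Bm (sym x) (sym x)).det = r at hs h7 ⊢
    rw [← h7]
    field_simp
    ring
  rw [lapC, Finset.sum_congr rfl fun a _ => key a, ← Finset.mul_sum, hρ x hx, inv_inv,
    mul_inv_cancel_left₀ hs.ne', Finset.sum_sub_distrib, Finset.sum_add_distrib, ← Finset.mul_sum,
    Finset.sum_comm (f := fun a b => _ * pd b F x),
    Finset.sum_comm (f := fun a b => Bm (sym x) (sym x) a b * _ * pd b F x)]
  simp only [← Finset.sum_mul, s1, s2]
  simp only [mul_assoc, ← Finset.mul_sum, he, mul_zero, add_zero,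
    sub_zero]

theorem lapC_cg (hF : ContDiffOn ℝ (⊤ : ℕ∞) F (cone n))
    (h0 : ∀ t : ℝ, 0 < t → ∀ x ∈ cone n, F (t • x) = F x) (h : GL (Fin (n + 1)) ℝ) :
    4 * lapC F (cg h.1 1) = ∑ k, ∑ l, fderiv ℝ (fderiv ℝ F) (cg h.1 1)
      (cg h.1 (single k l 1 + single l k 1)) (cg h.1 (single k l 1 + single l k 1)) := by
  rw [lapC_eq hF h0 (cg_mem h), sym_cg _ transpose_one, Matrix.mul_one, ← Fintype.sum_prod_type',
    ← Fintype.sum_prod_type']
  simp only [Bm_eq, Finset.sum_mul, Finset.mul_sum]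
  rw [Finset.sum_comm]
  refine Finset.sum_congr rfl fun kl _ => ?_
  rw [Fintype.sum_prod_type, lin_sum (fderiv ℝ (fderiv ℝ F) (cg h.1 1)) (cg _ _), _root_.sum_apply]
  refine Finset.sum_congr rfl fun a _ => ?_
  rw [_root_.smul_apply, lin_sum (fderiv ℝ (fderiv ℝ F) (cg h.1 1) _) (cg _ _), smul_eq_mul,
    Finset.mul_sum]
  refine Finset.sum_congr rfl fun b _ => ?_
  rw [smul_eq_mul, cg_apply _ (_ + _)]
  ring

theorem rad_smul (hx : x ∈ cone n) {c : ℝ} (hc : 0 < c) : rad (c • x) = rad x := by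
  have h1 : ((n + 1 : ℕ) : ℝ) * -(1 / (n + 1)) = -1 := by
    push_cast
    field_simp
  rw [rad, rad, sym_smul, det_smul, Fintype.card_fin,
    Real.mul_rpow (by positivity) (PosDef.det_pos hx).le, ← Real.rpow_natCast,
    ← Real.rpow_mul hc.le, h1, Real.rpow_neg_one, smul_smul, mul_right_comm,
    inv_mul_cancel₀ hc.ne', one_mul]

theorem rad_mem (hx : x ∈ cone n) : rad x ∈ cone n ∧ (sym (rad x)).det = 1 := by
  have h0 := PosDef.det_pos hx
  have h1 : -(1 / (n + 1) : ℝ) * ((n + 1 : ℕ) : ℝ) = -1 := by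
    push_cast
    field_simp
  refine ⟨PosDef.smul hx (Real.rpow_pos_of_pos h0 _), ?_⟩
  rw [rad, sym_smul, det_smul, Fintype.card_fin, ← Real.rpow_natCast, ← Real.rpow_mul h0.le, h1,
    Real.rpow_neg_one, inv_mul_cancel₀ h0.ne']

theorem rad_val (y : XS n) : rad y.1 = y.1 := by rw [rad, y.2.2, Real.one_rpow, one_smul]

theorem ext_eq (f : XS n → ℝ) (hx : x ∈ cone n) : ext f x = f ⟨rad x, rad_mem hx⟩ :=
  dif_pos (rad_mem hx)

theorem ext_val (f : XS n → ℝ) (y : XS n) : ext f y.1 = f y :=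
  (ext_eq f y.2.1).trans (congrArg f (Subtype.ext (rad_val y)))

theorem ext_smul (f : XS n → ℝ) (t : ℝ) (ht : 0 < t) (x : Sy n → ℝ) (hx : x ∈ cone n) :
    ext f (t • x) = ext f x := by
  rw [ext, rad_smul hx ht, ext]

end Pool.Agent.P.MP_3c2f8c_gt.SA
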