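import Pool.Agent.P.MP_3c2f8c_gt.AO.XB
import Pool.Agent.P.MP_3c2f8c_gt.AO.Main

/-! The Casimir operator on the group is the Laplace-Beltrami operator on positive matrices. -/

namespace Pool.Agent.P.MP_3c2f8c_gt.AO

open Matrix E6 Topology NormedSpace
open SA (Sy sym XS rad cg cs exG lapC)

variable {n : ℕ}

/-- The coordinates of the part of trace zero. -/
noncomputable def pr0 : Mt n ℝ →ₗ[ℝ] (Ix n → ℝ) :=
  co ∘ₗ (LinearMap.id - (((n : ℝ) + 1)⁻¹ • traceLinearMap _ ℝ ℝ).smulRight 1)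

theorem emb_pr0 (X : Mt n ℝ) : emb (pr0 X) = X - (((n : ℝ) + 1)⁻¹ * X.trace) • 1 := by
  refine emb_co (X := X - (((n : ℝ) + 1)⁻¹ * X.trace) • 1) ?_
  rw [trace_sub, trace_smul, trace_one, Fintype.card_fin, smul_eq_mul]
  push_cast
  field_simp
  ring

theorem pr0_emb (x : Ix n → ℝ) : pr0 (emb x) = x := emb_injective (by
  rw [emb_pr0, trace_emb, mul_zero, zero_smul, sub_zero])

open scoped Matrix.Norms.Operator in
theorem eA_pr0 (X : Mt n ℝ) : eA (slT n ℝ) (pr0 X) = adG (exG X) := by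
  refine Subtype.ext (Units.ext (ext_emb fun y => ?_))
  rw [eA_val isLie_slT, emb_adG]
  generalize hD : adM (slT n ℝ) (pr0 X) = D
  have h0 : ∀ z, emb (D *ᵥ z) = X * emb z - emb z * X := fun z => by
    rw [← hD, ← br, emb_br, emb_pr0]
    simp [Matrix.sub_mul, Matrix.mul_sub]
  let L : Matrix (Ix n) (Ix n) ℝ →L[ℝ] Mt n ℝ :=
    LinearMap.toContinuousLinearMap (embL ∘ₗ (Matrix.mulVecBilin ℝ ℝ).flip y)
  have h : ∀ t : ℝ, HasDerivAt (fun t : ℝ => exp (t • -X) * L (exp (t • D)) * exp (t • X)) 0 t :=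
    fun t => by
    refine (((hasDerivAt_exp_smul_const (-X) t).mul (L.hasFDerivAt.comp_hasDerivAt t
      (hasDerivAt_exp_smul_const' D t))).mul (hasDerivAt_exp_smul_const' X t)).congr_deriv ?_
    change (exp (t • -X) * -X * emb (exp (t • D) *ᵥ y) +
      exp (t • -X) * emb ((D * exp (t • D)) *ᵥ y)) * exp (t • X) + exp (t • -X) *
          emb (exp (t • D) *ᵥ y) * (X * exp (t • X)) = 0
    rw [← mulVec_mulVec, h0]
    noncomm_ring
  have h2 := is_const_of_deriv_eq_zero (fun t => (h t).differentiableAt) (fun t => (h t).deriv) 1 0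
  simp only [one_smul, zero_smul, exp_zero, Matrix.one_mul, Matrix.mul_one] at h2
  change ((exG X)⁻¹).1 * emb (exp D *ᵥ y) * (exG X).1 = emb (1 *ᵥ y) at h2
  rw [one_mulVec] at h2
  rw [← h2, ← Matrix.mul_assoc, Units.mul_inv_cancel_right, Units.mul_inv_cancel_left]

theorem eA_emb (x : Ix n → ℝ) : eA (slT n ℝ) x = adG (exG (emb x)) := by
  rw [← eA_pr0, pr0_emb]

/-- The point of the cone attached to an automorphism, as a polynomial in its entries. -/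
noncomputable def Yp (M : Ix n → Ix n → ℝ) (a : Sy n) : ℝ :=
  (emb ((Matrix.of M * ((thL n ℝ).1.1 * (kilM (slT n ℝ))⁻¹) * (Matrix.of M)ᵀ *
    (kilM (slT n ℝ) * (thL n ℝ).1.1)) *ᵥ pr0 (single a.1.2 0 1)) +
      (((n : ℝ) + 1)⁻¹ * (single a.1.2 0 1 : Mt n ℝ).trace) • (1 : Mt n ℝ)) a.1.1 0

theorem contDiff_Yp : ContDiff ℝ (⊤ : ℕ∞) (Yp (n := n)) := by
  refine contDiff_pi.2 fun a => ContDiff.add ?_ contDiff_const
  refine (LinearMap.toContinuousLinearMap (entryLinearMap ℝ ℝ a.1.1 0 ∘ₗ embL)).contDiff.comp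
    (contDiff_pi.2 fun i => ?_)
  simp only [mulVec, dotProduct, mul_apply, of_apply, transpose_apply]
  fun_prop

theorem P_eq (h : Gl n ℝ) {u : AutL (slT n ℝ)} (hu : u * thL n ℝ = thL n ℝ * u) :
    adG h * u * thL n ℝ * (adG h * u)⁻¹ * thL n ℝ = adG (h * (itr h)⁻¹) := by
  rw [mul_assoc (adG h), hu, map_mul, ← map_inv itr, ← mul_one (adG (itr h⁻¹)), ← thL_sq,
    ← mul_assoc (adG (itr _)), ← thL_mul_adG, map_inv]
  group

theorem Yp_eq (h : Gl n ℝ) {u : AutL (slT n ℝ)} (hu : u * thL n ℝ = thL n ℝ * u) :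
    ∃ c : ℝ, 0 < c ∧ Yp (fun i j => (adG h * u).1.1 i j) = c • cg h.1 1 := by
  have h1 : PosDef (h.1 * h.1ᵀ) := by
    have h2 : PosDef _ := SA.cg_mem h
    rwa [SA.sym_cg _ transpose_one, Matrix.mul_one] at h2
  refine ⟨(h.1 * h.1ᵀ)⁻¹ 0 0, h1.inv.diag_pos, funext fun a => ?_⟩
  have h3 := emb_adG (h * (itr h)⁻¹) (pr0 (single a.1.2 0 1))
  rw [← P_eq h hu, emb_pr0, Matrix.mul_sub, Matrix.sub_mul, Matrix.mul_smul, Matrix.mul_one,
    Matrix.smul_mul, Units.mul_inv, eq_sub_iff_add_eq, coe_units_inv] at h3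
  generalize adG h * u = g at h3 ⊢
  simp only [Subgroup.coe_mul, Units.val_mul, isCartan_thL.inv_val, Matrix.mul_assoc] at h3
  have h4 := congrFun (congrFun h3 a.1.1) 0
  simp only [Yp, Matrix.mul_assoc]
  refine h4.trans ?_
  rw [itr_inv_val, ← Matrix.mul_assoc, Pi.smul_apply, SA.cg_apply, Matrix.mul_one, SA.cs_apply]
  generalize h.1 * h.1ᵀ = x
  simp [mul_apply, single_apply, ite_and, mul_comm]

theorem exists_dec (hn : 2 ≤ n) (g : AutL (slT n ℝ)) :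
    ∃ h u, u * thL n ℝ = thL n ℝ * u ∧ g = adG h * u := by
  obtain ⟨h, e | e⟩ := aut_sl hn g
  exacts [⟨h, 1, by simp, by simpa⟩, ⟨h, _, rfl, e⟩]

theorem Yp_mem (hn : 2 ≤ n) (g : AutL (slT n ℝ)) : Yp (fun i j => g.1.1 i j) ∈ SA.cone n := by
  obtain ⟨h, u, hu, rfl⟩ := exists_dec hn g
  obtain ⟨c, hc, e⟩ := Yp_eq h hu
  rw [e]
  exact PosDef.smul (SA.cg_mem h) hc

/-- The point of the symmetric space attached to an automorphism. -/
noncomputable def pt (hn : 2 ≤ n) (g : AutL (slT n ℝ)) : XS n := ⟨_, SA.rad_mem (Yp_mem hn g)⟩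

variable (hn : 2 ≤ n) {F : XS n → ℝ}

theorem pt_val (h : Gl n ℝ) {u : AutL (slT n ℝ)} (hu : u * thL n ℝ = thL n ℝ * u) :
    (pt hn (adG h * u)).1 = rad (cg h.1 1) := by
  obtain ⟨c, hc, e⟩ := Yp_eq h hu
  exact (congrArg rad e).trans (SA.rad_smul (SA.cg_mem h) hc)

theorem pt_adG (h : Gl n ℝ) : (pt hn (adG h)).1 = rad (cg h.1 1) := by
  simpa using pt_val hn h (u := 1) (by simp)

theorem pt_ext (F : XS n → ℝ) (h : Gl n ℝ) : F (pt hn (adG h)) = SA.ext F (cg h.1 1) :=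
  (congrArg F (Subtype.ext (pt_adG hn h))).trans (SA.ext_eq F (SA.cg_mem h)).symm

theorem pt_right {u : AutL (slT n ℝ)} (hu : u * thL n ℝ = thL n ℝ * u) (g : AutL (slT n ℝ)) :
    pt hn (g * u) = pt hn g := by
  obtain ⟨h, w, hw, rfl⟩ := exists_dec hn g
  refine Subtype.ext ?_
  rw [mul_assoc, pt_val hn h hw, pt_val hn h (Commute.mul_left hw hu)]

theorem exists_pt (y : XS n) : ∃ h : Gl n ℝ, cg h.1 1 = y.1 ∧ pt hn (adG h) = y :=
  (SA.exists_cg y.2.1).imp fun h e => ⟨e, Subtype.ext (by rw [pt_adG, e, SA.rad_val])⟩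

theorem sym_pt (h : Gl n ℝ) : ∃ c : ℝ, c ≠ 0 ∧ sym (pt hn (adG h)).1 = c • (h.1 * h.1ᵀ) :=
  ⟨_, (Real.rpow_pos_of_pos (PosDef.det_pos (SA.cg_mem h)) _).ne', by
    rw [pt_adG, rad, SA.sym_smul]
    congr 1
    rw [SA.sym_cg _ transpose_one, Matrix.mul_one]⟩

theorem eq_of_pt {f : AutL (slT n ℝ) → ℝ}
    (hf : ∀ u, u * thL n ℝ = thL n ℝ * u → ∀ g, f (g * u) = f g) {g g' : AutL (slT n ℝ)}
    (e : pt hn g = pt hn g') : f g = f g' := by
  obtain ⟨h, u, hu, rfl⟩ := exists_dec hn g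
  obtain ⟨h', u', hu', rfl⟩ := exists_dec hn g'
  rw [pt_right hn hu, pt_right hn hu'] at e
  obtain ⟨c, hc, h1⟩ := sym_pt hn h
  obtain ⟨c', -, h2⟩ := sym_pt hn h'
  have h3 : adG ((h' * (itr h')⁻¹)⁻¹ * (h * (itr h)⁻¹)) = 1 := adG_scalar (c := c⁻¹ * c') (by
    rw [Units.val_mul, Units.val_mul h, itr_inv_val, ← inv_smul_smul₀ hc (h.1 * _), ← h1, e, h2,
      smul_smul, Matrix.mul_smul]
    exact congrArg _ (Units.inv_mul _))
  rw [map_mul, map_inv, ← P_eq h hu, ← P_eq h' hu'] at h3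
  rw [← hf ((adG h * u)⁻¹ * (adG h' * u')) ?_ (adG h * u), mul_inv_cancel_left]
  generalize adG h * u = g at h3 ⊢
  generalize adG h' * u' = g' at h3 ⊢
  rw [inv_mul_eq_one, mul_left_inj] at h3
  rw [mul_assoc, ← inv_mul_cancel_right (g' * _) g', h3]
  group

theorem moves (k : Gl n ℝ) (g : AutL (slT n ℝ)) :
    SA.Moves (adG k) (pt hn g) (pt hn (adG k * g)) := by
  obtain ⟨h, u, hu, rfl⟩ := exists_dec hn g
  rw [← mul_assoc, pt_right hn hu, pt_right hn hu, ← map_mul]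
  obtain ⟨c, hc, h1⟩ := sym_pt hn h
  obtain ⟨c', -, h2⟩ := sym_pt hn (k * h)
  refine ⟨k, c' * c⁻¹, emb_adG k, ?_⟩
  rw [h1, h2, Matrix.mul_smul, Matrix.smul_mul, smul_smul, inv_mul_cancel_right₀ hc, Units.val_mul,
    transpose_mul]
  simp only [Matrix.mul_assoc]

theorem of_moves {γ : AutL (slT n ℝ)} {x y : XS n} (e : SA.Moves γ x y) :
    ∃ g, pt hn g = x ∧ pt hn (γ * g) = y := by
  obtain ⟨k, c, h1, h2⟩ := e
  obtain rfl : γ = adG k := Subtype.ext (Units.ext (ext_emb fun z => (h1 z).trans (emb_adG k z).symm))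
  obtain ⟨h, h3, h4⟩ := exists_pt hn x
  refine ⟨_, h4, Subtype.ext ?_⟩
  have h5 : y.1 = c • cg (k * h).1 1 := by
    rw [← SA.cs_sym y.1, h2, map_smul, ← h3, SA.sym_cg _ transpose_one, Units.val_mul, SA.cg_mul,
      SA.cg_apply]
  have h6 : 0 < sym y.1 0 0 := PosDef.diag_pos y.2.1
  rw [h5] at h6
  rw [← map_mul, pt_adG, ← SA.rad_val y, h5, SA.rad_smul (SA.cg_mem _)
    (pos_of_mul_pos_left h6 (PosDef.diag_pos (SA.cg_mem _)).le)]

theorem smooth_pt (hF : SA.Smooth F) : E6.Smooth fun g => F (pt hn g) := fun g => by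
  obtain ⟨ε, hε, hb⟩ := Metric.mem_nhds_iff.1 (SA.cone_nhds (Yp_mem hn g))
  let b : ContDiffBump (Yp fun i j => g.1.1 i j) := ⟨ε / 4, ε / 2, by positivity, by linarith⟩
  have hs : tsupport b ⊆ SA.cone n := by
    rw [b.tsupport_eq]
    exact (Metric.closedBall_subset_ball (half_lt_self hε)).trans hb
  refine ⟨(fun y => b y * SA.ext F y) ∘ Yp, (contDiff_iff_contDiffAt.2 fun y => ?_).comp
    contDiff_Yp, ?_⟩
  · by_cases hy : y ∈ SA.cone n
    · exact b.contDiff.contDiffAt.mul (ContDiffOn.contDiffAt hF (SA.cone_nhds hy))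
    · refine (contDiffAt_const (c := (0 : ℝ))).congr_of_eventuallyEq ?_
      filter_upwards [notMem_tsupport_iff_eventuallyEq.1 fun h => hy (hs h)] with z hz
      rw [hz, Pi.zero_apply, zero_mul]
  · filter_upwards [(contDiff_Yp.continuous.comp SmoAux.cont).continuousAt.eventually
      b.eventuallyEq_one] with y hy
    rw [Function.comp_apply] at hy ⊢
    rw [hy, Pi.one_apply, one_mul, SA.ext_eq F (Yp_mem hn y)]
    rfl

theorem smooth_of_pt (hF : E6.Smooth fun g => F (pt hn g)) : SA.Smooth F := fun x hx => by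
  obtain ⟨h, rfl⟩ := SA.exists_cg hx
  obtain ⟨ψ, h1, h2⟩ := SA.exists_sec h
  refine ContDiffAt.contDiffWithinAt (((hF.contDiff_chart isLie_slT (adG h)).comp
    (LinearMap.toContinuousLinearMap (pr0 ∘ₗ ((1 / 2 : ℝ) • SA.symL))).contDiff).contDiffAt.comp _
      h1 |>.congr_of_eventuallyEq (h2.mono fun y hy => ?_))
  rw [Function.comp_apply, Function.comp_apply, chart_eq isLie_slT]
  show _ = F (pt hn (adG h * eA _ (pr0 ((1 / 2 : ℝ) • sym (ψ y)))))
  rw [eA_pr0, ← map_mul, pt_ext hn F, ← SA.cg_exp, hy]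

open scoped Matrix.Norms.Operator in
theorem hasDerivAt_cg (h : Gl n ℝ) (X S : Mt n ℝ) :
    HasDerivAt (fun t : ℝ => cg (h * exG (t • X)).1 S) (cg h.1 (X * S + S * Xᵀ)) 0 := by
  have h1 := (LinearMap.toContinuousLinearMap (cg h.1)).hasFDerivAt.comp_hasDerivAt (0 : ℝ)
    (((hasDerivAt_exp_smul_const X (0 : ℝ)).mul_const S).mul (hasDerivAt_exp_smul_const Xᵀ (0 : ℝ)))
  simp only [zero_smul, exp_zero, Matrix.one_mul, Matrix.mul_one] at h1
  refine h1.congr_of_eventuallyEq (Filter.Eventually.of_forall fun t => ?_)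
  show cg (h.1 * exp (t • X)) S = cg h.1 (exp (t • X) * S * exp (t • Xᵀ))
  rw [SA.cg_mul, ← Matrix.exp_transpose, transpose_smul]

theorem mul_eA (h : Gl n ℝ) (t : ℝ) (x : Ix n → ℝ) :
    adG h * eA (slT n ℝ) (t • x) = adG (h * exG (t • emb x)) := by
  rw [eA_emb, map_mul, ← embL_apply, map_smul, embL_apply]

theorem cg_zero (h : Gl n ℝ) (X : Mt n ℝ) : h * exG ((0 : ℝ) • X) = h := Units.ext (by
  show h.1 * exp _ = _
  rw [zero_smul, exp_zero, Matrix.mul_one])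

theorem LD_one (hF : SA.Smooth F) (h : Gl n ℝ) (y : Ix n → ℝ) :
    LD y (fun g => F (pt hn g)) (adG h) =
      fderiv ℝ (SA.ext F) (cg h.1 1) (cg h.1 (emb y + (emb y)ᵀ)) := by
  have h1 := (smooth_pt hn hF).hasDerivAt isLie_slT y (adG h) 0
  simp only [mul_eA, pt_ext, cg_zero] at h1
  have h2 := hasDerivAt_cg h (emb y) 1
  rw [Matrix.mul_one, Matrix.one_mul] at h2
  have h3 := ((ContDiffOn.contDiffAt hF (SA.cone_nhds (SA.cg_mem
    (h * exG ((0 : ℝ) • emb y))))).differentiableAt (by simp)).hasFDerivAt.comp_hasDerivAt (0 : ℝ) h2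
  rw [cg_zero] at h3
  exact h1.unique h3

/-- The second derivative along two matrices. -/
noncomputable def Tb (A : (Sy n → ℝ) →L[ℝ] (Sy n → ℝ) →L[ℝ] ℝ) (B : (Sy n → ℝ) →L[ℝ] ℝ)
    (h : Mt n ℝ) : Mt n ℝ →ₗ[ℝ] Mt n ℝ →ₗ[ℝ] ℝ :=
  LinearMap.mk₂ ℝ (fun X Y => A (cg h (X + Xᵀ)) (cg h (Y + Yᵀ)) +
    B (cg h (X * (Y + Yᵀ) + (Y + Yᵀ) * Xᵀ)))
    (fun _ _ _ => by simp [add_mul, mul_add]; ring) (fun _ _ _ => by simp [mul_add])
    (fun _ _ _ => by simp [add_mul, mul_add]; ring) fun _ _ _ => by simp [add_mul, mul_add]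

theorem LD_two (hF : SA.Smooth F) (h : Gl n ℝ) (x y : Ix n → ℝ) :
    LD x (LD y fun g => F (pt hn g)) (adG h) = Tb (fderiv ℝ (fderiv ℝ (SA.ext F)) (cg h.1 1))
      (fderiv ℝ (SA.ext F) (cg h.1 1)) h.1 (emb x) (emb y) := by
  have h1 := ((smooth_pt hn hF).ld isLie_slT y).hasDerivAt isLie_slT x (adG h) 0
  simp only [mul_eA, LD_one hn hF, cg_zero] at h1
  have h2 := hasDerivAt_cg h (emb x) 1
  rw [Matrix.mul_one, Matrix.one_mul] at h2
  have h3 := SA.hasFDerivAt_two hF (SA.cg_mem (h * exG ((0 : ℝ) • emb x)))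
  have h4 := (h3.comp_hasDerivAt (0 : ℝ) h2).clm_apply
    (hasDerivAt_cg h (emb x) (emb y + (emb y)ᵀ))
  simp only [Function.comp_apply, cg_zero] at h4
  exact h1.unique h4

theorem contract (T : Mt n ℝ →ₗ[ℝ] Mt n ℝ →ₗ[ℝ] ℝ) (hT : ∀ X, T X 1 = 0) :
    2 * (n + 1) * ∑ i, ∑ j, (kilM (slT n ℝ))⁻¹ i j * T (emb (Pi.single i 1)) (emb (Pi.single j 1)) =
      ∑ k, ∑ l, T (single k l 1) (single l k 1) := by
  let W : Ix n → Mt n ℝ := fun j => ∑ k, ∑ l, pr0 (single l k 1) j • single k l 1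
  have h1 : ∀ j Z, (W j * Z).trace = pr0 Z j := fun j Z => by
    conv_rhs => rw [matrix_eq_sum_single Z, Finset.sum_comm]
    simp only [W, Finset.sum_mul, trace_sum, map_sum, Finset.sum_apply, Matrix.smul_mul, trace_smul,
      trace_single_mul]
    refine Finset.sum_congr rfl fun k _ => Finset.sum_congr rfl fun l _ => ?_
    rw [← mul_one (Z l k), ← smul_eq_mul (Z l k), ← smul_single, map_smul]
    simp [mul_comm]
  have h2 : ∀ j, emb (co (W j)) = W j := fun j => emb_co (by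
    have h3 := emb_pr0 (1 : Mt n ℝ)
    rw [trace_one, Fintype.card_fin, Nat.cast_succ, inv_mul_cancel₀ (by positivity), one_smul,
      sub_self, ← Lie1_zero] at h3
    rw [← Matrix.mul_one (W j), h1, emb_injective h3, Pi.zero_apply])
  have h3 : (kilM (slT n ℝ))⁻¹ = (2 * (n + 1) : ℝ)⁻¹ • Matrix.of fun j => co (W j) :=
    inv_eq_left_inv (Matrix.ext fun j i => by
      have h4 := Lie1_kil (co (W j)) (Pi.single i 1)
      rw [kil_eq, h2, h1, pr0_emb, mulVec_single_one] at h4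
      rw [Matrix.smul_mul, Matrix.smul_apply, smul_eq_mul, inv_mul_eq_iff_eq_mul₀ (by positivity),
        one_apply, ← Pi.single_apply]
      exact h4)
  have h4 : ∀ z : Ix n → ℝ, emb z = ∑ i, z i • emb (Pi.single i (1 : ℝ)) := fun z => by
    conv_lhs => rw [← embL_apply, pi_eq_sum_univ' z, map_sum]
    simp only [map_smul, embL_apply]
  have h5 : ∀ X Z, T X Z = ∑ j, pr0 Z j * T X (emb (Pi.single j 1)) := fun X Z => by
    have h6 := congrArg (T X) (emb_pr0 Z)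
    rw [map_sub, map_smul, hT, smul_zero, sub_zero, h4, map_sum] at h6
    simpa using h6.symm
  have h6 : ∀ j, ∑ i, co (W j) i * T (emb (Pi.single i 1)) (emb (Pi.single j 1)) =
      ∑ k, ∑ l, pr0 (single l k 1) j * T (single k l 1) (emb (Pi.single j 1)) := fun j => by
    have h7 := congrArg (fun X => T X (emb (Pi.single j 1))) ((h4 _).symm.trans (h2 j))
    simp only [map_sum, map_smul, LinearMap.sum_apply, LinearMap.smul_apply, smul_eq_mul] at h7
    rw [h7]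
    simp only [W, map_sum, map_smul, LinearMap.sum_apply, LinearMap.smul_apply, smul_eq_mul]
  rw [Finset.sum_comm, Finset.sum_congr rfl fun j _ => Finset.sum_congr rfl fun i _ =>
    congrArg (· * _) (Lap1Aux.inv_symm i j), h3]
  simp only [Matrix.smul_apply, of_apply, smul_eq_mul, mul_assoc, ← Finset.mul_sum, h6,
    h5 (single _ _ _) (single _ _ _)]
  rw [← mul_assoc, ← mul_assoc, mul_inv_cancel₀ (by positivity), one_mul, Finset.sum_comm]
  exact Finset.sum_congr rfl fun k _ => Finset.sum_comm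

theorem lap_pt (hF : SA.Smooth F) (g : AutL (slT n ℝ)) :
    E6.lap (fun g => F (pt hn g)) g = 2 / (n + 1) * SA.lap F (pt hn g) := by
  obtain ⟨k, u, hu, rfl⟩ := exists_dec hn g
  obtain ⟨h, h1, h2⟩ := exists_pt hn (pt hn (adG k))
  have h3 : ∀ u, u * thL n ℝ = thL n ℝ * u → ∀ g, E6.lap (fun g => F (pt hn g)) (g * u) =
      E6.lap (fun g => F (pt hn g)) g := fun u hu g =>
    lap_congr isLie_slT isCartan_thL (smooth_pt hn hF) (kilM_inv u) fun x => by
      rw [chart_eq isLie_slT, chart_eq isLie_slT, ← conj_eA isLie_slT,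
        ← pt_right hn hu (g * (_ * _))]
      simp only [mul_assoc, inv_mul_cancel, mul_one]
  have h0 := SA.ext_smul F
  have h4 := contract (Tb (fderiv ℝ (fderiv ℝ (SA.ext F)) (cg h.1 1))
    (fderiv ℝ (SA.ext F) (cg h.1 1)) h.1) fun X => by
      have h5 := SA.euler_two hF h0 (SA.cg_mem h) (cg h.1 (X + Xᵀ))
      simp [Tb, mul_add, add_mul] at h5 ⊢
      linarith
  have h5 : ∑ k, ∑ l, (single k l 1 * (single l k 1 + single k l 1) +
      (single l k 1 + single k l 1) * single l k 1 : Mt n ℝ) = (2 * (n + 2) : ℝ) • 1 := by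
    ext i j
    simp [Matrix.sum_apply, mul_add, add_mul, mul_apply, single_apply, ite_and, one_apply,
      Finset.sum_add_distrib]
    split_ifs <;> simp_all
    ring
  rw [h3 u hu, eq_of_pt hn h3 h2.symm, pt_right hn hu, SA.lap, ← h1, lap_eq_LD isLie_slT
    (smooth_pt hn hF)]
  simp only [LD_two hn hF]
  rw [eq_inv_mul_iff_mul_eq₀ (by positivity) |>.2 h4]
  simp only [Tb, LinearMap.mk₂_apply, transpose_single, Finset.sum_add_distrib]
  simp only [← map_sum (fderiv ℝ (SA.ext F) (cg h.1 1)), ← map_sum (cg h.1), h5, map_smul,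
    SA.euler hF h0 (SA.cg_mem h), smul_zero, add_zero]
  rw [Finset.sum_congr rfl fun k _ => Finset.sum_congr rfl fun l _ => by
    rw [add_comm (single l k (1 : ℝ))], ← SA.lapC_cg hF h0]
  field_simp
  ring

include hn in
theorem eig_equiv {Γ : Subgroup (AutL (slT n ℝ))} (hΓ : ∀ γ ∈ Γ, Inn γ.1) (ev : ℝ) :
    Nonempty (SA.Eig Γ ev ≃ₗ[ℝ] E6.Eig (thL n ℝ) Γ (2 / (n + 1) * ev)) := by
  have hs : Function.Surjective (pt hn) := fun y => (exists_pt hn y).elim fun h e => ⟨_, e.2⟩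
  let L : (XS n → ℝ) →ₗ[ℝ] AutL (slT n ℝ) → ℝ := LinearMap.funLeft ℝ ℝ (pt hn)
  have e : (SA.Eig Γ ev).map L = E6.Eig (thL n ℝ) Γ (2 / (n + 1) * ev) := by
    rw [SA.Eig, E6.Eig, Submodule.map_span]
    congr 1
    ext f
    constructor
    · rintro ⟨F, ⟨h1, h2, h3⟩, rfl⟩
      refine ⟨smooth_pt hn h1, fun γ hγ g => ?_, fun u hu g => congrArg F (pt_right hn hu g),
        fun g => (lap_pt hn h1 g).trans ?_⟩
      · obtain ⟨k, hk⟩ := inn_iff.1 (hΓ γ hγ)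
        obtain rfl : adG k = γ := Subtype.ext hk
        exact h2 _ hγ _ _ (moves hn k g)
      · rw [h3, ← mul_assoc, mul_neg]
        rfl
    · rintro ⟨h1, h2, h3, h4⟩
      obtain ⟨F, rfl⟩ : ∃ F : XS n → ℝ, f = fun g => F (pt hn g) :=
        ⟨fun y => f (Function.surjInv hs y), funext fun g =>
          eq_of_pt hn h3 (Function.surjInv_eq hs _).symm⟩
      refine ⟨F, ⟨smooth_of_pt hn h1, fun γ hγ x y e => ?_, fun x => ?_⟩, rfl⟩
      · obtain ⟨g, rfl, rfl⟩ := of_moves hn e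
        exact h2 γ hγ g
      · obtain ⟨g, rfl⟩ := hs x
        have h5 := (lap_pt hn (smooth_of_pt hn h1) g).symm.trans (h4 g)
        rw [← mul_neg, mul_assoc] at h5
        exact mul_left_cancel₀ (by positivity) h5
  exact ⟨(Submodule.equivMapOfInjective L (LinearMap.funLeft_injective_of_surjective ℝ ℝ _ hs)
    _).trans (LinearEquiv.ofEq _ _ e)⟩

include hn in
theorem mainX : ∃ Γ₁ Γ₂ : Subgroup (SA.Aut n), SA.IsMfd Γ₁ ∧ SA.IsMfd Γ₂ ∧ SA.IsArithOuter Γ₁ ∧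
    SA.IsArithOuter Γ₂ ∧ SA.Isospectral Γ₁ Γ₂ ∧ ¬ SA.WideComm Γ₁ Γ₂ := by
  obtain ⟨θ, h0, -, Γ₁, Γ₂, h1, h2, h3, h4, h5, h6⟩ := main hn
  obtain rfl : θ = thL n ℝ :=
    Subtype.ext (Units.ext (ext_emb fun x => (h0 x).trans (emb_thL x).symm))
  refine ⟨Γ₁, Γ₂, h1, h2, h3, h4, fun ev => ?_, h6⟩
  obtain ⟨e₁⟩ := eig_equiv hn h1.2.2.2 ev
  obtain ⟨e₂⟩ := eig_equiv hn h2.2.2.2 ev
  obtain ⟨f₁, f₂, f⟩ := h5 (2 / (n + 1) * ev)
  exact ⟨.equiv e₁.symm, .equiv e₂.symm, e₁.finrank_eq.trans (f.trans e₂.finrank_eq.symm)⟩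

end Pool.Agent.P.MP_3c2f8c_gt.AO
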